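import Pool.Agent.P.MP_cf639b_al.Iface

set_option linter.dupNamespace false

namespace Pool.Agent.P.MP_cf639b_al

universe u v
open TensorProduct Polynomial Function

section
variable {k : Type u} [Field k] {R : Type u} [Ring R] [Algebra k R]

theorem af12_aeval {V V' : XV k} (g : XH V V') (p : k[X]) (v : V) :
    g.1 (aeval V.x p v) = aeval V'.x p (g.1 v) := by
  induction p using Polynomial.induction_on' with
  | add p q hp hq => simp only [map_add, LinearMap.add_apply, hp, hq]
  | monomial n c =>
    simp only [aeval_monomial, Module.End.mul_apply, Module.algebraMap_end_apply, map_smul,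
      XH.comm_pow]

theorem af12_left {K : Type u} [Field K] [Algebra k K] (t : K) (p : k[X]) (z : K) :
    aeval (LinearMap.mulLeft k t) p z = aeval t p * z := by
  have e : LinearMap.mulLeft k t = Algebra.lmul k K t := rfl
  rw [e, aeval_algHom_apply]
  rfl

/-- the free module of rank one -/
noncomputable abbrev af12_V (k : Type u) [Field k] : XV k := ⟨k[X], LinearMap.mulLeft k X⟩

/-- the map from the free module given by an element -/
noncomputable def af12_g (V : XV k) (v : V) : XH (af12_V k) V :=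
  ⟨LinearMap.applyₗ v ∘ₗ (aeval V.x : k[X] →ₐ[k] Module.End k V).toLinearMap,
    LinearMap.ext fun p => by simp⟩

theorem af12_g_apply (V : XV k) (v : V) (p : k[X]) : (af12_g V v).1 p = aeval V.x p v := rfl

theorem af12_zero {n m : ℕ} (c : ∀ V : XV k, (Fin n → V) →ₗ[k] (Fin m → V))
    (hc : ∀ (V V' : XV k) (g : XH V V') (v : Fin n → V),
      c V' (fun a => g.1 (v a)) = fun b => g.1 (c V v b))
    {K : Type u} [Field K] [Algebra k K] {t : K} (ht : Transcendental k t)
    (h0 : ∀ v, c (one k t).V v = 0) (V : XV k) (v : Fin n → V) : c V v = 0 := by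
  have h1 : ∀ w b, c (af12_V k) w b = 0 := fun w b => by
    have := congrFun (hc _ _ (af12_g (one k t).V (1 : K)) w) b
    rw [h0, af12_g_apply] at this
    have e := af12_left t (c (af12_V k) w b) 1
    rw [mul_one] at e
    exact transcendental_iff.1 ht _ (e.symm.trans this.symm)
  rw [← Finset.univ_sum_single v, map_sum]
  refine Finset.sum_eq_zero fun a _ => ?_
  have e : (Pi.single a (v a) : Fin n → V) =
      fun a' => (af12_g V (v a)).1 ((Pi.single a 1 : Fin n → k[X]) a') := by
    funext a'
    by_cases h : a' = a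
    · subst h
      rw [af12_g_apply, Pi.single_eq_same, Pi.single_eq_same, map_one]
      rfl
    · simp [h]
  rw [e, hc]
  funext b
  rw [h1, map_zero]
  rfl

theorem af12_mul (H : NF k R) (V : XV k) (p q : k[X]) (z : H.obj V) :
    H.map (XH.pol V (p * q)) z = H.map (XH.pol V p) (H.map (XH.pol V q) z) := by
  have e : XH.pol V (p * q) = XH.comp (XH.pol V p) (XH.pol V q) := Subtype.ext (map_mul _ p q)
  rw [e, H.map_comp]
  rfl

theorem af12_nat (H : NF k R) {V V' : XV k} (g : XH V V') (p : k[X]) (z : H.obj V) :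
    H.map g (H.map (XH.pol V p) z) = H.map (XH.pol V' p) (H.map g z) := by
  have e : XH.comp g (XH.pol V p) = XH.comp (XH.pol V' p) g :=
    Subtype.ext (LinearMap.ext (af12_aeval g p))
  have := congrArg (fun u => H.map u z) e
  simpa only [H.map_comp, LinearMap.comp_apply] using this

theorem af12_kill {G H : NF k R} (hG : IsAF G) (hH : IsAF H)
    (c : ∀ V : XV k, G.obj V →ₗ[k] H.obj V)
    (hc : ∀ (V V' : XV k) (g : XH V V') (z : G.obj V), H.map g (c V z) = c V' (G.map g z))
    {K : Type u} [Field K] [Algebra k K] {t : K} (ht : Transcendental k t)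
    (h0 : ∀ z, c (one k t).V z = 0) :
    ∃ h : k[X], h ≠ 0 ∧ ∀ V z, H.map (XH.pol V h) (c V z) = 0 := by
  obtain ⟨n, p, i, j, hp, i1, -, i3, -⟩ := hG
  obtain ⟨m, q, i', j', hq, -, j2, j3, -⟩ := hH
  have key := af12_zero (fun V => j' V ∘ₗ c V ∘ₗ i V) (fun V V' g v => by
    simp only [LinearMap.comp_apply]
    rw [← i1, ← hc, j2]) ht (fun v => by
    simp only [LinearMap.comp_apply]
    rw [h0, map_zero])
  refine ⟨q * p, mul_ne_zero hq hp, fun V z => ?_⟩
  have := key V (j V z)
  simp only [LinearMap.comp_apply] at this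
  rw [af12_mul, hc, ← i3, ← j3, this, map_zero]

/-- the operator given by a matrix of polynomials -/
noncomputable def af12_M {n m : ℕ} (P : Fin n → Fin m → k[X]) (V : XV k) :
    (Fin n → V) →ₗ[k] (Fin m → V) :=
  LinearMap.pi fun b => ∑ a, (aeval V.x (P a b) : Module.End k V) ∘ₗ LinearMap.proj a

theorem af12_M_apply {n m : ℕ} (P : Fin n → Fin m → k[X]) (V : XV k) (v : Fin n → V) (b : Fin m) :
    af12_M P V v b = ∑ a, aeval V.x (P a b) (v a) := by
  simp [af12_M]

theorem af12_den {K : Type u} [Field K] [Algebra k K] {t : K} (ht : Gen k t) {ι : Type}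
    [Fintype ι] (e : ι → K) :
    ∃ (q : k[X]) (P : ι → k[X]), q ≠ 0 ∧ ∀ i, e i * aeval t q = aeval t (P i) := by
  choose p q hq h using fun i => ht.2 (e i)
  choose r hr using fun i => Finset.dvd_prod_of_mem q (Finset.mem_univ i)
  refine ⟨∏ i, q i, fun i => p i * r i, Finset.prod_ne_zero_iff.2 fun i _ => hq i, fun i => ?_⟩
  rw [hr i, map_mul, map_mul, ← mul_assoc, h]

theorem af12_lin {G H : NF k R} (hG : IsAF G) (hH : IsAF H) {K : Type u} [Field K] [Algebra k K]
    {t : K} (ht : Gen k t) (f : G.obj (one k t).V →ₗ[R] H.obj (one k t).V)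
    (hf : ∀ (a : K) z, f (G.map ((one k t).sc a) z) = H.map ((one k t).sc a) (f z)) :
    ∃ (h : k[X]) (c : ∀ V : XV k, G.obj V →ₗ[k] H.obj V), h ≠ 0 ∧
      (∀ (V V' : XV k) (g : XH V V') (z : G.obj V), H.map g (c V z) = c V' (G.map g z)) ∧
      ∀ z, c (one k t).V z = H.map (XH.pol _ h) (f z) := by
  classical
  obtain ⟨n, p, i, j, hp, i1, i2, i3, -⟩ := hG
  obtain ⟨m, q, i', j', hq, j1, j2, j3, -⟩ := hH
  let φ : (Fin n → K) →ₗ[k] (Fin m → K) := j' (one k t).V ∘ₗ f.restrictScalars k ∘ₗ i (one k t).V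
  have hφ : ∀ (a : K) (v : Fin n → K), φ (fun b => a * v b) = fun b => a * φ v b := fun a v => by
    have e1 := i1 _ _ ((one k t).sc a) v
    have e2 := j2 _ _ ((one k t).sc a) (f (i (one k t).V v))
    rw [← hf, e1] at e2
    exact e2
  obtain ⟨r, P, hr, hP⟩ := af12_den ht fun x : Fin n × Fin m => φ (Pi.single x.1 1) x.2
  have e0 : ∀ (v : Fin n → K) b, af12_M (fun a b => P (a, b)) (one k t).V v b =
      aeval t r * φ v b := fun v b => by
    rw [af12_M_apply]
    conv_rhs => rw [← Finset.univ_sum_single v, map_sum, Finset.sum_apply, Finset.mul_sum]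
    refine Finset.sum_congr rfl fun a _ => ?_
    have e : (Pi.single a (v a) : Fin n → K) = fun b => v a * (Pi.single a 1 : Fin n → K) b := by
      funext a'
      by_cases h : a' = a
      · subst h; simp
      · simp [h]
    rw [e, hφ]
    refine (af12_left t _ _).trans ?_
    rw [← hP]
    ring
  have e1 : XH.pol (one k t).V p = (one k t).sc (aeval t p) :=
    Subtype.ext (LinearMap.ext (af12_left t p))
  refine ⟨r * (q * p), fun V => i' V ∘ₗ af12_M (fun a b => P (a, b)) V ∘ₗ j V,
    mul_ne_zero hr (mul_ne_zero hq hp), fun V V' g z => ?_, fun z => ?_⟩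
  · simp only [LinearMap.comp_apply]
    rw [j1, i2]
    refine congrArg _ (funext fun b => ?_)
    simp only [af12_M_apply, map_sum, af12_aeval]
  · simp only [LinearMap.comp_apply]
    rw [af12_mul, af12_mul, e1, ← hf, ← e1, ← i3, ← j3, j1]
    refine congrArg _ (funext fun b => ?_)
    exact (e0 _ b).trans (af12_left t r _).symm

end

theorem t_AF2 (k : Type u) [Field k] [IsAlgClosed k] (R : Type u) [Ring R] [Algebra k R]
    [FiniteDimensional k R] :
    S_AF2 k R := by
  intro G H hG hH K _ _ t ht a ha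
  obtain ⟨h, h0, h1⟩ := af12_kill hG hH (fun V => (a.app V).restrictScalars k)
    (fun V V' g z => LinearMap.congr_fun (a.nat g) z) ht fun z => LinearMap.congr_fun ha z
  exact ⟨h, h0, fun V => LinearMap.ext (h1 V)⟩

theorem t_AF1 (k : Type u) [Field k] [IsAlgClosed k] (R : Type u) [Ring R] [Algebra k R]
    [FiniteDimensional k R]
    (hAF2 : ∀ (S : Type u) [Ring S] [Algebra k S] [FiniteDimensional k S], S_AF2 k S) :
    S_AF1 k R := by
  intro G H hG hH K _ _ t ht f hf
  obtain ⟨h, c, h0, c1, c2⟩ := af12_lin hG hH ht f hf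
  have key : ∀ r : R, ∃ p : k[X], p ≠ 0 ∧ ∀ V z,
      H.map (XH.pol V p) (c V (r • z)) = r • H.map (XH.pol V p) (c V z) := fun r => by
    obtain ⟨p, p0, p1⟩ := af12_kill hG hH
      (fun V => c V ∘ₗ DistribSMul.toLinearMap k _ r - DistribSMul.toLinearMap k _ r ∘ₗ c V)
      (fun V V' g z => by
        simp only [LinearMap.sub_apply, LinearMap.comp_apply, DistribSMul.toLinearMap_apply,
          map_sub, map_smul, c1]) ht.1 fun z => by
        simp only [LinearMap.sub_apply, LinearMap.comp_apply, DistribSMul.toLinearMap_apply,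
          c2, map_smul, sub_self]
    refine ⟨p, p0, fun V z => ?_⟩
    have := p1 V z
    simp only [LinearMap.sub_apply, LinearMap.comp_apply, DistribSMul.toLinearMap_apply,
      map_sub, map_smul] at this
    exact sub_eq_zero.1 this
  choose p p0 p1 using key
  choose s hs using fun i => Finset.dvd_prod_of_mem (fun i => p (bR k R i)) (Finset.mem_univ i)
  generalize hq : ∏ i, p (bR k R i) = q at hs
  have q0 : q ≠ 0 := hq ▸ Finset.prod_ne_zero_iff.2 fun i _ => p0 _
  have lin : ∀ V (r : R) z,
      H.map (XH.pol V q) (c V (r • z)) = r • H.map (XH.pol V q) (c V z) := fun V r z => by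
    rw [← (bR k R).sum_repr r]
    simp only [Finset.sum_smul, smul_assoc, map_sum, map_smul, LinearMap.map_smul_of_tower]
    refine Finset.sum_congr rfl fun i _ => congrArg _ ?_
    rw [hs i, mul_comm, af12_mul, af12_mul, p1, map_smul]
  refine ⟨q * h, ⟨fun V => ⟨⟨fun z => H.map (XH.pol V q) (c V z), fun z z' => by
    rw [map_add, map_add]⟩, lin V⟩, fun g => LinearMap.ext fun z => ?_⟩, mul_ne_zero q0 h0,
    LinearMap.ext fun z => ?_⟩
  · change H.map g (H.map _ (c _ z)) = H.map _ (c _ (G.map g z))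
    rw [af12_nat, c1]
  · change H.map _ (c _ z) = H.map _ (f z)
    rw [c2, af12_mul]

end Pool.Agent.P.MP_cf639b_al
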