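import Pool.Agent.P.MP_cf639b_al.Iface

set_option linter.dupNamespace false

namespace Pool.Agent.P.MP_cf639b_al

universe u v
open TensorProduct Polynomial Function

section
variable {k : Type u} [Field k] {L : Type u} [Field L] [Algebra k L]

theorem aut_iff {s : Set L} {a : L} :
    TrO k s a ↔ a ∉ (AlgebraicIndependent.matroid k L).closure s := by
  rw [AlgebraicIndependent.matroid_closure_eq, SetLike.mem_coe,
    Subalgebra.mem_algebraicClosure, TrO,
    IntermediateField.transcendental_adjoin_iff]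
  rfl

theorem aut_aut [IsAlgClosed L] {a b : L} (ha : Transcendental k a) (hb : Transcendental k b) :
    ∃ σ : L ≃ₐ[k] L, σ a = b := by
  classical
  have key : ∀ a : L, Transcendental k a → ∃ t : Set L, a ∈ t ∧
      IsTranscendenceBasis k ((↑) : t → L) := fun a ha => by
    obtain ⟨t, h1, h2⟩ := exists_isTranscendenceBasis_superset (R := k) (s := {a})
      ((algebraicIndependent_singleton_iff (x := fun x : ({a} : Set L) => id (x : L))
        ⟨a, rfl⟩).2 ha)
    exact ⟨t, h1 rfl, h2⟩
  obtain ⟨t, hat, ht⟩ := key a ha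
  obtain ⟨t', hbt, ht'⟩ := key b hb
  obtain ⟨e0⟩ := Cardinal.eq.1 (ht.cardinalMk_eq ht')
  let e : t ≃ t' := e0.trans (Equiv.swap (e0 ⟨a, hat⟩) ⟨b, hbt⟩)
  have he : e ⟨a, hat⟩ = ⟨b, hbt⟩ := by simp [e]
  let := IsAlgClosed.isAlgClosure_of_transcendence_basis _ ht
  let := IsAlgClosed.isAlgClosure_of_transcendence_basis _ ht'
  let f := (ht.1.aevalEquiv.symm.trans (MvPolynomial.renameEquiv k e)).trans ht'.1.aevalEquiv
  let σ := IsAlgClosure.equivOfEquiv L L f.toRingEquiv
  have hσ : ∀ z, σ (algebraMap _ L z) = algebraMap _ L (f z) := fun z =>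
    IsAlgClosure.equivOfEquiv_algebraMap L L f.toRingEquiv z
  refine ⟨AlgEquiv.ofRingEquiv (f := σ) fun c => ?_, ?_⟩
  · exact (hσ (algebraMap k _ c)).trans (congrArg _ (f.commutes c))
  · have := hσ (ht.1.aevalEquiv (MvPolynomial.X ⟨a, hat⟩))
    simp only [f, AlgEquiv.trans_apply, AlgEquiv.symm_apply_apply, MvPolynomial.renameEquiv_apply,
      MvPolynomial.rename_X, he, AlgebraicIndependent.algebraMap_aevalEquiv,
      MvPolynomial.aeval_X] at this
    exact this

theorem aut_fix {s : Set L} (σ : L ≃ₐ[k] L) (h : ∀ c ∈ s, σ c = c)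
    (z : IntermediateField.adjoin k s) : σ z = z := by
  obtain ⟨z, hz⟩ := z
  induction hz using IntermediateField.adjoin_induction with
  | mem x hx => exact h x hx
  | algebraMap x => exact σ.commutes x
  | add x y _ _ hx hy => exact (map_add σ x y).trans (congrArg₂ _ hx hy)
  | inv x _ hx => exact (map_inv₀ σ x).trans (congrArg _ hx)
  | mul x y _ _ hx hy => exact (map_mul σ x y).trans (congrArg₂ _ hx hy)

theorem aut_map {s : Set L} {a : L} (σ : L ≃ₐ[k] L) (h : TrO k s a) : TrO k (σ '' s) (σ a) := by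
  intro h'
  have e : (IntermediateField.adjoin k (σ '' s)).map σ.symm.toAlgHom =
      IntermediateField.adjoin k s := by
    rw [IntermediateField.adjoin_map, Set.image_image]
    simp
  let f : IntermediateField.adjoin k (σ '' s) →+* IntermediateField.adjoin k s :=
    (σ.symm.toRingEquiv.toRingHom.comp (IntermediateField.adjoin k (σ '' s)).val.toRingHom).codRestrict
      (IntermediateField.adjoin k s).toSubring fun z => e.le ⟨z, z.2, rfl⟩
  have := h'.ringHom_of_comp_eq f σ.symm.toRingEquiv.toRingHom f.injective rfl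
  exact h (by simpa using this)

theorem aut_gen_inv {t : L} (h : Gen k t) : Gen k t⁻¹ := by
  have h1 : Transcendental k t⁻¹ := fun e => h.1 (IsAlgebraic.inv_iff.1 e)
  refine ⟨h1, fun a => ?_⟩
  obtain ⟨p, q, hq, e⟩ := h.2 a
  have ht : t ∈ IntermediateField.adjoin k {t⁻¹} := by
    simpa using inv_mem (IntermediateField.mem_adjoin_simple_self k t⁻¹)
  have hm : ∀ p : k[X], aeval t p ∈ IntermediateField.adjoin k {t⁻¹} := fun p =>
    Algebra.adjoin_le (S := (IntermediateField.adjoin k {t⁻¹}).toSubalgebra)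
      (Set.singleton_subset_iff.2 ht) (aeval_mem_adjoin_singleton k t)
  have ha : a ∈ IntermediateField.adjoin k {t⁻¹} := by
    rw [eq_div_of_mul_eq (fun e => h.1 ⟨q, hq, e⟩) e]
    exact div_mem (hm p) (hm q)
  obtain ⟨r, r', e'⟩ := (IntermediateField.mem_adjoin_simple_iff k a).1 ha
  rcases eq_or_ne r' 0 with rfl | hr
  · exact ⟨0, 1, one_ne_zero, by simp [e']⟩
  · exact ⟨r, r', hr, by rw [e', div_mul_cancel₀ _ fun e => h1 ⟨r', hr, e⟩]⟩

theorem aut_emb {K : Type u} [Field K] [Algebra k K] {t : K} (h : Gen k t) {y : L}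
    (hy : Transcendental k y) : ∃ ι : K →ₐ[k] L, ι t = y := by
  let : Algebra k[X] K := (aeval t).toRingHom.toAlgebra
  have : IsScalarTower k k[X] K := .of_algebraMap_eq fun c => (aeval_C t c).symm
  have : FaithfulSMul k[X] K := (faithfulSMul_iff_algebraMap_injective _ _).2
    (transcendental_iff_injective.1 h.1)
  have : IsFractionRing k[X] K := IsFractionRing.of_field k[X] K fun z => by
    obtain ⟨p, q, hq, e⟩ := h.2 z
    exact ⟨p, q, eq_div_of_mul_eq (fun e => h.1 ⟨q, hq, e⟩) e⟩
  refine ⟨IsFractionRing.liftAlgHom (g := aeval y) (transcendental_iff_injective.1 hy), ?_⟩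
  have : t = algebraMap k[X] K X := (aeval_X t).symm
  rw [this, IsFractionRing.liftAlgHom_apply, IsFractionRing.lift_algebraMap]
  exact aeval_X y

theorem aut_big0 [IsAlgClosed L] {x : ℕ → L} (h3 : AlgebraicIndependent k x) : Big k L := by
  refine ⟨inferInstance, fun s => ?_⟩
  by_contra! h
  have h1 : Algebra.IsAlgebraic (Algebra.adjoin k (s : Set L)) L :=
    ⟨fun y => IntermediateField.isAlgebraic_adjoin_iff.1 (not_not.1 (h y))⟩
  have h2 := Algebra.IsAlgebraic.trdeg_le_cardinalMk k (s : Set L)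
  have h4 := h3.lift_cardinalMk_le_trdeg
  simp only [Cardinal.mk_nat, Cardinal.lift_aleph0, Cardinal.aleph0_le_lift] at h4
  exact absurd (h4.trans h2) (not_le.2 (Cardinal.lt_aleph0_of_finite _))

variable (k) in
theorem aut_big : Big k (AlgebraicClosure (FractionRing (MvPolynomial ℕ k))) :=
  aut_big0 (((MvPolynomial.algebraicIndependent_X ℕ k).map'
    (f := IsScalarTower.toAlgHom k _ (FractionRing (MvPolynomial ℕ k)))
    (IsFractionRing.injective _ _)).map' (f := IsScalarTower.toAlgHom k _ _)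
    (RingHom.injective (algebraMap (FractionRing (MvPolynomial ℕ k))
      (AlgebraicClosure (FractionRing (MvPolynomial ℕ k))))))

end

theorem aut_all (k : Type u) [Field k] : S_AUT k where
  aut L _ _ _ s a b ha hb := by
    obtain ⟨σ, h⟩ := aut_aut ha hb
    exact ⟨σ.restrictScalars k, fun c hc =>
      σ.commutes ⟨c, IntermediateField.subset_adjoin k s hc⟩, h⟩
  mono L _ _ s s' a h ha := aut_iff.2 fun e => aut_iff.1 ha (Matroid.closure_subset_closure _ h e)
  tr L _ _ s a h := fun e => h (e.tower_top _)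
  empty L _ _ a h := by
    rw [TrO, IntermediateField.adjoin_empty]
    exact fun e => h (e.restrictScalars k)
  ne L _ _ s a h := fun e => aut_iff.1 h (Matroid.subset_closure _ _ (Set.subset_univ _) e)
  exch L _ _ s a b ha hb := aut_iff.2 fun e =>
    aut_iff.1 hb (Matroid.mem_closure_insert (aut_iff.1 ha) e)
  alg L _ _ s s' a ha h := aut_iff.2 fun e => aut_iff.1 ha
    (Matroid.closure_subset_closure_of_subset_closure (Set.union_subset
      (Matroid.subset_closure _ _ (Set.subset_univ _)) fun c hc =>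
        not_not.1 (aut_iff.not.1 (h c hc))) e)
  map L _ _ s a σ h := aut_map σ h
  orbit L _ _ s a h := by
    obtain ⟨p, hp, e⟩ := not_not.1 h
    refine (p.rootSet_finite L).subset ?_
    rintro _ ⟨σ, hσ, rfl⟩
    let τ : L →ₐ[IntermediateField.adjoin k s] L := ⟨(σ : L →+* L), aut_fix σ hσ⟩
    exact mem_rootSet.2 ⟨hp, (aeval_algHom_apply τ a p).trans (by rw [e, map_zero])⟩
  gen := ⟨RatFunc.transcendental_X, fun a => ⟨a.num, a.denom, a.denom_ne_zero, by
    simp only [RatFunc.aeval_X_left_eq_algebraMap]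
    exact (eq_div_iff (by simpa using a.denom_ne_zero)).1 a.num_div_denom.symm⟩⟩
  gen_inv K _ _ t h := aut_gen_inv h
  emb K _ _ t h L _ _ y hy := aut_emb h hy
  big := ⟨_, _, _, aut_big k⟩

theorem t_AUT (k : Type u) [Field k] [IsAlgClosed k] :
    S_AUT k := by
  exact aut_all k

theorem aut_jord (F : Type u) [Field F] [IsAlgClosed F] (N : Type u) [AddCommGroup N]
    [Module F[X] N] [Module.Finite F[X] N] (ht : Module.IsTorsion F[X] N) :
    ∃ (n : ℕ) (y : Fin n → F) (m : Fin n → ℕ) (i : ∀ l, JT (y l) (m l + 1) →ₗ[F[X]] N)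
      (p : ∀ l, N →ₗ[F[X]] JT (y l) (m l + 1)), (∀ l z, p l (i l z) = z) ∧
      (∀ l l', l ≠ l' → ∀ z, p l' (i l z) = 0) ∧ ∀ w, ∑ l, i l (p l w) = w := by
  classical
  obtain ⟨ι, _, π, hπ, e, ⟨E⟩⟩ := Module.equiv_directSum_of_isTorsion ht
  have : ∀ j, ∃ y : F, Associated (π j) (X - C y) := fun j => by
    obtain ⟨y, hy⟩ := IsAlgClosed.exists_root (π j) (degree_pos_of_irreducible (hπ j)).ne'
    exact ⟨y, ((irreducible_X_sub_C y).associated_of_dvd (hπ j) (dvd_iff_isRoot.2 hy)).symm⟩
  choose y hy using this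
  let σ := (Fintype.equivFin {j // e j ≠ 0}).symm
  let Q : ∀ l, (F[X] ⧸ F[X] ∙ π (σ l) ^ e (σ l)) ≃ₗ[F[X]] JT (y (σ l)) (e (σ l) - 1 + 1) :=
    fun l => Submodule.quotEquivOfEq _ _ (by
      rw [Nat.sub_add_cancel (Nat.one_le_iff_ne_zero.2 (σ l).2)]
      exact Ideal.span_singleton_eq_span_singleton.2 (hy _).pow_pow)
  refine ⟨_, fun l => y (σ l), fun l => e (σ l) - 1,
    fun l => E.symm.toLinearMap ∘ₗ DirectSum.lof F[X] ι _ (σ l) ∘ₗ (Q l).symm.toLinearMap,
    fun l => (Q l).toLinearMap ∘ₗ DirectSum.component F[X] ι _ (σ l) ∘ₗ E.toLinearMap,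
    fun l z => by simp, fun l l' h z => ?_, fun w => E.injective ?_⟩
  · have : (σ l : ι) ≠ σ l' := fun e => h (σ.injective (Subtype.ext e))
    simp [DirectSum.component.of, this]
  · simp only [LinearMap.comp_apply, LinearEquiv.coe_coe, LinearEquiv.symm_apply_apply, map_sum,
      LinearEquiv.apply_symm_apply]
    rw [σ.sum_comp fun j => DirectSum.lof F[X] ι (fun i => F[X] ⧸ F[X] ∙ π i ^ e i) j
      (DirectSum.component F[X] ι _ j (E w)), ← Finset.sum_subtype (Finset.univ.filter (e · ≠ 0))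
      (by simp) fun j => DirectSum.lof F[X] ι (fun i => F[X] ⧸ F[X] ∙ π i ^ e i) j
      (DirectSum.component F[X] ι _ j (E w)), Finset.sum_filter_of_ne]
    · exact DirectSum.sum_univ_of (E w)
    · intro j _ hj h0
      have : Subsingleton (F[X] ⧸ F[X] ∙ π j ^ e j) := by
        rw [h0, pow_zero]
        exact Submodule.Quotient.subsingleton_iff.2 Ideal.span_singleton_one
      exact hj (by rw [Subsingleton.elim (DirectSum.component F[X] ι _ j (E w)) 0, map_zero])

theorem t_JORD (k : Type u) [Field k] [IsAlgClosed k] :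
    S_JORD k := by
  intro F _ _ _ V hV
  let φ : V.V →ₗ[F] V.V :=
    { toFun := V.V.x
      map_add' := map_add _
      map_smul' := fun a v => (LinearMap.congr_fun (V.comm a) v).symm }
  obtain ⟨n, y, m, i, p, h1, h2, h3⟩ := aut_jord F (Module.AEval' φ)
    (Module.AEval.isTorsion_of_finiteDimensional F V.V φ)
  let i' : ∀ l, JT (y l) (m l + 1) →ₗ[F] V.V := fun l =>
    (Module.AEval'.of φ).symm.toLinearMap ∘ₗ (i l).restrictScalars F
  let p' : ∀ l, V.V →ₗ[F] JT (y l) (m l + 1) := fun l =>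
    (p l).restrictScalars F ∘ₗ (Module.AEval'.of φ).toLinearMap
  refine ⟨n, y, m, fun l => ⟨(i' l).restrictScalars k, LinearMap.ext fun z => ?_⟩,
    fun l => ⟨(p' l).restrictScalars k, LinearMap.ext fun z => ?_⟩, fun l a z => ?_,
    fun l a z => ?_, fun l => Subtype.ext (LinearMap.ext fun z => h1 l z),
    fun l l' h => Subtype.ext (LinearMap.ext fun z => h2 l l' h z),
    Subtype.ext (LinearMap.ext fun w => ?_)⟩
  · change (Module.AEval'.of φ).symm (i l ((X : F[X]) • (z : JT (y l) (m l + 1)))) = φ _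
    rw [map_smul, Module.AEval'.of_symm_X_smul]
    rfl
  · change p l (Module.AEval'.of φ (φ z)) = (X : F[X]) • p l (Module.AEval'.of φ z)
    rw [← map_smul, Module.AEval'.X_smul_of]
  · refine Eq.trans ?_ ((i' l).map_smul a z)
    exact congrArg (i' l) (Algebra.smul_def a (z : JT (y l) (m l + 1))).symm
  · exact ((p' l).map_smul a z).trans (Algebra.smul_def a (p' l z))
  · rw [Submodule.coe_sum, LinearMap.sum_apply]
    have := congrArg (Module.AEval'.of φ).symm (h3 (Module.AEval'.of φ w))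
    rw [map_sum] at this
    exact this

end Pool.Agent.P.MP_cf639b_al
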