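import Pool.Agent.P.MP_cf639b_al.Iface

set_option linter.dupNamespace false

namespace Pool.Agent.P.MP_cf639b_al

universe u v
open TensorProduct Polynomial Function

section aux

theorem bcloc_alg {k E : Type u} [Field k] [IsAlgClosed k] [Ring E] [Algebra k E] [Nontrivial E]
    [Module.Finite k E] (h : ∀ x : E, IsNilpotent x ∨ IsUnit x) :
    ∃ (J : Ideal E) (m : ℕ), J ^ m = ⊥ ∧ ∀ e : E, ∃ c : k, e - c • 1 ∈ J := by
  have := IsArtinianRing.of_finite k E
  obtain ⟨m, hm⟩ := IsArtinianRing.isNilpotent_jacobson_bot (R := E)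
  refine ⟨_, m, hm, fun e => ?_⟩
  obtain ⟨c, hc⟩ := spectrum.nonempty_of_isAlgClosed_of_finiteDimensional k e
  rw [spectrum.mem_iff, Algebra.algebraMap_eq_smul_one, ← IsUnit.neg_iff, neg_sub] at hc
  refine ⟨c, Ideal.mem_jacobson_iff.2 fun y => ?_⟩
  generalize e - c • 1 = x at hc
  have hn : IsNilpotent (y * x) := (h _).resolve_right fun hu => by
    obtain ⟨n, hn⟩ := (h x).resolve_right hc
    obtain ⟨z, hz⟩ := hu.exists_left_inv
    have : ∀ i : ℕ, (z * y) ^ i * x ^ i = 1 := fun i => by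
      induction i with
      | zero => simp
      | succ i ih => rw [pow_succ, pow_succ', mul_assoc, ← mul_assoc (z * y), mul_assoc z, hz,
          one_mul, ih]
    have := this n
    rw [hn, mul_zero] at this
    exact zero_ne_one this
  obtain ⟨z, hz⟩ := hn.isUnit_add_one.exists_left_inv
  exact ⟨z, by rw [mul_assoc, ← mul_add_one, hz, sub_self]; exact zero_mem _⟩

variable {k : Type u} [Field k] {R : Type u} [Ring R] [Algebra k R]
  {F : Type u} [Field F] [Algebra k F]
  {Q : Type u} [AddCommGroup Q] [Module k Q] [Module R Q] [IsScalarTower k R Q]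

/-- coordinate along a functional -/
noncomputable def bcloc_co (l : F →ₗ[k] k) : Q ⊗[k] F →ₗ[R] Q :=
  (AlgebraTensorModule.rid k R Q).toLinearMap ∘ₗ AlgebraTensorModule.lTensor R Q l

theorem bcloc_co_tmul (l : F →ₗ[k] k) (q : Q) (a : F) :
    bcloc_co (R := R) l (q ⊗ₜ[k] a) = l a • q := by simp [bcloc_co]

theorem bcloc_exp {ι : Type u} (b : Module.Basis ι k F) (z : Q ⊗[k] F) :
    ∃ s : Finset ι, ∀ s' : Finset ι, s ⊆ s' →
      ∑ j ∈ s', bcloc_co (R := R) (b.coord j) z ⊗ₜ[k] b j = z := by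
  classical
  induction z using TensorProduct.induction_on with
  | zero => exact ⟨∅, fun _ _ => by simp⟩
  | tmul q a =>
    refine ⟨(b.repr a).support, fun s' hs => ?_⟩
    simp only [bcloc_co_tmul, smul_tmul, Module.Basis.coord_apply]
    rw [← tmul_sum]
    congr 1
    conv_rhs => rw [← b.linearCombination_repr a, Finsupp.linearCombination_apply]
    exact (Finsupp.sum_of_support_subset _ hs (fun i c => c • b i) fun _ _ => zero_smul _ _).symm
  | add x y hx hy =>
    obtain ⟨s, hs⟩ := hx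
    obtain ⟨t, ht⟩ := hy
    refine ⟨s ∪ t, fun s' h => ?_⟩
    simp only [map_add, add_tmul, Finset.sum_add_distrib]
    rw [hs s' (Finset.subset_union_left.trans h), ht s' (Finset.subset_union_right.trans h)]

/-- `q ↦ q ⊗ 1` -/
noncomputable def bcloc_in : Q →ₗ[R] Q ⊗[k] F := (AlgebraTensorModule.mk k R Q F).flip 1

theorem bcloc_in_apply (q : Q) : bcloc_in (R := R) q = q ⊗ₜ[k] (1 : F) := rfl

theorem bcloc_dec [Module.Finite k Q] (u : Q ⊗[k] F →ₗ[R] Q ⊗[k] F) :
    ∃ (ι : Type u) (s : Finset ι) (b : ι → F) (e : ι → Module.End R Q),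
      ∀ q, u (q ⊗ₜ[k] 1) = ∑ j ∈ s, e j q ⊗ₜ[k] b j := by
  classical
  let b := Module.Basis.ofVectorSpace k F
  let c := Module.finBasis k Q
  choose s hs using fun i => bcloc_exp (R := R) b (u (c i ⊗ₜ[k] 1))
  refine ⟨_, Finset.univ.biUnion s, b, fun j => bcloc_co (b.coord j) ∘ₗ u ∘ₗ bcloc_in, fun q => ?_⟩
  have : (u ∘ₗ bcloc_in).restrictScalars k = ∑ j ∈ Finset.univ.biUnion s,
      (TensorProduct.mk k Q F).flip (b j) ∘ₗ
        (bcloc_co (b.coord j) ∘ₗ u ∘ₗ bcloc_in).restrictScalars k := c.ext fun i => by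
    rw [LinearMap.sum_apply]
    exact (hs i _ (Finset.subset_biUnion_of_mem s (Finset.mem_univ i))).symm
  have := LinearMap.congr_fun this q
  rw [LinearMap.sum_apply] at this
  exact this

theorem bcloc_nil {ι : Type u} {s : Finset ι} {b : ι → F} {e : ι → Module.End R Q}
    {J : Ideal (Module.End R Q)} {m : ℕ} (hJ : J ^ m = ⊥) (he : ∀ j, e j ∈ J)
    {n : Module.End R (Q ⊗[k] F)}
    (hn : ∀ q a, n (q ⊗ₜ[k] a) = ∑ j ∈ s, e j q ⊗ₜ[k] (b j * a)) : IsNilpotent n := by
  have key : ∀ (x : Module.End R Q) (w : Q ⊗[k] F),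
      AlgebraTensorModule.map x LinearMap.id (n w) = ∑ j ∈ s,
        AlgebraTensorModule.lTensor R Q (LinearMap.mulLeft k (b j))
          (AlgebraTensorModule.map (x * e j) LinearMap.id w) := fun x w => by
    induction w using TensorProduct.induction_on with
    | zero => simp
    | tmul q a => simp [hn]
    | add x y hx hy => simp only [map_add, hx, hy, Finset.sum_add_distrib]
  have : ∀ p i : ℕ, i + p = m → ∀ x ∈ J ^ i, ∀ z : Q ⊗[k] F,
      AlgebraTensorModule.map x LinearMap.id ((n ^ p) z) = 0 := fun p => by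
    induction p with
    | zero =>
      rintro i rfl x hx z
      rw [add_zero] at hJ
      rw [hJ, Ideal.mem_bot] at hx
      rw [hx]
      generalize (n ^ 0) z = w
      induction w using TensorProduct.induction_on with
      | zero => simp
      | tmul q a => simp
      | add x y hx hy => rw [map_add, hx, hy, add_zero]
    | succ p ih =>
      intro i hi x hx z
      rw [pow_succ', Module.End.mul_apply, key]
      refine Finset.sum_eq_zero fun j _ => ?_
      rw [ih (i + 1) (by omega) _ (Ideal.mul_mem_mul hx (he j)), map_zero]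
  refine ⟨m, LinearMap.ext fun z => ?_⟩
  have := this m 0 (zero_add m) 1 (by
    rw [Submodule.pow_zero, Ideal.one_eq_top]; trivial) z
  rwa [Module.End.one_eq_id, AlgebraTensorModule.map_id] at this

theorem bcloc_main [Module.Finite k Q] {J : Ideal (Module.End R Q)} {m : ℕ} (hJ : J ^ m = ⊥)
    (hc : ∀ e : Module.End R Q, ∃ c : k, e - c • 1 ∈ J) (act : F →ₐ[k] Module.End R (Q ⊗[k] F))
    (hact : ∀ (a a' : F) (q : Q), act a (q ⊗ₜ[k] a') = q ⊗ₜ[k] (a * a'))
    (u : Module.End R (Q ⊗[k] F)) (hu : ∀ a, Commute u (act a)) :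
    IsNilpotent u ∨ Bijective u := by
  obtain ⟨ι, s, b, e, he⟩ := bcloc_dec u
  choose c hc using fun j => hc (e j)
  have hn : IsNilpotent (u - act (∑ j ∈ s, c j • b j)) := by
    refine bcloc_nil (s := s) (b := b) hJ hc fun q a => ?_
    have h1 : u (q ⊗ₜ[k] a) = act a (u (q ⊗ₜ[k] 1)) := by
      have := LinearMap.congr_fun (hu a) (q ⊗ₜ[k] 1)
      rwa [Module.End.mul_apply, hact, mul_one] at this
    rw [LinearMap.sub_apply, h1, he, map_sum, hact, Finset.sum_mul, tmul_sum,
      ← Finset.sum_sub_distrib]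
    refine Finset.sum_congr rfl fun j _ => ?_
    simp [hact, sub_tmul, smul_tmul, mul_comm]
  generalize ∑ j ∈ s, c j • b j = a at hn
  by_cases ha : a = 0
  · left
    simpa [ha] using hn
  · right
    have := hn.isUnit_add_left_of_commute ((IsUnit.mk0 a ha).map act)
      ((hu a).sub_left (Commute.refl _))
    rw [add_sub_cancel] at this
    exact (Module.End.isUnit_iff _).1 this

end aux

theorem t_BCLOC (k : Type u) [Field k] [IsAlgClosed k] (R : Type u) [Ring R] [Algebra k R]
    [FiniteDimensional k R]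
    (hID : ∀ (S : Type u) [Ring S] [Algebra k S] [FiniteDimensional k S], S_ID k S)
    (hFD : ∀ (S : Type u) [Ring S] [Algebra k S] [FiniteDimensional k S], S_FD k S)
    (hKS : ∀ (S : Type u) [Ring S] [Algebra k S] [FiniteDimensional k S], S_KS k S) :
    S_BCLOC k R := by
  intro F _ _ Q hQ hL
  have hN : Nontrivial Q := hL.1
  have hfin : Module.Finite k (Module.End R Q) := Module.Finite.of_injective
    (LinearMap.restrictScalarsₗ k R Q Q k) (LinearMap.restrictScalars_injective k)
  obtain ⟨J, m, hJ, hc⟩ := bcloc_alg (k := k) (E := Module.End R Q) fun x =>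
    (hL.2 x (mem_HomF_k (A := FO.ofMd Q) (B := FO.ofMd Q) x)).imp_right (Module.End.isUnit_iff x).2
  refine ⟨?_, fun u hu => ?_⟩
  · let := FO.module (TenF F Q)
    refine Module.nontrivial_of_finrank_pos (R := F) ?_
    have h1 := (hFD R).one F 0
    have h2 := ((hFD R).ten F Q _ hQ h1.1).2
    rw [h1.2, mul_one] at h2
    exact Module.finrank_pos.trans_eq h2.symm
  · exact bcloc_main (k := k) (F := F) (Q := Q) hJ hc (TenF F Q).act (fun _ _ _ => rfl) u
      (mem_HomF'.1 hu)

end Pool.Agent.P.MP_cf639b_al
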