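import Pool.Agent.P.MP_cf639b_al.Iface

set_option linter.dupNamespace false

namespace Pool.Agent.P.MP_cf639b_al

universe u v
open TensorProduct Polynomial Function

section
variable {k : Type u} [Field k] {R : Type u} [Ring R] [Algebra k R]
  {F : Type u} [Field F] [Algebra k F]

theorem bock_pow {K K' A B : Type*} [Semiring K] [Semiring K'] [AddCommMonoid A] [Module K A]
    [AddCommMonoid B] [Module K' B] {S : Module.End K A} {T : Module.End K' B} (f : A → B)
    (h : ∀ v, f (S v) = T (f v)) (n : ℕ) (v : A) : f ((S ^ n) v) = (T ^ n) (f v) := by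
  induction n with
  | zero => rfl
  | succ n ih => rw [pow_succ', pow_succ', Module.End.mul_apply, Module.End.mul_apply, h, ih]

theorem bock_aeval {A B : Type*} [AddCommGroup A] [Module k A] [AddCommGroup B] [Module k B]
    {S : Module.End k A} {T : Module.End k B} (f : A →ₗ[k] B) (h : ∀ v, f (S v) = T (f v))
    (p : k[X]) (v : A) : f (aeval S p v) = aeval T p (f v) := by
  simp only [aeval_eq_sum_range, LinearMap.sum_apply, LinearMap.smul_apply, map_sum, map_smul,
    bock_pow f h]

variable (d : Fam R)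

theorem bock_x (V : XV k) (T : Md k R) (a : M d V →ₗ[R] T) (v : V) :
    Bock d V a (V.x v) = EX d T (Bock d V a v) := by
  rw [Bock_apply, Bock_apply, EX_mk, eq_comm, ← sub_eq_zero, ← map_sub, Emk_eq_zero]
  refine ⟨fun b => Finsupp.single 0 (a (gen d V b v)), funext fun a' => ?_⟩
  let f : ℕ → ℕ → ℕ →₀ T := fun i l =>
    ∑ b, Finsupp.single l (d.c i a' b • a (gen d V b ((V.x ^ (i - l)) v)))
  have h0 : ∑ i ∈ Finset.range (d.r + 1), f i 0 = 0 := by
    have := congrArg (fun t => Finsupp.single 0 (a t)) (gen_rel d V a' v)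
    simpa only [map_sum, map_smul, map_zero, Finsupp.single_zero, Finsupp.single_finsetSum, f,
      Nat.sub_zero] using this
  rw [Dop_apply, Pi.sub_apply, map_sum, ← Finset.sum_sub_distrib]
  refine (sub_zero _).symm.trans ?_
  rw [← h0, ← Finset.sum_sub_distrib]
  refine Finset.sum_congr rfl fun i _ => ?_
  rw [map_sum (shift R T) _ (Finset.range i), ← Finset.sum_sub_distrib (s := Finset.range i)]
  refine Eq.trans ?_
    ((Finset.sum_range_sub (f i) i).symm.trans (Finset.sum_congr rfl fun l hl => ?_))
  · simp [f]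
  · have := Finset.mem_range.1 hl
    simp only [f, map_sum, shift_single]
    rw [show i - l = i - 1 - l + 1 by omega, show i - (l + 1) = i - 1 - l by omega, pow_succ]
    rfl

theorem bock_comp (V : XV k) (T T' : Md k R) (a : M d V →ₗ[R] T) (g : T →ₗ[R] T') (v : V) :
    Bock d V (g ∘ₗ a) v = Emap d g (Bock d V a v) := by
  rw [Bock_apply, Bock_apply, Emap_mk]
  simp only [map_sum, Finsupp.mapRange.linearMap_apply, Finsupp.mapRange_single, map_smul,
    LinearMap.comp_apply]

theorem bock_map (V V' : XV k) (T : Md k R) (a : M d V' →ₗ[R] T) (g : XH V V') (v : V) :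
    Bock d V (a ∘ₗ (MN d).map g) v = Bock d V' a (g.1 v) := by
  simp only [Bock_apply, LinearMap.comp_apply, map_gen, XH.comm_pow]

theorem bock_act {A B : FO k R F} {g : A.X →ₗ[R] B.X} (hg : g ∈ HomF A B) (c : F)
    (u : EE d A.X) : Emap d g (Emap d (A.act c) u) = Emap d (B.act c) (Emap d g u) := by
  rw [← LinearMap.comp_apply, ← Emap_comp, mem_HomF'.1 hg, Emap_comp, LinearMap.comp_apply]

theorem bock_k (A : FO k R F) (p : k) : Emap d (A.act (algebraMap k F p)) = p • 1 := by
  rw [AlgHom.commutes, Algebra.algebraMap_eq_smul_one, map_smul]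
  exact congrArg _ (Emap_id d _)

theorem bock_C (A : FO k R F) (c : F) (u : EE d A.X) : polE d A (C c) u = Emap d (A.act c) u := by
  rw [polE, aeval_C]; rfl

theorem bock_X (A : FO k R F) (p : F[X]) (u : EE d A.X) :
    polE d A (X * p) u = EX d A.X (polE d A p u) := by
  rw [polE, map_mul, aeval_X]; rfl

theorem bock_add (A : FO k R F) (p q : F[X]) (u : EE d A.X) :
    polE d A (p + q) u = polE d A p u + polE d A q u := by
  rw [polE, map_add]; rfl

theorem bock_piE (y : F) (A : FO k R F) (n : ℕ) (u : EE d A.X) :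
    polE d A ((X - C y) ^ n) u = (piE d A y ^ n) u := by
  rw [polE, map_pow]
  refine bock_pow id (fun v => ?_) n u
  rw [map_sub, aeval_X, aeval_C]; rfl

theorem bock_jq (q h : F[X]) (A : FO k R F) (a) (ha : a ∈ HomF (MF d (Jq k q)) A) (v : QT q) :
    Bock d (Jq k q).V a (Qmk q h * v) = polE d A h (Bock d (Jq k q).V a v) := by
  induction h using Polynomial.induction_on with
  | C c =>
    rw [bock_C, ← bock_comp, ← mem_HomF'.1 ha]
    exact (bock_map d _ _ _ a ((Jq k q).sc c) v).symm
  | add p p' h h' => rw [map_add, add_mul, map_add, h, h', bock_add]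
  | monomial n c h =>
    rw [pow_succ', mul_left_comm, bock_X, ← h, ← bock_x, map_mul (Qmk q), mul_assoc]
    rfl

theorem bock_ej (y : F) (n : ℕ) (p : F[X]) : Bock d (J k y n).V LinearMap.id (Jmk y n p) =
    polE d (MF d (J k y n)) p (eJ d y n) :=
  (congrArg _ (mul_one _).symm).trans (bock_jq d _ _ _ _ (HomF.id _) _)

theorem bock_eq (V : XV k) (T : Md k R) (a : M d V →ₗ[R] T) (v : V) :
    Bock d V a v = Emap d a (Bock d V LinearMap.id v) := by
  rw [← bock_comp, LinearMap.comp_id]

theorem bock_id (V V' : XV k) (g : XH V V') (v : V) :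
    Emap d ((MN d).map g) (Bock d V LinearMap.id v) = Bock d V' LinearMap.id (g.1 v) := by
  rw [← bock_eq, ← bock_map, LinearMap.id_comp]

theorem bock_ejm (y : F) (n m : ℕ) : Emap d ((MN d).map (jm k y n m)) (eJ d y n) =
    (piE d (MF d (J k y m)) y ^ (m - n)) (eJ d y m) := by
  rw [← bock_piE, ← bock_ej, ← mul_one ((X - C y) ^ (m - n)), ← jm_mk]
  exact bock_id d _ _ _ _

theorem bock_ejz (y : F) (n : ℕ) : (piE d (MF d (J k y n)) y ^ n) (eJ d y n) = 0 := by
  rw [← bock_piE, ← bock_ej,
    Ideal.Quotient.eq_zero_iff_mem.2 (Ideal.mem_span_singleton_self _), map_zero]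

theorem bock_ekz (y : F) : piE d (MF d (one k y)) y (eK d y) = 0 := by
  rw [piE, LinearMap.sub_apply, eK, ← bock_x, sub_eq_zero]
  exact (bock_id d _ _ ((one k y).sc y) _).symm

/-- the generators of `EE` -/
noncomputable def bock_el (T : Md k R) (a : Fin d.n1) (l : ℕ) : T →ₗ[k] EE d T :=
  Emk d T ∘ₗ LinearMap.single k (fun _ => ℕ →₀ T) a ∘ₗ Finsupp.lsingle l

theorem bock_ext {T : Md k R} {W : Type u} [AddCommGroup W] [Module k W] {f g : EE d T →ₗ[k] W}
    (h : ∀ a l t, f (bock_el d T a l t) = g (bock_el d T a l t)) : f = g :=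
  E_ext (LinearMap.congr_fun (f := f ∘ₗ Emk d T) (g := g ∘ₗ Emk d T)
    (LinearMap.pi_ext' fun a => Finsupp.lhom_ext (h a)))

theorem bock_elX (T : Md k R) (a l t) : EX d T (bock_el d T a l t) = bock_el d T a (l + 1) t :=
  (EX_mk d T _).trans (congrArg _ (funext fun b => by
    refine (Pi.apply_single (fun _ => shift R T) (fun _ => map_zero _) a _ b).trans ?_
    exact congrArg (fun z => (Pi.single a z : Fin d.n1 → ℕ →₀ T) b) (shift_single l t)))

theorem bock_elM {T T' : Md k R} (g : T →ₗ[R] T') (a l t) :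
    Emap d g (bock_el d T a l t) = bock_el d T' a l (g t) :=
  (Emap_mk d g _).trans (congrArg _ (funext fun b => by
    refine (Pi.apply_single (fun _ => Finsupp.mapRange.linearMap g)
      (fun _ => map_zero _) a _ b).trans ?_
    exact congrArg (fun z => (Pi.single a z : Fin d.n1 → ℕ →₀ T') b)
      (Finsupp.mapRange_single (hf := map_zero g))))

theorem bock_rel (T : Md k R) (b : Fin d.n0) (t : T) :
    ∑ i ∈ Finset.range (d.r + 1), ∑ a, bock_el d T a i (d.c i a b • t) = 0 := by
  simp only [bock_el, LinearMap.comp_apply, ← map_sum (Emk d T)]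
  refine Emk_eq_zero.2 ⟨Pi.single b (Finsupp.single 0 t), funext fun a => ?_⟩
  rw [Dop_apply, Finset.sum_apply]
  refine Finset.sum_congr rfl fun i _ => ?_
  rw [Finset.sum_eq_single b (fun b' _ hb => by simp [hb]) (by simp), Finset.sum_apply,
    Finset.sum_eq_single a (fun b' _ hb => by simp [hb.symm]) (by simp)]
  simp

variable [FiniteDimensional k R]

theorem bock_hat (V : XV k) {T : Md k R} (b : T →ₗ[R] Y d V) (a l t) :
    hat d V b (bock_el d T a l t) = (V.x ^ l) (cog d V a (b t)) := by
  refine (hat_mk d V b _).trans ?_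
  rw [Finset.sum_eq_single a (fun b' _ hb => by simp [hb]) (by simp)]
  simp

theorem bock_hx (V : XV k) (T : Md k R) (b : T →ₗ[R] Y d V) (u : EE d T) :
    hat d V b (EX d T u) = V.x (hat d V b u) :=
  LinearMap.congr_fun (f := hat d V b ∘ₗ EX d T) (g := V.x ∘ₗ hat d V b)
    (bock_ext d fun a l t => by simp [bock_elX, bock_hat, pow_succ']) u

theorem bock_hc (V : XV k) (T T' : Md k R) (b : T' →ₗ[R] Y d V) (g : T →ₗ[R] T') :
    hat d V (b ∘ₗ g) = hat d V b ∘ₗ Emap d g :=
  bock_ext d fun a l t => by simp [bock_elM, bock_hat]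

theorem bock_hm (V V' : XV k) (T : Md k R) (b : T →ₗ[R] Y d V) (g : XH V V') :
    hat d V' ((YN d).map g ∘ₗ b) = g.1 ∘ₗ hat d V b :=
  bock_ext d fun a l t => by simp [bock_hat, cog_map, XH.comm_pow]

theorem bock_hi (V : XV k) (T : Md k R) (b b' : T →ₗ[R] Y d V) (h : hat d V b = hat d V b') :
    b = b' := LinearMap.ext fun t => Y_ext fun s a => by
  simpa [bock_hat] using LinearMap.congr_fun h (bock_el d T a 0 (s • t))

theorem bock_hl (V : FXV k F) (A : FO k R F) (b : A.X →ₗ[R] Y d V.V) : b ∈ HomF A (YF d V) ↔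
    ∀ (c : F) (u : EE d A.X), hat d V.V b (Emap d (A.act c) u) = V.act c (hat d V.V b u) := by
  refine mem_HomF'.trans (forall_congr' fun c => ⟨fun h => ?_, fun h => ?_⟩)
  · exact LinearMap.congr_fun
      ((bock_hc d _ _ _ b _).symm.trans ((congrArg _ h).trans (bock_hm d _ _ _ b (V.sc c))))
  · exact bock_hi d _ _ _ _ ((bock_hc d _ _ _ b _).trans
      ((LinearMap.ext h).trans (bock_hm d _ _ _ b (V.sc c)).symm))

end

theorem t_BOCK (k : Type u) [Field k] [IsAlgClosed k] (R : Type u) [Ring R] [Algebra k R]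
    [FiniteDimensional k R] :
    S_BOCK k R := by
  exact {
    x := bock_x
    comp := bock_comp
    eq := bock_eq
    map := bock_map
    pol := fun d V T a => bock_aeval _ (bock_x d V T a)
    emap_pol := fun d T T' g => bock_aeval _ (Emap_EX d g)
    emap_piK := fun d p T T' g => bock_pow _ fun u => by simp [piK, Emap_EX]
    emap_piE := fun F _ _ d y A B g hg => bock_pow _ fun u => by
      simp [piE, Emap_EX, bock_act d hg]
    emap_polE := fun F _ _ d q A B g hg => bock_aeval (S := EXF d A) (T := EXF d B)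
      ⟨⟨Emap d g, map_add _⟩, bock_act d hg⟩ (Emap_EX d g) q
    piE_k := fun F _ _ d p A => by rw [piE, bock_k, piK]
    piE_pol := fun F _ _ d => bock_piE d
    polE_k := fun F _ _ d h A u => by
      induction h using Polynomial.induction_on with
      | C c => rw [map_C, bock_C, bock_k, aeval_C, Algebra.algebraMap_eq_smul_one]
      | add p p' h h' => rw [Polynomial.map_add, bock_add, h, h', map_add, LinearMap.add_apply]
      | monomial n c h =>
        rw [pow_succ', mul_left_comm, Polynomial.map_mul, map_X, bock_X, h, map_mul _ X, aeval_X,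
          Module.End.mul_apply]
    piK_pol := fun d p T => by
      rw [piK, map_sub, aeval_X, aeval_C, Algebra.algebraMap_eq_smul_one]
    jq := fun F _ _ d q h A a ha => (congrArg _ (mul_one _).symm).trans (bock_jq d q h A a ha 1)
    ej_map := fun F _ _ d => bock_ejm d
    ej_zero := fun F _ _ d => bock_ejz d
    ek_zero := fun F _ _ d => bock_ekz d
    hat_x := fun d => bock_hx d
    hat_pol := fun d V T b => bock_aeval _ (bock_hx d V T b)
    hat_comp := fun d V T T' b g => LinearMap.congr_fun (bock_hc d V T T' b g)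
    hat_map := fun d V V' T b g => LinearMap.congr_fun (bock_hm d V V' T b g)
    hat_add := fun d V T b b' => bock_ext d fun a l t => by simp [bock_hat]
    hat_sub := fun d V T b b' => bock_ext d fun a l t => by simp [bock_hat]
    hat_inj := fun d => bock_hi d
    hat_surj := fun d V T β h => by
      have e : ∀ a l t, β (bock_el d T a l t) = (V.x ^ l) (β (bock_el d T a 0 t)) := by
        intro a l t
        induction l with
        | zero => rfl
        | succ l ih => rw [← bock_elX, h, ih, pow_succ', Module.End.mul_apply]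
      refine ⟨Ylift d V (fun a => β ∘ₗ bock_el d T a 0) fun b t => ?_, bock_ext d fun a l t => ?_⟩
      · simp only [LinearMap.comp_apply, ← e, ← map_sum β, bock_rel, map_zero]
      · rw [bock_hat, cog_Ylift, e, LinearMap.comp_apply]
    hat_lin := fun F _ _ d => bock_hl d
    hat_jq := fun F _ _ d q h A b hb u => by
      induction h using Polynomial.induction_on with
      | C c => rw [bock_C]; exact (bock_hl d _ A b).1 hb c u
      | add p p' h h' => rw [bock_add, map_add, h, h', map_add, add_mul]
      | monomial n c h =>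
        rw [pow_succ', mul_left_comm, bock_X, bock_hx, h, map_mul _ X, mul_assoc]
        rfl }

end Pool.Agent.P.MP_cf639b_al
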