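import Pool.Agent.P.MP_cf639b_al.T.CCa

set_option linter.dupNamespace false

namespace Pool.Agent.P.MP_cf639b_al

universe u v
open TensorProduct Polynomial Function

section aux
variable {k : Type u} [Field k] {R : Type u} [Ring R] [Algebra k R]

theorem cc_refl (Q : Md k R) : CC Q Q := fun _ =>
  ⟨1, fun _ => LinearMap.id, fun _ => LinearMap.id, fun t _ => by simp⟩

theorem cc_trans {Q Q' T : Md k R} (h : CC Q Q') (h' : CC Q' T) : CC Q T := fun s => by
  classical
  obtain ⟨n, a, b, e⟩ := h' s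
  obtain ⟨m, a', b', e'⟩ := h ((Finset.univ ×ˢ s).image fun p : Fin n × T => a p.1 p.2)
  refine ⟨n * m, fun i => a' (finProdFinEquiv.symm i).2 ∘ₗ a (finProdFinEquiv.symm i).1,
    fun i => b (finProdFinEquiv.symm i).1 ∘ₗ b' (finProdFinEquiv.symm i).2, fun t ht => ?_⟩
  rw [finProdFinEquiv.symm.sum_comp fun p : Fin n × Fin m => (b p.1 ∘ₗ b' p.2) ((a' p.2 ∘ₗ a p.1) t),
    Fintype.sum_prod_type]
  refine Eq.trans (Finset.sum_congr rfl fun i _ => ?_) (e t ht)
  simp only [LinearMap.comp_apply]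
  rw [← map_sum, e' _ (Finset.mem_image_of_mem _ (Finset.mk_mem_product (Finset.mem_univ i) ht))]

theorem cc_smd {Q T T' : Md k R} (i : T →ₗ[R] T') (p : T' →ₗ[R] T) (hp : p ∘ₗ i = LinearMap.id)
    (h : CC Q T') : CC Q T := fun s => by
  classical
  obtain ⟨n, a, b, e⟩ := h (s.image i)
  refine ⟨n, fun j => a j ∘ₗ i, fun j => p ∘ₗ b j, fun t ht => ?_⟩
  simp only [LinearMap.comp_apply]
  rw [← map_sum, e _ (Finset.mem_image_of_mem _ ht)]
  exact LinearMap.congr_fun hp t

theorem cc_M (d : Fam R) {V₀ V : XV k} (h : cc_V V₀ V) : CC (M d V₀) (M d V) :=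
  cc_nf (MN d) h ((cc_pi.trans ((cc_P (R := R) (Fin d.n0 → V)).re
    fun e : XH V V => e.1.compLeft _)).trans
      (cc_quot (Submodule.Quotient.mk (p := LinearMap.range (Xd d V)))
        (Submodule.Quotient.mk_surjective _) fun _ _ => rfl))

theorem cc_E (d : Fam R) (T : Md k R) :
    cc_Fy (fun (e : T →ₗ[R] T) v => e v) fun e u => Emap d e u :=
  ((cc_fs T).trans cc_pi).trans (cc_quot (Emk d T) (Emk_surj d T) fun e z => Emap_mk d e z)

theorem cc_aeval (d : Fam R) {T T' : Md k R} (f : T →ₗ[R] T') (g : k[X]) (u : EE d T) :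
    aeval (EX d T') g (Emap d f u) = Emap d f (aeval (EX d T) g u) := by
  induction g using Polynomial.induction_on' with
  | add p q hp hq => simp only [map_add, LinearMap.add_apply, hp, hq]
  | monomial n a =>
    simp only [aeval_monomial, Module.End.mul_apply, Module.algebraMap_end_apply, map_smul]
    refine congrArg _ ?_
    induction n with
    | zero => rfl
    | succ n ih => rw [pow_succ', pow_succ', Module.End.mul_apply, Module.End.mul_apply, ih, Emap_EX]

theorem cc_piK (d : Fam R) (p : k) (T : Md k R) (n : ℕ) :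
    piK d p T ^ n = aeval (EX d T) ((X - C p) ^ n) := by
  rw [map_pow, map_sub, aeval_X, aeval_C, Algebra.algebraMap_eq_smul_one, piK]

theorem cc_Edec (d : Fam R) {Q T : Md k R} (h : CC Q T) (u : EE d T) (f : k[X])
    (H : ∀ a : T →ₗ[R] Q, aeval (EX d Q) f (Emap d a u) = 0) : aeval (EX d T) f u = 0 := by
  obtain ⟨n, a, b, e⟩ := cc_use h (cc_E d T) {u}
  have e1 := e u (Finset.mem_singleton_self u)
  simp only [map_sum, Emap_comp, LinearMap.sum_apply, LinearMap.comp_apply] at e1
  rw [← e1, map_sum]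
  exact Finset.sum_eq_zero fun i _ => by rw [cc_aeval, H, map_zero]

theorem cc_short (d : Fam R) (c : ℕ) {Q T : Md k R} (h : CC Q T) (H : Short d c Q) :
    Short d c T := fun z hz => by
  obtain ⟨n, a, b, e⟩ := cc_use h ((cc_fs T).trans cc_pi) {z}
  have e1 := e z (Finset.mem_singleton_self z)
  have e2 : z = ∑ i, ((Finsupp.mapRange.linearMap (b i)).restrictScalars k).compLeft (Fin d.n0)
      fun j => Finsupp.mapRange.linearMap (a i) (z j) := by
    refine e1.symm.trans (funext fun j => Finsupp.ext fun l => ?_)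
    simp [Finsupp.finsetSum_apply]
  rw [e2]
  refine Submodule.sum_mem _ fun i _ => ?_
  have h1 := H (fun j => Finsupp.mapRange.linearMap (a i) (z j)) (by
    rw [Dop_nat d _ _ _ (mapRange_shift (a i)) z]
    exact funext fun j => by rw [show Dop k d (shift R T) z = 0 from hz]; exact map_zero _)
  refine Submodule.span_mono ?_ (Submodule.apply_mem_span_image_of_mem_span _ h1)
  rintro _ ⟨_, ⟨m, w, hw, rfl⟩, rfl⟩
  refine ⟨m, fun j => Finsupp.mapRange.linearMap (b i) (w j), ⟨?_, fun j l hl => ?_⟩,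
    funext fun j => ?_⟩
  · change Dop k d (shift R T) _ = 0
    rw [Dop_nat d _ _ _ (mapRange_shift (b i)) w]
    exact funext fun j => by rw [show Dop k d (shift R Q) w = 0 from hw.1]; exact map_zero _
  · change b i (w j l) = 0
    rw [hw.2 j l hl, map_zero]
  · exact (LinearMap.congr_fun
      (Module.End.commute_pow_left_of_commute (mapRange_shift (b i)).symm m) (w j)).symm

theorem cc_tenN (Q : Md k R) (V : XV k) : CC Q ((TenN Q).obj V) := by
  have h1 : CC ((TenN Q).obj (one k (0 : k)).V) ((TenN Q).obj ⟨V, 0⟩) :=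
    cc_nf (TenN Q) (cc_zero _ rfl) (cc_ten Q V _
      (fun e : XH (⟨V, 0⟩ : XV k) ⟨V, 0⟩ => ((TenN Q).map e).toAddMonoidHom) fun _ _ _ => rfl)
  refine cc_trans (cc_smd (T := (TenN Q).obj (one k (0 : k)).V) (T' := Q)
    (AlgebraTensorModule.rid k R Q).toLinearMap (AlgebraTensorModule.rid k R Q).symm.toLinearMap
    (LinearMap.ext (AlgebraTensorModule.rid k R Q).symm_apply_apply) (cc_refl Q)) h1

variable [FiniteDimensional k R]

theorem cc_t0 (V : Type u) [AddCommGroup V] [Module k V] : CC (T0 k R) (T0N.obj ⟨V, 0⟩) :=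
  cc_nf T0N (cc_zero _ rfl) ((cc_prod (cc_P (R := R) V) (cc_I (R := R) V)).re
    fun e : XH (⟨V, 0⟩ : XV k) ⟨V, 0⟩ => e.1)

theorem cc_tp {Q T : Md k R} (h : CC Q T) : CC (Tp.obj Q) (Tp.obj T) :=
  cc_afun Tp h ((((cc_P (R := R) T).re fun e : T →ₗ[R] T => e.restrictScalars k).trans
    ((cc_I (R := R) (R ⊗[k] T)).re fun e : T →ₗ[R] T =>
      (Pmap (R := R) (e.restrictScalars k)).restrictScalars k)).trans
    (cc_sub (fun w : (pres T).Tau => w.1) Subtype.val_injective fun _ b =>
      LinearMap.congr_fun (nu_Pmap _) b.1))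

theorem cc_tm {Q T : Md k R} (h : CC Q T) : CC (Tm.obj Q) (Tm.obj T) :=
  cc_afun Tm h ((((cc_I (R := R) T).re fun e : T →ₗ[R] T => e.restrictScalars k).trans
    ((cc_P (R := R) (CoInd k R T)).re fun e : T →ₗ[R] T =>
      (Imap (R := R) (e.restrictScalars k)).restrictScalars k)).trans
    (cc_quot (Submodule.Quotient.mk (p := LinearMap.range (copD k R T)))
      (Submodule.Quotient.mk_surjective _) fun _ _ => rfl))

theorem cc_te (e : Bool) {Q T : Md k R} (h : CC Q T) : CC ((Te e).obj Q) ((Te e).obj T) := by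
  cases e
  · exact cc_tm h
  · exact cc_tp h

theorem cc_tn (e : Bool) (n : ℕ) {Q T : Md k R} (h : CC Q T) :
    CC ((Tn e n).obj Q) ((Tn e n).obj T) := by
  induction n with
  | zero => exact h
  | succ n ih => exact cc_te e ih

end aux

theorem t_CC (k : Type u) [Field k] [IsAlgClosed k] (R : Type u) [Ring R] [Algebra k R]
    [FiniteDimensional k R] :
    S_CC k R := by
  exact {
    refl := cc_refl
    trans := fun _ _ _ => cc_trans
    smd := fun _ _ _ => cc_smd
    te := fun e _ _ => cc_te e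
    tn := fun e n _ _ => cc_tn e n
    tz := fun j _ _ h => by
      cases j
      · exact cc_tn _ _ h
      · exact cc_tn _ _ h
    ten := cc_tenN
    t0 := fun V => cc_t0 V
    pa := fun T => cc_smd (T := PA.obj T) (T' := T0N.obj ⟨T, 0⟩)
      (LinearMap.inl R (R ⊗[k] T) (CoInd k R T)) (LinearMap.fst R (R ⊗[k] T) (CoInd k R T)) rfl
      (cc_t0 T)
    ia := fun T => cc_smd (T := IA.obj T) (T' := T0N.obj ⟨T, 0⟩)
      (LinearMap.inr R (R ⊗[k] T) (CoInd k R T)) (LinearMap.snd R (R ⊗[k] T) (CoInd k R T)) rfl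
      (cc_t0 T)
    jk := fun _ _ _ d p n => cc_M d (cc_jk p n)
    zx := fun d V h => cc_M d (cc_zero V h)
    ksp := fun d V h => cc_M d (cc_ksp V h)
    expo := fun d p a Q T h H u ⟨n, hn⟩ => by
      rw [cc_piK] at hn ⊢
      refine cc_Edec d h u _ fun b => ?_
      rw [← cc_piK]
      exact H _ ⟨n, by rw [cc_piK, cc_aeval, hn, map_zero]⟩
    short := fun d a _ _ => cc_short d a
    kill := fun d f Q T h H u g hg hu =>
      cc_Edec d h u f fun b => H _ g hg (by rw [cc_aeval, hu, map_zero]) }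

end Pool.Agent.P.MP_cf639b_al
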