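import Pool.Agent.P.MP_cf639b_al.Iface

set_option linter.dupNamespace false

namespace Pool.Agent.P.MP_cf639b_al

universe u v
open TensorProduct Polynomial Function

section

variable {k : Type u} [Field k] {R : Type u} [Ring R] [Algebra k R] {G T : Md k R}

/-- a map on a submodule that agrees with the graph -/
def comp_Agr (Γ : Submodule R (G × T)) {Z : Submodule R G} (h : Z →ₗ[R] T) : Prop :=
  ∀ (z : Z) (t : T), ((z : G), t) ∈ Γ → h z = t

/-- the graph extends to every finitely generated submodule -/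
def comp_Good (Γ : Submodule R (G × T)) : Prop :=
  ∀ Z : Submodule R G, Z.FG → ∃ h : Z →ₗ[R] T, comp_Agr Γ h

theorem comp_Agr.res {Γ : Submodule R (G × T)} {Z Z' : Submodule R G} (e : Z ≤ Z')
    {h : Z' →ₗ[R] T} (H : comp_Agr Γ h) : comp_Agr Γ (h ∘ₗ Submodule.inclusion e) :=
  fun z t hz => H (Submodule.inclusion e z) t hz

theorem comp_Good.uniq {Γ : Submodule R (G × T)} (H : comp_Good Γ) {g : G} {t t' : T}
    (h : (g, t) ∈ Γ) (h' : (g, t') ∈ Γ) : t = t' := by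
  obtain ⟨f, hf⟩ := H (Submodule.span R {g}) (Submodule.fg_span_singleton g)
  exact (hf ⟨g, Submodule.mem_span_singleton_self g⟩ t h).symm.trans
    (hf ⟨g, Submodule.mem_span_singleton_self g⟩ t' h')

variable [FiniteDimensional k R]

theorem comp_fd {Z : Submodule R G} (h : Z.FG) : Module.Finite k Z :=
  have : Module.Finite R Z := Module.Finite.iff_fg.2 h
  Module.Finite.trans R Z

theorem comp_chain (c : Set (Submodule R (G × T))) (h1 : ∀ Γ ∈ c, comp_Good Γ)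
    (h2 : IsChain (· ≤ ·) c) (h3 : c.Nonempty) : comp_Good (sSup c) := by
  intro Z hZ
  have := comp_fd (k := k) hZ
  have : IsNoetherian R Z := isNoetherian_of_tower k (inferInstance : IsNoetherian k Z)
  let W : Submodule R (G × T) → Submodule R Z := fun Γ =>
    (Γ.map (LinearMap.fst R G T)).comap Z.subtype
  obtain ⟨_, ⟨Γ, hΓ, rfl⟩, hmax⟩ := (wellFounded_gt (α := Submodule R Z)).has_min (W '' c)
    (h3.image W)
  obtain ⟨h, hh⟩ := h1 Γ hΓ Z hZ
  refine ⟨h, fun z t hz => ?_⟩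
  obtain ⟨Γ', hΓ', hz⟩ := (Submodule.mem_sSup_of_directed h3 h2.directedOn).1 hz
  rcases h2.total hΓ hΓ' with e | e
  · have e1 : W Γ ≤ W Γ' := Submodule.comap_mono (Submodule.map_mono e)
    have e2 : W Γ = W Γ' := by
      by_contra hn
      exact hmax _ ⟨Γ', hΓ', rfl⟩ (lt_of_le_of_ne e1 hn)
    have : z ∈ W Γ := e2 ▸ ⟨(z, t), hz, rfl⟩
    obtain ⟨⟨g, t'⟩, p, q⟩ := this
    obtain rfl : g = z := q
    rw [hh z t' p]
    exact (h1 Γ' hΓ').uniq (e p) hz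
  · exact hh z t (e hz)

omit [FiniteDimensional k R] in
theorem comp_min (hT : DCC T) {ι : Type u} [Nonempty ι] (φ : ι → PP (reg k R)) :
    ∃ i, ∀ j, ¬ (φ j).ev T < (φ i).ev T := by
  by_contra hn
  push Not at hn
  choose s hs using hn
  refine hT ⟨fun n => φ (s^[n] (Classical.arbitrary ι)), strictAnti_nat_of_succ_lt fun n => ?_⟩
  simp only [Function.iterate_succ_apply']
  exact hs _

/-- the formula describing the indeterminacy of the value at `g` -/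
noncomputable def comp_phi (Γ : Submodule R (G × T)) (g : G)
    (Z : {Z : Submodule R G // Z.FG ∧ g ∈ Z}) : PP (reg k R) where
  Z := (G.sub Z.1).quo ((Γ.map (LinearMap.fst R G T)).comap Z.1.subtype)
  fd := have := comp_fd (k := k) Z.2.1; Module.Finite.quotient k _
  u := LinearMap.toSpanSingleton R _ (Submodule.Quotient.mk ⟨g, Z.2.2⟩)

theorem comp_phi_mem (Γ : Submodule R (G × T)) (g : G) (Z : {Z : Submodule R G // Z.FG ∧ g ∈ Z})
    (t : reg k R →ₗ[R] T) : t ∈ (comp_phi Γ g Z).ev T ↔ ∃ h : Z.1 →ₗ[R] T,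
      (∀ (z : Z.1) (s : T), ((z : G), s) ∈ Γ → h z = 0) ∧ h ⟨g, Z.2.2⟩ = t 1 := by
  constructor
  · rintro ⟨f, rfl⟩
    refine ⟨f ∘ₗ Submodule.mkQ _, fun z s hz => ?_, ?_⟩
    · have : (Submodule.Quotient.mk z : Z.1 ⧸ (Γ.map (LinearMap.fst R G T)).comap Z.1.subtype) = 0 :=
        (Submodule.Quotient.mk_eq_zero _).2 ⟨(z, s), hz, rfl⟩
      exact (congrArg f this).trans (map_zero f)
    · exact congrArg f (one_smul R _).symm
  · rintro ⟨h, h1, h2⟩
    refine ⟨Submodule.liftQ _ h ?_, LinearMap.ext_ring ?_⟩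
    · rintro z ⟨⟨g', s⟩, p, q⟩
      obtain rfl : g' = z := q
      exact h1 z s p
    · exact h2.symm.trans (congrArg h (one_smul R _).symm)

theorem comp_ext (hT : DCC T) {Γ : Submodule R (G × T)} (H : comp_Good Γ) (g : G) :
    ∃ t, comp_Good (Γ ⊔ Submodule.span R {(g, t)}) := by
  have : Nonempty {Z : Submodule R G // Z.FG ∧ g ∈ Z} :=
    ⟨⟨_, Submodule.fg_span_singleton g, Submodule.mem_span_singleton_self g⟩⟩
  obtain ⟨Z0, h0⟩ := comp_min hT (comp_phi Γ g)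
  obtain ⟨f, hf⟩ := H Z0.1 Z0.2.1
  refine ⟨f ⟨g, Z0.2.2⟩, fun Z hZ => ?_⟩
  let Z1 : {Z : Submodule R G // Z.FG ∧ g ∈ Z} :=
    ⟨Z ⊔ Z0.1, hZ.sup Z0.2.1, Submodule.mem_sup_right Z0.2.2⟩
  obtain ⟨f1, hf1⟩ := H Z1.1 Z1.2.1
  have e1 : (comp_phi Γ g Z1).ev T ≤ (comp_phi Γ g Z0).ev T := fun t ht => by
    obtain ⟨h, p, q⟩ := (comp_phi_mem Γ g Z1 t).1 ht
    exact (comp_phi_mem Γ g Z0 t).2 ⟨h ∘ₗ Submodule.inclusion le_sup_right,
      fun z s hz => p (Submodule.inclusion le_sup_right z) s hz, q⟩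
  have e2 : (comp_phi Γ g Z1).ev T = (comp_phi Γ g Z0).ev T := by
    by_contra hn
    exact h0 Z1 (lt_of_le_of_ne e1 hn)
  have e3 : LinearMap.toSpanSingleton R T (f ⟨g, Z0.2.2⟩ - f1 ⟨g, Z1.2.2⟩) ∈
      (comp_phi Γ g Z0).ev T := by
    refine (comp_phi_mem Γ g Z0 _).2 ⟨f - f1 ∘ₗ Submodule.inclusion le_sup_right,
      fun z s hz => ?_, (LinearMap.toSpanSingleton_apply_one R _ _).symm⟩
    rw [LinearMap.sub_apply, hf z s hz, hf1.res le_sup_right z s hz, sub_self]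
  obtain ⟨h, p, q⟩ := (comp_phi_mem Γ g Z1 _).1 (e2 ▸ e3)
  rw [LinearMap.toSpanSingleton_apply_one] at q
  refine ⟨(f1 + h) ∘ₗ Submodule.inclusion le_sup_left, fun z t hz => ?_⟩
  obtain ⟨⟨γ, τ⟩, a1, y, a2, a3⟩ := Submodule.mem_sup.1 hz
  obtain ⟨r, rfl⟩ := Submodule.mem_span_singleton.1 a2
  have b1 : γ + r • g = z := congrArg Prod.fst a3
  have b2 : τ + r • f ⟨g, Z0.2.2⟩ = t := congrArg Prod.snd a3
  have b3 : γ ∈ Z1.1 := by
    rw [eq_sub_of_add_eq b1]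
    exact sub_mem (Submodule.mem_sup_left z.2) (Submodule.smul_mem _ _ Z1.2.2)
  have b4 : Submodule.inclusion (le_sup_left : Z ≤ Z1.1) z = ⟨γ, b3⟩ + r • ⟨g, Z1.2.2⟩ :=
    Subtype.ext b1.symm
  rw [LinearMap.comp_apply, b4, map_add, map_smul, LinearMap.add_apply, LinearMap.add_apply,
    hf1 ⟨γ, b3⟩ τ a1, p ⟨γ, b3⟩ τ a1, q, ← b2]
  simp

end

theorem t_COMP (k : Type u) [Field k] [IsAlgClosed k] (R : Type u) [Ring R] [Algebra k R]
    [FiniteDimensional k R]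
    (hPP : ∀ (S : Type u) [Ring S] [Algebra k S] [FiniteDimensional k S], S_PP k S) :
    S_COMP k R := by
  intro T hT U G hU a b H
  have : Module.Finite R U := Module.Finite.of_restrictScalars_finite k R U
  have h0 : comp_Good (LinearMap.range (a.prod b)) := by
    intro Z hZ
    have hf : (Z ⊔ LinearMap.range a).FG := hZ.sup (Submodule.fg_range a)
    obtain ⟨h, hh⟩ := H ⟨G.sub (Z ⊔ LinearMap.range a), comp_fd hf,
      a.codRestrict _ fun x => Submodule.mem_sup_right ⟨x, rfl⟩⟩ ⟨Submodule.subtype _, rfl⟩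
    refine ⟨h ∘ₗ Submodule.inclusion le_sup_left, fun z t ⟨x, hx⟩ => ?_⟩
    have e1 : a x = z := congrArg Prod.fst hx
    have e2 : b x = t := congrArg Prod.snd hx
    rw [← e2, hh]
    exact congrArg h (Subtype.ext e1.symm)
  obtain ⟨Γ, h1, h2⟩ := zorn_le_nonempty₀ {Γ : Submodule R (G × T) | comp_Good Γ}
    (fun c p q y hy => ⟨sSup c, comp_chain c p q ⟨y, hy⟩, fun z hz => le_sSup hz⟩) _ h0
  have h3 : ∀ g : G, ∃ t, (g, t) ∈ Γ := fun g => by
    obtain ⟨t, ht⟩ := comp_ext hT h2.1 g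
    exact ⟨t, h2.2 ht le_sup_left
      (Submodule.mem_sup_right (Submodule.mem_span_singleton_self _))⟩
  choose f hf using h3
  have hu : ∀ {g t t'}, (g, t) ∈ Γ → (g, t') ∈ Γ → t = t' := comp_Good.uniq h2.1
  exact ⟨⟨⟨f, fun x y => hu (hf _) (Γ.add_mem (hf x) (hf y))⟩,
    fun r x => hu (hf _) (Γ.smul_mem r (hf x))⟩,
    LinearMap.ext fun x => hu (h1 ⟨x, rfl⟩) (hf _)⟩

theorem t_ORB (k : Type u) [Field k] [IsAlgClosed k] (R : Type u) [Ring R] [Algebra k R]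
    [FiniteDimensional k R]
    (hPP : ∀ (S : Type u) [Ring S] [Algebra k S] [FiniteDimensional k S], S_PP k S)
    (hCOMP : ∀ (S : Type u) [Ring S] [Algebra k S] [FiniteDimensional k S], S_COMP k S)
    (hFD : ∀ (S : Type u) [Ring S] [Algebra k S] [FiniteDimensional k S], S_FD k S) :
    S_ORB k R := by
  have dcc : ∀ (F : Type u) [Field F] [Algebra k F] (A : FO k R F), A.fd → DCC A.X := by
    rintro F _ _ A hA ⟨φ, hφ⟩
    have := (hFD R).homU F (reg k R) A (inferInstanceAs (Module.Finite k R)) hA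
    have : StrictAnti fun n => Module.finrank F ((φ n).evF A) := fun m n h =>
      Submodule.finrank_lt_finrank_of_lt (hφ h)
    exact not_strictAnti_of_wellFoundedLT _ this
  have min : ∀ (F : Type u) [Field F] [Algebra k F] (A : FO k R F), A.fd → ∀ U : Md k R, U.fd →
      ∀ p : Set (PP U), p.Nonempty →
        (∀ φ ∈ p, ∀ ψ ∈ p, ∃ χ ∈ p, χ.ev A.X ≤ φ.ev A.X ⊓ ψ.ev A.X) →
        ∃ φ ∈ p, ∀ ψ ∈ p, φ.ev A.X ≤ ψ.ev A.X := by
    intro F _ _ A hA U hU p hp hd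
    have := (hFD R).homU F U A hU hA
    obtain ⟨φ, h1, h2⟩ := (InvImage.wf (fun φ : PP U => Module.finrank F (φ.evF A))
      wellFounded_lt).has_min p hp
    refine ⟨φ, h1, fun ψ hψ => ?_⟩
    obtain ⟨χ, h3, h4⟩ := hd φ h1 ψ hψ
    have e : χ.evF A = φ.evF A := Submodule.eq_of_le_of_finrank_le (fun t ht => (h4 ht).1)
      (not_lt.1 (h2 χ h3))
    intro t ht
    have : t ∈ χ.evF A := e ▸ ht
    exact (h4 this).2
  refine ⟨dcc, min, fun F _ _ A hA U hU a => ?_⟩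
  obtain ⟨φ, h1, h2⟩ := min F A hA U hU {φ | a ∈ φ.ev A.X} (by
    obtain ⟨φ, h⟩ := (hPP R).top U hU
    exact ⟨φ, by simp [h]⟩) fun φ p ψ q => by
      obtain ⟨χ, h⟩ := (hPP R).inf U φ ψ
      exact ⟨χ, by rw [Set.mem_setOf_eq, h]; exact ⟨p, q⟩, (h _).le⟩
  refine ⟨φ, fun b => ⟨fun hb => hCOMP R _ (dcc F A hA) U A.X hU a b fun ψ hψ => h2 ψ hψ hb, ?_⟩⟩
  rintro ⟨f, rfl⟩
  exact PP.comp_mem f h1

end Pool.Agent.P.MP_cf639b_al
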