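import Pool.Agent.P.MP_cf639b_al.Iface

set_option linter.dupNamespace false

namespace Pool.Agent.P.MP_cf639b_al

universe u v
open TensorProduct Polynomial Function

noncomputable section

section aux
variable {k : Type u} [Field k] {R : Type u} [Ring R] [Algebra k R]
  {F : Type u} [Field F] [Algebra k F]

theorem cst_ext {Q T : Md k R} {V : XV k} {f g : (TenN Q).obj V →ₗ[R] T}
    (h : ∀ (q : Q) (v : V), f (q ⊗ₜ[k] v) = g (q ⊗ₜ[k] v)) : f = g :=
  AlgebraTensorModule.ext h

variable (F) in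
/-- extension of scalars of a map -/
def cst_tm {Q Q' : Md k R} : (Q →ₗ[R] Q') →ₗ[k] ((TenF F Q).X →ₗ[R] (TenF F Q').X) :=
  (TenA F).map

theorem cst_tm_mem {Q Q' : Md k R} (g : Q →ₗ[R] Q') :
    cst_tm F g ∈ HomF (TenF F Q) (TenF F Q') :=
  mem_HomF'.mpr fun _ => cst_ext fun _ _ => rfl

theorem cst_tm_comp {Q Q' Q'' : Md k R} (g : Q' →ₗ[R] Q'') (f : Q →ₗ[R] Q') :
    cst_tm F g ∘ₗ cst_tm F f = cst_tm F (g ∘ₗ f) := cst_ext fun _ _ => rfl

theorem cst_tm_id (Q : Md k R) : cst_tm F (LinearMap.id : Q →ₗ[R] Q) = LinearMap.id :=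
  cst_ext fun _ _ => rfl

theorem cst_add {A B : FO k R F} {f g : A.X →ₗ[R] B.X} (hf : Cst A B f) (hg : Cst A B g) :
    Cst A B (f + g) := by
  obtain ⟨Q, hQ, a, ha, b, hb, rfl⟩ := hf
  obtain ⟨Q', hQ', a', ha', b', hb', rfl⟩ := hg
  let i : Q →ₗ[R] Q.prod Q' := LinearMap.inl R Q Q'
  let i' : Q' →ₗ[R] Q.prod Q' := LinearMap.inr R Q Q'
  let p : Q.prod Q' →ₗ[R] Q := LinearMap.fst R Q Q'
  let p' : Q.prod Q' →ₗ[R] Q' := LinearMap.snd R Q Q'
  have e1 : cst_tm F p ∘ₗ cst_tm F i = LinearMap.id := (cst_tm_comp _ _).trans (cst_tm_id _)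
  have e2 : cst_tm F p' ∘ₗ cst_tm F i' = LinearMap.id := (cst_tm_comp _ _).trans (cst_tm_id _)
  have e3 : cst_tm F p ∘ₗ cst_tm F i' = 0 := (cst_tm_comp _ _).trans (map_zero _)
  have e4 : cst_tm F p' ∘ₗ cst_tm F i = 0 := (cst_tm_comp _ _).trans (map_zero _)
  refine ⟨Q.prod Q', inferInstanceAs (Module.Finite k (Q × Q')),
    cst_tm F i ∘ₗ a + cst_tm F i' ∘ₗ a',
    add_mem (HomF.comp (cst_tm_mem _) ha) (HomF.comp (cst_tm_mem _) ha'),
    b ∘ₗ cst_tm F p + b' ∘ₗ cst_tm F p',
    add_mem (HomF.comp hb (cst_tm_mem _)) (HomF.comp hb' (cst_tm_mem _)),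
    LinearMap.ext fun t => ?_⟩
  have f1 := LinearMap.congr_fun e1 (a t)
  have f2 := LinearMap.congr_fun e2 (a' t)
  have f3 := LinearMap.congr_fun e3 (a' t)
  have f4 := LinearMap.congr_fun e4 (a t)
  simp only [LinearMap.comp_apply, LinearMap.id_apply, LinearMap.zero_apply] at f1 f2 f3 f4
  simp only [LinearMap.add_apply, LinearMap.comp_apply, map_add, f1, f2, f3, f4, map_zero,
    add_zero, zero_add]

theorem cst_ten (Q : Md k R) (hQ : Q.fd) : Const (TenF F Q) :=
  ⟨Q, hQ, LinearMap.id, HomF.id _, bijective_id⟩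

theorem cst_bij {T T' : Md k R} (f : T →ₗ[R] T') (g : T' →ₗ[R] T) (h1 : g ∘ₗ f = LinearMap.id)
    (h2 : f ∘ₗ g = LinearMap.id) : Bijective f :=
  bijective_iff_has_inverse.2 ⟨g, LinearMap.congr_fun h1, LinearMap.congr_fun h2⟩

/-- the map `c ↦ c v` -/
def cst_sv (V : XV k) (hx : V.x = 0) : V →ₗ[k] XH (one k (0 : k)).V V :=
  LinearMap.codRestrict _ (LinearMap.lsmul k V).flip fun v => by
    rw [mem_XH, hx]
    ext
    simp

theorem cst_sv_apply (V : XV k) (hx : V.x = 0) (v : V) (c : k) :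
    (cst_sv V hx v).1 c = c • v := rfl

/-- the canonical map `G k ⊗ V → G V` -/
def cst_be (G : NF k R) (V : XV k) (hx : V.x = 0) :
    (TenN (G.obj (one k (0 : k)).V)).obj V →ₗ[R] G.obj V :=
  AlgebraTensorModule.lift
    { toFun := fun z => (LinearMap.applyₗ (R := k) z) ∘ₗ
        (LinearMap.restrictScalarsₗ k R _ _ k) ∘ₗ G.map ∘ₗ cst_sv V hx
      map_add' := fun _ _ => LinearMap.ext fun _ => by simp
      map_smul' := fun _ _ => LinearMap.ext fun _ => by simp }

theorem cst_be_tmul (G : NF k R) (V : XV k) (hx : V.x = 0) (z : G.obj (one k (0 : k)).V) (v : V) :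
    cst_be G V hx (z ⊗ₜ[k] v) = G.map (cst_sv V hx v) z := rfl

theorem cst_be_mem (G : NF k R) (V : FXV k F) (hx : V.V.x = 0) :
    cst_be G V.V hx ∈ HomF ((TenN (G.obj (one k (0 : k)).V)).onF V) (G.onF V) :=
  mem_HomF'.mpr fun c => cst_ext fun z v => by
    have e : cst_sv V.V hx (V.act c v) = XH.comp (V.sc c) (cst_sv V.V hx v) :=
      Subtype.ext (LinearMap.ext fun a => ((V.act c).map_smul a v).symm)
    change G.map (cst_sv V.V hx (V.act c v)) z = G.map (V.sc c) (G.map (cst_sv V.V hx v) z)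
    rw [e, G.map_comp]
    rfl

theorem cst_one_x : (one k (0 : F)).V.x = 0 := LinearMap.ext fun z => zero_mul z

/-- the underlying space of an `F`-object -/
def cst_toV (A : FO k R F) : FXV k F where
  V := ⟨A.X, 0⟩
  act :=
    { toFun := fun a => (A.act a).restrictScalars k
      map_one' := LinearMap.ext fun t => by simp
      map_mul' := fun a b => LinearMap.ext fun t => by simp
      map_zero' := LinearMap.ext fun t => by simp
      map_add' := fun a b => LinearMap.ext fun t => by simp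
      commutes' := fun c => LinearMap.ext fun t => by simp }
  comm a := by simp

theorem cst_toV_fd {A : FO k R F} (h : A.fd) : (cst_toV A).fd := h

/-- the functor `V ↦ Hom_k(R,V)` -/
def cst_IN : NF k R where
  obj V := I R V
  map :=
    { toFun := fun g => Imap g.1
      map_add' := fun _ _ => rfl
      map_smul' := fun _ _ => rfl }
  map_id _ := rfl
  map_comp _ _ := rfl

theorem cst_be_M (d : Fam R) (V : XV k) (hx : V.x = 0) : Bijective (cst_be (MN d) V hx) := by
  let W : XV k := (one k (0 : k)).V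
  let z : Fin d.n0 → V →ₗ[k] (TenN (M d W)).obj V := fun b =>
    TensorProduct.mk k (M d W) V (gen d W b (1 : k))
  have hz : ∀ a v, ∑ i ∈ Finset.range (d.r + 1), ∑ b, d.c i a b • z b ((V.x ^ i) v) = 0 := by
    intro a v
    have h := congrArg (tmr (M d W) V v) (gen_rel d W a (1 : k))
    rw [map_zero, map_sum] at h
    refine Eq.trans (Finset.sum_congr rfl fun i _ => ?_) h
    rw [map_sum]
    refine Finset.sum_congr rfl fun b _ => ?_
    rw [map_smul]
    refine congrArg _ ?_
    cases i with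
    | zero => rfl
    | succ i =>
      rw [hx, show W.x = 0 from cst_one_x, zero_pow (Nat.succ_ne_zero i),
        zero_pow (Nat.succ_ne_zero i), LinearMap.zero_apply, LinearMap.zero_apply, map_zero,
        map_zero, map_zero]
      rfl
  refine cst_bij _ (Mlift d V z hz) (cst_ext fun m v => ?_) (M_ext fun b v => ?_)
  · have e : Mlift d V z hz ∘ₗ (MN d).map (cst_sv V hx v) = tmr (M d W) V v := M_ext fun b c => by
      rw [LinearMap.comp_apply, map_gen, Mlift_gen]
      have e1 : gen d W b c = (c : k) • gen d W b (1 : k) := by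
        rw [← map_smul]
        exact congrArg _ (mul_one (c : k)).symm
      change gen d W b (1 : k) ⊗ₜ[k] ((c : k) • v) = gen d W b c ⊗ₜ[k] v
      rw [e1, smul_tmul]
    exact LinearMap.congr_fun e m
  · rw [LinearMap.comp_apply, Mlift_gen]
    change (MN d).map (cst_sv V hx v) (gen d W b (1 : k)) = gen d V b v
    rw [map_gen]
    exact congrArg _ (one_smul k v)

theorem cst_fd_of_ten (Q : Md k R) [Nontrivial Q] (V : FXV k F) (h : ((TenN Q).onF V).fd) :
    V.fd := by
  obtain ⟨q, hq⟩ := exists_ne (0 : Q)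
  obtain ⟨l, hl⟩ := Module.Projective.exists_dual_eq_one k hq
  let μ : Q ⊗[k] V.V →ₗ[k] V.V := TensorProduct.lift (LinearMap.lsmul k V.V ∘ₗ l)
  have hμ : ∀ c : F, μ ∘ₗ LinearMap.lTensor Q (V.act c) = V.act c ∘ₗ μ := fun c =>
    TensorProduct.ext' fun a v => by simp [μ]
  let _ := FO.module ((TenN Q).onF V)
  let μ' : ((TenN Q).onF V).X →ₗ[F] V.V :=
    { toFun := μ
      map_add' := μ.map_add
      map_smul' := fun c t => LinearMap.congr_fun (hμ c) t }
  refine Module.Finite.of_surjective μ' fun v => ⟨q ⊗ₜ[k] v, ?_⟩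
  change μ (q ⊗ₜ[k] v) = v
  simp [μ, hl]

variable [FiniteDimensional k R]

theorem cst_coind {W : Type u} [AddCommGroup W] [Module k W] (h : CoInd k R W) (s : R) :
    h s = ∑ i, (bR k R).repr s i • h (bR k R i) := by
  conv_lhs => rw [← (bR k R).sum_repr s]
  simp only [map_sum, map_smul]

theorem cst_be_I (V : XV k) (hx : V.x = 0) : Bijective (cst_be (cst_IN (R := R)) V hx) := by
  let γ : CoInd k R V → CoInd k R k ⊗[k] V := fun h =>
    ∑ i, CoInd.of ((bR k R).coord i) ⊗ₜ[k] h (bR k R i)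
  let β : CoInd k R k ⊗[k] V →ₗ[R] CoInd k R V := cst_be (cst_IN (R := R)) V hx
  have hβ : ∀ φ v s, β (φ ⊗ₜ[k] v) s = φ s • v := fun _ _ _ => rfl
  have h1 : ∀ t, γ (β t) = t := fun t => by
    induction t using TensorProduct.induction_on with
    | zero => simp [γ]
    | tmul φ v =>
      simp only [γ, hβ, ← smul_tmul]
      rw [← sum_tmul]
      refine congrArg (· ⊗ₜ[k] v) (CoInd.ext fun s => ?_)
      rw [cst_coind φ s]
      simp [mul_comm]
    | add x y hx hy =>
      conv_rhs => rw [← hx, ← hy]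
      simp only [γ, map_add, CoInd.add_apply, tmul_add, Finset.sum_add_distrib]
  have h2 : ∀ h, β (γ h) = h := fun h => by
    refine CoInd.ext fun s => ?_
    simp only [γ, map_sum, CoInd.sum_apply, hβ]
    rw [cst_coind h s]
    simp
  exact bijective_iff_has_inverse.2 ⟨γ, h1, h2⟩

variable (L : S_ID k R)
include L

theorem cst_iso {A B : FO k R F} (h : IsoF A B) (hB : Const B) : Const A := by
  obtain ⟨Q, hQ, e⟩ := hB
  exact ⟨Q, hQ, L.iso_trans F _ _ _ h e⟩

theorem cst_via {A B C : FO k R F} (hC : Const C) {a : A.X →ₗ[R] C.X} {b : C.X →ₗ[R] B.X}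
    (ha : a ∈ HomF A C) (hb : b ∈ HomF C B) : Cst A B (b ∘ₗ a) := by
  obtain ⟨Q, hQ, f, hf, hb'⟩ := hC
  obtain ⟨g, hg, e, -⟩ := L.iso_inv F _ _ f hf hb'
  refine ⟨Q, hQ, f ∘ₗ a, HomF.comp hf ha, b ∘ₗ g, HomF.comp hb hg, LinearMap.ext fun t => ?_⟩
  exact congrArg b (LinearMap.congr_fun e (a t)).symm

theorem cst_decomp {ι : Type} [Fintype ι] {A : FO k R F} {T : ι → FO k R F} (h : Decomp A T)
    (hT : ∀ v, Const (T v)) : Const A := by
  classical
  obtain ⟨i, p, hi, hp, e1, e2, e3⟩ := h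
  choose Q hQ f hf hb using hT
  choose g hg g1 g2 using fun v => L.iso_inv F _ _ (f v) (hf v) (hb v)
  let s : ∀ v, Q v →ₗ[R] Md.pi Q := fun v => LinearMap.single R (fun w => Q w) v
  let r : ∀ v, Md.pi Q →ₗ[R] Q v := fun v => LinearMap.proj v
  have rs1 : ∀ v t, cst_tm F (r v) (cst_tm F (s v) t) = t := fun v t => by
    have e : r v ∘ₗ s v = LinearMap.id := LinearMap.ext fun q => by simp [r, s]
    have := cst_tm_comp (F := F) (r v) (s v)
    rw [e, cst_tm_id] at this
    exact LinearMap.congr_fun this t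
  have rs2 : ∀ v w, v ≠ w → ∀ t, cst_tm F (r w) (cst_tm F (s v) t) = 0 := fun v w hvw t => by
    have e : r w ∘ₗ s v = 0 := LinearMap.ext fun q => by simp [r, s, Ne.symm hvw]
    have := cst_tm_comp (F := F) (r w) (s v)
    rw [e, map_zero] at this
    exact LinearMap.congr_fun this t
  have sr : ∀ t, ∑ v, cst_tm F (s v) (cst_tm F (r v) t) = t := fun t => by
    have e : ∑ v, s v ∘ₗ r v = LinearMap.id := LinearMap.ext fun q => by
      rw [LinearMap.sum_apply]
      exact Finset.univ_sum_single q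
    have := congrArg (cst_tm F) e
    rw [map_sum, cst_tm_id] at this
    have h2 := LinearMap.congr_fun this t
    rw [LinearMap.sum_apply] at h2
    exact (Finset.sum_congr rfl fun v _ => LinearMap.congr_fun (cst_tm_comp _ _) t).trans h2
  refine ⟨Md.pi Q, inferInstanceAs (Module.Finite k (∀ v, Q v)),
    ∑ v, cst_tm F (s v) ∘ₗ f v ∘ₗ p v,
    sum_mem fun v _ => HomF.comp (cst_tm_mem _) (HomF.comp (hf v) (hp v)),
    cst_bij _ (∑ v, i v ∘ₗ g v ∘ₗ cst_tm F (r v)) (LinearMap.ext fun t => ?_)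
      (LinearMap.ext fun t => ?_)⟩
  · refine Eq.trans ?_ (LinearMap.congr_fun e3 t)
    simp only [LinearMap.comp_apply, LinearMap.sum_apply, map_sum]
    refine Finset.sum_congr rfl fun v _ => ?_
    rw [Finset.sum_eq_single v (fun w _ hw => by rw [rs2 v w hw.symm, map_zero, map_zero])
      (by simp), rs1]
    exact congrArg _ (LinearMap.congr_fun (g1 v) _)
  · refine Eq.trans ?_ (sr t)
    simp only [LinearMap.comp_apply, LinearMap.sum_apply, map_sum]
    refine Finset.sum_congr rfl fun v _ => ?_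
    rw [Finset.sum_eq_single v (fun w _ hw => by
      rw [show p w (i v _) = 0 from LinearMap.congr_fun (e2 v w hw.symm) _, map_zero, map_zero])
      (by simp), show p v (i v _) = _ from LinearMap.congr_fun (e1 v) _]
    exact congrArg _ (LinearMap.congr_fun (g2 v) _)

theorem cst_onF (G : NF k R) (V : FXV k F) (hx : V.V.x = 0) (hV : V.fd)
    (h : Const (G.onF (one k (0 : F)))) : Const (G.onF V) := by
  classical
  let e := Module.finBasis F V.V
  let p : ∀ _ : Fin (Module.finrank F V.V), XH V.V (one k (0 : F)).V := fun j =>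
    ⟨(e.coord j).restrictScalars k, by rw [mem_XH, hx, cst_one_x]; simp⟩
  let i : ∀ _ : Fin (Module.finrank F V.V), XH (one k (0 : F)).V V.V := fun j =>
    ⟨(LinearMap.toSpanSingleton F V.V (e j)).restrictScalars k, by
      rw [mem_XH, hx, cst_one_x]; simp⟩
  refine cst_decomp L (T := fun _ : Fin (Module.finrank F V.V) => G.onF (one k (0 : F)))
    ⟨fun j => G.map (i j), fun j => G.map (p j), fun j => G.map_mem _ fun a c => ?_,
      fun j => G.map_mem _ fun a v => ?_, fun j => ?_, fun j l hjl => ?_, ?_⟩ fun _ => h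
  · exact mul_smul a (c : F) (e j)
  · exact (e.coord j).map_smul a v
  · rw [← G.map_comp, ← G.map_id]
    refine congrArg _ (Subtype.ext (LinearMap.ext fun c => ?_))
    change e.coord j ((c : F) • e j) = c
    simp
  · rw [← G.map_comp, ← map_zero G.map]
    refine congrArg _ (Subtype.ext (LinearMap.ext fun c => ?_))
    change e.coord l ((c : F) • e j) = 0
    simp [hjl.symm]
  · simp only [← G.map_comp]
    rw [← map_sum, ← G.map_id]
    refine congrArg _ (Subtype.ext (LinearMap.ext fun v => ?_))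
    rw [Submodule.coe_sum, LinearMap.sum_apply]
    exact e.sum_repr v

theorem cst_I : Const ((cst_IN (k := k) (R := R)).onF (one k (0 : F))) :=
  cst_iso L (L.iso_symm F _ _ ⟨_, cst_be_mem cst_IN _ cst_one_x, cst_be_I _ _⟩)
    (cst_ten _ (inferInstanceAs (Module.Finite k (R →ₗ[k] k))))

theorem cst_pa {A : FO k R F} (h : A.fd) : Const (PA.onF A) :=
  cst_iso L (B := (TenN (reg k R)).onF (cst_toV A)) ⟨LinearMap.id, fun _ _ => rfl, bijective_id⟩
    (cst_onF L _ _ rfl (cst_toV_fd h) (cst_ten _ (inferInstanceAs (Module.Finite k R))))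

theorem cst_ia {A : FO k R F} (h : A.fd) : Const (IA.onF A) :=
  cst_iso L (B := cst_IN.onF (cst_toV A)) ⟨LinearMap.id, fun _ _ => rfl, bijective_id⟩
    (cst_onF L _ _ rfl (cst_toV_fd h) (cst_I L))

/-- the two summands of `T0F` -/
def cst_two (k : Type u) [Field k] (R : Type u) [Ring R] [Algebra k R] (F : Type u) [Field F]
    [Algebra k F] : Bool → FO k R F
  | true => TenF F (reg k R)
  | false => cst_IN.onF (one k (0 : F))

theorem cst_t0 : Const (T0F k R F) := by
  refine cst_decomp L (T := cst_two k R F)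
    ⟨fun b => match b with
      | true => LinearMap.inl R (R ⊗[k] F) (CoInd k R F)
      | false => LinearMap.inr R (R ⊗[k] F) (CoInd k R F),
     fun b => match b with
      | true => LinearMap.fst R (R ⊗[k] F) (CoInd k R F)
      | false => LinearMap.snd R (R ⊗[k] F) (CoInd k R F), fun b => ?_, fun b => ?_, fun b => ?_,
     fun b c hbc => ?_, ?_⟩ fun b => ?_
  · cases b
    · exact fun a t => Prod.ext (map_zero (Pmap (R := R) ((one k (0 : F)).act a))).symm rfl
    · exact fun a t => Prod.ext rfl (map_zero (Imap (R := R) ((one k (0 : F)).act a))).symm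
  · cases b <;> exact fun _ _ => rfl
  · cases b <;> rfl
  · cases b <;> cases c <;> first | rfl | exact absurd rfl hbc
  · rw [Fintype.sum_bool]
    exact LinearMap.ext fun t => Prod.ext (add_zero _) (zero_add _)
  · cases b
    · exact cst_I L
    · exact cst_ten _ (inferInstanceAs (Module.Finite k R))

theorem cst_te (hFD : S_FD k R) (hT : S_TEN k R) (e : Bool) {A : FO k R F} (h : Const A) :
    Const ((Te e).onF A) := by
  obtain ⟨Q, hQ, f⟩ := h
  refine cst_iso L (L.iso_map F (Te e) _ _ f) (cst_iso L (L.iso_symm F _ _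
    ⟨tenI (Te e) Q F, mem_HomF'.mpr fun c => cst_ext fun z v => ?_, hT e Q F⟩)
    (cst_ten _ (hFD.tek e Q hQ)))
  have e1 : tmr Q F (c * v) = (TenF F Q).act c ∘ₗ tmr Q F v := LinearMap.ext fun _ => rfl
  change (Te e).map (tmr Q F (c * v)) z =
    (Te e).map ((TenF F Q).act c) ((Te e).map (tmr Q F v) z)
  rw [e1]
  exact LinearMap.congr_fun ((Te e).map_comp _ _) z

end aux

theorem t_CST (k : Type u) [Field k] [IsAlgClosed k] (R : Type u) [Ring R] [Algebra k R]
    [FiniteDimensional k R]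
    (hID : ∀ (S : Type u) [Ring S] [Algebra k S] [FiniteDimensional k S], S_ID k S)
    (hFD : ∀ (S : Type u) [Ring S] [Algebra k S] [FiniteDimensional k S], S_FD k S)
    (hTEN : ∀ (S : Type u) [Ring S] [Algebra k S] [FiniteDimensional k S], S_TEN k S) :
    S_CST k R := by
  have L := hID R
  refine ⟨?_, ?_, fun F _ _ A B f g => cst_add, ?_, ?_, ?_, ?_, ?_, ?_, ?_, ?_⟩
  · rintro F _ _ A B f ⟨Q, -, a, ha, b, hb, rfl⟩
    exact HomF.comp hb ha
  · intro F _ _ A B
    exact ⟨reg k R, inferInstanceAs (Module.Finite k R), 0, zero_mem _, 0, zero_mem _, by simp⟩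
  · rintro F _ _ A B f ⟨Q, hQ, a, ha, b, hb, rfl⟩
    exact ⟨Q, hQ, a, ha, -b, neg_mem hb, (LinearMap.neg_comp _ _).symm⟩
  · rintro F _ _ A B C f ⟨Q, hQ, a, ha, b, hb, rfl⟩ g hg
    exact ⟨Q, hQ, a, ha, g ∘ₗ b, HomF.comp hg hb, rfl⟩
  · rintro F _ _ A B C f ⟨Q, hQ, a, ha, b, hb, rfl⟩ g hg
    exact ⟨Q, hQ, a ∘ₗ g, HomF.comp ha hg, b, hb, rfl⟩
  · rintro F _ _ A B hB f ⟨g, hg, rfl⟩
    exact cst_via L (cst_pa L hB) hg (L.pP_mem F B)
  · rintro F _ _ A B hA f ⟨g, hg, rfl⟩
    exact cst_via L (cst_ia L hA) (L.iI_mem F A) hg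
  · rintro F _ _ e A B f ⟨Q, hQ, a, ha, b, hb, rfl⟩
    rw [(Te e).map_comp]
    exact cst_via L (cst_te L (hFD R) (hTEN R) e (cst_ten Q hQ)) ((Te e).map_mem ha)
      ((Te e).map_mem hb)
  · intro F _ _ e n
    induction n with
    | zero => exact cst_iso L ⟨LinearMap.id, fun _ _ => rfl, bijective_id⟩ (cst_t0 L)
    | succ n ih =>
      exact cst_iso L (B := (Te e).onF ((Tn e n).onF (T0F k R F)))
        ⟨LinearMap.id, fun _ _ => rfl, bijective_id⟩ (cst_te L (hFD R) (hTEN R) e ih)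
  · intro F _ _ d V hx hV
    have hQ : (M d (one k (0 : k)).V).fd :=
      ((hFD R).mfd d _ (inferInstanceAs (Module.Finite k k))).1
    have iso : IsoF (MF d V) ((TenN (M d (one k (0 : k)).V)).onF V) :=
      L.iso_symm F _ _ ⟨_, cst_be_mem (MN d) V hx, cst_be_M d V.V hx⟩
    refine cst_iso L iso ?_
    rcases subsingleton_or_nontrivial (M d (one k (0 : k)).V) with h | h
    · have h1 : Subsingleton (M d (one k (0 : k)).V ⊗[k] V.V) := inferInstance
      have h2 : Subsingleton (M d (one k (0 : k)).V ⊗[k] F) := inferInstance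
      exact ⟨_, hQ, 0, zero_mem _, fun a b _ => h1.elim a b, fun b => ⟨0, h2.elim _ b⟩⟩
    · exact cst_onF L _ V hx (cst_fd_of_ten _ V ((L.iso_fd F _ _ iso).1 hV)) (cst_ten _ hQ)

end

end Pool.Agent.P.MP_cf639b_al
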