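import Pool.Agent.P.MP_cf639b_al.Iface

set_option linter.dupNamespace false
set_option linter.style.haveILetI false

namespace Pool.Agent.P.MP_cf639b_al

universe u v
open TensorProduct Polynomial Function

section
variable {k : Type u} [Field k] {R : Type u} [Ring R] [Algebra k R]
  {S : Type u} [Ring S] [Algebra k S] {F : Type u} [Field F] [Algebra k F]

/-- a functional from its values -/
noncomputable def dd_mk (σ : Anti k R S) (A : FO k R F) (φ : A.X → F)
    (h1 : ∀ t t', φ (t + t') = φ t + φ t') (h2 : ∀ a t, φ (A.act a t) = a * φ t) : DT σ A :=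
  DT.of σ { toFun := φ, map_add' := h1, map_smul' := h2 }

theorem dd_act {σ : Anti k R S} {A : FO k R F} (h : DT σ A) (a : F) (t : A.X) :
    h (A.act a t) = a * h t := map_smul (DT.lin h) a t

theorem dd_add {σ : Anti k R S} {A : FO k R F} (h : DT σ A) (t t' : A.X) :
    h (t + t') = h t + h t' := map_add (DT.lin h) t t'

theorem dd_ksmul {σ : Anti k R S} {A : FO k R F} (h : DT σ A) (c : k) (t : A.X) :
    h (c • t) = c • h t := (DT.lin h).map_smul_of_tower c t

theorem dd_sum {σ : Anti k R S} {A : FO k R F} (h : DT σ A) {ι : Type*} (s : Finset ι)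
    (t : ι → A.X) : h (∑ i ∈ s, t i) = ∑ i ∈ s, h (t i) := map_sum (DT.lin h) t s

theorem dd_sum_apply {σ : Anti k R S} {A : FO k R F} {ι : Type*} (s : Finset ι)
    (h : ι → DT σ A) (t : A.X) : (∑ i ∈ s, h i) t = ∑ i ∈ s, h i t :=
  LinearMap.sum_apply s (fun i => DT.lin (h i)) t

/-- the dual as the usual dual space -/
noncomputable def dd_eq (σ : Anti k R S) (A : FO k R F) :
    DT σ A ≃ₗ[F] Module.Dual F A.X where
  toFun h := DT.lin h
  invFun h := DT.of σ h
  map_add' _ _ := rfl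
  map_smul' _ _ := rfl
  left_inv _ := rfl
  right_inv _ := rfl

theorem dd_fd (σ : Anti k R S) (A : FO k R F) (hA : A.fd) :
    (DF σ A).fd ∧ (DF σ A).dim = A.dim := by
  haveI : Module.Finite F A.X := hA
  refine ⟨Module.Finite.equiv (dd_eq σ A).symm, ?_⟩
  exact (dd_eq σ A).finrank_eq.trans Subspace.dual_finrank_eq

theorem dd_ev_mem (σ : Anti k R S) (A : FO k R F) :
    Dev σ A ∈ HomF A (DF σ.symm (DF σ A)) := fun a t =>
  DT.ext (σ := σ.symm) (A := DF σ A) fun h : DT σ A => dd_act h a t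

theorem dd_sep (σ : Anti k R S) (A : FO k R F) (t : A.X) (h : ∀ g : DT σ A, g t = 0) : t = 0 :=
  (Module.forall_dual_apply_eq_zero_iff F t).mp fun g => h (DT.of σ g)

theorem dd_ev_bij (σ : Anti k R S) (A : FO k R F) (hA : A.fd) : Bijective (Dev σ A) := by
  haveI : Module.Finite F A.X := hA
  refine ⟨(injective_iff_map_eq_zero _).mpr fun t ht => dd_sep σ A t fun g => ?_, fun Φ => ?_⟩
  · exact (Dev_apply σ A t g).symm.trans (by rw [ht]; rfl)
  · obtain ⟨t, ht⟩ := (Module.bijective_dual_eval F A.X).2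
      ((DT.lin Φ) ∘ₗ (dd_eq σ A).symm.toLinearMap)
    exact ⟨t, DT.ext fun g : DT σ A => LinearMap.congr_fun ht (DT.lin g)⟩

theorem dd_bij (σ : Anti k R S) {A B : FO k R F} {f : A.X →ₗ[R] B.X} (hf : f ∈ HomF A B)
    {g : B.X →ₗ[R] A.X} (hg : g ∈ HomF B A) (e1 : g ∘ₗ f = LinearMap.id)
    (e2 : f ∘ₗ g = LinearMap.id) : Bijective (Dmap σ hf) := by
  refine bijective_iff_has_inverse.mpr ⟨Dmap σ hg, fun h => DT.ext fun t => ?_,
    fun h => DT.ext fun t => ?_⟩
  · exact congrArg h (LinearMap.congr_fun e2 t)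
  · exact congrArg h (LinearMap.congr_fun e1 t)

theorem dd_pow (σ : Anti k R S) {A : FO k R F} {f : A.X →ₗ[R] A.X} (hf : f ∈ HomF A A) (n : ℕ)
    (h : DT σ A) (t : A.X) :
    (((Dmap σ hf : Module.End S (DT σ A)) ^ n) h : DT σ A) t
      = h (((f : Module.End R A.X) ^ n) t) := by
  induction n generalizing h with
  | zero => rfl
  | succ n ih =>
    rw [pow_succ, Module.End.mul_apply, ih, Dmap_apply, pow_succ', Module.End.mul_apply]

/-- the twisted dual -/
noncomputable def dd_twMap (σ : Anti k R S) (A : FO k R F) (τ : F ≃ₐ[k] F) :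
    DT σ (A.tw τ) →ₗ[S] DT σ A where
  toFun h := dd_mk σ A (fun t => τ.symm (h t))
    (fun t t' => (congrArg τ.symm (dd_add h t t')).trans (map_add _ _ _))
    (fun a t => by
      have e := dd_act h (τ a) t
      have e2 : (A.tw τ).act (τ a) t = A.act a t := by
        change A.act (τ.symm (τ a)) t = _
        rw [AlgEquiv.symm_apply_apply]
      rw [e2] at e
      change τ.symm (h (A.act a t)) = a * τ.symm (h t)
      rw [e, map_mul, AlgEquiv.symm_apply_apply])
  map_add' h h' := DT.ext fun t => map_add τ.symm _ _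
  map_smul' s h := DT.ext fun t => rfl

theorem dd_tw (σ : Anti k R S) (A : FO k R F) (τ : F ≃ₐ[k] F) :
    IsoF (DF σ (A.tw τ)) ((DF σ A).tw τ) := by
  refine ⟨dd_twMap σ A τ, fun a h => DT.ext (σ := σ) (A := A) fun t => map_mul τ.symm _ _, ?_,
    fun g : DT σ A => ?_⟩
  · intro h h' e
    refine DT.ext (σ := σ) (A := A.tw τ) fun t => τ.symm.injective ?_
    exact congrArg (fun g : DT σ A => g t) e
  · refine ⟨dd_mk σ (A.tw τ) (fun t => τ (g t))
      (fun t t' => (congrArg τ (dd_add g t t')).trans (map_add _ _ _))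
      (fun a t => by
        have e := dd_act g (τ.symm a) t
        change τ (g (A.act (τ.symm a) t)) = a * τ (g t)
        rw [e, map_mul, AlgEquiv.apply_symm_apply]), DT.ext (σ := σ) (A := A) fun t => ?_⟩
    exact τ.symm_apply_apply _

/-- the functional `r ⊗ b ↦ H (σ r) b` -/
noncomputable def dd_psiK (σ : Anti k R S) (B : FO k R F) (H : CoInd k S (DT σ B)) :
    R ⊗[k] B.X →ₗ[k] F :=
  TensorProduct.lift
    { toFun := fun r => (DT.lin (H (σ.e r))).restrictScalars k
      map_add' := fun r r' => LinearMap.ext fun b => by simp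
      map_smul' := fun c r => LinearMap.ext fun b => by simp }

theorem dd_psiK_tmul (σ : Anti k R S) (B : FO k R F) (H : CoInd k S (DT σ B)) (r : R) (b : B.X) :
    dd_psiK σ B H (r ⊗ₜ b) = H (σ.e r) b := rfl

/-- `Hom(S, D B) → D (R ⊗ B)` -/
noncomputable def dd_psi (σ : Anti k R S) (B : FO k R F) :
    CoInd k S (DT σ B) →ₗ[S] DT σ (PA.onF B) where
  toFun H := dd_mk σ (PA.onF B) (fun z => dd_psiK σ B H z)
    (fun z z' => map_add (dd_psiK σ B H) z z')
    (fun a (z : R ⊗[k] B.X) => by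
      change dd_psiK σ B H (Pmap ((B.act a).restrictScalars k) z) = a * dd_psiK σ B H z
      induction z using TensorProduct.induction_on with
      | zero => simp
      | tmul r b =>
        rw [Pmap_tmul, dd_psiK_tmul, dd_psiK_tmul]
        exact dd_act (H (σ.e r)) a b
      | add x y hx hy => rw [map_add, map_add, map_add, hx, hy, mul_add])
  map_add' H H' := DT.ext fun z : R ⊗[k] B.X => by
    change dd_psiK σ B (H + H') z = dd_psiK σ B H z + dd_psiK σ B H' z
    induction z using TensorProduct.induction_on with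
    | zero => simp
    | tmul r b => rfl
    | add x y hx hy => rw [map_add, map_add, map_add, hx, hy]; abel
  map_smul' s H := DT.ext fun z : R ⊗[k] B.X => by
    change dd_psiK σ B (s • H) z = dd_psiK σ B H (σ.e.symm s • z)
    induction z using TensorProduct.induction_on with
    | zero => simp
    | tmul r b =>
      rw [smul_tmul', dd_psiK_tmul, dd_psiK_tmul, smul_eq_mul, σ.map_mul,
        LinearEquiv.apply_symm_apply, CoInd.smul_apply]
    | add x y hx hy => rw [smul_add, map_add, map_add, hx, hy]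

theorem dd_psi_mem (σ : Anti k R S) (B : FO k R F) :
    dd_psi σ B ∈ HomF (IA.onF (DF σ B)) (DF σ (PA.onF B)) :=
  fun a (H : CoInd k S (DT σ B)) => DT.ext (σ := σ) (A := PA.onF B) fun z : R ⊗[k] B.X => by
  change dd_psiK σ B (Imap ((DT.act σ B a).restrictScalars k) H) z = a * dd_psiK σ B H z
  induction z using TensorProduct.induction_on with
  | zero => simp
  | tmul r b => rfl
  | add x y hx hy => rw [map_add, map_add, hx, hy, mul_add]

theorem dd_p0 (σ : Anti k R S) (A B : FO k R F) (f : A.X →ₗ[R] B.X) (hf : f ∈ HomF A B)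
    (h0 : f ∈ P0 A B) : Dmap σ hf ∈ I0 (DF σ B) (DF σ A) := by
  obtain ⟨g, hg, e⟩ := h0
  refine ⟨Dmap σ hg ∘ₗ dd_psi σ B, HomF.comp (Dmap_mem σ hg) (dd_psi_mem σ B),
    LinearMap.ext fun h : DT σ B => DT.ext (σ := σ) (A := A) fun t => ?_⟩
  have key : ∀ z : R ⊗[k] B.X, h (Pmul k R B.X z) = dd_psiK σ B (iI (DF σ B).X h) z := by
    intro z
    induction z using TensorProduct.induction_on with
    | zero => simp
    | tmul r b =>
      rw [Pmul_tmul]
      change _ = h (σ.e.symm (σ.e r) • b)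
      rw [LinearEquiv.symm_apply_apply]
    | add x y hx hy => rw [map_add, map_add, map_add, hx, hy]
  exact (congrArg h (LinearMap.congr_fun e t)).trans (key (g t))

/-- `s ⊗ h ↦ (H ↦ h (H (σ⁻¹ 1)))`, the generator part -/
noncomputable def dd_th0 (σ : Anti k R S) (A : FO k R F) :
    DT σ A →ₗ[k] DT σ (IA.onF A) where
  toFun h := dd_mk σ (IA.onF A) (fun H : CoInd k R A.X => h (H 1))
    (fun (H H' : CoInd k R A.X) => dd_add h (H 1) (H' 1))
    (fun a (H : CoInd k R A.X) => dd_act h a (H 1))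
  map_add' _ _ := rfl
  map_smul' _ _ := rfl

/-- `S ⊗ D A → D Hom(R, A)` -/
noncomputable def dd_th (σ : Anti k R S) (A : FO k R F) :
    S ⊗[k] DT σ A →ₗ[S] DT σ (IA.onF A) := Plift (dd_th0 σ A)

theorem dd_th_tmul (σ : Anti k R S) (A : FO k R F) (s : S) (h : DT σ A) (H : CoInd k R A.X) :
    dd_th σ A (s ⊗ₜ h) H = h (H (σ.e.symm s)) := by
  rw [dd_th, Plift_tmul]
  change h (H (1 * σ.e.symm s)) = _
  rw [one_mul]

theorem dd_th_mem (σ : Anti k R S) (A : FO k R F) :
    dd_th σ A ∈ HomF (PA.onF (DF σ A)) (DF σ (IA.onF A)) :=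
  mem_HomF'.mpr fun a => P_ext (R := S) (V := DT σ A) fun h =>
    DT.ext (σ := σ) (A := IA.onF A) fun H : CoInd k R A.X => by
      change dd_th σ A (Pmap ((DT.act σ A a).restrictScalars k) ((1 : S) ⊗ₜ h)) H
        = a * dd_th σ A ((1 : S) ⊗ₜ h) H
      rw [Pmap_tmul, dd_th_tmul, dd_th_tmul]
      rfl

/-- the elementary map `r ↦ c_i^*(σ r) t` -/
noncomputable def dd_el [FiniteDimensional k S] (σ : Anti k R S) (T : Md k R)
    (i : Fin (Module.finrank k S)) (t : T) : CoInd k R T :=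
  CoInd.of (((bR k S).coord i ∘ₗ σ.e.toLinearMap).smulRight t)

theorem dd_el_apply [FiniteDimensional k S] (σ : Anti k R S) (T : Md k R)
    (i : Fin (Module.finrank k S)) (t : T) (r : R) :
    dd_el σ T i t r = (bR k S).repr (σ.e r) i • t := rfl

theorem dd_th_bij [FiniteDimensional k S] (σ : Anti k R S) (A : FO k R F) :
    Bijective (dd_th σ A) := by
  refine ⟨(injective_iff_map_eq_zero _).mpr fun z hz => ?_, fun Φ => ?_⟩
  · have key : ∀ (j) (t : A.X) (w : S ⊗[k] DT σ A),
        dd_th σ A w (dd_el σ A.X j t) = (cf (DT σ A) j w : DT σ A) t := by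
      intro j t w
      induction w using TensorProduct.induction_on with
      | zero => rw [map_zero, map_zero]; rfl
      | tmul s h =>
        rw [dd_th_tmul, dd_el_apply, LinearEquiv.apply_symm_apply, dd_ksmul, cf_tmul]
        rfl
      | add x y hx hy =>
        rw [map_add, map_add]
        exact congrArg₂ (· + ·) hx hy
    rw [← sum_cf z]
    refine Finset.sum_eq_zero fun j _ => ?_
    have e : cf (DT σ A) j z = 0 := DT.ext fun t => by
      rw [← key, hz]; rfl
    rw [e, tmul_zero]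
  · refine ⟨∑ i, bR k S i ⊗ₜ dd_mk σ A (fun t => Φ (dd_el σ A.X i t)) (fun t t' => ?_)
      (fun a t => ?_), DT.ext fun H : CoInd k R A.X => ?_⟩
    · have e : dd_el σ A.X i (t + t') = dd_el σ A.X i t + dd_el σ A.X i t' :=
        CoInd.ext fun r => by rw [CoInd.add_apply, dd_el_apply, dd_el_apply, dd_el_apply, smul_add]
      exact (congrArg Φ e).trans (dd_add Φ _ _)
    · have e : dd_el σ A.X i (A.act a t) = (IA.onF A).act a (dd_el σ A.X i t) :=
        CoInd.ext fun r => ((A.act a).map_smul_of_tower ((bR k S).repr (σ.e r) i) t).symm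
      exact (congrArg Φ e).trans (dd_act Φ _ _)
    · rw [map_sum]
      refine (dd_sum_apply _ _ _).trans ?_
      have e : H = ∑ i, dd_el σ A.X i (H (σ.e.symm (bR k S i))) := CoInd.ext fun r => by
        rw [CoInd.sum_apply]
        conv_lhs => rw [← σ.e.symm_apply_apply r, ← (bR k S).sum_repr (σ.e r)]
        simp only [map_sum, map_smul, dd_el_apply]
      refine Eq.trans ?_ (congrArg Φ e.symm)
      refine Eq.trans ?_ (dd_sum (A := IA.onF A) Φ _ _).symm
      exact Finset.sum_congr rfl fun i _ => dd_th_tmul σ A _ _ H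

theorem dd_i0 [FiniteDimensional k S] (hID : S_ID k S) (σ : Anti k R S) (A B : FO k R F)
    (f : A.X →ₗ[R] B.X) (hf : f ∈ HomF A B)
    (h0 : f ∈ I0 A B) : Dmap σ hf ∈ P0 (DF σ B) (DF σ A) := by
  obtain ⟨g, hg, e⟩ := h0
  obtain ⟨G, hG, -, e2⟩ := hID.iso_inv F _ _ _ (dd_th_mem σ A) (dd_th_bij σ A)
  refine ⟨G ∘ₗ Dmap σ hg, HomF.comp hG (Dmap_mem σ hg),
    LinearMap.ext fun h : DT σ B => DT.ext (σ := σ) (A := A) fun t => ?_⟩
  have key : ∀ w : S ⊗[k] DT σ A,
      dd_th σ A w (iI A.X t) = (Pmul k S (DT σ A) w : DT σ A) t := by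
    intro w
    induction w using TensorProduct.induction_on with
    | zero => rw [map_zero, map_zero]; rfl
    | tmul s h' =>
      rw [Pmul_tmul]
      exact dd_th_tmul σ A s h' _
    | add x y hx hy =>
      rw [map_add, map_add]
      exact congrArg₂ (· + ·) hx hy
  refine Eq.trans ?_ (key (G (Dmap σ hg h)))
  have e3 : dd_th σ A (G (Dmap σ hg h)) = Dmap σ hg h := LinearMap.congr_fun e2 _
  rw [e3]
  exact congrArg h (LinearMap.congr_fun e t)

/-- the functional `q ⊗ c' ↦ h(q) c c'` -/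
noncomputable def dd_laK (σ : Anti k R S) (Q : Md k R) (h : DT σ (FO.ofMd Q)) (c : F) :
    Q ⊗[k] F →ₗ[k] F :=
  TensorProduct.lift
    { toFun := fun q => (h q : k) • LinearMap.mulLeft k c
      map_add' := fun q q' => by rw [dd_add (A := FO.ofMd Q) h q q', add_smul]
      map_smul' := fun a q => by
        rw [dd_ksmul (A := FO.ofMd Q) h a q, smul_assoc]; rfl }

theorem dd_laK_tmul (σ : Anti k R S) (Q : Md k R) (h : DT σ (FO.ofMd Q)) (c : F) (q : Q) (c' : F) :
    dd_laK σ Q h c (q ⊗ₜ c') = (h q : k) • (c * c') := rfl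

theorem dd_ten_act (Q : Md k R) (a : F) (q : Q) (c : F) :
    (TenF F Q).act a (q ⊗ₜ[k] c) = q ⊗ₜ[k] (a * c) := rfl

theorem dd_ten_ext {σ : Anti k R S} {Q : Md k R} {Φ Ψ : DT σ (TenF F Q)}
    (e : ∀ q : Q, Φ (q ⊗ₜ[k] (1 : F)) = Ψ (q ⊗ₜ[k] (1 : F))) : Φ = Ψ :=
  DT.ext fun z : Q ⊗[k] F => by
    induction z using TensorProduct.induction_on with
    | zero => exact (map_zero (DT.lin Φ)).trans (map_zero (DT.lin Ψ)).symm
    | tmul q c =>
      have e1 : q ⊗ₜ[k] c = (TenF F Q).act c (q ⊗ₜ[k] (1 : F)) := by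
        rw [dd_ten_act, mul_one]
      rw [e1]
      exact (dd_act Φ _ _).trans ((congrArg (c * ·) (e q)).trans (dd_act Ψ _ _).symm)
    | add x y hx hy =>
      exact (dd_add Φ x y).trans ((congrArg₂ (· + ·) hx hy).trans (dd_add Ψ x y).symm)

/-- `dd_laK` as an element of the dual -/
noncomputable def dd_la1 (σ : Anti k R S) (Q : Md k R) (h : DT σ (FO.ofMd Q)) (c : F) :
    DT σ (TenF F Q) :=
  dd_mk σ (TenF F Q) (fun z : Q ⊗[k] F => dd_laK σ Q h c z)
    (fun z z' : Q ⊗[k] F => map_add (dd_laK σ Q h c) z z')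
    (fun a (z : Q ⊗[k] F) => by
      induction z using TensorProduct.induction_on with
      | zero =>
        have e : (TenF F Q).act a (0 : Q ⊗[k] F) = (0 : Q ⊗[k] F) := map_zero _
        rw [e, map_zero, mul_zero]
      | tmul q c' =>
        rw [dd_ten_act, dd_laK_tmul, dd_laK_tmul, mul_smul_comm, mul_left_comm]
      | add x y hx hy =>
        have e : (TenF F Q).act a (x + y : Q ⊗[k] F)
          = ((TenF F Q).act a x + (TenF F Q).act a y : Q ⊗[k] F) := map_add _ _ _
        refine (congrArg (dd_laK σ Q h c) e).trans ((map_add (dd_laK σ Q h c) _ _).trans ?_)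
        rw [hx, hy, map_add, mul_add])

theorem dd_la1_tmul (σ : Anti k R S) (Q : Md k R) (h : DT σ (FO.ofMd Q)) (c : F) (q : Q) (c' : F) :
    dd_la1 σ Q h c (q ⊗ₜ[k] c') = (h q : k) • (c * c') := rfl

/-- the `k`-dual of a module -/
noncomputable def dd_Q (σ : Anti k R S) (Q : Md k R) : Md k S := (DF σ (FO.ofMd Q)).X

/-- an element of `dd_Q` as a functional -/
def dd_un {σ : Anti k R S} {Q : Md k R} (h : dd_Q σ Q) : DT σ (FO.ofMd Q) := h

/-- `D Q ⊗ F → D (Q ⊗ F)` -/
noncomputable def dd_la (σ : Anti k R S) (Q : Md k R) :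
    dd_Q σ Q ⊗[k] F →ₗ[S] DT σ (TenF F Q) :=
  AlgebraTensorModule.lift
    { toFun := fun h =>
        { toFun := fun c => dd_la1 σ Q (dd_un h) c
          map_add' := fun c c' => dd_ten_ext fun q => by
            change (dd_un h q : k) • ((c + c') * 1)
              = (dd_un h q : k) • (c * 1) + (dd_un h q : k) • (c' * 1)
            rw [add_mul, smul_add]
          map_smul' := fun a c => dd_ten_ext fun q => by
            change (dd_un h q : k) • ((a • c) * 1) = a • (dd_un h q : k) • (c * 1)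
            rw [smul_mul_assoc, smul_comm] }
      map_add' := fun h h' => LinearMap.ext fun c => dd_ten_ext fun q => by
        change (dd_un h q + dd_un h' q : k) • (c * 1)
          = (dd_un h q : k) • (c * 1) + (dd_un h' q : k) • (c * 1)
        rw [add_smul]
      map_smul' := fun s h => LinearMap.ext fun c => dd_ten_ext fun q => rfl }

theorem dd_la_tmul (σ : Anti k R S) (Q : Md k R) (h : dd_Q σ Q) (c : F) (q : Q) (c' : F) :
    dd_la σ Q (h ⊗ₜ[k] c) (q ⊗ₜ[k] c') = (dd_un h q : k) • (c * c') := rfl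

theorem dd_la_mem (σ : Anti k R S) (Q : Md k R) :
    dd_la σ Q ∈ HomF (TenF F (dd_Q σ Q)) (DF σ (TenF F Q)) :=
  mem_HomF'.mpr fun a => AlgebraTensorModule.ext fun (h : dd_Q σ Q) (c : F) =>
    dd_ten_ext (σ := σ) (Q := Q) (F := F) fun q => by
      change (dd_un h q : k) • ((a * c) * 1) = a * ((dd_un h q : k) • (c * 1))
      rw [mul_smul_comm, mul_assoc]

theorem dd_la_bij (σ : Anti k R S) (Q : Md k R) (hQ : Q.fd) : Bijective (dd_la (F := F) σ Q) := by
  haveI : Module.Finite k Q := hQ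
  let b := Module.finBasis k Q
  let d : Fin (Module.finrank k Q) → dd_Q σ Q := fun i =>
    dd_mk σ (FO.ofMd Q) (fun q : Q => b.repr q i) (fun q q' : Q => by simp)
      (fun a (q : Q) => by rw [FO.smul_k]; simp)
  have hd : ∀ i (q : Q), dd_un (d i) q = b.repr q i := fun _ _ => rfl
  refine ⟨(injective_iff_map_eq_zero _).mpr fun z hz => ?_, fun Φ => ?_⟩
  · have key : ∀ w : dd_Q σ Q ⊗[k] F,
        w = ∑ i, d i ⊗ₜ[k] dd_la σ Q w (b i ⊗ₜ[k] (1 : F)) := by
      intro w
      induction w using TensorProduct.induction_on with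
      | zero =>
        rw [map_zero]
        exact (Finset.sum_eq_zero fun i _ => tmul_zero _ _).symm
      | tmul h c =>
        have e : h = ∑ i, (dd_un h (b i) : k) • d i :=
          DT.ext (σ := σ) (A := FO.ofMd Q) fun q : Q => by
          refine Eq.trans ?_ (dd_sum_apply (σ := σ) (A := FO.ofMd Q) _ _ _).symm
          refine (congrArg (dd_un h) (b.sum_repr q).symm).trans ?_
          refine (dd_sum (A := FO.ofMd Q) (dd_un h) _ _).trans ?_
          refine Finset.sum_congr rfl fun i _ =>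
            (dd_ksmul (A := FO.ofMd Q) (dd_un h) _ _).trans ?_
          exact mul_comm _ _
        have e' : ∀ i, d i ⊗ₜ[k] dd_la σ Q (h ⊗ₜ[k] c) (b i ⊗ₜ[k] (1 : F))
            = ((dd_un h (b i) : k) • d i) ⊗ₜ[k] c := fun i => by
          rw [dd_la_tmul, mul_one, tmul_smul, smul_tmul']
        rw [Finset.sum_congr rfl fun i _ => e' i, ← sum_tmul, ← e]
      | add x y hx hy =>
        rw [map_add]
        refine (congrArg₂ (· + ·) hx hy).trans ?_
        rw [← Finset.sum_add_distrib]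
        exact Finset.sum_congr rfl fun i _ => (tmul_add _ _ _).symm
    rw [key z, hz]
    exact Finset.sum_eq_zero fun i _ => tmul_zero _ _
  · refine ⟨∑ i, d i ⊗ₜ[k] Φ (b i ⊗ₜ[k] (1 : F)), dd_ten_ext fun q => ?_⟩
    rw [map_sum]
    refine (dd_sum_apply _ _ _).trans ?_
    have e : q ⊗ₜ[k] (1 : F) = ∑ i, b.repr q i • (b i ⊗ₜ[k] (1 : F)) := by
      simp only [smul_tmul']
      rw [← sum_tmul, b.sum_repr]
    refine Eq.trans ?_ (congrArg Φ e.symm)
    refine Eq.trans ?_ (dd_sum (A := TenF F Q) Φ _ _).symm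
    refine Finset.sum_congr rfl fun i _ => Eq.trans ?_ (dd_ksmul (A := TenF F Q) Φ _ _).symm
    rw [dd_la_tmul, mul_one, hd]

end

theorem t_DD (k : Type u) [Field k] [IsAlgClosed k] (R : Type u) [Ring R] [Algebra k R]
    [FiniteDimensional k R]
    (hID : ∀ (S : Type u) [Ring S] [Algebra k S] [FiniteDimensional k S], S_ID k S)
    (hFD : ∀ (S : Type u) [Ring S] [Algebra k S] [FiniteDimensional k S], S_FD k S) :
    S_DD k R := by
  have hiso : ∀ (S : Type u) [Ring S] [Algebra k S] [FiniteDimensional k S] (σ : Anti k R S)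
      (F : Type u) [Field F] [Algebra k F] (A B : FO k R F),
      IsoF A B → IsoF (DF σ A) (DF σ B) := by
    rintro S _ _ _ σ F _ _ A B ⟨f, hf, hb⟩
    obtain ⟨g, hg, e1, e2⟩ := (hID R).iso_inv F A B f hf hb
    exact ⟨Dmap σ hg, Dmap_mem σ hg, dd_bij σ hg hf e2 e1⟩
  have hfull : ∀ (S : Type u) [Ring S] [Algebra k S] [FiniteDimensional k S] (σ : Anti k R S)
      (F : Type u) [Field F] [Algebra k F] (A B : FO k R F), B.fd →
      ∀ g ∈ HomF (DF σ B) (DF σ A), ∃ (f : A.X →ₗ[R] B.X) (hf : f ∈ HomF A B), g = Dmap σ hf := by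
    intro S _ _ _ σ F _ _ A B hB g hg
    obtain ⟨e, he, -, e2⟩ := (hID R).iso_inv F _ _ _ (dd_ev_mem σ B) (dd_ev_bij σ B hB)
    refine ⟨e ∘ₗ Dmap σ.symm hg ∘ₗ Dev σ A,
      HomF.comp he (HomF.comp (Dmap_mem σ.symm hg) (dd_ev_mem σ A)),
      LinearMap.ext fun h : DT σ B => DT.ext (σ := σ) (A := A) fun t => ?_⟩
    have e3 : Dev σ B (e (Dmap σ.symm hg (Dev σ A t))) = Dmap σ.symm hg (Dev σ A t) :=
      LinearMap.congr_fun e2 _
    exact (congrArg (fun Φ : DT σ.symm (DF σ B) => Φ h) e3).symm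
  have hq : ∀ (S : Type u) [Ring S] [Algebra k S] [FiniteDimensional k S] (σ : Anti k R S)
      (Q : Md k R), Q.fd → (dd_Q σ Q).fd := fun S _ _ _ σ Q hQ =>
    ((hFD S).ofk _).mp (dd_fd σ _ (((hFD R).ofk (FO.ofMd Q)).mpr hQ)).1
  refine ⟨fun S _ _ _ σ F _ _ A hA => dd_fd σ A hA, fun S _ _ _ σ F _ _ A => dd_ev_mem σ A,
    fun S _ _ _ σ F _ _ A hA => dd_ev_bij σ A hA,
    fun S _ _ _ σ F _ _ A B _ hB => hfull S σ F A B hB, hiso, ?_, ?_, ?_,
    fun S _ _ _ σ F _ _ A B f hf _ h0 => dd_i0 (hID S) σ A B f hf h0,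
    fun S _ _ _ σ F _ _ A B f hf h0 => dd_p0 σ A B f hf h0,
    fun S _ _ _ σ F _ _ A τ => dd_tw σ A τ⟩
  · rintro S _ _ _ σ F _ _ A hA ⟨hn, hl⟩
    refine ⟨?_, fun u hu => ?_⟩
    · by_contra hc
      have hs : Subsingleton (DT σ A) := not_nontrivial_iff_subsingleton.mp hc
      obtain ⟨t, ht⟩ := exists_ne (0 : A.X)
      exact ht (dd_sep σ A t fun g => by rw [Subsingleton.elim g 0]; rfl)
    · obtain ⟨f, hf, rfl⟩ := hfull S σ F A A hA u hu
      rcases hl f hf with ⟨n, hn⟩ | hb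
      · refine Or.inl ⟨n, LinearMap.ext fun h : DT σ A => DT.ext (σ := σ) (A := A) fun t => ?_⟩
        refine (dd_pow σ hf n h t).trans ?_
        rw [hn]
        exact map_zero (DT.lin h)
      · obtain ⟨g, hg, e1, e2⟩ := (hID R).iso_inv F A A f hf hb
        exact Or.inr (dd_bij σ hf hg e1 e2)
  · rintro S _ _ _ σ F _ _ A ⟨Q, hQ, hi⟩
    exact ⟨_, hq S σ Q hQ, (hID S).iso_trans F _ _ _ (hiso S σ F _ _ hi)
      ((hID S).iso_symm F _ _ ⟨_, dd_la_mem σ Q, dd_la_bij σ Q hQ⟩)⟩
  · rintro S _ _ _ σ F _ _ A B f hf ⟨Q, hQ, a, ha, b, hb, e⟩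
    obtain ⟨G, hG, -, e2⟩ := (hID S).iso_inv F _ _ _ (dd_la_mem (F := F) σ Q) (dd_la_bij σ Q hQ)
    refine ⟨_, hq S σ Q hQ, G ∘ₗ Dmap σ hb, HomF.comp hG (Dmap_mem σ hb),
      Dmap σ ha ∘ₗ dd_la σ Q, HomF.comp (Dmap_mem σ ha) (dd_la_mem σ Q),
      LinearMap.ext fun h : DT σ B => DT.ext (σ := σ) (A := A) fun t => ?_⟩
    have e3 : dd_la σ Q (G (Dmap σ hb h)) = Dmap σ hb h := LinearMap.congr_fun e2 _
    refine Eq.trans ?_ (congrArg (fun Φ : DT σ (TenF F Q) => Φ (a t)) e3).symm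
    exact congrArg h (LinearMap.congr_fun e t)

end Pool.Agent.P.MP_cf639b_al
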