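import Pool.Agent.P.MP_cf639b_al.Iface

set_option linter.dupNamespace false

namespace Pool.Agent.P.MP_cf639b_al

universe u v
open TensorProduct Polynomial Function

noncomputable section
section aux
variable {k : Type u} [Field k] {R : Type u} [Ring R] [Algebra k R] {S : Type u} [Ring S]
  [Algebra k S] {F : Type u} [Field F] [Algebra k F]

theorem dmy_act {σ : Anti k R S} {A : FO k R F} (h : DT σ A) (c : F) (t : A.X) :
    h (A.act c t) = c * h t := h.lin.map_smul c t

/-- a functional as a `k`-linear map -/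
def dmy_k {σ : Anti k R S} {A : FO k R F} (h : DT σ A) : A.X →ₗ[k] F := h.lin.restrictScalars k

theorem dmy_k_apply {σ : Anti k R S} {A : FO k R F} (h : DT σ A) (t : A.X) :
    dmy_k h t = h t := rfl

/-- a `k`-linear functional commuting with the action as an element of the dual -/
def dmy_of (σ : Anti k R S) (A : FO k R F) (g : A.X →ₗ[k] F)
    (hg : ∀ c t, g (A.act c t) = c * g t) : DT σ A :=
  DT.of σ { toFun := g, map_add' := g.map_add, map_smul' := hg }

theorem dmy_of_apply (σ : Anti k R S) (A : FO k R F) (g : A.X →ₗ[k] F) (hg) (t : A.X) :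
    dmy_of σ A g hg t = g t := rfl

theorem dmy_pow (y : F) (i : ℕ) (v : F) : ((one k y).V.x ^ i) v = y ^ i * v := by
  change ((LinearMap.mulLeft k y) ^ i) v = _
  rw [LinearMap.pow_mulLeft, LinearMap.mulLeft_apply]

theorem dmy_gen (d : Fam R) (y c v : F) (b : Fin d.n0) :
    (MF d (one k y)).act c (gen d (one k y).V b v) = gen d (one k y).V b (c * v) :=
  map_gen d ((one k y).sc c) b v

theorem dmy_h (σ : Anti k R S) (d : Fam R) (y : F) (h : DT σ (MF d (one k y))) (r : R)
    (b : Fin d.n0) (v : F) :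
    h (r • gen d (one k y).V b v) = v * h (r • gen d (one k y).V b (1 : F)) := by
  have e : r • gen d (one k y).V b v =
      (MF d (one k y)).act v (r • gen d (one k y).V b (1 : F)) := by
    rw [map_smul, dmy_gen, mul_one]
  rw [e]
  exact dmy_act h v _

/-- evaluation at a generator -/
def dmy_z (σ : Anti k R S) (d : Fam R) (y : F) (a : Fin d.n0) :
    (DF σ (MF d (one k y))).X →ₗ[k] (one k y).V where
  toFun h := (h : DT σ (MF d (one k y))) (gen d (one k y).V a (1 : F))
  map_add' _ _ := rfl
  map_smul' _ _ := rfl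

variable [FiniteDimensional k S]

/-- the comparison map -/
def dmy_phi (σ : Anti k R S) (d : Fam R) (y : F) :
    (DF σ (MF d (one k y))).X →ₗ[S] Y (d.op σ) (one k y).V :=
  Ylift (d.op σ) (one k y).V (dmy_z σ d y) (fun b h => by
    have e := congrArg (dmy_k (σ := σ) (A := MF d (one k y)) h)
      (gen_rel d (one k y).V b (1 : F))
    rw [map_zero, map_sum] at e
    refine Eq.trans (Finset.sum_congr rfl fun i _ => ?_) e
    rw [map_sum]
    refine Finset.sum_congr rfl fun a _ => ?_
    refine (dmy_pow y i _).trans ?_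
    refine Eq.trans ?_ (dmy_h σ d y h _ a _).symm
    rw [dmy_pow, mul_one]
    change _ * (h : DT σ (MF d (one k y))) (σ.e.symm (σ.e (d.c i b a)) • _) = _
    rw [LinearEquiv.symm_apply_apply])

theorem dmy_cog (σ : Anti k R S) (d : Fam R) (y : F) (a : Fin d.n0) (s : S)
    (h : DT σ (MF d (one k y))) :
    cog (d.op σ) (one k y).V a (s • dmy_phi σ d y h) =
      h (σ.e.symm s • gen d (one k y).V a (1 : F)) := by
  rw [← map_smul]
  exact cog_Ylift _ _ _ _ _ _

/-- the values on the generators of the functional attached to an element of `Y` -/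
def dmy_w (σ : Anti k R S) (d : Fam R) (y : F) (t : Y (d.op σ) (one k y).V) (b : Fin d.n0) :
    (one k y).V →ₗ[k] (I R F : Md k R) :=
  (LinearMap.mul k F).compl₂ (show R →ₗ[k] F from cog (d.op σ) (one k y).V b ∘ₗ
    (LinearMap.toSpanSingleton S _ t).restrictScalars k ∘ₗ σ.e.toLinearMap)

theorem dmy_w_apply (σ : Anti k R S) (d : Fam R) (y : F) (t : Y (d.op σ) (one k y).V)
    (b : Fin d.n0) (v : F) (r : R) :
    (dmy_w σ d y t b v : CoInd k R F) r = v * (cog (d.op σ) (one k y).V b (σ.e r • t) : F) := rfl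

theorem dmy_first (σ : Anti k R S) (d : Fam R) (y : F) :
    IsoF (DF σ (MF d (one k y))) (YF (d.op σ) (one k y)) := by
  refine ⟨dmy_phi σ d y, fun c h => Y_ext fun s a => ?_, ?_, fun t => ?_⟩
  · rw [dmy_cog]
    change _ = cog (d.op σ) (one k y).V a
      (s • (YN (d.op σ)).map ((one k y).sc c) (dmy_phi σ d y h))
    rw [← ((YN (d.op σ)).map ((one k y).sc c)).map_smul, cog_map, dmy_cog]
    rfl
  · refine (injective_iff_map_eq_zero _).2 fun h h0 => ?_
    have e : Ilift (R := R) (dmy_k (σ := σ) (A := MF d (one k y)) h) = 0 :=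
      M_ext (T := I R F) fun b v => CoInd.ext fun r => by
        have e1 := dmy_cog σ d y b (σ.e r) h
        rw [h0, smul_zero, map_zero, LinearEquiv.symm_apply_apply] at e1
        refine (dmy_h σ d y h r b v).trans ?_
        rw [← e1]
        exact mul_zero _
    refine DT.ext (σ := σ) (A := MF d (one k y)) fun m => ?_
    have e2 : (h : DT σ (MF d (one k y))) ((1 : R) • m) = 0 :=
      congrArg (fun g : M d (one k y).V →ₗ[R] (I R F : Md k R) => (g m : CoInd k R F) 1) e
    rwa [one_smul] at e2
  · have hz : ∀ a (v : F), ∑ i ∈ Finset.range (d.r + 1), ∑ b,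
        d.c i a b • dmy_w σ d y t b (((one k y).V.x ^ i) v) = 0 := fun a v =>
      CoInd.ext fun r => by
        have e := congrArg (fun w : F => v * w) (cog_rel (d.op σ) (one k y).V a (σ.e r • t))
        simp only [Finset.mul_sum] at e
        refine (CoInd.sum_apply _ _ _).trans (Eq.trans (Finset.sum_congr rfl fun i _ => ?_)
          (e.trans (mul_zero v)))
        refine (CoInd.sum_apply _ _ _).trans (Finset.sum_congr rfl fun b _ => ?_)
        refine (dmy_w_apply σ d y t b _ (r * d.c i a b)).trans ?_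
        rw [dmy_pow, dmy_pow, σ.map_mul, mul_smul]
        ring
    have hG : ∀ c : F, Mlift d (one k y).V (dmy_w σ d y t) hz ∘ₗ (MF d (one k y)).act c =
        Imap (LinearMap.mulLeft k c) ∘ₗ Mlift d (one k y).V (dmy_w σ d y t) hz := fun c =>
      M_ext fun b v => CoInd.ext fun r => by
        rw [LinearMap.comp_apply, LinearMap.comp_apply, dmy_gen, Mlift_gen, Mlift_gen]
        exact mul_assoc _ _ _
    refine ⟨dmy_of σ (MF d (one k y))
      (Iev F ∘ₗ (Mlift d (one k y).V (dmy_w σ d y t) hz).restrictScalars k)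
      (fun c m => congrArg
          (fun g : M d (one k y).V →ₗ[R] (I R F : Md k R) => (g m : CoInd k R F) 1) (hG c)),
      Y_ext fun s a => ?_⟩
    rw [dmy_cog]
    change (Mlift d (one k y).V (dmy_w σ d y t) hz
      (σ.e.symm s • gen d (one k y).V a (1 : F)) : CoInd k R F) (1 : R) = _
    rw [map_smul, Mlift_gen]
    refine (dmy_w_apply σ d y t a 1 (1 * σ.e.symm s)).trans ?_
    rw [one_mul, one_mul, LinearEquiv.apply_symm_apply]

omit [FiniteDimensional k S] in
theorem dmy_op (σ : Anti k R S) (d : Fam R) : (d.op σ).op σ.symm = d := by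
  obtain ⟨n0, n1, r, c⟩ := d
  exact congrArg (Fam.mk n0 n1 r) (funext fun i => funext fun a => funext fun b =>
    σ.e.symm_apply_apply _)

end aux
end

theorem t_DMY (k : Type u) [Field k] [IsAlgClosed k] (R : Type u) [Ring R] [Algebra k R]
    [FiniteDimensional k R]
    (hID : ∀ (S : Type u) [Ring S] [Algebra k S] [FiniteDimensional k S], S_ID k S)
    (hFD : ∀ (S : Type u) [Ring S] [Algebra k S] [FiniteDimensional k S], S_FD k S)
    (hDD : ∀ (S : Type u) [Ring S] [Algebra k S] [FiniteDimensional k S], S_DD k S) :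
    S_DMY k R := by
  intro S _ _ _ σ F _ _ d y
  refine ⟨dmy_first σ d y, ?_⟩
  have h1 := dmy_first σ.symm (d.op σ) y
  rw [dmy_op] at h1
  have h2 := (hDD R).iso S σ F _ _ h1
  have h3 : IsoF (MF (d.op σ) (one k y)) (DF σ (DF σ.symm (MF (d.op σ) (one k y)))) :=
    ⟨_, (hDD S).ev_mem R σ.symm F _,
      (hDD S).ev_bij R σ.symm F _ ((hFD S).m F _ _ ((hFD S).one F y).1)⟩
  exact (hID S).iso_symm F _ _ ((hID S).iso_trans F _ _ _ h3 h2)

end Pool.Agent.P.MP_cf639b_al
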