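import Pool.Agent.P.MP_cf639b_al.Iface

set_option linter.dupNamespace false

namespace Pool.Agent.P.MP_cf639b_al

universe u v
open TensorProduct Polynomial Function

section

variable {k : Type u} [Field k] {R : Type u} [Ring R] [Algebra k R]

/-- a pp-formula is given by a finite system of linear equations -/
theorem dpp_pres [FiniteDimensional k R] {n : ℕ} (φ : PP (free k R n)) :
    ∃ (l m : ℕ) (C : Fin m → Fin n ⊕ Fin l → R), ∀ (T : Md k R) (t : free k R n →ₗ[R] T),
      t ∈ φ.ev T ↔ ∃ x : Fin n ⊕ Fin l → T, (∀ i, x (Sum.inl i) = t (Pi.single i 1)) ∧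
        ∀ j, ∑ s, C j s • x s = 0 := by
  classical
  have hZ : Module.Finite k φ.Z := φ.fd
  have hZ' : Module.Finite R φ.Z := Module.Finite.of_restrictScalars_finite k R φ.Z
  obtain ⟨l, z, hz⟩ := Module.Finite.exists_fin (R := R) (M := φ.Z)
  let z' : Fin n ⊕ Fin l → φ.Z := Sum.elim (fun i => φ.u (Pi.single i 1)) z
  let π : (Fin n ⊕ Fin l → R) →ₗ[R] φ.Z := Fintype.linearCombination R z'
  have hπ : Surjective π := by
    rw [← LinearMap.range_eq_top, Fintype.range_linearCombination, eq_top_iff, ← hz]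
    refine Submodule.span_mono ?_
    rintro _ ⟨i, rfl⟩
    exact ⟨Sum.inr i, rfl⟩
  have hK : Module.Finite k (LinearMap.ker π) :=
    Module.Finite.of_injective ((LinearMap.ker π).subtype.restrictScalars k)
      (LinearMap.ker π).subtype_injective
  have hK' : (LinearMap.ker π).FG :=
    Module.Finite.iff_fg.1 (Module.Finite.of_restrictScalars_finite k R _)
  obtain ⟨m, C, hC⟩ := Submodule.fg_iff_exists_fin_generating_family.1 hK'
  refine ⟨l, m, C, fun T t => ⟨?_, ?_⟩⟩
  · rintro ⟨g, rfl⟩
    refine ⟨fun s => g (z' s), fun i => rfl, fun j => ?_⟩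
    have h1 : π (C j) = 0 := by
      rw [← LinearMap.mem_ker, ← hC]; exact Submodule.subset_span ⟨j, rfl⟩
    have h2 := congrArg g h1
    rw [Fintype.linearCombination_apply, map_sum, map_zero] at h2
    simpa only [map_smul] using h2
  · rintro ⟨x, hx, hx0⟩
    let h : (Fin n ⊕ Fin l → R) →ₗ[R] T := Fintype.linearCombination R x
    have hle : LinearMap.ker π ≤ LinearMap.ker h := by
      rw [← hC, Submodule.span_le]
      rintro _ ⟨j, rfl⟩
      exact hx0 j
    let g : φ.Z →ₗ[R] T :=
      (LinearMap.ker π).liftQ h hle ∘ₗ (π.quotKerEquivOfSurjective hπ).symm.toLinearMap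
    have hg : ∀ a, g (π a) = h a := by
      intro a
      have : (π.quotKerEquivOfSurjective hπ).symm (π a) = Submodule.Quotient.mk a := by
        rw [LinearEquiv.symm_apply_eq]; rfl
      change (LinearMap.ker π).liftQ h hle ((π.quotKerEquivOfSurjective hπ).symm (π a)) = _
      rw [this, Submodule.liftQ_apply]
    refine ⟨g, LinearMap.pi_ext' fun i => LinearMap.ext_ring ?_⟩
    have h1 := hg (Pi.single (Sum.inl i) 1)
    rw [Fintype.linearCombination_apply_single, Fintype.linearCombination_apply_single, one_smul,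
      one_smul, hx] at h1
    exact h1.symm

/-- the pp-formula of the transposed system -/
theorem dpp_tr [FiniteDimensional k R] {n l m : ℕ} (C : Fin n ⊕ Fin l → Fin m → R) :
    ∃ φ : PP (free k R n), ∀ (T : Md k R) (t : free k R n →ₗ[R] T),
      t ∈ φ.ev T ↔ ∃ w : Fin m → T, (∀ i, t (Pi.single i 1) = ∑ j, C (Sum.inl i) j • w j) ∧
        ∀ i, ∑ j, C (Sum.inr i) j • w j = 0 := by
  classical
  let N : Submodule R (Fin m → R) := Submodule.span R (Set.range fun i => C (Sum.inr i))
  have hfd : Module.Finite k ((Fin m → R) ⧸ N) :=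
    Module.Finite.of_surjective (N.mkQ.restrictScalars k) N.mkQ_surjective
  refine ⟨⟨⟨(Fin m → R) ⧸ N⟩, hfd,
    N.mkQ ∘ₗ Fintype.linearCombination R fun i => C (Sum.inl i)⟩, fun T t => ⟨?_, ?_⟩⟩
  · rintro ⟨g, rfl⟩
    let h : (Fin m → R) →ₗ[R] T := g ∘ₗ N.mkQ
    have key : ∀ c : Fin m → R, h c = ∑ j, c j • h (Pi.single j 1) := by
      intro c
      conv_lhs => rw [← Finset.univ_sum_single c, map_sum]
      refine Finset.sum_congr rfl fun j _ => ?_
      rw [← map_smul, ← Pi.single_smul, smul_eq_mul, mul_one]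
    refine ⟨fun j => h (Pi.single j 1), fun i => ?_, fun i => ?_⟩
    · rw [← key]
      change h (Fintype.linearCombination R (fun i => C (Sum.inl i)) (Pi.single i 1)) = _
      rw [Fintype.linearCombination_apply_single, one_smul]
    · rw [← key]
      have : N.mkQ (C (Sum.inr i)) = 0 :=
        (Submodule.Quotient.mk_eq_zero N).2 (Submodule.subset_span ⟨i, rfl⟩)
      change g (N.mkQ (C (Sum.inr i))) = 0
      rw [this, map_zero]
  · rintro ⟨w, hw, hw0⟩
    let h : (Fin m → R) →ₗ[R] T := Fintype.linearCombination R w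
    have hle : N ≤ LinearMap.ker h := by
      rw [Submodule.span_le]
      rintro _ ⟨i, rfl⟩
      exact hw0 i
    refine ⟨N.liftQ h hle, LinearMap.pi_ext' fun i => LinearMap.ext_ring ?_⟩
    change t (Pi.single i 1) = N.liftQ h hle (N.mkQ
      (Fintype.linearCombination R (fun i => C (Sum.inl i)) (Pi.single i 1)))
    rw [Fintype.linearCombination_apply_single, one_smul, hw]
    rfl

variable {S : Type u} [Ring S] [Algebra k S] {F : Type u} [Field F] [Algebra k F]

theorem dpp_sum_apply {σ : Anti k R S} {A : FO k R F} {ι : Type} (s : Finset ι) (w : ι → DT σ A)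
    (t : A.X) : (∑ j ∈ s, w j) t = ∑ j ∈ s, w j t := by
  classical
  induction s using Finset.induction_on with
  | empty => simp
  | insert a s ha ih => rw [Finset.sum_insert ha, Finset.sum_insert ha, DT.add_apply, ih]

/-- the linear algebra over `F` -/
theorem dpp_dual (σ : Anti k R S) (A : FO k R F) {ι κ : Type} [Fintype ι] [Fintype κ]
    (C : κ → ι → R) (ξ : ι → DT σ A) :
    (∃ w : κ → DT σ A, ∀ s, ξ s = ∑ j, σ.e (C j s) • w j) ↔
      ∀ x : ι → A.X, (∀ j, ∑ s, C j s • x s = 0) → ∑ s, ξ s (x s) = 0 := by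
  classical
  have ev : ∀ (w : κ → DT σ A) (s : ι) (t : A.X),
      (∑ j, σ.e (C j s) • w j) t = ∑ j, w j (C j s • t) := by
    intro w s t
    rw [dpp_sum_apply]
    refine Finset.sum_congr rfl fun j _ => ?_
    rw [DT.smul_apply, LinearEquiv.symm_apply_apply]
  constructor
  · rintro ⟨w, hw⟩ x hx
    simp only [hw, ev]
    rw [Finset.sum_comm]
    refine Finset.sum_eq_zero fun j _ => ?_
    rw [← map_sum, hx j, map_zero]
  · intro h
    let L : (ι → A.X) →ₗ[F] (κ → A.X) := LinearMap.pi fun j =>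
      ∑ s, DistribSMul.toLinearMap F A.X (C j s) ∘ₗ LinearMap.proj s
    have hL : ∀ x j, L x j = ∑ s, C j s • x s := by
      intro x j
      simp [L]
    let Ξ : Module.Dual F (ι → A.X) := ∑ s, (ξ s).lin ∘ₗ LinearMap.proj s
    have hX : ∀ x, Ξ x = ∑ s, ξ s (x s) := by
      intro x
      simp [Ξ]
    have hmem : Ξ ∈ (LinearMap.ker L).dualAnnihilator := by
      rw [Submodule.mem_dualAnnihilator]
      intro x hx
      rw [hX]
      refine h x fun j => ?_
      rw [← hL, LinearMap.mem_ker.1 hx]; rfl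
    rw [← LinearMap.range_dualMap_eq_dualAnnihilator_ker] at hmem
    obtain ⟨ω, hω⟩ := hmem
    refine ⟨fun j => DT.of σ (ω ∘ₗ LinearMap.single F (fun _ => A.X) j), fun s =>
      DT.ext fun t => ?_⟩
    have h1 := LinearMap.congr_fun hω (Pi.single s t)
    rw [LinearMap.dualMap_apply, hX, Finset.sum_eq_single s
      (fun b _ hb => by rw [Pi.single_eq_of_ne hb, map_zero]) (by simp), Pi.single_eq_same] at h1
    rw [ev, ← h1, ← Finset.univ_sum_single (L (Pi.single s t)), map_sum]
    refine Finset.sum_congr rfl fun j _ => ?_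
    rw [hL, Finset.sum_eq_single s
      (fun b _ hb => by rw [Pi.single_eq_of_ne hb, smul_zero]) (by simp), Pi.single_eq_same]
    rfl

end

theorem t_DPP (k : Type u) [Field k] [IsAlgClosed k] (R : Type u) [Ring R] [Algebra k R]
    [FiniteDimensional k R] :
    S_DPP k R := by
  classical
  intro S _ _ _ σ n φ
  obtain ⟨l, m, C, hC⟩ := dpp_pres φ
  obtain ⟨φ', hφ'⟩ := dpp_tr (k := k) (fun s j => σ.e (C j s))
  refine ⟨φ', fun F _ _ A _ t' => ?_⟩
  let ξ : Fin n ⊕ Fin l → DT σ A := Sum.elim (fun i => t' (Pi.single i 1)) fun _ => 0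
  have hξ : ∀ x : Fin n ⊕ Fin l → A.X,
      ∑ s, ξ s (x s) = ∑ i, (t' (Pi.single i 1) : DT σ A) (x (Sum.inl i)) := by
    intro x
    rw [Fintype.sum_sum_type]
    simp [ξ]
  have h1 := dpp_dual σ A C ξ
  rw [hφ']
  constructor
  · rintro ⟨w, hw, hw0⟩ t ht
    obtain ⟨x, hx, hx0⟩ := (hC _ t).1 ht
    have := h1.1 ⟨w, fun s => by
      cases s with
      | inl i => exact hw i
      | inr i => exact (hw0 i).symm⟩ x hx0
    rw [hξ] at this
    simpa only [hx] using this
  · intro h
    obtain ⟨w, hw⟩ := h1.2 fun x hx => by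
      let t : (Fin n → R) →ₗ[R] A.X := Fintype.linearCombination R fun i => x (Sum.inl i)
      have ht : ∀ i, x (Sum.inl i) = t (Pi.single i 1) := fun i => by
        rw [Fintype.linearCombination_apply_single, one_smul]
      rw [hξ]
      simp only [ht]
      exact h t ((hC _ t).2 ⟨x, ht, hx⟩)
    exact ⟨w, fun i => hw (Sum.inl i), fun i => (hw (Sum.inr i)).symm⟩

end Pool.Agent.P.MP_cf639b_al
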