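import Pool.Agent.P.MP_cf639b_al.Iface

set_option linter.dupNamespace false

namespace Pool.Agent.P.MP_cf639b_al

universe u v
open TensorProduct Polynomial Function

section aux
variable {k : Type u} [Field k] {R : Type u} [Ring R] [Algebra k R]
  {S : Type u} [Ring S] [Algebra k S]

/-- `φ'` is the dual of the image of `φ` along `g` -/
def dual_Rel (σ : Anti k R S) {n : ℕ} {U : Md k R} (g : free k R n →ₗ[R] U) (φ : PP U)
    (φ' : PP (free k S n)) : Prop :=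
  ∀ (F : Type u) [Field F] [Algebra k F] (A : FO k R F), A.fd →
    ∀ t' : free k S n →ₗ[S] (DF σ A).X, t' ∈ φ'.ev (DF σ A).X ↔
      ∀ t ∈ φ.ev A.X, ∑ i, (t' (Pi.single i 1) : DT σ A) (t (g (Pi.single i 1))) = 0

theorem dual_ex [FiniteDimensional k S] (hPP : S_PP k R) (hD : S_DPP k R) (σ : Anti k R S)
    {n : ℕ} {U : Md k R} (g : free k R n →ₗ[R] U) (φ : PP U) :
    ∃ φ', dual_Rel σ g φ φ' := by
  obtain ⟨χ, hχ⟩ := hPP.push _ _ g φ
  obtain ⟨φ', h⟩ := hD S σ n χ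
  refine ⟨φ', fun F _ _ A hA t' => (h F A hA t').trans ⟨fun H t ht => ?_, fun H t ht => ?_⟩⟩
  · exact H (t ∘ₗ g) ((hχ _ _).2 ⟨t, ht, rfl⟩)
  · obtain ⟨s, hs, rfl⟩ := (hχ _ _).1 ht
    exact H s hs

theorem dual_surj (U : Md k R) (hU : U.fd) :
    ∃ (n : ℕ) (g : free k R n →ₗ[R] U), Surjective g := by
  haveI : Module.Finite k U := hU
  haveI : Module.Finite R U := Module.Finite.of_restrictScalars_finite k R U
  exact Module.Finite.exists_fin' R U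

theorem dual_free_fd [FiniteDimensional k S] (n : ℕ) : (free k S n).fd :=
  (inferInstance : Module.Finite k (Fin n → S))

theorem dual_anti {σ : Anti k R S} {n : ℕ} {U : Md k R} {g : free k R n →ₗ[R] U} {φ ψ : PP U}
    {φ' ψ' : PP (free k S n)} (hφ : dual_Rel σ g φ φ') (hψ : dual_Rel σ g ψ ψ')
    {F : Type u} [Field F] [Algebra k F] (A : FO k R F) (hA : A.fd)
    (h : φ.ev A.X ≤ ψ.ev A.X) : ψ'.ev (DF σ A).X ≤ φ'.ev (DF σ A).X := fun t' ht' =>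
  (hφ F A hA t').2 fun t ht => (hψ F A hA t').1 ht' t (h ht)

theorem dual_refl {σ : Anti k R S} {n : ℕ} {U : Md k R} {g : free k R n →ₗ[R] U}
    (hg : Surjective g) {φ ψ : PP U}
    {φ' ψ' : PP (free k S n)} (hφ : dual_Rel σ g φ φ') (hψ : dual_Rel σ g ψ ψ')
    {F : Type u} [Field F] [Algebra k F] (A : FO k R F) (hA : A.fd)
    (h : ψ'.ev (DF σ A).X ≤ φ'.ev (DF σ A).X) : φ.ev A.X ≤ ψ.ev A.X := by
  classical
  intro t ht
  by_contra hn
  let Φ : (U →ₗ[R] A.X) →ₗ[F] (Fin n → A.X) :=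
    { toFun := fun s i => s (g (Pi.single i 1))
      map_add' := fun _ _ => rfl
      map_smul' := fun _ _ => rfl }
  have hΦ : Injective Φ := by
    intro s s' e
    have e1 : s ∘ₗ g = s' ∘ₗ g := LinearMap.pi_ext' fun i => LinearMap.ext_ring (congrFun e i)
    refine LinearMap.ext fun x => ?_
    obtain ⟨y, rfl⟩ := hg x
    exact LinearMap.congr_fun e1 y
  have hW : Φ t ∉ (ψ.evF A).map Φ := by
    rintro ⟨s, hs, e⟩
    exact hn (hΦ e ▸ hs)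
  obtain ⟨l, hl, hl'⟩ := Submodule.exists_dual_map_eq_bot_of_notMem hW inferInstance
  let t' : (Fin n → S) →ₗ[S] DT σ A :=
    (Pi.basisFun S (Fin n)).constr ℕ
      fun i => DT.of σ (l ∘ₗ LinearMap.single F (fun _ : Fin n => A.X) i)
  have e : ∀ s : U →ₗ[R] A.X,
      ∑ i, (t' (Pi.single i 1) : DT σ A) (s (g (Pi.single i 1))) = l (Φ s) := by
    intro s
    conv_rhs => rw [← Finset.univ_sum_single (Φ s), map_sum]
    refine Finset.sum_congr rfl fun i _ => ?_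
    have e1 : t' (Pi.single i 1) =
        DT.of σ (l ∘ₗ LinearMap.single F (fun _ : Fin n => A.X) i) := by
      rw [← Pi.basisFun_apply]
      exact Module.Basis.constr_basis _ _ _ _
    rw [e1]
    rfl
  have h1 : t' ∈ ψ'.ev (DF σ A).X := (hψ F A hA t').2 fun s hs => by
    have h2 : l (Φ s) ∈ ((ψ.evF A).map Φ).map l :=
      Submodule.mem_map_of_mem (Submodule.mem_map_of_mem hs)
    rw [hl'] at h2
    exact (e s).trans h2
  exact hl ((e t).symm.trans ((hφ F A hA t').1 (h h1) t ht))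

theorem dual_le [FiniteDimensional k R] [FiniteDimensional k S] (hFD : S_FD k S) (hDD : S_DD k S)
    {σ : Anti k R S} {n : ℕ} {U : Md k R} {g : free k R n →ₗ[R] U} {φ ψ : PP U}
    {φ' ψ' : PP (free k S n)} (hφ : dual_Rel σ g φ φ') (hψ : dual_Rel σ g ψ ψ')
    (h : φ.le ψ) : ψ'.le φ' := by
  rw [PP.le_iff]
  have hB : (FO.ofMd ψ'.Z).fd := (hFD.ofk _).2 ψ'.fd
  have hA : (DF σ.symm (FO.ofMd ψ'.Z)).fd := (hDD.fd R σ.symm k _ hB).1
  let d : ψ'.Z →ₗ[S] (DF σ (DF σ.symm (FO.ofMd ψ'.Z))).X := Dev σ.symm (FO.ofMd ψ'.Z)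
  have hd : Bijective d := hDD.ev_bij R σ.symm k _ hB
  let e := LinearEquiv.ofBijective d hd
  have h1 : d ∘ₗ ψ'.u ∈ φ'.ev (DF σ (DF σ.symm (FO.ofMd ψ'.Z))).X :=
    dual_anti hφ hψ _ hA (h _) ⟨d, rfl⟩
  have h2 := PP.comp_mem (T' := ψ'.Z) e.symm.toLinearMap h1
  have h3 : e.symm.toLinearMap ∘ₗ d ∘ₗ ψ'.u = ψ'.u :=
    LinearMap.ext fun x => e.symm_apply_apply _
  rwa [h3] at h2

end aux

theorem t_DUAL (k : Type u) [Field k] [IsAlgClosed k] (R : Type u) [Ring R] [Algebra k R]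
    [FiniteDimensional k R]
    (hPP : ∀ (S : Type u) [Ring S] [Algebra k S] [FiniteDimensional k S], S_PP k S)
    (hDPP : ∀ (S : Type u) [Ring S] [Algebra k S] [FiniteDimensional k S], S_DPP k S)
    (hFD : ∀ (S : Type u) [Ring S] [Algebra k S] [FiniteDimensional k S], S_FD k S) :
    S_DUAL k R := by
  intro S _ _ _ σ π
  obtain ⟨n, g, hg⟩ := dual_surj π.U π.fd
  obtain ⟨φ', hφ⟩ := dual_ex (hPP R) (hDPP R) σ g π.φ
  obtain ⟨ψ', hψ⟩ := dual_ex (hPP R) (hDPP R) σ g π.ψ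
  exact ⟨⟨free k S n, dual_free_fd n, ψ', φ'⟩, fun F _ _ A hA =>
    not_congr ⟨dual_anti hφ hψ A hA, dual_refl hg hφ hψ A hA⟩⟩

theorem t_NDOP (k : Type u) [Field k] [IsAlgClosed k] (R : Type u) [Ring R] [Algebra k R]
    [FiniteDimensional k R]
    (hPP : ∀ (S : Type u) [Ring S] [Algebra k S] [FiniteDimensional k S], S_PP k S)
    (hDPP : ∀ (S : Type u) [Ring S] [Algebra k S] [FiniteDimensional k S], S_DPP k S)
    (hFD : ∀ (S : Type u) [Ring S] [Algebra k S] [FiniteDimensional k S], S_FD k S)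
    (hDD : ∀ (S : Type u) [Ring S] [Algebra k S] [FiniteDimensional k S], S_DD k S) :
    S_NDOP k R := by
  intro S _ _ _ σ hS
  rintro ⟨D, ⟨π0, hπ0⟩, hD⟩
  refine hS ⟨{π' | ∃ π ∈ D, ∃ (n : ℕ) (g : free k R n →ₗ[R] π.U) (φ' ψ' : PP (free k S n)),
    Surjective g ∧ dual_Rel σ g π.φ φ' ∧ dual_Rel σ g π.ψ ψ' ∧
      π' = ⟨free k S n, dual_free_fd n, ψ', φ'⟩}, ?_, ?_⟩
  · obtain ⟨n, g, hg⟩ := dual_surj π0.U π0.fd
    obtain ⟨φ', hφ⟩ := dual_ex (hPP R) (hDPP R) σ g π0.φ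
    obtain ⟨ψ', hψ⟩ := dual_ex (hPP R) (hDPP R) σ g π0.ψ
    exact ⟨_, π0, hπ0, n, g, φ', ψ', hg, hφ, hψ, rfl⟩
  · rintro _ ⟨π, hπ, n, g, φ', ψ', hg, hφ, hψ, rfl⟩
    obtain ⟨hne, χ, h1, h2, h3, h4⟩ := hD π hπ
    obtain ⟨χ', hχ⟩ := dual_ex (hPP R) (hDPP R) σ g χ
    refine ⟨fun hle => hne ?_, χ', dual_le (hFD S) (hDD S) hχ hφ h2,
      dual_le (hFD S) (hDD S) hψ hχ h1, ⟨_, h4, n, g, χ', ψ', hg, hχ, hψ, rfl⟩,
      ⟨_, h3, n, g, φ', χ', hg, hφ, hχ, rfl⟩⟩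
    rw [PP.le_iff]
    exact dual_refl hg hφ hψ (FO.ofMd π.φ.Z) (((hFD R).ofk _).2 π.φ.fd) (hle _)
      ⟨LinearMap.id, rfl⟩

end Pool.Agent.P.MP_cf639b_al
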