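import Pool.Agent.P.MP_cf639b_al.Iface

set_option linter.dupNamespace false

namespace Pool.Agent.P.MP_cf639b_al

universe u v
open TensorProduct Polynomial Function

section aux

theorem fd_tr {F M N : Type u} [Field F] [AddCommGroup M] [AddCommGroup N] (i : Module F M)
    (j : Module F N) (σ : F → F) (hσ : Bijective σ) (e : M ≃+ N)
    (h : ∀ (a : F) (t : M), e (a • t) = σ a • e t) :
    (Module.Finite F M ↔ Module.Finite F N) ∧ Module.finrank F M = Module.finrank F N := by
  have := rank_eq_of_equiv_equiv σ e hσ h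
  exact ⟨by rw [← Module.rank_lt_aleph0_iff, ← Module.rank_lt_aleph0_iff, this],
    congrArg Cardinal.toNat this⟩

variable {k : Type u} [Field k] {R : Type u} [Ring R] [Algebra k R]
  {F : Type u} [Field F] [Algebra k F]

theorem fd_surj (A : FO k R F) {W : Type u} [AddCommGroup W] (i : Module F W)
    (hW : Module.Finite F W) (φ : W →+ A.X) (h : ∀ (a : F) w, φ (a • w) = A.act a (φ w))
    (hs : Surjective φ) : A.fd :=
  Module.Finite.of_surjective ({ φ with map_smul' := h } : W →ₗ[F] A.X) hs

theorem fd_inj (A : FO k R F) {W : Type u} [AddCommGroup W] (i : Module F W)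
    (hW : Module.Finite F W) (φ : A.X →+ W) (h : ∀ (a : F) t, φ (A.act a t) = a • φ t)
    (hs : Injective φ) : A.fd :=
  Module.Finite.of_injective ({ φ with map_smul' := h } : A.X →ₗ[F] W) hs

variable [FiniteDimensional k R]

theorem fd_P (A : FO k R F) {V : Type u} [AddCommGroup V] [Module k V] (i : Module F V)
    (hV : Module.Finite F V) (s : F → V →ₗ[k] V) (hs : ∀ a v, s a v = a • v)
    (π : R ⊗[k] V →+ A.X) (hπ : Surjective π)
    (h : ∀ a z, π (Pmap (s a) z) = A.act a (π z)) : A.fd := by
  refine fd_surj A (W := Fin (Module.finrank k R) → V) inferInstance inferInstance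
    (π.comp (∑ j, (TensorProduct.mk k R V (bR k R j)).toAddMonoidHom.comp
      (Pi.evalAddMonoidHom _ j))) (fun a w => ?_) fun t => ?_
  · rw [AddMonoidHom.comp_apply, AddMonoidHom.comp_apply, ← h]
    simp [hs]
  · obtain ⟨z, rfl⟩ := hπ t
    refine ⟨fun j => cf V j z, ?_⟩
    rw [AddMonoidHom.comp_apply]
    exact congrArg π (by simpa using sum_cf z)

theorem fd_I (A : FO k R F) {V : Type u} [AddCommGroup V] [Module k V] (i : Module F V)
    (hV : Module.Finite F V) (ι : A.X →+ CoInd k R V) (hι : Injective ι)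
    (h : ∀ (a : F) t r, ι (A.act a t) r = a • ι t r) : A.fd := by
  refine fd_inj A (W := Fin (Module.finrank k R) → V) inferInstance inferInstance
    { toFun := fun t j => ι t (bR k R j)
      map_zero' := by ext j; simp
      map_add' := fun t t' => by ext j; simp } (fun a t => funext fun j => h a t _)
    fun t t' e => hι ((bR k R).ext fun j => congrFun e j)

theorem fd_pa (A : FO k R F) (h : A.fd) : (PA.onF A).fd :=
  fd_P _ (FO.module A) h (fun a => (A.act a).restrictScalars k) (fun _ _ => rfl)
    (AddMonoidHom.id _) surjective_id fun _ _ => rfl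

theorem fd_ia (A : FO k R F) (h : A.fd) : (IA.onF A).fd :=
  fd_I _ (FO.module A) h (AddMonoidHom.id _) injective_id fun _ _ _ => rfl

theorem fd_tp (A : FO k R F) (h : A.fd) : (Tp.onF A).fd :=
  fd_I _ (V := R ⊗[k] A.X) (FO.module (PA.onF A)) (fd_pa A h)
    (LinearMap.ker (nu (presD k R A.X))).subtype.toAddMonoidHom Subtype.val_injective
    fun a t r => by
      change nu (Pmap ((Pmap ((A.act a).restrictScalars k)).restrictScalars k)) t.1 r = _
      rw [nu_Pmap]
      rfl

theorem fd_tm (A : FO k R F) (h : A.fd) : (Tm.onF A).fd :=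
  fd_P _ (V := CoInd k R A.X) (FO.module (IA.onF A)) (fd_ia A h)
    (fun a => (Imap ((A.act a).restrictScalars k)).restrictScalars k) (fun _ _ => rfl)
    (LinearMap.range (copD k R A.X)).mkQ.toAddMonoidHom (Submodule.mkQ_surjective _)
    fun _ _ => rfl

theorem fd_te (e : Bool) (A : FO k R F) (h : A.fd) : ((Te e).onF A).fd := by
  cases e
  exacts [fd_tm A h, fd_tp A h]

theorem fd_tn (e : Bool) (n : ℕ) (A : FO k R F) (h : A.fd) : ((Tn e n).onF A).fd := by
  induction n with
  | zero => exact h
  | succ n ih => exact fd_te e _ ih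

theorem fd_m (d : Fam R) (V : FXV k F) (h : V.fd) : (MF d V).fd :=
  fd_P _ (V := Fin d.n0 → V.V) inferInstance inferInstance
    (fun a => (V.act a).compLeft _) (fun _ _ => rfl)
    (LinearMap.range (Xd d V.V)).mkQ.toAddMonoidHom (Submodule.mkQ_surjective _)
    fun _ _ => rfl

theorem fd_y (d : Fam R) (V : FXV k F) (h : V.fd) : (YF d V).fd :=
  fd_I _ (V := Fin d.n1 → V.V) inferInstance inferInstance
    (LinearMap.ker (nu (Xd d V.V))).subtype.toAddMonoidHom Subtype.val_injective
    fun a t r => by
      change nu (Pmap ((V.act a).compLeft _)) t.1 r = _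
      rw [nu_Pmap]
      rfl

omit [FiniteDimensional k R] in
theorem fd_ofk (A : FO k R k) : (A.fd ↔ A.X.fd) ∧ A.dim = Module.finrank k A.X :=
  fd_tr (FO.module A) A.X.mk' id bijective_id (AddEquiv.refl _) fun a t => A.smul_k a t

theorem fd_one (y : F) : (one k y).fd ∧ (one k y).dim = 1 := by
  have := fd_tr (FXV.module (one k y)) (Semiring.toModule (R := F)) id bijective_id
    (AddEquiv.refl F) fun _ _ => rfl
  exact ⟨this.1.2 inferInstance, this.2.trans (Module.finrank_self F)⟩

theorem fd_jq (q : F[X]) (hq : q.Monic) : (Jq k q).fd ∧ (Jq k q).dim = q.natDegree := by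
  have := fd_tr (N := AdjoinRoot q) (FXV.module (Jq k q)) inferInstance id bijective_id
    (AddEquiv.refl _) fun a t => (Algebra.smul_def a t).symm
  exact ⟨this.1.2 (AdjoinRoot.powerBasis' hq).finite,
    this.2.trans (AdjoinRoot.powerBasis' hq).finrank⟩

omit [FiniteDimensional k R] in
theorem fd_ten (Q : Md k R) (V : FXV k F) (hQ : Q.fd) (hV : V.fd) :
    ((TenN Q).onF V).fd ∧ ((TenN Q).onF V).dim = Module.finrank k Q * V.dim := by
  have := fd_tr (N := Fin (Module.finrank k Q) →₀ V.V) (FO.module ((TenN Q).onF V)) inferInstance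
    id bijective_id (TensorProduct.equivFinsuppOfBasisLeft (Module.finBasis k Q)).toAddEquiv
    fun a t => by
      change TensorProduct.equivFinsuppOfBasisLeft (Module.finBasis k Q)
        (AlgebraTensorModule.lTensor R Q (V.act a) t) =
        a • TensorProduct.equivFinsuppOfBasisLeft (Module.finBasis k Q) t
      induction t using TensorProduct.induction_on with
      | zero => simp
      | tmul x v =>
        ext j
        simp [FXV.smul_def]
      | add x y hx hy => rw [map_add, map_add, map_add, hx, hy, smul_add]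
  exact ⟨this.1.2 inferInstance, this.2.trans
    ((Finsupp.linearEquivFunOnFinite F V.V _).finrank_eq.trans
      (by simp [Module.finrank_pi_fintype]))⟩

theorem fd_t0 : (T0F k R F).fd := by
  refine fd_inj _ (W := (Fin (Module.finrank k R) → F) × (Fin (Module.finrank k R) → F))
    inferInstance inferInstance
    { toFun := fun (t : (R ⊗[k] F) × CoInd k R F) =>
        (fun j => cf F j t.1, fun j => t.2 (bR k R j))
      map_zero' := Prod.ext (funext fun j => map_zero (cf F j)) rfl
      map_add' := fun t t' => Prod.ext (funext fun j => map_add (cf F j) t.1 t'.1) rfl }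
    (fun a t => Prod.ext (funext fun j => ?_) rfl)
    fun t t' e => Prod.ext ?_ ((bR k R).ext fun j => congrFun (congrArg Prod.snd e) j)
  · change cf F j (Pmap (LinearMap.mulLeft k a) t.1) = a * cf F j t.1
    generalize t.1 = z
    induction z using TensorProduct.induction_on with
    | zero => simp
    | tmul x v => simp
    | add x y hx hy => rw [map_add, map_add, map_add, hx, hy, mul_add]
  · rw [← sum_cf t.1, ← sum_cf t'.1]
    exact Finset.sum_congr rfl fun j _ => congrArg _ (congrFun (congrArg Prod.fst e) j)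

omit [FiniteDimensional k R] in
theorem fd_tw (A : FO k R F) (σ : F ≃ₐ[k] F) : (A.fd → (A.tw σ).fd) ∧ (A.tw σ).dim = A.dim := by
  have := fd_tr (N := A.X) (FO.module (A.tw σ)) (FO.module A) σ.symm σ.symm.bijective
    (AddEquiv.refl _) fun _ _ => rfl
  exact ⟨this.1.2, this.2⟩

omit [FiniteDimensional k R] in
theorem fd_hom (A B : FO k R F) (hA : A.fd) (hB : B.fd) : Module.Finite F (HomF A B) :=
  Module.Finite.of_injective
    ({ toFun := fun f => HomF.lin f.2
       map_add' := fun _ _ => rfl
       map_smul' := fun _ _ => rfl } : HomF A B →ₗ[F] (A.X →ₗ[F] B.X))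
    fun _ _ e => Subtype.ext (LinearMap.ext fun t => LinearMap.congr_fun e t)

omit [FiniteDimensional k R] in
theorem fd_homU (U : Md k R) (A : FO k R F) (hU : U.fd) (hA : A.fd) :
    Module.Finite F (U →ₗ[R] A.X) :=
  Module.Finite.of_injective
    ({ toFun := fun f j => f (Module.finBasis k U j)
       map_add' := fun _ _ => rfl
       map_smul' := fun _ _ => rfl } : (U →ₗ[R] A.X) →ₗ[F] (Fin (Module.finrank k U) → A.X))
    fun _ _ e => LinearMap.restrictScalars_injective k
      ((Module.finBasis k U).ext fun j => congrFun e j)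

theorem fd_tnk (e : Bool) (n : ℕ) (T : Md k R) (h : T.fd) : ((Tn e n).obj T).fd :=
  (fd_ofk _).1.1 (fd_tn e n (FO.ofMd T) ((fd_ofk _).1.2 h))

theorem fd_mk (d : Fam R) (V : XV k) (h : Module.Finite k V) : (M d V).fd ∧ (Y d V).fd := by
  let W : FXV k k := ⟨V, Algebra.ofId k _, fun a => LinearMap.ext fun v => by
    simp [Algebra.ofId_apply]⟩
  have hW : W.fd := (fd_tr (FXV.module W) V.mk' id bijective_id (AddEquiv.refl _)
    fun _ _ => rfl).1.2 h
  exact ⟨(fd_ofk _).1.1 (fd_m d W hW), (fd_ofk _).1.1 (fd_y d W hW)⟩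

end aux

theorem t_FD (k : Type u) [Field k] [IsAlgClosed k] (R : Type u) [Ring R] [Algebra k R]
    [FiniteDimensional k R] :
    S_FD k R := by
  exact
    { ofk := fun A => (fd_ofk A).1
      dimk := fun A => (fd_ofk A).2
      one := fun _ _ _ y => fd_one y
      jq := fun _ _ _ q hq => fd_jq q hq
      m := fun _ _ _ => fd_m
      y := fun _ _ _ => fd_y
      te := fun _ _ _ => fd_te
      tn := fun _ _ _ => fd_tn
      pa := fun _ _ _ => fd_pa
      ia := fun _ _ _ => fd_ia
      ten := fun _ _ _ => fd_ten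
      t0 := fun _ _ _ => fd_t0
      tw := fun _ _ _ => fd_tw
      hom := fun _ _ _ => fd_hom
      homU := fun _ _ _ => fd_homU
      tek := fun e T h => (fd_ofk _).1.1 (fd_te e (FO.ofMd T) ((fd_ofk _).1.2 h))
      tnk := fd_tnk
      tzk := fun j T h => by
        cases j
        exacts [fd_tnk _ _ T h, fd_tnk _ _ T h]
      mfd := fd_mk
      t0k := (fd_ofk _).1.1 fd_t0 }

end Pool.Agent.P.MP_cf639b_al
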