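import Pool.Agent.P.MP_cf639b_al.Iface

set_option linter.dupNamespace false

namespace Pool.Agent.P.MP_cf639b_al

universe u v
open TensorProduct Polynomial Function

section aux
variable {k : Type u} [Field k] {R : Type u} [Ring R] [Algebra k R]
variable {F : Type u} [Field F] [Algebra k F]

theorem id_pP_nat (T T' : Md k R) (g : T →ₗ[R] T') : g ∘ₗ pP T = pP T' ∘ₗ PA.map g :=
  show g ∘ₗ Pmul k R T = Pmul k R T' ∘ₗ Pmap (g.restrictScalars k) from P_ext fun v => by simp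

theorem id_iI_nat (T T' : Md k R) (g : T →ₗ[R] T') : iI T' ∘ₗ g = IA.map g ∘ₗ iI T :=
  LinearMap.ext fun t => CoInd.ext fun s => (g.map_smul s t).symm

theorem id_pP_mem (A : FO k R F) : pP A.X ∈ HomF (PA.onF A) A :=
  mem_HomF'.mpr fun a => (id_pP_nat _ _ (A.act a)).symm

theorem id_iI_mem (A : FO k R F) : iI A.X ∈ HomF A (IA.onF A) :=
  mem_HomF'.mpr fun a => id_iI_nat _ _ (A.act a)

theorem id_i0_l {A B C : FO k R F} {f : A.X →ₗ[R] B.X} (hf : f ∈ I0 A B) {g : B.X →ₗ[R] C.X}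
    (hg : g ∈ HomF B C) : g ∘ₗ f ∈ I0 A C := by
  obtain ⟨h, hh, rfl⟩ := hf
  exact ⟨g ∘ₗ h, HomF.comp hg hh, rfl⟩

theorem id_i0_r {A B C : FO k R F} {f : B.X →ₗ[R] C.X} (hf : f ∈ I0 B C) {g : A.X →ₗ[R] B.X}
    (hg : g ∈ HomF A B) : f ∘ₗ g ∈ I0 A C := by
  obtain ⟨h, hh, rfl⟩ := hf
  refine ⟨h ∘ₗ IA.map g, HomF.comp hh (IA.map_mem hg), ?_⟩
  rw [LinearMap.comp_assoc, id_iI_nat, LinearMap.comp_assoc]

theorem id_inv {A B : FO k R F} {f : A.X →ₗ[R] B.X} (hf : f ∈ HomF A B) (hb : Bijective f) :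
    ∃ g ∈ HomF B A, g ∘ₗ f = LinearMap.id ∧ f ∘ₗ g = LinearMap.id := by
  let e := LinearEquiv.ofBijective f hb
  have h1 : ∀ t, f (e.symm t) = t := e.apply_symm_apply
  refine ⟨e.symm.toLinearMap, fun a t => hb.1 ?_, LinearMap.ext e.symm_apply_apply,
    LinearMap.ext h1⟩
  rw [hf]
  exact (h1 _).trans (congrArg _ (h1 t).symm)

theorem id_bij {A B : Md k R} {f : A →ₗ[R] B} {g : B →ₗ[R] A} (h1 : g ∘ₗ f = LinearMap.id)
    (h2 : f ∘ₗ g = LinearMap.id) : Bijective f :=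
  bijective_iff_has_inverse.2 ⟨g, LinearMap.congr_fun h1, LinearMap.congr_fun h2⟩

theorem id_map_inv (Φ : AFun k R) {A B : Md k R} {f : A →ₗ[R] B} {g : B →ₗ[R] A}
    (h : g ∘ₗ f = LinearMap.id) : Φ.map g ∘ₗ Φ.map f = LinearMap.id := by
  rw [← Φ.map_comp, h, Φ.map_id]

theorem id_conj {A B A' B' : Md k R} (a : A →ₗ[R] B) (b : B →ₗ[R] A) (f : A →ₗ[R] A')
    (g : A' →ₗ[R] A) (f' : B →ₗ[R] B') (g' : B' →ₗ[R] B) (h : f ∘ₗ g = LinearMap.id)
    (h' : g' ∘ₗ f' = LinearMap.id) :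
    (f ∘ₗ b ∘ₗ g') ∘ₗ (f' ∘ₗ a ∘ₗ g) - LinearMap.id = (f ∘ₗ (b ∘ₗ a - LinearMap.id)) ∘ₗ g := by
  refine LinearMap.ext fun t => ?_
  have e1 : f (g t) = t := LinearMap.congr_fun h t
  have e2 : g' (f' (a (g t))) = a (g t) := LinearMap.congr_fun h' _
  simp only [LinearMap.sub_apply, LinearMap.comp_apply, LinearMap.id_apply, map_sub, e1, e2]

theorem id_presEps (T T' : Md k R) (g : T →ₗ[R] T') :
    g ∘ₗ presEps T = presEps T' ∘ₗ (presMap g).H0 :=
  Submodule.linearMap_qext _ (id_pP_nat T T' g)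

theorem id_can {X Y : EO k R} (c : CM X Y) (a1 : X.V1 →ₗ[k] Y.V1) (a0 : X.V0 →ₗ[k] Y.V0)
    (h1 : c.f1 = Pmap a1) (h0 : c.f0 = Pmap a0) :
    (can Y).f1 ∘ₗ c.f1 = (presMap (T := X.H0) (T' := Y.H0) c.H0).f1 ∘ₗ (can X).f1 := by
  refine P_ext fun v => ?_
  have e1 := LinearMap.congr_fun c.comm ((1 : R) ⊗ₜ v)
  have e2 : Pmap (R := R) ((Submodule.mkQ (LinearMap.range Y.d)).restrictScalars k ∘ₗ Pin Y.V0) ∘ₗ
      Pmap a0 = Pmap (c.H0.restrictScalars k) ∘ₗ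
        Pmap ((Submodule.mkQ (LinearMap.range X.d)).restrictScalars k ∘ₗ Pin X.V0) :=
    P_ext fun w => by simp [h0]
  have e3 := LinearMap.congr_fun e2 (X.d ((1 : R) ⊗ₜ v))
  rw [h1, h0] at e1
  simp only [LinearMap.comp_apply, Pmap_tmul] at e1 e3
  simp [h1, can, presMap, e1, e3]

variable [FiniteDimensional k R]

theorem id_copresEta (T T' : Md k R) (g : T →ₗ[R] T') :
    copresEta T' ∘ₗ g = (copresMap g).Tau ∘ₗ copresEta T :=
  LinearMap.ext fun t => Subtype.ext (by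
    change iI T' (g t) = nu (Pmap (g.restrictScalars k)) (iI T t)
    rw [nu_Pmap]
    exact LinearMap.congr_fun (id_iI_nat T T' g) t)

theorem id_cocan {X Y : EO k R} (c : CM X Y) (a1 : X.V1 →ₗ[k] Y.V1) (a0 : X.V0 →ₗ[k] Y.V0)
    (h1 : c.f1 = Pmap a1) (h0 : c.f0 = Pmap a0) :
    c.f0 ∘ₗ (cocan X).f0 = (cocan Y).f0 ∘ₗ (copresMap (T := X.Tau) (T' := Y.Tau) c.Tau).f0 := by
  refine P_ext fun h => ?_
  have e1 := congrArg nu c.comm
  rw [nu_comp, nu_comp, h1, h0, nu_Pmap, nu_Pmap] at e1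
  have e2 : Imap (R := R) (Iev Y.V1 ∘ₗ (Submodule.subtype _).restrictScalars k)
      (Imap (c.Tau.restrictScalars k) h) =
      Imap a1 (Imap (Iev X.V1 ∘ₗ (Submodule.subtype _).restrictScalars k) h) := by
    ext s
    simp [h1, nu_Pmap]
  have e3 := LinearMap.congr_fun e1
    (Imap (R := R) (Iev X.V1 ∘ₗ (Submodule.subtype _).restrictScalars k) h)
  simp only [LinearMap.comp_apply] at e3
  simp [h0, cocan, copresMap, e2, e3]

theorem id_eps_nat (T T' : Md k R) (g : T →ₗ[R] T') :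
    g ∘ₗ eps T = eps T' ∘ₗ Tm.map (Tp.map g) := by
  have e := id_cocan (presMap g) _ _ rfl rfl
  have e1 := CM.H0_comp ((presMap g).comp (cocan (pres T))) (presMap g) (cocan (pres T)) rfl
  have e2 := CM.H0_comp ((presMap g).comp (cocan (pres T))) (cocan (pres T'))
    (copresMap (T := (pres T).Tau) (T' := (pres T').Tau) (presMap g).Tau) e
  change (g ∘ₗ presEps T) ∘ₗ (cocan (pres T)).H0 = presEps T' ∘ₗ ((cocan (pres T')).H0 ∘ₗ
    (copresMap (T := (pres T).Tau) (T' := (pres T').Tau) (presMap g).Tau).H0)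
  rw [← e2, e1, id_presEps]
  rfl

theorem id_eta_nat (T T' : Md k R) (g : T →ₗ[R] T') :
    eta T' ∘ₗ g = Tp.map (Tm.map g) ∘ₗ eta T := by
  have e := id_can (copresMap g) _ _ rfl rfl
  have e1 := CM.Tau_comp ((can (copres T')).comp (copresMap g)) (can (copres T')) (copresMap g) rfl
  have e2 := CM.Tau_comp ((can (copres T')).comp (copresMap g))
    (presMap (T := (copres T).H0) (T' := (copres T').H0) (copresMap g).H0) (can (copres T)) e
  change (can (copres T')).Tau ∘ₗ (copresEta T' ∘ₗ g) =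
    ((presMap (T := (copres T).H0) (T' := (copres T').H0) (copresMap g).H0).Tau ∘ₗ
      (can (copres T)).Tau) ∘ₗ copresEta T
  rw [← e2, e1, id_copresEta]
  rfl

omit [FiniteDimensional k R] in
theorem id_one_J (y : F) :
    ∃ (g : XH (J k y 1).V (one k y).V) (g' : XH (one k y).V (J k y 1).V),
      XLin _ _ g ∧ XLin _ _ g' ∧ XH.comp g g' = XH.id _ ∧ XH.comp g' g = XH.id _ ∧
      g.1 (1 : JT y 1) = (1 : F) ∧ g'.1 (1 : F) = (1 : JT y 1) := by
  let φ : JT y 1 →ₐ[F] F := Ideal.Quotient.liftₐ _ (aeval y) fun a ha => by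
    obtain ⟨b, rfl⟩ := Ideal.mem_span_singleton.1 ha
    simp
  have hφ : ∀ p, φ (Jmk y 1 p) = aeval y p := fun _ => rfl
  have hx : Jmk y 1 X = algebraMap F (JT y 1) y := by
    change Jmk y 1 X = Jmk y 1 (C y)
    exact Ideal.Quotient.eq.2 (Ideal.mem_span_singleton.2 (by rw [pow_one]))
  have hs : ∀ z, algebraMap F (JT y 1) (φ z) = z := fun z => by
    obtain ⟨p, rfl⟩ := Ideal.Quotient.mk_surjective z
    change Jmk y 1 (C (aeval y p)) = Jmk y 1 p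
    refine (Ideal.Quotient.eq.2 (Ideal.mem_span_singleton.2 ?_)).symm
    rw [pow_one, coe_aeval_eq_eval]
    exact X_sub_C_dvd_sub_C_eval
  refine ⟨⟨φ.toLinearMap.restrictScalars k, LinearMap.ext fun z => ?_⟩,
    ⟨(Algebra.linearMap F (JT y 1)).restrictScalars k, LinearMap.ext fun z => ?_⟩,
    fun a z => ?_, fun a z => ?_, Subtype.ext (LinearMap.ext fun z => φ.commutes z),
    Subtype.ext (LinearMap.ext hs), map_one φ, map_one (algebraMap F (JT y 1))⟩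
  · change φ (Jmk y 1 X * z) = y * φ z
    rw [map_mul, hφ, aeval_X]
  · change algebraMap F (JT y 1) (y * z) = Jmk y 1 X * algebraMap F (JT y 1) z
    rw [map_mul, hx]
  · change φ (algebraMap F (JT y 1) a * z) = a * φ z
    rw [map_mul, φ.commutes]
    rfl
  · exact map_mul (algebraMap F (JT y 1)) a z

end aux

theorem id_main (k : Type u) [Field k] [IsAlgClosed k] (R : Type u) [Ring R] [Algebra k R]
    [FiniteDimensional k R] :
    S_ID k R where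
  p0_le := by
    rintro F _ _ A B _ ⟨g, hg, rfl⟩
    exact HomF.comp (id_pP_mem B) hg
  i0_le := by
    rintro F _ _ A B _ ⟨g, hg, rfl⟩
    exact HomF.comp hg (id_iI_mem A)
  p0_l := by
    rintro F _ _ A B C _ ⟨h, hh, rfl⟩ g hg
    refine ⟨PA.map g ∘ₗ h, HomF.comp (PA.map_mem hg) hh, ?_⟩
    rw [← LinearMap.comp_assoc, id_pP_nat, LinearMap.comp_assoc]
  p0_r := by
    rintro F _ _ A B C _ ⟨h, hh, rfl⟩ g hg
    exact ⟨h ∘ₗ g, HomF.comp hh hg, rfl⟩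
  i0_l _ _ _ _ _ _ _ hf _ hg := id_i0_l hf hg
  i0_r _ _ _ _ _ _ _ hf _ hg := id_i0_r hf hg
  pP_mem _ _ _ A := id_pP_mem A
  iI_mem _ _ _ A := id_iI_mem A
  pP_nat := id_pP_nat
  iI_nat := id_iI_nat
  eps_nat := id_eps_nat
  eta_nat := id_eta_nat
  eps_mem _ _ _ A := mem_HomF'.mpr fun a => (id_eps_nat _ _ (A.act a)).symm
  eta_mem _ _ _ A := mem_HomF'.mpr fun a => id_eta_nat _ _ (A.act a)
  iso_refl _ _ _ A := ⟨LinearMap.id, HomF.id A, bijective_id⟩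
  iso_symm := by
    rintro F _ _ A B ⟨f, hf, hb⟩
    obtain ⟨g, hg, h1, h2⟩ := id_inv hf hb
    exact ⟨g, hg, id_bij h2 h1⟩
  iso_trans := by
    rintro F _ _ A B C ⟨f, hf, hb⟩ ⟨g, hg, hb'⟩
    exact ⟨g ∘ₗ f, HomF.comp hg hf, hb'.comp hb⟩
  iso_inv _ _ _ _ _ _ hf hb := id_inv hf hb
  iso_fd := by
    rintro F _ _ A B ⟨f, hf, hb⟩
    let e := LinearEquiv.ofBijective (HomF.lin hf) hb
    exact ⟨fun _ => Module.Finite.equiv e, e.finrank_eq⟩
  smd_fd := by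
    rintro F _ _ A B ⟨i, hi, p, -, h⟩ hB
    have hinj : Injective (HomF.lin hi) := LeftInverse.injective (LinearMap.congr_fun h)
    exact ⟨Module.Finite.of_injective _ hinj, LinearMap.finrank_le_finrank_of_injective hinj⟩
  iso_map := by
    rintro F _ _ Φ A B ⟨f, hf, hb⟩
    obtain ⟨g, -, h1, h2⟩ := id_inv hf hb
    exact ⟨Φ.map f, Φ.map_mem hf, id_bij (id_map_inv Φ h1) (id_map_inv Φ h2)⟩
  theta_iso := by
    rintro F _ _ A B ⟨f, hf, hb⟩ ⟨a, ha, b, hb', u1, u2⟩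
    obtain ⟨g, hg, h1, h2⟩ := id_inv hf hb
    refine ⟨Tp.map f ∘ₗ a ∘ₗ g, HomF.comp (Tp.map_mem hf) (HomF.comp ha hg),
      f ∘ₗ b ∘ₗ Tp.map g, HomF.comp hf (HomF.comp hb' (Tp.map_mem hg)), ?_, ?_⟩
    · rw [id_conj a b f g _ _ h2 (id_map_inv Tp h1)]
      exact id_i0_r (id_i0_l u1 hf) hg
    · rw [id_conj b a _ _ f g (id_map_inv Tp h2) h1]
      exact id_i0_r (id_i0_l u2 (Tp.map_mem hf)) (Tp.map_mem hg)
  one_J _ _ _ y := id_one_J y
  iso_one_J := by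
    intro F _ _ G y
    obtain ⟨g, g', hg, -, h1, h2, -⟩ := id_one_J (k := k) y
    refine ⟨G.map g, G.map_mem g hg, id_bij (g := G.map g') ?_ ?_⟩
    · rw [← G.map_comp, h2, G.map_id]
    · rw [← G.map_comp, h1, G.map_id]

theorem t_ID (k : Type u) [Field k] [IsAlgClosed k] (R : Type u) [Ring R] [Algebra k R]
    [FiniteDimensional k R] :
    S_ID k R := by
  exact id_main k R

end Pool.Agent.P.MP_cf639b_al
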