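import Pool.Agent.P.MP_cf639b_al.Iface

set_option linter.dupNamespace false

namespace Pool.Agent.P.MP_cf639b_al

universe u v
open TensorProduct Polynomial Function

namespace Ks

variable {k : Type u} [Field k] {R : Type u} [Ring R] [Algebra k R]
variable {F : Type u} [Field F] [Algebra k F] {A B C Z : FO k R F}

theorem fst_mem : LinearMap.fst R A.X B.X ∈ HomF (A.prod B) A := fun _ _ => rfl
theorem snd_mem : LinearMap.snd R A.X B.X ∈ HomF (A.prod B) B := fun _ _ => rfl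
theorem prod_mem {f : C.X →ₗ[R] A.X} {g : C.X →ₗ[R] B.X} (hf : f ∈ HomF C A) (hg : g ∈ HomF C B) :
    f.prod g ∈ HomF C (A.prod B) := fun a t => Prod.ext (hf a t) (hg a t)
theorem inl_mem : LinearMap.inl R A.X B.X ∈ HomF A (A.prod B) :=
  prod_mem (HomF.id A) (zero_mem _)
theorem inr_mem : LinearMap.inr R A.X B.X ∈ HomF B (A.prod B) :=
  prod_mem (zero_mem _) (HomF.id B)

theorem pow_mem {u : A.X →ₗ[R] A.X} (hu : u ∈ HomF A A) (n : ℕ) :
    (u ^ n : Module.End R A.X) ∈ HomF A A := by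
  induction n with
  | zero => exact HomF.id A
  | succ n ih => exact HomF.comp ih hu

theorem indec (hA : A.fd) (h0 : Nontrivial A.X)
    (h : ∀ u ∈ HomF A A, u ∘ₗ u = u → u = 0 ∨ u = LinearMap.id) : Loc A := by
  refine ⟨h0, fun u hu => ?_⟩
  obtain ⟨n, hn, h1⟩ := ((LinearMap.eventually_isCompl_ker_pow_range_pow (HomF.lin hu)).and
    (Filter.eventually_ge_atTop 1)).exists
  have e : ∀ t, (HomF.lin hu ^ n : Module.End F A.X) t = (u ^ n : Module.End R A.X) t := fun t => by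
    rw [Module.End.pow_apply, Module.End.pow_apply]; rfl
  have hc : IsCompl (LinearMap.range (u ^ n : Module.End R A.X)) (LinearMap.ker (u ^ n)) := by
    refine ⟨Submodule.disjoint_def.2 fun t ⟨x, hx⟩ h2 => Submodule.disjoint_def.1 hn.1 t
      ((e t).trans h2) ⟨x, (e x).trans hx⟩, codisjoint_iff.2 (Submodule.eq_top_iff'.2 fun t => ?_)⟩
    obtain ⟨a, ha, _, ⟨x, rfl⟩, rfl⟩ := Submodule.mem_sup.1
      (Submodule.eq_top_iff'.1 (codisjoint_iff.1 hn.2) t)
    exact Submodule.mem_sup.2 ⟨_, ⟨x, (e x).symm⟩, a, (e a).symm.trans ha, add_comm _ _⟩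
  let p : A.X →ₗ[R] A.X := (Submodule.subtype _) ∘ₗ Submodule.projectionOnto _ _ hc
  have p1 : ∀ x, p ((u ^ n : Module.End R A.X) x) = (u ^ n : Module.End R A.X) x := fun x =>
    congrArg Subtype.val (Submodule.projectionOnto_apply_left hc ⟨_, x, rfl⟩)
  have p2 : ∀ t, (u ^ n : Module.End R A.X) t = 0 → p t = 0 := fun t ht =>
    congrArg Subtype.val (Submodule.projectionOnto_apply_of_mem_right hc ht)
  have p3 : ∀ t, ∃ x y, (u ^ n : Module.End R A.X) y = 0 ∧ t = (u ^ n : Module.End R A.X) x + y :=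
    fun t => by
      obtain ⟨_, ⟨x, rfl⟩, y, hy, rfl⟩ := Submodule.mem_sup.1
        (Submodule.eq_top_iff'.1 (codisjoint_iff.1 hc.2) t)
      exact ⟨x, y, hy, rfl⟩
  rcases h p (fun a t => by
      obtain ⟨x, y, hy, rfl⟩ := p3 t
      rw [smul_add, map_add, map_add, p1, p2 y hy, ← pow_mem hu n, p1,
        p2 _ (by rw [pow_mem hu n, hy, smul_zero]), add_zero, add_zero, pow_mem hu n])
    (LinearMap.ext fun t => by
      obtain ⟨x, y, hy, rfl⟩ := p3 t
      rw [LinearMap.comp_apply, map_add p _ y, p1, p2 y hy, add_zero, p1]) with h2 | h2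
  · exact Or.inl ⟨n, LinearMap.ext fun x => by rw [← p1, h2]; rfl⟩
  · have hi : Injective (HomF.lin hu) := (injective_iff_map_eq_zero _).2 fun t ht => by
      obtain ⟨m, rfl⟩ := Nat.exists_eq_add_of_le' h1
      have := p2 t (by rw [pow_succ, Module.End.mul_apply, show u t = 0 from ht, map_zero])
      rwa [h2] at this
    exact Or.inr ⟨hi, LinearMap.injective_iff_surjective.1 hi⟩

theorem split {e : A.X →ₗ[R] A.X} (he : e ∈ HomF A A) (h : e ∘ₗ e = e) :
    ∃ C : FO k R F, ∃ i ∈ HomF C A, ∃ p ∈ HomF A C, p ∘ₗ i = LinearMap.id ∧ i ∘ₗ p = e :=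
  ⟨A.sub (LinearMap.range e) (by rintro a _ ⟨x, rfl⟩; exact ⟨_, he a x⟩),
    Submodule.subtype _, fun _ _ => rfl, e.rangeRestrict, fun a t => Subtype.ext (he a t),
    LinearMap.ext (by rintro ⟨_, x, rfl⟩; exact Subtype.ext (LinearMap.congr_fun h x)), rfl⟩

theorem dim_lt (hA : A.fd) {i : C.X →ₗ[R] A.X} (hi : i ∈ HomF C A) (h1 : Injective i)
    (h2 : ¬ Surjective i) : C.fd ∧ C.dim < A.dim :=
  ⟨Module.Finite.of_injective (HomF.lin hi) h1, by
    have := Submodule.finrank_lt (s := LinearMap.range (HomF.lin hi))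
      fun h => h2 ((LinearMap.range_eq_top (f := HomF.lin hi)).1 h)
    rwa [LinearMap.finrank_range_of_inj (f := HomF.lin hi) h1] at this⟩

theorem glue {ι κ : Type} [Fintype ι] [Fintype κ] {S : ι → FO k R F} {T : κ → FO k R F}
    (hS : Decomp B S) (hT : Decomp C T) {i p j q} (hi : i ∈ HomF B A) (hp : p ∈ HomF A B)
    (hj : j ∈ HomF C A) (hq : q ∈ HomF A C) (h1 : ∀ t, p (i t) = t) (h2 : ∀ t, q (j t) = t)
    (h3 : ∀ t, p (j t) = 0) (h4 : ∀ t, q (i t) = 0) (h5 : ∀ t, i (p t) + j (q t) = t) :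
    Decomp A (Sum.elim S T) := by
  obtain ⟨a, b, a1, a2, a3, a4, a5⟩ := hS
  obtain ⟨c, d, c1, c2, c3, c4, c5⟩ := hT
  refine ⟨Sum.rec (fun v => i ∘ₗ a v) fun v => j ∘ₗ c v, Sum.rec (fun v => b v ∘ₗ p) fun v => d v ∘ₗ q,
    Sum.rec (fun v => HomF.comp hi (a1 v)) fun v => HomF.comp hj (c1 v),
    Sum.rec (fun v => HomF.comp (a2 v) hp) fun v => HomF.comp (c2 v) hq,
    Sum.rec (fun v => LinearMap.ext fun t => (congrArg (b v) (h1 _)).trans
      (LinearMap.congr_fun (a3 v) t)) fun v => LinearMap.ext fun t =>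
        (congrArg (d v) (h2 _)).trans (LinearMap.congr_fun (c3 v) t), ?_, ?_⟩
  · rintro (v | v) (w | w) h
    · exact LinearMap.ext fun t => (congrArg (b w) (h1 _)).trans
        (LinearMap.congr_fun (a4 v w fun e => h (congrArg _ e)) t)
    · exact LinearMap.ext fun t => (congrArg (d w) (h4 _)).trans (map_zero _)
    · exact LinearMap.ext fun t => (congrArg (b w) (h3 _)).trans (map_zero _)
    · exact LinearMap.ext fun t => (congrArg (d w) (h2 _)).trans
        (LinearMap.congr_fun (c4 v w fun e => h (congrArg _ e)) t)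
  · refine LinearMap.ext fun t => ?_
    have e1 := congrArg i (LinearMap.congr_fun a5 (p t))
    have e2 := congrArg j (LinearMap.congr_fun c5 (q t))
    rw [LinearMap.sum_apply, map_sum] at e1 e2
    rw [Fintype.sum_sum_type, LinearMap.add_apply, LinearMap.sum_apply, LinearMap.sum_apply]
    exact (congrArg₂ (· + ·) e1 e2).trans (h5 t)

theorem dec0 (n : ℕ) : ∀ A : FO k R F, A.fd → A.dim = n →
    ∃ (ι : Type) (_ : Fintype ι) (T : ι → FO k R F), (∀ i, Loc (T i)) ∧ Decomp A T := by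
  induction n using Nat.strong_induction_on with
  | _ n ih =>
  intro A hA hn
  rcases subsingleton_or_nontrivial A.X with h0 | h0
  · exact ⟨Empty, inferInstance, Empty.elim, (·.elim), (·.elim), (·.elim), (·.elim), (·.elim),
      (·.elim), (·.elim), Subsingleton.elim _ _⟩
  by_cases hL : Loc A
  · exact ⟨Unit, inferInstance, fun _ => A, fun _ => hL, fun _ => LinearMap.id, fun _ => LinearMap.id,
      fun _ => HomF.id A, fun _ => HomF.id A, fun _ => rfl, fun _ _ h => absurd rfl h, by simp⟩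
  have := mt (indec hA h0) hL
  push Not at this
  obtain ⟨e, he, h1, h2, h3⟩ := this
  have h1' : ∀ t, e (e t) = e t := LinearMap.congr_fun h1
  obtain ⟨B, i, hi, p, hp, e1, e2⟩ := split he h1
  obtain ⟨C, j, hj, q, hq, e3, e4⟩ := split (sub_mem (HomF.id A) he)
    (LinearMap.ext fun t => by simp [h1'])
  replace e1 : ∀ t, p (i t) = t := LinearMap.congr_fun e1
  replace e2 : ∀ t, i (p t) = e t := LinearMap.congr_fun e2
  replace e3 : ∀ t, q (j t) = t := LinearMap.congr_fun e3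
  replace e4 : ∀ t, j (q t) = t - e t := LinearMap.congr_fun e4
  have e5 : ∀ t, e (i t) = i t := fun t => by rw [← e2, e1]
  have e6 : ∀ t, e (j t) = 0 := fun t => sub_eq_self.1 (by rw [← e4, e3])
  obtain ⟨f1, d1⟩ := dim_lt hA hi (LeftInverse.injective e1) fun h =>
    h3 (LinearMap.ext fun t => by obtain ⟨t, rfl⟩ := h t; exact e5 t)
  obtain ⟨f2, d2⟩ := dim_lt hA hj (LeftInverse.injective e3) fun h =>
    h2 (LinearMap.ext fun t => by obtain ⟨t, rfl⟩ := h t; exact e6 t)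
  obtain ⟨ι, _, S, l1, hS⟩ := ih _ (hn ▸ d1) B f1 rfl
  obtain ⟨κ, _, T, l2, hT⟩ := ih _ (hn ▸ d2) C f2 rfl
  exact ⟨ι ⊕ κ, inferInstance, Sum.elim S T, Sum.rec l1 l2, glue hS hT hi hp hj hq e1 e3
    (fun t => LeftInverse.injective e1 (by rw [e2, e6, map_zero]))
    (fun t => LeftInverse.injective e3 (by rw [e4, e5, sub_self, map_zero]))
    fun t => by rw [e2, e4, add_sub_cancel]⟩

theorem dec (hA : A.fd) : ∃ (n : ℕ) (T : Fin n → FO k R F), (∀ i, Loc (T i)) ∧ Decomp A T := by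
  obtain ⟨ι, _, T, l, i, p, h1, h2, h3, h4, h5⟩ := dec0 _ A hA rfl
  let e := (Fintype.equivFin ι).symm
  exact ⟨_, fun v => T (e v), fun v => l _, fun v => i (e v), fun v => p (e v), fun v => h1 _,
    fun v => h2 _, fun v => h3 _, fun v w h => h4 _ _ (e.injective.ne h),
    (e.sum_comp fun v => i v ∘ₗ p v).trans h5⟩

theorem not_nil (h0 : Nontrivial A.X) {u : Module.End R A.X} (h1 : Injective u) :
    ¬ IsNilpotent u := fun ⟨n, hn⟩ => by
  have : Injective (u ^ n) := by rw [Module.End.coe_pow]; exact h1.iterate n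
  rw [hn] at this
  obtain ⟨x, y, h⟩ := h0
  exact h (this rfl)

theorem loc_tw (σ : F ≃ₐ[k] F) (h : Loc A) : Loc (A.tw σ) :=
  ⟨h.1, fun u hu => h.2 u fun a t => by
    obtain ⟨a, rfl⟩ := σ.symm.surjective a
    exact hu a t⟩

variable [FiniteDimensional k R] (hI : S_ID k R)
include hI

theorem two (hA : Loc A) {u v : A.X →ₗ[R] A.X} (hu : u ∈ HomF A A) (hv : v ∈ HomF A A)
    (h : Bijective (u + v)) : Bijective u ∨ Bijective v := by
  obtain ⟨w, hw, e1, e2⟩ := hI.iso_inv F A A _ (add_mem hu hv) h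
  have bw : Bijective w :=
    bijective_iff_has_inverse.2 ⟨⇑(u + v), LinearMap.congr_fun e2, LinearMap.congr_fun e1⟩
  refine (hA.2 _ (HomF.comp hw hu)).symm.imp (fun h1 => (bw.of_comp_iff' u).1 h1) fun h1 => ?_
  have h2 := (Module.End.isUnit_iff _).1 h1.isUnit_one_sub
  have e3 : (1 : Module.End R A.X) - w ∘ₗ u = w ∘ₗ v :=
    sub_eq_iff_eq_add'.2 (((LinearMap.comp_add _ _ _).symm.trans e1).symm)
  rw [e3] at h2
  exact (bw.of_comp_iff' v).1 h2

theorem sum (hA : Loc A) {ι : Type} (s : Finset ι) (u : ι → A.X →ₗ[R] A.X)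
    (hu : ∀ i ∈ s, u i ∈ HomF A A) (h : Bijective ⇑(∑ i ∈ s, u i)) : ∃ i ∈ s, Bijective (u i) := by
  classical
  induction s using Finset.induction_on with
  | empty => exact absurd (IsNilpotent.zero) (not_nil hA.1 h.1)
  | insert a s ha ih =>
    rw [Finset.sum_insert ha] at h
    have h2 := fun i hi => hu i (Finset.mem_insert_of_mem hi)
    rcases two hI hA (hu a (Finset.mem_insert_self a s)) (sum_mem h2) h with h1 | h1
    · exact ⟨a, Finset.mem_insert_self a s, h1⟩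
    · obtain ⟨i, hi, h3⟩ := ih h2 h1
      exact ⟨i, Finset.mem_insert_of_mem hi, h3⟩

theorem smd_of {a : A.X →ₗ[R] B.X} (ha : a ∈ HomF A B) {b : B.X →ₗ[R] A.X} (hb : b ∈ HomF B A)
    (h : Bijective (b ∘ₗ a)) : Smd A B := by
  obtain ⟨g, hg, e, -⟩ := hI.iso_inv F A A _ (HomF.comp hb ha) h
  exact ⟨a, ha, _, HomF.comp hg hb, e⟩

theorem split_bij (h0 : Nontrivial A.X) (hB : Loc B) {a : A.X →ₗ[R] B.X} (ha : a ∈ HomF A B)
    {b : B.X →ₗ[R] A.X} (hb : b ∈ HomF B A) (h : Bijective (b ∘ₗ a)) :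
    Bijective a ∧ Bijective b := by
  obtain ⟨g, hg, e, -⟩ := hI.iso_inv F A A _ (HomF.comp hb ha) h
  have h1 : Injective a := Injective.of_comp (f := b) h.1
  rcases hB.2 _ (HomF.comp ha (HomF.comp hg hb)) with ⟨n, hn⟩ | h2
  · have : ∀ (m : ℕ) t, ((a ∘ₗ g ∘ₗ b) ^ m : Module.End R B.X) (a t) = a t := fun m t => by
      rw [Module.End.pow_apply]
      exact iterate_fixed (congrArg a (LinearMap.congr_fun e t)) m
    obtain ⟨x, y, hxy⟩ := h0
    exact absurd (h1 (by rw [← this n x, ← this n y, hn]; rfl)) hxy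
  · exact ⟨⟨h1, Surjective.of_comp (g := g ∘ b) h2.2⟩,
      Injective.of_comp (f := a ∘ g) h2.1, Surjective.of_comp (g := a) h.2⟩

theorem loc_iso (h : IsoF A B) (hA : Loc A) : Loc B := by
  obtain ⟨f, hf, bf⟩ := h
  obtain ⟨g, hg, e1, e2⟩ := hI.iso_inv F A B f hf bf
  have bg : Bijective g :=
    bijective_iff_has_inverse.2 ⟨_, LinearMap.congr_fun e2, LinearMap.congr_fun e1⟩
  have := hA.1
  refine ⟨bf.1.nontrivial, fun u hu => (hA.2 _ (HomF.comp hg (HomF.comp hu hf))).imp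
    (fun ⟨n, hn⟩ => ⟨n, LinearMap.ext fun t => ?_⟩)
    fun h1 => (Bijective.of_comp_iff u bf).1 ((bg.of_comp_iff' _).1 h1)⟩
  obtain ⟨t, rfl⟩ := bf.2 t
  have h2 : Semiconj f (g ∘ₗ u ∘ₗ f) u := fun x => LinearMap.congr_fun e2 _
  have h3 := h2.iterate_right n t
  rw [← Module.End.pow_apply, ← Module.End.pow_apply, hn] at h3
  exact h3.symm.trans (map_zero f)

omit hI [FiniteDimensional k R] in
theorem compl (h : Smd A B) : ∃ C : FO k R F, IsoF B (A.prod C) := by
  obtain ⟨i, hi, p, hp, e1⟩ := h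
  replace e1 : ∀ t, p (i t) = t := LinearMap.congr_fun e1
  obtain ⟨C, j, hj, q, hq, e3, e4⟩ := split (sub_mem (HomF.id B) (HomF.comp hi hp))
    (LinearMap.ext fun t => by simp [e1])
  replace e3 : ∀ t, q (j t) = t := LinearMap.congr_fun e3
  replace e4 : ∀ t, j (q t) = t - i (p t) := LinearMap.congr_fun e4
  have e5 : ∀ t, p (j t) = 0 := fun t => LeftInverse.injective e1
    ((sub_eq_self.1 (by rw [← e4, e3])).trans (map_zero i).symm)
  have e6 : ∀ t, q (i t) = 0 := fun t => LeftInverse.injective e3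
    (by rw [e4, e1, sub_self, map_zero])
  refine ⟨C, _, prod_mem hp hq, bijective_iff_has_inverse.2 ⟨fun z => i z.1 + j z.2, fun t => ?_,
    fun z => Prod.ext ?_ ?_⟩⟩
  · exact (congrArg _ (e4 t)).trans (add_sub_cancel _ _)
  · exact (map_add p _ _).trans (by rw [e1, e5, add_zero])
  · exact (map_add q _ _).trans (by rw [e3, e6, zero_add])

theorem schur {f : (A.prod Z).X →ₗ[R] (B.prod Z).X} (hf : f ∈ HomF (A.prod Z) (B.prod Z))
    (bf : Bijective f) (h : Bijective (LinearMap.snd R B.X Z.X ∘ₗ f ∘ₗ LinearMap.inr R A.X Z.X)) :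
    IsoF A B := by
  obtain ⟨g, hg, e1, e2⟩ := hI.iso_inv F Z Z _ (HomF.comp snd_mem (HomF.comp hf inr_mem)) h
  have hs := prod_mem (HomF.id A)
    (neg_mem (HomF.comp hg (HomF.comp snd_mem (HomF.comp hf inl_mem))))
  have sp : ∀ a z, f (a, z) = f (a, 0) + f (0, z) := fun a z => by rw [← map_add]; simp
  have k0 : ∀ a, (f (a, -g (f (a, 0)).2)).2 = 0 := fun a => by
    rw [sp, Prod.snd_add, ← map_neg]
    exact (congrArg _ (LinearMap.congr_fun e2 _)).trans (add_neg_cancel _)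
  refine ⟨_, HomF.comp fst_mem (HomF.comp hf hs), (injective_iff_map_eq_zero _).2 fun a ha =>
    congrArg Prod.fst (bf.1 ((Prod.ext ha (k0 a)).trans (map_zero f).symm)), fun b => ?_⟩
  obtain ⟨⟨a, z⟩, hz⟩ := bf.2 (b, 0)
  have h1 : (f (0, z)).2 = -(f (a, 0)).2 :=
    eq_neg_of_add_eq_zero_right ((congrArg Prod.snd (sp a z)).symm.trans (congrArg Prod.snd hz))
  have h2 : z = -g (f (a, 0)).2 := by
    rw [← map_neg, ← h1]; exact (LinearMap.congr_fun e1 z).symm
  exact ⟨a, congrArg Prod.fst ((congrArg (fun z => f (a, z)) h2).symm.trans hz)⟩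

theorem cancel1 (hZ : Loc Z) (h : IsoF (A.prod Z) (B.prod Z)) : IsoF A B := by
  obtain ⟨f, hf, bf⟩ := h
  have m1 := HomF.comp snd_mem (HomF.comp hf inr_mem)
  by_cases h1 : Bijective (LinearMap.snd R B.X Z.X ∘ₗ f ∘ₗ LinearMap.inr R A.X Z.X)
  · exact schur hI hf bf h1
  obtain ⟨g, hg, e1, -⟩ := hI.iso_inv F _ _ f hf bf
  have m2 := HomF.comp snd_mem (HomF.comp hg inl_mem)
  have m3 := HomF.comp m2 (HomF.comp fst_mem (HomF.comp hf inr_mem))
  have h2 := (two hI hZ (HomF.comp (HomF.comp snd_mem (HomF.comp hg inr_mem)) m1) m3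
    (bijective_iff_has_inverse.2 ⟨id, fun z => ?_, fun z => ?_⟩)).resolve_left fun h3 =>
      h1 ((hZ.2 _ m1).resolve_left (not_nil hZ.1
        (Injective.of_comp (f := fun z => (g (0, z)).2) h3.1)))
  · have h3 := (two hI hZ (add_mem m1 m3) (neg_mem m1)
      (by rwa [add_neg_cancel_comm])).resolve_right fun h3 =>
        h1 (((Equiv.neg Z.X).bijective.of_comp_iff' _).1 h3)
    have h4 : Bijective fun z : B.X × Z.X => (z.1, z.2 + (g (z.1, 0)).2) :=
      bijective_iff_has_inverse.2 ⟨fun z => (z.1, z.2 - (g (z.1, 0)).2),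
        fun z => Prod.ext rfl (add_sub_cancel_right _ _), fun z => Prod.ext rfl (sub_add_cancel _ _)⟩
    exact schur hI (HomF.comp (prod_mem fst_mem (add_mem snd_mem (HomF.comp m2 fst_mem))) hf)
      (h4.comp bf) h3
  all_goals
    refine Eq.trans ?_ (congrArg Prod.snd (LinearMap.congr_fun e1 (0, z)))
    change (g (0, (f (0, z)).2)).2 + (g ((f (0, z)).1, 0)).2 = (g (f (0, z))).2
    rw [← Prod.snd_add, ← map_add, Prod.mk_add_mk, zero_add, add_zero]

theorem cancel (n : ℕ) : ∀ A B Z : FO k R F, Z.fd → Z.dim = n → IsoF (A.prod Z) (B.prod Z) →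
    IsoF A B := by
  induction n using Nat.strong_induction_on with
  | _ n ih =>
  intro A B Z hZ hn h
  obtain ⟨m, T, l, i, p, h1, h2, h3, -, h5⟩ := dec hZ
  cases m with
  | zero =>
    obtain ⟨f, hf, bf⟩ := h
    have : ∀ z : Z.X, z = 0 := fun z => (LinearMap.congr_fun h5 z).symm
    exact schur hI hf bf ⟨fun x y _ => (this x).trans (this y).symm,
      fun z => ⟨0, (this _).trans (this z).symm⟩⟩
  | succ m =>
    obtain ⟨C, f, hf, bf⟩ := compl ⟨i 0, h1 0, p 0, h2 0, h3 0⟩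
    obtain ⟨g, hg, e1, e2⟩ := hI.iso_inv F _ _ f hf bf
    have ig : Injective g := LeftInverse.injective (LinearMap.congr_fun e2)
    obtain ⟨f1, d1⟩ := dim_lt hZ (HomF.comp hg inr_mem) (ig.comp LinearMap.inr_injective) fun h => by
      obtain ⟨x, y, hxy⟩ := (l 0).1
      obtain ⟨c, hc⟩ := h (g (x - y, 0))
      exact hxy (sub_eq_zero.1 (congrArg Prod.fst (ig hc)).symm)
    have key : ∀ A : FO k R F, IsoF (A.prod Z) ((A.prod C).prod (T 0)) := fun A =>
      ⟨_, prod_mem (prod_mem fst_mem (HomF.comp snd_mem (HomF.comp hf snd_mem)))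
        (HomF.comp fst_mem (HomF.comp hf snd_mem)), bijective_iff_has_inverse.2
          ⟨fun z => (z.1.1, g (z.2, z.1.2)), fun z => Prod.ext rfl (LinearMap.congr_fun e1 z.2),
            fun z => congrArg (fun w : (T 0).X × C.X => ((z.1.1, w.2), w.1))
              (LinearMap.congr_fun e2 (z.2, z.1.2))⟩⟩
    exact ih _ (hn ▸ d1) A B C f1 rfl (cancel1 hI (l 0) (hI.iso_trans F _ _ _
      (hI.iso_symm F _ _ (key A)) (hI.iso_trans F _ _ _ h (key B))))

end Ks

theorem t_KS (k : Type u) [Field k] [IsAlgClosed k] (R : Type u) [Ring R] [Algebra k R]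
    [FiniteDimensional k R]
    (hID : ∀ (S : Type u) [Ring S] [Algebra k S] [FiniteDimensional k S], S_ID k S) :
    S_KS k R := by
  have hI := hID R
  refine ⟨fun F _ _ A => Ks.dec,
    fun F _ _ A hA ι s u hu h => Ks.sum hI hA s u hu (by rwa [LinearMap.coe_sum]),
    fun F _ _ A B a ha b hb => Ks.smd_of hI ha hb, ?_, ?_,
    fun F _ _ A B h0 hB a ha b hb => Ks.split_bij hI h0 hB ha hb, fun F _ _ A B => Ks.loc_iso hI,
    fun F _ _ A => Ks.loc_tw, fun F _ _ A B => Ks.compl, fun F _ _ A => Ks.indec⟩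
  · rintro F _ _ A B ι _ T hA ⟨i, p, h1, h2, -, -, h5⟩ ⟨a, ha, b, hb, e⟩
    have m1 := fun v => HomF.comp hb (h1 v)
    have m2 := fun v => HomF.comp (h2 v) ha
    obtain ⟨v, -, hv⟩ := Ks.sum hI hA Finset.univ _ (fun v _ => HomF.comp (m1 v) (m2 v)) (by
      have : ∑ v, (b ∘ₗ i v) ∘ₗ p v ∘ₗ a = LinearMap.id := LinearMap.ext fun t => by
        have := congrArg b (LinearMap.congr_fun h5 (a t))
        rw [LinearMap.sum_apply, map_sum] at this
        rw [LinearMap.sum_apply]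
        exact this.trans (LinearMap.congr_fun e t)
      rw [this]
      exact bijective_id)
    exact ⟨v, Ks.smd_of hI (m2 v) (m1 v) hv⟩
  · rintro F _ _ A B h0 hB ⟨a, ha, b, hb, e⟩
    exact ⟨a, ha, (Ks.split_bij hI h0 hB ha hb (by rw [e]; exact bijective_id)).1⟩

theorem t_CANCEL (k : Type u) [Field k] [IsAlgClosed k] (R : Type u) [Ring R] [Algebra k R]
    [FiniteDimensional k R]
    (hID : ∀ (S : Type u) [Ring S] [Algebra k S] [FiniteDimensional k S], S_ID k S)
    (hFD : ∀ (S : Type u) [Ring S] [Algebra k S] [FiniteDimensional k S], S_FD k S)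
    (hKS : ∀ (S : Type u) [Ring S] [Algebra k S] [FiniteDimensional k S], S_KS k S) :
    S_CANCEL k R :=
  fun _ _ _ A B Z _ _ hZ => Ks.cancel (hID R) _ A B Z hZ rfl

end Pool.Agent.P.MP_cf639b_al
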