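import Pool.Agent.P.MP_cf639b_al.Iface

set_option linter.dupNamespace false

namespace Pool.Agent.P.MP_cf639b_al

universe u v
open TensorProduct Polynomial Function

theorem t_NDND (k : Type u) [Field k] [IsAlgClosed k] (R : Type u) [Ring R] [Algebra k R]
    [FiniteDimensional k R]
    (hPP : ∀ (S : Type u) [Ring S] [Algebra k S] [FiniteDimensional k S], S_PP k S) :
    S_NDND k R := by
  rintro h0 ⟨S, ⟨π₀, hπ₀⟩, hS⟩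
  refine h0 ⟨{ρ | ρ.ψ.le ρ.φ ∧ ∃ π ∈ S, ∃ G : ρ.U →ₗ[R] π.U,
    (∀ T, ∀ t ∈ π.φ.ev T, t ∘ₗ G ∈ ρ.φ.ev T) ∧
    ∀ T, ∀ t ∈ π.φ.ev T, t ∘ₗ G ∈ ρ.ψ.ev T → t ∈ π.ψ.ev T},
    ⟨π₀, (hS π₀ hπ₀).2.1, π₀, hπ₀, LinearMap.id, fun _ _ ht => ht, fun _ _ _ ht => ht⟩, ?_⟩
  rintro ρ ⟨hle, π, hπ, G, g1, g2⟩
  obtain ⟨hn, -, U, hU, g, φ1, ψ1, φ2, ψ2, m1, m2, h21, a1, a2⟩ := hS π hπ
  have l1 : ψ1.le φ1 := (hS _ m1).2.1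
  have l2 : ψ2.le φ2 := (hS _ m2).2.1
  obtain ⟨ν, hν⟩ := (hPP R).push ρ.U U (g ∘ₗ G) φ2
  obtain ⟨μ, hμ⟩ := (hPP R).sup ρ.U ν ρ.ψ
  have b1 : ρ.ψ.le μ := fun T => (hμ T).symm ▸ le_sup_right
  have b2 : μ.le ρ.φ := fun T => by
    rw [hμ T]
    refine sup_le (fun t ht => ?_) (hle T)
    obtain ⟨t', ht', rfl⟩ := (hν T t).1 ht
    exact g1 T _ (a1 T t' (l1 T (h21 T ht')))
  refine ⟨fun h => hn fun T t ht => g2 T t ht (h T (g1 T t ht)), μ, b1, b2,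
    ⟨b2, _, m1, g ∘ₗ G, fun T t ht => g1 T _ (a1 T t ht), fun T t ht h => ?_⟩,
    ⟨b1, _, m2, g ∘ₗ G, fun T t ht => ?_, fun T t ht h => ?_⟩⟩
  · change t ∘ₗ (g ∘ₗ G) ∈ μ.ev T at h
    rw [hμ T] at h
    obtain ⟨x, hx, c, hc, e⟩ := Submodule.mem_sup.1 h
    obtain ⟨t', ht', rfl⟩ := (hν T x).1 hx
    have c1 : t - t' ∈ φ1.ev T := sub_mem ht (l1 T (h21 T ht'))
    have c2 : ((t - t') ∘ₗ g) ∘ₗ G = c := by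
      rw [LinearMap.comp_assoc, LinearMap.sub_comp, ← e, add_sub_cancel_left]
    have c3 := a2 T _ c1 (g2 T _ (a1 T _ c1) (c2 ▸ hc))
    have c4 := add_mem (h21 T (l2 T c3)) (h21 T ht')
    rwa [sub_add_cancel] at c4
  · change t ∘ₗ (g ∘ₗ G) ∈ μ.ev T
    rw [hμ T]
    exact Submodule.mem_sup_left ((hν T _).2 ⟨t, ht, rfl⟩)
  · have c1 : t ∈ φ1.ev T := l1 T (h21 T ht)
    exact a2 T t c1 (g2 T _ (a1 T t c1) h)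

end Pool.Agent.P.MP_cf639b_al
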