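import Pool.Agent.P.MP_cf639b_al.Iface

set_option linter.dupNamespace false

namespace Pool.Agent.P.MP_cf639b_al

universe u v
open TensorProduct Polynomial Function

section abstract
variable {F : Type u} [Field F] {E : Type u} [AddCommGroup E] [Module F E]

theorem noe_fin_of (x : Module.End F E) (s : Set E) (hs : s.Finite)
    (h : ∀ W : Submodule F E, s ⊆ W → (∀ u ∈ W, x u ∈ W) → W = ⊤) :
    Module.Finite F[X] (Module.AEval' x) := by
  refine ⟨Submodule.fg_def.2 ⟨Module.AEval'.of x '' s, hs.image _, eq_top_iff.2 fun m _ => ?_⟩⟩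
  set S := Submodule.span F[X] (Module.AEval'.of x '' s)
  have h1 := h ((S.restrictScalars F).comap (Module.AEval'.of x).toLinearMap)
    (fun u hu => (Submodule.subset_span ⟨u, hu, rfl⟩ : Module.AEval'.of x u ∈ S)) (fun u hu => by
      have h2 : (X : F[X]) • Module.AEval'.of x u ∈ S := S.smul_mem _ hu
      rw [Module.AEval'.X_smul_of] at h2
      exact h2)
  have h3 : (Module.AEval'.of x).symm m ∈
      (S.restrictScalars F).comap (Module.AEval'.of x).toLinearMap := h1 ▸ Submodule.mem_top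
  exact h3

theorem noe_acc (x : Module.End F E) (hx : Module.Finite F[X] (Module.AEval' x))
    (W : ℕ → Submodule F E) (hm : Monotone W) (hW : ∀ n, ∀ u ∈ W n, x u ∈ W n) :
    ∃ n0, ∀ n ≥ n0, W n = W n0 := by
  let W' : ℕ →o Submodule F[X] (Module.AEval' x) :=
    { toFun := fun n =>
        { carrier := {m | (Module.AEval'.of x).symm m ∈ W n}
          add_mem' := fun h h' => (W n).add_mem h h'
          zero_mem' := (W n).zero_mem
          smul_mem' := fun p m h => aeval_apply_smul_mem_of_le_comap (q := W n)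
            (m := (Module.AEval'.of x).symm m) h p x (hW n) }
      monotone' := fun _ _ h _ hu => hm h hu }
  obtain ⟨n0, h0⟩ := monotone_stabilizes_iff_noetherian.2 inferInstance W'
  refine ⟨n0, fun n hn => le_antisymm (fun u hu => ?_) (hm hn)⟩
  have h1 : Module.AEval'.of x u ∈ W' n := hu
  rw [← h0 n hn] at h1
  exact h1

theorem noe_kill (x : Module.End F E) (hx : Module.Finite F[X] (Module.AEval' x)) :
    ∃ f : F[X], f ≠ 0 ∧ ∀ (u : E) (g : F[X]), g ≠ 0 → aeval x g u = 0 → aeval x f u = 0 := by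
  obtain ⟨f, h1, h2⟩ := Submodule.annihilator_top_inter_nonZeroDivisors
    (Submodule.torsion_isTorsion (R := F[X]) (M := Module.AEval' x))
  refine ⟨f, nonZeroDivisors.ne_zero h2, fun u g hg hu => ?_⟩
  have h3 : Module.AEval'.of x u ∈ Submodule.torsion F[X] (Module.AEval' x) :=
    ⟨⟨g, mem_nonZeroDivisors_of_ne_zero hg⟩, hu⟩
  exact congrArg Subtype.val (Submodule.mem_annihilator.1 h1 ⟨_, h3⟩ Submodule.mem_top)

theorem noe_expo (x : Module.End F E) (hx : Module.Finite F[X] (Module.AEval' x)) (q : F[X]) :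
    ∃ e : ℕ, ∀ (u : E) (n : ℕ), aeval x (q ^ n) u = 0 → aeval x (q ^ e) u = 0 := by
  have hm : Monotone fun n => LinearMap.ker (aeval x (q ^ n)) := by
    refine monotone_nat_of_le_succ fun n u hu => ?_
    rw [LinearMap.mem_ker] at hu ⊢
    rw [pow_succ', map_mul, Module.End.mul_apply, hu, map_zero]
  obtain ⟨e, he⟩ := noe_acc x hx _ hm (fun n u hu => by
    rw [LinearMap.mem_ker] at hu ⊢
    have e1 : aeval x (q ^ n) * x = x * aeval x (q ^ n) := by
      have e2 : aeval x (q ^ n * X) = aeval x (X * q ^ n) := by rw [mul_comm]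
      rwa [map_mul, map_mul, aeval_X] at e2
    rw [← Module.End.mul_apply, e1, Module.End.mul_apply, hu, map_zero])
  refine ⟨e, fun u n hu => ?_⟩
  have h1 : u ∈ LinearMap.ker (aeval x (q ^ max n e)) := hm (le_max_left n e) hu
  have h2 := he _ (le_max_right n e)
  exact (h2.le h1 :)

/-- the polynomial attached to a functional -/
noncomputable def noe_B (p : Module.End F E) (l : E →ₗ[F] F) (P : F[X]) (N : ℕ) :
    E →ₗ[F] F[X] :=
  ∑ j ∈ Finset.range N, (l ∘ₗ (p ^ j)).smulRight (P ^ (N - 1 - j))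

theorem noe_B_apply (p : Module.End F E) (l : E →ₗ[F] F) (P : F[X]) (N : ℕ) (u : E) :
    noe_B p l P N u = ∑ j ∈ Finset.range N, l ((p ^ j) u) • P ^ (N - 1 - j) := by
  simp [noe_B, LinearMap.sum_apply]

theorem noe_B_step (p : Module.End F E) (l : E →ₗ[F] F) (P : F[X]) (N : ℕ) (u : E)
    (h : l ((p ^ N) u) = 0) :
    noe_B p l P N (p u) + l u • P ^ N = P * noe_B p l P N u := by
  have e1 := Finset.sum_range_succ (fun j => l ((p ^ j) u) • P ^ (N - j)) N
  have e2 := Finset.sum_range_succ' (fun j => l ((p ^ j) u) • P ^ (N - j)) N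
  rw [h, zero_smul, add_zero, e2] at e1
  rw [noe_B_apply, noe_B_apply, Finset.mul_sum]
  have e3 : ∑ j ∈ Finset.range N, P * l ((p ^ j) u) • P ^ (N - 1 - j) =
      ∑ j ∈ Finset.range N, l ((p ^ j) u) • P ^ (N - j) := by
    refine Finset.sum_congr rfl fun j hj => ?_
    have hj' := Finset.mem_range.1 hj
    rw [mul_smul_comm, ← pow_succ', show N - 1 - j + 1 = N - j by omega]
  rw [e3, ← e1]
  refine congrArg₂ _ (Finset.sum_congr rfl fun j _ => ?_) (by simp)
  rw [pow_succ, Module.End.mul_apply, show N - 1 - j = N - (j + 1) by omega]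

theorem noe_co (x : Module.End F E) (y : F) (N : ℕ) (p : Module.End F E)
    (hp : ∀ u, x u = p u + y • u)
    (hN : ∀ t, (∃ n : ℕ, (p ^ n) t = 0) → (p ^ N) t = 0) (t : E) (ht : ∃ n : ℕ, (p ^ n) t = 0) :
    ∃ B : E →ₗ[F] F[X], (∀ u, Jmk y N (B (x u)) = Jmk y N X * Jmk y N (B u)) ∧
      ∀ m : ℕ, Jmk y N ((X - C y) ^ m) * Jmk y N (B t) = 0 ↔ (p ^ m) t = 0 := by
  classical
  by_cases h0 : t = 0
  · exact ⟨0, fun u => by simp, fun m => by simp [h0]⟩
  have hm0 : Nat.find ht ≠ 0 := fun e => h0 (by simpa [e] using Nat.find_spec ht)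
  obtain ⟨r, hr⟩ := Nat.exists_eq_succ_of_ne_zero hm0
  have h1 : (p ^ (r + 1)) t = 0 := by
    have := Nat.find_spec ht
    rwa [hr] at this
  have h2 : (p ^ r) t ≠ 0 := Nat.find_min ht (by omega)
  have hrN : r < N := by
    have : Nat.find ht ≤ N := Nat.find_min' ht (hN t ht)
    omega
  have h3 : p ((p ^ r) t) = 0 := by rw [← Module.End.mul_apply, ← pow_succ', h1]
  have h4 : (p ^ r) t ∉ LinearMap.range (p ^ N) := by
    rintro ⟨u, hu⟩
    refine h2 (hu.symm.trans (hN u ⟨N + 1, ?_⟩))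
    rw [pow_succ', Module.End.mul_apply, hu, h3]
  obtain ⟨l, hl, hl'⟩ := Submodule.exists_dual_map_eq_bot_of_notMem h4 inferInstance
  have hl0 : ∀ u, l ((p ^ N) u) = 0 := fun u => by
    have : l ((p ^ N) u) ∈ (LinearMap.range (p ^ N)).map l :=
      Submodule.mem_map_of_mem ⟨u, rfl⟩
    rwa [hl'] at this
  have hz : Jmk y N ((X - C y) ^ N) = 0 :=
    Ideal.Quotient.eq_zero_iff_mem.2 (Ideal.mem_span_singleton_self _)
  set B := noe_B p l (X - C y) N with hB
  have hs : ∀ u, Jmk y N (B (p u)) = Jmk y N (X - C y) * Jmk y N (B u) := fun u => by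
    rw [← map_mul, ← noe_B_step p l _ N u (hl0 u), map_add, smul_eq_C_mul, map_mul, hz, mul_zero,
      add_zero]
  have hs' : ∀ (m : ℕ) u, Jmk y N (B ((p ^ m) u)) = Jmk y N ((X - C y) ^ m) * Jmk y N (B u) := by
    intro m u
    induction m with
    | zero => simp
    | succ m ih => rw [pow_succ', Module.End.mul_apply, hs, ih, pow_succ', map_mul, mul_assoc]
  refine ⟨B, fun u => ?_, fun m => ⟨fun h => ?_, fun h => ?_⟩⟩
  · rw [hp, map_add, map_add, hs, map_smul, smul_eq_C_mul, map_mul, ← add_mul, ← map_add,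
      sub_add_cancel]
  · by_contra hn
    have hmr : m ≤ r := by
      by_contra hc
      refine hn ?_
      rw [show m = (m - (r + 1)) + (r + 1) by omega, pow_add, Module.End.mul_apply, h1, map_zero]
    have h5 : Jmk y N (B ((p ^ r) t)) = 0 := by
      rw [hs', show r = (r - m) + m by omega, pow_add, map_mul, mul_assoc, h, mul_zero]
    have h6 : B ((p ^ r) t) = l ((p ^ r) t) • (X - C y) ^ (N - 1) := by
      rw [hB, noe_B_apply, Finset.sum_eq_single 0]
      · simp
      · intro j _ hj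
        obtain ⟨i, rfl⟩ := Nat.exists_eq_succ_of_ne_zero hj
        rw [pow_succ, Module.End.mul_apply, h3, map_zero, map_zero, zero_smul]
      · intro h
        exact absurd (Finset.mem_range.2 (by omega)) h
    rw [h6, Ideal.Quotient.eq_zero_iff_mem, Ideal.mem_span_singleton] at h5
    have h7 : l ((p ^ r) t) • (X - C y : F[X]) ^ (N - 1) ≠ 0 :=
      smul_ne_zero hl (pow_ne_zero _ (X_sub_C_ne_zero y))
    have h8 := natDegree_le_of_dvd h5 h7
    rw [natDegree_smul _ hl] at h8
    simp only [natDegree_pow, natDegree_X_sub_C, mul_one] at h8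
    omega
  · rw [← hs', h, map_zero, map_zero]

end abstract

section aux
variable {k : Type u} [Field k] {R : Type u} [Ring R] [Algebra k R]
  {F : Type u} [Field F] [Algebra k F]

/-- the shift on polynomial vectors -/
noncomputable def noe_sh (n : ℕ) (A : FO k R F) : Module.End F (Fin n → ℕ →₀ A.X) :=
  (Finsupp.lmapDomain A.X F Nat.succ).compLeft (Fin n)

theorem noe_sh_apply (n : ℕ) (A : FO k R F) (z : Fin n → ℕ →₀ A.X) :
    noe_sh n A z = fun b => shift R A.X (z b) := rfl

theorem noe_smul (n : ℕ) (A : FO k R F) (c : F) (z : Fin n → ℕ →₀ A.X) :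
    c • z = fun b => Finsupp.mapRange.linearMap (A.act c) (z b) :=
  funext fun _ => Finsupp.ext fun _ => rfl

theorem noe_gen (n : ℕ) (A : FO k R F) (hA : A.fd) : ∃ s : Set (Fin n → ℕ →₀ A.X), s.Finite ∧
    ∀ W : Submodule F (Fin n → ℕ →₀ A.X), s ⊆ W → (∀ u ∈ W, noe_sh n A u ∈ W) → W = ⊤ := by
  classical
  obtain ⟨s, hs⟩ := (Module.Finite.fg_top : (⊤ : Submodule F A.X).FG)
  refine ⟨(fun q : Fin n × A.X => Pi.single q.1 (Finsupp.single 0 q.2)) '' (Set.univ ×ˢ s),
    (Set.finite_univ.prod s.finite_toSet).image _, fun W h1 h2 => eq_top_iff.2 fun z _ => ?_⟩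
  have h3 : ∀ (b : Fin n) (t : A.X),
      (Pi.single b (Finsupp.single 0 t) : Fin n → ℕ →₀ A.X) ∈ W := by
    intro b t
    have h4 : Submodule.span F (s : Set A.X) ≤ W.comap
        (LinearMap.single F (fun _ : Fin n => ℕ →₀ A.X) b ∘ₗ Finsupp.lsingle 0) :=
      Submodule.span_le.2 fun t ht => h1 ⟨(b, t), ⟨trivial, ht⟩, rfl⟩
    exact h4 (hs ▸ Submodule.mem_top)
  have h5 : ∀ (b : Fin n) (l : ℕ) (t : A.X),
      (Pi.single b (Finsupp.single l t) : Fin n → ℕ →₀ A.X) ∈ W := by
    intro b l t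
    induction l with
    | zero => exact h3 b t
    | succ l ih =>
      have e : noe_sh n A (Pi.single b (Finsupp.single l t)) =
          Pi.single b (Finsupp.single (l + 1) t) := by
        rw [noe_sh_apply]
        funext b'
        by_cases hb : b' = b
        · subst hb; simp
        · simp [hb]
      exact e ▸ h2 _ ih
  rw [← Finset.univ_sum_single z]
  refine W.sum_mem fun b _ => ?_
  induction z b using Finsupp.induction_linear with
  | zero => simp
  | add f g hf hg => rw [Pi.single_add]; exact W.add_mem hf hg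
  | single l t => exact h5 b l t

/-- the class map as an `F`-linear map -/
noncomputable def noe_mk (d : Fam R) (A : FO k R F) : (Fin d.n1 → ℕ →₀ A.X) →ₗ[F] EE d A.X where
  toFun := Emk d A.X
  map_add' := map_add _
  map_smul' c z := by rw [noe_smul]; rfl

theorem noe_fin (d : Fam R) (A : FO k R F) (hA : A.fd) :
    Module.Finite F[X] (Module.AEval' (EXF d A)) := by
  obtain ⟨s, hs, h⟩ := noe_gen d.n1 A hA
  refine noe_fin_of _ (noe_mk d A '' s) (hs.image _) fun W h1 h2 => eq_top_iff.2 fun u _ => ?_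
  obtain ⟨z, rfl⟩ := Emk_surj d A.X u
  have h3 := h (W.comap (noe_mk d A)) (fun z hz => h1 ⟨z, hz, rfl⟩) fun z hz => h2 _ hz
  have h4 : z ∈ W.comap (noe_mk d A) := h3 ▸ Submodule.mem_top
  exact h4

theorem noe_Zle_mono (d : Fam R) (T : Md k R) {a b : ℕ} (h : a ≤ b) : Zle d a T ≤ Zle d b T :=
  fun _ hz => ⟨hz.1, fun c l hl => hz.2 c l (by omega)⟩

/-- the span of the shifts of the solutions of degree at most `a` -/
noncomputable abbrev noe_K (d : Fam R) (a : ℕ) (T : Md k R) : Submodule k (Fin d.n0 → ℕ →₀ T) :=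
  Submodule.span k {w | ∃ i : ℕ, ∃ z' ∈ Zle d a T, w = fun b => (shift R T ^ i) (z' b)}

theorem noe_K_mono (d : Fam R) (T : Md k R) {a b : ℕ} (h : a ≤ b) :
    noe_K d a T ≤ noe_K d b T :=
  Submodule.span_mono fun _ ⟨i, z, hz, e⟩ => ⟨i, z, noe_Zle_mono d T h hz, e⟩

theorem noe_K_map (d : Fam R) (a : ℕ) (T : Md k R) (g : (ℕ →₀ T) →ₗ[R] (ℕ →₀ T))
    (h : ∀ (i : ℕ), ∀ z ∈ Zle d a T, ∃ j : ℕ, ∃ z' ∈ Zle d a T,
      ∀ b, g ((shift R T ^ i) (z b)) = (shift R T ^ j) (z' b)) :
    ∀ z ∈ noe_K d a T, (fun b => g (z b)) ∈ noe_K d a T := by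
  have h1 : noe_K d a T ≤ (noe_K d a T).comap ((g.restrictScalars k).compLeft (Fin d.n0)) := by
    refine Submodule.span_le.2 ?_
    rintro _ ⟨i, z, hz, rfl⟩
    obtain ⟨j, z', hz', e⟩ := h i z hz
    exact Submodule.subset_span ⟨j, z', hz', funext e⟩
  exact fun z hz => h1 hz

theorem noe_short (d : Fam R) (A : FO k R F) (hA : A.fd) : ∃ a, Short d a A.X := by
  obtain ⟨s, hs, h⟩ := noe_gen d.n0 A hA
  have hc : ∀ (a : ℕ) (c : F), ∀ z ∈ noe_K d a A.X, c • z ∈ noe_K d a A.X := by
    intro a c z hz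
    rw [noe_smul]
    refine noe_K_map d a A.X (Finsupp.mapRange.linearMap (A.act c)) (fun i w hw => ?_) z hz
    refine ⟨i, fun b => Finsupp.mapRange.linearMap (A.act c) (w b), ⟨?_, fun b l hl => ?_⟩,
      fun b => ?_⟩
    · have e := Dop_nat (k := k) d (shift R A.X) (shift R A.X)
        (Finsupp.mapRange.linearMap (A.act c)) (mapRange_shift _) w
      have e0 : Dop k d (shift R A.X) w = 0 := hw.1
      rw [e0] at e
      exact e.trans (funext fun _ => map_zero _)
    · simp [hw.2 b l hl]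
    · have e : Commute (Finsupp.mapRange.linearMap (A.act c) : Module.End R (ℕ →₀ A.X))
          (shift R A.X) := mapRange_shift _
      exact LinearMap.congr_fun (e.pow_right i).eq (w b)
  let W : ℕ → Submodule F (Fin d.n0 → ℕ →₀ A.X) := fun a =>
    { carrier := noe_K d a A.X
      add_mem' := add_mem
      zero_mem' := zero_mem _
      smul_mem' := hc a }
  have hm : Monotone W := fun _ _ hab => noe_K_mono d A.X hab
  obtain ⟨a, ha⟩ := noe_acc _ (noe_fin_of _ s hs h) W hm fun a z hz =>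
    noe_K_map d a A.X (shift R A.X) (fun i w hw => ⟨i + 1, w, hw, fun b => by
      rw [pow_succ', Module.End.mul_apply]⟩) z hz
  refine ⟨a, fun z hz => ?_⟩
  let m := Finset.univ.sup fun b => (z b).support.sup id
  have h1 : z ∈ Zle d m A.X := ⟨hz, fun b l hl => by
    by_contra hne
    have h2 : l ≤ (z b).support.sup id :=
      Finset.le_sup (f := id) (Finsupp.mem_support_iff.2 hne)
    have h3 : (z b).support.sup id ≤ m :=
      Finset.le_sup (f := fun b => (z b).support.sup id) (Finset.mem_univ b)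
    omega⟩
  have h4 : z ∈ W (max m a) :=
    hm (le_max_left m a) (Submodule.subset_span ⟨0, z, h1, by simp⟩ : z ∈ noe_K d m A.X)
  rw [ha _ (le_max_right m a)] at h4
  exact h4

end aux

theorem t_NOE (k : Type u) [Field k] [IsAlgClosed k] (R : Type u) [Ring R] [Algebra k R]
    [FiniteDimensional k R]
    (hBOCK : ∀ (S : Type u) [Ring S] [Algebra k S] [FiniteDimensional k S], S_BOCK k S)
    (hFD : ∀ (S : Type u) [Ring S] [Algebra k S] [FiniteDimensional k S], S_FD k S) :
    S_NOE k R := by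
  have hex : ∀ (F : Type u) [Field F] [Algebra k F] (d : Fam R) (A : FO k R F), A.fd → ∀ y : F,
      ∃ e : ℕ, ∀ t, Trs (piE d A y) t → (piE d A y ^ e) t = 0 := by
    intro F _ _ d A hA y
    obtain ⟨e, he⟩ := noe_expo _ (noe_fin d A hA) (X - C y)
    refine ⟨e, fun t ⟨n, hn⟩ => ?_⟩
    rw [← (hBOCK R).piE_pol] at hn ⊢
    exact he t n hn
  refine ⟨fun F _ _ d A hA => noe_fin d A hA, hex, fun d T hT p => ?_,
    fun F _ _ d A hA => noe_short d A hA, fun d T hT => ?_,
    fun F _ _ d A hA W hm hW => noe_acc _ (noe_fin d A hA) W hm hW,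
    fun d T a b hab h z hz => noe_K_mono d T hab (h z hz), fun d p T a b hab h t ht => ?_⟩
  · have h := hex k d (FO.ofMd T) (((hFD R).ofk _).2 hT) (algebraMap k k p)
    rw [(hBOCK R).piE_k] at h
    exact h
  · obtain ⟨f, hf, h⟩ := noe_kill _ (noe_fin d (FO.ofMd T) (((hFD R).ofk _).2 hT))
    have e : ∀ (g : k[X]) (u : EE d T), polE d (FO.ofMd T) g u = aeval (EX d T) g u := by
      intro g u
      have h1 := (hBOCK R).polE_k k d g (FO.ofMd T) u
      rwa [Algebra.algebraMap_self, Polynomial.map_id] at h1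
    exact ⟨f, hf, fun u g hg hu => (e f u).symm.trans (h u g hg ((e g u).trans hu))⟩
  · rw [show b = (b - a) + a by omega, pow_add, Module.End.mul_apply, h t ht, map_zero]

theorem t_CO (k : Type u) [Field k] [IsAlgClosed k] (R : Type u) [Ring R] [Algebra k R]
    [FiniteDimensional k R]
    (hBOCK : ∀ (S : Type u) [Ring S] [Algebra k S] [FiniteDimensional k S], S_BOCK k S)
    (hNOE : ∀ (S : Type u) [Ring S] [Algebra k S] [FiniteDimensional k S], S_NOE k S) :
    S_CO k R := by
  intro F _ _ d A _ y N hN t ht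
  have e : ∀ (n : ℕ) (u : EE d A.X), (polE d A (X - C y) ^ n) u = (piE d A y ^ n) u := by
    intro n u
    rw [← (hBOCK R).piE_pol, polE, polE, map_pow]
  obtain ⟨B, h1, h2⟩ := noe_co (EXF d A) y N (polE d A (X - C y))
    (fun u => by simp [polE]) (fun u ⟨n, hn⟩ => (e N u).trans (hN u ⟨n, (e n u).symm.trans hn⟩))
    t (ht.imp fun n hn => (e n t).trans hn)
  have hk : ∀ (c : k) (u : EE d A.X), c • u = algebraMap k F c • u := by
    intro c u
    rw [EE.smul_def, AlgHom.commutes, Algebra.algebraMap_eq_smul_one, map_smul]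
    exact congrArg (fun w => c • w) (LinearMap.congr_fun (Emap_id d A.X) u).symm
  let β : EE d A.X →ₗ[k] JT y N :=
    { toFun := fun u => Jmk y N (B u)
      map_add' := fun u u' => by rw [map_add, map_add]
      map_smul' := fun c u => by
        rw [hk, map_smul, algebraMap_smul]
        rfl }
  obtain ⟨b, hb⟩ := (hBOCK R).hat_surj d (J k y N).V A.X β h1
  refine ⟨b, ((hBOCK R).hat_lin F d (J k y N) A b).2 fun c u => ?_, fun m => ?_⟩
  · rw [hb]
    change Jmk y N (B (c • u)) = Jmk y N (C c) * Jmk y N (B u)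
    rw [map_smul, smul_eq_C_mul, map_mul]
  · rw [hb, ← e]
    exact h2 m

end Pool.Agent.P.MP_cf639b_al
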