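import Pool.Agent.P.MP_cf639b_al.Iface

set_option linter.dupNamespace false

namespace Pool.Agent.P.MP_cf639b_al

universe u v
open TensorProduct Polynomial Function

section

variable {k : Type u} [Field k] {R : Type u} [Ring R] [Algebra k R]

/-- an element killed by all maps to `Q` vanishes -/
theorem notor_cc (d : Fam R) {Q T : Md k R} (h : CC Q T) (u : EE d T)
    (hu : ∀ a : T →ₗ[R] Q, Emap d a u = 0) : u = 0 := by
  classical
  obtain ⟨z, rfl⟩ := Emk_surj d T u
  obtain ⟨n, a, b, hab⟩ := h (Finset.univ.biUnion fun j => (z j).support.image (z j))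
  have h1 : Emap d (∑ i, b i ∘ₗ a i) (Emk d T z) = 0 := by
    rw [map_sum, LinearMap.sum_apply]
    refine Finset.sum_eq_zero fun i _ => ?_
    rw [Emap_comp, LinearMap.comp_apply, hu, map_zero]
  rw [← h1, Emap_mk]
  refine congrArg (Emk d T) (funext fun j => Finsupp.ext fun l => ?_)
  rw [Finsupp.mapRange.linearMap_apply, Finsupp.mapRange_apply]
  by_cases hl : l ∈ (z j).support
  · rw [LinearMap.sum_apply]
    exact (hab _ (Finset.mem_biUnion.2 ⟨j, Finset.mem_univ _,
      Finset.mem_image_of_mem _ hl⟩)).symm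
  · rw [Finsupp.notMem_support_iff.1 hl, map_zero]

/-- intertwining with polynomials -/
theorem notor_aeval {F : Type u} [Field F] [Algebra k F] {E : Type u} [AddCommGroup E]
    [Module k E] (x : Module.End k E) (φ : F →ₗ[k] E) (y : F) (h : ∀ c, φ (y * c) = x (φ c))
    (p : k[X]) (c : F) : φ (aeval y p * c) = aeval x p (φ c) := by
  induction p using Polynomial.induction_on generalizing c with
  | C a => rw [aeval_C, aeval_C, ← Algebra.smul_def, map_smul, Module.algebraMap_end_apply]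
  | add p q hp hq => rw [map_add, map_add, add_mul, map_add, hp, hq, LinearMap.add_apply]
  | monomial n a ih =>
    rw [pow_succ, ← mul_assoc, map_mul (aeval y), map_mul (aeval x), aeval_X, aeval_X, mul_assoc,
      ih, h, Module.End.mul_apply]

/-- a quotient of a field containing `g(y)⁻¹` inside a noetherian module vanishes -/
theorem notor_zero {F : Type u} [Field F] [Algebra k F] {E : Type u} [AddCommGroup E]
    [Module k E] (x : Module.End k E) (f : k[X])
    (hk : ∀ (u : E) (g : k[X]), g ≠ 0 → aeval x g u = 0 → aeval x f u = 0)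
    (hacc : ∀ W : ℕ → Submodule k E, Monotone W → (∀ n, ∀ u ∈ W n, x u ∈ W n) →
      ∃ n, W (n + 1) = W n)
    (φ : F →ₗ[k] E) (y : F) (hy : aeval y f ≠ 0) (h : ∀ c, φ (y * c) = x (φ c)) : φ 1 = 0 := by
  obtain ⟨r, hr⟩ : ∃ r : k, aeval y (X - C r) ≠ 0 := by
    by_cases h0 : y = 0
    · exact ⟨1, by simp [h0]⟩
    · exact ⟨0, by simpa using h0⟩
  set g : k[X] := (X - C r) * f with hg
  have hgy : aeval y g ≠ 0 := by rw [hg, map_mul]; exact mul_ne_zero hr hy
  set γ : F := (aeval y g)⁻¹ with hγ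
  have hgγ : aeval y g * γ = 1 := mul_inv_cancel₀ hgy
  let ψ : ℕ → k[X] →ₗ[k] E := fun n =>
    φ ∘ₗ LinearMap.mulRight k (γ ^ n) ∘ₗ (aeval y).toLinearMap
  have hψ : ∀ n p, ψ n p = φ (aeval y p * γ ^ n) := fun n p => rfl
  obtain ⟨n, hn⟩ := hacc (fun n => LinearMap.range (ψ n))
    (monotone_nat_of_le_succ fun n => by
      rintro _ ⟨p, rfl⟩
      refine ⟨p * g, ?_⟩
      rw [hψ, hψ, map_mul (aeval y), pow_succ', mul_assoc, ← mul_assoc (aeval y g), hgγ, one_mul])
    (by
      rintro n _ ⟨p, rfl⟩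
      refine ⟨X * p, ?_⟩
      rw [hψ, hψ, map_mul (aeval y), aeval_X, mul_assoc, h])
  have h1 : ψ (n + 1) 1 ∈ LinearMap.range (ψ n) := hn ▸ LinearMap.mem_range_self _ _
  obtain ⟨p, hp⟩ := h1
  rw [hψ, hψ, map_one, one_mul] at hp
  have h2 : (1 - p * g : k[X]) ≠ 0 := by
    intro e
    have := congrArg (Polynomial.eval r) e
    simp [hg] at this
  have h3 : aeval x (1 - p * g) (φ (γ ^ (n + 1))) = 0 := by
    rw [← notor_aeval x φ y h, map_sub, map_one, sub_mul, one_mul, map_sub, map_mul (aeval y),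
      pow_succ' γ n, ← mul_assoc, mul_assoc (aeval y p), hgγ, mul_one, hp, pow_succ', sub_self]
  have h4 := hk _ _ h2 h3
  have h5 : (1 : F) = aeval y (g ^ n * (X - C r) * f) * γ ^ (n + 1) := by
    rw [mul_assoc (g ^ n), ← hg, ← pow_succ, map_pow, ← mul_pow, hgγ, one_pow]
  rw [h5, notor_aeval x φ y h, map_mul, Module.End.mul_apply, h4, map_zero]

end

theorem t_NOTOR (k : Type u) [Field k] [IsAlgClosed k] (R : Type u) [Ring R] [Algebra k R]
    [FiniteDimensional k R]
    (hBOCK : ∀ (S : Type u) [Ring S] [Algebra k S] [FiniteDimensional k S], S_BOCK k S)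
    (hNOE : ∀ (S : Type u) [Ring S] [Algebra k S] [FiniteDimensional k S], S_NOE k S)
    (hCC : ∀ (S : Type u) [Ring S] [Algebra k S] [FiniteDimensional k S], S_CC k S) :
    S_NOTOR k R := by
  intro d Q hQ
  obtain ⟨f, hf, hk⟩ := (hNOE R).kill d Q hQ
  refine ⟨f, hf, fun F _ _ A hA y hy => ?_⟩
  have hfd : (FO.ofMd Q).fd := by
    have hQ' : Module.Finite k Q := hQ
    have e : FO.module (FO.ofMd Q) = Q.mk' :=
      Module.ext' _ _ fun c t => FO.smul_k (FO.ofMd Q) c t
    change @Module.Finite k Q _ _ (FO.module (FO.ofMd Q))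
    rw [e]
    exact hQ'
  have hs : ∀ (c : k) (t : EE d Q), Emap d ((FO.ofMd Q).act c) t = c • t := by
    intro c t
    have e : (FO.ofMd Q).act c = c • (LinearMap.id : Q →ₗ[R] Q) :=
      LinearMap.ext fun z => FO.smul_k (FO.ofMd Q) c z
    rw [e, map_smul, Emap_id]
    rfl
  have hacc : ∀ W : ℕ → Submodule k (EE d Q), Monotone W → (∀ n, ∀ u ∈ W n, EX d Q u ∈ W n) →
      ∃ n, W (n + 1) = W n := by
    intro W hW hx
    let W' : ℕ → @Submodule k (EE d Q) _ _ (EE.moduleF d (FO.ofMd Q)) := fun n =>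
      @Submodule.mk k (EE d Q) _ _ (EE.moduleF d (FO.ofMd Q)) (W n).toAddSubmonoid
        fun c t ht => by
          change Emap d ((FO.ofMd Q).act c) t ∈ W n
          rw [hs]
          exact (W n).smul_mem c ht
    obtain ⟨n, hn⟩ := (hNOE R).acc k d (FO.ofMd Q) hfd W' (fun i j hij t ht => hW hij ht) hx
    refine ⟨n, Submodule.ext fun t => ?_⟩
    change t ∈ W' (n + 1) ↔ t ∈ W' n
    rw [hn (n + 1) (Nat.le_succ n)]
  rw [injective_iff_map_eq_zero]
  intro u hu
  have hu' : EX d A.X u = Emap d (A.act y) u := sub_eq_zero.1 hu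
  refine notor_cc d hA u fun a => ?_
  let φ : F →ₗ[k] EE d Q :=
    Emap d a ∘ₗ LinearMap.applyₗ (R := k) u ∘ₗ Emap d ∘ₗ A.act.toLinearMap
  have hφ : ∀ c, φ c = Emap d a (Emap d (A.act c) u) := fun c => rfl
  have h1 := notor_zero (EX d Q) f hk hacc φ y hy fun c => by
    rw [hφ, hφ, ← Emap_EX, ← Emap_EX, hu', mul_comm, map_mul]
    exact congrArg (Emap d a) (LinearMap.congr_fun (Emap_comp d (A.act c) (A.act y)) u)
  rw [hφ, map_one] at h1
  rw [← h1]
  exact congrArg (Emap d a) (LinearMap.congr_fun (Emap_id d A.X) u).symm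

end Pool.Agent.P.MP_cf639b_al
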