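import Pool.Agent.P.MP_cf639b_al.Iface

set_option linter.dupNamespace false

namespace Pool.Agent.P.MP_cf639b_al

universe u v
open TensorProduct Polynomial Function

section
variable {k : Type u} [Field k] {R : Type u} [Ring R] [Algebra k R]
  {F : Type u} [Field F] [Algebra k F]

theorem pg_al {f : k[X]} {V : XV k} : Allowed true f V ↔ Bijective (aeval V.x f) := by
  simp [Allowed]

theorem pg_mul {A : Type u} [CommRing A] [Algebra k A] (x : A) (f : k[X]) (v : A) :
    aeval (LinearMap.mulLeft k x) f v = aeval x f * v :=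
  LinearMap.congr_fun (aeval_algHom_apply (Algebra.lmul k A) x f) v

theorem pg_bij {A : Type u} [CommRing A] [Algebra k A] {x : A} {f : k[X]}
    (h : IsUnit (aeval x f)) : Bijective (aeval (LinearMap.mulLeft k x) f) := by
  rw [show ⇑(aeval (LinearMap.mulLeft k x) f) = fun v => aeval x f * v from funext (pg_mul x f)]
  exact h.unit.mulLeft_bijective

theorem pg_unit {y : F} (n : ℕ) {p : F[X]} (h : p.eval y ≠ 0) : IsUnit (Jmk y n p) := by
  obtain ⟨a, b, e⟩ := (((irreducible_X_sub_C y).coprime_iff_not_dvd.2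
    (mt dvd_iff_isRoot.1 h)).pow_left (m := n))
  refine IsUnit.of_mul_eq_one_right (Jmk y n b) ?_
  rw [← map_mul, ← map_one (Jmk y n), ← e, Ideal.Quotient.eq, Ideal.mem_span_singleton]
  exact ⟨-a, by ring⟩

theorem pg_zero (q : F[X]) : Qmk q q = 0 :=
  Ideal.Quotient.eq_zero_iff_mem.2 (Ideal.mem_span_singleton_self q)

theorem pg_ne (y : F) (n : ℕ) : Jmk y (n + 1) ((X - C y) ^ n) ≠ 0 := fun h => by
  have := natDegree_le_of_dvd (Ideal.mem_span_singleton.1 (Ideal.Quotient.eq_zero_iff_mem.1 h))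
    (Jmonic y n).ne_zero
  simp at this

theorem pg_alJ (f : k[X]) (y : F) (n : ℕ) (h : aeval y f ≠ 0) :
    Bijective (aeval (J k y n).V.x f) := by
  refine pg_bij ?_
  rw [show aeval (Jmk y n X) f = Jmk y n (f.map (algebraMap k F)) from
    aeval_algHom_apply (Ideal.Quotient.mkₐ k _) (X : F[X]) f]
  exact pg_unit n (by rwa [eval_map_algebraMap])

theorem pg_pol {V V' : XV k} (g : XH V V') (f : k[X]) (v : V) :
    g.1 (aeval V.x f v) = aeval V'.x f (g.1 v) := by
  simp only [aeval_eq_sum_range, LinearMap.sum_apply, LinearMap.smul_apply, map_sum, map_smul,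
    XH.comm_pow]

theorem pg_lin {q q' : F[X]} {g : XH (Jq k q).V (Jq k q').V} (hg : XLin _ _ g) (p : F[X])
    (v : QT q) : g.1 (Qmk q p * v) = Qmk q' p * (g.1 v : QT q') := by
  induction p using Polynomial.induction_on with
  | C a => exact hg a v
  | add p p' h h' => simp only [map_add, add_mul, h, h']
  | monomial n a h =>
    rw [pow_succ', mul_left_comm, map_mul (Qmk q), map_mul (Qmk q'), mul_assoc, mul_assoc, ← h]
    exact XH.comm g _

theorem pg_mapbij (G : NF k R) {V V' : XV k} {g : XH V V'} (hg : Bijective g.1) :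
    Bijective (G.map g) := by
  let e := LinearEquiv.ofBijective g.1 hg
  let g' : XH V' V := ⟨e.symm, LinearMap.ext fun v => hg.1 (by
    have := XH.comm g (e.symm v)
    exact (e.apply_symm_apply _).trans
      ((congrArg V'.x (e.apply_symm_apply v)).symm.trans this.symm))⟩
  have h1 : XH.comp g' g = XH.id V := Subtype.ext (LinearMap.ext e.symm_apply_apply)
  have h2 : XH.comp g g' = XH.id V' := Subtype.ext (LinearMap.ext e.apply_symm_apply)
  exact bijective_iff_has_inverse.2 ⟨G.map g',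
    LinearMap.congr_fun (by rw [← G.map_comp, h1, G.map_id] : G.map g' ∘ₗ G.map g = .id),
    LinearMap.congr_fun (by rw [← G.map_comp, h2, G.map_id] : G.map g ∘ₗ G.map g' = .id)⟩

theorem pg_nilp (D : RD k R) (v : D.ι) (V : XV k) (h : Allowed (D.K v) D.f V) (j)
    (hj : j ∈ D.J v V v V) : IsNilpotent (j : Module.End R (M (D.d v) V)) :=
  ⟨D.s, by
    rw [← List.prod_replicate]
    exact D.nil h _ List.length_replicate fun _ a => List.eq_of_mem_replicate a ▸ hj⟩

theorem pg_uni (D : RD k R) (v : D.ι) (V V' : XV k) (h : Allowed (D.K v) D.f V)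
    (h' : Allowed (D.K v) D.f V') (a : M (D.d v) V →ₗ[R] M (D.d v) V') (j)
    (hj : j ∈ D.J v V v V') (ha : Bijective a) : Bijective (a + j) := by
  let e := LinearEquiv.ofBijective a ha
  have := (Module.End.isUnit_iff _).1
    (pg_nilp D v V h _ (D.left h h' h j hj e.symm.toLinearMap)).isUnit_one_add
  rw [show a + j = a ∘ₗ (1 + e.symm.toLinearMap ∘ₗ j) from LinearMap.ext fun t => by
    rw [LinearMap.comp_apply, LinearMap.add_apply, LinearMap.add_apply, map_add]
    exact congrArg _ (e.apply_symm_apply _).symm]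
  exact ha.comp this

variable (H : PG k R)

theorem pg_K {V : XV k} (h : Allowed true H.D.f V) : Allowed (H.D.K H.v) H.D.f V := H.hK ▸ h

theorem pg_J {y : F} (n : ℕ) (h : aeval y H.D.f ≠ 0) : Allowed (H.D.K H.v) H.D.f (J k y n).V :=
  pg_K H (pg_al.2 (pg_alJ _ y n h))

theorem pg_dec {V V' : FXV k F} (h : Allowed (H.D.K H.v) H.D.f V.V)
    (h' : Allowed (H.D.K H.v) H.D.f V'.V) {a} (ha : a ∈ HomF (MF H.d V) (MF H.d V')) :
    ∃ g : XH V.V V'.V, XLin V V' g ∧ a - (MN H.d).map g ∈ H.D.J H.v V.V H.v V'.V := by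
  obtain ⟨g, hg⟩ := H.D.dec h h' a
  refine ⟨g, fun c v => ?_, hg⟩
  have := H.D.inj h h' H.hK (XH.comp g (V.sc c) - XH.comp (V'.sc c) g) (by
    have e : a ∘ₗ (MN H.d).map (V.sc c) = (MN H.d).map (V'.sc c) ∘ₗ a := mem_HomF'.1 ha c
    have := sub_mem (H.D.left h h' h' _ hg ((MN H.d).map (V'.sc c)))
      (H.D.right h h h' _ hg ((MN H.d).map (V.sc c)))
    rwa [LinearMap.comp_sub, LinearMap.sub_comp, e, sub_sub_sub_cancel_left, ← NF.map_comp,
      ← NF.map_comp, ← map_sub] at this)
  exact LinearMap.congr_fun (congrArg Subtype.val (sub_eq_zero.1 this)) v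

theorem pg_nilc (V : ℕ → XV k) (hV : ∀ i, Allowed true H.D.f (V i))
    (j : ∀ i, M H.d (V i) →ₗ[R] M H.d (V (i + 1)))
    (hj : ∀ i, j i ∈ H.D.J H.v (V i) H.v (V (i + 1))) :
    chain (fun i => M H.d (V i)) j H.D.s = 0 := by
  let W : XV k := ⟨∀ i, V i, LinearMap.pi fun i => (V i).x ∘ₗ LinearMap.proj i⟩
  let p : ∀ i, XH W (V i) := fun i => ⟨LinearMap.proj i, rfl⟩
  let e : ∀ i, XH (V i) W := fun i => ⟨LinearMap.single k (fun i => V i) i,
    LinearMap.ext fun v => funext fun l => (Pi.apply_single (fun l => (V l).x)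
      (fun _ => map_zero _) i v l).symm⟩
  have pe : ∀ i, (MN H.d).map (p i) ∘ₗ (MN H.d).map (e i) = .id := fun i => by
    rw [← NF.map_comp, ← NF.map_id]
    exact congrArg _ (Subtype.ext (LinearMap.ext fun v =>
      Pi.single_eq_same (M := fun i => V i) i v))
  have hW : Allowed (H.D.K H.v) H.D.f W := pg_K H (pg_al.2 (by
    rw [show ⇑(aeval W.x H.D.f) = Pi.map fun i => aeval (V i).x H.D.f from
      funext fun w => funext fun i => pg_pol (p i) _ w]
    exact Bijective.piMap fun i => pg_al.1 (hV i)))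
  have key : ∀ n, ∃ l : List (Module.End R (M H.d W)), l.length = n ∧
      (∀ a ∈ l, a ∈ H.D.J H.v W H.v W) ∧
      l.prod ∘ₗ (MN H.d).map (e 0) = (MN H.d).map (e n) ∘ₗ chain (fun i => M H.d (V i)) j n := by
    intro n
    induction n with
    | zero => exact ⟨[], rfl, by simp, rfl⟩
    | succ n ih =>
      obtain ⟨l, h1, h2, h3⟩ := ih
      refine ⟨((MN H.d).map (e (n + 1)) ∘ₗ j n ∘ₗ (MN H.d).map (p n)) :: l, by simp [h1],
        List.forall_mem_cons.2 ⟨H.D.left hW (pg_K H (hV _)) hW _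
          (H.D.right hW (pg_K H (hV _)) (pg_K H (hV _)) _ (hj n) _) _, h2⟩, ?_⟩
      rw [List.prod_cons, Module.End.mul_eq_comp, LinearMap.comp_assoc, h3, chain,
        LinearMap.comp_assoc, LinearMap.comp_assoc, ← LinearMap.comp_assoc (chain _ j n), pe,
        LinearMap.id_comp]
  obtain ⟨l, h1, h2, h3⟩ := key H.D.s
  rw [H.D.nil hW l h1 h2] at h3
  rw [← LinearMap.id_comp (chain _ j _), ← pe, LinearMap.comp_assoc, ← h3]
  exact LinearMap.comp_zero _

theorem pg_nt {V : XV k} (h : Allowed (H.D.K H.v) H.D.f V) (hV : Nontrivial V) :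
    Nontrivial (M H.d V) := by
  by_contra a
  rw [not_nontrivial_iff_subsingleton] at a
  have := H.D.inj h h H.hK (XH.id V) (by
    rw [Subsingleton.elim ((MN H.d).map (XH.id V)) 0]; exact zero_mem _)
  obtain ⟨v, hv⟩ := exists_ne (0 : V)
  exact hv (LinearMap.congr_fun (congrArg Subtype.val this) v)

theorem pg_ntJ {y : F} (n : ℕ) (h : aeval y H.D.f ≠ 0) : Nontrivial (M H.d (J k y (n + 1)).V) :=
  pg_nt H (pg_J H _ h) ⟨_, _, pg_ne y n⟩

theorem pg_loc {y : F} (n : ℕ) (h : aeval y H.D.f ≠ 0) : Loc (MF H.d (J k y (n + 1))) := by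
  refine ⟨pg_ntJ H n h, fun u hu => ?_⟩
  have a := pg_J H (n + 1) h
  obtain ⟨g, g1, g2⟩ := pg_dec H a a hu
  obtain ⟨p, hp⟩ := Ideal.Quotient.mk_surjective (g.1 (1 : JT y (n + 1)))
  obtain rfl : g = jmul k _ p := Subtype.ext (LinearMap.ext fun v => by
    obtain ⟨r, rfl⟩ := Ideal.Quotient.mk_surjective v
    have := pg_lin g1 r 1
    rw [mul_one, ← hp, mul_comm] at this
    exact this)
  by_cases b : p.eval y = 0
  · have key : ∀ m, u ^ m - (MN H.d).map (jmul k _ (p ^ m)) ∈ H.D.J H.v _ H.v _ := by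
      intro m
      induction m with
      | zero =>
        rw [show jmul k _ (p ^ 0) = XH.id _ from Subtype.ext (LinearMap.ext fun v => by
          simp [jmul]), NF.map_id, pow_zero, Module.End.one_eq_id, sub_self]
        exact zero_mem _
      | succ m ih =>
        have := add_mem (H.D.left a a a _ ih u)
          (H.D.right a a a _ g2 ((MN H.d).map (jmul k _ (p ^ m))))
        rwa [LinearMap.comp_sub, LinearMap.sub_comp, sub_add_sub_cancel, ← NF.map_comp,
          ← Module.End.mul_eq_comp, ← pow_succ', show XH.comp (jmul k _ p) (jmul k _ (p ^ m)) =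
            jmul k _ (p ^ (m + 1)) from Subtype.ext (LinearMap.ext fun v => by
              simp [jmul, pow_succ'])] at this
    obtain ⟨r, rfl⟩ := dvd_iff_isRoot.2 b
    have := key (n + 1)
    rw [show jmul k _ (((X - C y) * r) ^ (n + 1)) = 0 from Subtype.ext (LinearMap.ext fun v => by
      change Qmk _ _ * v = 0
      rw [mul_pow, map_mul, pg_zero, zero_mul, zero_mul]), map_zero, sub_zero] at this
    exact .inl (pg_nilp _ _ _ a _ this).of_pow
  · have := pg_uni _ _ _ _ a a _ _ g2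
      (pg_mapbij _ (g := jmul k _ p) (pg_unit (n + 1) b).unit.mulLeft_bijective)
    rw [add_sub_cancel] at this
    exact .inr this

theorem pg_junk {y y' : F} (n n' : ℕ) (h : aeval y H.D.f ≠ 0) (h' : aeval y' H.D.f ≠ 0)
    (hy : y ≠ y') {a} (ha : a ∈ HomF (MF H.d (J k y n)) (MF H.d (J k y' n'))) :
    a ∈ H.D.J H.v _ H.v _ := by
  obtain ⟨g, g1, g2⟩ := pg_dec H (pg_J H n h) (pg_J H n' h') ha
  have e := pg_lin g1 ((X - C y) ^ n) 1
  rw [pg_zero, zero_mul, map_zero, eq_comm, (pg_unit n' (by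
    simpa [sub_eq_zero] using fun a => absurd a.symm hy)).mul_right_eq_zero] at e
  obtain rfl : g = 0 := Subtype.ext (LinearMap.ext fun v => by
    obtain ⟨r, rfl⟩ := Ideal.Quotient.mk_surjective v
    have := pg_lin g1 r 1
    rw [mul_one, e, mul_zero] at this
    exact this)
  rwa [map_zero, sub_zero] at g2

theorem pg_gen {t : F} (ht : Gen k t) (g : XH (one k t).V (one k t).V) (a : F) :
    g.1 a = (g.1 (1 : F) : F) * a := by
  obtain ⟨p, q, hq, e⟩ := ht.2 a
  have l : ∀ (f : k[X]) (v : F), g.1 (aeval t f * v) = aeval t f * (g.1 v : F) := fun f v => by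
    have := pg_pol g f v
    rwa [pg_mul, pg_mul] at this
  refine mul_left_cancel₀ (mt (transcendental_iff.1 ht.1 q) hq) ?_
  rw [← l, mul_comm _ a, e, ← mul_one (aeval t p), l, ← e]
  ring

variable [FiniteDimensional k R]

theorem pg_ord (B : S_BOCK k R) (P : S_REP k R) {y : F} (n : ℕ) (h : aeval y H.D.f ≠ 0) :
    (piE H.d (MF H.d (J k y (n + 1))) y ^ n) (eJ H.d y (n + 1)) ≠ 0 := fun e => by
  have a := pg_J H (n + 1) h
  have b := pg_J H (2 * (n + 1)) h
  obtain ⟨a', h1, h2, -⟩ := P.ext F H.d (MF H.d (J k y (n + 1))) y (n + 1) (2 * (n + 1)) (by omega)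
    ((MN H.d).map (jmul k _ ((X - C y) ^ n)))
    (NF.map_mem _ _ fun c v => mul_left_comm _ _ _) (by
      rw [← LinearMap.id_comp ((MN H.d).map _), B.map, ← e, ← B.piE_pol]
      exact (congrArg _ (mul_one _)).trans (B.jq F H.d _ _ _ _ (HomF.id _)))
  obtain ⟨g, g1, g2⟩ := pg_dec H b a h1
  have := H.D.right a b a _ g2 ((MN H.d).map (jm k y (n + 1) (2 * (n + 1))))
  rw [LinearMap.sub_comp, h2, ← NF.map_comp, ← map_sub] at this
  have e1 := LinearMap.congr_fun (congrArg Subtype.val (sub_eq_zero.1 (H.D.inj a a H.hK _ this)))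
    (Jmk y (n + 1) 1)
  rw [XH.comp_val, LinearMap.comp_apply, jm_mk, map_mul, pg_lin g1,
    show 2 * (n + 1) - (n + 1) = n + 1 by omega, pg_zero, zero_mul] at e1
  exact pg_ne y n ((mul_one _).symm.trans e1)

end

theorem t_PG (k : Type u) [Field k] [IsAlgClosed k] (R : Type u) [Ring R] [Algebra k R]
    [FiniteDimensional k R]
    (hBOCK : ∀ (S : Type u) [Ring S] [Algebra k S] [FiniteDimensional k S], S_BOCK k S)
    (hREP : ∀ (S : Type u) [Ring S] [Algebra k S] [FiniteDimensional k S], S_REP k S)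
    (hNOTOR : ∀ (S : Type u) [Ring S] [Algebra k S] [FiniteDimensional k S], S_NOTOR k S)
    (hCC : ∀ (S : Type u) [Ring S] [Algebra k S] [FiniteDimensional k S], S_CC k S)
    (hFD : ∀ (S : Type u) [Ring S] [Algebra k S] [FiniteDimensional k S], S_FD k S)
    (hID : ∀ (S : Type u) [Ring S] [Algebra k S] [FiniteDimensional k S], S_ID k S)
    (hKS : ∀ (S : Type u) [Ring S] [Algebra k S] [FiniteDimensional k S], S_KS k S)
    (hAUT : S_AUT k) :
    S_PG k R := by
  have B := hBOCK R
  have P := hREP R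
  have tr : ∀ {F : Type u} [Field F] [Algebra k F] {y : F}, Transcendental k y →
      ∀ {f : k[X]}, f ≠ 0 → aeval y f ≠ 0 := fun h _ hf => mt (transcendental_iff.1 h _) hf
  have alG : ∀ H : PG k R, Allowed (H.D.K H.v) H.D.f (one k (RatFunc.X : RatFunc k)).V :=
    fun H => pg_K H (pg_al.2 (pg_bij (tr hAUT.gen.1 H.D.hf).isUnit))
  have nc : ∀ (H : PG k R) (F : Type u) [Field F] [Algebra k F] (y : F) (n : ℕ),
      Transcendental k y → ∀ Q : Md k R, Q.fd → ¬ CC Q (M H.d (J k y (n + 1)).V) := by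
    intro H F _ _ y n hy Q hQ hc
    obtain ⟨f, hf, h⟩ := hNOTOR R H.d Q hQ
    refine pg_ord H B P n (tr hy H.D.hf) (h F (MF H.d (J k y (n + 1))) hc y (tr hy hf) ?_)
    rw [map_zero, ← B.ej_zero F H.d y (n + 1), pow_succ', Module.End.mul_apply]
  exact {
    alJ := fun F _ _ f y n h => pg_al.2 (pg_alJ f y n h)
    alOne := fun F _ _ f y h => pg_al.2 (pg_bij h.isUnit)
    alK := fun f V hf h => pg_al.2 (h f hf)
    kspJ := fun F _ _ y n h p hp => pg_alJ p y n (tr h hp)
    kspOne := fun F _ _ y h p hp => pg_bij (tr h hp).isUnit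
    decF := fun H F _ _ V V' h h' a ha => pg_dec H (pg_K H h) (pg_K H h') ha
    nilp := pg_nilp
    unit := pg_uni
    nilc := pg_nilc
    nt := fun H V h => pg_nt H (pg_K H h)
    locJ := fun H F _ _ y n h => pg_loc H n h
    ordJ := fun H F _ _ y n h => pg_ord H B P n h
    torsJ := fun H F _ _ y n h u ⟨N, hu⟩ => by
      obtain ⟨a, ha, rfl⟩ := P.repJ F H.d _ y N u hu
      obtain ⟨g, -, g2⟩ := pg_dec H (pg_J H N h) (pg_J H n h) ha
      have := LinearMap.congr_fun (H.D.bock (pg_J H N h) (pg_J H n h) H.hK _ g2) (1 : JT y N)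
      rw [B.eq, map_sub, LinearMap.sub_apply, LinearMap.zero_apply, sub_eq_zero] at this
      refine ⟨g.1 (1 : JT y N), this.trans ?_⟩
      rw [← B.eq, ← B.map, LinearMap.id_comp]
    junkJ := fun H F _ _ y y' n n' h h' hy a ha => pg_junk H n n' h h' hy ha
    notorJ := fun H F _ _ y y' n h h' hy => (injective_iff_map_eq_zero _).2 fun u hu => by
      obtain ⟨a, ha, rfl⟩ := P.repJ F H.d _ y' 1 u (by rwa [pow_one])
      exact (B.eq _ _ _ a _).symm.trans (LinearMap.congr_fun (H.D.bock (pg_J H 1 h') (pg_J H n h)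
        H.hK _ (pg_junk H 1 n h' h hy.symm ha)) _)
    isoJ := fun H F _ _ y y' n n' h h' ⟨f, hf, hb⟩ => by
      by_contra hy
      have a := pg_J H (n + 1) h
      have := pg_ntJ H n h
      have := pg_nilp _ _ _ a _ (H.D.left a (pg_J H _ h') a f (pg_junk H _ _ h h' hy hf)
        (LinearEquiv.ofBijective f hb).symm.toLinearMap)
      rw [show (LinearEquiv.ofBijective f hb).symm.toLinearMap ∘ₗ f = 1 from
        LinearMap.ext (LinearEquiv.ofBijective f hb).symm_apply_apply] at this
      exact not_isNilpotent_one this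
    unitG := fun H u => by
      obtain ⟨g, hg⟩ := H.D.dec (alG H) (alG H) u
      by_cases b : g.1 (1 : RatFunc k) = 0
      · obtain rfl : g = 0 := Subtype.ext (LinearMap.ext fun v =>
          (pg_gen hAUT.gen g v).trans (mul_eq_zero_of_left b _))
        rw [map_zero, sub_zero] at hg
        exact .inr hg
      · have := pg_uni _ _ _ _ (alG H) (alG H) _ _ hg (pg_mapbij _ (by
          rw [show ⇑g.1 = _ from funext (pg_gen hAUT.gen g)]
          exact mulLeft_bijective₀ _ b))
        rw [add_sub_cancel] at this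
        exact .inl this
    alG := alG
    fdG := fun H => (hFD R).m _ _ _ ((hFD R).one _ _).1
    ntG := fun H => pg_nt H (alG H) inferInstance
    infG := fun H hf => by
      have := pg_nt H (alG H) inferInstance
      obtain ⟨t, ht⟩ := exists_ne (0 : H.G)
      let := FO.module H.GF
      have : Module.Finite k (RatFunc k) := Module.Finite.of_injective
        ((LinearMap.applyₗ t ∘ₗ LinearMap.restrictScalarsₗ k R _ _ k) ∘ₗ H.GF.act.toLinearMap)
        (smul_left_injective (RatFunc k) ht)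
      exact hAUT.gen.1 (IsAlgebraic.of_finite k _)
    nc := nc
    nconst := fun H F _ _ y n hy ⟨Q, hQ, f, _, hb⟩ => nc H F y n hy Q hQ
      ((hCC R).smd Q _ _ f (LinearEquiv.ofBijective f hb).symm.toLinearMap
        (LinearMap.ext (LinearEquiv.ofBijective f hb).symm_apply_apply) ((hCC R).ten Q _)) }

end Pool.Agent.P.MP_cf639b_al
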