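import Pool.Agent.P.MP_cf639b_al.Iface

set_option linter.dupNamespace false

namespace Pool.Agent.P.MP_cf639b_al

universe u v
open TensorProduct Polynomial Function

section aux
variable {k : Type u} [Field k] {R : Type u} [Ring R] [Algebra k R]

theorem pp_fd_prod {A B : Md k R} (hA : A.fd) (hB : B.fd) : (A.prod B).fd :=
  haveI : Module.Finite k A := hA
  haveI : Module.Finite k B := hB
  (inferInstance : Module.Finite k (A × B))

theorem pp_fd_quo {A : Md k R} (hA : A.fd) (S : Submodule R A) : (A.quo S).fd :=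
  haveI : Module.Finite k A := hA
  Module.Finite.of_surjective (S.mkQ.restrictScalars k) S.mkQ_surjective

theorem pp_pushout {U A B : Md k R} (hA : A.fd) (hB : B.fd) (f : U →ₗ[R] A) (g : U →ₗ[R] B) :
    ∃ (Z : Md k R) (_ : Z.fd) (i : A →ₗ[R] Z) (j : B →ₗ[R] Z), i ∘ₗ f = j ∘ₗ g ∧
      ∀ (T : Md k R) (a : A →ₗ[R] T) (b : B →ₗ[R] T), a ∘ₗ f = b ∘ₗ g →
        ∃ h : Z →ₗ[R] T, h ∘ₗ i = a ∧ h ∘ₗ j = b := by
  let S : Submodule R (A × B) := LinearMap.range (f.prod (-g))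
  refine ⟨(A.prod B).quo S, pp_fd_quo (pp_fd_prod hA hB) S, S.mkQ ∘ₗ LinearMap.inl R A B,
    S.mkQ ∘ₗ LinearMap.inr R A B, ?_, fun T a b hab => ?_⟩
  · refine LinearMap.ext fun x => ?_
    change S.mkQ (f x, 0) = S.mkQ (0, g x)
    rw [← sub_eq_zero, ← map_sub, Submodule.mkQ_apply, Submodule.Quotient.mk_eq_zero]
    exact ⟨x, by simp⟩
  · have hS : S ≤ LinearMap.ker (a.coprod b) := by
      rintro _ ⟨x, rfl⟩
      have e : a (f x) = b (g x) := LinearMap.congr_fun hab x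
      simp [e]
    refine ⟨S.liftQ (a.coprod b) hS, LinearMap.ext fun x => ?_, LinearMap.ext fun x => ?_⟩
    · change a.coprod b (x, 0) = a x
      simp
    · change a.coprod b (0, x) = b x
      simp

theorem pp_smd (T T' : Md k R) (i : T →ₗ[R] T') (p : T' →ₗ[R] T) (π : Pr k R)
    (h : p ∘ₗ i = LinearMap.id) (ho : π.Open T) : π.Open T' := by
  intro hle
  refine ho fun t ht => ?_
  have h1 := PP.comp_mem p (hle (PP.comp_mem i ht))
  rwa [← LinearMap.comp_assoc, h, LinearMap.id_comp] at h1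

theorem pp_cc (Q T : Md k R) (π : Pr k R) (h : CC Q T) (ho : π.Open T) : π.Open Q := by
  classical
  intro hle
  refine ho fun t ht => ?_
  haveI : Module.Finite k π.U := π.fd
  obtain ⟨s, hs⟩ := (Module.Finite.fg_top : (⊤ : Submodule k π.U).FG)
  obtain ⟨n, a, b, hab⟩ := h (s.image t)
  have e : t = ∑ i, b i ∘ₗ a i ∘ₗ t := by
    apply LinearMap.restrictScalars_injective k
    refine LinearMap.ext_on hs fun x hx => ?_
    have h1 := hab (t x) (Finset.mem_image_of_mem _ hx)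
    simpa using h1.symm
  rw [e]
  exact Submodule.sum_mem _ fun i _ => PP.comp_mem _ (hle (PP.comp_mem _ ht))

end aux

theorem t_PP (k : Type u) [Field k] [IsAlgClosed k] (R : Type u) [Ring R] [Algebra k R]
    [FiniteDimensional k R] :
    S_PP k R := by
  refine ⟨fun U hU => ?_, fun U => ?_, fun U φ ψ => ?_, fun U φ ψ => ?_, fun U U' g φ => ?_,
    fun U U' hU g φ => ?_, pp_cc, pp_smd, fun T T' f hf π => ?_⟩
  · exact ⟨⟨U, hU, LinearMap.id⟩, fun T => eq_top_iff.2 fun t _ => ⟨t, rfl⟩⟩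
  · refine ⟨⟨U.quo ⊤, ?_, 0⟩, fun T => eq_bot_iff.2 ?_⟩
    · haveI : Subsingleton (U ⧸ (⊤ : Submodule R U)) := inferInstance
      exact (inferInstance : Module.Finite k (U ⧸ (⊤ : Submodule R U)))
    · rintro _ ⟨g, rfl⟩
      exact LinearMap.comp_zero g
  · refine ⟨⟨φ.Z.prod ψ.Z, pp_fd_prod φ.fd ψ.fd, φ.u.prod ψ.u⟩, fun T => le_antisymm ?_ ?_⟩
    · rintro _ ⟨g, rfl⟩
      refine Submodule.mem_sup.2 ⟨_, ⟨g ∘ₗ LinearMap.inl R φ.Z ψ.Z, rfl⟩,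
        _, ⟨g ∘ₗ LinearMap.inr R φ.Z ψ.Z, rfl⟩, LinearMap.ext fun x => ?_⟩
      change g (φ.u x, 0) + g (0, ψ.u x) = g (φ.u x, ψ.u x)
      rw [← map_add]
      simp
    · refine sup_le ?_ ?_
      · rintro _ ⟨g, rfl⟩
        exact ⟨g ∘ₗ LinearMap.fst R φ.Z ψ.Z, rfl⟩
      · rintro _ ⟨g, rfl⟩
        exact ⟨g ∘ₗ LinearMap.snd R φ.Z ψ.Z, rfl⟩
  · obtain ⟨Z, hZ, i, j, hij, hu⟩ := pp_pushout φ.fd ψ.fd φ.u ψ.u
    refine ⟨⟨Z, hZ, i ∘ₗ φ.u⟩, fun T => le_antisymm ?_ ?_⟩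
    · rintro _ ⟨g, rfl⟩
      exact ⟨⟨g ∘ₗ i, rfl⟩, ⟨g ∘ₗ j, by rw [LinearMap.comp_assoc, ← hij]⟩⟩
    · rintro t ⟨⟨a, ha⟩, ⟨b, hb⟩⟩
      obtain ⟨h, h1, -⟩ := hu T a b (ha.symm.trans hb)
      exact ⟨h, by rw [ha, ← h1]; rfl⟩
  · refine ⟨⟨φ.Z, φ.fd, φ.u ∘ₗ g⟩, fun T t => ⟨?_, ?_⟩⟩
    · rintro ⟨h, rfl⟩
      exact ⟨_, ⟨h, rfl⟩, rfl⟩
    · rintro ⟨_, ⟨h, rfl⟩, rfl⟩
      exact ⟨h, rfl⟩
  · obtain ⟨Z, hZ, i, j, hij, hu⟩ := pp_pushout hU φ.fd g φ.u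
    refine ⟨⟨Z, hZ, i⟩, fun T t => ⟨?_, ?_⟩⟩
    · rintro ⟨h, rfl⟩
      exact ⟨h ∘ₗ j, by rw [LinearMap.comp_assoc, LinearMap.comp_assoc, ← hij]⟩
    · rintro ⟨b, hb⟩
      obtain ⟨h, h1, -⟩ := hu T t b hb
      exact ⟨h, h1.symm⟩
  · let e := LinearEquiv.ofBijective f hf
    exact ⟨pp_smd T T' e.toLinearMap e.symm.toLinearMap π (LinearMap.ext e.symm_apply_apply),
      pp_smd T' T e.symm.toLinearMap e.toLinearMap π (LinearMap.ext e.apply_symm_apply)⟩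

end Pool.Agent.P.MP_cf639b_al
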