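import Pool.Agent.P.MP_cf639b_al.Iface

set_option linter.dupNamespace false

namespace Pool.Agent.P.MP_cf639b_al

universe u v
open TensorProduct Polynomial Function

noncomputable section

variable {k : Type u} [Field k] {R : Type u} [Ring R] [Algebra k R]
  {F : Type u} [Field F] [Algebra k F]

/-- the map `c ↦ c • β` -/
def qq_sp (B : FO k R F) (β : B.X) : F →ₗ[k] B.X :=
  (LinearMap.toSpanSingleton F B.X β).restrictScalars k
theorem qq_sp_apply (B : FO k R F) (β : B.X) (c : F) : qq_sp B β c = c • β := rfl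

def qq_upP (B : FO k R F) (l : B.X →ₗ[F] F) : (PA.onF B).X →ₗ[R] (T0F k R F).X :=
  LinearMap.inl R (R ⊗[k] F) (CoInd k R F) ∘ₗ Pmap (l.restrictScalars k)
def qq_dnP (B : FO k R F) (β : B.X) : (T0F k R F).X →ₗ[R] (PA.onF B).X :=
  Pmap (qq_sp B β) ∘ₗ LinearMap.fst R (R ⊗[k] F) (CoInd k R F)
def qq_upI (B : FO k R F) (l : B.X →ₗ[F] F) : (IA.onF B).X →ₗ[R] (T0F k R F).X :=
  LinearMap.inr R (R ⊗[k] F) (CoInd k R F) ∘ₗ Imap (l.restrictScalars k)
def qq_dnI (B : FO k R F) (β : B.X) : (T0F k R F).X →ₗ[R] (IA.onF B).X :=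
  Imap (qq_sp B β) ∘ₗ LinearMap.snd R (R ⊗[k] F) (CoInd k R F)

theorem qq_act (a : F) (z : (R ⊗[k] F) × CoInd k R F) :
    (T0F k R F).act a z = (Pmap (Algebra.lmul k F a) z.1, Imap (Algebra.lmul k F a) z.2) := rfl

theorem qq_l (B : FO k R F) (l : B.X →ₗ[F] F) (a : F) :
    l.restrictScalars k ∘ₗ (B.act a).restrictScalars k =
      Algebra.lmul k F a ∘ₗ l.restrictScalars k :=
  LinearMap.ext fun t => l.map_smul a t

theorem qq_s (B : FO k R F) (β : B.X) (a : F) :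
    qq_sp B β ∘ₗ Algebra.lmul k F a = (B.act a).restrictScalars k ∘ₗ qq_sp B β :=
  LinearMap.ext fun c => mul_smul a c β

theorem qq_upP_mem (B : FO k R F) (l : B.X →ₗ[F] F) :
    qq_upP B l ∈ HomF (PA.onF B) (T0F k R F) := fun a t =>
  Prod.ext (LinearMap.congr_fun ((Pmap_comp _ _).symm.trans
    ((congrArg Pmap (qq_l B l a)).trans (Pmap_comp _ _))) t)
    (map_zero (Imap (R := R) (Algebra.lmul k F a))).symm
theorem qq_dnP_mem (B : FO k R F) (β : B.X) :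
    qq_dnP B β ∈ HomF (T0F k R F) (PA.onF B) := fun a t =>
  LinearMap.congr_fun ((Pmap_comp (R := R) _ _).symm.trans
    ((congrArg Pmap (qq_s B β a)).trans (Pmap_comp _ _))) t.1
theorem qq_upI_mem (B : FO k R F) (l : B.X →ₗ[F] F) :
    qq_upI B l ∈ HomF (IA.onF B) (T0F k R F) := fun a _ =>
  Prod.ext (map_zero (Pmap (R := R) (Algebra.lmul k F a))).symm
    (CoInd.ext fun _ => l.map_smul a _)
theorem qq_dnI_mem (B : FO k R F) (β : B.X) :
    qq_dnI B β ∈ HomF (T0F k R F) (IA.onF B) := fun a _ =>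
  CoInd.ext fun _ => mul_smul a _ β

theorem qq_ev {ι : Type u} (B : FO k R F) (b : Module.Basis ι F B.X) (z : R ⊗[k] B.X) :
    ∀ᶠ s : Finset ι in Filter.atTop,
      (∑ j ∈ s, qq_dnP B (b j) ∘ₗ qq_upP B (b.coord j)) z = z := by
  induction z using TensorProduct.induction_on with
  | zero => exact Filter.Eventually.of_forall fun s => map_zero _
  | tmul r v =>
    filter_upwards [Filter.eventually_ge_atTop (b.repr v).support] with s hs
    have h : ∑ j ∈ s, b.repr v j • b j = v := by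
      conv_rhs => rw [← b.linearCombination_repr v, Finsupp.linearCombination_apply]
      exact (Finsupp.sum_of_support_subset _ hs (fun j a => a • b j)
        fun _ _ => zero_smul _ _).symm
    have e : ∀ j, (qq_dnP B (b j) ∘ₗ qq_upP B (b.coord j)) (r ⊗ₜ[k] v) =
        r ⊗ₜ[k] (b.repr v j • b j) := fun j => by
      change Pmap _ (Pmap _ (r ⊗ₜ[k] v)) = _
      rw [Pmap_tmul, Pmap_tmul]
      rfl
    refine (LinearMap.sum_apply _ _ _).trans ((Finset.sum_congr rfl fun j _ => e j).trans ?_)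
    exact (TensorProduct.tmul_sum _ _ _).symm.trans (congrArg _ h)
  | add x y hx hy =>
    filter_upwards [hx, hy] with s h1 h2
    exact (map_add _ x y).trans (congrArg₂ _ h1 h2)

variable [FiniteDimensional k R]

theorem qq_gen (e : Bool) {A B : FO k R F} (i : ℕ)
    {a : A.X →ₗ[R] ((Tn e i).onF (T0F k R F)).X} {b : ((Tn e i).onF (T0F k R F)).X →ₗ[R] B.X}
    (ha : a ∈ HomF A ((Tn e i).onF (T0F k R F))) (hb : b ∈ HomF ((Tn e i).onF (T0F k R F)) B) :
    b ∘ₗ a ∈ QQ e A B := Submodule.subset_span ⟨i, a, ha, b, hb, rfl⟩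

theorem qq_gen0 (e : Bool) {A B : FO k R F}
    {a : A.X →ₗ[R] (T0F k R F).X} {b : (T0F k R F).X →ₗ[R] B.X}
    (ha : a ∈ HomF A (T0F k R F)) (hb : b ∈ HomF (T0F k R F) B) : b ∘ₗ a ∈ QQ e A B :=
  qq_gen e 0 (a := a) (b := b) ha hb

theorem qq_ind (e : Bool) {A B : FO k R F} {p : (A.X →ₗ[R] B.X) → Prop}
    (h1 : ∀ i, ∀ a ∈ HomF A ((Tn e i).onF (T0F k R F)),
      ∀ b ∈ HomF ((Tn e i).onF (T0F k R F)) B, p (b ∘ₗ a))
    (h0 : p 0) (h2 : ∀ f g, p f → p g → p (f + g)) : ∀ f ∈ QQ e A B, p f := by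
  intro f hf
  have key : ∀ c : F, p (c • f) := by
    induction hf using Submodule.span_induction with
    | mem f hf =>
      obtain ⟨i, a, ha, b, hb, rfl⟩ := hf
      exact fun c => h1 i a ha (c • b) (Submodule.smul_mem _ c hb)
    | zero => intro c; rw [smul_zero]; exact h0
    | add f g _ _ hf hg => intro c; rw [smul_add]; exact h2 _ _ (hf c) (hg c)
    | smul c' f _ hf => intro c; rw [smul_smul]; exact hf _
  simpa using key 1

theorem qq_p0 (hID : S_ID k R) (e : Bool) (A B : FO k R F) (hA : A.fd) : P0 A B ≤ QQ e A B := by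
  rintro _ ⟨g, hg, rfl⟩
  let b := Module.Basis.ofVectorSpace F B.X
  obtain ⟨T, hT⟩ := hA.fg_top
  obtain ⟨s, hs⟩ := ((Finset.eventually_all T).2 fun t _ => qq_ev B b (g t)).exists
  have hm : (∑ j ∈ s, qq_dnP B (b j) ∘ₗ qq_upP B (b.coord j)) ∘ₗ g ∈ HomF A (PA.onF B) :=
    HomF.comp (sum_mem fun j _ => HomF.comp (qq_dnP_mem B _) (qq_upP_mem B _)) hg
  let _ := FO.module (PA.onF B)
  have h1 : HomF.lin hm = HomF.lin hg := LinearMap.ext_on hT fun t ht => hs t ht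
  have h2 : pP B.X ∘ₗ g = ∑ j ∈ s, (pP B.X ∘ₗ qq_dnP B (b j)) ∘ₗ (qq_upP B (b.coord j) ∘ₗ g) := by
    refine LinearMap.ext fun t => ?_
    have h3 : (∑ j ∈ s, qq_dnP B (b j) ∘ₗ qq_upP B (b.coord j)) (g t) = g t :=
      LinearMap.congr_fun h1 t
    rw [LinearMap.sum_apply] at h3 ⊢
    exact (congrArg (pP B.X) h3.symm).trans (map_sum _ _ _)
  rw [h2]
  exact sum_mem fun j _ => qq_gen0 e (HomF.comp (qq_upP_mem B _) hg)
    (HomF.comp (hID.pP_mem F B) (qq_dnP_mem B _))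

theorem qq_i0 (hID : S_ID k R) (e : Bool) (A B : FO k R F) (hA : A.fd) : I0 A B ≤ QQ e A B := by
  rintro _ ⟨g, hg, rfl⟩
  let b := Module.finBasis F A.X
  have h2 : g ∘ₗ iI A.X = ∑ j, (g ∘ₗ qq_dnI A (b j)) ∘ₗ (qq_upI A (b.coord j) ∘ₗ iI A.X) := by
    refine LinearMap.ext fun t => ?_
    have h3 : iI A.X t = ∑ j, qq_dnI A (b j) (qq_upI A (b.coord j) (iI A.X t)) :=
      CoInd.ext fun r => ((CoInd.sum_apply _ _ r).trans (b.sum_repr (r • t))).symm
    rw [LinearMap.sum_apply]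
    exact (congrArg g h3).trans (map_sum _ _ _)
  rw [h2]
  exact sum_mem fun j _ => qq_gen0 e (HomF.comp (qq_upI_mem A _) (hID.iI_mem F A))
    (HomF.comp hg (qq_dnI_mem A _))

theorem qq_tw (hID : S_ID k R) (hTW : S_TW k R) (e : Bool) (A B : FO k R F) (σ : F ≃ₐ[k] F) :
    ∀ f ∈ QQ e A B, f ∈ QQ e (A.tw σ) (B.tw σ) := by
  refine qq_ind e (fun i a ha b hb => ?_) (zero_mem (QQ e (A.tw σ) (B.tw σ)))
    fun f g hf hg => add_mem (S := Submodule F ((A.tw σ).X →ₗ[R] (B.tw σ).X)) hf hg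
  have h1 := hTW.one F T0N 0 σ
  rw [map_zero] at h1
  have h2 := hID.iso_map F (Tn e i) _ _ h1
  rw [← hTW.afun] at h2
  obtain ⟨u, hu, hb'⟩ := h2
  obtain ⟨v, hv, e1, -⟩ := hID.iso_inv F _ _ u hu hb'
  have h3 := qq_gen e i (HomF.comp hu ((hTW.mem F _ _ σ a).1 ha))
    (HomF.comp ((hTW.mem F _ _ σ b).1 hb) hv)
  have e2 : ((b : (((Tn e i).onF (T0F k R F)).tw σ).X →ₗ[R] (B.tw σ).X) ∘ₗ v) ∘ₗ
      (u ∘ₗ (a : (A.tw σ).X →ₗ[R] (((Tn e i).onF (T0F k R F)).tw σ).X)) = b ∘ₗ a :=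
    LinearMap.ext fun t => congrArg b (LinearMap.congr_fun e1 (a t))
  exact e2 ▸ h3

theorem qq_sum (e : Bool) (A B : FO k R F) : ∀ f ∈ QQ e A B,
    ∃ (n : ℕ) (m : Fin n → ℕ) (a : ∀ i, A.X →ₗ[R] ((Tn e (m i)).onF (T0F k R F)).X)
      (b : ∀ i, ((Tn e (m i)).onF (T0F k R F)).X →ₗ[R] B.X),
      (∀ i, a i ∈ HomF A ((Tn e (m i)).onF (T0F k R F))) ∧
      (∀ i, b i ∈ HomF ((Tn e (m i)).onF (T0F k R F)) B) ∧ f = ∑ i, b i ∘ₗ a i := by
  intro f hf
  have key : ∃ l : List (Σ m : ℕ, HomF A ((Tn e m).onF (T0F k R F)) ×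
      HomF ((Tn e m).onF (T0F k R F)) B), f = (l.map fun x => x.2.2.1 ∘ₗ x.2.1.1).sum := by
    refine qq_ind e (p := fun f => ∃ l : List (Σ m : ℕ, HomF A ((Tn e m).onF (T0F k R F)) ×
      HomF ((Tn e m).onF (T0F k R F)) B), f = (l.map fun x => x.2.2.1 ∘ₗ x.2.1.1).sum)
      (fun i a ha b hb => ⟨[⟨i, ⟨a, ha⟩, ⟨b, hb⟩⟩], by simp⟩) ⟨[], rfl⟩ ?_ f hf
    rintro _ _ ⟨l, rfl⟩ ⟨l', rfl⟩
    exact ⟨l ++ l', by rw [List.map_append, List.sum_append]⟩
  obtain ⟨l, rfl⟩ := key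
  refine ⟨l.length, fun i => (l.get i).1, fun i => (l.get i).2.1.1, fun i => (l.get i).2.2.1,
    fun i => (l.get i).2.1.2, fun i => (l.get i).2.2.2, ?_⟩
  rw [← Fin.sum_univ_fun_getElem l fun x => x.2.2.1 ∘ₗ x.2.1.1]
  rfl

omit [FiniteDimensional k R] in
theorem qq_t0p (A B : FO k R F) : ∀ a ∈ HomF A (T0F k R F),
    ∀ b ∈ HomF (T0F k R F) B, b ∘ₗ a ∈ P0 A B ⊔ I0 A B := by
  intro a ha b hb
  let β : B.X := b (((1 : R) ⊗ₜ[k] (1 : F), 0) : (R ⊗[k] F) × CoInd k R F)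
  let l : A.X →ₗ[F] F :=
    { toFun := fun t => (a t).2 1
      map_add' := fun t t' => by rw [map_add]; rfl
      map_smul' := fun c t => by rw [ha c t]; rfl }
  have e1 : pP B.X ∘ₗ Pmap (qq_sp B β) = b ∘ₗ LinearMap.inl R (R ⊗[k] F) (CoInd k R F) :=
    P_ext fun c => by
      have h1 := hb c (((1 : R) ⊗ₜ[k] (1 : F), 0) : (R ⊗[k] F) × CoInd k R F)
      have h2 : (T0F k R F).act c (((1 : R) ⊗ₜ[k] (1 : F), 0) : (R ⊗[k] F) × CoInd k R F) =
          (((1 : R) ⊗ₜ[k] c, 0) : (R ⊗[k] F) × CoInd k R F) := by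
        rw [qq_act, map_zero, Pmap_tmul]
        exact Prod.ext (congrArg (fun x : F => (1 : R) ⊗ₜ[k] x) (mul_one c)) rfl
      refine (congrArg (Pmul k R B.X) (Pmap_tmul (qq_sp B β) (1 : R) c)).trans ?_
      refine (Pmul_tmul _ _).trans ((one_smul _ _).trans ?_)
      exact h1.symm.trans (congrArg b h2)
  have e2 : b ∘ₗ a = pP B.X ∘ₗ (qq_dnP B β ∘ₗ a) + (b ∘ₗ qq_upI A l) ∘ₗ iI A.X := by
    refine LinearMap.ext fun t => ?_
    have h1 : pP B.X (qq_dnP B β (a t)) = b (((a t).1, 0) : (R ⊗[k] F) × CoInd k R F) :=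
      LinearMap.congr_fun e1 (a t).1
    have h2 : qq_upI A l (iI A.X t) = ((0, (a t).2) : (R ⊗[k] F) × CoInd k R F) :=
      Prod.ext rfl (CoInd.ext fun r => by
        change (a (r • t)).2 1 = (a t).2 r
        rw [map_smul]
        exact congrArg (a t).2 (one_mul r))
    change b (a t) = pP B.X (qq_dnP B β (a t)) + b (qq_upI A l (iI A.X t))
    rw [h1, h2]
    exact (congrArg b (Prod.ext (add_zero _).symm (zero_add _).symm)).trans (map_add b _ _)
  rw [e2]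
  exact Submodule.add_mem_sup ⟨_, HomF.comp (qq_dnP_mem B β) ha, rfl⟩
    ⟨_, HomF.comp hb (qq_upI_mem A l), rfl⟩

end

theorem t_QQ (k : Type u) [Field k] [IsAlgClosed k] (R : Type u) [Ring R] [Algebra k R]
    [FiniteDimensional k R]
    (hID : ∀ (S : Type u) [Ring S] [Algebra k S] [FiniteDimensional k S], S_ID k S)
    (hTW : ∀ (S : Type u) [Ring S] [Algebra k S] [FiniteDimensional k S], S_TW k S) :
    S_QQ k R :=
  { le F _ _ e A B := qq_ind e (fun _ _ ha _ hb => HomF.comp hb ha) (zero_mem _)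
      fun _ _ => add_mem
    l F _ _ e A B C f hf g hg := qq_ind e (p := fun f => g ∘ₗ f ∈ QQ e A C)
      (fun i _ ha _ hb => qq_gen e i ha (HomF.comp hg hb))
      (by rw [LinearMap.comp_zero]; exact zero_mem _)
      (fun _ _ h h' => by rw [LinearMap.comp_add]; exact add_mem h h') f hf
    r F _ _ e A B C f hf g hg := qq_ind e (p := fun f => f ∘ₗ g ∈ QQ e A C)
      (fun i _ ha _ hb => qq_gen e i (HomF.comp ha hg) hb)
      (by rw [LinearMap.zero_comp]; exact zero_mem _)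
      (fun _ _ h h' => by rw [LinearMap.add_comp]; exact add_mem h h') f hf
    p0 F _ _ := qq_p0 (hID R)
    i0 F _ _ := qq_i0 (hID R)
    te F _ _ e A B := qq_ind e (p := fun f => (Te e).map f ∈ QQ e ((Te e).onF A) ((Te e).onF B))
      (fun i a ha b hb => by
        rw [(Te e).map_comp]
        have h1 : (Te e).map a ∈ HomF ((Te e).onF A) ((Tn e (i + 1)).onF (T0F k R F)) :=
          (Te e).map_mem ha
        have h2 : (Te e).map b ∈ HomF ((Tn e (i + 1)).onF (T0F k R F)) ((Te e).onF B) :=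
          (Te e).map_mem hb
        exact qq_gen e (i + 1) h1 h2)
      (by rw [map_zero]; exact zero_mem (QQ e ((Te e).onF A) ((Te e).onF B)))
      fun _ _ h h' => by
        rw [map_add]
        exact (QQ e ((Te e).onF A) ((Te e).onF B)).add_mem h h'
    tw F _ _ := qq_tw (hID R) (hTW R)
    sum F _ _ := qq_sum
    t0p F _ _ := qq_t0p }

end Pool.Agent.P.MP_cf639b_al
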