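import Pool.Agent.P.MP_cf639b_al.Iface

set_option linter.dupNamespace false

namespace Pool.Agent.P.MP_cf639b_al

universe u v
open TensorProduct Polynomial Function

noncomputable section
variable {k : Type u} [Field k] {R : Type u} [Ring R] [Algebra k R]
  {F : Type u} [Field F] [Algebra k F] {q : F[X]} (hq : q.Monic)

theorem rep_mul (q p : F[X]) : q * (p /ₘ q) = p - p %ₘ q :=
  eq_sub_of_add_eq' (modByMonic_add_div p q)

/-- division as a linear map -/
def rep_dv : F[X] →ₗ[F] F[X] where
  toFun p := p /ₘ q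
  map_add' p p' := mul_left_cancel₀ hq.ne_zero (by
    rw [mul_add, rep_mul, rep_mul, rep_mul, add_modByMonic]; abel)
  map_smul' c p := mul_left_cancel₀ hq.ne_zero (by
    rw [RingHom.id_apply, mul_smul_comm, rep_mul, rep_mul, smul_modByMonic, smul_sub])

theorem rep_dq (p : F[X]) : rep_dv hq (q * p) = p := mul_divByMonic_cancel_left p hq

theorem rep_X (p : F[X]) : rep_dv hq (X * p) = X * rep_dv hq p + C (lamQ hq (Qmk q p)) := by
  refine (div_modByMonic_unique _ (X * (p %ₘ q) - C (lamQ hq (Qmk q p)) * q) hq ⟨?_, ?_⟩).1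
  · change _ + q * (X * (p /ₘ q) + _) = _
    rw [mul_add, mul_left_comm, rep_mul]; ring
  · have h := degree_modByMonic_lt p hq
    rw [degree_eq_natDegree hq.ne_zero, degree_lt_iff_coeff_zero] at h ⊢
    intro m hm
    rw [coeff_sub, coeff_C_mul, lamQ_mk]
    rcases m with _ | m
    · rw [coeff_X_mul_zero, h _ (by omega), zero_mul, sub_zero]
    rw [coeff_X_mul]
    rcases hm.eq_or_lt with e | e
    · rw [← e, hq.coeff_natDegree, e, mul_one, Nat.add_sub_cancel, sub_self]
    · rw [h m (by omega), coeff_eq_zero_of_natDegree_lt e, mul_zero, sub_zero]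

theorem rep_pow (p : F[X]) (i : ℕ) : rep_dv hq (X ^ i * p) = X ^ i * rep_dv hq p +
    ∑ l ∈ Finset.range i, lamQ hq (Qmk q (p * X ^ (i - 1 - l))) • X ^ l := by
  induction i with
  | zero => simp
  | succ i ih =>
    rw [pow_succ', mul_assoc, rep_X, ih, Finset.sum_range_succ', mul_add, Finset.mul_sum, add_assoc,
      mul_assoc, pow_zero, smul_eq_C_mul, mul_one, mul_comm p]
    congr 2
    refine Finset.sum_congr rfl fun l _ => ?_
    rw [mul_smul_comm, ← pow_succ', show i + 1 - 1 - (l + 1) = i - 1 - l by omega]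

theorem rep_dual (v : QT q) : v = ∑ i ∈ Finset.range (q.natDegree + 1), ∑ l ∈ Finset.range i,
    (q.coeff i * lamQ hq (Qmk q (X ^ (i - 1 - l)) * v)) • Qmk q (X ^ l) := by
  obtain ⟨p, rfl⟩ := Ideal.Quotient.mk_surjective v
  have e : ∀ r : F[X], q * r = ∑ i ∈ Finset.range (q.natDegree + 1), q.coeff i • (X ^ i * r) :=
    fun r => by
      conv_lhs => rw [q.as_sum_range_C_mul_X_pow, Finset.sum_mul]
      simp only [smul_eq_C_mul, mul_assoc]
  have h := rep_dq hq p
  rw [e, map_sum] at h
  simp only [map_smul, rep_pow, smul_add, Finset.sum_add_distrib, ← e] at h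
  have h2 := congrArg (Ideal.Quotient.mkₐ F (Ideal.span {q})) h
  rw [map_add, map_mul, Ideal.Quotient.mkₐ_eq_mk,
    Ideal.Quotient.eq_zero_iff_mem.2 (Ideal.mem_span_singleton_self q), zero_mul, zero_add,
    ← Ideal.Quotient.mkₐ_eq_mk F] at h2
  simp only [map_sum, map_smul, Finset.smul_sum, smul_smul] at h2
  simpa only [Ideal.Quotient.mkₐ_eq_mk, map_mul, mul_comm] using h2.symm

theorem rep_lam {q' Q : F[X]} (hQ : Q.Monic) (h : Q = q' * q) (p : F[X]) :
    lamQ hQ (Qmk Q (q' * p)) = lamQ hq (Qmk q p) := by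
  have e : ∀ p, rep_dv hQ (q' * p) = rep_dv hq p := fun p => by
    refine (div_modByMonic_unique _ (q' * (p %ₘ q)) hQ ⟨?_, ?_⟩).1
    · rw [h, mul_assoc, ← mul_add]
      exact congrArg _ (modByMonic_add_div p q)
    · rw [h, degree_mul, degree_mul]
      exact WithBot.add_lt_add_left (degree_ne_bot.2 (left_ne_zero_of_mul (h ▸ hQ.ne_zero)))
        (degree_modByMonic_lt p hq)
  have := rep_X hQ (q' * p)
  rw [mul_left_comm, e, e, rep_X, add_right_inj, C_inj] at this
  exact this.symm

variable (A : FO k R F)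

/-- the action of polynomials -/
def rep_P : F[X] →ₐ[F] Module.End F (ℕ →₀ A.X) := aeval (shift F A.X)

theorem rep_PX (p : F[X]) (z) : rep_P A (X * p) z = shift R A.X (rep_P A p z) := by
  rw [map_mul, rep_P, aeval_X]; rfl

theorem rep_PC (c : F) (z) : rep_P A (C c) z = c • z := by rw [rep_P, aeval_C]; rfl

theorem rep_Ppow (i : ℕ) (z) : rep_P A (X ^ i) z = (shift R A.X ^ i) z := by
  induction i with
  | zero => simp
  | succ i ih => rw [pow_succ', rep_PX, ih, pow_succ', Module.End.mul_apply]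

theorem rep_Ps (p : F[X]) (r : R) (z) : rep_P A p (r • z) = r • rep_P A p z := by
  induction p using Polynomial.induction_on with
  | C c => rw [rep_PC, rep_PC, smul_comm]
  | add p p' h h' => simp only [map_add, LinearMap.add_apply, h, h', smul_add]
  | monomial n c h => rw [pow_succ', mul_left_comm, rep_PX, rep_PX, h, map_smul]

theorem rep_DP (d : Fam R) (p : F[X]) (z : Fin d.n0 → ℕ →₀ A.X) :
    DX d A.X (fun b => rep_P A p (z b)) = fun a => rep_P A p (DX d A.X z a) :=
  Dop_nat d _ _ ⟨⟨rep_P A p, map_add _⟩, rep_Ps A p⟩ (LinearMap.ext fun z => by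
    refine Eq.trans ?_ (rep_PX A p z)
    rw [mul_comm, map_mul, Module.End.mul_apply, ← mul_one X, rep_PX, map_one]; rfl) z

theorem rep_pol (d : Fam R) (p : F[X]) (z : Fin d.n1 → ℕ →₀ A.X) :
    polE d A p (Emk d A.X z) = Emk d A.X fun a => rep_P A p (z a) := by
  induction p using Polynomial.induction_on with
  | C c => simp only [rep_PC]; rw [polE, aeval_C]; rfl
  | add p p' h h' =>
    rw [polE, map_add, LinearMap.add_apply, ← polE, ← polE, h, h', ← map_add, map_add (rep_P A)]
    rfl
  | monomial n c h =>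
    simp only [pow_succ', mul_left_comm (C c), rep_PX]
    rw [← EX_mk, ← h, polE, map_mul, aeval_X]; rfl

/-- the residue pairing -/
def rep_res : (ℕ →₀ A.X) →ₗ[F] QT q →ₗ[F] A.X :=
  Finsupp.lsum F fun l => LinearMap.smulRightₗ (lamQ hq ∘ₗ LinearMap.mulLeft F (Qmk q (X ^ l)))

theorem rep_res1 (l t v) :
    rep_res hq A (Finsupp.single l t) v = lamQ hq (Qmk q (X ^ l) * v) • t := by simp [rep_res]

theorem rep_res_eq (z v) :
    rep_res hq A z v = z.sum fun l t => lamQ hq (Qmk q (X ^ l) * v) • t := by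
  rw [rep_res, Finsupp.lsum_apply, LinearMap.finsupp_sum_apply]; rfl

theorem rep_resP (p : F[X]) (z v) :
    rep_res hq A (rep_P A p z) v = rep_res hq A z (Qmk q p * v) := by
  induction p using Polynomial.induction_on generalizing v with
  | C c => rw [rep_PC, map_smul, LinearMap.smul_apply, ← map_smul, Algebra.smul_def c v]; rfl
  | add p p' h h' => simp only [map_add, LinearMap.add_apply, h, h', add_mul]
  | monomial n c h =>
    rw [pow_succ', mul_left_comm, rep_PX, map_mul (Qmk q), mul_comm (Qmk q X), mul_assoc, ← h]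
    induction rep_P A (C c * X ^ n) z using Finsupp.induction_linear with
    | zero => simp
    | add x y hx hy => simp only [map_add, LinearMap.add_apply, hx, hy]
    | single l t => rw [shift_single, rep_res1, rep_res1, pow_succ, map_mul (Qmk q), mul_assoc]

theorem rep_resq (z v) : rep_res hq A (rep_P A q z) v = 0 := by
  rw [rep_resP, Ideal.Quotient.eq_zero_iff_mem.2 (Ideal.mem_span_singleton_self q), zero_mul,
    map_zero]

theorem rep_ress (r : R) (z v) : rep_res hq A (r • z) v = r • rep_res hq A z v := by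
  induction z using Finsupp.induction_linear with
  | zero => simp
  | add x y hx hy => simp only [map_add, LinearMap.add_apply, hx, hy, smul_add]
  | single l t => rw [Finsupp.smul_single, rep_res1, rep_res1, smul_comm]

theorem rep_surj (g : QT q →ₗ[F] A.X) : ∃ z, ∀ v, rep_res hq A z v = g v := by
  refine ⟨∑ i ∈ Finset.range (q.natDegree + 1), ∑ l ∈ Finset.range i,
    Finsupp.single (i - 1 - l) (q.coeff i • g (Qmk q (X ^ l))), fun v => ?_⟩
  conv_rhs => rw [rep_dual hq v]
  simp only [map_sum, LinearMap.sum_apply, rep_res1, map_smul, smul_smul, mul_comm]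

/-- the quotient modulo `q` -/
def rep_Q : (ℕ →₀ A.X) →ₗ[F] ℕ →₀ A.X :=
  Finsupp.lsum F fun l => rep_P A (rep_dv hq (X ^ l)) ∘ₗ Finsupp.lsingle 0

theorem rep_Q1 (l t) :
    rep_Q hq A (Finsupp.single l t) = rep_P A (rep_dv hq (X ^ l)) (Finsupp.single 0 t) := by
  simp [rep_Q]

theorem rep_P1 (l t) : rep_P A (X ^ l) (Finsupp.single 0 t) = Finsupp.single l t := by
  rw [rep_Ppow, shift_pow_single, zero_add]

theorem rep_Qs (r : R) (z) : rep_Q hq A (r • z) = r • rep_Q hq A z := by
  induction z using Finsupp.induction_linear with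
  | zero => simp
  | add x y hx hy => simp only [map_add, hx, hy, smul_add]
  | single l t => rw [Finsupp.smul_single, rep_Q1, rep_Q1, ← rep_Ps, Finsupp.smul_single]

theorem rep_Qq (z) : rep_Q hq A (rep_P A q z) = z := by
  have h : ∀ t p, rep_Q hq A (rep_P A p (Finsupp.single 0 t)) =
      rep_P A (rep_dv hq p) (Finsupp.single 0 t) := fun t p => by
    induction p using Polynomial.induction_on' with
    | add p p' h h' => simp only [map_add, LinearMap.add_apply, h, h']
    | monomial n c =>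
      simp only [← smul_X_eq_monomial, map_smul, LinearMap.smul_apply, rep_P1, rep_Q1]
  induction z using Finsupp.induction_linear with
  | zero => simp
  | add x y hx hy => simp only [map_add, hx, hy]
  | single l t => rw [← rep_P1, ← Module.End.mul_apply (rep_P A q), ← map_mul, h, rep_dq]

theorem rep_Qpow (i : ℕ) (z) : rep_Q hq A ((shift R A.X ^ i) z) = (shift R A.X ^ i) (rep_Q hq A z) +
    ∑ l ∈ Finset.range i, Finsupp.single l (rep_res hq A z (Qmk q (X ^ (i - 1 - l)))) := by
  induction z using Finsupp.induction_linear with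
  | zero => simp
  | add x y hx hy =>
    simp only [map_add, hx, hy, LinearMap.add_apply, Finsupp.single_add, Finset.sum_add_distrib]
    abel
  | single l t =>
    rw [shift_pow_single, rep_Q1, rep_Q1, add_comm l, pow_add, rep_pow, ← rep_Ppow]
    simp only [map_add, map_mul (rep_P A), map_sum, map_smul, LinearMap.add_apply,
      LinearMap.sum_apply, LinearMap.smul_apply, rep_P1, rep_res1, Finsupp.smul_single,
      Module.End.mul_apply, map_mul (Qmk q)]

theorem rep_conv {z} (h : ∀ v, rep_res hq A z v = 0) : rep_P A q (rep_Q hq A z) = z := by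
  have e : ∀ p, rep_Q hq A (rep_P A p z) = rep_P A p (rep_Q hq A z) := fun p => by
    induction p using Polynomial.induction_on' with
    | add p p' h h' => simp only [map_add, LinearMap.add_apply, h, h']
    | monomial n c =>
      simp only [← smul_X_eq_monomial, map_smul, LinearMap.smul_apply, rep_Ppow, rep_Qpow, h,
        Finsupp.single_zero, Finset.sum_const_zero, add_zero]
  rw [← e, rep_Qq]

variable (d : Fam R)

theorem rep_xpow (q : F[X]) (i : ℕ) (v : QT q) :
    (LinearMap.mulLeft k (Qmk q X) ^ i) v = Qmk q (X ^ i) * v := by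
  rw [LinearMap.pow_mulLeft, map_pow]; rfl

theorem rep_resD (z : Fin d.n0 → ℕ →₀ A.X) (a v) : rep_res hq A (DX d A.X z a) v =
    ∑ i ∈ Finset.range (d.r + 1), ∑ b, d.c i a b • rep_res hq A (z b) (((Jq k q).V.x ^ i) v) := by
  simp only [Dop_apply, map_sum, LinearMap.sum_apply, rep_ress, ← rep_Ppow, rep_resP, rep_xpow]

theorem rep_key {z : Fin d.n0 → ℕ →₀ A.X} {a : M d (Jq k q).V →ₗ[R] A.X}
    (h : ∀ b v, a (gen d (Jq k q).V b v) = rep_res hq A (z b) v) :
    Bock d (Jq k q).V a (1 : QT q) = Emk d A.X fun a' => rep_Q hq A (DX d A.X z a') := by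
  rw [Bock_apply, eq_comm, ← sub_eq_zero, ← map_sub, Emk_eq_zero]
  refine ⟨fun b => rep_Q hq A (z b), funext fun a' => eq_sub_of_add_eq ?_⟩
  simp only [Dop_apply, map_sum, rep_Qs, rep_Qpow, h, rep_xpow, mul_one, smul_add,
    Finset.sum_add_distrib, Finset.smul_sum, Finsupp.smul_single]
  congr 1
  exact Finset.sum_congr rfl fun i _ => Finset.sum_comm

theorem rep_ex (z : Fin d.n0 → ℕ →₀ A.X) (h : ∀ a v, rep_res hq A (DX d A.X z a) v = 0) :
    ∃ a ∈ HomF (MF d (Jq k q)) A, ∀ b v, a (gen d (Jq k q).V b v) = rep_res hq A (z b) v := by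
  have e := Mlift_gen d (Jq k q).V (T := A.X) (fun b => (rep_res hq A (z b)).restrictScalars k)
    fun a v => (rep_resD hq A d z a v).symm.trans (h a v)
  refine ⟨_, mem_HomF'.2 fun c => M_ext fun b v => ?_, e⟩
  rw [LinearMap.comp_apply, LinearMap.comp_apply, NF.actF_apply, map_gen, e, e]
  exact (congrArg _ (Algebra.smul_def c (v : QT q)).symm).trans (map_smul (rep_res hq A (z b)) c v)

theorem rep_ker (a) (ha : a ∈ HomF (MF d (Jq k q)) A) (h : Bock d (Jq k q).V a (1 : QT q) = 0) :
    ∃ z : Fin d.n0 → ℕ →₀ A.X, DX d A.X z = 0 ∧ IsRes d hq A a z := by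
  choose z hz using fun b => rep_surj hq A ⟨⟨fun v => a (gen d (Jq k q).V b v), fun v w => by
    rw [map_add, map_add]⟩, fun c v => by
      refine Eq.trans ?_ (LinearMap.congr_fun (mem_HomF'.1 ha c) (gen d (Jq k q).V b v))
      rw [LinearMap.comp_apply, NF.actF_apply, map_gen, Algebra.smul_def c v]
      rfl⟩
  replace hz : ∀ b v, a (gen d (Jq k q).V b v) = rep_res hq A (z b) v := fun b v => (hz b v).symm
  rw [rep_key hq A d hz, Emk_eq_zero] at h
  obtain ⟨w, hw⟩ := h
  refine ⟨z - fun b => rep_P A q (w b), ?_, fun b v => ?_⟩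
  · rw [map_sub, rep_DP, hw, sub_eq_zero]
    refine funext fun a' => (rep_conv hq A fun v => ?_).symm
    simp only [rep_resD, ← hz, ← map_smul a, ← map_sum a, gen_rel, map_zero]
  · rw [← rep_res_eq, Pi.sub_apply, map_sub, LinearMap.sub_apply, rep_resq, sub_zero, hz]

end

theorem t_REP (k : Type u) [Field k] [IsAlgClosed k] (R : Type u) [Ring R] [Algebra k R]
    [FiniteDimensional k R]
    (hBOCK : ∀ (S : Type u) [Ring S] [Algebra k S] [FiniteDimensional k S], S_BOCK k S) :
    S_REP k R := by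
  have B := hBOCK R
  have rep : ∀ (F : Type u) [Field F] [Algebra k F] (d : Fam R) (A : FO k R F) (q : F[X]),
      q.Monic → ∀ u : EE d A.X, polE d A q u = 0 →
      ∃ a ∈ HomF (MF d (Jq k q)) A, u = Bock d (Jq k q).V a (1 : QT q) := by
    intro F _ _ d A q hq u hu
    obtain ⟨η, rfl⟩ := Emk_surj d _ u
    rw [rep_pol, Emk_eq_zero] at hu
    obtain ⟨z, hz⟩ := hu
    obtain ⟨a, h1, h2⟩ := rep_ex hq A d z fun a v => by rw [hz, rep_resq]
    refine ⟨a, h1, ?_⟩
    simp only [rep_key hq A d h2, hz, rep_Qq]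
  have res : ∀ (F : Type u) [Field F] [Algebra k F] (d : Fam R) (A : FO k R F) (q : F[X])
      (hq : q.Monic) (z : Fin d.n0 → ℕ →₀ A.X), DX d A.X z = 0 →
      ∃ a ∈ HomF (MF d (Jq k q)) A, IsRes d hq A a z ∧ Bock d (Jq k q).V a = 0 := by
    intro F _ _ d A q hq z hz
    obtain ⟨a, h1, h2⟩ := rep_ex hq A d z fun a v => by simp [hz]
    refine ⟨a, h1, fun b v => (h2 b v).trans (rep_res_eq ..), LinearMap.ext fun v => ?_⟩
    obtain ⟨p, rfl⟩ := Ideal.Quotient.mk_surjective v
    rw [B.jq F d q p A a h1, rep_key hq A d h2, hz]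
    simp only [Pi.zero_apply, map_zero, LinearMap.zero_apply]
    exact (congrArg _ (map_zero (Emk d A.X))).trans (map_zero _)
  have repJ : ∀ (F : Type u) [Field F] [Algebra k F] (d : Fam R) (A : FO k R F) (y : F) (n : ℕ)
      (u : EE d A.X), (piE d A y ^ n) u = 0 →
      ∃ a ∈ HomF (MF d (J k y n)) A, u = Emap d a (eJ d y n) := by
    intro F _ _ d A y n u hu
    obtain ⟨a, h1, h2⟩ := rep F d A _ (Jmonic y n) u (by rwa [B.piE_pol])
    exact ⟨a, h1, h2.trans (B.eq ..)⟩
  refine ⟨rep, res, fun F _ _ d A q hq => rep_ker hq A d, ?_, repJ, fun d T p n u hu => ?_⟩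
  · intro F _ _ d A y n m hnm a ha h
    obtain ⟨z, h1, h2⟩ := rep_ker (Jmonic y n) A d a ha h
    obtain ⟨a', h3, h4, h5⟩ := res F d A _ (Jmonic y m) z h1
    refine ⟨a', h3, M_ext fun b v => ?_, h5⟩
    obtain ⟨p, rfl⟩ := Ideal.Quotient.mk_surjective v
    rw [LinearMap.comp_apply, map_gen, jm_mk, h4, h2]
    refine Finsupp.sum_congr fun l _ => ?_
    rw [← map_mul, ← map_mul, mul_left_comm,
      rep_lam (Jmonic y n) (Jmonic y m) (by rw [← pow_add, Nat.sub_add_cancel hnm])]
  · obtain ⟨a, -, h⟩ := repJ k d (FO.ofMd T) p n u (by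
      rw [← B.piE_k k d p (FO.ofMd T)] at hu; exact hu)
    exact ⟨a, h⟩

end Pool.Agent.P.MP_cf639b_al
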