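import Pool.Agent.P.MP_cf639b_al.Iface

set_option linter.dupNamespace false

namespace Pool.Agent.P.MP_cf639b_al

universe u v
open TensorProduct Polynomial Function

theorem sames_split {k : Type u} [Field k] (V : XV k) (hV : Nontrivial V) (h : KSp V) :
    ∃ (i : XH (one k (RatFunc.X : RatFunc k)).V V) (p : XH V (one k (RatFunc.X : RatFunc k)).V),
      XH.comp p i = XH.id _ := by
  haveI hL : IsLocalizedModule (nonZeroDivisors k[X])
      (LinearMap.id : Module.AEval' V.x →ₗ[k[X]] Module.AEval' V.x) :=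
    { map_units := fun q => (Module.End.isUnit_iff _).2 (h q.1 (nonZeroDivisors.ne_zero q.2))
      surj := fun y => ⟨(y, 1), one_smul _ _⟩
      exists_of_eq := fun e => ⟨1, congrArg _ e⟩ }
  letI : Module (RatFunc k) (Module.AEval' V.x) :=
    IsLocalizedModule.module (nonZeroDivisors k[X])
      (LinearMap.id : Module.AEval' V.x →ₗ[k[X]] Module.AEval' V.x)
  haveI : IsScalarTower k[X] (RatFunc k) (Module.AEval' V.x) :=
    IsLocalizedModule.isScalarTower_module (nonZeroDivisors k[X])
      (LinearMap.id : Module.AEval' V.x →ₗ[k[X]] Module.AEval' V.x)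
  have hk : ∀ (c : k) (m : Module.AEval' V.x), algebraMap k (RatFunc k) c • m = c • m := by
    intro c m
    rw [IsScalarTower.algebraMap_apply k k[X] (RatFunc k), algebraMap_smul, algebraMap_smul]
  have hx : ∀ v : V, (RatFunc.X : RatFunc k) • Module.AEval'.of V.x v =
      Module.AEval'.of V.x (V.x v) := by
    intro v
    rw [← RatFunc.algebraMap_X, algebraMap_smul, Module.AEval'.X_smul_of]
  obtain ⟨v0, hv⟩ := exists_ne (0 : V)
  have hv' : Module.AEval'.of V.x v0 ≠ 0 := hv
  let i := LinearMap.toSpanSingleton (RatFunc k) _ (Module.AEval'.of V.x v0)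
  obtain ⟨p, hp⟩ := i.exists_leftInverse_of_injective
    (LinearMap.ker_toSpanSingleton (RatFunc k) hv')
  let i' : RatFunc k →ₗ[k] V :=
    { toFun := fun a => (Module.AEval'.of V.x).symm (i a)
      map_add' := fun a b => by rw [map_add, map_add]
      map_smul' := fun c a => by
        rw [Algebra.smul_def, ← smul_eq_mul, map_smul, hk, map_smul]
        rfl }
  let p' : V →ₗ[k] RatFunc k :=
    { toFun := fun v => p (Module.AEval'.of V.x v)
      map_add' := fun a b => by rw [map_add, map_add]
      map_smul' := fun c a => by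
        rw [map_smul, ← hk, map_smul, smul_eq_mul, ← Algebra.smul_def]
        rfl }
  have e1 : ∀ a : RatFunc k, i' (RatFunc.X * a) = V.x (i' a) := fun a => by
    change (Module.AEval'.of V.x).symm (i (RatFunc.X * a)) =
      V.x ((Module.AEval'.of V.x).symm (i a))
    rw [← smul_eq_mul, map_smul]
    exact hx _
  have e2 : ∀ v : V, p' (V.x v) = RatFunc.X * p' v := fun v => by
    change p (Module.AEval'.of V.x (V.x v)) = RatFunc.X * p (Module.AEval'.of V.x v)
    rw [← hx, map_smul, smul_eq_mul]
  have e3 : ∀ a : RatFunc k, p' (i' a) = a := fun a => LinearMap.congr_fun hp a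
  exact ⟨⟨i', LinearMap.ext e1⟩, ⟨p', LinearMap.ext e2⟩, Subtype.ext (LinearMap.ext e3)⟩

theorem t_SAMES (k : Type u) [Field k] [IsAlgClosed k] (R : Type u) [Ring R] [Algebra k R]
    [FiniteDimensional k R]
    (hPP : ∀ (S : Type u) [Ring S] [Algebra k S] [FiniteDimensional k S], S_PP k S)
    (hCC : ∀ (S : Type u) [Ring S] [Algebra k S] [FiniteDimensional k S], S_CC k S)
    (hPG : ∀ (S : Type u) [Ring S] [Algebra k S] [FiniteDimensional k S], S_PG k S)
    (hAUT : S_AUT k) :
    S_SAMES k R := by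
  have h1 : ∀ (d : Fam R) (V : XV k), Nontrivial V → KSp V →
      SameS (M d V) (M d (one k (RatFunc.X : RatFunc k)).V) := by
    intro d V hV h π
    obtain ⟨i, p, e⟩ := sames_split V hV h
    refine ⟨(hPP R).cc _ _ π ((hCC R).ksp d V h),
      (hPP R).smd _ _ ((MN d).map i) ((MN d).map p) π ?_⟩
    rw [← (MN d).map_comp, e, (MN d).map_id]
  refine ⟨h1, fun d F _ _ y n hy => h1 d _ ?_ ((hPG R).kspJ F y (n + 1) hy)⟩
  refine Ideal.Quotient.nontrivial_iff.2 ?_
  rw [Ne, Ideal.span_singleton_eq_top]
  intro hu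
  exact Polynomial.not_isUnit_X_sub_C y ((isUnit_pow_iff (Nat.succ_ne_zero n)).1 hu)

end Pool.Agent.P.MP_cf639b_al
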