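import Pool.Agent.P.MP_cf639b_al.Iface

set_option linter.dupNamespace false

namespace Pool.Agent.P.MP_cf639b_al

universe u v
open TensorProduct Polynomial Function

noncomputable section

namespace St

variable {k : Type u} [Field k] {R : Type u} [Ring R] [Algebra k R]
variable {F : Type u} [Field F] [Algebra k F]
variable {V V' : Type u} [AddCommGroup V] [Module k V] [AddCommGroup V'] [Module k V']

/-- an action from its values -/
def mkAct {E : Type u} [Ring E] [Algebra k E] (f : F → E) (h1 : f 1 = 1)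
    (hm : ∀ a b, f (a * b) = f a * f b) (ha : ∀ a b, f (a + b) = f a + f b)
    (hs : ∀ (c : k) a, f (c • a) = c • f a) : F →ₐ[k] E :=
  AlgHom.ofLinearMap ⟨⟨f, ha⟩, hs⟩ h1 hm

/-- the action on the underlying vector space -/
def kact (A : FO k R F) : F →ₐ[k] Module.End k A.X :=
  mkAct (E := Module.End k A.X) (fun a => (A.act a).restrictScalars k) (by rw [map_one]; rfl)
    (fun a b => by rw [map_mul]; rfl) (fun a b => by rw [map_add]; rfl)
    (fun a b => by rw [map_smul]; rfl)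

variable (R) in
/-- the action on `R ⊗ V` -/
def Pact (a : F →ₐ[k] Module.End k V) : F →ₐ[k] Module.End R (R ⊗[k] V) :=
  mkAct (E := Module.End R (R ⊗[k] V)) (fun c => Pmap (a c)) (by rw [map_one]; exact Pmap_id)
    (fun b c => by rw [map_mul]; exact Pmap_comp _ _) (fun b c => by rw [map_add, Pmap_add])
    (fun b c => by rw [map_smul, Pmap_smul])

variable (R) in
/-- the action on `Hom(R, V)` -/
def Iact (a : F →ₐ[k] Module.End k V) : F →ₐ[k] Module.End R (CoInd k R V) :=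
  mkAct (E := Module.End R (CoInd k R V)) (fun c => Imap (a c)) (by rw [map_one]; rfl) (fun b c => by rw [map_mul]; rfl)
    (fun b c => by rw [map_add]; rfl) (fun b c => by rw [map_smul]; rfl)

variable (R) in
/-- projective objects -/
abbrev PF (a : F →ₐ[k] Module.End k V) : FO k R F := ⟨P R V, Pact R a⟩
variable (R) in
/-- injective objects -/
abbrev IF (a : F →ₐ[k] Module.End k V) : FO k R F := ⟨I R V, Iact R a⟩

theorem gi {B C : FO k R F} {q : C.X →ₗ[R] B.X} (hq : q ∈ HomF C B) : ∃ r : B.X →ₗ[k] C.X,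
    (∀ a t, r (B.act a t) = C.act a (r t)) ∧ ∀ t, q (r (q t)) = q t := by
  obtain ⟨r, hr⟩ := (HomF.lin hq).rangeRestrict.exists_rightInverse_of_surjective
    (LinearMap.range_rangeRestrict _)
  obtain ⟨l, hl⟩ := (LinearMap.range (HomF.lin hq)).subtype.exists_leftInverse_of_injective
    (Submodule.ker_subtype _)
  refine ⟨(r ∘ₗ l).restrictScalars k, fun a t => (r ∘ₗ l).map_smul a t, fun t => ?_⟩
  have h1 := LinearMap.congr_fun hl ⟨q t, t, rfl⟩
  have h2 := congrArg Subtype.val (LinearMap.congr_fun hr ⟨q t, t, rfl⟩)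
  exact (congrArg (fun z => q (r z)) h1).trans h2

theorem proj {a : F →ₐ[k] Module.End k V} {B C : FO k R F} {q : C.X →ₗ[R] B.X} (hq : q ∈ HomF C B)
    {g : R ⊗[k] V →ₗ[R] B.X} (hg : g ∈ HomF (PF R a) B) (h : ∀ z, ∃ t, q t = g z) :
    ∃ s : R ⊗[k] V →ₗ[R] C.X, s ∈ HomF (PF R a) C ∧ q ∘ₗ s = g := by
  obtain ⟨r, r1, r2⟩ := gi hq
  refine ⟨Plift (r ∘ₗ g.restrictScalars k ∘ₗ Pin V), mem_HomF'.2 fun c => P_ext fun v => ?_,
    P_ext fun v => ?_⟩
  · have := LinearMap.congr_fun (mem_HomF'.1 hg c) ((1 : R) ⊗ₜ v)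
    change g (Pmap (a c) _) = B.act c (g _) at this
    change Plift (R := R) (r ∘ₗ g.restrictScalars k ∘ₗ Pin V) (Pmap (a c) ((1 : R) ⊗ₜ v)) =
      C.act c (Plift (R := R) (r ∘ₗ g.restrictScalars k ∘ₗ Pin V) ((1 : R) ⊗ₜ v))
    rw [Pmap_tmul] at this ⊢
    simp [this, r1]
  · obtain ⟨t, ht⟩ := h ((1 : R) ⊗ₜ v)
    simp [← ht, r2]

theorem inj {a : F →ₐ[k] Module.End k V} {B C : FO k R F} {q : B.X →ₗ[R] C.X} (hq : q ∈ HomF B C)
    {g : B.X →ₗ[R] CoInd k R V} (hg : g ∈ HomF B (IF R a)) (h : ∀ t, q t = 0 → g t = 0) :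
    ∃ s : C.X →ₗ[R] CoInd k R V, s ∈ HomF C (IF R a) ∧ s ∘ₗ q = g := by
  obtain ⟨r, r1, r2⟩ := gi hq
  refine ⟨Ilift (Iev V ∘ₗ g.restrictScalars k ∘ₗ r), mem_HomF'.2 fun c =>
    LinearMap.ext fun t => CoInd.ext fun x => ?_, LinearMap.ext fun t => CoInd.ext fun x => ?_⟩
  · change g (r (x • C.act c t)) 1 = a c (g (r (x • t)) 1)
    rw [← map_smul, r1]
    exact congrArg (fun z : CoInd k R V => z 1) (LinearMap.congr_fun (mem_HomF'.1 hg c) _)
  · change g (r (x • q t)) 1 = _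
    have := h (r (q (x • t)) - x • t) (by rw [map_sub, r2, sub_self])
    rw [map_sub, sub_eq_zero] at this
    rw [← map_smul, this]
    simp

variable [FiniteDimensional k R]

theorem nu_mem {a : F →ₐ[k] Module.End k V} {a' : F →ₐ[k] Module.End k V'}
    {f : R ⊗[k] V →ₗ[R] R ⊗[k] V'} :
    nu f ∈ HomF (IF R a) (IF R a') ↔ f ∈ HomF (PF R a) (PF R a') := by
  rw [mem_HomF', mem_HomF']
  refine forall_congr' fun c => ?_
  change nu f ∘ₗ Imap (a c) = Imap (a' c) ∘ₗ nu f ↔ f ∘ₗ Pmap (a c) = Pmap (a' c) ∘ₗ f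
  rw [← nu_Pmap, ← nu_Pmap, ← nu_comp, ← nu_comp]
  exact ⟨nu_inj, congrArg _⟩

theorem nu_surj (φ : CoInd k R V →ₗ[R] CoInd k R V') : ∃ f, nu f = φ := by
  let δ : Fin _ → V →ₗ[k] V' := fun i => Iev V' ∘ₗ φ.restrictScalars k ∘ₗ
    (LinearMap.smulRightₗ ((bR k R).coord i) : V →ₗ[k] R →ₗ[k] V)
  refine ⟨Plift (∑ i, TensorProduct.mk k R _ (bR k R i) ∘ₗ δ i), ?_⟩
  ext h s
  rw [nu_apply_of Finset.univ (bR k R) δ _ (fun v => by simp)]
  have e : s • h = ∑ i, CoInd.of (((bR k R).coord i).smulRight (h (bR k R i * s))) := by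
    ext x
    rw [CoInd.smul_apply, CoInd.sum_apply]
    conv_lhs => rw [← (bR k R).sum_repr x]
    simp only [Finset.sum_mul, smul_mul_assoc, map_sum, map_smul]
    rfl
  have e2 := congrArg (fun z => φ z 1) e
  simp only [map_smul, CoInd.smul_apply, one_mul, map_sum, CoInd.sum_apply] at e2
  exact e2.symm

variable (k R F) in
/-- complexes with an action of `F` -/
structure FC where
  X : EO k R
  a1 : F →ₐ[k] Module.End k X.V1
  a0 : F →ₐ[k] Module.End k X.V0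
  comm : ∀ c, X.d ∘ₗ Pmap (a1 c) = Pmap (a0 c) ∘ₗ X.d

namespace FC
variable (C D : FC k R F)
/-- a scalar as a chain map -/
def cm (c : F) : CM C.X C.X := ⟨Pmap (C.a1 c), Pmap (C.a0 c), C.comm c⟩
/-- the action on the cokernel -/
def hact : F →ₐ[k] Module.End R C.X.H0 :=
  mkAct (E := Module.End R C.X.H0) (fun c => (C.cm c).H0) (CM.H0_id _ (map_one (Pact R C.a0)))
    (fun b c => CM.H0_comp _ _ _ (map_mul (Pact R C.a0) b c))
    (fun b c => CM.H0_add _ _ _ (map_add (Pact R C.a0) b c))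
    (fun b c => CM.H0_smul _ _ _ (map_smul (Pact R C.a0) b c))
/-- the action on the kernel -/
def tact : F →ₐ[k] Module.End R C.X.Tau :=
  mkAct (E := Module.End R C.X.Tau) (fun c => (C.cm c).Tau) (CM.Tau_id _ (map_one (Pact R C.a1)))
    (fun b c => CM.Tau_comp _ _ _ (map_mul (Pact R C.a1) b c))
    (fun b c => CM.Tau_add _ _ _ (map_add (Pact R C.a1) b c))
    (fun b c => CM.Tau_smul _ _ _ (map_smul (Pact R C.a1) b c))
/-- the cokernel -/
abbrev H : FO k R F := ⟨C.X.H0, C.hact⟩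
/-- the kernel -/
abbrev T : FO k R F := ⟨C.X.Tau, C.tact⟩
omit [FiniteDimensional k R] in
theorem d_mem : C.X.d ∈ HomF (PF R C.a1) (PF R C.a0) := mem_HomF'.2 C.comm
omit [FiniteDimensional k R] in
theorem mk_mem : (LinearMap.range C.X.d).mkQ ∈ HomF (PF R C.a0) C.H := fun _ _ => rfl
theorem sub_mem : (LinearMap.ker (nu C.X.d)).subtype ∈ HomF C.T (IF R C.a1) := fun c t =>
  LinearMap.congr_fun (nu_Pmap (C.a1 c)) t.1
/-- equivariant chain maps -/
def Ev (c : CM C.X D.X) : Prop :=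
  c.f1 ∈ HomF (PF R C.a1) (PF R D.a1) ∧ c.f0 ∈ HomF (PF R C.a0) (PF R D.a0)
end FC

/-- difference of chain maps -/
def csub {X Y : EO k R} (c c' : CM X Y) : CM X Y :=
  ⟨c.f1 - c'.f1, c.f0 - c'.f0, by rw [LinearMap.comp_sub, LinearMap.sub_comp, c.comm, c'.comm]⟩

variable {C D E : FC k R F}

omit [FiniteDimensional k R] in
theorem ev_id : C.Ev C (CM.id _) := ⟨HomF.id _, HomF.id _⟩
omit [FiniteDimensional k R] in
theorem FC.Ev.comp {b : CM D.X E.X} {c : CM C.X D.X} (hb : D.Ev E b) (hc : C.Ev D c) :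
    C.Ev E (b.comp c) := ⟨HomF.comp hb.1 hc.1, HomF.comp hb.2 hc.2⟩
omit [FiniteDimensional k R] in
theorem FC.Ev.H {c : CM C.X D.X} (hc : C.Ev D c) : c.H0 ∈ HomF C.H D.H := fun a t => by
  obtain ⟨z, rfl⟩ := Submodule.Quotient.mk_surjective _ t
  exact congrArg Submodule.Quotient.mk (hc.2 a z)
theorem FC.Ev.T {c : CM C.X D.X} (hc : C.Ev D c) : c.Tau ∈ HomF C.T D.T := fun a t =>
  Subtype.ext ((congrArg (nu c.f1) (C.sub_mem a t)).trans
    ((nu_mem.2 hc.1 a t.1).trans (D.sub_mem a (c.Tau t)).symm))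

omit [FiniteDimensional k R] in
theorem lift0 {g : C.X.H0 →ₗ[R] D.X.H0} (hg : g ∈ HomF C.H D.H) :
    ∃ c : CM C.X D.X, C.Ev D c ∧ c.H0 = g := by
  obtain ⟨f0, m0, e0⟩ := proj D.mk_mem (HomF.comp hg C.mk_mem)
    fun z => Submodule.mkQ_surjective _ _
  obtain ⟨f1, m1, e1⟩ := proj D.d_mem (HomF.comp m0 C.d_mem) fun z =>
    (Submodule.Quotient.mk_eq_zero _).1 ((LinearMap.congr_fun e0 (C.X.d z)).trans
      ((congrArg g ((Submodule.Quotient.mk_eq_zero _).2 ⟨z, rfl⟩)).trans (map_zero g)))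
  exact ⟨⟨f1, f0, e1⟩, ⟨m1, m0⟩, Submodule.linearMap_qext _ e0⟩

theorem lift1 {g : C.X.Tau →ₗ[R] D.X.Tau} (hg : g ∈ HomF C.T D.T) :
    ∃ c : CM C.X D.X, C.Ev D c ∧ c.Tau = g := by
  obtain ⟨φ1, m1, e1⟩ := inj C.sub_mem (HomF.comp D.sub_mem hg) fun t ht => by
    rw [show t = 0 from Subtype.ext ht, map_zero]
  obtain ⟨φ0, m0, e0⟩ := inj (nu_mem.2 C.d_mem) (HomF.comp (nu_mem.2 D.d_mem) m1) fun t ht =>
    (congrArg (nu D.X.d) (LinearMap.congr_fun e1 ⟨t, ht⟩)).trans (g ⟨t, ht⟩).2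
  obtain ⟨f1, rfl⟩ := nu_surj φ1
  obtain ⟨f0, rfl⟩ := nu_surj φ0
  exact ⟨⟨f1, f0, nu_inj (by rw [nu_comp, nu_comp]; exact e0.symm)⟩, ⟨nu_mem.1 m1, nu_mem.1 m0⟩,
    LinearMap.ext fun t => Subtype.ext (LinearMap.congr_fun e1 t)⟩

variable (hI : S_ID k R)
include hI

theorem from_p {a : F →ₐ[k] Module.End k V} {B : FO k R F} {g : R ⊗[k] V →ₗ[R] B.X}
    (hg : g ∈ HomF (PF R a) B) : g ∈ P0 (PF R a) B := by
  obtain ⟨s, hs, e⟩ := proj (hI.pP_mem F B) hg fun z =>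
    ⟨(1 : R) ⊗ₜ g z, (Pmul_tmul _ _).trans (one_smul _ _)⟩
  exact ⟨s, hs, e.symm⟩

theorem to_i {a : F →ₐ[k] Module.End k V} {B : FO k R F} {g : B.X →ₗ[R] CoInd k R V}
    (hg : g ∈ HomF B (IF R a)) : g ∈ I0 B (IF R a) := by
  obtain ⟨s, hs, e⟩ := inj (hI.iI_mem F B) hg fun t ht => by
    have : (1 : R) • t = 0 := congrArg (fun z : CoInd k R B.X => z 1) ht
    rw [one_smul] at this
    rw [this, map_zero]
  exact ⟨s, hs, e.symm⟩

theorem ht0 {c : CM C.X D.X} (hc : C.Ev D c) (h : c.H0 ∈ P0 C.H D.H) : c.Tau ∈ I0 C.T D.T := by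
  obtain ⟨γ, hγ, e⟩ := h
  obtain ⟨ρ, hρ, e1⟩ := proj (a := kact D.H) D.mk_mem (hI.pP_mem F D.H)
    fun z => Submodule.mkQ_surjective _ _
  obtain ⟨s, hs, e2⟩ := proj D.d_mem (sub_mem hc.2 (HomF.comp hρ (HomF.comp hγ C.mk_mem))) fun z =>
    (Submodule.Quotient.eq _).1 ((LinearMap.congr_fun e (Submodule.Quotient.mk z)).trans
      (LinearMap.congr_fun e1 _).symm)
  have e3 : D.X.d ∘ₗ (c.f1 - s ∘ₗ C.X.d) = 0 := by
    rw [LinearMap.comp_sub, c.comm, ← LinearMap.comp_assoc, e2]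
    refine LinearMap.ext fun z => ?_
    have : (LinearMap.range C.X.d).mkQ (C.X.d z) = 0 := by simp
    exact (sub_sub_cancel _ _).trans ((congrArg (fun t => ρ (γ t)) this).trans
      ((congrArg ρ (map_zero γ)).trans (map_zero ρ)))
  have hk := nu_mem.2 (sub_mem hc.1 (HomF.comp hs C.d_mem))
  let κ : CoInd k R C.X.V1 →ₗ[R] D.X.Tau := (nu (c.f1 - s ∘ₗ C.X.d)).codRestrict _ fun t => by
    rw [LinearMap.mem_ker, ← LinearMap.comp_apply, ← nu_comp, e3, map_zero, LinearMap.zero_apply]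
  have hκ : κ ∈ HomF (IF R C.a1) D.T := fun a t =>
    Subtype.ext ((hk a t).trans (D.sub_mem a (κ t)).symm)
  have := hI.i0_l F _ _ D.T _ (to_i hI C.sub_mem) κ hκ
  refine (congrArg (· ∈ I0 C.T D.T) (LinearMap.ext fun t => Subtype.ext ?_)).mp this
  refine (LinearMap.congr_fun (map_sub nu c.f1 (s ∘ₗ C.X.d)) t.1).trans (sub_eq_self.2 ?_)
  exact (LinearMap.congr_fun (nu_comp s C.X.d) t.1).trans
    ((congrArg (nu s) t.2).trans (map_zero _))

theorem ht1 {c : CM C.X D.X} (hc : C.Ev D c) (h : c.Tau ∈ I0 C.T D.T) : c.H0 ∈ P0 C.H D.H := by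
  obtain ⟨γ, hγ, e⟩ := h
  obtain ⟨ρ, hρ, e1⟩ := inj (a := kact C.T) C.sub_mem (hI.iI_mem F C.T) fun t ht => by
    rw [show t = 0 from Subtype.ext ht]; exact map_zero _
  obtain ⟨φ, hs, e2⟩ := inj (nu_mem.2 C.d_mem)
    (sub_mem (nu_mem.2 hc.1) (HomF.comp D.sub_mem (HomF.comp hγ hρ))) fun t ht =>
      sub_eq_zero.2 (congrArg Subtype.val ((LinearMap.congr_fun e ⟨t, ht⟩).trans
        (congrArg γ (LinearMap.congr_fun e1 ⟨t, ht⟩).symm)))
  obtain ⟨s, rfl⟩ := nu_surj φ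
  have e3 : (c.f0 - D.X.d ∘ₗ s) ∘ₗ C.X.d = 0 := nu_eq_zero (by
    rw [LinearMap.sub_comp, ← c.comm, LinearMap.comp_assoc]
    refine (map_sub nu (D.X.d ∘ₗ c.f1) (D.X.d ∘ₗ s ∘ₗ C.X.d)).trans ?_
    rw [nu_comp, nu_comp, nu_comp]
    refine LinearMap.ext fun t => ?_
    have h1 := LinearMap.congr_fun e2 t
    have h2 : nu D.X.d (γ (ρ t)).1 = 0 := (γ (ρ t)).2
    change nu s (nu C.X.d t) = nu c.f1 t - (γ (ρ t)).1 at h1
    simp [h1, h2])
  have hk := sub_mem hc.2 (HomF.comp D.d_mem (nu_mem.1 hs))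
  let κ : C.X.H0 →ₗ[R] R ⊗[k] D.X.V0 := Submodule.liftQ _ (c.f0 - D.X.d ∘ₗ s)
    (LinearMap.range_le_ker_iff.2 e3)
  have hκ : κ ∈ HomF C.H (PF R D.a0) := fun a t => by
    obtain ⟨z, rfl⟩ := Submodule.Quotient.mk_surjective _ t
    exact hk a z
  have := hI.p0_r F C.H _ _ _ (from_p hI D.mk_mem) κ hκ
  refine (congrArg (· ∈ P0 C.H D.H) (Submodule.linearMap_qext _ (LinearMap.ext fun z => ?_))).mp this
  exact (Submodule.Quotient.eq _).2 ⟨-s z, by simp [κ]⟩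

theorem ht {c c' : CM C.X D.X} (hc : C.Ev D c) (hc' : C.Ev D c') :
    c.H0 - c'.H0 ∈ P0 C.H D.H ↔ c.Tau - c'.Tau ∈ I0 C.T D.T := by
  have e0 : (csub c c').H0 = c.H0 - c'.H0 :=
    Submodule.linearMap_qext _ (LinearMap.ext fun z => rfl)
  have e1 : (csub c c').Tau = c.Tau - c'.Tau :=
    LinearMap.ext fun z => Subtype.ext (LinearMap.congr_fun (map_sub nu c.f1 c'.f1) z.1)
  have h : C.Ev D (csub c c') := ⟨sub_mem hc.1 hc'.1, sub_mem hc.2 hc'.2⟩
  rw [← e0, ← e1]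
  exact ⟨ht0 hI h, ht1 hI h⟩

omit hI

omit [FiniteDimensional k R] in
theorem can_nat {X Y : EO k R} (c : CM X Y) {g1 : X.V1 →ₗ[k] Y.V1} {g0 : X.V0 →ₗ[k] Y.V0}
    (h1 : c.f1 = Pmap g1) (h0 : c.f0 = Pmap g0) :
    (can Y).comp c = (presMap c.H0).comp (can X) := by
  have e : (presMap c.H0).f0 ∘ₗ (can X).f0 = (can Y).f0 ∘ₗ c.f0 := P_ext fun v => by
    simp [presMap, can, h0]
  refine CM.ext (P_ext fun v => ?_) e.symm
  have e1 := LinearMap.congr_fun e (X.d ((1 : R) ⊗ₜ v))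
  have e2 := LinearMap.congr_fun c.comm ((1 : R) ⊗ₜ v)
  simp only [LinearMap.comp_apply, h1, Pmap_tmul] at e1 e2
  change (can Y).f1 (c.f1 ((1 : R) ⊗ₜ v)) =
    (1 : R) ⊗ₜ[k] (presMap (T := X.H0) (T' := Y.H0) c.H0).f0 ((can X).f0 (X.d ((1 : R) ⊗ₜ v)))
  rw [h1, Pmap_tmul]
  exact congrArg (fun z : R ⊗[k] Y.H0 => (1 : R) ⊗ₜ[k] z) ((congrArg (can Y).f0 e2).trans e1.symm)

theorem cocan_nat {X Y : EO k R} (c : CM X Y) {g1 : X.V1 →ₗ[k] Y.V1} {g0 : X.V0 →ₗ[k] Y.V0}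
    (h1 : c.f1 = Pmap g1) (h0 : c.f0 = Pmap g0) :
    (cocan Y).comp (copresMap c.Tau) = c.comp (cocan X) := by
  have e : ∀ h : X.Tau, (c.Tau h).1 1 = g1 (h.1 1) := fun h => by
    rw [CM.Tau_coe, h1, nu_Pmap]; rfl
  refine CM.ext (P_ext fun v => ?_) (P_ext fun v => ?_)
  · change (1 : R) ⊗ₜ (c.Tau v).1 1 = c.f1 ((1 : R) ⊗ₜ v.1 1)
    rw [e, h1, Pmap_tmul]
  · have e2 := congrArg nu c.comm
    rw [nu_comp, nu_comp, h1, h0, nu_Pmap, nu_Pmap] at e2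
    have e3 := congrArg (fun z : CoInd k R Y.V0 => z 1)
      (LinearMap.congr_fun e2 (Imap (Iev X.V1 ∘ₗ (Submodule.subtype _).restrictScalars k) v))
    change (1 : R) ⊗ₜ _ = c.f0 ((1 : R) ⊗ₜ _)
    rw [h0, Pmap_tmul]
    refine congrArg _ (Eq.trans ?_ e3)
    exact congrArg (fun z => nu Y.d z 1) (CoInd.ext fun s => e (v s))

/-- the presentation -/
abbrev pF (A : FO k R F) : FC k R F :=
  ⟨pres A.X, kact (PA.onF A), kact A, fun c => (presMap (A.act c)).comm⟩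
/-- the copresentation -/
abbrev cF (A : FO k R F) : FC k R F :=
  ⟨copres A.X, kact A, kact (IA.onF A), fun c => (copresMap (A.act c)).comm⟩

omit [FiniteDimensional k R] in
theorem ev_can (C : FC k R F) : C.Ev (pF C.H) (can C.X) :=
  ⟨mem_HomF'.2 fun c => congrArg CM.f1 (can_nat (C.cm c) rfl rfl),
    mem_HomF'.2 fun c => congrArg CM.f0 (can_nat (C.cm c) rfl rfl)⟩
theorem ev_cocan (C : FC k R F) : (cF C.T).Ev C (cocan C.X) :=
  ⟨mem_HomF'.2 fun c => congrArg CM.f1 (cocan_nat (C.cm c) rfl rfl),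
    mem_HomF'.2 fun c => congrArg CM.f0 (cocan_nat (C.cm c) rfl rfl)⟩
omit [FiniteDimensional k R] in
theorem ev_pres {A B : FO k R F} {f : A.X →ₗ[R] B.X} (hf : f ∈ HomF A B) :
    (pF A).Ev (pF B) (presMap f) := ⟨PA.map_mem (PA.map_mem hf), PA.map_mem hf⟩
theorem ev_copres {A B : FO k R F} {f : A.X →ₗ[R] B.X} (hf : f ∈ HomF A B) :
    (cF A).Ev (cF B) (copresMap f) := ⟨PA.map_mem hf, PA.map_mem (IA.map_mem hf)⟩

omit [FiniteDimensional k R] in
theorem pe_nat {T T' : Md k R} (f : T →ₗ[R] T') :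
    presEps T' ∘ₗ (presMap f).H0 = f ∘ₗ presEps T :=
  Submodule.linearMap_qext _ (P_ext fun v => by
    change Pmul k R T' (Pmap (f.restrictScalars k) ((1 : R) ⊗ₜ v)) = f (Pmul k R T ((1 : R) ⊗ₜ v))
    simp)
theorem ce_nat {T T' : Md k R} (f : T →ₗ[R] T') :
    (copresMap f).Tau ∘ₗ copresEta T = copresEta T' ∘ₗ f :=
  LinearMap.ext fun t => Subtype.ext (by
    change nu (Pmap (f.restrictScalars k)) (Ilift LinearMap.id t) = Ilift LinearMap.id (f t)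
    rw [nu_Pmap]
    ext s
    simp)
omit [FiniteDimensional k R] in
theorem pe_mem (A : FO k R F) : presEps A.X ∈ HomF (pF A).H A :=
  mem_HomF'.2 fun c => pe_nat (A.act c)
theorem ce_mem (A : FO k R F) : copresEta A.X ∈ HomF A (cF A).T :=
  mem_HomF'.2 fun c => (ce_nat (A.act c)).symm
omit [FiniteDimensional k R] in
theorem pe_bij (T : Md k R) : Bijective (presEps T) := by
  refine ⟨(injective_iff_map_eq_zero _).2 fun z hz => ?_, fun t =>
    ⟨Submodule.Quotient.mk ((1 : R) ⊗ₜ t), (Pmul_tmul _ _).trans (one_smul _ _)⟩⟩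
  obtain ⟨z, rfl⟩ := Submodule.Quotient.mk_surjective _ z
  have : Pmul k R T z = 0 := hz
  exact (Submodule.Quotient.mk_eq_zero _).2 ⟨(1 : R) ⊗ₜ z, by simp [this]⟩
theorem ce_bij (T : Md k R) : Bijective (copresEta T) := by
  refine ⟨(injective_iff_map_eq_zero _).2 fun t ht => (one_smul R t).symm.trans
    (congrArg (fun z : (copres T).Tau => z.1 1) ht), fun h => ⟨h.1 1, Subtype.ext ?_⟩⟩
  ext s
  have := congrArg (fun z : CoInd k R (CoInd k R T) => z 1 s) (LinearMap.mem_ker.1 h.2)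
  simp only [nu_copD, mul_one, CoInd.zero_apply, sub_eq_zero] at this
  exact this.symm
omit [FiniteDimensional k R] in
theorem pe_can (X : EO k R) : presEps X.H0 ∘ₗ (can X).H0 = LinearMap.id :=
  Submodule.linearMap_qext _ (P_ext fun v => by
    change Pmul k R X.H0 (Pmap ((Submodule.mkQ _).restrictScalars k ∘ₗ Pin X.V0) ((1 : R) ⊗ₜ v)) =
      Submodule.Quotient.mk ((1 : R) ⊗ₜ v)
    simp)
theorem cocan_ce (X : EO k R) : (cocan X).Tau ∘ₗ copresEta X.Tau = LinearMap.id :=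
  LinearMap.ext fun t => Subtype.ext (by
    change nu (Pmap (Iev X.V1 ∘ₗ (Submodule.subtype _).restrictScalars k))
      (Ilift LinearMap.id t) = t.1
    rw [nu_Pmap]
    ext s
    simp)
omit [FiniteDimensional k R] in
theorem can_pe (X : EO k R) : (can X).H0 ∘ₗ presEps X.H0 = LinearMap.id :=
  LinearMap.ext fun _ => (pe_bij _).1 (LinearMap.congr_fun (pe_can X) _)
theorem ce_cocan (X : EO k R) : copresEta X.Tau ∘ₗ (cocan X).Tau = LinearMap.id :=
  LinearMap.ext fun t => by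
    obtain ⟨t, rfl⟩ := (ce_bij _).2 t
    exact congrArg (copresEta X.Tau) (LinearMap.congr_fun (cocan_ce X) t)

include hI

theorem can_inv (C : FC k R F) : ∃ g ∈ HomF (pF C.H).T C.T,
    g ∘ₗ (can C.X).Tau - LinearMap.id ∈ I0 C.T C.T ∧
      (can C.X).Tau ∘ₗ g - LinearMap.id ∈ I0 (pF C.H).T (pF C.H).T := by
  obtain ⟨c, hc, e⟩ := lift0 (C := pF C.H) (pe_mem C.H)
  have h1 := (ht hI (hc.comp (ev_can C)) ev_id).1 (by
    rw [CM.H0_comp _ c (can C.X) rfl, CM.H0_id _ rfl, e, pe_can, sub_self]; exact zero_mem _)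
  have h2 := (ht hI ((ev_can C).comp hc) ev_id).1 (by
    rw [CM.H0_comp _ (can C.X) c rfl, CM.H0_id _ rfl, e, can_pe, sub_self]; exact zero_mem _)
  rw [CM.Tau_comp _ _ _ rfl, CM.Tau_id (CM.id _) rfl] at h1 h2
  exact ⟨c.Tau, hc.T, h1, h2⟩

theorem cocan_inv (C : FC k R F) : ∃ g ∈ HomF C.H (cF C.T).H,
    (cocan C.X).H0 ∘ₗ g - LinearMap.id ∈ P0 C.H C.H ∧
      g ∘ₗ (cocan C.X).H0 - LinearMap.id ∈ P0 (cF C.T).H (cF C.T).H := by
  obtain ⟨c, hc, e⟩ := lift1 (D := cF C.T) (ce_mem C.T)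
  have h1 := (ht hI ((ev_cocan C).comp hc) ev_id).2 (by
    rw [CM.Tau_comp _ (cocan C.X) c rfl, CM.Tau_id _ rfl, e, cocan_ce, sub_self]; exact zero_mem _)
  have h2 := (ht hI (hc.comp (ev_cocan C)) ev_id).2 (by
    rw [CM.Tau_comp _ c (cocan C.X) rfl, CM.Tau_id _ rfl, e, ce_cocan, sub_self]; exact zero_mem _)
  rw [CM.H0_comp _ _ _ rfl, CM.H0_id (CM.id _) rfl] at h1 h2
  exact ⟨c.H0, hc.H, h1, h2⟩

theorem st_p {A B : FO k R F} {c : CM (pres A.X) (pres B.X)} (hc : (pF A).Ev (pF B) c) :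
    ∃ f ∈ HomF A B, (presMap f).H0 = c.H0 := by
  obtain ⟨g, hg, e, -⟩ := hI.iso_inv F _ _ _ (pe_mem A) (pe_bij _)
  refine ⟨_, HomF.comp (pe_mem B) (HomF.comp hc.H hg), LinearMap.ext fun t => (pe_bij _).1 ?_⟩
  exact (LinearMap.congr_fun (pe_nat _) t).trans
    (congrArg (fun z => presEps B.X (c.H0 z)) (LinearMap.congr_fun e t))

theorem p_iff {A B : FO k R F} {f : A.X →ₗ[R] B.X} :
    f ∈ P0 A B ↔ (presMap f).H0 ∈ P0 (pF A).H (pF B).H := by
  obtain ⟨g, hg, -, e⟩ := hI.iso_inv F _ _ _ (pe_mem A) (pe_bij _)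
  obtain ⟨g', hg', e', -⟩ := hI.iso_inv F _ _ _ (pe_mem B) (pe_bij _)
  refine ⟨fun h => ?_, fun h => ?_⟩
  · have := hI.p0_l F _ _ _ _ (hI.p0_r F _ _ _ _ h _ (pe_mem A)) _ hg'
    rwa [← pe_nat, ← LinearMap.comp_assoc, e', LinearMap.id_comp] at this
  · have := hI.p0_r F _ _ _ _ (hI.p0_l F _ _ _ _ h _ (pe_mem B)) _ hg
    rwa [pe_nat, LinearMap.comp_assoc, e, LinearMap.comp_id] at this

theorem main : (∀ A : FO k R F,
    ∃ g ∈ HomF A (Tm.onF (Tp.onF A)), eps A.X ∘ₗ g - LinearMap.id ∈ P0 A A ∧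
      g ∘ₗ eps A.X - LinearMap.id ∈ P0 (Tm.onF (Tp.onF A)) (Tm.onF (Tp.onF A))) ∧
    ∀ A : FO k R F,
    ∃ g ∈ HomF (Tp.onF (Tm.onF A)) A, g ∘ₗ eta A.X - LinearMap.id ∈ I0 A A ∧
      eta A.X ∘ₗ g - LinearMap.id ∈ I0 (Tp.onF (Tm.onF A)) (Tp.onF (Tm.onF A)) := by
  refine ⟨fun A => ?_, fun A => ?_⟩
  · obtain ⟨g, hg, h1, h2⟩ := cocan_inv hI (pF A)
    obtain ⟨j, hj, e, e'⟩ := hI.iso_inv F _ _ _ (pe_mem A) (pe_bij _)
    refine ⟨_, HomF.comp hg hj, ?_, ?_⟩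
    · have := hI.p0_r F _ _ _ _ (hI.p0_l F _ _ _ _ h1 _ (pe_mem A)) _ hj
      rw [LinearMap.comp_sub, LinearMap.sub_comp, LinearMap.comp_id, e'] at this
      exact this
    · have : (g ∘ₗ j) ∘ₗ eps A.X = g ∘ₗ (cocan (pF A).X).H0 :=
        LinearMap.ext fun t => congrArg g (LinearMap.congr_fun e _)
      rw [← this] at h2
      exact h2
  · obtain ⟨g, hg, h1, h2⟩ := can_inv hI (cF A)
    obtain ⟨j, hj, e, e'⟩ := hI.iso_inv F _ _ _ (ce_mem A) (ce_bij _)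
    refine ⟨_, HomF.comp hj hg, ?_, ?_⟩
    · have := hI.i0_l F _ _ _ _ (hI.i0_r F _ _ _ _ h1 _ (ce_mem A)) _ hj
      rw [LinearMap.sub_comp, LinearMap.comp_sub, LinearMap.id_comp, e] at this
      exact this
    · have : eta A.X ∘ₗ j ∘ₗ g = (can (cF A).X).Tau ∘ₗ g :=
        LinearMap.ext fun t => congrArg (can (cF A).X).Tau (LinearMap.congr_fun e' _)
      rw [← this] at h2
      exact h2

theorem tri_p (A : FO k R F) :
    Tp.map (eps A.X) ∘ₗ eta (Tp.obj A.X) - LinearMap.id ∈ I0 (Tp.onF A) (Tp.onF A) := by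
  have h := (ht hI ((ev_pres (hI.eps_mem F A)).comp (ev_can (cF (pF A).T))) (ev_cocan (pF A))).1 (by
    rw [CM.H0_comp _ _ _ rfl, sub_eq_zero.2 (LinearMap.ext fun t => (pe_bij _).1 ?_)]
    · exact zero_mem _
    · exact (LinearMap.congr_fun (pe_nat (eps A.X)) _).trans
        (congrArg (eps A.X) (LinearMap.congr_fun (pe_can _) t)))
  have := hI.i0_r F _ _ _ _ h _ (ce_mem (pF A).T)
  rw [CM.Tau_comp _ _ _ rfl, LinearMap.sub_comp, cocan_ce] at this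
  exact this

theorem tri_m (A : FO k R F) :
    eps (Tm.obj A.X) ∘ₗ Tm.map (eta A.X) - LinearMap.id ∈ P0 (Tm.onF A) (Tm.onF A) := by
  have h := (ht hI ((ev_cocan (pF (cF A).H)).comp (ev_copres (hI.eta_mem F A))) (ev_can (cF A))).2
    (by
      rw [CM.Tau_comp _ _ _ rfl, sub_eq_zero.2 (LinearMap.ext fun t => ?_)]
      · exact zero_mem _
      · obtain ⟨t, rfl⟩ := (ce_bij _).2 t
        exact (congrArg (cocan (pres (copres A.X).H0)).Tau
          (LinearMap.congr_fun (ce_nat (eta A.X)) t)).trans (LinearMap.congr_fun (cocan_ce _) _))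
  have := hI.p0_l F _ _ _ _ h _ (pe_mem (cF A).H)
  rw [CM.H0_comp _ _ _ rfl, LinearMap.comp_sub, pe_can] at this
  exact this

theorem tm {A B : FO k R F} {f : A.X →ₗ[R] B.X} (h : f ∈ I0 A B) :
    Tm.map f ∈ P0 (Tm.onF A) (Tm.onF B) := by
  obtain ⟨g, hg, -, e⟩ := hI.iso_inv F _ _ _ (ce_mem A) (ce_bij _)
  have := hI.i0_r F _ _ _ _ (hI.i0_l F _ _ _ _ h _ (ce_mem B)) _ hg
  rw [← ce_nat, LinearMap.comp_assoc, e, LinearMap.comp_id] at this
  exact ht1 hI (C := cF A) (D := cF B) (ev_copres (hI.i0_le F A B h)) this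

omit hI

/-- the coordinatewise action -/
def piAct (V : FXV k F) (n : ℕ) : F →ₐ[k] Module.End k (Fin n → V.V) :=
  mkAct (E := Module.End k (Fin n → V.V)) (fun c => (V.act c).compLeft _) (by rw [map_one]; rfl)
    (fun b c => by rw [map_mul]; rfl) (fun b c => by rw [map_add]; rfl)
    (fun b c => by rw [map_smul]; rfl)

/-- the complex of a family -/
abbrev xF (d : Fam R) (V : FXV k F) : FC k R F :=
  ⟨Xo d V.V, piAct V _, piAct V _, fun c => (Xmap d (V.sc c)).comm⟩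

end St

end

theorem t_ST (k : Type u) [Field k] [IsAlgClosed k] (R : Type u) [Ring R] [Algebra k R]
    [FiniteDimensional k R]
    (hID : ∀ (S : Type u) [Ring S] [Algebra k S] [FiniteDimensional k S], S_ID k S) :
    S_ST k R := by
  have hI := hID R
  refine ⟨fun F _ _ => (St.main hI).1, fun F _ _ => (St.main hI).2, fun F _ _ => St.tri_p hI,
    fun F _ _ => St.tri_m hI, fun F _ _ A B f hf => ?_, fun F _ _ A B f => St.tm hI,
    fun F _ _ A B g hg => ?_, fun F _ _ A B f hf h => ?_⟩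
  · have h := hI.p0_le F A B hf
    exact St.ht0 hI (St.ev_pres h) ((St.p_iff hI).1 hf)
  · obtain ⟨c, hc, e⟩ := St.lift1 (C := St.pF A) (D := St.pF B) hg
    obtain ⟨f, hf, e'⟩ := St.st_p hI hc
    have := (St.ht hI hc (St.ev_pres hf)).1 (by rw [e', sub_self]; exact zero_mem _)
    rw [e] at this
    exact ⟨f, hf, this⟩
  · exact (St.p_iff hI).2 (St.ht1 hI (St.ev_pres hf) h)

theorem t_ZETA (k : Type u) [Field k] [IsAlgClosed k] (R : Type u) [Ring R] [Algebra k R]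
    [FiniteDimensional k R]
    (hID : ∀ (S : Type u) [Ring S] [Algebra k S] [FiniteDimensional k S], S_ID k S) :
    S_ZETA k R := by
  refine fun d => ⟨⟨fun V => (can (Xo d V)).Tau, fun {V V'} g => ?_⟩,
    fun F _ _ V => St.can_inv (hID R) (St.xF d V)⟩
  have := congrArg CM.Tau (St.can_nat (Xmap d g) rfl rfl)
  rw [CM.Tau_comp _ _ _ rfl, CM.Tau_comp (CM.comp _ _) _ _ rfl] at this
  exact this.symm

end Pool.Agent.P.MP_cf639b_al
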