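import Pool.Agent.P.MP_cf639b_al.Iface

set_option linter.dupNamespace false

namespace Pool.Agent.P.MP_cf639b_al

universe u v
open TensorProduct Polynomial Function

section

variable {k : Type u} [Field k] {R : Type u} [Ring R] [Algebra k R]
  {F : Type u} [Field F] [Algebra k F]

theorem tw_mem (A B : FO k R F) (σ : F ≃ₐ[k] F) (f : A.X →ₗ[R] B.X) :
    f ∈ HomF A B ↔ f ∈ HomF (A.tw σ) (B.tw σ) := by
  constructor
  · intro h a t
    exact h (σ.symm a) t
  · intro h a t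
    have := h (σ a) t
    change f (A.act (σ.symm (σ a)) t) = B.act (σ.symm (σ a)) (f t) at this
    rw [σ.symm_apply_apply] at this
    exact this

theorem tw_inv {A B : FO k R F} (h : IsoF A B) :
    ∃ f ∈ HomF A B, ∃ g ∈ HomF B A, g ∘ₗ f = LinearMap.id ∧ f ∘ₗ g = LinearMap.id := by
  obtain ⟨f, hf, hb⟩ := h
  let e := LinearEquiv.ofBijective f hb
  have he : ∀ t, f (e.symm t) = t := e.apply_symm_apply
  refine ⟨f, hf, e.symm.toLinearMap, fun a t => hb.1 ?_, LinearMap.ext e.symm_apply_apply,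
    LinearMap.ext he⟩
  rw [hf a]
  exact (he _).trans (congrArg _ (he t).symm)

theorem tw_of_inv {A B : FO k R F} {f : A.X →ₗ[R] B.X} (hf : f ∈ HomF A B) (g : B.X →ₗ[R] A.X)
    (h1 : g ∘ₗ f = LinearMap.id) (h2 : f ∘ₗ g = LinearMap.id) : IsoF A B :=
  ⟨f, hf, bijective_iff_has_inverse.2 ⟨g, LinearMap.congr_fun h1, LinearMap.congr_fun h2⟩⟩

theorem tw_symm {A B : FO k R F} (h : IsoF A B) : IsoF B A := by
  obtain ⟨f, _, g, hg, h1, h2⟩ := tw_inv h
  exact tw_of_inv hg f h2 h1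

theorem tw_trans {A B C : FO k R F} (h : IsoF A B) (h' : IsoF B C) : IsoF A C := by
  obtain ⟨f, hf, hb⟩ := h
  obtain ⟨g, hg, hb'⟩ := h'
  exact ⟨g ∘ₗ f, HomF.comp hg hf, hb'.comp hb⟩

theorem tw_map (G : NF k R) (V V' : FXV k F) (σ : F ≃ₐ[k] F) (e : V.V ≃ₗ[k] V'.V)
    (hx : ∀ v, e (V.V.x v) = V'.V.x (e v))
    (ha : ∀ a v, e (V.act a v) = V'.act (σ a) (e v)) : IsoF ((G.onF V).tw σ) (G.onF V') := by
  let g : XH V.V V'.V := ⟨e.toLinearMap, LinearMap.ext hx⟩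
  let g' : XH V'.V V.V := ⟨e.symm.toLinearMap, LinearMap.ext fun v => e.injective (by
    change e (e.symm (V'.V.x v)) = e (V.V.x (e.symm v))
    rw [hx, e.apply_symm_apply, e.apply_symm_apply])⟩
  refine tw_of_inv (A := (G.onF V).tw σ) (B := G.onF V') (f := G.map g)
    (mem_HomF'.2 fun a => ?_) (G.map g') ?_ ?_
  · change G.map g ∘ₗ G.map (V.sc (σ.symm a)) = G.map (V'.sc a) ∘ₗ G.map g
    rw [← G.map_comp, ← G.map_comp]
    refine congrArg _ (Subtype.ext (LinearMap.ext fun v => ?_))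
    change e (V.act (σ.symm a) v) = V'.act a (e v)
    rw [ha, σ.apply_symm_apply]
  · change G.map g' ∘ₗ G.map g = LinearMap.id
    rw [← G.map_comp, ← G.map_id]
    exact congrArg _ (Subtype.ext (LinearMap.ext e.symm_apply_apply))
  · change G.map g ∘ₗ G.map g' = LinearMap.id
    rw [← G.map_comp, ← G.map_id]
    exact congrArg _ (Subtype.ext (LinearMap.ext e.apply_symm_apply))

theorem tw_one (G : NF k R) (y : F) (σ : F ≃ₐ[k] F) :
    IsoF ((G.onF (one k y)).tw σ) (G.onF (one k (σ y))) :=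
  tw_map G (one k y) (one k (σ y)) σ σ.toLinearEquiv (fun v => map_mul σ y v)
    fun a v => map_mul σ a v

theorem tw_j (G : NF k R) (y : F) (n : ℕ) (σ : F ≃ₐ[k] F) :
    IsoF ((G.onF (J k y n)).tw σ) (G.onF (J k (σ y) n)) := by
  have hI : Ideal.span {(X - C (σ y)) ^ n} =
      (Ideal.span {(X - C y) ^ n}).map (mapAlgEquiv σ : F[X] →+* F[X]) := by
    rw [Ideal.map_span, Set.image_singleton]
    simp
  let e : JT y n ≃ₐ[k] JT (σ y) n := Ideal.quotientEquivAlg _ _ (mapAlgEquiv σ) hI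
  have he : ∀ p : F[X], e (Jmk y n p) = Jmk (σ y) n (mapAlgEquiv σ p) := fun p => rfl
  refine tw_map G (J k y n) (J k (σ y) n) σ e.toLinearEquiv (fun v => ?_) fun a v => ?_
  · change e (Jmk y n X * v) = Jmk (σ y) n X * e v
    rw [map_mul, he]
    simp
  · change e (Jmk y n (C a) * v) = Jmk (σ y) n (C (σ a)) * e v
    rw [map_mul, he]
    simp

theorem tw_dec (A : FO k R F) {ι : Type} [Fintype ι] (T : ι → FO k R F) (σ : F ≃ₐ[k] F)
    (h : Decomp A T) (hT : ∀ i, IsoF ((T i).tw σ) (T i)) : IsoF (A.tw σ) A := by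
  classical
  obtain ⟨i, p, hi, hp, h1, h0, hs⟩ := h
  choose f hf g hg e1 e2 using fun v => tw_inv (hT v)
  have key : ∀ a b : ∀ v, (T v).X →ₗ[R] (T v).X, (∀ v, a v ∘ₗ b v = LinearMap.id) →
      (∑ v, i v ∘ₗ a v ∘ₗ p v) ∘ₗ (∑ v, i v ∘ₗ b v ∘ₗ p v) = LinearMap.id := by
    intro a b hab
    refine LinearMap.ext fun t => ?_
    rw [← hs, LinearMap.comp_apply, LinearMap.sum_apply, LinearMap.sum_apply _ _ t,
      LinearMap.sum_apply _ _ t]
    refine Finset.sum_congr rfl fun v _ => ?_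
    simp only [LinearMap.comp_apply]
    have a0 : ∀ w, w ≠ v → p v (i w (b w (p w t))) = 0 := fun w hw =>
      LinearMap.congr_fun (h0 w v hw) _
    rw [map_sum, Finset.sum_eq_single v (fun w _ hw => a0 w hw) (by simp)]
    have a1 : p v (i v (b v (p v t))) = b v (p v t) := LinearMap.congr_fun (h1 v) _
    have a2 : a v (b v (p v t)) = p v t := LinearMap.congr_fun (hab v) _
    rw [a1, a2]
  refine tw_of_inv (A := A.tw σ) (B := A) (f := ∑ v, i v ∘ₗ f v ∘ₗ p v)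
    (Submodule.sum_mem _ fun v _ => ?_) (∑ v, i v ∘ₗ g v ∘ₗ p v) (key g f e1) (key f g e2)
  exact HomF.comp (hi v) (HomF.comp (A := A.tw σ) (hf v) ((tw_mem A (T v) σ _).1 (hp v)))

end

theorem t_TW (k : Type u) [Field k] [IsAlgClosed k] (R : Type u) [Ring R] [Algebra k R]
    [FiniteDimensional k R]
    (hID : ∀ (S : Type u) [Ring S] [Algebra k S] [FiniteDimensional k S], S_ID k S) :
    S_TW k R := by
  have iso : ∀ (F : Type u) [Field F] [Algebra k F] (A B : FO k R F) (σ : F ≃ₐ[k] F),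
      IsoF A B → IsoF (A.tw σ) (B.tw σ) := fun F _ _ A B σ ⟨f, hf, hb⟩ =>
    ⟨f, (tw_mem A B σ f).1 hf, hb⟩
  refine ⟨fun F _ _ => tw_mem, iso, fun F _ _ => tw_j, fun F _ _ => tw_one,
    fun F _ _ A σ h => ?_, fun F _ _ d A y σ => ?_, fun F _ _ Φ A σ => rfl,
    fun F _ _ A ι _ T σ => tw_dec A T σ⟩
  · obtain ⟨Q, _, h⟩ := h
    have h1 := tw_one (TenN Q) (0 : F) σ
    rw [map_zero] at h1
    exact tw_trans (iso F _ _ σ h) (tw_trans h1 (tw_symm h))
  · change EX d A.X - Emap d (A.act (σ.symm (σ y))) = EX d A.X - Emap d (A.act y)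
    rw [σ.symm_apply_apply]

end Pool.Agent.P.MP_cf639b_al
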