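import Pool.Agent.P.MP_cf639b_al.Iface
import Pool.Agent.P.MP_cf639b_al.Red.WT0

set_option linter.dupNamespace false

namespace Pool.Agent.P.MP_cf639b_al

universe u

theorem t_WT (k : Type u) [Field k] [IsAlgClosed k] (R : Type u) [Ring R] [Algebra k R]
    [FiniteDimensional k R] (h : S_NDND k R) : S_WT k R :=
  fun hW h0 => Red.t_WT0 hW (h h0)

end Pool.Agent.P.MP_cf639b_al
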