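import Pool.Agent.P.MP_cf639b_al.Iface

set_option linter.dupNamespace false

namespace Pool.Agent.P.MP_cf639b_al

universe u v
open TensorProduct Polynomial Function

noncomputable section

theorem ckrev_pow {A : Type*} [Monoid A] {y y' : A} (h : y * y' = 1) (h' : y' * y = 1)
    {i N : ℕ} (hi : i ≤ N) : y ^ N * y' ^ i = y ^ (N - i) := by
  have hc : Commute y y' := h.trans h'.symm
  have e : y ^ i * y' ^ i = 1 := by rw [← hc.mul_pow, h, one_pow]
  obtain ⟨m, rfl⟩ := Nat.exists_eq_add_of_le' hi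
  rw [pow_add, mul_assoc, e, mul_one, Nat.add_sub_cancel]

theorem ckrev_refl {K : Type*} [Field K] {A : Type*} [Ring A] [Algebra K A] {y y' : A}
    (h : y * y' = 1) (h' : y' * y = 1) (g : K[X]) (N : ℕ) (hN : g.natDegree ≤ N) :
    aeval y (reflect N g) = y ^ N * aeval y' g := by
  rw [aeval_eq_sum_range' (n := N + 1)
    (Nat.lt_succ_of_le (natDegree_reflect_le.trans (max_le le_rfl hN))),
    aeval_eq_sum_range' (Nat.lt_succ_of_le hN), Finset.mul_sum, ← Finset.sum_flip]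
  refine Finset.sum_congr rfl fun i hi => ?_
  have hi' : i ≤ N := Nat.lt_succ_iff.mp (Finset.mem_range.mp hi)
  rw [coeff_reflect, revAt_le (Nat.sub_le _ _), Nat.sub_sub_self hi', mul_smul_comm,
    ckrev_pow h h' hi']

section abs
variable {K : Type*} [Field K] {E E' L : Type*} [AddCommGroup E] [Module K E] [AddCommGroup E']
  [Module K E'] [AddCommGroup L] [Module K L]

theorem ckrev_nat {x : Module.End K E} {y : Module.End K L} {φ : E →ₗ[K] L}
    (hx : ∀ u, φ (x u) = y (φ u)) (g : K[X]) (u : E) : φ (aeval x g u) = aeval y g (φ u) := by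
  induction g using Polynomial.induction_on generalizing u with
  | C a => simp
  | add p q hp hq => simp [hp, hq]
  | monomial n a ih =>
    rw [pow_succ, ← mul_assoc, map_mul, map_mul (aeval y), aeval_X, aeval_X,
      Module.End.mul_apply, Module.End.mul_apply, ih, hx]

theorem ckrev_eig {y : Module.End K L} {t : K} {l : L} (h : y l = t • l) (n : ℕ) :
    (y ^ n) l = t ^ n • l := by
  induction n with
  | zero => simp
  | succ n ih => rw [pow_succ', Module.End.mul_apply, ih, map_smul, h, smul_smul, pow_succ]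

theorem ckrev_abs (x : Module.End K E) (x' : Module.End K E') (y y' : Module.End K L)
    (h : y * y' = 1) (h' : y' * y = 1) (φ : E →ₗ[K] L) (φ' : E' →ₗ[K] L)
    (hx : ∀ u, φ (x u) = y (φ u)) (hx' : ∀ u, φ' (x' u) = y' (φ' u))
    (hk : ∀ u, φ u = 0 → ∃ n : ℕ, (x ^ n) u = 0) (hk' : ∀ u, φ' u = 0 → ∃ n : ℕ, (x' ^ n) u = 0)
    (hs : ∀ l, ∃ (n : ℕ) (u : E), (y ^ n) l = φ u) (t : K) (ht : t ≠ 0) (e : E) (e' : E')
    (he : x e = t • e) (c0 : K) (hee : φ e = c0 • φ' e') :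
    (e ≠ 0 → e' ≠ 0) ∧ ∀ f : K[X], (∀ (u : E) (g : K[X]), g ≠ 0 → aeval x g u = 0 →
      ∃ (c : K) (n : ℕ), aeval x (f ^ n) (u - c • e) = 0) →
      ∀ (u : E') (g : K[X]), g ≠ 0 → aeval x' g u = 0 →
      ∃ (c : K) (n : ℕ), aeval x' ((X * reflect f.natDegree f) ^ n) (u - c • e') = 0 := by
  refine ⟨fun h0 h1 => h0 ?_, fun f hf u' g hg hu => ?_⟩
  · obtain ⟨n, hn⟩ := hk e (by rw [hee, h1, map_zero, smul_zero])
    rw [ckrev_eig he] at hn
    exact (smul_eq_zero.mp hn).resolve_left (pow_ne_zero _ ht)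
  obtain ⟨n, u, hnu⟩ := hs (φ' u')
  have cm : ∀ (p q : K[X]) (l : L), aeval y p (aeval y q l) = aeval y q (aeval y p l) :=
    fun p q l => by rw [← Module.End.mul_apply, ← map_mul, mul_comm, map_mul, Module.End.mul_apply]
  have h1 : φ (aeval x (reflect g.natDegree g) u) = 0 := by
    rw [ckrev_nat hx, ← hnu, ← aeval_X_pow (R := K), cm, ckrev_refl h h' g _ le_rfl,
      Module.End.mul_apply, ← ckrev_nat hx', hu, map_zero, map_zero, map_zero]
  obtain ⟨m, hm⟩ := hk _ h1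
  obtain ⟨c, n', hc⟩ := hf u (X ^ m * reflect g.natDegree g)
    (mul_ne_zero (pow_ne_zero _ X_ne_zero) (by rwa [Ne, reflect_eq_zero_iff]))
    (by rw [map_mul, aeval_X_pow, Module.End.mul_apply, hm])
  have h2 : (y ^ n) (φ e) = t ^ n • φ e := ckrev_eig (by rw [← hx, he, map_smul]) n
  have h3 : φ (u - c • e) = (y ^ n) (φ' (u' - (c * (t ^ n)⁻¹ * c0) • e')) := by
    rw [map_sub, map_sub, map_sub, hnu, map_smul, map_smul, mul_smul, ← hee, mul_smul, map_smul,
      map_smul, h2, smul_smul, smul_smul, mul_assoc, inv_mul_cancel₀ (pow_ne_zero _ ht), mul_one]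
  set w := u' - (c * (t ^ n)⁻¹ * c0) • e'
  have h4 : (y ^ n) (aeval y (f ^ n') (φ' w)) = 0 := by
    rw [← aeval_X_pow (R := K), cm, aeval_X_pow, ← h3, ← ckrev_nat hx, hc, map_zero]
  have h5 : aeval y (f ^ n') (φ' w) = 0 := by
    have e1 := congrArg (y' ^ n) h4
    rwa [← Module.End.mul_apply, ckrev_pow h' h le_rfl, Nat.sub_self, pow_zero, map_zero,
      Module.End.one_apply] at e1
  have hc' : Commute (y' ^ f.natDegree) (aeval y f) := by
    have e1 : Commute y' (aeval y f) := by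
      have e2 : y * aeval y f = aeval y f * y := by
        have e3 := congrArg (aeval y) (X_mul (p := f))
        rwa [map_mul, map_mul, aeval_X] at e3
      calc y' * aeval y f = y' * (aeval y f * y) * y' := by
            rw [mul_assoc, mul_assoc, h, mul_one]
        _ = aeval y f * y' := by rw [← e2, ← mul_assoc, h', one_mul]
    exact e1.pow_left _
  have h6 : φ' (aeval x' (reflect f.natDegree f ^ n') w) = 0 := by
    rw [ckrev_nat hx', map_pow, ckrev_refl h' h f _ le_rfl, hc'.mul_pow, ← map_pow,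
      Module.End.mul_apply, h5, map_zero]
  obtain ⟨m', hm'⟩ := hk' _ h6
  refine ⟨c * (t ^ n)⁻¹ * c0, m' + n', ?_⟩
  have e3 : (X * reflect f.natDegree f) ^ (m' + n') =
      (X ^ n' * reflect f.natDegree f ^ m') * (X ^ m' * reflect f.natDegree f ^ n') := by ring
  rw [e3, map_mul, map_mul _ (X ^ m'), aeval_X_pow, Module.End.mul_apply, Module.End.mul_apply]
  exact (congrArg _ hm').trans (map_zero _)
end abs

section gen
variable {k : Type u} [Field k] {R : Type u} [Ring R] [Algebra k R] {K : Type u} [Field K]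
  [Algebra k K]

theorem ckrev_natpow {T T' : Type u} [AddCommGroup T] [Module R T] [AddCommGroup T'] [Module R T']
    {x : Module.End R T} {y : Module.End R T'} {j : T →ₗ[R] T'} (hj : j ∘ₗ x = y ∘ₗ j) (n : ℕ)
    (z : T) : j ((x ^ n) z) = (y ^ n) (j z) := by
  induction n with
  | zero => rfl
  | succ n ih =>
    rw [pow_succ', pow_succ', Module.End.mul_apply, Module.End.mul_apply, ← ih]
    exact LinearMap.congr_fun hj _

theorem ckrev_unif {T T' : Type u} [AddCommGroup T] [Module R T] [AddCommGroup T'] [Module R T']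
    {x : Module.End R T} {y : Module.End R T'} {j : T →ₗ[R] T'} (hj : j ∘ₗ x = y ∘ₗ j)
    (hs : ∀ w, ∃ (n : ℕ) (z : T), (y ^ n) w = j z) {m : ℕ} (w : Fin m → T') :
    ∃ (n : ℕ) (z : Fin m → T), ∀ b, (y ^ n) (w b) = j (z b) := by
  choose n z hz using fun b => hs (w b)
  refine ⟨Finset.univ.sup n, fun b => (x ^ (Finset.univ.sup n - n b)) (z b), fun b => ?_⟩
  rw [ckrev_natpow hj, ← hz, ← Module.End.mul_apply, ← pow_add,
    Nat.sub_add_cancel (Finset.le_sup (f := n) (Finset.mem_univ b))]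

theorem ckrev_EXpow (d : Fam R) (A : FO k R K) (n : ℕ) (z : Fin d.n1 → ℕ →₀ A.X) :
    (EXF d A ^ n) (Emk d A.X z) = Emk d A.X fun a => (shift R A.X ^ n) (z a) := by
  induction n with
  | zero => rfl
  | succ n ih => rw [pow_succ', pow_succ', Module.End.mul_apply, ih]; rfl

/-- the range of `D` as a `K`-subspace -/
def ckrev_N (d : Fam R) (B : FO k R K) (y : Module.End R B.X) (hy : y ∈ HomF B B) :
    Submodule K (Fin d.n1 → B.X) where
  carrier := {w | ∃ z, Dop k d y z = w}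
  add_mem' := by
    rintro _ _ ⟨z, rfl⟩ ⟨z', rfl⟩
    exact ⟨z + z', map_add _ _ _⟩
  zero_mem' := ⟨0, map_zero _⟩
  smul_mem' := by
    rintro c _ ⟨z, rfl⟩
    exact ⟨fun b => B.act c (z b), Dop_nat d y y (B.act c) (mem_HomF'.mp hy c).symm z⟩

/-- the operator induced on the quotient -/
def ckrev_q {n : ℕ} {B : FO k R K} (N : Submodule K (Fin n → B.X)) {y : Module.End R B.X}
    (hy : y ∈ HomF B B) (hN : ∀ w ∈ N, (fun a => y (w a)) ∈ N) :
    Module.End K ((Fin n → B.X) ⧸ N) := N.mapQ N ((HomF.lin hy).compLeft _) hN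

theorem ckrev_q_mk {n : ℕ} {B : FO k R K} (N : Submodule K (Fin n → B.X)) {y : Module.End R B.X}
    (hy : y ∈ HomF B B) (hN) (w : Fin n → B.X) :
    ckrev_q N hy hN (N.mkQ w) = N.mkQ fun a => y (w a) := rfl

theorem ckrev_q_pow {n : ℕ} {B : FO k R K} (N : Submodule K (Fin n → B.X)) {y : Module.End R B.X}
    (hy : y ∈ HomF B B) (hN) (m : ℕ) (w : Fin n → B.X) :
    (ckrev_q N hy hN ^ m) (N.mkQ w) = N.mkQ fun a => (y ^ m) (w a) := by
  induction m with
  | zero => rfl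
  | succ m ih => rw [pow_succ', pow_succ', Module.End.mul_apply, ih]; rfl

theorem ckrev_phi (d : Fam R) (A B : FO k R K) {y : Module.End R B.X} (hy : y ∈ HomF B B)
    (j : (ℕ →₀ A.X) →ₗ[R] B.X) (hj : j ∘ₗ shift R A.X = y ∘ₗ j) (hi : Injective j)
    (hs : ∀ w, ∃ (n : ℕ) (z : ℕ →₀ A.X), (y ^ n) w = j z)
    (hK : ∀ c z, j (Finsupp.mapRange.linearMap (A.act c) z) = B.act c (j z))
    (N : Submodule K (Fin d.n1 → B.X)) (hN : ∀ w, w ∈ N ↔ ∃ z, Dop k d y z = w) (hN') :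
    ∃ φ : EE d A.X →ₗ[K] (Fin d.n1 → B.X) ⧸ N,
      (∀ z, φ (Emk d A.X z) = N.mkQ fun a => j (z a)) ∧
      (∀ u, φ (EXF d A u) = ckrev_q N hy hN' (φ u)) ∧
      (∀ u, φ u = 0 → ∃ n : ℕ, (EXF d A ^ n) u = 0) ∧
      (∀ l, ∃ (n : ℕ) (u : EE d A.X), (ckrev_q N hy hN' ^ n) l = φ u) := by
  let φ0 : EE d A.X →ₗ[k] (Fin d.n1 → B.X) ⧸ N :=
    Submodule.liftQ _ (N.mkQ.restrictScalars k ∘ₗ (j.restrictScalars k).compLeft _) (by
      rintro _ ⟨w, rfl⟩
      exact (Submodule.Quotient.mk_eq_zero N).mpr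
        ((hN _).mpr ⟨fun b => j (w b), Dop_nat d _ _ j hj w⟩))
  have h0 : ∀ z, φ0 (Emk d A.X z) = N.mkQ fun a => j (z a) := fun z => rfl
  refine ⟨⟨⟨φ0, map_add φ0⟩, fun c u => ?_⟩, h0, fun u => ?_, fun u hu => ?_, fun l => ?_⟩
  · obtain ⟨z, rfl⟩ := Emk_surj d A.X u
    change φ0 (Emap d (A.act c) (Emk d A.X z)) = c • φ0 (Emk d A.X z)
    rw [Emap_mk, h0, h0, ← map_smul]
    exact congrArg N.mkQ (funext fun a => hK c _)
  · obtain ⟨z, rfl⟩ := Emk_surj d A.X u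
    change φ0 (EX d A.X (Emk d A.X z)) = ckrev_q N hy hN' (φ0 (Emk d A.X z))
    rw [EX_mk, h0, h0, ckrev_q_mk]
    exact congrArg N.mkQ (funext fun a => LinearMap.congr_fun hj _)
  · obtain ⟨z, rfl⟩ := Emk_surj d A.X u
    obtain ⟨w, hw⟩ := (hN _).mp ((Submodule.Quotient.mk_eq_zero N).mp ((h0 z).symm.trans hu))
    obtain ⟨n, w0, hw0⟩ := ckrev_unif hj hs w
    refine ⟨n, ?_⟩
    rw [ckrev_EXpow, Emk_eq_zero]
    refine ⟨w0, funext fun a => hi ?_⟩
    have e1 := congrFun (Dop_nat (k := k) d _ _ j hj w0) a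
    have e2 := congrFun (Dop_nat (k := k) d y y (y ^ n) ((Commute.refl y).pow_left n) w) a
    rw [ckrev_natpow hj, ← congrFun hw a, ← e2, ← e1]
    exact congrArg (fun z => Dop k d y z a) (funext fun b => (hw0 b).symm)
  · obtain ⟨w, rfl⟩ := N.mkQ_surjective l
    obtain ⟨n, z, hz⟩ := ckrev_unif hj hs w
    refine ⟨n, Emk d A.X z, ?_⟩
    rw [ckrev_q_pow]
    exact (congrArg N.mkQ (funext hz)).trans (h0 z).symm

theorem ckrev_Dop (d : Fam R) {B : Md k R} {y y' : Module.End R B} (h : y * y' = 1)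
    (h' : y' * y = 1) (z : Fin d.n0 → B) (a : Fin d.n1) :
    Dop k d.rev y' z a = (y' ^ d.r) (Dop k d y z a) := by
  rw [Dop_apply, Dop_apply, map_sum, ← Finset.sum_flip]
  refine Finset.sum_congr rfl fun i hi => ?_
  have hi' : i ≤ d.r := Nat.lt_succ_iff.mp (Finset.mem_range.mp hi)
  rw [map_sum]
  refine Finset.sum_congr rfl fun b _ => ?_
  rw [map_smul, ← Module.End.mul_apply, ckrev_pow h' h hi']
  change d.c (d.r - (d.r - i)) a b • _ = _
  rw [Nat.sub_sub_self hi']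

theorem ckrev_xpow (y : K) (i : ℕ) (v : K) : ((one k y).V.x ^ i) v = y ^ i * v := by
  change ((LinearMap.mulLeft k y) ^ i) v = _
  rw [LinearMap.pow_mulLeft, LinearMap.mulLeft_apply]

theorem ckrev_gen (d : Fam R) (y c v : K) (b : Fin d.n0) :
    (MF d (one k y)).act c (gen d (one k y).V b v) = gen d (one k y).V b (c * v) :=
  map_gen d ((one k y).sc c) b v

/-- the representative of `e` -/
def ckrev_rep (d : Fam R) (t : K) : Fin d.n1 → ℕ →₀ (MF d (one k t)).X :=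
  fun a => ∑ i ∈ Finset.range (d.r + 1), ∑ l ∈ Finset.range i, ∑ b,
    Finsupp.single l (d.c i a b • gen d (one k t).V b (((one k t).V.x ^ (i - 1 - l)) (1 : K)))

theorem ckrev_eK [FiniteDimensional k R] (d : Fam R) (t : K) :
    eK d t = Emk d (MF d (one k t)).X (ckrev_rep d t) := Bock_apply _ _ _ _

theorem ckrev_B (d : Fam R) (t : K) (B : FO k R K) {y : Module.End R B.X} (hy : y ∈ HomF B B)
    {i : (MF d (one k t)).X →ₗ[R] B.X} (hi : i ∈ HomF (MF d (one k t)) B)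
    (j : (ℕ →₀ (MF d (one k t)).X) →ₗ[R] B.X)
    (hj : ∀ l s, j (Finsupp.single l s) = (y ^ l) (i s)) (a : Fin d.n1) :
    (y - B.act t) (j (ckrev_rep d t a)) =
      Dop k d y (fun b => i (gen d (one k t).V b (1 : K))) a := by
  have hc : Commute y (B.act t) := mem_HomF'.mp hy t
  have hg : ∀ (m : ℕ) b, i (gen d (one k t).V b (((one k t).V.x ^ m) (1 : K))) =
      (B.act t ^ m) (i (gen d (one k t).V b (1 : K))) := fun m b => by
    rw [ckrev_xpow, ← ckrev_gen, ← map_pow]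
    exact LinearMap.congr_fun (mem_HomF'.mp hi (t ^ m)) _
  have h0 := congrArg i (gen_rel d (one k t).V a (1 : K))
  rw [map_zero, map_sum] at h0
  rw [← sub_zero (Dop k d y _ a), ← h0, Dop_apply, ← Finset.sum_sub_distrib, ckrev_rep, map_sum,
    map_sum]
  refine Finset.sum_congr rfl fun m _ => ?_
  rw [Finset.sum_comm, map_sum, map_sum, map_sum, ← Finset.sum_sub_distrib]
  refine Finset.sum_congr rfl fun b _ => ?_
  rw [map_smul, hg, ← smul_sub, ← LinearMap.sub_apply, ← hc.mul_geom_sum₂, Module.End.mul_apply,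
    ← map_smul, LinearMap.sum_apply, Finset.smul_sum, map_sum j]
  refine congrArg _ (Finset.sum_congr rfl fun l _ => ?_)
  rw [hj, map_smul, map_smul, hg, Module.End.mul_apply]

/-- Laurent polynomials with coefficients in `A` -/
def ckrev_L (A : FO k R K) : FO k R K := ⟨⟨ℤ →₀ A.X⟩, Algebra.lsmul k R (ℤ →₀ A.X)⟩

/-- the shift by `ε` -/
def ckrev_y (A : FO k R K) (ε : ℤ) : Module.End R (ckrev_L A).X :=
  (Finsupp.lmapDomain A.X R fun l : ℤ => l + ε : (ℤ →₀ A.X) →ₗ[R] (ℤ →₀ A.X))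

theorem ckrev_y_single (A : FO k R K) (ε l : ℤ) (s : A.X) :
    ckrev_y A ε (Finsupp.single l s : ℤ →₀ A.X) = (Finsupp.single (l + ε) s : ℤ →₀ A.X) :=
  Finsupp.mapDomain_single

theorem ckrev_y_pow (A : FO k R K) (ε l : ℤ) (s : A.X) (n : ℕ) :
    (ckrev_y A ε ^ n) (Finsupp.single l s : ℤ →₀ A.X) =
      (Finsupp.single (l + ε * n) s : ℤ →₀ A.X) := by
  induction n with
  | zero => rw [pow_zero, Nat.cast_zero, mul_zero, add_zero]; rfl
  | succ n ih =>
    rw [pow_succ', Module.End.mul_apply, ih, ckrev_y_single, Nat.cast_succ, mul_add, mul_one,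
      add_assoc]

theorem ckrev_y_mem (A : FO k R K) (ε : ℤ) : ckrev_y A ε ∈ HomF (ckrev_L A) (ckrev_L A) :=
  fun c w => Finsupp.mapDomain_smul c (w : ℤ →₀ A.X)

theorem ckrev_y_mul (A : FO k R K) (ε : ℤ) : ckrev_y A ε * ckrev_y A (-ε) = 1 :=
  Finsupp.lhom_ext (R := R) fun l s => by
    refine (congrArg (ckrev_y A ε) (ckrev_y_single A (-ε) l s)).trans ?_
    rw [ckrev_y_single, neg_add_cancel_right]
    rfl

theorem ckrev_y_inj0 (A : FO k R K) (t : K) (w : ℤ →₀ A.X)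
    (e : Finsupp.mapDomain (fun l : ℤ => l + 1) w = t • w) : w = 0 := by
  by_contra h0
  have hne : w.support.Nonempty := Finsupp.support_nonempty_iff.mpr h0
  have e1 := DFunLike.congr_fun e (w.support.max' hne + 1)
  rw [Finsupp.mapDomain_apply (add_left_injective 1), Finsupp.smul_apply,
    Finsupp.notMem_support_iff.mp (fun h : w.support.max' hne + 1 ∈ w.support => by
      have := Finset.le_max' _ _ h
      omega), smul_zero] at e1
  exact Finsupp.mem_support_iff.mp (Finset.max'_mem _ hne) e1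

theorem ckrev_y_inj (A : FO k R K) (t : K) (w : (ckrev_L A).X)
    (hw : (ckrev_y A 1 - (ckrev_L A).act t) w = 0) : w = 0 :=
  ckrev_y_inj0 A t w (sub_eq_zero.mp hw)

/-- the embedding of polynomials -/
def ckrev_j {A' A : FO k R K} (i : A'.X →ₗ[R] A.X) (ε : ℤ) :
    (ℕ →₀ A'.X) →ₗ[R] (ckrev_L A).X :=
  (Finsupp.lmapDomain A.X R (fun n : ℕ => ε * n) ∘ₗ Finsupp.mapRange.linearMap i :
    (ℕ →₀ A'.X) →ₗ[R] (ℤ →₀ A.X))

theorem ckrev_j_single {A' A : FO k R K} (i : A'.X →ₗ[R] A.X) (ε : ℤ) (l : ℕ) (s : A'.X) :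
    ckrev_j i ε (Finsupp.single l s) = (Finsupp.single (ε * l) (i s) : ℤ →₀ A.X) := by
  change Finsupp.mapDomain _ (Finsupp.mapRange i i.map_zero (Finsupp.single l s)) = _
  rw [Finsupp.mapRange_single, Finsupp.mapDomain_single]

theorem ckrev_phiL (d : Fam R) {A' A : FO k R K} {i : A'.X →ₗ[R] A.X} (hi : i ∈ HomF A' A)
    (hb : Bijective i) (ε : ℤ) (hε : ε = 1 ∨ ε = -1) (N : Submodule K (Fin d.n1 → (ckrev_L A).X))
    (hN : ∀ w, w ∈ N ↔ ∃ z, Dop k d (ckrev_y A ε) z = w) (hN') :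
    ∃ φ : EE d A'.X →ₗ[K] (Fin d.n1 → (ckrev_L A).X) ⧸ N,
      (∀ z, φ (Emk d A'.X z) = N.mkQ fun a => ckrev_j i ε (z a)) ∧
      (∀ u, φ (EXF d A' u) = ckrev_q N (ckrev_y_mem A ε) hN' (φ u)) ∧
      (∀ u, φ u = 0 → ∃ n : ℕ, (EXF d A' ^ n) u = 0) ∧
      (∀ l, ∃ (n : ℕ) (u : EE d A'.X), (ckrev_q N (ckrev_y_mem A ε) hN' ^ n) l = φ u) := by
  have hj : ckrev_j i ε ∘ₗ shift R A'.X = ckrev_y A ε ∘ₗ ckrev_j i ε :=
    Finsupp.lhom_ext fun l s => by
      rw [LinearMap.comp_apply, LinearMap.comp_apply, shift_single, ckrev_j_single, ckrev_j_single,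
        ckrev_y_single, Nat.cast_succ, mul_add, mul_one]
  refine ckrev_phi d A' (ckrev_L A) (ckrev_y_mem A ε) _ hj ?_ (fun w => ?_) (fun c z => ?_) N hN hN'
  · refine (Finsupp.mapDomain_injective (f := fun n : ℕ => ε * n) fun a b h => ?_).comp
      (Finsupp.mapRange_injective i i.map_zero hb.1)
    rcases hε with rfl | rfl <;> simp only at h <;> omega
  · induction (w : ℤ →₀ A.X) using Finsupp.induction_linear with
    | zero => exact ⟨0, 0, (map_zero _).trans (map_zero _).symm⟩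
    | add f g hf hg =>
      obtain ⟨n, z, hz⟩ := hf
      obtain ⟨n', z', hz'⟩ := hg
      refine ⟨n + n', (shift R A'.X ^ n') z + (shift R A'.X ^ n) z', ?_⟩
      rw [map_add (ckrev_j i ε), ckrev_natpow hj, ckrev_natpow hj, ← hz, ← hz',
        ← Module.End.mul_apply, ← Module.End.mul_apply, ← pow_add, ← pow_add, add_comm n' n]
      exact map_add _ _ _
    | single l s =>
      obtain ⟨s', rfl⟩ := hb.2 s
      refine ⟨l.natAbs, Finsupp.single (ε * l + l.natAbs).toNat s', ?_⟩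
      rw [ckrev_y_pow, ckrev_j_single]
      refine congrArg (fun m => (Finsupp.single m (i s') : ℤ →₀ A.X)) ?_
      rcases hε with rfl | rfl <;> omega
  · have e : ckrev_j i ε ∘ₗ Finsupp.mapRange.linearMap (A'.act c) =
        (ckrev_L A).act c ∘ₗ ckrev_j i ε := Finsupp.lhom_ext fun l s => by
      rw [LinearMap.comp_apply, LinearMap.comp_apply, Finsupp.mapRange.linearMap_apply,
        Finsupp.mapRange_single, ckrev_j_single, ckrev_j_single]
      exact ((Finsupp.smul_single c _ _).trans (congrArg _ (hi c s).symm)).symm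
    exact LinearMap.congr_fun e z

theorem ckrev_relM (d : Fam R) {t : K} (ht : t ≠ 0) {T : Md k R} (z : Fin d.n0 → K →ₗ[k] T)
    (a : Fin d.n1) (v : K) :
    ∑ i ∈ Finset.range (d.r + 1), ∑ b, d.rev.c i a b • z b (((one k t⁻¹).V.x ^ i) v) =
    ∑ i ∈ Finset.range (d.r + 1), ∑ b, d.c i a b • z b (((one k t).V.x ^ i) (t⁻¹ ^ d.r * v)) := by
  rw [← Finset.sum_flip]
  refine Finset.sum_congr rfl fun i hi => Finset.sum_congr rfl fun b _ => ?_
  have hi' : i ≤ d.r := Nat.lt_succ_iff.mp (Finset.mem_range.mp hi)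
  rw [ckrev_xpow, ckrev_xpow, ← ckrev_pow (inv_mul_cancel₀ ht) (mul_inv_cancel₀ ht) hi',
    mul_left_comm, mul_assoc]
  change d.c (d.r - (d.r - i)) a b • _ = _
  rw [Nat.sub_sub_self hi']

theorem ckrev_al (d : Fam R) {t : K} (ht : t ≠ 0) :
    ∃ al ∈ HomF (MF d.rev (one k t⁻¹)) (MF d (one k t)),
    ∃ al' ∈ HomF (MF d (one k t)) (MF d.rev (one k t⁻¹)),
      al ∘ₗ al' = LinearMap.id ∧ al' ∘ₗ al = LinearMap.id ∧
      ∀ b v, al (gen d.rev (one k t⁻¹).V b v) = gen d (one k t).V b v := by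
  refine ⟨Mlift d.rev (one k t⁻¹).V (gen d (one k t).V) (fun a v =>
      (ckrev_relM d ht (gen d (one k t).V) a v).trans (gen_rel d (one k t).V a _)),
    mem_HomF'.mpr fun c => M_ext fun b v => ?_,
    Mlift d (one k t).V (gen d.rev (one k t⁻¹).V) (fun a v => ?_),
    mem_HomF'.mpr fun c => M_ext fun b v => ?_, M_ext fun b v => ?_, M_ext fun b v => ?_,
    fun b v => Mlift_gen _ _ _ _ _ _⟩
  · rw [LinearMap.comp_apply, LinearMap.comp_apply, ckrev_gen, Mlift_gen, Mlift_gen]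
    exact (ckrev_gen d t c v b).symm
  · have e := ckrev_relM d ht (gen d.rev (one k t⁻¹).V) a (t ^ d.r * v)
    rw [← mul_assoc, ← mul_pow, inv_mul_cancel₀ ht, one_pow, one_mul] at e
    exact e.symm.trans (gen_rel d.rev (one k t⁻¹).V a _)
  · rw [LinearMap.comp_apply, LinearMap.comp_apply, ckrev_gen, Mlift_gen, Mlift_gen]
    exact (ckrev_gen d.rev t⁻¹ c v b).symm
  · rw [LinearMap.comp_apply, Mlift_gen]
    exact Mlift_gen _ _ _ _ _ _
  · rw [LinearMap.comp_apply, Mlift_gen]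
    exact Mlift_gen _ _ _ _ _ _

theorem ckrev_relY (d : Fam R) {t : K} (ht : t ≠ 0) {T : Md k R} (z : Fin d.n1 → T →ₗ[k] K)
    (b : Fin d.n0) (s : T) :
    ∑ i ∈ Finset.range (d.r + 1), ∑ a, ((one k t⁻¹).V.x ^ i) (z a (d.rev.c i a b • s)) =
    t⁻¹ ^ d.r * ∑ i ∈ Finset.range (d.r + 1), ∑ a, ((one k t).V.x ^ i) (z a (d.c i a b • s)) := by
  rw [← Finset.sum_flip, Finset.mul_sum]
  refine Finset.sum_congr rfl fun i hi => ?_
  rw [Finset.mul_sum]
  refine Finset.sum_congr rfl fun a _ => ?_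
  have hi' : i ≤ d.r := Nat.lt_succ_iff.mp (Finset.mem_range.mp hi)
  rw [ckrev_xpow, ckrev_xpow, ← ckrev_pow (inv_mul_cancel₀ ht) (mul_inv_cancel₀ ht) hi', mul_assoc]
  change _ * (_ * z a (d.c (d.r - (d.r - i)) a b • s)) = _
  rw [Nat.sub_sub_self hi']

variable [FiniteDimensional k R]

theorem ckrev_Yext {d : Fam R} {V : XV k} {T : Md k R} {f g : T →ₗ[R] Y d V}
    (h : ∀ a s, cog d V a (f s) = cog d V a (g s)) : f = g :=
  LinearMap.ext fun s => Y_ext fun r a => by rw [← map_smul, ← map_smul, h]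

theorem ckrev_cog (d : Fam R) (y c : K) (a : Fin d.n1) (s : Y d (one k y).V) :
    cog d (one k y).V a ((YF d (one k y)).act c s) = c * cog d (one k y).V a s :=
  cog_map d ((one k y).sc c) a s

theorem ckrev_be (d : Fam R) {t : K} (ht : t ≠ 0) :
    ∃ be ∈ HomF (YF d (one k t)) (YF d.rev (one k t⁻¹)),
    ∃ be' ∈ HomF (YF d.rev (one k t⁻¹)) (YF d (one k t)),
      be ∘ₗ be' = LinearMap.id ∧ be' ∘ₗ be = LinearMap.id := by
  refine ⟨Ylift d.rev (one k t⁻¹).V (cog d (one k t).V) (fun b s =>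
      (ckrev_relY d ht (cog d (one k t).V) b s).trans ?_),
    mem_HomF'.mpr fun c => ckrev_Yext fun a s => ?_,
    Ylift d (one k t).V (cog d.rev (one k t⁻¹).V) (fun b s => ?_),
    mem_HomF'.mpr fun c => ckrev_Yext fun a s => ?_, ckrev_Yext fun a s => ?_,
    ckrev_Yext fun a s => ?_⟩
  · exact (congrArg _ (cog_rel d (one k t).V b s)).trans (mul_zero _)
  · rw [LinearMap.comp_apply, LinearMap.comp_apply, ckrev_cog, cog_Ylift, cog_Ylift]
    exact ckrev_cog d t c a s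
  · have e := ckrev_relY d ht (cog d.rev (one k t⁻¹).V) b s
    exact (mul_eq_zero.mp (e.symm.trans (cog_rel d.rev (one k t⁻¹).V b s))).resolve_left
      (pow_ne_zero _ (inv_ne_zero ht))
  · rw [LinearMap.comp_apply, LinearMap.comp_apply, ckrev_cog, cog_Ylift, cog_Ylift]
    exact ckrev_cog d.rev t⁻¹ c a s
  · rw [LinearMap.comp_apply, cog_Ylift]
    exact cog_Ylift _ _ _ _ _ _
  · rw [LinearMap.comp_apply, cog_Ylift]
    exact cog_Ylift _ _ _ _ _ _

omit [FiniteDimensional k R] in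
theorem ckrev_cmp (d : Fam R) {t : K} (ht : t ≠ 0) (B : FO k R K) {y y' : Module.End R B.X}
    (hy : y ∈ HomF B B) (h : y * y' = 1) (h' : y' * y = 1)
    (hinj : ∀ w, (y - B.act t) w = 0 → w = 0) (z : Fin d.n0 → B.X) (a : Fin d.n1) (w w' : B.X)
    (e : (y - B.act t) w = Dop k d y z a) (e' : (y' - B.act t⁻¹) w' = Dop k d.rev y' z a) :
    y w = B.act (-t⁻¹) ((y ^ d.r) w') := by
  have hc : ∀ c, y * B.act c = B.act c * y := fun c => mem_HomF'.mp hy c
  have e1 : (y ^ d.r) ((y' - B.act t⁻¹) w') = (y - B.act t) w := by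
    rw [e', ckrev_Dop d h h', ← Module.End.mul_apply, ckrev_pow h h' le_rfl, Nat.sub_self,
      pow_zero, e, Module.End.one_apply]
  have e2 : (y - B.act t) * (B.act (-t⁻¹) * y ^ d.r) = y * (y ^ d.r * (y' - B.act t⁻¹)) := by
    have c1 : Commute y (B.act t⁻¹) := hc _
    have c2 : Commute y y' := h.trans h'.symm
    rw [(c2.sub_right c1).pow_left d.r, ← mul_assoc, ← mul_assoc, sub_mul, mul_sub, h, ← map_mul,
      mul_neg t, mul_inv_cancel₀ ht, map_neg, map_neg, map_one, mul_neg, sub_neg_eq_add,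
      neg_add_eq_sub]
  have e3 : (y - B.act t) * y = y * (y - B.act t) := by rw [sub_mul, mul_sub, hc]
  refine sub_eq_zero.mp (hinj _ ?_)
  rw [map_sub, sub_eq_zero]
  refine (LinearMap.congr_fun e3 w).trans (Eq.trans ?_ (LinearMap.congr_fun e2 w').symm)
  rw [Module.End.mul_apply, Module.End.mul_apply, Module.End.mul_apply, e1]

/-- constants as Laurent polynomials -/
def ckrev_i (A : FO k R K) : A.X →ₗ[R] (ckrev_L A).X :=
  (Finsupp.lsingle 0 : A.X →ₗ[R] (ℤ →₀ A.X))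

omit [FiniteDimensional k R] in
theorem ckrev_i_mem (A : FO k R K) : ckrev_i A ∈ HomF A (ckrev_L A) :=
  fun c s => (Finsupp.smul_single c (0 : ℤ) s).symm

omit [FiniteDimensional k R] in
theorem ckrev_ji {A' A : FO k R K} (i : A'.X →ₗ[R] A.X) (ε : ℤ) (l : ℕ) (s : A'.X) :
    ckrev_j i ε (Finsupp.single l s) = (ckrev_y A ε ^ l) ((ckrev_i A ∘ₗ i) s) := by
  refine (ckrev_j_single i ε l s).trans (Eq.trans ?_ (ckrev_y_pow A ε 0 (i s) l).symm)
  rw [zero_add]

omit [FiniteDimensional k R] in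
theorem ckrev_core (d : Fam R) {t : K} (ht : t ≠ 0) (A A' : FO k R K) {al : A'.X →ₗ[R] A.X}
    (hal : al ∈ HomF A' A) (hb : Bijective al) (ρ : Fin d.n1 → ℕ →₀ A.X)
    (ρ' : Fin d.n1 → ℕ →₀ A'.X) (g : Fin d.n0 → (ckrev_L A).X)
    (r1 : ∀ a, (ckrev_y A 1 - (ckrev_L A).act t) (ckrev_j LinearMap.id 1 (ρ a)) =
      Dop k d (ckrev_y A 1) g a)
    (r2 : ∀ a, (ckrev_y A (-1) - (ckrev_L A).act t⁻¹) (ckrev_j al (-1) (ρ' a)) =
      Dop k d.rev (ckrev_y A (-1)) g a)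
    (he : EXF d A (Emk d A.X ρ) = t • Emk d A.X ρ)
    (he' : EXF d.rev A' (Emk d.rev A'.X ρ') = t⁻¹ • Emk d.rev A'.X ρ') :
    (Emk d A.X ρ ≠ 0 → Emk d.rev A'.X ρ' ≠ 0) ∧ ∀ f : K[X],
      (∀ (u : EE d A.X) (g : K[X]), g ≠ 0 → polE d A g u = 0 →
        ∃ (c : K) (n : ℕ), polE d A (f ^ n) (u - Emap d (A.act c) (Emk d A.X ρ)) = 0) →
      ∀ (u : EE d.rev A'.X) (g : K[X]), g ≠ 0 → polE d.rev A' g u = 0 →
        ∃ (c : K) (n : ℕ), polE d.rev A' ((X * reflect f.natDegree f) ^ n)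
          (u - Emap d.rev (A'.act c) (Emk d.rev A'.X ρ')) = 0 := by
  have hy := ckrev_y_mul A 1
  have hy' := ckrev_y_mul A (-1)
  rw [neg_neg] at hy'
  set N := ckrev_N d (ckrev_L A) (ckrev_y A 1) (ckrev_y_mem A 1)
  have hc : Commute (ckrev_y A 1) (ckrev_y A (-1)) := hy.trans hy'.symm
  have hN : ∀ g : Module.End R (ckrev_L A).X, Commute g (ckrev_y A 1) →
      ∀ w ∈ N, (fun a => g (w a)) ∈ N := by
    rintro g hg _ ⟨z, rfl⟩
    exact ⟨fun b => g (z b), Dop_nat d _ _ g hg z⟩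
  have hN2 : ∀ w, w ∈ N ↔ ∃ z, Dop k d.rev (ckrev_y A (-1)) z = w := fun w => by
    constructor
    · rintro ⟨z, rfl⟩
      refine ⟨fun b => (ckrev_y A 1 ^ d.r) (z b), funext fun a => ?_⟩
      rw [ckrev_Dop d hy hy', Dop_nat d (ckrev_y A 1) (ckrev_y A 1) (ckrev_y A 1 ^ d.r)
        ((Commute.refl (ckrev_y A 1)).pow_left d.r) z,
        ← Module.End.mul_apply, ckrev_pow hy' hy le_rfl, Nat.sub_self, pow_zero,
        Module.End.one_apply]
    · rintro ⟨z, rfl⟩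
      have e : Dop k d.rev (ckrev_y A (-1)) z = _ := funext (ckrev_Dop d hy hy' z)
      rw [e]
      exact hN _ (hc.symm.pow_left d.r) _ ⟨z, rfl⟩
  obtain ⟨φ, p1, p2, p3, p4⟩ := ckrev_phiL d (HomF.id A) bijective_id 1 (Or.inl rfl) N
    (fun _ => Iff.rfl) (hN _ (Commute.refl _))
  obtain ⟨φ', q1, q2, q3, -⟩ := ckrev_phiL d.rev hal hb (-1) (Or.inr rfl) N hN2 (hN _ hc.symm)
  have m1 : ckrev_q N (ckrev_y_mem A 1) (hN _ (Commute.refl _)) *
      ckrev_q N (ckrev_y_mem A (-1)) (hN _ hc.symm) = 1 := LinearMap.ext fun l => by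
    obtain ⟨w, rfl⟩ := N.mkQ_surjective l
    exact congrArg N.mkQ (funext fun a => LinearMap.congr_fun hy _)
  have m2 : ckrev_q N (ckrev_y_mem A (-1)) (hN _ hc.symm) *
      ckrev_q N (ckrev_y_mem A 1) (hN _ (Commute.refl _)) = 1 := LinearMap.ext fun l => by
    obtain ⟨w, rfl⟩ := N.mkQ_surjective l
    exact congrArg N.mkQ (funext fun a => LinearMap.congr_fun hy' _)
  refine ckrev_abs (EXF d A) (EXF d.rev A') _ _ m1 m2 φ φ' p2 q2 p3 q3 p4 t ht
    _ _ he (t⁻¹ * (-t⁻¹ * t ^ d.r)) ?_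
  have s1 := (p2 (Emk d A.X ρ)).symm.trans ((congrArg φ he).trans (φ.map_smul t _))
  have s2 := (q2 (Emk d.rev _ ρ')).symm.trans ((congrArg φ' he').trans (φ'.map_smul t⁻¹ _))
  have s3 : ckrev_q N (ckrev_y_mem A 1) (hN _ (Commute.refl _)) (φ' (Emk d.rev _ ρ')) =
      t • φ' (Emk d.rev _ ρ') := by
    have e := congrArg (ckrev_q N (ckrev_y_mem A 1) (hN _ (Commute.refl _))) s2
    rw [← Module.End.mul_apply, m1, map_smul, Module.End.one_apply, eq_inv_smul_iff₀ ht] at e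
    exact e.symm
  rw [mul_smul, mul_smul, ← ckrev_eig s3, eq_inv_smul_iff₀ ht, ← s1, p1, q1, ckrev_q_mk,
    ckrev_q_pow, ← map_smul]
  exact congrArg N.mkQ (funext fun a => ckrev_cmp d ht (ckrev_L A) (ckrev_y_mem A 1) hy hy'
    (ckrev_y_inj A t) g a _ _ (r1 a) (r2 a))

theorem ckrev_th (hC : S_CST k R) {A A' B B' : FO k R K} {al al' be be'}
    (h1 : al ∈ HomF A' A) (h2 : al' ∈ HomF A A') (h3 : al ∘ₗ al' = LinearMap.id)
    (h4 : al' ∘ₗ al = LinearMap.id) (h5 : be ∈ HomF B B') (h6 : be' ∈ HomF B' B)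
    (h7 : be ∘ₗ be' = LinearMap.id) (h8 : be' ∘ₗ be = LinearMap.id)
    (h : ∃ a ∈ HomF A B, ∃ b ∈ HomF B A, Cst A A (b ∘ₗ a - LinearMap.id) ∧
      Cst B B (a ∘ₗ b - LinearMap.id)) :
    ∃ a ∈ HomF A' B', ∃ b ∈ HomF B' A', Cst A' A' (b ∘ₗ a - LinearMap.id) ∧
      Cst B' B' (a ∘ₗ b - LinearMap.id) := by
  obtain ⟨a, ha, b, hb, c1, c2⟩ := h
  refine ⟨be ∘ₗ a ∘ₗ al, HomF.comp h5 (HomF.comp ha h1), al' ∘ₗ b ∘ₗ be',
    HomF.comp h2 (HomF.comp hb h6), ?_, ?_⟩
  · have e := hC.l K _ _ _ _ (hC.r K _ _ _ _ c1 al h1) al' h2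
    have e' : al' ∘ₗ (b ∘ₗ a - LinearMap.id) ∘ₗ al =
        (al' ∘ₗ b ∘ₗ be') ∘ₗ be ∘ₗ a ∘ₗ al - LinearMap.id := LinearMap.ext fun s => by
      have f1 : be' (be (a (al s))) = a (al s) := LinearMap.congr_fun h8 _
      have f2 : al' (al s) = s := LinearMap.congr_fun h4 _
      simp only [LinearMap.comp_apply, LinearMap.sub_apply, LinearMap.id_apply, map_sub, f1, f2]
    rwa [e'] at e
  · have e := hC.l K _ _ _ _ (hC.r K _ _ _ _ c2 be' h6) be h5
    have e' : be ∘ₗ (a ∘ₗ b - LinearMap.id) ∘ₗ be' =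
        (be ∘ₗ a ∘ₗ al) ∘ₗ al' ∘ₗ b ∘ₗ be' - LinearMap.id := LinearMap.ext fun s => by
      have f1 : al (al' (b (be' s))) = b (be' s) := LinearMap.congr_fun h3 _
      have f2 : be (be' s) = s := LinearMap.congr_fun h7 _
      simp only [LinearMap.comp_apply, LinearMap.sub_apply, LinearMap.id_apply, map_sub, f1, f2]
    rwa [e'] at e

end gen
end

theorem t_CKrev (k : Type u) [Field k] [IsAlgClosed k] (R : Type u) [Ring R] [Algebra k R]
    [FiniteDimensional k R]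
    (L : Lib k) :
    S_CKrev k R := by
  intro d K _ _ t hg h
  have ht : t ≠ 0 := fun h0 => hg.1 (h0 ▸ isAlgebraic_zero)
  obtain ⟨al, hal, al', hal', h1, h2, h3⟩ := ckrev_al (k := k) d ht
  obtain ⟨be, hbe, be', hbe', h4, h5⟩ := ckrev_be (k := k) d ht
  have hb : Bijective al := ⟨LeftInverse.injective (g := al') (LinearMap.congr_fun h2),
    RightInverse.surjective (g := al') (LinearMap.congr_fun h1)⟩
  have he : EX d (MF d (one k t)).X (eK d t) = Emap d ((MF d (one k t)).act t) (eK d t) :=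
    sub_eq_zero.mp ((L.bock R).ek_zero K d t)
  have he' : EX d.rev (MF d.rev (one k t⁻¹)).X (eK d.rev t⁻¹) =
      Emap d.rev ((MF d.rev (one k t⁻¹)).act t⁻¹) (eK d.rev t⁻¹) :=
    sub_eq_zero.mp ((L.bock R).ek_zero K d.rev t⁻¹)
  rw [ckrev_eK] at he he'
  have r2 := ckrev_B d.rev t⁻¹ (ckrev_L (MF d (one k t))) (ckrev_y_mem _ (-1))
    (HomF.comp (ckrev_i_mem _) hal) (ckrev_j al (-1)) (ckrev_ji al (-1))
  simp only [LinearMap.comp_apply, h3] at r2
  obtain ⟨c1, c2⟩ := ckrev_core d ht (MF d (one k t)) (MF d.rev (one k t⁻¹)) hal hb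
    (ckrev_rep d t) (ckrev_rep d.rev t⁻¹) _
    (ckrev_B d t (ckrev_L (MF d (one k t))) (ckrev_y_mem _ 1)
      (HomF.comp (ckrev_i_mem _) (HomF.id _)) (ckrev_j LinearMap.id 1) (ckrev_ji LinearMap.id 1))
    r2 he he'
  rw [← ckrev_eK, ← ckrev_eK] at c1 c2
  refine ⟨c1 h.ne, ?_, ckrev_th (L.cst R) hal hal' h1 h2 hbe hbe' h4 h5 h.th⟩
  obtain ⟨f, hf, hf'⟩ := h.tors
  refine ⟨X * reflect f.natDegree f,
    mul_ne_zero X_ne_zero (by rwa [Ne, reflect_eq_zero_iff]), fun u g hg hu => ?_⟩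
  obtain ⟨c, n, hc⟩ := c2 (f.map (algebraMap k K)) (fun u g hg hu => by
    obtain ⟨c, n, hc⟩ := hf' u g hg hu
    exact ⟨c, n, by rw [← Polynomial.map_pow, (L.bock R).polE_k]; exact hc⟩) u g hg hu
  refine ⟨c, n, ?_⟩
  rw [← (L.bock R).polE_k K, Polynomial.map_pow, Polynomial.map_mul, map_X, ← reflect_map,
    ← natDegree_map (algebraMap k K)]
  exact hc

end Pool.Agent.P.MP_cf639b_al
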