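import Pool.Agent.P.MP_cf639b_al.Iface

set_option linter.dupNamespace false

namespace Pool.Agent.P.MP_cf639b_al

universe u v
open TensorProduct Polynomial Function

section

variable {k : Type u} [Field k] {R : Type u} [Ring R] [Algebra k R]
  {F : Type u} [Field F] [Algebra k F]

theorem cl_smd {ι : Type} [Fintype ι] {A : FO k R F} {T : ι → FO k R F} (h : Decomp A T) (v : ι) :
    Smd (T v) A := by
  obtain ⟨i, p, h1, h2, h3, -, -⟩ := h
  exact ⟨i v, h1 v, p v, h2 v, h3 v⟩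

theorem cl_self (A : FO k R F) : Decomp A fun _ : Fin 1 => A :=
  ⟨fun _ => LinearMap.id, fun _ => LinearMap.id, fun _ => HomF.id A, fun _ => HomF.id A,
    fun _ => rfl, fun _ _ h => absurd (Subsingleton.elim _ _) h, by simp⟩

theorem cl_refine {ι : Type} [Fintype ι] {κ : ι → Type} [∀ v, Fintype (κ v)] {A : FO k R F}
    {T : ι → FO k R F} {T' : ∀ v, κ v → FO k R F} (h : Decomp A T) (h' : ∀ v, Decomp (T v) (T' v)) :
    Decomp A fun a : Σ v, κ v => T' a.1 a.2 := by
  obtain ⟨i, p, h1, h2, h3, h4, h5⟩ := h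
  choose i' p' g1 g2 g3 g4 g5 using h'
  refine ⟨fun a => i a.1 ∘ₗ i' a.1 a.2, fun a => p' a.1 a.2 ∘ₗ p a.1,
    fun a => HomF.comp (h1 _) (g1 _ _), fun a => HomF.comp (g2 _ _) (h2 _), fun a => ?_, ?_, ?_⟩
  · rw [LinearMap.comp_assoc, ← LinearMap.comp_assoc _ (i _), h3, LinearMap.id_comp, g3]
  · rintro ⟨v, l⟩ ⟨w, l'⟩ hne
    rw [LinearMap.comp_assoc, ← LinearMap.comp_assoc _ (i _)]
    by_cases e : v = w
    · subst e
      rw [h3, LinearMap.id_comp]
      exact g4 v l l' fun e => hne (by rw [e])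
    · rw [h4 v w e, LinearMap.zero_comp, LinearMap.comp_zero]
  · rw [Fintype.sum_sigma, ← h5]
    refine Finset.sum_congr rfl fun v _ => LinearMap.ext fun z => ?_
    have := congrArg (i v) (LinearMap.congr_fun (g5 v) (p v z))
    simpa only [LinearMap.sum_apply, LinearMap.comp_apply, map_sum, LinearMap.id_apply] using this

theorem cl_aeval {V V' : XV k} (g : XH V V') (p : k[X]) (v : V) :
    g.1 (aeval V.x p v) = aeval V'.x p (g.1 v) := by
  induction p using Polynomial.induction_on' with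
  | add p q hp hq => simp only [map_add, LinearMap.add_apply, hp, hq]
  | monomial n c => simp [aeval_monomial, Algebra.algebraMap_eq_smul_one, XH.comm_pow]

theorem cl_jq (q : F[X]) (p : k[X]) :
    aeval (Jq k q).V.x p (1 : QT q) = Qmk q (p.map (algebraMap k F)) := by
  have e := aeval_algHom_apply (Algebra.lmul k (QT q)) (Qmk q X) p
  have e' := aeval_algHom_apply (Ideal.Quotient.mkₐ k (Ideal.span {q})) X p
  rw [aeval_X_left_eq_map] at e'
  exact (LinearMap.congr_fun e (1 : QT q)).trans ((mul_one _).trans e')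

theorem cl_tr {V : XV k} (hV : KSp V) {y : F} {m : ℕ} (i : XH (J k y (m + 1)).V V)
    (p : XH V (J k y (m + 1)).V) (h : XH.comp p i = XH.id _) : Transcendental k y := by
  rintro ⟨g, hg, hy⟩
  have e1 : aeval (J k y (m + 1)).V.x (g ^ (m + 1)) (1 : JT y (m + 1)) = 0 := by
    rw [cl_jq, Ideal.Quotient.eq_zero_iff_mem, Ideal.mem_span_singleton, Polynomial.map_pow]
    exact pow_dvd_pow_of_dvd (dvd_iff_isRoot.2 (by rwa [IsRoot, eval_map_algebraMap])) _
  have e2 := cl_aeval i (g ^ (m + 1)) (1 : JT y (m + 1))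
  rw [e1, map_zero] at e2
  have e3 := (hV _ (pow_ne_zero _ hg)).1 (e2.symm.trans (map_zero _).symm)
  have e4 : p.1 (i.1 (1 : JT y (m + 1))) = (1 : JT y (m + 1)) :=
    LinearMap.congr_fun (congrArg Subtype.val h) _
  rw [e3, map_zero] at e4
  have e5 : Qmk ((X - C y) ^ (m + 1)) 1 = 0 := e4.symm
  rw [Ideal.Quotient.eq_zero_iff_mem, Ideal.mem_span_singleton] at e5
  exact not_isUnit_X_sub_C y (isUnit_of_dvd_one ((dvd_pow_self _ (Nat.succ_ne_zero m)).trans e5))

theorem cl_fd {G : NF k R} (hG : IsAF G) (V : FXV k F) (hV : KSp V.V)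
    (hn : Nontrivial V.V → Nontrivial (G.obj V.V)) (hf : (G.onF V).fd) : V.fd := by
  obtain ⟨n, h, i, j, h0, h1, -, h3, h4⟩ := hG
  rcases subsingleton_or_nontrivial V.V with hs | hs
  · exact Module.Finite.of_finite
  have := hn hs
  rcases n.eq_zero_or_pos with rfl | hn
  · exfalso
    let e := LinearEquiv.ofBijective (aeval V.V.x h) (hV h h0)
    let g : XH V.V V.V := ⟨e.symm, LinearMap.ext fun v => e.injective (by
      change e (e.symm (V.V.x v)) = (XH.pol V.V h).1 (V.V.x (e.symm v))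
      rw [XH.comm, e.apply_symm_apply]
      exact congrArg V.V.x (e.apply_symm_apply v).symm)⟩
    have e1 : XH.comp g (XH.pol V.V h) = XH.id _ :=
      Subtype.ext (LinearMap.ext fun v => e.symm_apply_apply v)
    obtain ⟨z, hz⟩ := exists_ne (0 : G.obj V.V)
    have e2 := LinearMap.congr_fun ((G.map_comp g _).symm.trans ((congrArg G.map e1).trans
      (G.map_id _))) z
    rw [LinearMap.comp_apply, ← h3, Subsingleton.elim (j V.V z) 0, map_zero, map_zero] at e2
    exact hz e2.symm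
  · letI := FO.module (G.onF V)
    let φ : V.V →ₗ[F] G.obj V.V :=
      { toFun := fun v => i V.V fun _ => v
        map_add' := fun v w => (i V.V).map_add (fun _ => v) fun _ => w
        map_smul' := fun c v => (h1 V.V V.V (V.sc c) fun _ => v).symm }
    have : Module.Finite F (G.obj V.V) := hf
    refine Module.Finite.of_injective φ ((injective_iff_map_eq_zero φ).2 fun v hv => ?_)
    have e : j V.V (φ v) = _ := h4 V.V fun _ => v
    rw [hv, map_zero] at e
    exact (hV h h0).1 ((congrFun e ⟨0, hn⟩).symm.trans (map_zero _).symm)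

end

theorem t_CL (k : Type u) [Field k] [IsAlgClosed k] (R : Type u) [Ring R] [Algebra k R]
    [FiniteDimensional k R]
    (L : Lib k)
    (hRED : S_RED k R) :
    S_CL k R := by
  intro hN F _ _ _ N hf
  obtain ⟨D, V, h1, h2⟩ := hRED hN F N F (isFiniteLength_iff_isNoetherian_isArtinian.2
    ⟨inferInstance, inferInstance⟩)
  have key : ∀ v, ∃ (n : ℕ) (W : Fin n → FXV k F),
      Decomp (MF (D.d v) (V v)) (fun l => MF (D.d v) (W l)) ∧
      ∀ l, (D.K v = false ∧ (W l).V.x = 0) ∨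
        (D.K v = true ∧ ∃ (y : F) (m : ℕ), Transcendental k y ∧ W l = J k y (m + 1)) := by
    intro v
    have h := h1 v
    cases hK : D.K v
    · rw [hK] at h
      exact ⟨1, fun _ => V v, cl_self _, fun _ => Or.inl ⟨rfl, h⟩⟩
    · rw [hK] at h
      have hV : KSp (V v).V := h
      obtain ⟨n, y, m, i, p, g1, g2, g3, g4, g5⟩ := L.jord F (V v) (cl_fd ((L.af R).m _) _ hV
        ((L.pg R).nt ⟨D, v, hK⟩ _ ((L.pg R).alK _ _ D.hf hV))
        ((L.id R).smd_fd F _ _ (cl_smd h2 v) hf).1)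
      refine ⟨n, fun l => J k (y l) (m l + 1), ⟨fun l => (MN _).map (i l), fun l => (MN _).map (p l),
        fun l => NF.map_mem _ _ (g1 l), fun l => NF.map_mem _ _ (g2 l), fun l => ?_,
        fun l l' h => ?_, ?_⟩, fun l => Or.inr ⟨rfl, _, _, cl_tr hV _ _ (g3 l), rfl⟩⟩
      · rw [← NF.map_comp, g3, NF.map_id]
      · rw [← NF.map_comp, g4 l l' h, map_zero]
      · refine (Finset.sum_congr rfl fun l _ => ((MN _).map_comp _ _).symm).trans ?_
        rw [← map_sum, g5, NF.map_id]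
  choose n W g1 g2 using key
  exact ⟨D, Σ v, Fin (n v), inferInstance, fun a => a.1, fun a => W a.1 a.2, cl_refine h2 g1,
    fun a => g2 a.1 a.2⟩

theorem t_CL1 (k : Type u) [Field k] [IsAlgClosed k] (R : Type u) [Ring R] [Algebra k R]
    [FiniteDimensional k R]
    (L : Lib k)
    (hCL : S_CL k R) :
    S_CL1 k R := by
  intro hN F _ _ _ N hf hl
  obtain ⟨D, ι, _, v, V, h1, h2⟩ := hCL hN F N hf
  obtain ⟨i, hi⟩ := (L.ks R).exch F N N ι _ hl h1 ⟨_, HomF.id N, _, HomF.id N, rfl⟩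
  rcases h2 i with ⟨-, h⟩ | ⟨hK, y, m, hy, h⟩
  · obtain ⟨Q, hQ, f, f1, f2⟩ := (L.cst R).zx F _ _ h ((L.id R).smd_fd F _ _ (cl_smd h1 i) hf).1
    obtain ⟨g, g1, g2, -⟩ := (L.id R).iso_inv F _ _ f f1 f2
    obtain ⟨a, a1, b, b1, e⟩ := hi
    have s1 : Smd N (TenF F Q) := ⟨f ∘ₗ a, HomF.comp f1 a1, b ∘ₗ g, HomF.comp b1 g1, by
      rw [LinearMap.comp_assoc, ← LinearMap.comp_assoc _ f, g2, LinearMap.id_comp, e]⟩
    have hQ' := ((L.fd R).ofk (FO.ofMd Q)).2 hQ
    obtain ⟨n, T, t1, t2⟩ := (L.ks R).dec k (FO.ofMd Q) hQ'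
    have mem : ∀ (Q Q' : Md k R) (g : Q →ₗ[R] Q'),
        (TenA F).map g ∈ HomF (TenF F Q) (TenF F Q') := fun Q Q' g =>
      mem_HomF'.2 fun c => AlgebraTensorModule.ext fun _ _ => rfl
    have d : Decomp (TenF F Q) fun l => TenF F (T l).X := by
      obtain ⟨i, p, -, -, h3, h4, h5⟩ := t2
      refine ⟨fun l => (TenA F).map (i l), fun l => (TenA F).map (p l), fun l => mem _ _ _,
        fun l => mem _ _ _, fun l => ?_, fun l l' h => ?_, ?_⟩
      · exact ((TenA F).map_comp _ _).symm.trans ((congrArg _ (h3 l)).trans ((TenA F).map_id _))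
      · exact ((TenA F).map_comp _ _).symm.trans ((congrArg _ (h4 l l' h)).trans (map_zero _))
      · refine (Finset.sum_congr rfl fun l _ => ((TenA F).map_comp _ _).symm).trans ?_
        exact (map_sum _ _ _).symm.trans ((congrArg _ h5).trans ((TenA F).map_id _))
    obtain ⟨l, hl'⟩ := (L.ks R).exch F N _ _ _ hl d s1
    have fl := ((L.fd R).ofk _).1 ((L.id R).smd_fd k _ _ (cl_smd t2 l) hQ').1
    exact Or.inl ⟨_, fl, (L.ks R).smd_iso F _ _ hl.1 (L.bcloc R F _ fl
      ⟨(t1 l).1, fun u _ => (t1 l).2 u (mem_HomF_k (A := T l) (B := T l) u)⟩) hl'⟩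
  · rw [h] at hi
    exact Or.inr ⟨⟨D, v i, hK⟩, y, m, hy, (L.ks R).smd_iso F _ _ hl.1
      ((L.pg R).locJ ⟨D, v i, hK⟩ F y m fun e => hy ⟨D.f, D.hf, e⟩) hi⟩

end Pool.Agent.P.MP_cf639b_al
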