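import Pool.Agent.P.MP_cf639b_al.Iface

set_option linter.dupNamespace false

namespace Pool.Agent.P.MP_cf639b_al

universe u v
open TensorProduct Polynomial Function

section
variable {k : Type u} [Field k] {R : Type u} [Ring R] [Algebra k R]

theorem d1_nt (d : Fam R) (V : XV k) (h : Nontrivial (M d V)) : Nontrivial V := by
  by_contra hV
  rw [not_nontrivial_iff_subsingleton] at hV
  obtain ⟨t, ht⟩ := exists_ne (0 : M d V)
  have e : XH.id V = 0 := Subtype.ext (LinearMap.ext fun _ => Subsingleton.elim _ _)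
  have h1 := (MN d).map_id V
  rw [e, map_zero] at h1
  exact ht (LinearMap.congr_fun h1 t).symm

theorem d1_blk {ι : Type} [Fintype ι] (A : Md k R) (T : ι → Md k R) (hA : Nontrivial A)
    (i : ∀ v, T v →ₗ[R] A) (p : ∀ v, A →ₗ[R] T v) (h : ∑ v, i v ∘ₗ p v = LinearMap.id) :
    ∃ v, Nontrivial (T v) := by
  by_contra hT
  obtain ⟨t, ht⟩ := exists_ne (0 : A)
  refine ht ((LinearMap.congr_fun h t).symm.trans ?_)
  rw [LinearMap.sum_apply]
  refine Finset.sum_eq_zero fun v _ => ?_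
  have := not_nontrivial_iff_subsingleton.1 fun h' => hT ⟨v, h'⟩
  rw [LinearMap.comp_apply, Subsingleton.elim (p v t) 0, map_zero]

theorem d1_smd (d : Fam R) (V : XV k) (hV : Nontrivial V) (hx : V.x = 0) :
    ∃ (i : M d (one k (0 : k)).V →ₗ[R] M d V) (p : M d V →ₗ[R] M d (one k (0 : k)).V),
      p ∘ₗ i = LinearMap.id := by
  obtain ⟨v, hv⟩ := exists_ne (0 : V)
  obtain ⟨l, hl⟩ := Module.Projective.exists_dual_eq_one k hv
  let i0 : XH (one k (0 : k)).V V := ⟨LinearMap.toSpanSingleton k V v, LinearMap.ext fun c => by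
    change ((0 : k) * c) • v = V.x _
    rw [hx, zero_mul, zero_smul, LinearMap.zero_apply]⟩
  let p0 : XH V (one k (0 : k)).V := ⟨l, LinearMap.ext fun c => by
    change l (V.x c) = (0 : k) * l c
    rw [hx, zero_mul, LinearMap.zero_apply, map_zero]⟩
  have e : XH.comp p0 i0 = XH.id _ := Subtype.ext (LinearMap.ext fun c : k => by
    change l (c • v) = c
    rw [map_smul, hl, smul_eq_mul, mul_one])
  exact ⟨(MN d).map i0, (MN d).map p0, by rw [← (MN d).map_comp, e, (MN d).map_id]⟩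

theorem d1_als (hP : S_PG k R) (hA : S_ALS k R) (N0 N : Md k R) (hfd : N0.fd)
    (hL : Loc (FO.ofMd N0)) (r0 : N0 →ₗ[R] N) (s0 : N →ₗ[R] N0) (h0 : s0 ∘ₗ r0 = LinearMap.id) :
    ∃ π : Pr k R, π.Open N ∧ ∀ H : PG k R, ¬ π.Open H.G := by
  obtain ⟨Z, j, hZ, hj⟩ := hA N0 hfd hL
  refine ⟨⟨N0, hfd, ⟨N0, hfd, LinearMap.id⟩, ⟨Z, hZ, j⟩⟩, fun h => ?_, fun H h => h ?_⟩
  · obtain ⟨g, hg⟩ := h (show r0 ∈ _ from ⟨r0, rfl⟩)
    exact (hj N r0).1 ⟨g, hg.symm⟩ ⟨s0, h0⟩
  · intro r _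
    have key : ¬ ∃ s : H.G →ₗ[R] N0, s ∘ₗ r = LinearMap.id := by
      rintro ⟨s, hs⟩
      have hs' : ∀ t, s (r t) = t := LinearMap.congr_fun hs
      rcases hP.unitG H (r ∘ₗ s) with hb | hb
      · have h1 : Surjective r := Surjective.of_comp (g := s) hb.2
        exact hP.infG H (Module.Finite.of_surjective (r.restrictScalars k) h1)
      · obtain ⟨n, hn⟩ := hP.nilp H.D H.v _ (hP.alG H) _ hb
        have h2 : ∀ (m : ℕ) (t : N0), ((r ∘ₗ s : Module.End R H.G) ^ m) (r t) = r t := by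
          intro m t
          induction m with
          | zero => rfl
          | succ m ih => rw [pow_succ', Module.End.mul_apply, ih, LinearMap.comp_apply, hs']
        have := hL.1
        obtain ⟨t, ht⟩ := exists_ne (0 : N0)
        refine ht ((hs' t).symm.trans ?_)
        rw [← h2 n t, hn, LinearMap.zero_apply, map_zero]
    obtain ⟨g, hg⟩ := (hj H.G r).2 key
    exact ⟨g, hg.symm⟩

end

theorem t_D1 (k : Type u) [Field k] [IsAlgClosed k] (R : Type u) [Ring R] [Algebra k R]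
    [FiniteDimensional k R]
    (L : Lib k)
    (hRED : S_RED k R)
    (hENDO : S_ENDO k R) :
    S_D1 k R := by
  intro hND H hH
  obtain ⟨N, hN, hl, hop⟩ := hENDO hND (fun i => (H i).G) fun i => (L.pg R).ntG (H i)
  obtain ⟨D, V, hV, i, p, -, -, hpi, -, hsum⟩ := hRED hND k (FO.ofMd N) (Module.End R N) hl
  obtain ⟨v, hv⟩ := d1_blk N (fun v => M (D.d v) (V v).V) hN i p hsum
  have hVv := hV v
  have hnt := d1_nt _ _ hv
  by_cases hK : D.K v = true
  · rw [if_pos hK] at hVv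
    refine ⟨⟨D, v, hK⟩, fun π hπ => ?_⟩
    have h1 := (L.pp R).smd _ N (i v) (p v) π (hpi v) (((L.sames R).ksp _ _ hnt hVv π).2 hπ)
    obtain ⟨a, -, ha⟩ := hop π h1 0
    obtain ⟨b, hab, hb⟩ := hop π h1 (a + 1)
    by_contra hc
    have h2 : ∀ c, π.Open (H c).G → SameS (H c).G (PG.G ⟨D, v, hK⟩) := fun c h => by
      by_contra h'
      exact hc ⟨H c, h', h⟩
    exact hH a b (by omega) fun ρ => (h2 a ha ρ).trans (h2 b hb ρ).symm
  · exfalso
    rw [if_neg hK] at hVv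
    obtain ⟨i1, p1, h1⟩ := d1_smd (D.d v) (V v).V hnt hVv
    have hQ : (M (D.d v) (one k (0 : k)).V).fd :=
      ((L.fd R).mfd (D.d v) _ (Module.Finite.self k)).1
    have hQn : Nontrivial (M (D.d v) (one k (0 : k)).V) := by
      obtain ⟨t, ht⟩ := exists_ne (0 : M (D.d v) (V v).V)
      obtain ⟨n, a, b, hab⟩ := (L.cc R).zx (D.d v) (V v).V hVv {t}
      by_contra h
      rw [not_nontrivial_iff_subsingleton] at h
      refine ht ((hab t (Finset.mem_singleton_self t)).symm.trans ?_)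
      exact Finset.sum_eq_zero fun j _ => by rw [Subsingleton.elim (a j t) 0, map_zero]
    obtain ⟨n, T, hT, i2, p2, -, -, h2, -, hs2⟩ :=
      (L.ks R).dec k (FO.ofMd _) (((L.fd R).ofk (FO.ofMd _)).2 hQ)
    obtain ⟨j, -⟩ := d1_blk _ (fun j => (T j).X) hQn i2 p2 hs2
    have hfd : (T j).X.fd := Module.Finite.of_surjective ((p2 j).restrictScalars k)
      fun t => ⟨i2 j t, LinearMap.congr_fun (h2 j) t⟩
    obtain ⟨π, hπ, hc⟩ := d1_als (L.pg R) (L.als R) (T j).X N hfd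
      ⟨(hT j).1, fun u _ => (hT j).2 u (mem_HomF_k (A := T j) (B := T j) u)⟩ (i v ∘ₗ i1 ∘ₗ i2 j) (p2 j ∘ₗ p1 ∘ₗ p v)
      (LinearMap.ext fun t => (congrArg (fun z => p2 j (p1 z))
        (LinearMap.congr_fun (hpi v) _)).trans ((congrArg (p2 j)
          (LinearMap.congr_fun h1 _)).trans (LinearMap.congr_fun (h2 j) t)))
    obtain ⟨a, -, ha⟩ := hop π hπ 0
    exact hc (H a) ha

end Pool.Agent.P.MP_cf639b_al
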