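import Pool.Agent.P.MP_cf639b_al.IfE

set_option linter.dupNamespace false

namespace Pool.Agent.P.MP_cf639b_al

universe u
open TensorProduct Polynomial Function

noncomputable section

section aux
variable {k : Type u} [Field k] {R : Type u} [Ring R] [Algebra k R] [FiniteDimensional k R]
  {F : Type u} [Field F] [Algebra k F]

theorem e1_sq (L : Lib k) {B Z A : FO k R F} {ι : Type} {N : ι → FO k R F} {i : B.X →ₗ[R] Z.X}
    {p : Z.X →ₗ[R] A.X} (U : UX B N Z A i p) : SQ B Z A i p := by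
  refine ⟨U.hi, U.hp, U.inj, U.ex, fun f hf => U.fac A f hf ?_, fun C q hq => ?_⟩
  · obtain ⟨κ, _, c, inc, pr, hinc, hpr, _, _, h3⟩ := U.dec
    have hK := (U.univ Z i U.hi).1 ⟨LinearMap.id, HomF.id _, rfl⟩
    have h := Submodule.sum_mem (QQ true B A) (t := Finset.univ) fun s _ =>
      (L.qq R).l F true _ _ _ _ (hK (c s) _ (HomF.comp (hpr s) hf)) _ (hinc s)
    refine (congrArg (· ∈ QQ true B A) (LinearMap.ext fun t => ?_)).mp h
    have h4 := LinearMap.congr_fun h3 (f (i t))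
    rw [LinearMap.sum_apply] at h4 ⊢
    exact h4
  · obtain ⟨q', hq', h⟩ := U.lift C q hq
    exact ⟨q', (L.qq R).le F true _ _ hq', h⟩

theorem e1_tw (L : Lib k) {σ : F ≃ₐ[k] F} {B Z A B' Z' A' : FO k R F} {i : B.X →ₗ[R] Z.X}
    {p : Z.X →ₗ[R] A.X} (S : SQ B Z A i p) (β : TwD σ B B') (φ : TwD σ Z Z') (χ : TwD σ A A') :
    SQ B' Z' A' (φ.u ∘ₗ i ∘ₗ β.v) (χ.u ∘ₗ p ∘ₗ φ.v) := by
  have inj : ∀ {C C' : FO k R F} (α : TwD σ C C'), Injective α.u ∧ Injective α.v := fun α =>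
    ⟨LeftInverse.injective α.vu_apply, LeftInverse.injective α.uv_apply⟩
  refine ⟨β.hom φ S.hi, φ.hom χ S.hp, (inj φ).1.comp (S.inj.comp (inj β).2), fun z => ⟨?_, ?_⟩,
    fun f hf => ?_, fun C q hq => ?_⟩
  · intro hz
    obtain ⟨b, hb⟩ := (S.ex (φ.v z)).1 ((inj χ).1 (hz.trans (map_zero _).symm))
    refine ⟨β.u b, ?_⟩
    change φ.u (i (β.v (β.u b))) = z
    rw [β.vu_apply, hb, φ.uv_apply]
  · rintro ⟨b, rfl⟩
    change χ.u (p (φ.v (φ.u (i (β.v b))))) = 0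
    rw [φ.vu_apply, S.ex.apply_apply_eq_zero, map_zero]
  · obtain ⟨g, hg, h⟩ := S.fac _ (φ.symm.hom χ.symm hf)
    refine ⟨_, χ.hom χ hg, (congrArg (· ∈ QQ true Z' A') (LinearMap.ext fun t => ?_)).mp
      (TwD.qq L φ χ h)⟩
    change χ.u (χ.v (f (φ.u (φ.v t))) - g (p (φ.v t))) = f t - χ.u (g (χ.v (χ.u (p (φ.v t)))))
    rw [map_sub, χ.uv_apply, φ.uv_apply, χ.vu_apply]
  · obtain ⟨q', hq', h⟩ := S.lift _ _ (TwD.qq L (TwD.refl σ.symm C) χ.symm hq)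
    refine ⟨_, TwD.hom (σ := σ) (TwD.refl σ.symm C).symm φ hq', LinearMap.ext fun t => ?_⟩
    have h2 : p (q' t) = χ.v (q t) := LinearMap.congr_fun h t
    change χ.u (p (φ.v (φ.u (q' t)))) = q t
    rw [φ.vu_apply, h2, χ.uv_apply]
end aux

theorem t_E1 (k : Type u) [Field k] [IsAlgClosed k] (R : Type u) [Ring R] [Algebra k R]
    [FiniteDimensional k R] (L : Lib k) :
    S_CL1 k R → S_ESCH k R → S_E1 k R := by
  intro hCL hSCH hND F _ _ hBig H1 H2 y e1 e2 ι _ μ hy Z A i p U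
  by_contra hno
  have := hBig.1
  obtain ⟨n, T, hloc, hdec⟩ := (L.ks R).dec F Z U.fdZ
  have hsmd : ∀ l, Smd (T l) Z := fun l => by
    obtain ⟨inc, pr, hinc, hpr, h1, _⟩ := hdec
    exact ⟨inc l, hinc l, pr l, hpr l, h1 l⟩
  have hT : ∀ l, ∃ ν : F, ¬ TrO k (Set.range μ) ν ∧
      ∀ σ : F ≃ₐ[k] F, σ ν = ν → IsoF ((T l).tw σ) (T l) := by
    intro l
    rcases hCL hND F (T l) ((L.id R).smd_fd F _ _ (hsmd l) U.fdZ).1 (hloc l) with
      hc | ⟨H, ν, m, _, hiso⟩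
    · exact ⟨0, fun h => L.aut.tr F _ _ h isAlgebraic_zero, fun σ _ => (L.tw R).const F _ σ hc⟩
    · refine ⟨ν, fun h => hno ⟨H, ν, m, h, ?_⟩, fun σ hσ => ?_⟩
      · obtain ⟨s, hs, r, hr, hrs⟩ := hsmd l
        obtain ⟨g, hg, hgb⟩ := hiso
        obtain ⟨g', hg', _, h2⟩ := (L.id R).iso_inv F _ _ g hg hgb
        refine ⟨s ∘ₗ g', HomF.comp hs hg', g ∘ₗ r, HomF.comp hg hr, ?_⟩
        rw [LinearMap.comp_assoc, ← LinearMap.comp_assoc g', hrs, LinearMap.id_comp, h2]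
      · have h1 := (L.tw R).j F (MN H.d) ν (m + 1) σ
        rw [hσ] at h1
        exact (L.id R).iso_trans F _ _ _ ((L.tw R).iso F _ _ σ hiso)
          ((L.id R).iso_trans F _ _ _ h1 ((L.id R).iso_symm F _ _ hiso))
  choose ν hν hν2 using hT
  have hy2 : TrO k (Set.range μ ∪ Set.range ν) y :=
    L.aut.alg F _ _ _ hy (by rintro _ ⟨l, rfl⟩; exact hν l)
  have hfin : (insert y (Set.range μ ∪ Set.range ν)).Finite :=
    ((Set.finite_range μ).union (Set.finite_range ν)).insert y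
  obtain ⟨z, hz⟩ := hBig.2 hfin.toFinset
  rw [Set.Finite.coe_toFinset] at hz
  have hz2 := L.aut.mono F _ _ _ (Set.subset_insert _ _) hz
  obtain ⟨σ, hσ, hσy⟩ := L.aut.aut F _ y z hy2 hz2
  obtain ⟨φ⟩ := TwD.of_iso L ((L.tw R).dec F Z _ T σ hdec fun l =>
    hν2 l σ (hσ _ (Or.inr ⟨l, rfl⟩)))
  obtain ⟨κ, _, c, hdA⟩ := U.dec
  obtain ⟨χ⟩ := TwD.of_iso L ((L.tw R).dec F A _ _ σ hdA fun s => by
    have h1 := (L.tw R).j F (MN H2.d) (μ (c s)) (e2 + 1) σ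
    rwa [hσ _ (Or.inl ⟨c s, rfl⟩)] at h1)
  obtain ⟨β⟩ := TwD.nj L H1 σ hσy e1
  have hiso := hSCH F _ _ Z A _ _ _ _ U.fdZ U.fdA (e1_sq L U) (e1_tw L (e1_sq L U) β φ χ)
  have hne : ∀ w : F, Transcendental k w → aeval w H1.D.f ≠ 0 := fun w hw h => hw ⟨_, H1.D.hf, h⟩
  have h5 := (L.pg R).isoJ H1 F y z e1 e1 (hne _ (L.aut.tr F _ _ hy)) (hne _ (L.aut.tr F _ _ hz))
    hiso
  exact L.aut.ne F _ _ hz (h5 ▸ Set.mem_insert _ _)

end
end Pool.Agent.P.MP_cf639b_al
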