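import Pool.Agent.P.MP_cf639b_al.IfE

set_option linter.dupNamespace false

namespace Pool.Agent.P.MP_cf639b_al

universe u
open TensorProduct Polynomial Function

noncomputable section

section aux
variable {k : Type u} [Field k] {R : Type u} [Ring R] [Algebra k R]
  {F : Type u} [Field F] [Algebra k F]

theorem ecnt_count {V : Type u} [AddCommGroup V] [Module F V] [Module.Finite F V]
    (D : ℕ → Submodule F V) (P : ℕ → Prop) (m : ℕ) (h1 : ∀ l, D (l + 1) ≤ D l)
    (h2 : ∀ l < m, P (l + 1) ∨ ¬ P l → D (l + 1) < D l) (h3 : ∀ l, P (l + 1) → P l) :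
    m ≤ Module.finrank F V + 1 := by
  classical
  have key : ∀ l ≤ m, Module.finrank F (D l) + l ≤
      Module.finrank F V + if P l then 0 else 1 := by
    intro l
    induction l with
    | zero =>
      intro _
      have := Submodule.finrank_le (D 0)
      omega
    | succ l ih =>
      intro hl
      have h4 := ih (by omega)
      have h5 := Submodule.finrank_mono (h1 l)
      by_cases hp : P (l + 1)
      · have h6 := Submodule.finrank_lt_finrank_of_lt (h2 l (by omega) (Or.inl hp))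
        rw [if_pos (h3 l hp)] at h4
        rw [if_pos hp]
        omega
      · rw [if_neg hp]
        by_cases hq : P l
        · rw [if_pos hq] at h4
          omega
        · have h6 := Submodule.finrank_lt_finrank_of_lt (h2 l (by omega) (Or.inr hq))
          rw [if_neg hq] at h4
          omega
  have h7 := key m le_rfl
  split_ifs at h7 <;> omega

variable [FiniteDimensional k R]

/-- the maps which satisfy the first `l` conditions -/
def ecnt_D (B T : FO k R F) (N : ℕ → FO k R F) (l : ℕ) : Submodule F (HomF B T) where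
  carrier := {t | ∀ j < l, Kset B T (N j) t.1}
  add_mem' {a b} ha hb j hj φ hφ := by
    rw [Submodule.coe_add, LinearMap.comp_add]
    exact add_mem (ha j hj φ hφ) (hb j hj φ hφ)
  zero_mem' j hj φ hφ := by
    rw [Submodule.coe_zero, LinearMap.comp_zero]
    exact zero_mem _
  smul_mem' c a ha j hj φ hφ := by
    have e : φ ∘ₗ (c • a).1 = c • (φ ∘ₗ a.1) := LinearMap.ext fun t => hφ c _
    rw [e]
    exact Submodule.smul_mem _ c (ha j hj φ hφ)

theorem ecnt_tw (L : Lib k) {σ : F ≃ₐ[k] F} {B B' T T' N N' : FO k R F} (β : TwD σ B B')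
    (τ : TwD σ T T') (α : TwD σ N N') {t : B.X →ₗ[R] T.X} (h : Kset B T N t) :
    Kset B' T' N' (τ.u ∘ₗ t ∘ₗ β.v) := by
  intro φ hφ
  refine (congrArg (· ∈ QQ true B' N') (LinearMap.ext fun x => ?_)).mp
    (TwD.qq L β α (h _ (τ.symm.hom α.symm hφ)))
  exact α.uv_apply _

theorem ecnt_drop (L : Lib k) {σ : F ≃ₐ[k] F} {B T C : FO k R F} {N : ℕ → FO k R F} {l : ℕ}
    (β : TwD σ B B) (τ : TwD σ T T) (α : ∀ j < l, Nonempty (TwD σ (N j) (N j)))
    (γ : TwD σ C (N l)) {t : B.X →ₗ[R] T.X} (ht : t ∈ HomF B T)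
    (h1 : ∀ j < l, Kset B T (N j) t) (h2 : ¬ Kset B T C t) :
    ecnt_D B T N (l + 1) < ecnt_D B T N l := by
  refine lt_of_le_of_ne (fun x hx j hj => hx j (by omega)) fun h => h2 ?_
  have h3 : (⟨_, β.hom τ ht⟩ : HomF B T) ∈ ecnt_D B T N l := fun j hj =>
    ecnt_tw L β τ (α j hj).some (h1 j hj)
  rw [← h] at h3
  have h4 := ecnt_tw L β.symm τ.symm γ.symm (h3 l (by omega))
  refine (congrArg (Kset B T C) (LinearMap.ext fun x => ?_)).mp h4
  change τ.v (τ.u (t (β.v (β.u x)))) = t x
  rw [τ.vu_apply, β.vu_apply]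
end aux

theorem t_ECNT (k : Type u) [Field k] [IsAlgClosed k] (R : Type u) [Ring R] [Algebra k R]
    [FiniteDimensional k R] (L : Lib k) :
    S_ECNT k R := by
  intro F _ _ hBig H1 H2 H y ν e1 e2 n μ hμ m t ht h1 h2
  have := hBig.1
  have hfd : ∀ (G : PG k R) (w : F) (a : ℕ), (NJ G w a).fd := fun G w a =>
    (L.fd R).m F G.d _ ((L.fd R).jq F _ (Jmonic w (a + 1))).1
  have := (L.fd R).hom F _ _ (hfd H1 y e1) (hfd H ν n)
  have hS : ∀ l, insert y (μ '' Set.Iio (l + 1)) = insert (μ l) (insert y (μ '' Set.Iio l)) := by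
    intro l
    rw [Set.insert_comm, ← Set.image_insert_eq, Set.Iio_insert, Set.Iio_add_one_eq_Iic]
  refine ecnt_count (ecnt_D _ _ fun j => NJ H2 (μ j) e2)
    (fun l => TrO k (insert y (μ '' Set.Iio l)) ν) m (fun l x hx j hj => hx j (by omega))
    (fun l hl hP => ?_) fun l h => L.aut.mono F _ _ _ (hS l ▸ Set.subset_insert _ _) h
  have h3 : TrO k (insert ν (insert y (μ '' Set.Iio l))) (μ l) := by
    rcases hP with hP | hP
    · exact L.aut.exch F _ _ _ (hμ l) (hS l ▸ hP)
    · have h4 := L.aut.alg F _ {ν} _ (hμ l) (by rintro _ rfl; exact hP)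
      rwa [Set.union_singleton] at h4
  have hfin : (insert y (insert ν (μ '' Set.Iio m))).Finite :=
    (((Set.finite_Iio m).image μ).insert ν).insert y
  obtain ⟨z, hz⟩ := hBig.2 hfin.toFinset
  rw [Set.Finite.coe_toFinset] at hz
  have hz2 : TrO k (insert ν (insert y (μ '' Set.Iio l))) z := by
    refine L.aut.mono F _ _ _ ?_ hz
    rw [Set.insert_comm]
    exact Set.insert_subset_insert (Set.insert_subset_insert
      (Set.image_mono (Set.Iio_subset_Iio hl.le)))
  obtain ⟨σ, hσ, hσz⟩ := L.aut.aut F _ z (μ l) hz2 h3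
  obtain ⟨β⟩ := TwD.nj L H1 σ (hσ y (by simp)) e1
  obtain ⟨τ⟩ := TwD.nj L H σ (hσ ν (by simp)) n
  obtain ⟨γ⟩ := TwD.nj L H2 σ hσz e2
  exact ecnt_drop L β τ (fun j hj => TwD.nj L H2 σ
    (hσ _ (Or.inr (Or.inr ⟨j, hj, rfl⟩))) e2) γ ht (fun j hj => h1 j (hj.trans hl))
    (h2 z (L.aut.mono F _ _ _ (Set.subset_insert _ _) hz))

end
end Pool.Agent.P.MP_cf639b_al
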