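import Pool.Agent.P.MP_cf639b_al.IfE

set_option linter.dupNamespace false

namespace Pool.Agent.P.MP_cf639b_al

universe u
open TensorProduct Polynomial Function

noncomputable section

section aux
variable {k : Type u} [Field k] {R : Type u} [Ring R] [Algebra k R]
  {F : Type u} [Field F] [Algebra k F]

theorem edim_span [FiniteDimensional k R] (A : FO k R F) {ι : Type} [Fintype ι] (g : ι → A.X)
    (h : ∀ N : Submodule F A.X, (∀ (r : R) i, r • g i ∈ N) → N = ⊤) :
    A.dim ≤ Module.finrank k R * Fintype.card ι := by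
  have h1 : Submodule.span F (Set.range fun p : Fin (Module.finrank k R) × ι =>
      bR k R p.1 • g p.2) = ⊤ := by
    refine h _ fun r i => ?_
    rw [← (bR k R).sum_repr r, Finset.sum_smul]
    refine Submodule.sum_mem _ fun j _ => ?_
    rw [smul_assoc]
    exact Submodule.smul_of_tower_mem _ _ (Submodule.subset_span ⟨(j, i), rfl⟩)
  have h2 := finrank_le_of_span_eq_top h1
  rwa [Fintype.card_prod, Fintype.card_fin] at h2

theorem edim_gen (d : Fam R) (V : XV k) (N : AddSubmonoid (M d V))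
    (h : ∀ (r : R) b v, r • gen d V b v ∈ N) (z : M d V) : z ∈ N := by
  obtain ⟨w, rfl⟩ := Submodule.mkQ_surjective (LinearMap.range (Xd d V)) z
  induction w using TensorProduct.induction_on with
  | zero => rw [map_zero]; exact N.zero_mem
  | add x y hx hy => rw [map_add]; exact N.add_mem hx hy
  | tmul r v =>
    rw [← Finset.univ_sum_single v, TensorProduct.tmul_sum, map_sum]
    refine N.sum_mem fun b _ => ?_
    have e : r ⊗ₜ[k] (Pi.single b (v b) : Fin d.n0 → V) =
        r • ((1 : R) ⊗ₜ[k] (Pi.single b (v b) : Fin d.n0 → V)) := by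
      simp [TensorProduct.smul_tmul']
    rw [e, map_smul]
    exact h r b (v b)

theorem edim_m [FiniteDimensional k R] (d : Fam R) (V : FXV k F) (hV : V.fd) :
    (MF d V).dim ≤ Module.finrank k R * d.n0 * V.dim := by
  haveI : Module.Finite F V.V := hV
  let v := Module.finBasis F V.V
  have h := edim_span (MF d V) (fun p : Fin d.n0 × Fin V.dim => gen d V.V p.1 (v p.2))
    (fun N hN => by
      letI := FO.module (MF d V)
      refine Submodule.eq_top_iff'.mpr fun z => edim_gen d V.V N.toAddSubmonoid (fun r b w => ?_) z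
      rw [← v.sum_repr w, map_sum, Finset.smul_sum]
      refine AddSubmonoid.sum_mem _ fun l _ => ?_
      have e : gen d V.V b (v.repr w l • v l) = (MF d V).act (v.repr w l) (gen d V.V b (v l)) :=
        (map_gen d (V.sc (v.repr w l)) b (v l)).symm
      rw [e, ← map_smul]
      exact N.smul_mem (v.repr w l) (hN r (b, l)))
  rwa [Fintype.card_prod, Fintype.card_fin, Fintype.card_fin, ← mul_assoc] at h

theorem edim_hom (A B : FO k R F) (hA : A.fd) (hB : B.fd) :
    Module.finrank F (HomF A B) ≤ A.dim * B.dim := by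
  haveI : Module.Finite F A.X := hA
  haveI : Module.Finite F B.X := hB
  let φ : HomF A B →ₗ[F] (A.X →ₗ[F] B.X) :=
    { toFun := fun f => HomF.lin f.2
      map_add' := fun _ _ => rfl
      map_smul' := fun _ _ => rfl }
  have hφ : Injective φ := fun f g e =>
    Subtype.ext (LinearMap.ext fun t => LinearMap.congr_fun e t)
  have h := LinearMap.finrank_le_finrank_of_injective hφ
  rwa [Module.finrank_linearMap] at h

theorem edim_closed (A : FO k R F) (κ : Type) [Fintype κ] (T : κ → FO k R F) (π : Pr k R)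
    (hd : Decomp A T) (h : ∀ s, ¬ π.Open (T s).X) : ¬ π.Open A.X := by
  obtain ⟨i, p, -, -, -, -, hs⟩ := hd
  refine fun ho => ho fun t ht => ?_
  have e : t = ∑ s, i s ∘ₗ (p s ∘ₗ t) := by
    refine LinearMap.ext fun x => ?_
    have := LinearMap.congr_fun hs (t x)
    rw [LinearMap.sum_apply] at this ⊢
    exact this.symm
  rw [e]
  exact Submodule.sum_mem _ fun s _ =>
    PP.comp_mem _ ((not_not.mp (h s)) (PP.comp_mem _ ht))

theorem edim_nq [FiniteDimensional k R] (L : Lib k) (H : PG k R) (y : F) (n : ℕ) (e : Bool)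
    (hy : Transcendental k y) : LinearMap.id ∉ QQ e (NJ H y n) (NJ H y n) := by
  intro hq
  obtain ⟨m, j, a, b, ha, hb, hs⟩ := (L.qq R).sum F e _ _ _ hq
  have hl := (L.pg R).locJ H F y n fun e => hy ⟨H.D.f, H.D.hf, e⟩
  obtain ⟨i, -, hi⟩ := (L.ks R).sum F _ hl (Fin m) Finset.univ (fun i => b i ∘ₗ a i)
    (fun i _ => HomF.comp (hb i) (ha i)) (by rw [← LinearMap.coe_sum, ← hs]; exact bijective_id)
  obtain ⟨f, -, g, -, hfg⟩ := (L.ks R).smd_of F _ _ _ (ha i) _ (hb i) hi
  exact (L.pg R).nc H F y n hy _ ((L.fd R).tnk e (j i) _ (L.fd R).t0k)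
    ((L.cc R).smd _ _ _ f g hfg ((L.cc R).tn e (j i) _ _ ((L.cc R).t0 _)))

theorem edim_seq (L : Lib k) (hF : Big k F) (y y' : F) (h : TrO k {y} y') :
    ∃ μ : ℕ → F, μ 0 = y' ∧ (∀ l, TrO k (insert y (μ '' Set.Iio l)) (μ l)) ∧
      (Transcendental k y → ∀ m, TrO k (μ '' Set.Iio m) y) := by
  classical
  choose g hg using hF.2
  obtain ⟨S, S0, S1⟩ : ∃ S : ℕ → Finset F, S 0 = {y, y'} ∧ ∀ l, S (l + 1) = insert (g (S l)) (S l) :=
    ⟨fun l => Nat.rec {y, y'} (fun _ s => insert (g s) s) l, rfl, fun _ => rfl⟩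
  obtain ⟨μ, μ0, μ1⟩ : ∃ μ : ℕ → F, μ 0 = y' ∧ ∀ l, μ (l + 1) = g (S l) :=
    ⟨fun l => Nat.casesOn l y' fun l => g (S l), rfl, fun _ => rfl⟩
  have hI : ∀ m, μ '' Set.Iio (m + 1) = insert (μ m) (μ '' Set.Iio m) := fun m => by
    rw [← Set.image_insert_eq]
    congr 1
    ext x
    simp only [Set.mem_Iio, Set.mem_insert_iff]
    omega
  have h0 : μ '' Set.Iio 0 = ∅ := by
    rw [Set.image_eq_empty]
    ext x
    simp
  have hS : ∀ l, insert y (μ '' Set.Iio (l + 1)) ⊆ ((S l : Finset F) : Set F) := fun l => by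
    induction l with
    | zero =>
      rw [hI, h0, S0, μ0]
      intro x hx
      simpa using hx
    | succ n ih =>
      rw [hI, Set.insert_comm, S1, μ1, Finset.coe_insert]
      exact Set.insert_subset_insert ih
  have h1 : ∀ l, TrO k (insert y (μ '' Set.Iio l)) (μ l) := fun l => by
    cases l with
    | zero => rw [h0, insert_empty_eq, μ0]; exact h
    | succ n => rw [μ1]; exact L.aut.mono F _ _ _ (hS n) (hg (S n))
  refine ⟨μ, μ0, h1, fun hy m => ?_⟩
  induction m with
  | zero => rw [h0]; exact L.aut.empty F y hy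
  | succ n ih => rw [hI]; exact L.aut.exch F _ _ _ ih (h1 n)
end aux

theorem t_EDIM (k : Type u) [Field k] [IsAlgClosed k] (R : Type u) [Ring R] [Algebra k R]
    [FiniteDimensional k R] (L : Lib k) :
    S_EDIM k R := by
  exact ⟨fun _ _ _ d V hV => edim_m d V hV, fun _ _ _ A B hA hB => edim_hom A B hA hB,
    fun _ _ _ A κ _ T π hd h => edim_closed A κ T π hd h,
    fun _ _ _ H y n e hy => edim_nq L H y n e hy,
    fun _ _ _ hF y y' h => edim_seq L hF y y' h⟩

end
end Pool.Agent.P.MP_cf639b_al
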