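import Pool.Agent.P.MP_cf639b_al.IfE

set_option linter.dupNamespace false

namespace Pool.Agent.P.MP_cf639b_al

universe u
open TensorProduct Polynomial Function

noncomputable section

section aux
variable {k : Type u} [Field k] {R : Type u} [Ring R] [Algebra k R]
  {F : Type u} [Field F] [Algebra k F]

/-- a new first parameter -/
def eit_cons (z : F) (y : ℕ → F) : ℕ → F
  | 0 => z
  | i + 1 => y i

/-- a new first map -/
def eit_consJ (N : F → Md k R) (z : F) (y : ℕ → F) (g : N z →ₗ[R] N (y 0))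
    (j : ∀ i, N (y i) →ₗ[R] N (y (i + 1))) :
    ∀ i, N (eit_cons z y i) →ₗ[R] N (eit_cons z y (i + 1))
  | 0 => g
  | i + 1 => j i

omit [Field F] [Algebra k F] in
theorem eit_chain (N : F → Md k R) (z : F) (y : ℕ → F) (g : N z →ₗ[R] N (y 0))
    (j : ∀ i, N (y i) →ₗ[R] N (y (i + 1))) (n : ℕ) :
    chain (fun i => N (eit_cons z y i)) (eit_consJ N z y g j) (n + 1) =
      chain (fun i => N (y i)) j n ∘ₗ g := by
  induction n with
  | zero => rfl
  | succ n ih => exact congrArg (fun f => j n ∘ₗ f) ih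

theorem eit_mem (A : ℕ → FO k R F) (j : ∀ i, (A i).X →ₗ[R] (A (i + 1)).X)
    (hj : ∀ i, j i ∈ HomF (A i) (A (i + 1))) (n : ℕ) :
    chain (fun i => (A i).X) j n ∈ HomF (A 0) (A n) := by
  induction n with
  | zero => exact HomF.id _
  | succ n ih => exact HomF.comp (hj n) ih

variable [FiniteDimensional k R]

theorem eit_thru (L : Lib k) [IsAlgClosed F] (H H' : PG k R) (e n : ℕ) (ν y y' : F)
    (hy : TrO k {ν} y) (hy' : TrO k {ν} y') (h : Thru H e (NJ H' ν n) ν y) :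
    Thru H e (NJ H' ν n) ν y' := by
  obtain ⟨σ, hσ, hσy⟩ := L.aut.aut F {ν} y y' hy hy'
  obtain ⟨τ⟩ := TwD.nj L H' σ (hσ ν rfl) n
  obtain ⟨α⟩ := TwD.nj L H σ hσy e
  obtain ⟨β⟩ : Nonempty (∀ z, TwD σ (NJ H z e) (NJ H (σ z) e)) :=
    ⟨fun z => (TwD.nj L H σ rfl e).some⟩
  intro φ hφ
  obtain ⟨κ, _, z, a, g, h1, h2⟩ := h _ (τ.symm.hom α.symm hφ)
  refine ⟨κ, inferInstance, fun s => σ (z s), fun s => (β (z s)).u ∘ₗ a s ∘ₗ τ.v,
    fun s => α.u ∘ₗ g s ∘ₗ (β (z s)).v,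
    fun s => ⟨fun h3 => (h1 s).1 (σ.injective (h3.trans hσy.symm)), ?_,
      τ.hom (β _) (h1 s).2.2.1, (β _).hom α (h1 s).2.2.2⟩, ?_⟩
  · have h4 := L.aut.map F _ _ σ (h1 s).2.1
    rwa [Set.image_singleton, hσ ν rfl] at h4
  · refine (congrArg (· ∈ QQ true (NJ H' ν n) (NJ H y' e)) (LinearMap.ext fun t => ?_)).mp
      (TwD.qq L τ α h2)
    change α.u (α.v (φ (τ.u (τ.v t))) - (∑ s, g s ∘ₗ a s) (τ.v t)) = φ t - _
    rw [map_sub, α.uv_apply, τ.uv_apply, LinearMap.sum_apply, LinearMap.sum_apply, map_sum]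
    refine congrArg _ (Finset.sum_congr rfl fun s _ => ?_)
    change α.u (g s (a s (τ.v t))) = α.u (g s ((β (z s)).v ((β (z s)).u (a s (τ.v t)))))
    rw [TwD.vu_apply]

theorem eit_iter (L : Lib k) (N : F → FO k R F) (T : FO k R F) (P : F → Prop) (m : ℕ)
    (Jk : ∀ w w', ((N w).X →ₗ[R] (N w').X) → Prop)
    (nil : ∀ (y : ℕ → F) (j : ∀ i, (N (y i)).X →ₗ[R] (N (y (i + 1))).X), (∀ i, P (y i)) →
      (∀ i, Jk _ _ (j i)) → chain (fun i => (N (y i)).X) j m = 0)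
    (h : ∀ y, P y → ∀ φ ∈ HomF T (N y), ∃ (κ : Type) (_ : Fintype κ) (z : κ → F)
      (a : ∀ s, T.X →ₗ[R] (N (z s)).X) (g : ∀ s, (N (z s)).X →ₗ[R] (N y).X),
      (∀ s, Jk _ _ (g s) ∧ P (z s) ∧ a s ∈ HomF T (N (z s)) ∧ g s ∈ HomF (N (z s)) (N y)) ∧
        φ - ∑ s, g s ∘ₗ a s ∈ QQ true T (N y)) (r : ℕ) :
    ∀ (y : ℕ → F) (j : ∀ i, (N (y i)).X →ₗ[R] (N (y (i + 1))).X),
      (∀ i, P (y i)) → (∀ i, j i ∈ HomF (N (y i)) (N (y (i + 1)))) → (∀ i, Jk _ _ (j i)) →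
      ∀ n, n + r = m → ∀ φ ∈ HomF T (N (y 0)),
        chain (fun i => (N (y i)).X) j n ∘ₗ φ ∈ QQ true T (N (y n)) := by
  induction r with
  | zero =>
    intro y j hy _ hJ n hn φ _
    obtain rfl : n = m := hn
    rw [nil y j hy hJ, LinearMap.zero_comp]
    exact zero_mem _
  | succ r ih =>
    intro y j hy hj hJ n hn φ hφ
    obtain ⟨κ, _, z, a, g, h1, h2⟩ := h _ (hy 0) φ hφ
    have h3 : ∀ s, chain (fun i => (N (y i)).X) j n ∘ₗ g s ∘ₗ a s ∈ QQ true T (N (y n)) :=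
      fun s => by
      have h4 := ih (eit_cons (z s) y) (eit_consJ (fun w => (N w).X) (z s) y (g s) j)
        (fun i => by cases i; exacts [(h1 s).2.1, hy _])
        (fun i => by cases i; exacts [(h1 s).2.2.2, hj _])
        (fun i => by cases i; exacts [(h1 s).1, hJ _]) (n + 1) (by omega) (a s) (h1 s).2.2.1
      exact (congrArg (· ∈ QQ true T (N (y n))) (congrArg (fun f => f ∘ₗ a s)
        (eit_chain (fun w => (N w).X) (z s) y (g s) j n))).mp h4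
    have h5 := add_mem ((L.qq R).l F true _ _ _ _ h2 _ (eit_mem (fun i => N (y i)) j hj n))
      (Submodule.sum_mem (QQ true T (N (y n))) (t := Finset.univ) fun s _ => h3 s)
    refine (congrArg (· ∈ QQ true T (N (y n))) (LinearMap.ext fun t => ?_)).mp h5
    simp only [LinearMap.add_apply, LinearMap.comp_apply, LinearMap.sub_apply,
      LinearMap.sum_apply, map_sub, map_sum, sub_add_cancel]
end aux

theorem t_EIT (k : Type u) [Field k] [IsAlgClosed k] (R : Type u) [Ring R] [Algebra k R]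
    [FiniteDimensional k R] (L : Lib k) :
    S_EIT k R := by
  intro F _ _ _ H H' e n ν y hy h y' hy' φ hφ
  have hne : ∀ w : F, TrO k {ν} w → aeval w H.D.f ≠ 0 := fun w hw h =>
    L.aut.tr F _ _ hw ⟨_, H.D.hf, h⟩
  refine eit_iter L (fun w => NJ H w e) _ (TrO k {ν}) H.D.s
    (fun w w' g => g ∈ H.D.J H.v (J k w (e + 1)).V H.v (J k w' (e + 1)).V)
    (fun y j hy hJ => (L.pg R).nilc H (fun i => (J k (y i) (e + 1)).V)
      (fun i => (L.pg R).alJ F _ _ _ (hne _ (hy i))) j hJ) (fun w hw ψ hψ => ?_) H.D.s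
    (fun _ => y') (fun _ => 0) (fun _ => hy') (fun _ => zero_mem _) (fun _ => zero_mem _) 0
    (zero_add _) φ hφ
  obtain ⟨κ, _, z, a, g, h1, h2⟩ := eit_thru L H H' e n ν y w hy hw h ψ hψ
  exact ⟨κ, inferInstance, z, a, g, fun s => ⟨(L.pg R).junkJ H F _ _ _ _ (hne _ (h1 s).2.1)
    (hne _ hw) (h1 s).1 _ (h1 s).2.2.2, (h1 s).2⟩, h2⟩

end
end Pool.Agent.P.MP_cf639b_al
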