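import Pool.Agent.P.MP_cf639b_al.T.ESCH

set_option linter.dupNamespace false

namespace Pool.Agent.P.MP_cf639b_al

universe u
open TensorProduct Polynomial Function

noncomputable section

section aux
variable {k : Type u} [Field k] {R : Type u} [Ring R] [Algebra k R] [FiniteDimensional k R]
  {F : Type u} [Field F] [Algebra k F]

/-- a local summand of the middle term does not map into the ideal -/
theorem ek_not (L : Lib k) {B Z A T : FO k R F} {ι : Type} {N : ι → FO k R F} {i : B.X →ₗ[R] Z.X}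
    {p : Z.X →ₗ[R] A.X} (U : UX B N Z A i p) (hB : Loc B) (hT : Loc T)
    (hid : LinearMap.id ∉ QQ true T T) (hf : ∃ j, ∃ f ∈ HomF B (N j), f ∉ QQ true B (N j))
    {s : T.X →ₗ[R] Z.X} (hs : s ∈ HomF T Z) {r : Z.X →ₗ[R] T.X} (hr : r ∈ HomF Z T)
    (hrs : r ∘ₗ s = LinearMap.id) : p ∘ₗ s ∉ QQ true T A := by
  intro hq
  obtain ⟨q, hq1, hq2⟩ := U.lift T _ hq
  have hq3 := (L.qq R).le F true _ _ hq1
  obtain ⟨u, hu, hu2⟩ := esch_lift U.hi U.inj U.ex (sub_mem hs hq3) fun t => by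
    have h := LinearMap.congr_fun hq2 t
    simp only [LinearMap.comp_apply] at h
    rw [LinearMap.sub_apply, map_sub, h, sub_self]
  have h1 := HomF.comp hr hq3
  have h2 := HomF.comp (HomF.comp hr U.hi) hu
  have hsum : ∑ b : Bool, (cond b (r ∘ₗ q) ((r ∘ₗ i) ∘ₗ u)) = LinearMap.id := by
    rw [Fintype.sum_bool, cond_true, cond_false, LinearMap.comp_assoc, hu2, LinearMap.comp_sub,
      hrs, add_sub_cancel]
  obtain ⟨b, _, hb⟩ := (L.ks R).sum F T hT Bool Finset.univ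
    (fun b => cond b (r ∘ₗ q) ((r ∘ₗ i) ∘ₗ u)) (fun b _ => by cases b; exacts [h2, h1])
    (by rw [← LinearMap.coe_sum, hsum]; exact bijective_id)
  cases b
  · obtain ⟨_, h3⟩ := (L.ks R).split_bij F T B hT.1 hB u hu _ (HomF.comp hr U.hi) hb
    obtain ⟨w, hw, hw1, _⟩ := (L.id R).iso_inv F _ _ _ (HomF.comp hr U.hi) h3
    obtain ⟨j, f, hf1, hf2⟩ := hf
    have h4 := (U.univ Z i U.hi).1 ⟨LinearMap.id, HomF.id _, rfl⟩ j _
      (HomF.comp hf1 (HomF.comp hw hr))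
    rw [LinearMap.comp_assoc, LinearMap.comp_assoc, hw1, LinearMap.comp_id] at h4
    exact hf2 h4
  · obtain ⟨w, hw, hw1, _⟩ := (L.id R).iso_inv F _ _ _ h1 hb
    exact hid (hw1 ▸ (L.qq R).l F true _ _ _ _ ((L.qq R).l F true _ _ _ _ hq1 _ hr) _ hw)

theorem ek_thru (L : Lib k) {B Z A T C : FO k R F} {ι : Type} {N : ι → FO k R F}
    {i : B.X →ₗ[R] Z.X} {p : Z.X →ₗ[R] A.X} (U : UX B N Z A i p)
    {s : T.X →ₗ[R] Z.X} (hs : s ∈ HomF T Z) {r : Z.X →ₗ[R] T.X} (hr : r ∈ HomF Z T)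
    (hrs : r ∘ₗ s = LinearMap.id) (hK : Kset B T C (r ∘ₗ i)) :
    ∀ φ ∈ HomF T C, ∃ (κ : Type) (_ : Fintype κ) (c : κ → ι)
      (a : ∀ l, T.X →ₗ[R] (N (c l)).X) (g : ∀ l, (N (c l)).X →ₗ[R] C.X),
      (∀ l, a l ∈ HomF T (N (c l)) ∧ g l ∈ HomF (N (c l)) C) ∧
        φ - ∑ l, g l ∘ₗ a l ∈ QQ true T C := by
  intro φ hφ
  obtain ⟨g, hg, hg2⟩ := U.fac C _ (HomF.comp hφ hr) (hK φ hφ)
  obtain ⟨κ, _, c, inc, pr, hinc, hpr, _, _, h3⟩ := U.dec
  refine ⟨κ, inferInstance, c, fun l => pr l ∘ₗ p ∘ₗ s, fun l => g ∘ₗ inc l,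
    fun l => ⟨HomF.comp (hpr l) (HomF.comp U.hp hs), HomF.comp hg (hinc l)⟩, ?_⟩
  refine (congrArg (· ∈ QQ true T C) (LinearMap.ext fun t => ?_)).mp
    ((L.qq R).r F true _ _ _ _ hg2 _ hs)
  have h4 := congrArg g (LinearMap.congr_fun h3 (p (s t)))
  have h5 : r (s t) = t := LinearMap.congr_fun hrs t
  simp only [LinearMap.comp_apply, LinearMap.sub_apply, LinearMap.sum_apply, map_sum,
    LinearMap.id_apply, h5] at h4 ⊢
  rw [h4]

theorem ek_mem (L : Lib k) {A T : FO k R F} {κ : Type} [Fintype κ] {N : κ → FO k R F}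
    (hd : Decomp A N) (h : ∀ l, HomF T (N l) ≤ QQ true T (N l)) : HomF T A ≤ QQ true T A := by
  intro f hf
  obtain ⟨inc, pr, hinc, hpr, _, _, h3⟩ := hd
  have h4 := Submodule.sum_mem (QQ true T A) (t := Finset.univ) fun l _ =>
    (L.qq R).l F true _ _ _ _ (h l (HomF.comp (hpr l) hf)) _ (hinc l)
  refine (congrArg (· ∈ QQ true T A) (LinearMap.ext fun t => ?_)).mp h4
  have h5 := LinearMap.congr_fun h3 (f t)
  rw [LinearMap.sum_apply] at h5 ⊢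
  exact h5
end aux

theorem t_EK (k : Type u) [Field k] [IsAlgClosed k] (R : Type u) [Ring R] [Algebra k R]
    [FiniteDimensional k R] (L : Lib k) :
    S_EIT k R → S_EDIM k R → S_EK k R := by
  intro hIT hDIM F _ _ _ H1 H2 H y ν e1 e2 n ι μ hy hν hμ Z A i p U hf s hs r hr hrs z hz hzμ hK
  have hne : ∀ (G : PG k R) (w : F), Transcendental k w → aeval w G.D.f ≠ 0 :=
    fun G w hw h => hw ⟨_, G.D.hf, h⟩
  refine ek_not L U ((L.pg R).locJ H1 F y e1 (hne _ _ hy)) ((L.pg R).locJ H F ν n (hne _ _ hν))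
    (hDIM.nq F H ν n true hν) hf hs hr hrs ?_
  have hth : Thru H2 e2 (NJ H ν n) ν z := fun φ hφ => by
    obtain ⟨κ, _, c, a, g, h1, h2⟩ := ek_thru L U hs hr hrs hK φ hφ
    exact ⟨κ, inferInstance, fun l => μ (c l), a, g,
      fun l => ⟨fun h => hzμ ⟨c l, h⟩, hμ _, (h1 l).1, (h1 l).2⟩, h2⟩
  obtain ⟨κ, _, c, hd⟩ := U.dec
  exact ek_mem L hd (fun l => hIT F H2 H e2 n ν z hz hth _ (hμ _)) (HomF.comp U.hp hs)

end
end Pool.Agent.P.MP_cf639b_al
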