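import Pool.Agent.P.MP_cf639b_al.T.EUX

set_option linter.dupNamespace false

namespace Pool.Agent.P.MP_cf639b_al

universe u
open TensorProduct Polynomial Function

noncomputable section

section aux
variable {k : Type u} [Field k] {R : Type u} [Ring R] [Algebra k R]
  {F : Type u} [Field F] [Algebra k F]

theorem esch_lift {K X D C : FO k R F} {j : K.X →ₗ[R] X.X} {u : X.X →ₗ[R] D.X}
    (hj : j ∈ HomF K X) (hinj : Injective j) (hex : Exact j u) {f : C.X →ₗ[R] X.X}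
    (hf : f ∈ HomF C X) (h : ∀ t, u (f t) = 0) : ∃ f' ∈ HomF C K, j ∘ₗ f' = f := by
  have hm : ∀ t, f t ∈ LinearMap.range j := fun t => (hex _).1 (h t)
  have e : ∀ t, j (((LinearEquiv.ofInjective j hinj).symm.toLinearMap ∘ₗ
      f.codRestrict _ hm) t) = f t := fun t => by
    simp only [LinearMap.comp_apply, LinearEquiv.coe_coe, LinearEquiv.ofInjective_symm_apply]
    rfl
  refine ⟨(LinearEquiv.ofInjective j hinj).symm.toLinearMap ∘ₗ f.codRestrict _ hm,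
    fun c t => hinj ?_, LinearMap.ext e⟩
  rw [e, hj c, e, hf c]

theorem esch_fst (A B : FO k R F) : LinearMap.fst R A.X B.X ∈ HomF (A.prod B) A := fun _ _ => rfl
theorem esch_snd (A B : FO k R F) : LinearMap.snd R A.X B.X ∈ HomF (A.prod B) B := fun _ _ => rfl
theorem esch_prod {A B C : FO k R F} {f : C.X →ₗ[R] A.X} {g : C.X →ₗ[R] B.X} (hf : f ∈ HomF C A)
    (hg : g ∈ HomF C B) : f.prod g ∈ HomF C (A.prod B) := fun c t => Prod.ext (hf c t) (hg c t)
theorem esch_prod_fd {A B : FO k R F} (hA : A.fd) (hB : B.fd) : (A.prod B).fd :=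
  inferInstanceAs (Module.Finite F (A.X × B.X))
theorem esch_fd {A B : FO k R F} {f : A.X →ₗ[R] B.X} (hf : f ∈ HomF A B) (hi : Injective f)
    (hB : B.fd) : A.fd := Module.Finite.of_injective (HomF.lin hf) hi

/-- Schanuel's lemma -/
theorem esch_sch {K K' X D : FO k R F} {j : K.X →ₗ[R] X.X} {u : X.X →ₗ[R] D.X}
    {j' : K'.X →ₗ[R] X.X} {u' : X.X →ₗ[R] D.X} (hj : j ∈ HomF K X) (hinj : Injective j)
    (hex : Exact j u) (hj' : j' ∈ HomF K' X) (hinj' : Injective j') (hex' : Exact j' u')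
    {s s' : X.X →ₗ[R] X.X} (hs : s ∈ HomF X X) (hs' : s' ∈ HomF X X) (h : ∀ x, u' (s x) = u x)
    (h' : ∀ x, u (s' x) = u' x) : IsoF (K.prod X) (K'.prod X) := by
  have hx : j ∘ₗ LinearMap.fst R K.X X.X + s' ∘ₗ LinearMap.snd R K.X X.X ∈ HomF (K.prod X) X :=
    add_mem (HomF.comp hj (esch_fst _ _)) (HomF.comp hs' (esch_snd _ _))
  obtain ⟨a, ha, ha2⟩ := esch_lift hj' hinj' hex' (sub_mem (esch_snd K X) (HomF.comp hs hx))
    (fun t => by
      have := hex.apply_apply_eq_zero t.1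
      simp only [LinearMap.sub_apply, LinearMap.comp_apply, LinearMap.add_apply, map_sub, h,
        map_add, h', LinearMap.fst_apply, LinearMap.snd_apply, this, zero_add, sub_self])
  have ha3 : ∀ t : K.X × X.X, j' (a t) = t.2 - s (j t.1 + s' t.2) := LinearMap.congr_fun ha2
  refine ⟨_, esch_prod ha hx, (injective_iff_map_eq_zero _).2 fun t ht => ?_, fun t => ?_⟩
  · have h1 : a t = 0 := congrArg Prod.fst ht
    have h2 : j t.1 + s' t.2 = 0 := congrArg Prod.snd ht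
    have h3 := ha3 t
    rw [h1, h2, map_zero, map_zero, sub_zero] at h3
    rw [← h3, map_zero, add_zero] at h2
    exact Prod.ext (hinj (h2.trans (map_zero j).symm)) h3.symm
  · obtain ⟨b, hb⟩ := (hex (t.2 - s' (j' t.1 + s t.2))).1 (by
      rw [map_sub, h', map_add, h, hex'.apply_apply_eq_zero, zero_add, sub_self])
    have h4 : j b + s' (j' t.1 + s t.2) = t.2 := by rw [hb, sub_add_cancel]
    refine ⟨(b, j' t.1 + s t.2), Prod.ext (hinj' ?_) h4⟩
    exact (ha3 _).trans (by rw [h4, add_sub_cancel_right])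

/-- a right approximation -/
theorem esch_app {Y0 A : FO k R F} (hY0 : Y0.fd) (hf : Module.Finite F (HomF Y0 A)) :
    ∃ (n : ℕ) (Y : FO k R F), Y.fd ∧ Decomp Y (fun _ : Fin n => Y0) ∧ ∃ c ∈ HomF Y A,
      (∀ b ∈ HomF Y0 A, ∃ s ∈ HomF Y0 Y, c ∘ₗ s = b) ∧
      ∀ b ∈ HomF Y A, ∃ s ∈ HomF Y Y, c ∘ₗ s = b := by
  obtain ⟨n, v, hv⟩ := Module.Finite.exists_fin (R := F) (M := HomF Y0 A)
  obtain ⟨Y, hY, hdec⟩ : ∃ Y : FO k R F, Y.fd ∧ Decomp Y (fun _ : Fin n => Y0) :=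
    ⟨_, eux_pi_fd _ fun _ => hY0, eux_pi_dec _⟩
  refine ⟨n, Y, hY, hdec, ?_⟩
  obtain ⟨inc, pr, hinc, hpr, h1, h2, h3⟩ := hdec
  have hc : ∀ l t, (∑ l, (v l).1 ∘ₗ pr l) (inc l t) = (v l).1 t := fun l t => by
    rw [LinearMap.sum_apply, Finset.sum_eq_single l (fun l' _ hl => ?_) (by simp)]
    · exact congrArg (v l).1 (LinearMap.congr_fun (h1 l) t)
    · exact (congrArg (v l').1 (LinearMap.congr_fun (h2 l l' (Ne.symm hl)) t)).trans (map_zero _)
  have key : ∀ b ∈ HomF Y0 A, ∃ s ∈ HomF Y0 Y, (∑ l, (v l).1 ∘ₗ pr l) ∘ₗ s = b := by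
    intro b hb
    obtain ⟨a, ha⟩ := (Submodule.mem_span_range_iff_exists_fun F).1
      (hv ▸ Submodule.mem_top (x := (⟨b, hb⟩ : HomF Y0 A)))
    refine ⟨∑ l, inc l ∘ₗ Y0.act (a l), Submodule.sum_mem _ fun l _ =>
      HomF.comp (hinc l) (HomF.act _ _), LinearMap.ext fun t => ?_⟩
    have h4 := LinearMap.congr_fun (congrArg Subtype.val ha) t
    rw [Submodule.coe_sum, LinearMap.sum_apply] at h4
    rw [LinearMap.comp_apply, LinearMap.sum_apply Finset.univ _ t, map_sum]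
    refine Eq.trans (Finset.sum_congr rfl fun l _ => ?_) h4
    exact (hc l _).trans ((v l).2 _ _)
  refine ⟨_, Submodule.sum_mem _ fun l _ => HomF.comp (v l).2 (hpr l), key, fun b hb => ?_⟩
  choose s hs hs2 using fun l => key _ (HomF.comp hb (hinc l))
  refine ⟨∑ l, s l ∘ₗ pr l, Submodule.sum_mem _ fun l _ => HomF.comp (hs l) (hpr l),
    LinearMap.ext fun t => ?_⟩
  have h5 := congrArg b (LinearMap.congr_fun h3 t)
  rw [LinearMap.sum_apply, map_sum] at h5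
  rw [LinearMap.comp_apply, LinearMap.sum_apply Finset.univ _ t, map_sum]
  exact Eq.trans (Finset.sum_congr rfl fun l _ => LinearMap.congr_fun (hs2 l) _) h5

variable [FiniteDimensional k R]

theorem esch_id (L : Lib k) {κ : Type} [Fintype κ] {A : FO k R F} {T : κ → FO k R F} {e : Bool}
    (hd : Decomp A T) (h : ∀ s, LinearMap.id ∈ QQ e (T s) (T s)) : LinearMap.id ∈ QQ e A A := by
  obtain ⟨inc, pr, hinc, hpr, _, _, h3⟩ := hd
  rw [← h3]
  exact Submodule.sum_mem _ fun s _ =>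
    (L.qq R).l F e _ _ _ _ ((L.qq R).r F e _ _ _ _ (h s) _ (hpr s)) _ (hinc s)

/-- a map in the ideal factors through one finite dimensional object of the ideal -/
theorem esch_fac (L : Lib k) {Z A : FO k R F} {e : Bool} {q : Z.X →ₗ[R] A.X} (hq : q ∈ QQ e Z A) :
    ∃ Y : FO k R F, Y.fd ∧ LinearMap.id ∈ QQ e Y Y ∧ ∃ a ∈ HomF Z Y, ∃ b ∈ HomF Y A,
      q = b ∘ₗ a := by
  obtain ⟨n, m, α, β, hα, hβ, hs⟩ := (L.qq R).sum F e _ _ _ hq
  refine ⟨FO.pi fun l => (Tn e (m l)).onF (T0F k R F),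
    eux_pi_fd _ fun l => (L.fd R).tn F e _ _ ((L.fd R).t0 F),
    esch_id L (eux_pi_dec _) fun l => eux_mem e (m l) (HomF.id _) (HomF.id _),
    LinearMap.pi α, fun c t => funext fun l => hα l c t, ∑ l, β l ∘ₗ LinearMap.proj l,
    Submodule.sum_mem (HomF (FO.pi fun l => (Tn e (m l)).onF (T0F k R F)) A) fun l _ =>
      HomF.comp (hβ l) fun _ _ => rfl, ?_⟩
  rw [hs]
  refine LinearMap.ext fun t => ?_
  rw [LinearMap.sum_apply, LinearMap.comp_apply, LinearMap.sum_apply]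
  rfl
end aux

theorem t_ESCH (k : Type u) [Field k] [IsAlgClosed k] (R : Type u) [Ring R] [Algebra k R]
    [FiniteDimensional k R] (L : Lib k) :
    S_ESCH k R := by
  intro F _ _ B B' Z A i p i' p' hZ hA S S'
  obtain ⟨g, hg, hq⟩ := S.fac p' S'.hp
  obtain ⟨g', hg', hq'⟩ := S'.fac p S.hp
  have hqq : (p' - g ∘ₗ p).prod (p - g' ∘ₗ p') ∈ QQ true Z (A.prod A) := by
    have h := add_mem
      ((L.qq R).l F true _ _ (A.prod A) _ hq _ (esch_prod (HomF.id A) (zero_mem (HomF A A))))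
      ((L.qq R).l F true _ _ (A.prod A) _ hq' _ (esch_prod (zero_mem (HomF A A)) (HomF.id A)))
    refine (congrArg (· ∈ QQ true Z (A.prod A)) ?_).mp h
    exact LinearMap.ext fun t => Prod.ext (add_zero _) (zero_add _)
  obtain ⟨Y0, hY0, hid0, α, hα, β, hβ, hαβ⟩ := esch_fac L hqq
  have e1 : ∀ z, (β (α z)).1 = p' z - g (p z) := fun z =>
    (congrArg Prod.fst (LinearMap.congr_fun hαβ z)).symm
  have e2 : ∀ z, (β (α z)).2 = p z - g' (p' z) := fun z =>
    (congrArg Prod.snd (LinearMap.congr_fun hαβ z)).symm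
  have hb1 := HomF.comp (esch_fst A A) hβ
  have hb2 := HomF.comp (esch_snd A A) hβ
  obtain ⟨n, Y, hY, hdec, c, hc, f0, f1⟩ := esch_app hY0 ((L.fd R).hom F Y0 A hY0 hA)
  have hid := esch_id L hdec fun _ => hid0
  have hcq : c ∈ QQ true Y A := (L.qq R).l F true _ _ _ _ hid _ hc
  obtain ⟨s1, hs1, e3⟩ := f0 _ (add_mem hb2 (HomF.comp hg' hb1))
  obtain ⟨s2, hs2, e4⟩ := f1 _ (HomF.comp hg' hc)
  obtain ⟨s3, hs3, e5⟩ := S'.lift _ _ hq
  obtain ⟨s4, hs4, e6⟩ := S'.lift _ _ hcq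
  obtain ⟨s5, hs5, e7⟩ := f0 _ (add_mem hb1 (HomF.comp hg hb2))
  obtain ⟨s6, hs6, e8⟩ := f1 _ (HomF.comp hg hc)
  obtain ⟨s7, hs7, e9⟩ := S.lift _ _ hq'
  obtain ⟨s8, hs8, e10⟩ := S.lift _ _ hcq
  have a3 : ∀ t, c (s1 t) = (β t).2 + g' (β t).1 := LinearMap.congr_fun e3
  have a4 : ∀ t, c (s2 t) = g' (c t) := LinearMap.congr_fun e4
  have a5 : ∀ t, p' (s3 t) = p' t - g (p t) := LinearMap.congr_fun e5
  have a6 : ∀ t, p' (s4 t) = c t := LinearMap.congr_fun e6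
  have a7 : ∀ t, c (s5 t) = (β t).1 + g (β t).2 := LinearMap.congr_fun e7
  have a8 : ∀ t, c (s6 t) = g (c t) := LinearMap.congr_fun e8
  have a9 : ∀ t, p (s7 t) = p t - g' (p' t) := LinearMap.congr_fun e9
  have a10 : ∀ t, p (s8 t) = c t := LinearMap.congr_fun e10
  obtain ⟨K, j, hj, hji, hjx⟩ : ∃ (K : FO k R F) (j : K.X →ₗ[R] Y.X), j ∈ HomF K Y ∧
      Injective j ∧ Exact j c :=
    ⟨Y.sub (LinearMap.ker c) fun a t ht => by
      rw [LinearMap.mem_ker] at ht ⊢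
      rw [hc a t, ht, smul_zero], Submodule.subtype _, fun _ _ => rfl, Subtype.val_injective,
      LinearMap.exact_subtype_ker_map c⟩
  have hf := esch_fst Z Y
  have hs := esch_snd Z Y
  have hK := esch_fd hj hji hY
  have hX := esch_prod_fd hZ hY
  have hB := esch_fd S.hi S.inj hZ
  have hB' := esch_fd S'.hi S'.inj hZ
  refine L.cancel R F B B' K hB hB' hK (L.cancel R F _ _ (Z.prod Y) (esch_prod_fd hB hK)
    (esch_prod_fd hB' hK) hX (esch_sch (D := A.prod A)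
      (u := (p ∘ₗ LinearMap.fst R Z.X Y.X - g' ∘ₗ (c ∘ₗ LinearMap.snd R Z.X Y.X +
        g ∘ₗ p ∘ₗ LinearMap.fst R Z.X Y.X)).prod
          (c ∘ₗ LinearMap.snd R Z.X Y.X + g ∘ₗ p ∘ₗ LinearMap.fst R Z.X Y.X))
      (u' := (c ∘ₗ LinearMap.snd R Z.X Y.X).prod (p' ∘ₗ LinearMap.fst R Z.X Y.X))
      (esch_prod (HomF.comp S.hi (esch_fst B K)) (HomF.comp hj (esch_snd B K)))
      (S.inj.prodMap hji) (fun x => ⟨fun h => ?_, ?_⟩)
      (esch_prod (HomF.comp S'.hi (esch_fst B' K)) (HomF.comp hj (esch_snd B' K)))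
      (S'.inj.prodMap hji) (fun x => ⟨fun h => ?_, ?_⟩)
      (esch_prod (add_mem (sub_mem hf (HomF.comp hs3 hf)) (HomF.comp hs4 hs))
        (sub_mem (HomF.comp hs1 (HomF.comp hα hf)) (HomF.comp hs2 hs)))
      (esch_prod (add_mem (sub_mem hf (HomF.comp hs7 hf)) (HomF.comp hs8 hs))
        (sub_mem (HomF.comp hs5 (HomF.comp hα hf)) (HomF.comp hs6 hs))) (fun x => ?_) fun x => ?_))
  · have h1 : p x.1 - g' (c x.2 + g (p x.1)) = 0 := congrArg Prod.fst h
    have h2 : c x.2 + g (p x.1) = 0 := congrArg Prod.snd h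
    rw [h2, map_zero, sub_zero] at h1
    rw [h1, map_zero, add_zero] at h2
    obtain ⟨a, ha⟩ := (S.ex _).1 h1
    obtain ⟨b, hb⟩ := (hjx _).1 h2
    exact ⟨(a, b), Prod.ext ha hb⟩
  · rintro ⟨t, rfl⟩
    have h1 := S.ex.apply_apply_eq_zero t.1
    have h2 := hjx.apply_apply_eq_zero t.2
    refine Prod.ext ?_ ?_
    · change p (i t.1) - g' (c (j t.2) + g (p (i t.1))) = 0
      simp only [h1, h2, map_zero, add_zero, sub_zero]
    · change c (j t.2) + g (p (i t.1)) = 0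
      simp only [h1, h2, map_zero, add_zero]
  · obtain ⟨a, ha⟩ := (S'.ex x.1).1 (congrArg Prod.snd h)
    obtain ⟨b, hb⟩ := (hjx x.2).1 (congrArg Prod.fst h)
    exact ⟨(a, b), Prod.ext ha hb⟩
  · rintro ⟨t, rfl⟩
    exact Prod.ext (hjx.apply_apply_eq_zero t.2) (S'.ex.apply_apply_eq_zero t.1)
  · refine Prod.ext ?_ ?_
    · change c (s1 (α x.1) - s2 x.2) = p x.1 - g' (c x.2 + g (p x.1))
      simp only [map_sub, map_add, a3, a4, e1, e2]
      abel
    · change p' (x.1 - s3 x.1 + s4 x.2) = c x.2 + g (p x.1)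
      simp only [map_sub, map_add, a5, a6]
      abel
  · refine Prod.ext ?_ ?_
    · change p (x.1 - s7 x.1 + s8 x.2) - g' (c (s5 (α x.1) - s6 x.2) +
        g (p (x.1 - s7 x.1 + s8 x.2))) = c x.2
      simp only [map_sub, map_add, a7, a8, a9, a10, e1, e2]
      abel
    · change c (s5 (α x.1) - s6 x.2) + g (p (x.1 - s7 x.1 + s8 x.2)) = p' x.1
      simp only [map_sub, map_add, a7, a8, a9, a10, e1, e2]
      abel

end
end Pool.Agent.P.MP_cf639b_al
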