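import Pool.Agent.P.MP_cf639b_al.IfE

set_option linter.dupNamespace false

namespace Pool.Agent.P.MP_cf639b_al

universe u
open TensorProduct Polynomial Function

noncomputable section

theorem etor_ex {k : Type u} [Field k] {R : Type u} [Ring R] [Algebra k R] (d : Fam R)
    (B Z A : Md k R) (i : B →ₗ[R] Z) (p : Z →ₗ[R] A) (h : Exact i p) (hp : Surjective p) :
    Exact (Emap d i) (Emap d p) := by
  intro u
  constructor
  · obtain ⟨z, rfl⟩ := Emk_surj d Z u
    intro hz
    obtain ⟨w, hw⟩ := Emk_eq_zero.1 ((Emap_mk d p z).symm.trans hz)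
    choose w' hw' using fun b => Finsupp.mapRange_surjective p (map_zero p) hp (w b)
    have h1 := Dop_nat (k := k) d _ _ _ (mapRange_shift p) w'
    have h2 : ∀ a l, (z - DX d Z w') a l ∈ Set.range i := fun a l => by
      rw [← h, Pi.sub_apply, Finsupp.sub_apply, map_sub, sub_eq_zero]
      have h3 := congrFun hw a
      rw [show w = fun b => Finsupp.mapRange.linearMap p (w' b) from funext fun b => (hw' b).symm]
        at h3
      exact (DFunLike.congr_fun (h3.symm.trans (congrFun h1 a)) l :)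
    have h3 : ∀ a, ∃ y : ℕ →₀ B, Finsupp.mapRange.linearMap i y = (z - DX d Z w') a := fun a => by
      choose f hf using h2 a
      classical
      refine ⟨Finsupp.onFinset ((z - DX d Z w') a).support
        (fun l => if (z - DX d Z w') a l = 0 then 0 else f l) fun l hl => ?_, ?_⟩
      · exact Finsupp.mem_support_iff.2 fun e => hl (if_pos e)
      · ext l
        simp only [Finsupp.mapRange.linearMap_apply, Finsupp.mapRange_apply, Finsupp.onFinset_apply]
        split_ifs with e
        · rw [e, map_zero]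
        · exact hf l
    choose y hy using h3
    refine ⟨Emk d B y, ?_⟩
    rw [Emap_mk, funext hy, map_sub, Emk_eq_zero.2 ⟨w', rfl⟩, sub_zero]
  · rintro ⟨v, rfl⟩
    rw [← LinearMap.comp_apply, ← Emap_comp, h.linearMap_comp_eq_zero, map_zero,
      LinearMap.zero_apply]

theorem etor_kill {F : Type u} [Field F] {M : Type u} [AddCommGroup M] [Module F[X] M]
    [Module.Finite F[X] M] : ∃ n0 : ℕ, ∀ (y : F) (t : M) (a : ℕ), (X - C y) ^ a • t = 0 →
      (X - C y) ^ n0 • t = 0 := by
  obtain ⟨g, h1, h2⟩ := Submodule.annihilator_top_inter_nonZeroDivisors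
    (Submodule.torsion_isTorsion (R := F[X]) (M := M))
  have h0 : g ≠ 0 := nonZeroDivisors.ne_zero h2
  refine ⟨g.natDegree, fun y t a ht => ?_⟩
  have h3 : g • t = 0 := congrArg Subtype.val (Submodule.mem_annihilator.1 h1
    ⟨t, ⟨_, mem_nonZeroDivisors_of_ne_zero (pow_ne_zero a (X_sub_C_ne_zero y))⟩, ht⟩ trivial)
  obtain ⟨g', h4, h5⟩ := exists_eq_pow_rootMultiplicity_mul_and_not_dvd g h0 y
  obtain ⟨u, v, h6⟩ := ((irreducible_X_sub_C y).coprime_iff_not_dvd.2 h5).pow_left (m := a)
  have h7 : (X - C y) ^ rootMultiplicity y g • t = 0 := by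
    rw [← one_smul F[X] (_ • t), ← h6, add_smul, mul_smul, mul_smul, smul_comm (_ ^ a), ht,
      ← mul_smul g', mul_comm g', ← h4, h3]
    simp
  obtain ⟨c, hc⟩ := Nat.exists_eq_add_of_le' (show rootMultiplicity y g ≤ g.natDegree by
    simpa using natDegree_le_of_dvd (pow_rootMultiplicity_dvd g y) h0)
  rw [hc, pow_add, mul_smul, h7, smul_zero]

theorem t_ETOR (k : Type u) [Field k] [IsAlgClosed k] (R : Type u) [Ring R] [Algebra k R]
    [FiniteDimensional k R] (L : Lib k) :
    S_ETOR k R := by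
  have unif : ∀ (F : Type u) [Field F] [Algebra k F] (d : Fam R) (A : FO k R F), A.fd →
      ∃ n0 : ℕ, ∀ (y : F) (t : EE d A.X), Trs (piE d A y) t → (piE d A y ^ n0) t = 0 := by
    intro F _ _ d A hA
    have := (L.noe R).fin F d A hA
    obtain ⟨n0, h⟩ := etor_kill (F := F) (M := Module.AEval' (EXF d A))
    have key : ∀ (y : F) (t : EE d A.X) (n : ℕ), (X - C y) ^ n • Module.AEval'.of (EXF d A) t = 0 ↔
        (piE d A y ^ n) t = 0 := fun y t n => by
      rw [← (L.bock R).piE_pol]
      exact Iff.rfl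
    exact ⟨n0, fun y t ⟨a, ha⟩ => (key y t n0).1 (h y _ a ((key y t a).2 ha))⟩
  refine ⟨etor_ex, unif, fun F _ _ d A κ _ T y ⟨i, p, _, hp, _, _, h⟩ hT => ?_,
    fun F _ _ d B hB Z i hZ hi hg => ?_⟩
  · refine (injective_iff_map_eq_zero _).2 fun t ht => ?_
    have h1 : ∀ s, Emap d (p s) t = 0 := fun s => (injective_iff_map_eq_zero _).1 (hT s) _ (by
      have := (L.bock R).emap_piE F d y A (T s) _ (hp s) 1 t
      rw [pow_one, pow_one, ht, map_zero] at this
      exact this.symm)
    have h2 := LinearMap.congr_fun ((congrArg (Emap d) h).trans (Emap_id d A.X)) t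
    rw [map_sum, LinearMap.sum_apply, LinearMap.id_apply] at h2
    rw [← h2]
    exact Finset.sum_eq_zero fun s _ => by rw [Emap_comp, LinearMap.comp_apply, h1, map_zero]
  let W : ℕ → Submodule F (EE d B.X) := fun m =>
    { carrier := {w | Emap d (i m) w = 0}
      add_mem' := fun {a b} ha hb => by
        change Emap d (i m) (a + b) = 0
        rw [map_add, ha, hb, add_zero]
      zero_mem' := map_zero _
      smul_mem' := fun c w hw => by
        change Emap d (i m) (Emap d (B.act c) w) = 0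
        rw [← LinearMap.comp_apply, ← Emap_comp, mem_HomF'.1 (hi m) c, Emap_comp,
          LinearMap.comp_apply, hw, map_zero] }
  have hW : ∀ m w, w ∈ W m ↔ Emap d (i m) w = 0 := fun _ _ => Iff.rfl
  obtain ⟨m0, h0⟩ := (L.noe R).acc F d B hB W (monotone_nat_of_le_succ fun m w hw => by
    obtain ⟨g, hg⟩ := hg m
    rw [hW, ← hg, Emap_comp, LinearMap.comp_apply, (hW _ _).1 hw, map_zero])
    fun m w hw => by rw [hW, Emap_EX, (hW _ _).1 hw, map_zero]
  choose n hn using fun m => unif F d (Z m) (hZ m)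
  have h1 : ∀ m ≤ m0, ∀ (y : F) (t : EE d (Z m).X), Trs (piE d (Z m) y) t →
      (piE d (Z m) y ^ (Finset.range (m0 + 1)).sup n) t = 0 := fun m hm y t ht => by
    obtain ⟨c, hc⟩ := Nat.exists_eq_add_of_le'
      (Finset.le_sup (f := n) (Finset.mem_range.2 (Nat.lt_succ_of_le hm)))
    rw [hc, pow_add, Module.End.mul_apply, hn m y t ht, map_zero]
  refine ⟨(Finset.range (m0 + 1)).sup n, fun m y w hw => ?_⟩
  rcases le_total m m0 with h | h
  · exact h1 m h y _ hw
  have h2 : ∀ a, (piE d (Z m) y ^ a) (Emap d (i m) w) = 0 ↔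
      (piE d (Z m0) y ^ a) (Emap d (i m0) w) = 0 := fun a => by
    rw [← (L.bock R).emap_piE F d y B _ _ (hi m), ← (L.bock R).emap_piE F d y B _ _ (hi m0), ← hW,
      ← hW, h0 m h]
  exact (h2 _).2 (h1 m0 le_rfl y _ (hw.imp fun a => (h2 a).1))

end
end Pool.Agent.P.MP_cf639b_al
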