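import Pool.Agent.P.MP_cf639b_al.IfE

set_option linter.dupNamespace false

namespace Pool.Agent.P.MP_cf639b_al

universe u
open TensorProduct Polynomial Function

noncomputable section

section aux
variable {k : Type u} [Field k] {R : Type u} [Ring R] [Algebra k R]
  {F : Type u} [Field F] [Algebra k F]

theorem eux_desc {Z A C : FO k R F} {p : Z.X →ₗ[R] A.X} (hp : p ∈ HomF Z A) (hs : Surjective p)
    {f : Z.X →ₗ[R] C.X} (hf : f ∈ HomF Z C) (h : ∀ z, p z = 0 → f z = 0) :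
    ∃ g ∈ HomF A C, g ∘ₗ p = f := by
  have e : ∀ z, ((LinearMap.ker p).liftQ f h ∘ₗ
      (p.quotKerEquivOfSurjective hs).symm.toLinearMap) (p z) = f z := fun z => by
    simp only [LinearMap.comp_apply, LinearEquiv.coe_coe,
      LinearMap.quotKerEquivOfSurjective_symm_apply]
    rfl
  refine ⟨(LinearMap.ker p).liftQ f h ∘ₗ (p.quotKerEquivOfSurjective hs).symm.toLinearMap,
    fun c t => ?_, LinearMap.ext e⟩
  obtain ⟨z, rfl⟩ := hs t
  rw [← hp c z, e, e, hf c z]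

theorem eux_pi_dec {κ : Type} [Fintype κ] (T : κ → FO k R F) : Decomp (FO.pi T) T := by
  classical
  refine ⟨fun s => LinearMap.single R (fun s => (T s).X) s, fun s => LinearMap.proj s,
    fun s c t => Pi.single_smul (f := fun s => (T s).X) s c t, fun s c t => rfl, fun s => ?_, fun s s' h => ?_, ?_⟩
  · ext t; simp
  · ext t; simp [Ne.symm h]
  · refine LinearMap.ext fun t => ?_
    rw [LinearMap.sum_apply]
    exact Finset.univ_sum_single t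

theorem eux_pi_fd {κ : Type} [Fintype κ] (T : κ → FO k R F) (h : ∀ s, (T s).fd) :
    (FO.pi T).fd := by
  have : ∀ s, Module.Finite F (T s).X := h
  exact inferInstanceAs (Module.Finite F (∀ s, (T s).X))

theorem eux_ann {V : Type u} [AddCommGroup V] [Module F V] [Module.Finite F V]
    (W : Submodule F V) :
    ∃ (w : ℕ) (h : Fin w → V →ₗ[F] F), ∀ v, v ∈ W ↔ ∀ s, h s v = 0 :=
  ⟨_, fun s => (Module.finBasis F (V ⧸ W)).coord s ∘ₗ W.mkQ, fun v => by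
    rw [← Submodule.Quotient.mk_eq_zero, ← (Module.finBasis F (V ⧸ W)).forall_coord_eq_zero_iff]
    rfl⟩

theorem eux_ann2 {B C : FO k R F} (hf : Module.Finite F (HomF B C))
    (W : Submodule F (B.X →ₗ[R] C.X)) :
    ∃ (w : ℕ) (h : Fin w → HomF B C →ₗ[F] F), ∀ ψ : HomF B C, ψ.1 ∈ W ↔ ∀ s, h s ψ = 0 :=
  eux_ann (W.comap (HomF B C).subtype)

/-- composition with a fixed map -/
def eux_post (B : FO k R F) {C C' : FO k R F} {g : C.X →ₗ[R] C'.X} (hg : g ∈ HomF C C') :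
    HomF B C →ₗ[F] HomF B C' where
  toFun ψ := ⟨g ∘ₗ ψ.1, HomF.comp hg ψ.2⟩
  map_add' _ _ := Subtype.ext (LinearMap.comp_add _ _ _)
  map_smul' c _ := Subtype.ext (LinearMap.ext fun _ => hg c _)

variable [FiniteDimensional k R]

theorem eux_mem {C D : FO k R F} (e : Bool) (m : ℕ)
    {a : C.X →ₗ[R] ((Tn e m).onF (T0F k R F)).X} (ha : a ∈ HomF C ((Tn e m).onF (T0F k R F)))
    {b : ((Tn e m).onF (T0F k R F)).X →ₗ[R] D.X} (hb : b ∈ HomF ((Tn e m).onF (T0F k R F)) D) :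
    b ∘ₗ a ∈ QQ e C D := Submodule.subset_span ⟨m, a, ha, b, hb, rfl⟩
end aux

theorem t_EUX (k : Type u) [Field k] [IsAlgClosed k] (R : Type u) [Ring R] [Algebra k R]
    [FiniteDimensional k R] (L : Lib k) :
    S_EUX k R := by
  intro F _ _ B ι _ N hB hN hθ
  classical
  choose a ha b hb hba hab using hθ
  have hW : ∀ j, ∃ (w : ℕ) (h : Fin w → HomF B (Tp.onF (N j)) →ₗ[F] F),
      ∀ ψ : HomF B (Tp.onF (N j)), ψ.1 ∈ QQ true B (Tp.onF (N j)) ↔ ∀ s, h s ψ = 0 := by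
    intro j
    exact eux_ann2 ((L.fd R).hom F B (Tp.onF (N j)) hB ((L.fd R).te F true _ (hN j))) _
  choose w h hh using hW
  obtain ⟨A, hA, inc, pr, hinc, hpr, h1, h2, h3⟩ : ∃ A : FO k R F, A.fd ∧
      Decomp A fun s : Σ j, Fin (w j) => N s.1 :=
    ⟨_, eux_pi_fd _ fun s : Σ j, Fin (w j) => hN s.1, eux_pi_dec _⟩
  obtain ⟨H, hH⟩ : ∃ H : HomF B (Tp.onF A) →ₗ[F] F, ∀ ψ (hψ : ψ ∈ HomF B (Tp.onF A)),
      H ⟨ψ, hψ⟩ = ∑ s : Σ j, Fin (w j),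
        h s.1 s.2 ⟨Tp.map (pr s) ∘ₗ ψ, HomF.comp (Tp.map_mem (hpr s)) hψ⟩ :=
    ⟨∑ s : Σ j, Fin (w j), h s.1 s.2 ∘ₗ eux_post B (Tp.map_mem (hpr s)), fun ψ hψ => by
      rw [LinearMap.sum_apply]; rfl⟩
  have hHQ : ∀ ψ (hψ : ψ ∈ HomF B (Tp.onF A)),
      (∀ s, Tp.map (pr s) ∘ₗ ψ ∈ QQ true B (Tp.onF (N s.1))) → H ⟨ψ, hψ⟩ = 0 := fun ψ hψ hq => by
    rw [hH]
    exact Finset.sum_eq_zero fun s _ => (hh s.1 ⟨_, _⟩).1 (hq s) s.2
  have hHQ' : ∀ ψ (hψ : ψ ∈ HomF B (Tp.onF A)), ψ ∈ QQ true B (Tp.onF A) → H ⟨ψ, hψ⟩ = 0 :=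
    fun ψ hψ hq => hHQ ψ hψ fun s => (L.qq R).l F true _ _ _ ψ hq _ (Tp.map_mem (hpr s))
  obtain ⟨Z, i, p, hZ, hi, hp, hinj, hex, hsurj, hext, hlift⟩ := L.ext R F A B hA hB H
    fun ψ hψ => hHQ' ψ.1 ψ.2 ((L.qq R).i0 F true _ _ hB hψ)
  have key : ∀ C : FO k R F, ∀ r ∈ HomF B C,
      (∃ r' ∈ HomF Z C, r' ∘ₗ i = r) ↔ ∀ j, Kset B C (N j) r := by
    intro C r hr
    rw [hext C r hr]
    constructor
    · intro h0 j φ hφ
      have hq : a j ∘ₗ φ ∘ₗ r ∈ QQ true B (Tp.onF (N j)) := by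
        refine (hh j ⟨_, HomF.comp (ha j) (HomF.comp hφ hr)⟩).2 fun s => ?_
        have h4 := h0 (Tp.map (inc ⟨j, s⟩) ∘ₗ a j ∘ₗ φ)
          (HomF.comp (Tp.map_mem (hinc ⟨j, s⟩)) (HomF.comp (ha j) hφ))
        rw [hH, Finset.sum_eq_single ⟨j, s⟩ (fun s' _ hs' => ?_) (by simp)] at h4
        · refine Eq.trans (congrArg (h j s) (Subtype.ext ?_)) h4
          change _ = (Tp.map (pr ⟨j, s⟩) ∘ₗ Tp.map (inc ⟨j, s⟩)) ∘ₗ a j ∘ₗ φ ∘ₗ r
          rw [← Tp.map_comp, h1, Tp.map_id]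
          rfl
        · refine Eq.trans (congrArg (h s'.1 s'.2) (Subtype.ext ?_)) (map_zero _)
          change (Tp.map (pr s') ∘ₗ Tp.map (inc ⟨j, s⟩)) ∘ₗ a j ∘ₗ φ ∘ₗ r = 0
          rw [← Tp.map_comp, h2 _ _ (Ne.symm hs'), map_zero, LinearMap.zero_comp]
      have h5 := sub_mem ((L.qq R).l F true _ _ _ _ hq _ (hb j)) ((L.qq R).i0 F true _ _ hB
        ((L.id R).i0_r F B _ _ _ (hba j) _ (HomF.comp hφ hr)))
      rwa [LinearMap.sub_comp, LinearMap.id_comp, LinearMap.comp_assoc, sub_sub_cancel] at h5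
    · intro h0 ψ hψ
      refine hHQ _ _ fun s => ?_
      have hχ := HomF.comp (Tp.map_mem (hpr s)) hψ
      have h5 := sub_mem ((L.qq R).l F true _ _ _ _ (h0 s.1 _ (HomF.comp (hb s.1) hχ)) _ (ha s.1))
        ((L.qq R).i0 F true _ _ hB ((L.id R).i0_r F B _ _ _ (hab s.1) _ (HomF.comp hχ hr)))
      rw [LinearMap.sub_comp, LinearMap.id_comp] at h5
      have h6 : ∀ χ : B.X →ₗ[R] (Tp.onF (N s.1)).X, a s.1 ∘ₗ (b s.1 ∘ₗ χ) -
          ((a s.1 ∘ₗ b s.1) ∘ₗ χ - χ) = χ := fun χ => sub_sub_cancel _ _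
      have h7 := h6 (Tp.map (pr s) ∘ₗ ψ ∘ₗ r)
      exact (congrArg (· ∈ QQ true B (Tp.onF (N s.1))) h7).mp h5
  refine ⟨Z, A, i, p, hZ, hA, hi, hp, hinj, hex, hsurj, key, ?_, ?_,
    ⟨_, inferInstance, _, inc, pr, hinc, hpr, h1, h2, h3⟩⟩
  · intro C f hf hq
    obtain ⟨n, m, α, β, hα, hβ, hs⟩ := (L.qq R).sum F true _ _ _ hq
    have h6 : ∀ l, ∃ r' ∈ HomF Z ((Tn true (m l)).onF (T0F k R F)), r' ∘ₗ i = α l := fun l =>
      (key _ _ (hα l)).2 fun j φ hφ => eux_mem true (m l) (hα l) hφ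
    choose α' hα' hα2 using h6
    have hq2 : ∑ l, β l ∘ₗ α' l ∈ QQ true Z C :=
      Submodule.sum_mem _ fun l _ => eux_mem true (m l) (hα' l) (hβ l)
    obtain ⟨g, hg, hg2⟩ := eux_desc hp hsurj (sub_mem hf ((L.qq R).le F true _ _ hq2))
      (fun z hz => by
        obtain ⟨t, rfl⟩ := (hex z).1 hz
        have h7 := LinearMap.congr_fun hs t
        simp only [LinearMap.comp_apply, LinearMap.sum_apply, LinearMap.sub_apply, ← hα2] at h7 ⊢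
        rw [h7, sub_self])
    exact ⟨g, hg, by rw [hg2, sub_sub_cancel]; exact hq2⟩
  · intro C q hq
    obtain ⟨n, m, α, β, hα, hβ, hs⟩ := (L.qq R).sum F true _ _ _ hq
    have h6 : ∀ l, ∃ b' ∈ HomF ((Tn true (m l)).onF (T0F k R F)) Z, p ∘ₗ b' = β l := fun l =>
      (hlift _ _ (hβ l)).2 fun ψ hψ => hHQ' _ _
        (eux_mem (D := Tp.onF A) true (m l + 1) (a := ψ) hψ (b := Tp.map (β l))
          (Tp.map_mem (hβ l)))
    choose β' hβ' hβ2 using h6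
    refine ⟨∑ l, β' l ∘ₗ α l, Submodule.sum_mem _ fun l _ => eux_mem true (m l) (hα l) (hβ' l), ?_⟩
    rw [hs]
    refine LinearMap.ext fun t => ?_
    simp only [LinearMap.comp_apply, LinearMap.sum_apply, map_sum, ← hβ2]

end
end Pool.Agent.P.MP_cf639b_al
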