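import Pool.Agent.P.MP_cf639b_al.T.EG
import Pool.Agent.P.MP_cf639b_al.T.EUX
import Pool.Agent.P.MP_cf639b_al.T.ESCH
import Pool.Agent.P.MP_cf639b_al.T.E1
import Pool.Agent.P.MP_cf639b_al.T.EIT
import Pool.Agent.P.MP_cf639b_al.T.EK
import Pool.Agent.P.MP_cf639b_al.T.ECNT
import Pool.Agent.P.MP_cf639b_al.T.ETOR
import Pool.Agent.P.MP_cf639b_al.T.EDIM

set_option linter.dupNamespace false

namespace Pool.Agent.P.MP_cf639b_al

universe u

theorem t_E (k : Type u) [Field k] [IsAlgClosed k] (R : Type u) [Ring R] [Algebra k R]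
    [FiniteDimensional k R] (L : Lib k) :
    S_CL1 k R → S_HOM k R → S_REL k R → S_SAME k R → S_LL k R → S_PDIM k R → S_E k R :=
  fun hCL hHOM _ hSAME hLL hPD =>
    t_EG k R L (t_EUX k R L) (t_E1 k R L hCL (t_ESCH k R L))
      (t_EK k R L (t_EIT k R L) (t_EDIM k R L)) (t_ECNT k R L) (t_ETOR k R L) (t_EDIM k R L)
      hHOM hSAME hLL hPD

end Pool.Agent.P.MP_cf639b_al
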