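import Pool.Agent.P.MP_cf639b_al.Iface

set_option linter.dupNamespace false

namespace Pool.Agent.P.MP_cf639b_al

universe u v
open TensorProduct Polynomial Function

section
variable {k : Type u} [Field k] {R : Type u} [Ring R] [Algebra k R] [FiniteDimensional k R]
  {F : Type u} [Field F] [Algebra k F]

theorem e2_fd (L : Lib k) (d : Fam R) (y : F) (n : ℕ) : (MF d (J k y n)).fd :=
  (L.fd R).m F d _ ((L.fd R).jq F _ (Jmonic y n)).1

omit [FiniteDimensional k R] in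
theorem e2_ne (H : PG k R) {y : F} (hy : Transcendental k y) : aeval y H.D.f ≠ 0 :=
  fun h => hy ⟨H.D.f, H.D.hf, h⟩

theorem e2_dd (L : Lib k) {S : Type u} [Ring S] [Algebra k S] [FiniteDimensional k S]
    (σ : Anti k R S) (A : FO k R F) (hA : A.fd) : IsoF A (DF σ.symm (DF σ A)) :=
  ⟨Dev σ A, (L.dd R).ev_mem S σ F A, (L.dd R).ev_bij S σ F A hA⟩

theorem e2_same (L : Lib k) {A B : FO k R F} (h : IsoF A B) : SameS A.X B.X :=
  let ⟨f, _, hf⟩ := h
  (L.pp R).iso _ _ f hf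

end

theorem t_E2 (k : Type u) [Field k] [IsAlgClosed k] (R : Type u) [Ring R] [Algebra k R]
    [FiniteDimensional k R]
    (L : Lib k)
    (hE : S_E k R)
    (hREL : S_REL k R)
    (hHOM : S_HOM k R) :
    S_E2 k R := by
  rintro hN F _ _ hB H1 H2 y1 y2 e1 e2 e h1 h2 A B ⟨a, ha, ha'⟩ ⟨b, hb, hb'⟩ ⟨f, hf, hq⟩
  have := hB.1
  obtain ⟨a', a1, a2, -⟩ := (L.id R).iso_inv F _ _ a ha ha'
  obtain ⟨b', b1, b2, -⟩ := (L.id R).iso_inv F _ _ b hb hb'
  refine hE hN F hB H1 H2 y1 y2 e1 e2 h1 h2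
    ⟨(b ∘ₗ f) ∘ₗ a', HomF.comp (HomF.comp hb hf) a1, fun h => hq ?_⟩
  have h' : (b ∘ₗ f) ∘ₗ a' ∈
      QQ e (MF H1.d (J k y1 (e1 + 1))) (MF H2.d (J k y2 (e2 + 1))) := by
    cases e
    · exact hREL F _ _ (e2_fd L _ _ _) (e2_fd L _ _ _) (hHOM hN F H1 y1 e1 h1)
        (hHOM hN F H2 y2 e2 (L.aut.tr F _ _ h2)) h
    · exact h
  have h3 := (L.qq R).r F e A _ B _ ((L.qq R).l F e _ _ B _ h' b' b1) a ha
  have e3 : (b' ∘ₗ (b ∘ₗ f) ∘ₗ a') ∘ₗ a = f := LinearMap.ext fun t => by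
    have c1 : a' (a t) = t := LinearMap.congr_fun a2 t
    have c2 : b' (b (f t)) = f t := LinearMap.congr_fun b2 (f t)
    change b' (b (f (a' (a t)))) = f t
    rw [c1, c2]
  rwa [e3] at h3

theorem t_DG (k : Type u) [Field k] [IsAlgClosed k] (R : Type u) [Ring R] [Algebra k R]
    [FiniteDimensional k R]
    (L : Lib k)
    (hCL1 : ∀ (S : Type u) [Ring S] [Algebra k S] [FiniteDimensional k S], S_CL1 k S) :
    S_DG k R := by
  refine ⟨fun S _ _ _ σ hN F _ _ _ H y n hy => ?_,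
    fun S _ _ _ σ F _ _ hB H H' y y' n n' s _ hy hi => ?_⟩
  · have h1 := e2_fd L H.d y (n + 1)
    rcases hCL1 S hN F (DF σ (MF H.d (J k y (n + 1)))) ((L.dd R).fd S σ F _ h1).1
      ((L.dd R).loc S σ F _ h1 ((L.pg R).locJ H F y n (e2_ne H hy))) with h | h
    · obtain ⟨Q, hQ, h2⟩ := (L.dd S).const R σ.symm F _ h
      exact absurd ⟨Q, hQ, (L.id R).iso_trans F _ _ _ (e2_dd L σ _ h1) h2⟩
        ((L.pg R).nconst H F y n hy)
    · exact h
  · classical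
    have := hB.1
    by_contra hn
    have hinf : {z : F | TrO k (s : Set F) z}.Infinite := fun hf => by
      obtain ⟨z, hz⟩ := hB.2 (s ∪ hf.toFinset)
      refine L.aut.ne F _ z hz (Finset.mem_coe.2 (Finset.mem_union_right _ ?_))
      exact hf.mem_toFinset.2 (L.aut.mono F _ _ z (Finset.coe_subset.2 Finset.subset_union_left) hz)
    have hc : ∀ z : F, ∃ τ : F ≃ₐ[k] F, TrO k (s : Set F) z → (∀ c ∈ (s : Set F), τ c = c) ∧ τ y = z :=
      fun z => by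
        by_cases h : TrO k (s : Set F) z
        · obtain ⟨τ, hτ⟩ := L.aut.aut F _ y z hy h
          exact ⟨τ, fun _ => hτ⟩
        · exact ⟨AlgEquiv.refl, fun h' => absurd h' h⟩
    choose τ hτ using hc
    obtain ⟨z1, h1, z2, h2, hne, he⟩ := hinf.exists_ne_map_eq_of_mapsTo (f := fun z => τ z y')
      (t := {b : F | ∃ σ : F ≃ₐ[k] F, (∀ c ∈ (s : Set F), σ c = c) ∧ σ y' = b})
      (fun z hz => ⟨τ z, (hτ z hz).1, rfl⟩) (L.aut.orbit F _ y' hn)
    have key : ∀ z, TrO k (s : Set F) z →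
        IsoF (DF σ (MF H.d (J k z (n + 1)))) (MF H'.d (J k (τ z y') (n' + 1))) := fun z hz => by
      have a1 := (L.tw R).j F (MN H.d) y (n + 1) (τ z)
      rw [(hτ z hz).2] at a1
      exact (L.id S).iso_trans F _ _ _ ((L.dd R).iso S σ F _ _ ((L.id R).iso_symm F _ _ a1))
        ((L.id S).iso_trans F _ _ _ ((L.dd R).tw S σ F _ (τ z))
          ((L.id S).iso_trans F _ _ _ ((L.tw S).iso F _ _ (τ z) hi)
            ((L.tw S).j F (MN H'.d) y' (n' + 1) (τ z))))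
    have k1 := key z1 h1
    have k2 := key z2 h2
    rw [show τ z1 y' = τ z2 y' from he] at k1
    have k3 := (L.dd S).iso R σ.symm F _ _
      ((L.id S).iso_trans F _ _ _ k1 ((L.id S).iso_symm F _ _ k2))
    exact hne ((L.pg R).isoJ H F z1 z2 n n (e2_ne H (L.aut.tr F _ _ h1))
      (e2_ne H (L.aut.tr F _ _ h2))
      ((L.id R).iso_trans F _ _ _ (e2_dd L σ _ (e2_fd L _ _ _)) ((L.id R).iso_trans F _ _ _ k3
        ((L.id R).iso_symm F _ _ (e2_dd L σ _ (e2_fd L _ _ _))))))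

theorem t_GAMD (k : Type u) [Field k] [IsAlgClosed k] (R : Type u) [Ring R] [Algebra k R]
    [FiniteDimensional k R]
    (L : Lib k)
    (hDG : ∀ (S : Type u) [Ring S] [Algebra k S] [FiniteDimensional k S], S_DG k S) :
    S_GAMD k R := by
  intro S _ _ _ σ hN F _ _ _ H H' y y' n n' hy hy' hi hG π hπ
  obtain ⟨π', hd⟩ := L.dual R S σ π
  have f1 := e2_fd L H.d y (n + 1)
  have s1 := (L.sames R).j H.d F y n hy
  have s2 := (L.sames S).j H'.d F y' n' hy'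
  have s3 := e2_same L hi
  obtain ⟨G, g1, g2⟩ := hG π' ((s2 π').1 ((s3 π').1 ((hd F _ f1).1 ((s1 π).2 hπ))))
  obtain ⟨H3, y3, n3, h3, i3⟩ := (hDG S).ex R σ.symm hN F G y 0 hy
  have f2 := e2_fd L G.d y (0 + 1)
  have s4 := (L.sames S).j G.d F y 0 hy
  have s5 := (L.sames R).j H3.d F y3 n3 h3
  have s6 := e2_same L i3
  have s7 : SameS (MF G.d (J k y (0 + 1))).X (DF σ (DF σ.symm (MF G.d (J k y (0 + 1))))).X :=
    e2_same L (e2_dd L σ.symm _ f2)
  refine ⟨H3, fun h => g1 fun ρ => ?_, (s5 π).1 ((s6 π).1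
    ((hd F _ ((L.dd S).fd R σ.symm F _ f2).1).2 ((s7 π').1 ((s4 π').2 g2))))⟩
  obtain ⟨ρ', hρ⟩ := L.dual S R σ.symm ρ
  exact (s4 ρ).symm.trans ((hρ F _ f2).trans ((s6 ρ').trans ((s5 ρ').trans ((h ρ').trans
    ((s1 ρ').symm.trans ((e2_same L (e2_dd L σ _ f1) ρ').trans
      ((hρ F _ ((L.dd R).fd S σ F _ f1).1).symm.trans ((s3 ρ).trans (s2 ρ)))))))))

end Pool.Agent.P.MP_cf639b_al
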