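import Pool.Agent.P.MP_cf639b_al.Iface

set_option linter.dupNamespace false

namespace Pool.Agent.P.MP_cf639b_al

universe u v
open TensorProduct Polynomial Function

section

variable {k : Type u} [Field k] {R : Type u} [Ring R] [Algebra k R]

theorem endo_mono {α : Type u} [Preorder α] (a : ℕ → α) (m : ℕ) (h : ∀ i < m, a i < a (i + 1))
    (i : ℕ) (hi : i ≤ m) : a i ≤ a m := by
  induction m with
  | zero => rw [Nat.le_zero.1 hi]
  | succ m ih =>
    rcases Nat.eq_or_lt_of_le hi with e | e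
    · rw [e]
    · exact (ih (fun j hj => h j (by omega)) (by omega)).trans (h m (by omega)).le

theorem endo_closed (N : Md k R) (π : Pr k R) (h : ¬ π.Open N) :
    PLen N π.U (π.φ.ev N ⊓ π.ψ.ev N) (π.φ.ev N) 0 := by
  intro m χ hχ h0 hm
  by_contra hc
  have h1 : π.φ.ev N ≤ π.ψ.ev N := not_not.1 h
  rw [inf_eq_left.2 h1] at h0
  have h2 := endo_mono (fun i => (χ i).ev N) m hχ 1 (by omega)
  exact absurd (((hχ 0 (by omega)).trans_le h2).trans_le (hm.trans h0)) (lt_irrefl _)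

variable [FiniteDimensional k R]

/-- a minimal open pair -/
theorem endo_min (hP : S_PP k R) (hnd : ND0 k R) (N : Md k R) (hN : Nontrivial N) :
    ∃ π : Pr k R, π.Open N ∧ PLen N π.U (π.φ.ev N ⊓ π.ψ.ev N) (π.φ.ev N) 1 := by
  by_contra hc
  refine hnd ⟨{π | π.ψ.le π.φ ∧ π.Open N}, ?_, ?_⟩
  · have hfd : (reg k R).fd := ‹FiniteDimensional k R›
    obtain ⟨φ, hφ⟩ := hP.top (reg k R) hfd
    obtain ⟨ψ, hψ⟩ := hP.bot (reg k R)
    refine ⟨⟨reg k R, hfd, φ, ψ⟩, fun T => ?_, fun h => ?_⟩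
    · rw [hφ]; exact le_top
    · obtain ⟨x, hx⟩ := exists_ne (0 : N)
      change φ.ev N ≤ ψ.ev N at h
      rw [hφ, hψ] at h
      have h1 : LinearMap.toSpanSingleton R N x = 0 :=
        (Submodule.mem_bot k).1 (h Submodule.mem_top)
      have h2 := LinearMap.congr_fun h1 (1 : R)
      rw [LinearMap.toSpanSingleton_apply, one_smul] at h2
      exact hx h2
  · rintro π ⟨h1, h2⟩
    refine ⟨fun h => h2 (h N), ?_⟩
    by_contra hχ
    refine hc ⟨π, h2, fun m χ hs h0 hm => ?_⟩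
    by_contra hm2
    obtain ⟨a, ha⟩ := hP.sup π.U (χ 1) π.ψ
    obtain ⟨b, hb⟩ := hP.inf π.U a π.φ
    have l1 : π.ψ.le b := fun T => by
      rw [hb, ha]; exact le_inf le_sup_right (h1 T)
    have l2 : b.le π.φ := fun T => by
      rw [hb]; exact inf_le_right
    rw [inf_eq_right.2 (h1 N)] at h0
    have s0 := h0.trans_lt (hs 0 (by omega))
    have s1 := (hs 1 (by omega)).trans_le
      ((endo_mono (fun i => (χ i).ev N) m hs 2 (by omega)).trans hm)
    have e : b.ev N = (χ 1).ev N := by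
      rw [hb, ha, sup_eq_left.2 s0.le, inf_eq_left.2 s1.le]
    refine hχ ⟨b, l1, l2, ⟨l2, fun h => ?_⟩, ⟨l1, fun h => ?_⟩⟩
    · change π.φ.ev N ≤ b.ev N at h
      rw [e] at h
      exact absurd (s1.trans_le h) (lt_irrefl _)
    · change b.ev N ≤ π.ψ.ev N at h
      rw [e] at h
      exact absurd (s0.trans_le h) (lt_irrefl _)

end

theorem t_ENDO (k : Type u) [Field k] [IsAlgClosed k] (R : Type u) [Ring R] [Algebra k R]
    [FiniteDimensional k R]
    (L : Lib k)
    (hSMALL : S_SMALL k R)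
    (hRP : S_RP k R)
    (hKILL : S_KILL k R)
    (hFLEN : S_FLEN k R) :
    S_ENDO k R := by
  classical
  intro hnd G hG
  obtain ⟨I, pr, hpr⟩ := hSMALL
  let cl : Md k R → Set I := fun N => {i | ¬ (pr i).Open N}
  let S0 : Set I := {i | ∀ᶠ n in Filter.atTop, ¬ (pr i).Open (G n)}
  let C : Set (Set I) := {s | S0 ⊆ s ∧ ∃ N : Md k R, Nontrivial N ∧ s = cl N}
  obtain ⟨N0, hN0, h0⟩ := hRP (ULift.{u} ℕ) (Filter.map ULift.up Filter.atTop)
    (fun n => G n.down) fun n => hG _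
  obtain ⟨_, _, ⟨hS, N, hN, rfl⟩, hmax⟩ := zorn_subset_nonempty C (fun c hc hch hne => by
    have : Nonempty c := hne.to_subtype
    have : IsDirectedOrder c := hch.directedOn.isDirectedOrder
    choose Ns hNs e using fun s : c => (hc s.2).2
    obtain ⟨N, hN, h⟩ := hRP c Filter.atTop Ns hNs
    have key : ∀ s ∈ c, s ⊆ cl N := fun s hs i hi => h _ (by
      filter_upwards [Filter.eventually_ge_atTop (⟨s, hs⟩ : c)] with s' hs'
      have : i ∈ s'.1 := hs' hi
      rwa [e s'] at this)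
    obtain ⟨s, hs⟩ := hne
    exact ⟨cl N, ⟨(hc hs).1.trans (key s hs), N, hN, rfl⟩, key⟩) (cl N0)
    ⟨fun i hi => h0 _ hi, N0, hN0, rfl⟩
  refine ⟨N, hN, ?_, fun π hπ i0 => ?_⟩
  · by_contra hfl
    have hun : ¬ ∃ n, PLen N (reg k R) ⊥ ⊤ n := fun ⟨n, hn⟩ => hfl (hFLEN N n hn)
    obtain ⟨π, ho, hl⟩ := endo_min (L.pp R) hnd N hN
    have step : ∀ s : Finset I, ∃ N' : Md k R, Nontrivial N' ∧ ¬ π.Open N' ∧
        ∀ i ∈ s, i ∈ cl N → ¬ (pr i).Open N' := by
      intro s
      let ρ : Option s → Pr k R := fun o => o.elim π fun i => if i.1 ∈ cl N then pr i.1 else π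
      have hρ : ∀ o, ∃ n, PLen N (ρ o).U ((ρ o).φ.ev N ⊓ (ρ o).ψ.ev N) ((ρ o).φ.ev N) n := by
        rintro (_ | i)
        · exact ⟨1, hl⟩
        · by_cases hi : i.1 ∈ cl N
          · have e : ρ (some i) = pr i.1 := if_pos hi
            rw [e]
            exact ⟨0, endo_closed N _ hi⟩
          · have e : ρ (some i) = π := if_neg hi
            rw [e]
            exact ⟨1, hl⟩
      obtain ⟨N', hN', h⟩ := hKILL N hun _ (fun j => ρ ((Fintype.equivFin _).symm j))
        fun j => hρ _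
      have h' : ∀ o, ¬ (ρ o).Open N' := fun o => by
        simpa only [Equiv.symm_apply_apply] using h (Fintype.equivFin _ o)
      refine ⟨N', hN', h' none, fun i hi hi' => ?_⟩
      have e : ρ (some ⟨i, hi⟩) = pr i := if_pos hi'
      rw [← e]
      exact h' _
    choose Ns n1 n2 n3 using step
    obtain ⟨N', hN', h⟩ := hRP (Finset I) Filter.atTop Ns n1
    have hsub : cl N ⊆ cl N' := fun i hi => h _ (by
      filter_upwards [Filter.eventually_ge_atTop ({i} : Finset I)] with s hs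
      exact n3 s i (hs (Finset.mem_singleton_self i)) hi)
    obtain ⟨j, hj⟩ := hpr π
    have h1 : j ∈ cl N' := fun e => h π (Filter.Eventually.of_forall n2) ((hj _).2 e)
    exact hmax ⟨hS.trans hsub, N', hN', rfl⟩ hsub h1 ((hj _).1 ho)
  · by_contra hc
    obtain ⟨j, hj⟩ := hpr π
    refine hS (a := j) (Filter.eventually_atTop.2 ⟨i0, fun i hi e => ?_⟩) ((hj _).1 hπ)
    exact hc ⟨i, hi, (hj _).2 e⟩

end Pool.Agent.P.MP_cf639b_al
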