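import Pool.Agent.P.MP_cf639b_al.IfF

set_option linter.dupNamespace false

namespace Pool.Agent.P.MP_cf639b_al

universe u v
open TensorProduct Polynomial Function

section
variable {k : Type u} [Field k] {R : Type u} [Ring R] [Algebra k R]

theorem fak_aeval {V V' : XV k} (g : XH V V') (p : k[X]) (v : V) :
    g.1 (aeval V.x p v) = aeval V'.x p (g.1 v) := by
  induction p using Polynomial.induction_on' with
  | add p q hp hq => simp only [map_add, LinearMap.add_apply, hp, hq]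
  | monomial n c =>
    simp only [aeval_monomial, Module.End.mul_apply, Module.algebraMap_end_apply, map_smul,
      XH.comm_pow]

theorem fak_left {K : Type u} [Field K] [Algebra k K] (t : K) (p : k[X]) (z : K) :
    aeval (LinearMap.mulLeft k t) p z = aeval t p * z := by
  have e : LinearMap.mulLeft k t = Algebra.lmul k K t := rfl
  rw [e, aeval_algHom_apply]
  rfl

theorem fak_mul (H : NF k R) (V : XV k) (p q : k[X]) :
    H.map (XH.pol V (p * q)) = H.map (XH.pol V p) ∘ₗ H.map (XH.pol V q) := by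
  have e : XH.pol V (p * q) = XH.comp (XH.pol V p) (XH.pol V q) := Subtype.ext (map_mul _ p q)
  rw [e, H.map_comp]

theorem fak_mul' (H : NF k R) (V : XV k) (p q : k[X]) (z : H.obj V) :
    H.map (XH.pol V (p * q)) z = H.map (XH.pol V p) (H.map (XH.pol V q) z) :=
  LinearMap.congr_fun (fak_mul H V p q) z

/-- composition -/
def fak_comp {G H I : NF k R} (b : NT H I) (a : NT G H) : NT G I where
  app V := b.app V ∘ₗ a.app V
  nat g := by rw [← LinearMap.comp_assoc, b.nat, LinearMap.comp_assoc, a.nat, LinearMap.comp_assoc]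

/-- difference -/
def fak_sub {G H : NF k R} (b a : NT G H) : NT G H where
  app V := b.app V - a.app V
  nat g := by rw [LinearMap.comp_sub, LinearMap.sub_comp, a.nat, b.nat]

/-- identity -/
def fak_id (G : NF k R) : NT G G where
  app _ := LinearMap.id
  nat _ := rfl

/-- a polynomial -/
noncomputable def fak_pol (G : NF k R) (p : k[X]) : NT G G where
  app V := G.map (XH.pol V p)
  nat g := by
    rw [← G.map_comp, ← G.map_comp]
    exact congrArg _ (Subtype.ext (LinearMap.ext (fak_aeval g p)))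

/-- an endofunctor applied to a natural map -/
def fak_post (Φ : AFun k R) {G H : NF k R} (a : NT G H) : NT (G.post Φ) (H.post Φ) where
  app V := Φ.map (a.app V)
  nat g := (Φ.map_comp _ _).symm.trans ((congrArg Φ.map (a.nat g)).trans (Φ.map_comp _ _))

theorem fak_sc (G : NF k R) {K : Type u} [Field K] [Algebra k K] (t : K) (p : k[X]) :
    G.map (XH.pol (one k t).V p) = (G.onF (one k t)).act (aeval t p) :=
  congrArg _ (Subtype.ext (LinearMap.ext (fak_left t p)))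

theorem fak_lin {G H : NF k R} {K : Type u} [Field K] [Algebra k K] {t : K}
    {f : G.obj (one k t).V →ₗ[R] H.obj (one k t).V}
    (hf : f ∈ HomF (G.onF (one k t)) (H.onF (one k t))) (p : k[X]) :
    f ∘ₗ G.map (XH.pol _ p) = H.map (XH.pol _ p) ∘ₗ f := by
  rw [fak_sc, fak_sc]
  exact mem_HomF'.mp hf _

theorem fak_calc {K : Type u} [Field K] [Algebra k K] {A B C : FO k R K} {f w : A.X →ₗ[R] B.X}
    {α : A.X →ₗ[R] C.X} {β : C.X →ₗ[R] B.X} (hβ : β ∈ HomF C B) (h : f - w = β ∘ₗ α)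
    (s s3 s4 : K) (z : A.X) :
    B.act (s3 * s4) (B.act s (f z)) - B.act (s3 * s4 * s) (w z) -
      B.act s (B.act s4 (β (C.act s3 (α z)))) = 0 := by
  have e : β (α z) = f z - w z := (LinearMap.congr_fun h z).symm
  simp only [← FO.smul_def]
  rw [hβ, e]
  module

theorem fak_side [FiniteDimensional k R] (h1 : S_AF1 k R) (h2 : S_AF2 k R) {G H T : NF k R}
    (hG : IsAF G) (hH : IsAF H) (hT : IsAF T) {K : Type u} [Field K] [Algebra k K] {t : K}
    (ht : Gen k t) {f : G.obj (one k t).V →ₗ[R] H.obj (one k t).V}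
    {α : G.obj (one k t).V →ₗ[R] T.obj (one k t).V}
    {β : T.obj (one k t).V →ₗ[R] H.obj (one k t).V}
    (hα : α ∈ HomF (G.onF (one k t)) (T.onF (one k t)))
    (hβ : β ∈ HomF (T.onF (one k t)) (H.onF (one k t))) (u w : NT G H)
    (h : f - w.app (one k t).V = β ∘ₗ α) {p : k[X]}
    (eu : u.app (one k t).V = H.map (XH.pol _ p) ∘ₗ f) :
    ∃ (g : k[X]) (α' : NT G T) (β' : NT T H), g ≠ 0 ∧ ∀ V z,
      H.map (XH.pol V g) (u.app V z) =
        H.map (XH.pol V (g * p)) (w.app V z) + β'.app V (α'.app V z) := by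
  obtain ⟨h3, α', n3, e3⟩ := h1 G T hG hT K t ht α hα
  obtain ⟨h4, β', n4, e4⟩ := h1 T H hT hH K t ht β hβ
  obtain ⟨h5, n5, e5⟩ := h2 G H hG hH K t ht.1
    (fak_sub (fak_sub (fak_comp (fak_pol H (h3 * h4)) u) (fak_comp (fak_pol H (h3 * h4 * p)) w))
      (fak_comp (fak_pol H p) (fak_comp β' α')))
    (LinearMap.ext fun z => by
      have := fak_calc (A := G.onF (one k t)) hβ h (aeval t p) (aeval t h3) (aeval t h4) z
      rw [← map_mul (aeval t), ← map_mul (aeval t), ← fak_sc, ← fak_sc,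
        ← fak_sc, ← fak_sc, ← fak_sc] at this
      simp only [fak_sub, fak_comp, fak_pol, eu, e3, e4, LinearMap.sub_apply,
        LinearMap.comp_apply, LinearMap.zero_apply]
      exact this)
  refine ⟨h5 * (h3 * h4), α', fak_comp (fak_pol H (h5 * p)) β',
    mul_ne_zero n5 (mul_ne_zero n3 n4), fun V z => ?_⟩
  have := LinearMap.congr_fun (e5 V) z
  simp only [fak_sub, fak_comp, fak_pol, LinearMap.sub_apply, LinearMap.comp_apply,
    LinearMap.zero_apply, map_sub] at this ⊢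
  rw [mul_assoc h5, fak_mul' H V h5, fak_mul' H V h5, fak_mul' H V h5]
  exact sub_eq_iff_eq_add'.1 (sub_eq_zero.1 this)

variable [FiniteDimensional k R] {K : Type u} [Field K] [Algebra k K] {A B C : FO k R K}

theorem fak_trans (hC : S_CST k R) {f g h : A.X →ₗ[R] B.X} (h1 : Cst A B (f - g))
    (h2 : Cst A B (g - h)) : Cst A B (f - h) := sub_add_sub_cancel f g h ▸ hC.add K _ _ _ _ h1 h2

theorem fak_symm (hC : S_CST k R) {f g : A.X →ₗ[R] B.X} (h1 : Cst A B (f - g)) :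
    Cst A B (g - f) := neg_sub f g ▸ hC.neg K _ _ _ h1

theorem fak_l (hC : S_CST k R) {f g : A.X →ₗ[R] B.X} (h1 : Cst A B (f - g)) {c : B.X →ₗ[R] C.X}
    (hc : c ∈ HomF B C) : Cst A C (c ∘ₗ f - c ∘ₗ g) := by
  rw [← LinearMap.comp_sub]
  exact hC.l K _ _ _ _ h1 c hc

theorem fak_r (hC : S_CST k R) {f g : B.X →ₗ[R] C.X} (h1 : Cst B C (f - g)) {c : A.X →ₗ[R] B.X}
    (hc : c ∈ HomF A B) : Cst A C (f ∘ₗ c - g ∘ₗ c) := by
  rw [← LinearMap.sub_comp]
  exact hC.r K _ _ _ _ h1 c hc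

omit [FiniteDimensional k R] in
theorem fak_te (Φ : AFun k R)
    (hΦ : ∀ (A B : FO k R K) f, Cst A B f → Cst (Φ.onF A) (Φ.onF B) (Φ.map f))
    {f : A.X →ₗ[R] B.X} {g : B.X →ₗ[R] A.X} (h1 : Cst A A (g ∘ₗ f - LinearMap.id)) :
    Cst (Φ.onF A) (Φ.onF A) (Φ.map g ∘ₗ Φ.map f - LinearMap.id) := by
  have := hΦ _ _ _ h1
  rwa [map_sub, Φ.map_comp, Φ.map_id] at this

theorem fak_inv (hC : S_CST k R) {f : A.X →ₗ[R] B.X} {f' : B.X →ₗ[R] A.X} {g : B.X →ₗ[R] C.X}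
    {g' : C.X →ₗ[R] B.X} (hf : f ∈ HomF A B) (hf' : f' ∈ HomF B A)
    (h1 : Cst A A (f' ∘ₗ f - LinearMap.id)) (h2 : Cst B B (g' ∘ₗ g - LinearMap.id)) :
    Cst A A ((f' ∘ₗ g') ∘ₗ g ∘ₗ f - LinearMap.id) :=
  fak_trans hC (fak_l hC (fak_r hC h2 hf) hf') h1

theorem fak_ak0 (hC : S_CST k R) (Φ Ψ : AFun k R)
    (hΦ : ∀ (A B : FO k R K) f, Cst A B f → Cst (Φ.onF A) (Φ.onF B) (Φ.map f))
    (hΨ : ∀ (A B : FO k R K) f, Cst A B f → Cst (Ψ.onF A) (Ψ.onF B) (Ψ.map f))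
    {a : A.X →ₗ[R] Φ.obj A.X} {a' : Φ.obj A.X →ₗ[R] A.X}
    (ha : a ∈ HomF A (Φ.onF A)) (ha' : a' ∈ HomF (Φ.onF A) A)
    (h1 : Cst A A (a' ∘ₗ a - LinearMap.id))
    (h2 : Cst (Φ.onF A) (Φ.onF A) (a ∘ₗ a' - LinearMap.id))
    {ε : Ψ.obj (Φ.obj A.X) →ₗ[R] A.X} {g : A.X →ₗ[R] Ψ.obj (Φ.obj A.X)}
    {η : A.X →ₗ[R] Φ.obj (Ψ.obj A.X)} {η' : Φ.obj A.X →ₗ[R] Φ.obj (Ψ.obj (Φ.obj A.X))}
    (hε : ε ∈ HomF (Ψ.onF (Φ.onF A)) A) (hg : g ∈ HomF A (Ψ.onF (Φ.onF A)))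
    (hη : η ∈ HomF A (Φ.onF (Ψ.onF A)))
    (hη' : η' ∈ HomF (Φ.onF A) (Φ.onF (Ψ.onF (Φ.onF A))))
    (c1 : Cst A A (ε ∘ₗ g - LinearMap.id))
    (c2 : Cst (Ψ.onF (Φ.onF A)) (Ψ.onF (Φ.onF A)) (g ∘ₗ ε - LinearMap.id))
    (c3 : Cst (Φ.onF A) (Φ.onF A) (Φ.map ε ∘ₗ η' - LinearMap.id))
    (nat : η ∘ₗ a' = Φ.map (Ψ.map a') ∘ₗ η') :
    ∃ b ∈ HomF A (Ψ.onF A), Cst A A (ε ∘ₗ Ψ.map a ∘ₗ b - LinearMap.id) ∧
      Cst A (Φ.onF (Ψ.onF A)) (Φ.map b ∘ₗ a - η) := by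
  refine ⟨Ψ.map a' ∘ₗ g, HomF.comp (Ψ.map_mem ha') hg,
    fak_inv hC (C := Ψ.onF A) hg hε c1 (fak_te (A := Φ.onF A) Ψ hΨ h2), ?_⟩
  have c4 : Cst (Φ.onF A) (Φ.onF (Ψ.onF (Φ.onF A))) (Φ.map g - η') :=
    fak_trans hC (fak_symm hC (fak_l hC c3 (Φ.map_mem hg)))
      (fak_r hC (fak_te (A := Ψ.onF (Φ.onF A)) Φ hΦ c2) hη')
  have c5 := fak_l hC (fak_r hC c4 ha) (Φ.map_mem (Ψ.map_mem ha'))
  have c6 := fak_l hC h1 hη
  have e3 : Φ.map (Ψ.map a') ∘ₗ η' ∘ₗ a = η ∘ₗ a' ∘ₗ a := by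
    rw [← LinearMap.comp_assoc, ← nat, LinearMap.comp_assoc]
  rw [Φ.map_comp]
  exact fak_trans hC (e3 ▸ c5) c6

theorem fak_ak (L : Lib k) (hA : A.fd) {a : A.X →ₗ[R] Tp.obj A.X} {a' : Tp.obj A.X →ₗ[R] A.X}
    (ha : a ∈ HomF A (Tp.onF A)) (ha' : a' ∈ HomF (Tp.onF A) A)
    (h1 : Cst A A (a' ∘ₗ a - LinearMap.id))
    (h2 : Cst (Tp.onF A) (Tp.onF A) (a ∘ₗ a' - LinearMap.id)) :
    ∃ b ∈ HomF A (Tm.onF A), Cst A A (eps A.X ∘ₗ Tm.map a ∘ₗ b - LinearMap.id) ∧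
      Cst A (Tp.onF (Tm.onF A)) (Tp.map b ∘ₗ a - eta A.X) := by
  have hC := L.cst R
  obtain ⟨g, hg, e1, e2⟩ := (L.st R).eps_inv K A
  have f1 : (Tp.onF A).fd := (L.fd R).te K true A hA
  have f2 : (Tm.onF (Tp.onF A)).fd := (L.fd R).te K false _ f1
  exact fak_ak0 hC Tp Tm (hC.te K true) (hC.te K false) ha ha' h1 h2 ((L.id R).eps_mem K A) hg
    ((L.id R).eta_mem K A) ((L.id R).eta_mem K (Tp.onF A)) (hC.p0 K _ _ hA _ e1)
    (hC.p0 K _ _ f2 _ e2) (hC.i0 K _ _ f1 _ ((L.st R).tri_p K A)) ((L.id R).eta_nat _ _ a')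
end

theorem t_AK (k : Type u) [Field k] [IsAlgClosed k] (R : Type u) [Ring R] [Algebra k R]
    [FiniteDimensional k R]
    (L : Lib k) :
    S_AK k R := by
  intro d K _ _ t _ ck
  obtain ⟨a, ha, b, hb, c1, c2⟩ := ck.th
  obtain ⟨z, hz⟩ := L.zeta R d
  obtain ⟨g, hg, e1, e2⟩ := hz K (one k t)
  have f0 := ((L.fd R).one K t).1
  have f1 := (L.fd R).m K d _ f0
  have mz : z.app (one k t).V ∈ HomF (YF d (one k t)) (Tp.onF (MF d (one k t))) :=
    z.mem (one k t)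
  have c3 := (L.cst R).i0 K _ _ ((L.fd R).y K d _ f0) _ e1
  have c4 := (L.cst R).i0 K _ _ ((L.fd R).te K true _ f1) _ e2
  obtain ⟨am, hm, h1, h2⟩ := fak_ak L f1 (HomF.comp mz ha) (HomF.comp hb hg)
    (fak_inv (L.cst R) (C := Tp.onF (MF d (one k t))) ha hb c1 c3)
    (fak_inv (L.cst R) (C := MF d (one k t)) hg mz c4 c2)
  exact ⟨⟨_, am, HomF.comp mz ha, hm, h1, h2⟩⟩

theorem t_NA (k : Type u) [Field k] [IsAlgClosed k] (R : Type u) [Ring R] [Algebra k R]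
    [FiniteDimensional k R]
    (L : Lib k) :
    S_NA k R := by
  intro d K _ _ t ht A
  have hM := (L.af R).m d
  have hP : IsAF ((MN (k := k) d).post Tp) := (L.af R).te true _ hM
  have hN : IsAF ((MN (k := k) d).post Tm) := (L.af R).te false _ hM
  have hH : IsAF (((MN (k := k) d).post Tm).post Tp) := (L.af R).te true _ hN
  obtain ⟨p, ap, p0, ep⟩ := L.af1 R _ _ hM hP K t ht A.ap A.memp
  obtain ⟨q, am, q0, eq⟩ := L.af1 R _ _ hM hN K t ht A.am A.memm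
  obtain ⟨Q, hQ, α, hα, β, hβ, e1⟩ := A.pm
  obtain ⟨Q', hQ', α', hα', β', hβ', e2⟩ := A.mp
  let ε : NT (((MN (k := k) d).post Tp).post Tm) (MN d) :=
    ⟨fun V => eps (M d V), fun g => (L.id R).eps_nat _ _ _⟩
  let η : NT (MN (k := k) d) (((MN d).post Tm).post Tp) :=
    ⟨fun V => eta (M d V), fun g => ((L.id R).eta_nat _ _ _).symm⟩
  have l1 := fak_lin (G := MN d) (H := (MN d).post Tp) A.memp q
  have l2 := fak_lin (G := MN d) (H := (MN d).post Tm) A.memm p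
  obtain ⟨g, u, v, g0, h1⟩ := fak_side (T := TenN Q) (L.af1 R) (L.af2 R) hM hM
    ((L.af R).ten Q hQ) ht hα hβ (fak_comp ε (fak_comp (fak_post Tm ap) am)) (fak_id _) e1
    (p := p * q) (by
      change eps _ ∘ₗ Tm.map (ap.app _) ∘ₗ am.app _ = _
      rw [ep, eq, ← LinearMap.comp_assoc, ← LinearMap.comp_assoc, ← LinearMap.comp_assoc,
        ← LinearMap.comp_assoc, ε.nat]
      refine congrArg (· ∘ₗ A.am) ?_
      rw [LinearMap.comp_assoc, LinearMap.comp_assoc]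
      refine congrArg (eps _ ∘ₗ ·) ((Tm.map_comp _ _).symm.trans
        (Eq.trans (congrArg Tm.map ?_) (Tm.map_comp _ _)))
      rw [LinearMap.comp_assoc]
      exact (congrArg (_ ∘ₗ ·) l1).trans (congrArg (· ∘ₗ A.ap)
        (fak_mul ((MN d).post Tp) _ p q).symm))
  obtain ⟨g', u', v', g0', h2⟩ := fak_side (T := TenN Q') (L.af1 R) (L.af2 R) hM hH
    ((L.af R).ten Q' hQ') ht hα' hβ' (fak_comp (fak_post Tp am) ap) η e2 (p := p * q) (by
      change Tp.map (am.app _) ∘ₗ ap.app _ = _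
      rw [ep, eq, ← LinearMap.comp_assoc, ← LinearMap.comp_assoc]
      refine congrArg (· ∘ₗ A.ap) ((Tp.map_comp _ _).symm.trans
        (Eq.trans (congrArg Tp.map ?_) (Tp.map_comp _ _)))
      rw [LinearMap.comp_assoc, mul_comm]
      exact (congrArg (_ ∘ₗ ·) l2).trans (congrArg (· ∘ₗ A.am)
        (fak_mul ((MN d).post Tm) _ q p).symm))
  refine ⟨⟨g' * g * p, q, mul_ne_zero (mul_ne_zero g0' g0) p0, q0,
    fak_comp (fak_pol _ (g' * g)) ap, am, ?_, eq, Q, hQ, u, fak_comp (fak_pol _ g') v, Q', hQ', u',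
    fak_comp (fak_pol _ g) v', fun V => LinearMap.ext fun z => ?_,
    fun V => LinearMap.ext fun z => ?_⟩⟩
  · change _ ∘ₗ ap.app _ = _
    rw [ep]
    exact congrArg (· ∘ₗ A.ap) (fak_mul ((MN d).post Tp) _ (g' * g) p).symm
  · have a1 := LinearMap.congr_fun (Tm.map_comp (((MN d).post Tp).map (XH.pol V (g' * g)))
      (ap.app V)) (am.app V z)
    have a2 := LinearMap.congr_fun (ε.nat (XH.pol V (g' * g))) (Tm.map (ap.app V) (am.app V z))
    have a3 := congrArg ((MN d).map (XH.pol V g')) (h1 V z)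
    rw [map_add, ← fak_mul', ← fak_mul', ← mul_assoc, ← mul_assoc] at a3
    exact (congrArg (eps (M d V)) a1).trans (a2.symm.trans a3)
  · have a1 := LinearMap.congr_fun ((fak_post Tp am).nat (XH.pol V (g' * g))) (ap.app V z)
    have a2 := LinearMap.congr_fun (η.nat (XH.pol V (g' * g * p * q))) z
    have a3 := congrArg ((((MN d).post Tm).post Tp).map (XH.pol V g)) (h2 V z)
    rw [map_add, ← fak_mul', ← fak_mul', ← mul_assoc, ← mul_assoc, mul_comm g g'] at a3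
    exact a1.symm.trans (a3.trans (congrArg (· + _) a2))

end Pool.Agent.P.MP_cf639b_al
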