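import Pool.Agent.P.MP_cf639b_al.IfF

set_option linter.dupNamespace false

namespace Pool.Agent.P.MP_cf639b_al

universe u v
open TensorProduct Polynomial Function

theorem fanti1_all {ι : Type} [Finite ι] {P : ι → ℕ → Prop} (h : ∀ i, ∃ N0, ∀ N ≥ N0, P i N) :
    ∃ N0, ∀ N ≥ N0, ∀ i, P i N :=
  Filter.eventually_atTop.1 (Filter.eventually_all.2 fun i => Filter.eventually_atTop.2 (h i))

section
variable {k : Type u} [Field k] {R : Type u} [Ring R] [Algebra k R] {d : Fam R} {p : k}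

theorem fanti1_coe {T : Md k R} {a : ℕ} {x y : TT d p T} (h : y ∈ Cyc (piT d p T) a x) :
    y.1 ∈ Cyc (piK d p T) a x.1 :=
  Cyc_map (TS d p T).subtype (fun n z => piT_pow_coe n z) h

theorem fanti1_up {Γ : Calc d p} {lam : ℤ → ℤ} (hF : LF Γ lam) {j : ℤ} {N N1 N2 a b : ℕ}
    (h1 : N ≤ N1) (h2 : N1 ≤ N2) (hab : a ≤ b) {t : EE d (Γ.A j N)}
    (h : (piK d p _ ^ a) (Emap d (Γ.io j N N1) t) = 0) :
    (piK d p _ ^ b) (Emap d (Γ.io j N N2) t) = 0 := by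
  obtain ⟨c, rfl⟩ := Nat.exists_eq_add_of_le' hab
  rw [← hF.io_comp j N N1 N2 h1 h2, Emap_comp, LinearMap.comp_apply, pow_add,
    Module.End.mul_apply, ← Emap_piK_pow, h, map_zero, map_zero]

theorem fanti1_acc {s : ℕ} (hL : Lc d p s) {Γ : Calc d p} {lam : ℤ → ℤ} (hF : LF Γ lam) (j : ℤ)
    (N : ℕ) : ∃ b0, ∀ b ≥ b0, ∀ N' ≥ N + b, ∀ t : EE d (Γ.A j N),
      Trs (piK d p _) (Emap d (Γ.io j N N') t) → (piK d p _ ^ b) (Emap d (Γ.io j N N') t) = 0 := by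
  obtain ⟨b0, h⟩ := hL.acc (Γ.A j N) (Γ.ob_fd _ (hL.fd N))
    (fun b => LinearMap.ker ((piK d p _ ^ b) ∘ₗ Emap d (Γ.io j N (N + b))))
    (fun a b hab t ht => fanti1_up hF (Nat.le_add_right N a) (Nat.add_le_add_left hab N) hab ht)
    (fun b t ht => by
      have ht' : (piK d p _ ^ b) (Emap d (Γ.io j N (N + b)) t) = 0 := ht
      change (piK d p _ ^ b) (Emap d (Γ.io j N (N + b)) _) = 0
      rw [Emap_piK, ← Module.End.mul_apply, ← pow_succ, pow_succ', Module.End.mul_apply, ht',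
        map_zero])
  refine ⟨b0, fun b hb N' hN t ⟨m, hm⟩ => ?_⟩
  have h1 : t ∈ LinearMap.ker ((piK d p _ ^ (m + N')) ∘ₗ Emap d (Γ.io j N (N + (m + N')))) :=
    fanti1_up hF (by omega) (by omega) (by omega) hm
  have h2 := (h (m + N') (by omega)).le h1
  exact fanti1_up hF (Nat.le_add_right N b0) (by omega) hb h2

theorem fanti1_lift {s : ℕ} (hL : Lc d p s) {A A' : Md k R} (ρ : A →ₗ[R] A') {n n' : ℕ}
    (a : MJ d p n →ₗ[R] A) (om : TT d p A')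
    (h : (piT d p _ ^ n') om = mapT d p ρ (mapT d p a (eT d p n))) :
    ∃ a' : MJ d p (n + n') →ₗ[R] A', a' ∘ₗ mJ d p n (n + n') = ρ ∘ₗ a ∧
      mapT d p a' (eT d p (n + n')) = om := by
  obtain ⟨a1, h1⟩ := hL.rep A' (n + n') om (by
    rw [piT_add, h, ← mapT_pi, ← mapT_pi, hL.zero, map_zero, map_zero])
  obtain ⟨a2, h2, h3⟩ := hL.ext A' n (n + n') (Nat.le_add_right _ _)
    (a1 ∘ₗ mJ d p n (n + n') - ρ ∘ₗ a) (by
      rw [mapT_sub, mapT_comp, mapT_comp, hL.map, Nat.add_sub_cancel_left, mapT_pi, ← h1, h,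
        sub_self])
  exact ⟨a1 - a2, by rw [LinearMap.sub_comp, h2, sub_sub_cancel],
    by rw [mapT_sub, h3, sub_zero, h1]⟩
end

theorem t_ANTI1 (k : Type u) [Field k] [IsAlgClosed k] (R : Type u) [Ring R] [Algebra k R]
    [FiniteDimensional k R] :
    S_ANTI1 k R := by
  rintro d p s hL Γ lam c hM hF ⟨σ, hσ⟩
  have fd : ∀ j N, (Γ.A j N).fd := fun j N => Γ.ob_fd _ (hL.fd N)
  obtain ⟨B, hB⟩ := fanti1_all (ι := Fin 5 × Fin 5) (P := fun q B => ∃ y0, ∀ y ≥ y0, ∃ N0,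
      ∀ N ≥ N0, q.1 ≠ q.2 → ∀ z : TT d p (Γ.A (σ q.1).1 N),
        (piT d p _ ^ B) z ∈ Γ.O (σ q.2) y _ →
          (piT d p _ ^ B) z ∈ Cyc (piT d p _) 1 (Γ.ep (σ q.1) y N)) fun q => by
    by_cases hq : q.1 = q.2
    · exact ⟨0, fun _ _ => ⟨0, fun _ _ => ⟨0, fun _ _ h => (h hq).elim⟩⟩⟩
    obtain ⟨B0, y0, h⟩ := hF.oth _ _ (hσ _ _ hq)
    refine ⟨B0, fun B hB => ⟨y0, fun y hy => ?_⟩⟩
    obtain ⟨N0, h'⟩ := h y hy
    obtain ⟨b, rfl⟩ := Nat.exists_eq_add_of_le hB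
    refine ⟨N0, fun N hN _ z => ?_⟩
    rw [piT_add]
    exact h' N hN _
  obtain ⟨y1, hy1⟩ := fanti1_all (hB B le_rfl)
  obtain ⟨y2, hy2⟩ := fanti1_all fun q : Fin 5 × Fin 5 => hF.mem (σ q.1) (σ q.2)
  obtain ⟨y, k1, k2⟩ : ∃ y, y ≥ y1 ∧ y ≥ y2 := ⟨y1 + y2, by omega, by omega⟩
  obtain ⟨M1, m1⟩ := fanti1_all (hy1 y k1)
  obtain ⟨M2, m2⟩ := fanti1_all (hy2 y k2)
  obtain ⟨M3, m3⟩ := fanti1_all fun i => hF.pi_ep (σ i) y B
  obtain ⟨M4, m4⟩ := fanti1_all fun i => hF.io_ep (σ i) y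
  obtain ⟨N, n2, n3, n4⟩ : ∃ N, N ≥ M2 ∧ N ≥ M3 ∧ N ≥ M4 :=
    ⟨M2 + M3 + M4, by omega, by omega, by omega⟩
  obtain ⟨n, hn⟩ := fanti1_all (P := fun i n => (piT d p _ ^ n) (Γ.ep (σ i) y N) = 0) fun i =>
    (piT_nil (Γ.ep (σ i) y N)).imp fun n h m hm => piT_mono hm h
  choose a ha using fun i => hL.rep _ n _ (hn n le_rfl i)
  obtain ⟨b, hb⟩ := fanti1_all fun i => fanti1_acc hL hF (σ i).1 N
  obtain ⟨M5, m5⟩ := fanti1_all fun i => hF.pi_ep (σ i) y (b + s)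
  obtain ⟨N', p0, p1, p5⟩ : ∃ N', N' ≥ N + b ∧ N' ≥ M1 ∧ N' ≥ M5 :=
    ⟨N + b + M1 + M5, by omega, by omega, by omega⟩
  choose a' c1 c2 using fun i => fanti1_lift hL (Γ.io (σ i).1 N N') (a i)
    (Γ.ep (σ i) (y + (b + s)) N') ((m5 N' p5 i).trans
      (by rw [← ha, m4 N n4 i N' (by omega)]))
  have e1 : ∀ i, Emap d (a' i) (eJ d p (n + (b + s))) = (Γ.ep (σ i) (y + (b + s)) N').1 :=
    fun i => by rw [← c2, mapT_coe, hL.coe]
  refine ⟨⟨n, b + s, s, Nat.le_add_left _ _, fun i => Γ.A (σ i).1 N, fun i => Γ.A (σ i).1 N',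
    fun i => fd _ _, fun i => Γ.io (σ i).1 N N', a, a', c1, fun i h => ?_, fun i l hl f => ?_,
    fun x hx => ?_, fun i t ht => ?_⟩⟩
  · rw [e1, ← piT_pow_coe, m5 N' p5 i] at h
    obtain ⟨l, hl⟩ := exists_ne i
    refine hσ i l hl.symm ((m2 N' (by omega) (i, l)).1 ?_)
    rw [show Γ.ep (σ i) y N' = 0 from Subtype.ext h]
    exact zero_mem _
  · have h1 := hF.nat (σ l) y _ _ (fd _ _) (fd _ _) f _ ((m2 N n2 (l, l)).2 (by
      rw [sub_self]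
      exact hM.zero.ge))
    rw [← m3 N n3 l, mapT_pi] at h1
    have h2 := m1 N' p1 (i, l) hl.symm _ h1
    rw [← mapT_pi, m3 N n3 l, ← m5 N' p5 i, Cyc_pow, add_comm 1, ha l] at h2
    have h3 := fanti1_coe h2
    rw [mapT_coe, mapT_coe, hL.coe] at h3
    rw [e1]
    exact h3
  · have h := fanti1_coe (hL.l0 (b + s) ⟨x, hx⟩)
    rwa [piT_pow_coe, hL.coe] at h
  · rw [Nat.add_sub_cancel]
    exact hb b le_rfl i N' p0 t ht

end Pool.Agent.P.MP_cf639b_al
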