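import Pool.Agent.P.MP_cf639b_al.IfF

set_option linter.dupNamespace false

namespace Pool.Agent.P.MP_cf639b_al

universe u v
open TensorProduct Polynomial Function

noncomputable section

namespace Fa2
variable {k : Type u} [Field k] {R : Type u} [Ring R] [Algebra k R]

section cyc
variable {N : Type u} [AddCommGroup N] [Module k N] (π : Module.End k N)

theorem chi0 (x : N) (hx : x ≠ 0) (hn : Trs π x) :
    ∃ χ : N →ₗ[k] k, ∀ a, χ ((π ^ a) x) = if a = 0 then 1 else 0 := by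
  have h : x ∉ Cyc π 1 x := fun h => by
    have key : ∀ j, x ∈ Cyc π j x := fun j => by
      induction j with
      | zero => exact Submodule.subset_span ⟨0, rfl⟩
      | succ j ih =>
        refine (Submodule.span_le.mpr ?_ : Cyc π j x ≤ Cyc π (j + 1) x) ih
        rintro _ ⟨r, rfl⟩
        have h1 := Cyc_map (π := π) (π' := π) (π ^ (j + r)) (fun n z => by
          rw [← Module.End.mul_apply, ← Module.End.mul_apply, ← pow_add, ← pow_add, add_comm]) h
        rw [Cyc_pow] at h1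
        refine (Submodule.span_le.mpr ?_ : Cyc π (1 + (j + r)) x ≤ Cyc π (j + 1) x) h1
        rintro _ ⟨r', rfl⟩
        exact Submodule.subset_span ⟨r + r', by
          change (π ^ (j + 1 + (r + r'))) x = (π ^ (1 + (j + r) + r')) x
          congr 2
          omega⟩
    obtain ⟨n, hn⟩ := hn
    refine hx ((Submodule.span_le.mpr ?_ : Cyc π n x ≤ ⊥) (key n))
    rintro _ ⟨r, rfl⟩
    change (π ^ (n + r)) x = 0
    rw [add_comm, pow_add, Module.End.mul_apply, hn, map_zero]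
  obtain ⟨f, h1, h2⟩ := Submodule.exists_dual_map_eq_bot_of_notMem h inferInstance
  refine ⟨(f x)⁻¹ • f, fun a => ?_⟩
  rcases a with _ | a
  · simp [inv_mul_cancel₀ h1]
  · have : f ((π ^ (a + 1)) x) ∈ (Cyc π 1 x).map f :=
      ⟨_, Submodule.subset_span ⟨a, by simp only [add_comm]⟩, rfl⟩
    rw [h2, Submodule.mem_bot] at this
    simp [this]

theorem chi (m : ℕ) : ∀ x : N, (π ^ m) x ≠ 0 → Trs π x →
    ∃ χ : N →ₗ[k] k, ∀ a, χ ((π ^ a) x) = if a = m then 1 else 0 := by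
  induction m with
  | zero => exact fun x hx hn => chi0 π x hx hn
  | succ m ih =>
    intro x hx hn
    obtain ⟨χ0, h0⟩ := chi0 π x (fun h => hx (by rw [h, map_zero])) hn
    obtain ⟨n, hn⟩ := hn
    obtain ⟨χ1, h1⟩ := ih (π x) (by rwa [pow_succ, Module.End.mul_apply] at hx)
      ⟨n, by rw [← Module.End.mul_apply, ← pow_succ, pow_succ', Module.End.mul_apply, hn, map_zero]⟩
    refine ⟨χ1 - χ1 x • χ0, fun a => ?_⟩
    rw [LinearMap.sub_apply, LinearMap.smul_apply, h0]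
    rcases a with _ | a
    · simp
    · rw [pow_succ, Module.End.mul_apply, h1]
      simp
end cyc

section ten
variable {V V' V'' : Type u} [AddCommGroup V] [Module k V] [AddCommGroup V'] [Module k V']
  [AddCommGroup V''] [Module k V'']
/-- `A ⊗ V` -/
abbrev Tv (A : Md k R) (V : Type u) [AddCommGroup V] [Module k V] : Md k R := ⟨A ⊗[k] V⟩
/-- `a ↦ a ⊗ v` -/
def tv (A : Md k R) : V →ₗ[k] (A →ₗ[R] Tv A V) := tmr A V
/-- `f ⊗ w` -/
def t2 {A B : Md k R} (f : A →ₗ[R] B) (w : V →ₗ[k] V') : Tv A V →ₗ[R] Tv B V' :=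
  AlgebraTensorModule.map f w
/-- contraction with a linear form -/
def ctr (A : Md k R) (φ : V →ₗ[k] k) : Tv A V →ₗ[R] A :=
  (AlgebraTensorModule.rid k R A).toLinearMap ∘ₗ AlgebraTensorModule.map LinearMap.id φ
theorem t2_tv {A B : Md k R} (f : A →ₗ[R] B) (w : V →ₗ[k] V') (v : V) :
    t2 f w ∘ₗ tv A v = tv B (w v) ∘ₗ f := rfl
theorem t2_comp {A B C : Md k R} (g : B →ₗ[R] C) (f : A →ₗ[R] B) (w' : V' →ₗ[k] V'')
    (w : V →ₗ[k] V') : t2 g w' ∘ₗ t2 f w = t2 (g ∘ₗ f) (w' ∘ₗ w) :=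
  AlgebraTensorModule.ext fun _ _ => rfl
theorem t2_swap {A B : Md k R} (f : A →ₗ[R] B) (w : V →ₗ[k] V') :
    t2 f LinearMap.id ∘ₗ t2 LinearMap.id w = t2 LinearMap.id w ∘ₗ t2 f LinearMap.id :=
  AlgebraTensorModule.ext fun _ _ => rfl
theorem quo_fd (A : Md k R) (S : Submodule R A) (h : A.fd) : (Md.quo A S).fd :=
  Module.Finite.of_surjective (S.mkQ.restrictScalars k) (Submodule.mkQ_surjective S)
theorem ctr_tv (A : Md k R) (φ : V →ₗ[k] k) (v : V) :
    ctr A φ ∘ₗ tv A v = φ v • LinearMap.id := rfl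
theorem ctr_t2 {A B : Md k R} (f : A →ₗ[R] B) (φ : V →ₗ[k] k) :
    ctr B φ ∘ₗ t2 f LinearMap.id = f ∘ₗ ctr A φ :=
  AlgebraTensorModule.ext fun a v => (f.map_smul_of_tower (φ v) a).symm
theorem dec_id (A : Md k R) {ι : Type} [Fintype ι] (b : Module.Basis ι k V) :
    ∑ j, tv A (b j) ∘ₗ ctr A (b.coord j) = LinearMap.id := by
  refine AlgebraTensorModule.ext fun a v => ?_
  rw [LinearMap.sum_apply]
  change ∑ j, (b.coord j v • a) ⊗ₜ[k] b j = a ⊗ₜ[k] v
  conv_rhs => rw [← b.sum_repr v, tmul_sum]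
  exact Finset.sum_congr rfl fun j _ => smul_tmul _ _ _
theorem Emap_Emap (d : Fam R) {T T' T'' : Md k R} (g : T' →ₗ[R] T'') (f : T →ₗ[R] T')
    (x : EE d T) : Emap d g (Emap d f x) = Emap d (g ∘ₗ f) x := by rw [Emap_comp]; rfl
theorem dec (d : Fam R) (A : Md k R) {ι : Type} [Fintype ι] (b : Module.Basis ι k V)
    (y : EE d (Tv A V)) : ∑ j, Emap d (tv A (b j)) (Emap d (ctr A (b.coord j)) y) = y := by
  rw [Finset.sum_congr rfl fun j _ => Emap_Emap d (tv A (b j)) (ctr A (b.coord j)) y,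
    ← LinearMap.sum_apply, ← map_sum, dec_id, Emap_id]
  rfl
theorem contr (d : Fam R) (A : Md k R) (χ : EE d A →ₗ[k] k) (V : Type u) [AddCommGroup V]
    [Module k V] [Module.Finite k V] : ∃ C : EE d (Tv A V) →ₗ[k] V,
      (∀ (v : V) x, C (Emap d (tv A v) x) = χ x • v) ∧
      ∀ y, (∀ φ : V →ₗ[k] k, χ (Emap d (ctr A φ) y) = 0) → C y = 0 := by
  let b := Module.finBasis k V
  refine ⟨∑ j, (χ ∘ₗ Emap d (ctr A (b.coord j))).smulRight (b j), fun v x => ?_, fun y h => ?_⟩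
  · rw [LinearMap.sum_apply]
    conv_rhs => rw [← b.sum_repr v, Finset.smul_sum]
    refine Finset.sum_congr rfl fun j _ => ?_
    rw [LinearMap.smulRight_apply, LinearMap.comp_apply, Emap_Emap, ctr_tv, map_smul, Emap_id,
      smul_smul]
    simp [mul_comm]
  · rw [LinearMap.sum_apply]
    exact Finset.sum_eq_zero fun j _ => by
      rw [LinearMap.smulRight_apply, LinearMap.comp_apply, h, zero_smul]
theorem trs_map (d : Fam R) (p : k) {T T' : Md k R} (g : T →ₗ[R] T') {x : EE d T}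
    (h : Trs (piK d p T) x) : Trs (piK d p T') (Emap d g x) := by
  obtain ⟨n, hn⟩ := h
  exact ⟨n, by rw [← Emap_piK_pow, hn, map_zero]⟩
end ten

variable {d : Fam R} {p : k} (D : AntiD d p)

/-- the quotients of a system -/
abbrev E (S : Sys k) (i : Fin 5) : Type u := S.V ⧸ S.U i
/-- the short module -/
abbrev M0 : Md k R := MJ d p D.n
/-- the long module -/
abbrev M1 : Md k R := MJ d p (D.n + D.n')
/-- the quotient module -/
abbrev M2 : Md k R := MJ d p D.n'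
/-- the inclusion -/
abbrev io : M0 D →ₗ[R] M1 D := mJ d p D.n (D.n + D.n')
/-- the projection -/
abbrev qq : M1 D →ₗ[R] M2 D := mJ d p (D.n + D.n') D.n'
/-- the sum of the blocks -/
abbrev T0 (S : Sys k) : Md k R := Md.pi fun i => Tv (D.A i) (E S i)
/-- the attaching map -/
def al (S : Sys k) : Tv (M0 D) S.V →ₗ[R] T0 D S := LinearMap.pi fun i => t2 (D.a i) (S.U i).mkQ
/-- the relations -/
def de (S : Sys k) : Tv (M0 D) S.V →ₗ[R] (T0 D S).prod (Tv (M1 D) S.V) :=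
  LinearMap.prod (al D S) (-(t2 (io D) LinearMap.id))
/-- the pushout -/
abbrev Z (S : Sys k) : Md k R := Md.quo _ (LinearMap.range (de D S))
/-- first structure map -/
def j1 (S : Sys k) : T0 D S →ₗ[R] Z D S := Submodule.mkQ _ ∘ₗ LinearMap.inl R _ _
/-- second structure map -/
def j2 (S : Sys k) : Tv (M1 D) S.V →ₗ[R] Z D S := Submodule.mkQ _ ∘ₗ LinearMap.inr R _ _
theorem j_sum (S : Sys k) (z : Z D S) : ∃ t m, z = j1 D S t + j2 D S m := by
  obtain ⟨⟨t, m⟩, rfl⟩ := Submodule.mkQ_surjective _ z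
  exact ⟨t, m, Eq.trans (congrArg _ (by simp)) (map_add (Submodule.mkQ _) (t, 0) (0, m))⟩
theorem j_rel (S : Sys k) : j1 D S ∘ₗ al D S = j2 D S ∘ₗ t2 (io D) LinearMap.id :=
  LinearMap.ext fun m => (Submodule.Quotient.eq _).mpr ⟨m, by
    change (al D S m, -(t2 (io D) LinearMap.id m)) = (al D S m, 0) - (0, t2 (io D) LinearMap.id m)
    simp⟩
/-- universal property -/
def lf (S : Sys k) {X : Md k R} (f1 : T0 D S →ₗ[R] X) (f2 : Tv (M1 D) S.V →ₗ[R] X)
    (h : f1 ∘ₗ al D S = f2 ∘ₗ t2 (io D) LinearMap.id) : Z D S →ₗ[R] X :=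
  Submodule.liftQ _ (LinearMap.coprod f1 f2) (by
    rintro _ ⟨m, rfl⟩
    change f1 (al D S m) + f2 (-(t2 (io D) LinearMap.id m)) = 0
    rw [map_neg, add_neg_eq_zero]
    exact LinearMap.congr_fun h m)
theorem lf_j1 (S : Sys k) {X : Md k R} (f1 : T0 D S →ₗ[R] X) (f2 : Tv (M1 D) S.V →ₗ[R] X)
    (h : f1 ∘ₗ al D S = f2 ∘ₗ t2 (io D) LinearMap.id) : lf D S f1 f2 h ∘ₗ j1 D S = f1 :=
  LinearMap.ext fun t => by
    change f1 t + f2 0 = f1 t
    rw [map_zero, add_zero]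
theorem lf_j2 (S : Sys k) {X : Md k R} (f1 : T0 D S →ₗ[R] X) (f2 : Tv (M1 D) S.V →ₗ[R] X)
    (h : f1 ∘ₗ al D S = f2 ∘ₗ t2 (io D) LinearMap.id) : lf D S f1 f2 h ∘ₗ j2 D S = f2 :=
  LinearMap.ext fun t => by
    change f1 0 + f2 t = f2 t
    rw [map_zero, zero_add]
theorem Z_ext (S : Sys k) {X : Md k R} {f g : Z D S →ₗ[R] X} (h1 : f ∘ₗ j1 D S = g ∘ₗ j1 D S)
    (h2 : f ∘ₗ j2 D S = g ∘ₗ j2 D S) : f = g := LinearMap.ext fun z => by
  obtain ⟨t, m, rfl⟩ := j_sum D S z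
  rw [map_add, map_add]
  exact congrArg₂ (· + ·) (LinearMap.congr_fun h1 t) (LinearMap.congr_fun h2 m)
/-- the map on quotients -/
def mE {S S' : Sys k} (g : SysH S S') (i : Fin 5) : E S i →ₗ[k] E S' i :=
  Submodule.mapQ _ _ g.f (g.mem i)
/-- the map on the blocks -/
def mT {S S' : Sys k} (g : SysH S S') : T0 D S →ₗ[R] T0 D S' :=
  LinearMap.pi fun i => t2 LinearMap.id (mE g i) ∘ₗ LinearMap.proj i
theorem mT_al {S S' : Sys k} (g : SysH S S') :
    mT D g ∘ₗ al D S = al D S' ∘ₗ t2 LinearMap.id g.f :=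
  AlgebraTensorModule.ext fun _ _ => rfl
theorem mT_comp {S S' S'' : Sys k} (g : SysH S' S'') (f : SysH S S') :
    mT D (g.comp f) = mT D g ∘ₗ mT D f := by
  refine LinearMap.ext fun t => funext fun i => ?_
  have e : mE (g.comp f) i = mE g i ∘ₗ mE f i := Submodule.linearMap_qext _ rfl
  change t2 LinearMap.id (mE (g.comp f) i) (t i) =
    (t2 LinearMap.id (mE g i) ∘ₗ t2 LinearMap.id (mE f i)) (t i)
  rw [t2_comp, e]
  rfl
/-- the map on the pushouts -/
def mZ {S S' : Sys k} (g : SysH S S') : Z D S →ₗ[R] Z D S' :=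
  lf D S (j1 D S' ∘ₗ mT D g) (j2 D S' ∘ₗ t2 LinearMap.id g.f) (by
    rw [LinearMap.comp_assoc, mT_al, ← LinearMap.comp_assoc, j_rel, LinearMap.comp_assoc,
      LinearMap.comp_assoc, t2_swap])
theorem mZ_j1 {S S' : Sys k} (g : SysH S S') : mZ D g ∘ₗ j1 D S = j1 D S' ∘ₗ mT D g :=
  lf_j1 _ _ _ _ _
theorem mZ_j2 {S S' : Sys k} (g : SysH S S') :
    mZ D g ∘ₗ j2 D S = j2 D S' ∘ₗ t2 LinearMap.id g.f := lf_j2 _ _ _ _ _
theorem mZ_comp {S S' S'' : Sys k} (g : SysH S' S'') (f : SysH S S') :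
    mZ D (g.comp f) = mZ D g ∘ₗ mZ D f := by
  refine Z_ext D S ?_ ?_
  · rw [mZ_j1, LinearMap.comp_assoc, mZ_j1, ← LinearMap.comp_assoc, mZ_j1, mT_comp]
    rfl
  · rw [mZ_j2, LinearMap.comp_assoc, mZ_j2, ← LinearMap.comp_assoc, mZ_j2, LinearMap.comp_assoc,
      t2_comp]
    rfl
/-- the map to the long blocks -/
def rh (S : Sys k) (i : Fin 5) : Z D S →ₗ[R] Tv (D.A' i) (E S i) :=
  lf D S (t2 (D.ρ i) LinearMap.id ∘ₗ LinearMap.proj i) (t2 (D.a' i) (S.U i).mkQ) (by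
    rw [t2_comp, D.comm]
    exact AlgebraTensorModule.ext fun _ _ => rfl)
/-- the map to the quotient -/
def rr (h : Exact (io D) (qq D)) (S : Sys k) : Z D S →ₗ[R] Tv (M2 D) S.V :=
  lf D S 0 (t2 (qq D) LinearMap.id) (by
    rw [t2_comp, LinearMap.zero_comp]
    refine AlgebraTensorModule.ext fun a v => ?_
    change 0 = qq D (io D a) ⊗ₜ[k] v
    rw [h.apply_apply_eq_zero, zero_tmul])
theorem rr_j1 (h : Exact (io D) (qq D)) (S : Sys k) : rr D h S ∘ₗ j1 D S = 0 := lf_j1 D S _ _ _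
theorem rr_j2 (h : Exact (io D) (qq D)) (S : Sys k) :
    rr D h S ∘ₗ j2 D S = t2 (qq D) LinearMap.id := lf_j2 D S _ _ _
theorem rh_j1 (S : Sys k) (i : Fin 5) :
    rh D S i ∘ₗ j1 D S = t2 (D.ρ i) LinearMap.id ∘ₗ LinearMap.proj i := lf_j1 D S _ _ _
theorem rh_j2 (S : Sys k) (i : Fin 5) : rh D S i ∘ₗ j2 D S = t2 (D.a' i) (S.U i).mkQ :=
  lf_j2 D S _ _ _
theorem rr_ex (h : Exact (io D) (qq D)) (hs : Surjective (qq D)) (S : Sys k) :
    Exact (j1 D S) (rr D h S) ∧ Surjective (rr D h S) := by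
  have e1 : ∀ t, rr D h S (j1 D S t) = 0 := fun t => LinearMap.congr_fun (rr_j1 D h S) t
  have e2 : ∀ m, rr D h S (j2 D S m) = t2 (qq D) LinearMap.id m := fun m =>
    LinearMap.congr_fun (rr_j2 D h S) m
  have hx : Exact (LinearMap.rTensor S.V ((io D).restrictScalars k))
      (LinearMap.rTensor S.V ((qq D).restrictScalars k)) := rTensor_exact S.V h hs
  refine ⟨fun z => ⟨fun hz => ?_, ?_⟩, fun y => ?_⟩
  · obtain ⟨t, m, rfl⟩ := j_sum D S z
    rw [map_add, e1, e2, zero_add] at hz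
    obtain ⟨m0, rfl⟩ := (hx m).mp hz
    exact ⟨t + al D S m0, by
      rw [map_add]
      exact congrArg (j1 D S t + ·) (LinearMap.congr_fun (j_rel D S) m0)⟩
  · rintro ⟨t, rfl⟩
    exact e1 t
  · obtain ⟨m, rfl⟩ := LinearMap.rTensor_surjective S.V (g := (qq D).restrictScalars k) hs y
    exact ⟨j2 D S m, e2 m⟩

/-- the elements `H v` -/
def HH (S : Sys k) : S.V →ₗ[k] EE d (Z D S) :=
  Emap d (j2 D S) ∘ₗ LinearMap.applyₗ (R := k) (eJ d p (D.n + D.n')) ∘ₗ Emap d ∘ₗ tv (M1 D)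
theorem HH_apply (S : Sys k) (v : S.V) :
    HH D S v = Emap d (j2 D S ∘ₗ tv (M1 D) v) (eJ d p (D.n + D.n')) :=
  Emap_Emap d (j2 D S) (tv (M1 D) v) (eJ d p (D.n + D.n'))
theorem HH_nat {S S' : Sys k} (g : SysH S S') (v : S.V) :
    Emap d (mZ D g) (HH D S v) = HH D S' (g.f v) := by
  rw [HH_apply, HH_apply, Emap_Emap, ← LinearMap.comp_assoc, mZ_j2]
  rfl
theorem HH_rh (S : Sys k) (i : Fin 5) (v : S.V) : Emap d (rh D S i) (HH D S v) =
    Emap d (tv (D.A' i) ((S.U i).mkQ v)) (Emap d (D.a' i) (eJ d p (D.n + D.n'))) := by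
  rw [HH_apply, Emap_Emap, Emap_Emap, ← LinearMap.comp_assoc, rh_j2]
  rfl
theorem HH_rr (h : Exact (io D) (qq D)) (S : Sys k) (v : S.V) : Emap d (rr D h S) (HH D S v) =
    Emap d (tv (M2 D) v) (Emap d (qq D) (eJ d p (D.n + D.n'))) := by
  rw [HH_apply, Emap_Emap, Emap_Emap, ← LinearMap.comp_assoc, rr_j2]
  rfl
theorem HH_pi (h : Emap d (io D) (eJ d p D.n) = (piK d p _ ^ D.n') (eJ d p (D.n + D.n')))
    (S : Sys k) (v : S.V) : (piK d p _ ^ D.n') (HH D S v) =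
      ∑ l, Emap d (j1 D S ∘ₗ LinearMap.single R (fun i => Tv (D.A i) (E S i)) l ∘ₗ
        tv (D.A l) ((S.U l).mkQ v)) (Emap d (D.a l) (eJ d p D.n)) := by
  rw [HH_apply, ← Emap_piK_pow, ← h, Emap_Emap,
    Finset.sum_congr rfl fun l _ => Emap_Emap d _ (D.a l) (eJ d p D.n), ← LinearMap.sum_apply,
    ← map_sum]
  refine congrArg (fun f => Emap d f (eJ d p D.n)) (LinearMap.ext fun m => ?_)
  refine (LinearMap.congr_fun (j_rel D S) (m ⊗ₜ v)).symm.trans ?_
  rw [LinearMap.sum_apply]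
  refine Eq.trans (congrArg (j1 D S) (Finset.univ_sum_single (al D S (m ⊗ₜ v))).symm) ?_
  exact map_sum _ _ _

theorem wild [FiniteDimensional k R] (hRX : S_RX k R) (fd : (M1 D).fd)
    (h0 : Emap d (io D) (eJ d p D.n) = (piK d p _ ^ D.n') (eJ d p (D.n + D.n')))
    (h1 : Emap d (qq D) (eJ d p (D.n + D.n')) = eJ d p D.n')
    (h2 : Trs (piK d p _) (eJ d p (D.n + D.n'))) : Wild k R := by
  obtain ⟨hex, hsu⟩ := hRX.mj d p D.n D.n'
  choose χ hχ using fun i => chi (piK d p (D.A' i)) D.n' _ (D.ne i) (trs_map d p _ h2)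
  have fdE : ∀ (S : Sys k) i, Module.Finite k (E S i) := fun S i => by
    have := S.fd
    infer_instance
  choose C hC1 hC2 using fun (S : Sys k) i =>
    @contr k _ R _ _ d (D.A' i) (χ i) (E S i) _ _ (fdE S i)
  let c : ∀ S : Sys k, EE d (Z D S) →ₗ[k] ∀ i, E S i := fun S =>
    LinearMap.pi fun i => C S i ∘ₗ Emap d (rh D S i)
  let Δ : ∀ S : Sys k, S.V →ₗ[k] ∀ i, E S i := fun S => LinearMap.pi fun i => (S.U i).mkQ
  have cH : ∀ (S : Sys k) (a : ℕ) v, c S ((piK d p _ ^ a) (HH D S v)) =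
      (if a = D.n' then (1 : k) else 0) • Δ S v := fun S a v => funext fun i => by
    change C S i (Emap d (rh D S i) _) = _
    rw [Emap_piK_pow, HH_rh, ← Emap_piK_pow, hC1, hχ]
    rfl
  have cl1 : ∀ (S : Sys k) i l, l ≠ i → ∀ f : D.A l →ₗ[R] Z D S,
      c S (Emap d f (Emap d (D.a l) (eJ d p D.n))) i = 0 := fun S i l hl f => by
    refine hC2 S i _ fun φ => ?_
    rw [Emap_Emap d (rh D S i), Emap_Emap d (ctr _ φ)]
    refine (Submodule.span_le.mpr ?_ : _ ≤ LinearMap.ker (χ i)) (D.other i l hl _)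
    rintro _ ⟨r, rfl⟩
    exact (hχ i _).trans (if_neg (by omega))
  have cl2 : ∀ (S : Sys k) z, Trs (piK d p _) z →
      c S ((piK d p _ ^ D.n') z) ∈ LinearMap.range (Δ S) := fun S z hz => by
    have := S.fd
    obtain ⟨e1, e2⟩ := rr_ex D hex hsu S
    let Y : Submodule k (EE d (Z D S)) :=
      Submodule.span k {y | ∃ (r : ℕ) (v : S.V), y = (piK d p _ ^ r) (HH D S v)}
    have hY : ∀ y ∈ Y, Trs (piK d p _) y ∧
        c S ((piK d p _ ^ (D.n' - D.s)) y) ∈ LinearMap.range (Δ S) := fun y hy => by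
      refine (Submodule.span_le.mpr ?_ : Y ≤ TS d p _ ⊓
        (LinearMap.range (Δ S)).comap (c S ∘ₗ piK d p _ ^ (D.n' - D.s))) hy
      rintro _ ⟨r, v, rfl⟩
      refine ⟨?_, ?_⟩
      · rw [HH_apply, ← Emap_piK_pow]
        refine trs_map d p _ ?_
        obtain ⟨n, hn⟩ := h2
        exact ⟨n, by rw [← Module.End.mul_apply, ← pow_add, add_comm, pow_add, Module.End.mul_apply,
          hn, map_zero]⟩
      · change c S ((piK d p _ ^ (D.n' - D.s)) ((piK d p _ ^ r) (HH D S v))) ∈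
          LinearMap.range (Δ S)
        rw [← Module.End.mul_apply, ← pow_add, cH]
        exact Submodule.smul_mem _ _ ⟨v, rfl⟩
    have hm : Emap d (rr D hex S) ((piK d p _ ^ D.s) z) ∈ Y.map (Emap d (rr D hex S)) := by
      rw [← dec d (M2 D) (Module.finBasis k S.V) (Emap d (rr D hex S) _)]
      refine Submodule.sum_mem _ fun j _ => ?_
      rw [Emap_piK_pow, Emap_piK_pow]
      refine (Submodule.span_le.mpr ?_ : _ ≤ (Y.map (Emap d (rr D hex S))).comap
        (Emap d (tv (M2 D) (Module.finBasis k S.V j))))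
        (D.h1 _ (trs_map d p _ (trs_map d p _ hz)))
      rintro _ ⟨r, rfl⟩
      refine ⟨_, Submodule.subset_span ⟨0 + r, Module.finBasis k S.V j, rfl⟩, ?_⟩
      rw [Emap_piK_pow, HH_rr, h1, ← Emap_piK_pow]
    obtain ⟨y, hy, hyz⟩ := hm
    obtain ⟨t, ht⟩ := (hRX.ee d _ _ _ _ _ e1 e2 ((piK d p _ ^ D.s) z - y)).mp
      (by rw [map_sub, hyz, sub_self])
    have hz' : Trs (piK d p _) (Emap d (j1 D S) t) := by
      rw [ht]
      refine (TS d p _).sub_mem ?_ (hY y hy).1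
      obtain ⟨n, hn⟩ := hz
      exact ⟨n, by rw [← Module.End.mul_apply, ← pow_add, add_comm, pow_add, Module.End.mul_apply,
          hn, map_zero]⟩
    have e : (piK d p _ ^ D.n') z = (piK d p _ ^ (D.n' - D.s)) y +
        (piK d p _ ^ (D.n' - D.s)) (Emap d (j1 D S) t) := by
      rw [← map_add, ht, add_sub_cancel, ← Module.End.mul_apply, ← pow_add,
        Nat.sub_add_cancel D.hs]
    have e0 : c S ((piK d p _ ^ (D.n' - D.s)) (Emap d (j1 D S) t)) = 0 := funext fun i => by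
      refine hC2 S i _ fun φ => ?_
      have e3 : Emap d (ctr _ φ) (Emap d (rh D S i) (Emap d (j1 D S) t)) =
          Emap d (D.ρ i) (Emap d (ctr (D.A i) φ ∘ₗ LinearMap.proj i) t) := by
        rw [Emap_Emap d (rh D S i), rh_j1, Emap_Emap, Emap_Emap, ← LinearMap.comp_assoc, ctr_t2]
        rfl
      rw [Emap_piK_pow, Emap_piK_pow, e3, D.h2 i _ (e3 ▸ trs_map d p _ (trs_map d p _ hz')),
        map_zero]
    rw [e, map_add, e0, add_zero]
    exact (hY y hy).2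
  have inj : ∀ S : Sys k, LinearMap.ker (Δ S) = ⊥ := fun S => eq_bot_iff.mpr fun v hv => by
    rw [← S.dis]
    exact ⟨(Submodule.Quotient.mk_eq_zero _).mp (congrFun hv 0),
      (Submodule.Quotient.mk_eq_zero _).mp (congrFun hv 1)⟩
  refine ⟨Z D, mZ D, fun S => ?_, fun _ _ _ => mZ_comp D, fun S0 S S' u u' h hu => ?_⟩
  · have := S.fd
    have := D.fd
    have h3 : Module.Finite k ((T0 D S).prod (Tv (M1 D) S.V)) := inferInstance
    exact quo_fd ((T0 D S).prod (Tv (M1 D) S.V)) (LinearMap.range (de D S)) h3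
  · obtain ⟨Lf, hL⟩ := (Δ S).exists_leftInverse_of_injective (inj S)
    let Ψ : S'.V →ₗ[k] ∀ i, E S i := c S ∘ₗ (piK d p _ ^ D.n') ∘ₗ Emap d h ∘ₗ HH D S'
    have hΨ : ∀ v', Δ S (Lf (Ψ v')) = Ψ v' := fun v' => by
      obtain ⟨v, hv⟩ := cl2 S (Emap d h (HH D S' v')) (by
        rw [HH_apply]
        exact trs_map d p _ (trs_map d p _ h2))
      exact (congrArg (fun y => Δ S (Lf y)) hv.symm).trans
        ((congrArg (Δ S) (LinearMap.congr_fun hL v)).trans hv)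
    refine ⟨⟨Lf ∘ₗ Ψ, fun i v' hv' => (Submodule.Quotient.mk_eq_zero _).mp
      ((congrFun (hΨ v') i).trans ?_)⟩, LinearMap.ext fun v0 => ?_⟩
    · change c S ((piK d p _ ^ D.n') (Emap d h (HH D S' v'))) i = 0
      rw [← Emap_piK_pow, HH_pi D h0, map_sum, map_sum, Finset.sum_apply]
      refine Finset.sum_eq_zero fun l _ => ?_
      by_cases hl : l = i
      · subst hl
        rw [show (S'.U l).mkQ v' = 0 from (Submodule.Quotient.mk_eq_zero _).mpr hv', map_zero,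
          LinearMap.comp_zero, LinearMap.comp_zero, map_zero, LinearMap.zero_apply, map_zero,
          map_zero]
        rfl
      · rw [Emap_Emap d h]
        exact cl1 S i l hl _
    · change u.f v0 = Lf (c S ((piK d p _ ^ D.n') (Emap d h (HH D S' (u'.f v0)))))
      rw [← HH_nat, Emap_Emap, ← hu, HH_nat, cH, if_pos rfl, one_smul]
      exact (LinearMap.congr_fun hL _).symm

end Fa2

theorem t_ANTI2 (k : Type u) [Field k] [IsAlgClosed k] (R : Type u) [Ring R] [Algebra k R]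
    [FiniteDimensional k R]
    (L : Lib k)
    (hRX : S_RX k R) :
    S_ANTI2 k R := by
  intro d p D
  have B := L.bock R
  have e : ∀ n, piE d (MF d (J k p n)) p = piK d p (MJ d p n) := fun n =>
    B.piE_k k d p (MF d (J k p n))
  refine Fa2.wild D hRX (((L.fd R).ofk (MF d (J k p (D.n + D.n')))).mp
    ((L.fd R).m k d _ ((L.fd R).jq k _ ((monic_X_sub_C p).pow _)).1)) ?_ ?_ ⟨D.n + D.n', ?_⟩
  · have h := B.ej_map k d p D.n (D.n + D.n')
    rw [e, Nat.add_sub_cancel_left] at h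
    exact h
  · have h := B.ej_map k d p (D.n + D.n') D.n'
    rw [Nat.sub_eq_zero_of_le (Nat.le_add_left _ _)] at h
    exact h
  · have h := B.ej_zero k d p (D.n + D.n')
    rw [e] at h
    exact h

end
end Pool.Agent.P.MP_cf639b_al
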