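import Pool.Agent.P.MP_cf639b_al.IfF

set_option linter.dupNamespace false

namespace Pool.Agent.P.MP_cf639b_al

universe u v
open TensorProduct Polynomial Function

theorem fari_mul {lam : ℤ → ℤ} (h : ∀ i j, lam i + lam j ≤ lam (i + j)) (j : ℤ) (n : ℕ)
    (hn : 0 < n) : n * lam j ≤ lam (n * j) := by
  induction n, hn using Nat.le_induction with
  | base => simp
  | succ n _ ih =>
    have := h (n * j) j
    push_cast
    rw [add_mul, add_mul, one_mul, one_mul]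
    omega

theorem fari_eq {lam : ℤ → ℤ} (h : ∀ i j, lam i + lam j ≤ lam (i + j)) {c : ℝ}
    (hc : ∀ j : ℤ, (lam j : ℝ) ≤ c * j) {j : ℤ} (hj : (lam j : ℝ) = c * j) (n : ℕ) (hn : 0 < n) :
    (lam (n * j) : ℝ) = c * (n * j : ℤ) := by
  refine le_antisymm (hc _) ?_
  have : ((n * lam j : ℤ) : ℝ) ≤ lam (n * j) := Int.cast_le.2 (fari_mul h j n hn)
  push_cast at this ⊢
  rw [hj] at this
  linarith

theorem fari_line {lam : ℤ → ℤ} (h : ∀ i j, lam i + lam j ≤ lam (i + j)) (h0 : lam 0 = 0) :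
    ∃ c : ℝ, ∀ j : ℤ, (lam j : ℝ) ≤ c * j := by
  obtain ⟨c, c1, c2⟩ := exists_between_of_forall_le
    (s := {x : ℝ | ∃ n : ℕ, 0 < n ∧ x = lam n / n})
    (t := {x : ℝ | ∃ n : ℕ, 0 < n ∧ x = -lam (-n) / n}) ⟨_, 1, one_pos, rfl⟩ ⟨_, 1, one_pos, rfl⟩
    (by
      rintro _ ⟨n, hn, rfl⟩ _ ⟨m, hm, rfl⟩
      have a1 := fari_mul h n m hm
      have a2 := fari_mul h (-m) n hn
      have a3 := h (m * n) (n * -m)
      rw [show (m : ℤ) * n + n * -m = 0 by ring, h0] at a3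
      rw [div_le_div_iff₀ (by exact_mod_cast hn) (by exact_mod_cast hm)]
      exact_mod_cast (by linarith : lam n * m ≤ -lam (-m) * n))
  refine ⟨c, fun j => ?_⟩
  obtain ⟨n, rfl | rfl⟩ := j.eq_nat_or_neg <;> rcases n.eq_zero_or_pos with rfl | hn
  · simp [h0]
  · have := c1 ⟨n, hn, rfl⟩
    rwa [div_le_iff₀ (by exact_mod_cast hn)] at this
  · simp [h0]
  · have := c2 ⟨n, hn, rfl⟩
    rw [le_div_iff₀ (by exact_mod_cast hn)] at this
    push_cast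
    linarith

theorem fari_ach {lam : ℤ → ℤ} (h : ¬ Ach lam) (g : ℤ × ℤ) :
    ∃ k : ℤ, k ≠ 0 ∧ -4 ≤ k ∧ k ≤ 4 ∧ k * g.2 ≤ lam (k * g.1) := by
  by_contra hc
  refine h ⟨fun i => ((i : ℕ) : ℤ) • g, fun i l hne hp => hc ⟨(i : ℕ) - (l : ℕ), ?_, ?_, ?_, ?_⟩⟩
  · have := Fin.val_ne_of_ne hne
    omega
  · omega
  · omega
  · rw [← sub_smul] at hp
    exact hp

theorem fari_att (lam : ℤ → ℤ) (c0 : ℕ) (h : ∀ i j, lam i + lam j ≤ lam (i + j)) (h0 : lam 0 = 0)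
    (hw : ∀ j, 0 ≤ lam j + lam (-j) + c0) (hA : ¬ Ach lam) (hD : ¬ Dns lam) : Att lam := by
  obtain ⟨c, hc⟩ := fari_line h h0
  refine ⟨c, c0, fun j => ⟨?_, hc j⟩, ?_⟩
  · have a1 := hc (-j)
    have a2 : ((0 : ℤ) : ℝ) ≤ (lam j + lam (-j) + c0 : ℤ) := Int.cast_le.2 (hw j)
    push_cast at a1 a2
    linarith
  by_contra hn
  push Not at hn
  have up : ∀ k : ℤ, ∀ g : ℤ × ℤ, k * g.2 ≤ lam (k * g.1) → 0 ≤ k * (c * g.1 - g.2) := fun k g a => by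
    have a1 := hc (k * g.1)
    have a2 : ((k * g.2 : ℤ) : ℝ) ≤ lam (k * g.1) := Int.cast_le.2 a
    push_cast at a1 a2
    linarith
  have ne : ∀ g : ℤ × ℤ, g.1 ≠ 0 → c * g.1 - g.2 ≠ 0 := fun g hg a => by
    obtain ⟨k, k0, -, -, k3⟩ := fari_ach hA g
    refine hn _ (mul_ne_zero k0 hg) (le_antisymm (hc _) ?_)
    have a2 : ((k * g.2 : ℤ) : ℝ) ≤ lam (k * g.1) := Int.cast_le.2 k3
    push_cast at a2 ⊢
    rw [mul_left_comm, sub_eq_zero.1 a]
    exact a2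
  have pos : ∀ g : ℤ × ℤ, 0 < c * g.1 - g.2 → Pos lam ((12 : ℤ) • g) := fun g hg => by
    obtain ⟨k, k0, -, k2, k3⟩ := fari_ach hA g
    have k1 : 0 ≤ k := by exact_mod_cast nonneg_of_mul_nonneg_left (up k g k3) hg
    obtain ⟨n, n1, n2⟩ : ∃ n : ℕ, 0 < n ∧ n * k = 12 := by
      interval_cases k
      exacts [absurd rfl k0, ⟨12, by simp⟩, ⟨6, by simp⟩, ⟨4, by simp⟩, ⟨3, by simp⟩]
    have a1 := fari_mul h (k * g.1) n n1
    have a2 := mul_le_mul_of_nonneg_left k3 (Int.natCast_nonneg n)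
    rw [← mul_assoc, n2] at a1 a2
    exact a2.trans a1
  have small : ∀ δ : ℝ, 0 < δ → ∃ g : ℤ × ℤ, 0 < c * g.1 - g.2 ∧ c * g.1 - g.2 < δ := fun δ hδ => by
    obtain ⟨n, hn⟩ := exists_nat_one_div_lt hδ
    obtain ⟨j, k, k1, -, k3⟩ := Real.exists_int_int_abs_mul_sub_le c n.succ_pos
    have k4 : |c * k - j| < δ := by
      rw [mul_comm]
      refine k3.trans_lt (lt_of_le_of_lt (one_div_le_one_div_of_le (by positivity) ?_) hn)
      simp
    rcases lt_or_gt_of_ne (ne (k, j) k1.ne') with a | a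
    · refine ⟨(-k, -j), ?_, ?_⟩ <;> push_cast <;> linarith [(abs_lt.1 k4).1]
    · exact ⟨(k, j), a, (abs_lt.1 k4).2⟩
  refine hD ⟨{p | ∃ a b : ℤ × ℤ, p = ((12 : ℤ) • a, (12 : ℤ) • b) ∧
    c * a.1 - a.2 < c * b.1 - b.2}, ⟨_, (0, 0), (0, -1), rfl, by simp⟩, ?_⟩
  rintro s t ⟨a, b, e, hab⟩
  obtain ⟨rfl, rfl⟩ := Prod.mk.inj e
  obtain ⟨g, g1, g2⟩ := small _ (sub_pos.2 hab)
  refine ⟨fun hp => ?_, (12 : ℤ) • (a + g), ⟨a, a + g, rfl, ?_⟩, ⟨a + g, b, rfl, ?_⟩, ?_, ?_⟩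
  · rw [← smul_sub] at hp
    have := up 12 (a - b) hp
    simp only [Prod.fst_sub, Prod.snd_sub] at this
    push_cast at this
    linarith
  · simp only [Prod.fst_add, Prod.snd_add]
    push_cast
    linarith
  · simp only [Prod.fst_add, Prod.snd_add]
    push_cast
    linarith
  · rw [← smul_sub, add_sub_cancel_left]
    exact pos g g1
  · rw [← smul_sub]
    refine pos _ ?_
    simp only [Prod.fst_add, Prod.snd_add, Prod.fst_sub, Prod.snd_sub]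
    push_cast
    linarith

theorem fari_two (lam lam' : ℤ → ℤ) (h : ∀ i j, lam i + lam j ≤ lam (i + j)) (h0 : lam 0 = 0)
    (h' : ∀ i j, lam' i + lam' j ≤ lam' (i + j)) (ha : Att lam) (ha' : Att lam') :
    ∃ j : ℤ, j ≠ 0 ∧ (0 ≤ lam' j + lam (-j) ∨
      (lam' j = lam j ∧ ∀ i : ℕ, lam (j * i) = i * lam j)) := by
  obtain ⟨c, b, hc, j1, n1, e1⟩ := ha
  obtain ⟨c', b', hc', j2, n2, e2⟩ := ha'
  by_cases hl : ∃ j : ℤ, j ≠ 0 ∧ 0 ≤ lam' j + lam (-j)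
  · exact hl.imp fun j hj => ⟨hj.1, Or.inl hj.2⟩
  push Not at hl
  have lt : ∀ j : ℤ, j ≠ 0 → (c' - c) * j < b + b' := fun j hj => by
    have a1 := (hc (-j)).1
    have a2 := (hc' j).1
    have a3 : ((lam' j + lam (-j) : ℤ) : ℝ) < (0 : ℤ) := Int.cast_lt.2 (hl j hj)
    push_cast at a1 a3
    linarith
  obtain rfl : c = c' := by
    by_contra hne
    have a0 : 0 < |c' - c| := abs_pos.2 (sub_ne_zero.2 (Ne.symm hne))
    obtain ⟨n, hn⟩ := exists_nat_gt ((b + b') / |c' - c|)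
    rw [div_lt_iff₀ a0] at hn
    have a1 := lt (n + 1) (by omega)
    have a2 := lt (-(n + 1)) (by omega)
    push_cast at a1 a2
    rcases abs_cases (c' - c) with a | a <;> rw [a.1] at hn a0 <;> linarith
  have p1 := Int.natAbs_pos.2 n1
  have p2 := Int.natAbs_pos.2 n2
  have q1 := fari_eq h (fun j => (hc j).2) e1 _ p2
  have q2 := fari_eq h' (fun j => (hc' j).2) e2 _ p1
  have nj : (j1.natAbs : ℤ) * j2 ≠ 0 := mul_ne_zero (by omega) n2
  have sgn : (j2.natAbs : ℤ) * j1 = j1.natAbs * j2 ∨ (j2.natAbs : ℤ) * j1 = -(j1.natAbs * j2) := by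
    obtain ⟨n, rfl | rfl⟩ := j1.eq_nat_or_neg <;> obtain ⟨m, rfl | rfl⟩ := j2.eq_nat_or_neg <;>
      simp [mul_comm]
  generalize (j1.natAbs : ℤ) * j2 = j at *
  rcases sgn with a | a <;> rw [a] at q1
  · refine ⟨j, nj, Or.inr ⟨by exact_mod_cast q2.trans q1.symm, fun i => ?_⟩⟩
    rcases i.eq_zero_or_pos with rfl | hi
    · simpa using h0
    · have := fari_eq h (fun j => (hc j).2) q1 i hi
      rw [mul_comm j, ← Int.cast_inj (α := ℝ), this]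
      push_cast
      rw [q1]
      ring
  · refine ⟨j, nj, Or.inl ?_⟩
    rw [← Int.cast_nonneg_iff (R := ℝ)]
    push_cast at q1 ⊢
    linarith

theorem t_ARI  :
    S_ARI := by
  refine ⟨fari_att, fun lam lam' h h0 h' ha ha' => ?_⟩
  obtain ⟨j, hj, h1⟩ := fari_two lam lam' h h0 h' ha ha'
  obtain ⟨n, rfl | rfl⟩ := j.eq_nat_or_neg
  · exact ⟨true, n, by omega, by simpa [sg] using h1⟩
  · exact ⟨false, n, by omega, by simpa [sg] using h1⟩

end Pool.Agent.P.MP_cf639b_al
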