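import Pool.Agent.P.MP_cf639b_al.IfF

set_option linter.dupNamespace false

namespace Pool.Agent.P.MP_cf639b_al

universe u v
open TensorProduct Polynomial Function

section
variable {k : Type u} [Field k] {R : Type u} [Ring R] [Algebra k R] {d : Fam R} {p : k} {K : ℕ}

theorem fcalc_comm {A B : Type u} [AddCommGroup A] [Module k A] [AddCommGroup B] [Module k B]
    {a : Module.End k A} {b : Module.End k B} (f : A →ₗ[k] B) (h : ∀ x, f (a x) = b (f x))
    (W : k[X]) (x : A) : f (aeval a W x) = aeval b W (f x) := by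
  induction W using Polynomial.induction_on' with
  | add p q hp hq => simp only [map_add, LinearMap.add_apply, hp, hq]
  | monomial n c =>
    simp only [aeval_monomial, Module.End.mul_apply, Module.algebraMap_end_apply, map_smul,
      pow_comm_of f h]

theorem fcalc_pow {A : Type u} [AddCommGroup A] [Module k A] (a : Module.End k A) (W : k[X])
    (n : ℕ) (x : A) : aeval a W ((a ^ n) x) = (a ^ n) (aeval a W x) :=
  pow_comm_of (aeval a W : Module.End k A) (fun y => (fcalc_comm a (fun _ => rfl) W y).symm) n x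

theorem fcalc_bij {A : Type u} [AddCommGroup A] [Module k A] (a : Module.End k A)
    (h : ∀ x, ∃ n : ℕ, (a ^ n) x = 0) {W : k[X]} (hW : IsCoprime W X) :
    Bijective (aeval a W : Module.End k A) := by
  have key : ∀ x, ∃ c : k[X], aeval a (c * W) x = x := fun x => by
    obtain ⟨n, hn⟩ := h x
    obtain ⟨c, c', e⟩ := hW.pow_right (n := n)
    refine ⟨c, ?_⟩
    rw [eq_sub_of_add_eq e, map_sub, map_mul, map_one, map_pow, aeval_X, LinearMap.sub_apply,
      Module.End.mul_apply, hn, map_zero, sub_zero, Module.End.one_apply]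
  refine ⟨(injective_iff_map_eq_zero _).2 fun x hx => ?_, fun x => ?_⟩
  · obtain ⟨c, hc⟩ := key x
    rw [← hc, map_mul, Module.End.mul_apply, hx, map_zero]
  · obtain ⟨c, hc⟩ := key x
    exact ⟨aeval a c x, by rw [← Module.End.mul_apply, ← map_mul, mul_comm, hc]⟩

theorem fcalc_map {T T' : Md k R} (g : T →ₗ[R] T') (W : k[X]) (x : TT d p T) :
    mapT d p g (aeval (piT d p T) W x) = aeval (piT d p T') W (mapT d p g x) :=
  fcalc_comm (mapT d p g) (fun y => by simpa using mapT_pi g 1 y) W x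

theorem fcalc_thru {T Z T' : Md k R} (h : Expo d p K Z) (a : T →ₗ[R] Z) (b : Z →ₗ[R] T')
    (x : TT d p T) : (piT d p T' ^ K) (mapT d p (b ∘ₗ a) x) = 0 := by
  have e : (piT d p Z ^ K) (mapT d p a x) = 0 :=
    Subtype.ext (by rw [piT_pow_coe]; exact h _ (mapT d p a x).2)
  rw [mapT_comp, ← mapT_pi, e, map_zero]

theorem fcalc_P (hK : ∀ T : Md k R, Expo d p K (PA.obj T)) (A : FO k R k)
    {f : A.X →ₗ[R] A.X} (h : f - LinearMap.id ∈ P0 A A) (x : TT d p A.X) :
    (piT d p A.X ^ K) (mapT d p f x) = (piT d p A.X ^ K) x := by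
  obtain ⟨g, -, hg⟩ := h
  have e := fcalc_thru (hK _) g (pP A.X) x
  rwa [← hg, mapT_sub, mapT_id, map_sub, sub_eq_zero] at e

theorem fcalc_I (hK : ∀ T : Md k R, Expo d p K (IA.obj T)) (A : FO k R k)
    {f : A.X →ₗ[R] A.X} (h : f - LinearMap.id ∈ I0 A A) (x : TT d p A.X) :
    (piT d p A.X ^ K) (mapT d p f x) = (piT d p A.X ^ K) x := by
  obtain ⟨g, -, hg⟩ := h
  have e := fcalc_thru (hK _) (iI A.X) g x
  rwa [← hg, mapT_sub, mapT_id, map_sub, sub_eq_zero] at e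

theorem fcalc_swap {T : Md k R} (a b : ℕ) (x : TT d p T) :
    (piT d p T ^ (a + b)) x = (piT d p T ^ b) ((piT d p T ^ a) x) := by
  rw [add_comm, piT_add]

theorem fcalc_link (Γ : Calc d p) (e : Bool) {U : Md k R} (hU : U.fd) (x0 : TT d p U)
    (a : U →ₗ[R] (Γ.Φ e).obj U) (W : k[X])
    (h : ∀ T : Md k R, T.fd → ∀ g : U →ₗ[R] T, aeval (piT d p _) W (Γ.tr e T (mapT d p g x0)) =
      mapT d p ((Γ.Φ e).map g ∘ₗ a) x0)
    (it : ∀ s, U →ₗ[R] ((Γ.Φ e).iter s).obj U) (h0 : it 0 = LinearMap.id)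
    (hs : ∀ s, it (s + 1) = (Γ.Φ e).map (it s) ∘ₗ a) (s c : ℕ)
    (hc : (piT d p _ ^ c) (Γ.trL (List.replicate s e) U x0) = 0) :
    (piT d p _ ^ c) (mapT d p (it s) x0) = 0 := by
  have hfd : ∀ m, (((Γ.Φ e).iter m).obj U).fd := fun m => by
    induction m with
    | zero => exact hU
    | succ m ih => exact Γ.fd e _ ih
  have key : ∀ (s m l : ℕ), l = m + s → ∀ (x : TT d p (((Γ.Φ e).iter m).obj U)) (Z : k[X]),
      aeval (piT d p _) Z x = mapT d p (it m) x0 →
      (piT d p _ ^ c) (Γ.trL (List.replicate s e) _ x) = 0 →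
      (piT d p _ ^ c) (mapT d p (it l) x0) = 0 := fun s => by
    induction s with
    | zero =>
      intro m l hl x Z hZ hx
      subst l
      have hx' : (piT d p _ ^ c) x = 0 := hx
      change (piT d p _ ^ c) (mapT d p (it m) x0) = 0
      rw [← hZ, ← fcalc_pow, hx', map_zero]
    | succ s ih =>
      intro m l hl x Z hZ hx
      refine ih (m + 1) l (by omega) (Γ.tr e _ x) (W * Z) ?_ hx
      have e1 := h _ (hfd m) (it m)
      rw [← hZ, fcalc_comm (Γ.tr e _) (Γ.tr_pi e _ (hfd m)), ← Module.End.mul_apply,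
        ← map_mul] at e1
      rw [hs]
      exact e1
  refine key s 0 s (by omega) x0 1 ?_ hc
  rw [h0, map_one]
  exact (mapT_id x0).symm

variable [FiniteDimensional k R]

theorem fcalc_pol (B : S_BOCK k R) {s : ℕ} (hL : Lc d p s) (n : ℕ) (h : k[X]) :
    mapT d p (T := MJ d p n) (T' := MJ d p n) ((MN d).map (XH.pol (J k p n).V h)) (eT d p n) =
      aeval (piT d p _) (taylor p h) (eT d p n) := by
  have e1 : aeval (piK d p (MJ d p n)) (taylor p h) = aeval (EX d (MJ d p n)) h := by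
    rw [taylor_apply, aeval_comp, map_add, aeval_X, aeval_C, piK, Algebra.algebraMap_eq_smul_one,
      sub_add_cancel]
  have e2 := fcalc_comm (a := piT d p (MJ d p n)) (b := piK d p (MJ d p n))
    (TS d p (MJ d p n)).subtype (fun _ => rfl) (taylor p h) (eT d p n)
  refine Subtype.ext (Eq.trans ?_ e2.symm)
  rw [mapT_coe, Submodule.subtype_apply, hL.coe, e1]
  exact (B.eq d _ _ _ _).symm.trans ((B.map d _ _ _ LinearMap.id (XH.pol _ h) _).trans
    (B.pol d _ _ _ h _))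

theorem fcalc_A (D : S_ID k R) {U T Z : Md k R} (x : TT d p U) (ap : U →ₗ[R] Tp.obj U)
    (am : U →ₗ[R] Tm.obj U) (g : U →ₗ[R] T) (H : U →ₗ[R] U) (c : U →ₗ[R] Z) (b : Z →ₗ[R] U)
    (hZ : Expo d p K Z) (h : eps U ∘ₗ Tm.map ap ∘ₗ am = H + b ∘ₗ c) :
    (piT d p T ^ K) (mapT d p (eps T) (mapT d p (Tm.map (Tp.map g ∘ₗ ap) ∘ₗ am) x)) =
      (piT d p T ^ K) (mapT d p g (mapT d p H x)) := by
  have e : eps T ∘ₗ Tm.map (Tp.map g ∘ₗ ap) ∘ₗ am = g ∘ₗ H + (g ∘ₗ b) ∘ₗ c := by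
    rw [Tm.map_comp, LinearMap.comp_assoc, ← LinearMap.comp_assoc _ _ (eps T), ← D.eps_nat,
      LinearMap.comp_assoc, h, LinearMap.comp_add, LinearMap.comp_assoc]
  rw [← mapT_comp, e, mapT_add, map_add, fcalc_thru hZ, add_zero, mapT_comp]

theorem fcalc_B (D : S_ID k R) {U T Z : Md k R} (x : TT d p U) (ap : U →ₗ[R] Tp.obj U)
    (am : U →ₗ[R] Tm.obj U) (g : U →ₗ[R] T) (H : U →ₗ[R] U) (c : U →ₗ[R] Z)
    (b : Z →ₗ[R] Tp.obj (Tm.obj U)) (hZ : Expo d p K Z)
    (h : Tp.map am ∘ₗ ap = eta U ∘ₗ H + b ∘ₗ c) :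
    (piT d p _ ^ K) (mapT d p (Tp.map (Tm.map g ∘ₗ am) ∘ₗ ap) x) =
      (piT d p _ ^ K) (mapT d p (eta T) (mapT d p g (mapT d p H x))) := by
  have e : Tp.map (Tm.map g ∘ₗ am) ∘ₗ ap =
      eta T ∘ₗ g ∘ₗ H + (Tp.map (Tm.map g) ∘ₗ b) ∘ₗ c := by
    rw [Tp.map_comp, LinearMap.comp_assoc, h, LinearMap.comp_add, ← LinearMap.comp_assoc,
      ← D.eta_nat, LinearMap.comp_assoc, LinearMap.comp_assoc]
  rw [e, mapT_add, map_add, fcalc_thru hZ, add_zero, mapT_comp, mapT_comp]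

/-- the two translations with their basic identities -/
structure FcalcD (d : Fam R) (p : k) (v K : ℕ) where
  tp : ∀ T : Md k R, TT d p T →ₗ[k] TT d p (Tp.obj T)
  tm : ∀ T : Md k R, TT d p T →ₗ[k] TT d p (Tm.obj T)
  mu : ∀ T : Md k R, Tp.obj (Tm.obj T) →ₗ[R] T
  nu : ∀ T : Md k R, T →ₗ[R] Tm.obj (Tp.obj T)
  fd : ∀ (e : Bool) (T : Md k R), T.fd → ((Te e).obj T).fd
  eps_nat : ∀ (T T' : Md k R) (g : T →ₗ[R] T'), g ∘ₗ eps T = eps T' ∘ₗ Tm.map (Tp.map g)
  eta_nat : ∀ (T T' : Md k R) (g : T →ₗ[R] T'), eta T' ∘ₗ g = Tp.map (Tm.map g) ∘ₗ eta T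
  tp_pi : ∀ T : Md k R, T.fd → ∀ x, tp T (piT d p T x) = piT d p _ (tp T x)
  tm_pi : ∀ T : Md k R, T.fd → ∀ x, tm T (piT d p T x) = piT d p _ (tm T x)
  tp_nat : ∀ T T' : Md k R, T.fd → T'.fd → ∀ (g : T →ₗ[R] T') x,
    tp T' (mapT d p g x) = mapT d p (Tp.map g) (tp T x)
  tm_nat : ∀ T T' : Md k R, T.fd → T'.fd → ∀ (g : T →ₗ[R] T') x,
    tm T' (mapT d p g x) = mapT d p (Tm.map g) (tm T x)
  hA : ∀ T : Md k R, T.fd → ∀ x,
    (piT d p T ^ K) (mapT d p (eps T) (tm _ (tp T x))) = (piT d p T ^ (K + v)) x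
  hB : ∀ T : Md k R, T.fd → ∀ x,
    (piT d p _ ^ K) (tp _ (tm T x)) = (piT d p _ ^ (K + v)) (mapT d p (eta T) x)
  m1 : ∀ (T : Md k R) x,
    (piT d p T ^ K) (mapT d p (mu T) (mapT d p (eta T) x)) = (piT d p T ^ K) x
  m2 : ∀ (T : Md k R) x,
    (piT d p _ ^ K) (mapT d p (eta T) (mapT d p (mu T) x)) = (piT d p _ ^ K) x
  m3 : ∀ (T : Md k R) x, (piT d p _ ^ K) (mapT d p (Tm.map (eta T)) (mapT d p (Tm.map (mu T)) x)) =
    (piT d p _ ^ K) x
  n1 : ∀ (T : Md k R) x,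
    (piT d p _ ^ K) (mapT d p (nu T) (mapT d p (eps T) x)) = (piT d p _ ^ K) x
  t1 : ∀ (T : Md k R) x, (piT d p _ ^ K)
    (mapT d p (Tp.map (eps T)) (mapT d p (eta (Tp.obj T)) x)) = (piT d p _ ^ K) x
  t2 : ∀ (T : Md k R) x, (piT d p _ ^ K)
    (mapT d p (eps (Tm.obj T)) (mapT d p (Tm.map (eta T)) x)) = (piT d p _ ^ K) x

namespace FcalcD
variable {v : ℕ} (D : FcalcD (k := k) d p v K)

theorem fp {T : Md k R} (D : FcalcD (k := k) d p v K) (h : T.fd) : (Tp.obj T).fd := D.fd true T h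
theorem fm {T : Md k R} (D : FcalcD (k := k) d p v K) (h : T.fd) : (Tm.obj T).fd := D.fd false T h

/-- inverse of the positive translation -/
noncomputable def rp (T : Md k R) : TT d p (Tp.obj T) →ₗ[k] TT d p T :=
  (piT d p T ^ K) ∘ₗ mapT d p (eps T) ∘ₗ D.tm (Tp.obj T)
/-- inverse of the negative translation -/
noncomputable def rm (T : Md k R) : TT d p (Tm.obj T) →ₗ[k] TT d p T :=
  (piT d p T ^ K) ∘ₗ mapT d p (D.mu T) ∘ₗ D.tp (Tm.obj T)

theorem rp_apply (T : Md k R) (y : TT d p (Tp.obj T)) :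
    D.rp T y = (piT d p T ^ K) (mapT d p (eps T) (D.tm (Tp.obj T) y)) := rfl
theorem rm_apply (T : Md k R) (y : TT d p (Tm.obj T)) :
    D.rm T y = (piT d p T ^ K) (mapT d p (D.mu T) (D.tp (Tm.obj T) y)) := rfl

theorem rp_pi (T : Md k R) (h : T.fd) (y : TT d p (Tp.obj T)) :
    D.rp T (piT d p _ y) = piT d p T (D.rp T y) := by
  have e := mapT_pi (d := d) (p := p) (eps T) 1
  simp only [pow_one] at e
  rw [rp_apply, rp_apply, D.tm_pi _ (D.fp h), e, ← Module.End.mul_apply, ← pow_succ, pow_succ',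
    Module.End.mul_apply]

theorem rm_pi (T : Md k R) (h : T.fd) (y : TT d p (Tm.obj T)) :
    D.rm T (piT d p _ y) = piT d p T (D.rm T y) := by
  have e := mapT_pi (d := d) (p := p) (D.mu T) 1
  simp only [pow_one] at e
  rw [rm_apply, rm_apply, D.tp_pi _ (D.fm h), e, ← Module.End.mul_apply, ← pow_succ, pow_succ',
    Module.End.mul_apply]

theorem rp_nat (T T' : Md k R) (h : T.fd) (h' : T'.fd) (g : T →ₗ[R] T') (y : TT d p (Tp.obj T)) :
    D.rp T' (mapT d p (Tp.map g) y) = mapT d p g (D.rp T y) := by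
  rw [rp_apply, rp_apply, D.tm_nat _ _ (D.fp h) (D.fp h'), mapT_pi, ← mapT_comp, ← D.eps_nat,
    mapT_comp]

theorem rm_nat (T T' : Md k R) (h : T.fd) (h' : T'.fd) (g : T →ₗ[R] T') (y : TT d p (Tm.obj T)) :
    D.rm T' (mapT d p (Tm.map g) y) = mapT d p g (D.rm T y) := by
  rw [rm_apply, rm_apply, D.tp_nat _ _ (D.fm h) (D.fm h'), ← mapT_pi, ← mapT_pi, ← D.m2 T,
    mapT_pi, mapT_pi, ← mapT_comp (Tp.map (Tm.map g)), ← D.eta_nat, mapT_comp, D.m1, mapT_pi]

theorem rm_tm (T : Md k R) (h : T.fd) (x : TT d p T) :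
    D.rm T (D.tm T x) = (piT d p T ^ (K + v)) x := by
  rw [rm_apply, ← mapT_pi, D.hB T h, mapT_pi, fcalc_swap, D.m1, ← fcalc_swap]

theorem tp_rp (T : Md k R) (h : T.fd) (y : TT d p (Tp.obj T)) :
    D.tp T (D.rp T y) = (piT d p _ ^ (K + v)) y := by
  rw [rp_apply, pow_comm_of (D.tp T) (D.tp_pi T h), D.tp_nat _ _ (D.fm (D.fp h)) h, ← mapT_pi,
    D.hB _ (D.fp h), mapT_pi, fcalc_swap, D.t1, ← fcalc_swap]

theorem tm_rm (T : Md k R) (h : T.fd) (y : TT d p (Tm.obj T)) :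
    D.tm T (D.rm T y) = (piT d p _ ^ (K + v)) y := by
  rw [rm_apply, pow_comm_of (D.tm T) (D.tm_pi T h), D.tm_nat _ _ (D.fp (D.fm h)) h, ← D.t2 T,
    ← mapT_pi, D.m3, mapT_pi, D.hA _ (D.fm h)]

/-- the translation in direction `e` -/
noncomputable def tr : ∀ (e : Bool) (T : Md k R), TT d p T →ₗ[k] TT d p ((Te e).obj T)
  | true => D.tp
  | false => D.tm
/-- the inverse translation in direction `e` -/
noncomputable def rt : ∀ (e : Bool) (T : Md k R), TT d p ((Te e).obj T) →ₗ[k] TT d p T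
  | true => D.rp
  | false => D.rm

/-- the calculus -/
noncomputable def cal : Calc d p where
  Φ := Te
  fd := D.fd
  v e := if e then v else 0
  w := K + v
  K := K
  hw e := by split_ifs <;> omega
  tr := D.tr
  rt := D.rt
  tr_pi e := by cases e; exacts [D.tm_pi, D.tp_pi]
  rt_pi e := by cases e; exacts [D.rm_pi, D.rp_pi]
  tr_nat e := by cases e; exacts [D.tm_nat, D.tp_nat]
  rt_nat e := by cases e; exacts [D.rm_nat, D.rp_nat]
  rt_tr e := by cases e; exacts [D.rm_tm, D.hA]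
  tr_rt e := by cases e; exacts [D.tm_rm, D.tp_rp]
  can e T h := by
    cases e
    · exact ⟨D.mu T, eta T, fun x => ⟨(mapT_pi _ _ _).trans (D.rm_tm T h x),
        (D.hB T h x).trans (mapT_pi _ _ _).symm⟩⟩
    · refine ⟨eps T, D.nu T, fun x => ⟨(mapT_pi _ _ _).trans (D.hA T h x), ?_⟩⟩
      refine (D.n1 T _).symm.trans ((mapT_pi _ _ _).symm.trans ?_)
      exact congrArg (mapT d p (D.nu T)) (D.hA T h x)
end FcalcD
end

theorem t_CALC (k : Type u) [Field k] [IsAlgClosed k] (R : Type u) [Ring R] [Algebra k R]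
    [FiniteDimensional k R]
    (L : Lib k)
    (hTR : S_TR k R) :
    S_CALC k R := by
  intro d F _ _ t A N p s hL
  have fp : ∀ T : Md k R, T.fd → (Tp.obj T).fd := (L.fd R).tek true
  have fm : ∀ T : Md k R, T.fd → (Tm.obj T).fd := (L.fd R).tek false
  obtain ⟨rp, p1, p2, p3⟩ := hTR d p s hL Tp fp N.ap
  obtain ⟨rm, q1, q2, q3⟩ := hTR d p s hL Tm fm N.am
  obtain ⟨U, hU, hU'⟩ := exists_eq_pow_rootMultiplicity_mul_and_not_dvd (N.hp * N.hm)
    (mul_ne_zero N.hp0 N.hm0) p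
  generalize hv : rootMultiplicity p (N.hp * N.hm) = v at hU
  have hW : IsCoprime (taylor p U) X := (irreducible_X.coprime_iff_not_dvd.2 fun h =>
    hU' (dvd_iff_isRoot.2 ((taylor_coeff_zero p U).symm.trans (X_dvd_iff.1 h)))).symm
  have hh : taylor p (N.hp * N.hm) = X ^ v * taylor p U := by
    rw [hU, taylor_mul, taylor_pow, map_sub, taylor_X, taylor_C, add_sub_cancel_right]
  generalize taylor p U = W at hW hh
  have hb : ∀ T : Md k R, Bijective (aeval (piT d p T) W : Module.End k _) := fun T =>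
    fcalc_bij _ piT_nil hW
  obtain ⟨tp, htp⟩ : ∃ tp : ∀ T : Md k R, TT d p T →ₗ[k] TT d p (Tp.obj T),
      ∀ T x, aeval (piT d p _) W (tp T x) = rp T x :=
    ⟨fun T => (LinearEquiv.ofBijective _ (hb (Tp.obj T))).symm.toLinearMap ∘ₗ rp T,
      fun T x => (LinearEquiv.ofBijective _ (hb (Tp.obj T))).apply_symm_apply _⟩
  obtain ⟨K1, h1⟩ := (L.noe R).expok d N.Q N.fd p
  obtain ⟨K2, h2⟩ := (L.noe R).expok d N.Q' N.fd' p
  obtain ⟨K3, h3⟩ := (L.noe R).expok d (T0 k R) (L.fd R).t0k p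
  replace h1 := (L.noe R).expo_mono d p _ K1 (K1 + K2 + K3) (by omega) h1
  replace h2 := (L.noe R).expo_mono d p _ K2 (K1 + K2 + K3) (by omega) h2
  replace h3 := (L.noe R).expo_mono d p _ K3 (K1 + K2 + K3) (by omega) h3
  generalize K1 + K2 + K3 = K at h1 h2 h3
  have hP : ∀ T : Md k R, Expo d p K (PA.obj T) := fun T =>
    (L.cc R).expo d p K _ _ ((L.cc R).pa T) h3
  have hI : ∀ T : Md k R, Expo d p K (IA.obj T) := fun T =>
    (L.cc R).expo d p K _ _ ((L.cc R).ia T) h3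
  have he : ∀ (n : ℕ) (T : Md k R) (g : MJ d p n →ₗ[R] T), mapT d p g (mapT d p (T := MJ d p n)
      (T' := MJ d p n) ((MN d).map (XH.pol (J k p n).V (N.hp * N.hm))) (eT d p n)) =
      aeval (piT d p T) W ((piT d p T ^ v) (mapT d p g (eT d p n))) := fun n T g => by
    rw [fcalc_pol (L.bock R) hL, fcalc_map, hh, map_mul, map_pow, aeval_X, Module.End.mul_apply,
      fcalc_pow]
  choose mu hmu hm1 hm2 using fun T : Md k R => (L.st R).eta_inv k (FO.ofMd T)
  choose nu hnu hn1 hn2 using fun T : Md k R => (L.st R).eps_inv k (FO.ofMd T)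
  let D : FcalcD (k := k) d p v K :=
    { tp := tp
      tm := rm
      mu := mu
      nu := nu
      fd := (L.fd R).tek
      eps_nat := (L.id R).eps_nat
      eta_nat := (L.id R).eta_nat
      tp_pi := fun T h x => (hb _).1 (by
        rw [htp, p1 T h, ← htp, fcalc_comm (piT d p (Tp.obj T)) (fun _ => rfl)])
      tm_pi := q1
      tp_nat := fun T T' h h' g x => (hb _).1 (by rw [htp, p2 T T' h h', ← htp, fcalc_map])
      tm_nat := q2
      hA := fun T h x => (hb _).1 (by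
        obtain ⟨n, hn⟩ := piT_nil x
        obtain ⟨g, rfl⟩ := hL.rep T n x hn
        rw [fcalc_pow, ← fcalc_map, ← fcalc_comm (rm _) (q1 _ (fp T h)), htp,
          p3 T h, q3 _ (fp T h), piT_add, fcalc_pow, ← he]
        exact fcalc_A (L.id R) _ _ _ g _ _ _ ((L.cc R).expo d p K _ _ ((L.cc R).ten _ _) h1)
          (N.ep _))
      hB := fun T h x => (hb _).1 (by
        obtain ⟨n, hn⟩ := piT_nil x
        obtain ⟨g, rfl⟩ := hL.rep T n x hn
        rw [fcalc_pow, htp, q3 T h, p3 _ (fm T h), piT_add, fcalc_pow,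
          ← mapT_pi (eta T) v, ← fcalc_map, ← he]
        exact fcalc_B (L.id R) _ _ _ g _ _ _ ((L.cc R).expo d p K _ _ ((L.cc R).ten _ _) h2)
          (N.em _))
      m1 := fun T x => (congrArg _ (mapT_comp _ _ _).symm).trans (fcalc_I hI _ (hm1 T) x)
      m2 := fun T x => (congrArg _ (mapT_comp _ _ _).symm).trans (fcalc_I hI _ (hm2 T) x)
      m3 := fun T x => by
        have e := (L.st R).tm k _ _ _ (hm2 T)
        rw [map_sub, Tm.map_comp, Tm.map_id] at e
        exact (congrArg _ (mapT_comp _ _ _).symm).trans (fcalc_P hP _ e x)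
      n1 := fun T x => (congrArg _ (mapT_comp _ _ _).symm).trans (fcalc_P hP _ (hn2 T) x)
      t1 := fun T x => (congrArg _ (mapT_comp _ _ _).symm).trans
        (fcalc_I hI _ ((L.st R).tri_p k (FO.ofMd T)) x)
      t2 := fun T x => (congrArg _ (mapT_comp _ _ _).symm).trans
        (fcalc_P hP _ ((L.st R).tri_m k (FO.ofMd T)) x) }
  refine ⟨D.cal, rfl, hv.symm, fun e l n a h => ?_⟩
  have key := fcalc_link D.cal e (hL.fd n) (eT d p n) ((N.a e).app (J k p n).V)
    (if e then W else 1) (fun T hT g => ?_) (N.it e (J k p n).V) rfl (fun _ => rfl) l a h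
  · rw [← hL.coe]
    exact (piT_pow_coe _ _).symm.trans (congrArg Subtype.val key)
  · cases e
    · exact (LinearMap.congr_fun (map_one (aeval _)) _).trans (q3 T hT n g)
    · exact (htp T _).trans (p3 T hT n g)

end Pool.Agent.P.MP_cf639b_al
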