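import Pool.Agent.P.MP_cf639b_al.IfF

set_option linter.dupNamespace false

namespace Pool.Agent.P.MP_cf639b_al

universe u v
open TensorProduct Polynomial Function

section aux
variable {k : Type u} [Field k] {R : Type u} [Ring R] [Algebra k R] {d : Fam R} {p : k} {s0 : ℕ}

/-- the formula generated by a map into `A j N` -/
noncomputable abbrev fdense_pp (hL : Lc d p s0) (Γ : Calc d p) {n : ℕ} {j : ℤ} {N : ℕ}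
    (a : MJ d p n →ₗ[R] Γ.A j N) : PP (MJ d p n) := ⟨Γ.A j N, Γ.ob_fd _ (hL.fd N), a⟩

/-- the data of a member of the dense system -/
structure fdense_Mem (hL : Lc d p s0) (Γ : Calc d p) (s t : ℤ × ℤ) (n y N : ℕ)
    (a : MJ d p n →ₗ[R] Γ.A s.1 N) (φ ψ : PP (MJ d p n)) : Prop where
  sup : ∀ T, φ.ev T = (fdense_pp hL Γ a).ev T ⊔ ψ.ev T
  low : ∀ T : Md k R, T.fd → ∀ b ∈ ψ.ev T, mapT d p b (eT d p n) ∈ Γ.O t y T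
  rep : mapT d p a (eT d p n) = Γ.ep s y N
  out : Γ.ep s y N ∉ Γ.O t y _
  io : ∀ N' ≥ N, mapT d p (Γ.io s.1 N N') (Γ.ep s y N) = Γ.ep s y N'
  sh : ∀ (b : ℕ) (T : Md k R), T.fd → ∀ x : TT d p T,
    (piT d p T ^ b) x ∈ Γ.O t y T ↔ x ∈ Γ.O t (y + b) T

theorem fdense_zero {T T' : Md k R} (x : TT d p T) : mapT d p (0 : T →ₗ[R] T') x = 0 := by
  rw [← sub_self (0 : T →ₗ[R] T'), mapT_sub, sub_self]

theorem fdense_g (hL : Lc d p s0) {T : Md k R} (n b : ℕ) (c : MJ d p (n + b) →ₗ[R] T) :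
    mapT d p (c ∘ₗ mJ d p n (n + b)) (eT d p n) =
      (piT d p T ^ b) (mapT d p c (eT d p (n + b))) := by
  rw [mapT_comp, hL.map, Nat.add_sub_cancel_left, mapT_pi]

theorem fdense_lift (hL : Lc d p s0) {T : Md k R} (n b : ℕ) (a : MJ d p n →ₗ[R] T)
    (x : TT d p T) (hx : (piT d p T ^ b) x = mapT d p a (eT d p n)) :
    ∃ a' : MJ d p (n + b) →ₗ[R] T, a' ∘ₗ mJ d p n (n + b) = a ∧
      mapT d p a' (eT d p (n + b)) = x := by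
  obtain ⟨a1, h1⟩ := hL.rep T (n + b) x (by rw [piT_add, hx, ← mapT_pi, hL.zero, map_zero])
  obtain ⟨a2, h2, h3⟩ := hL.ext T n (n + b) (Nat.le_add_right _ _) (a1 ∘ₗ mJ d p n (n + b) - a)
    (by rw [mapT_sub, fdense_g hL, ← h1, hx, sub_self])
  exact ⟨a1 - a2, by rw [LinearMap.sub_comp, h2, sub_sub_cancel],
    by rw [mapT_sub, h3, sub_zero, ← h1]⟩

theorem fdense_start (hP : S_PP k R) (hL : Lc d p s0) {Γ : Calc d p} {lam : ℤ → ℤ}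
    (hF : LF Γ lam) {s t : ℤ × ℤ} (h : ¬ Pos lam (s - t)) :
    ∃ n y N a φ ψ, fdense_Mem hL Γ s t n y N a φ ψ := by
  obtain ⟨y1, h1⟩ := hF.shift t
  obtain ⟨y2, h2⟩ := hF.mem s t
  obtain ⟨N1, h3⟩ := h2 (y1 + y2) (Nat.le_add_left _ _)
  obtain ⟨N2, h4⟩ := hF.io_ep s (y1 + y2)
  obtain ⟨n, hn⟩ := piT_nil (Γ.ep s (y1 + y2) (N1 + N2))
  obtain ⟨a, ha⟩ := hL.rep _ n _ hn
  obtain ⟨ψ, hψ⟩ := hP.bot (MJ d p n)
  obtain ⟨φ, hφ⟩ := hP.sup _ (fdense_pp hL Γ a) ψ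
  refine ⟨n, y1 + y2, N1 + N2, a, φ, ψ, hφ, fun T _ b hb => ?_, ha.symm,
    fun h' => h ((h3 _ (Nat.le_add_right _ _)).mp h'), h4 _ (Nat.le_add_left _ _),
    h1 _ (Nat.le_add_right _ _)⟩
  rw [hψ, Submodule.mem_bot] at hb
  rw [hb, fdense_zero]
  exact zero_mem _

theorem fdense_split (hP : S_PP k R) (hL : Lc d p s0) {Γ : Calc d p} {lam : ℤ → ℤ}
    (h0 : lam 0 = 0) (hF : LF Γ lam) {s t v : ℤ × ℤ} {n y N : ℕ}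
    {a : MJ d p n →ₗ[R] Γ.A s.1 N} {φ ψ : PP (MJ d p n)} (H : fdense_Mem hL Γ s t n y N a φ ψ)
    (hsv : ¬ Pos lam (s - v)) (hvt : ¬ Pos lam (v - t)) (hvs : Pos lam (v - s))
    (htv : Pos lam (t - v)) :
    ∃ (n' : ℕ) (g : MJ d p n →ₗ[R] MJ d p n') (φ1 ψ1 ψ2 : PP (MJ d p n')),
      (∃ y N a, fdense_Mem hL Γ s v n' y N a φ1 ψ1) ∧
      (∃ y N a, fdense_Mem hL Γ v t n' y N a ψ1 ψ2) ∧
      (∀ T, ∀ x ∈ φ1.ev T, x ∘ₗ g ∈ φ.ev T) ∧ ∀ T x, x ∘ₗ g ∈ ψ.ev T → x ∈ ψ2.ev T := by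
  obtain ⟨y1, e1⟩ := hF.incl t v htv
  obtain ⟨y2, e2⟩ := hF.shift v
  obtain ⟨y3, e3⟩ := hF.shift t
  obtain ⟨y4, e4⟩ := hF.mem s v
  obtain ⟨y5, e5⟩ := hF.mem v t
  obtain ⟨y6, e6⟩ := hF.mem v v
  obtain ⟨b, hb⟩ : ∃ b, y1 + y2 + y3 + y4 + y5 + y6 ≤ b := ⟨_, le_rfl⟩
  obtain ⟨M1, f1⟩ := hF.pi_ep s y b
  obtain ⟨M2, f2⟩ := hF.io_ep s (y + b)
  obtain ⟨M3, f3⟩ := hF.ex v s hvs (y + b)
  obtain ⟨M4, f4⟩ := e4 (y + b) (by omega)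
  obtain ⟨N1, hN1⟩ : ∃ N1, N + M1 + M2 + M3 + M4 ≤ N1 := ⟨_, le_rfl⟩
  obtain ⟨K1, g1⟩ := f3 N1 (by omega)
  obtain ⟨K2, g2⟩ := e5 (y + b) (by omega)
  obtain ⟨K3, g3⟩ := e6 (y + b) (by omega)
  obtain ⟨K4, g4⟩ := hF.io_ep v (y + b)
  obtain ⟨N2, hN2⟩ : ∃ N2, K1 + K2 + K3 + K4 ≤ N2 := ⟨_, le_rfl⟩
  obtain ⟨h, hh⟩ := g1 N2 (by omega)
  obtain ⟨a', k1, k2⟩ := fdense_lift hL n b (Γ.io s.1 N N1 ∘ₗ a) (Γ.ep s (y + b) N1)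
    (by rw [f1 N1 (by omega), mapT_comp, H.rep, H.io N1 (by omega)])
  have k3 : mapT d p (h ∘ₗ a') (eT d p (n + b)) = Γ.ep v (y + b) N2 := by rw [mapT_comp, k2, hh]
  obtain ⟨ψ2, p2⟩ := hP.pull _ _ (hL.fd (n + b)) (mJ d p n (n + b)) ψ
  obtain ⟨ψ1, p1⟩ := hP.sup _ (fdense_pp hL Γ (h ∘ₗ a')) ψ2
  obtain ⟨φ1, p0⟩ := hP.sup _ (fdense_pp hL Γ a') ψ1
  have low : ∀ T : Md k R, T.fd → ∀ x ∈ ψ2.ev T,
      mapT d p x (eT d p (n + b)) ∈ Γ.O t (y + b) T := fun T hT x hx => by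
    rw [← H.sh b T hT, ← fdense_g hL]
    exact H.low T hT _ ((p2 T x).mp hx)
  have up : ∀ (T : Md k R) (c : Γ.A s.1 N1 →ₗ[R] T), (c ∘ₗ a') ∘ₗ mJ d p n (n + b) ∈ φ.ev T :=
    fun T c => by
      rw [LinearMap.comp_assoc, k1, H.sup]
      exact Submodule.mem_sup_left ⟨c ∘ₗ Γ.io s.1 N N1, (LinearMap.comp_assoc _ _ _).symm⟩
  refine ⟨n + b, mJ d p n (n + b), φ1, ψ1, ψ2,
    ⟨y + b, N1, a', p0, fun T hT x hx => ?_, k2, fun h' => hsv ((f4 N1 (by omega)).mp h'),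
      f2 N1 (by omega), e2 _ (by omega)⟩,
    ⟨y + b, N2, h ∘ₗ a', p1, low, k3, fun h' => hvt ((g2 N2 (by omega)).mp h'),
      g4 N2 (by omega), e3 _ (by omega)⟩, fun T x hx => ?_, fun T x hx => (p2 T x).mpr hx⟩
  · rw [p1] at hx
    obtain ⟨_, ⟨c, rfl⟩, z, hz, rfl⟩ := Submodule.mem_sup.mp hx
    rw [mapT_add, mapT_comp, k3]
    refine add_mem (hF.nat v _ _ T (Γ.ob_fd _ (hL.fd N2)) hT c _ ((g3 N2 (by omega)).mpr ?_))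
      (e1 _ (by omega) T hT (low T hT z hz))
    rw [sub_self]
    exact h0.ge
  · rw [p0, p1] at hx
    obtain ⟨_, ⟨c, rfl⟩, w, hw, rfl⟩ := Submodule.mem_sup.mp hx
    obtain ⟨_, ⟨c', rfl⟩, z, hz, rfl⟩ := Submodule.mem_sup.mp hw
    rw [LinearMap.add_comp, LinearMap.add_comp]
    refine add_mem (up T c) (add_mem ?_ ?_)
    · rw [← LinearMap.comp_assoc a' h c']
      exact up T (c' ∘ₗ h)
    rw [H.sup]
    exact Submodule.mem_sup_right ((p2 T z).mp hz)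

end aux

theorem t_DENSE (k : Type u) [Field k] [IsAlgClosed k] (R : Type u) [Ring R] [Algebra k R]
    [FiniteDimensional k R]
    (L : Lib k) :
    S_DENSE k R := by
  rintro d p s0 hL Γ lam c hlam hF ⟨S, ⟨⟨s, t⟩, hst⟩, hS⟩ hND
  refine hND ⟨{π | ∃ s t n y N a φ ψ, (s, t) ∈ S ∧ fdense_Mem hL Γ s t n y N a φ ψ ∧
    π = ⟨MJ d p n, hL.fd n, φ, ψ⟩}, ?_, ?_⟩
  · obtain ⟨n, y, N, a, φ, ψ, H⟩ := fdense_start (L.pp R) hL hF (hS s t hst).1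
    exact ⟨_, s, t, n, y, N, a, φ, ψ, hst, H, rfl⟩
  · rintro _ ⟨s, t, n, y, N, a, φ, ψ, hst, H, rfl⟩
    obtain ⟨-, v, hsv, hvt, hvs, htv⟩ := hS s t hst
    obtain ⟨n', g, φ1, ψ1, ψ2, ⟨y1, N1, a1, H1⟩, ⟨y2, N2, a2, H2⟩, h1, h2⟩ :=
      fdense_split (L.pp R) hL hlam.zero hF H (hS s v hsv).1 (hS v t hvt).1 hvs htv
    refine ⟨fun hle => H.out ?_, fun T => ?_, MJ d p n', hL.fd n', g, φ1, ψ1, ψ1, ψ2,
      ⟨s, v, n', y1, N1, a1, φ1, ψ1, hsv, H1, rfl⟩, ⟨v, t, n', y2, N2, a2, ψ1, ψ2, hvt, H2, rfl⟩,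
      fun _ => le_rfl, h1, fun T x _ hx => h2 T x hx⟩
    · rw [← H.rep]
      refine H.low _ (Γ.ob_fd _ (hL.fd N)) a (hle _ ?_)
      change a ∈ φ.ev _
      rw [H.sup]
      exact Submodule.mem_sup_left ⟨LinearMap.id, rfl⟩
    · change ψ.ev T ≤ φ.ev T
      rw [H.sup]
      exact le_sup_right

end Pool.Agent.P.MP_cf639b_al
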