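import Pool.Agent.P.MP_cf639b_al.IfF

set_option linter.dupNamespace false

namespace Pool.Agent.P.MP_cf639b_al

universe u v
open TensorProduct Polynomial Function

noncomputable section

section
variable {k : Type u} [Field k] {R : Type u} [Ring R] [Algebra k R]
  {S : Type u} [Ring S] [Algebra k S]

/-- the dual module is the dual space -/
def fdualc_E (σ : Anti k R S) (T : Md k R) : Dk σ T ≃ₗ[k] Module.Dual k T where
  toFun h :=
    { toFun := fun t => (h : DT σ (FO.ofMd T)) t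
      map_add' := fun t t' => map_add (h : DT σ (FO.ofMd T)) t t'
      map_smul' := fun c t => by
        rw [← FO.smul_k (FO.ofMd T)]
        exact (DT.lin (σ := σ) (A := FO.ofMd T) h).map_smul c t }
  invFun φ := DT.of σ (A := FO.ofMd T)
    { toFun := fun t => φ t
      map_add' := fun t t' => map_add φ t t'
      map_smul' := fun c t => by
        rw [FO.smul_def, FO.smul_k]
        exact map_smul φ c t }
  map_add' _ _ := rfl
  map_smul' _ _ := rfl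
  left_inv _ := rfl
  right_inv _ := rfl

theorem fdualc_fd (σ : Anti k R S) {T : Md k R} (h : T.fd) : (Dk σ T).fd :=
  Module.Finite.equiv (fdualc_E σ T).symm

theorem fdualc_ext {σ : Anti k R S} {T : Md k R} {h h' : Dk σ T}
    (e : ∀ t, fdualc_E σ T h t = fdualc_E σ T h' t) : h = h' :=
  (fdualc_E σ T).injective (LinearMap.ext e)

/-- evaluation -/
def fdualc_ev (σ : Anti k R S) (τ : Anti k S R) (hτ : ∀ r, σ.e.symm (τ.e.symm r) = r)
    (T : Md k R) : T →ₗ[R] Dk τ (Dk σ T) where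
  toFun t := (fdualc_E τ (Dk σ T)).symm ((fdualc_E σ T).dualMap (Module.Dual.eval k T t))
  map_add' t t' := fdualc_ext fun h => (fdualc_E σ T h).map_add t t'
  map_smul' r t := fdualc_ext fun h => by
    change (h : DT σ (FO.ofMd T)) (r • t) = (h : DT σ (FO.ofMd T)) (σ.e.symm (τ.e.symm r) • t)
    rw [hτ]

theorem fdualc_ev_bij (σ : Anti k R S) (τ : Anti k S R) (hτ : ∀ r, σ.e.symm (τ.e.symm r) = r)
    {T : Md k R} (h : T.fd) : Bijective (fdualc_ev σ τ hτ T) :=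
  ((fdualc_E τ (Dk σ T)).symm.bijective.comp
    ((fdualc_E σ T).dualMap.bijective.comp (Module.bijective_dual_eval k T)) :)

/-- linear maps between spaces of module maps -/
abbrev fdualc_H (A B : Md k R) (C D : Md k S) : Type u := (A →ₗ[R] B) →ₗ[k] (C →ₗ[S] D)

/-- composition of three maps -/
def fdualc_c {A B C D : Md k S} {A' B' C' D' : Md k R} (f : fdualc_H C' D' C D)
    (g : fdualc_H A' B' C' D') (h : fdualc_H A B A' B') : fdualc_H A B C D := f ∘ₗ g ∘ₗ h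

/-- constructor -/
def fdualc_mk {A B : Md k R} {C D : Md k S} (f : (A →ₗ[R] B) → (C →ₗ[S] D))
    (h1 : ∀ g g' x, f (g + g') x = f g x + f g' x) (h2 : ∀ (c : k) g x, f (c • g) x = c • f g x) :
    fdualc_H A B C D where
  toFun := f
  map_add' g g' := LinearMap.ext (h1 g g')
  map_smul' c g := LinearMap.ext (h2 c g)

/-- the dual of a map, linearly -/
def fdualc_L (σ : Anti k R S) (T T' : Md k R) : fdualc_H T T' (Dk σ T') (Dk σ T) :=
  fdualc_mk (Dkm σ) (fun g g' h => fdualc_ext fun t => (fdualc_E σ T' h).map_add (g t) (g' t))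
    fun c g h => fdualc_ext fun t => (fdualc_E σ T' h).map_smul c (g t)

theorem fdualc_comp (σ : Anti k R S) {T T' T'' : Md k R} (g : T' →ₗ[R] T'') (f : T →ₗ[R] T') :
    Dkm σ (g ∘ₗ f) = Dkm σ f ∘ₗ Dkm σ g := rfl

theorem fdualc_id (σ : Anti k R S) (T : Md k R) :
    Dkm σ (LinearMap.id : T →ₗ[R] T) = LinearMap.id := rfl

theorem fdualc_inv {T T' : Md k R} {g : T →ₗ[R] T'} (h : Bijective g) :
    ∃ f : T' →ₗ[R] T, f ∘ₗ g = LinearMap.id ∧ g ∘ₗ f = LinearMap.id :=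
  ⟨(LinearEquiv.ofBijective g h).symm, LinearMap.ext (LinearEquiv.ofBijective g h).symm_apply_apply,
    LinearMap.ext (LinearEquiv.ofBijective g h).apply_symm_apply⟩

theorem fdualc_bij {T T' : Md k R} {g : T →ₗ[R] T'} {f : T' →ₗ[R] T} (h1 : f ∘ₗ g = LinearMap.id)
    (h2 : g ∘ₗ f = LinearMap.id) : Bijective g :=
  ⟨LeftInverse.injective (g := f) (LinearMap.congr_fun h1),
    RightInverse.surjective (g := f) (LinearMap.congr_fun h2)⟩

theorem fdualc_D_bij (σ : Anti k R S) {T T' : Md k R} {g : T →ₗ[R] T'} (h : Bijective g) :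
    Bijective (Dkm σ g) := by
  obtain ⟨f, h1, h2⟩ := fdualc_inv h
  exact fdualc_bij (f := Dkm σ f) (by rw [← fdualc_comp, h2, fdualc_id])
    (by rw [← fdualc_comp, h1, fdualc_id])

theorem fdualc_F_bij (Φ : AFun k R) {T T' : Md k R} {g : T →ₗ[R] T'} (h : Bijective g) :
    Bijective (Φ.map g) := by
  obtain ⟨f, h1, h2⟩ := fdualc_inv h
  exact fdualc_bij (f := Φ.map f) (by rw [← Φ.map_comp, h1, Φ.map_id])
    (by rw [← Φ.map_comp, h2, Φ.map_id])

theorem fdualc_T_bij (d : Fam R) (p : k) {T T' : Md k R} {g : T →ₗ[R] T'} (h : Bijective g) :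
    Bijective (mapT d p g) := by
  obtain ⟨f, h1, h2⟩ := fdualc_inv h
  exact ⟨LeftInverse.injective (g := mapT d p f) fun x => by rw [← mapT_comp, h1, mapT_id],
    RightInverse.surjective (g := mapT d p f) fun x => by rw [← mapT_comp, h2, mapT_id]⟩

/-- the conjugate functor -/
abbrev fdualc_F (σ : Anti k R S) (Φ : AFun k R) : AFun k S where
  obj T := Dk σ (Φ.obj (Dk σ.symm T))
  map := fdualc_c (fdualc_L σ _ _) Φ.map (fdualc_L σ.symm _ _)
  map_id T := by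
    change Dkm σ (Φ.map (Dkm σ.symm (LinearMap.id : T →ₗ[S] T))) = _
    rw [fdualc_id, Φ.map_id, fdualc_id]
  map_comp g f := by
    change Dkm σ (Φ.map (Dkm σ.symm (g ∘ₗ f))) =
      Dkm σ (Φ.map (Dkm σ.symm g)) ∘ₗ Dkm σ (Φ.map (Dkm σ.symm f))
    rw [fdualc_comp, Φ.map_comp, fdualc_comp]

theorem fdualc_adj {X X' Y Y' : Type u} [AddCommGroup X] [Module k X] [AddCommGroup X']
    [Module k X'] [AddCommGroup Y] [Module k Y] [AddCommGroup Y'] [Module k Y']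
    (b : X →ₗ[k] X' →ₗ[k] k) (c : Y →ₗ[k] Y' →ₗ[k] k) (f : Y →ₗ[k] X) :
    ∃ g : X' →ₗ[k] Y', Bijective c.flip → ∀ y x', c y (g x') = b (f y) x' := by
  by_cases h : Bijective c.flip
  · refine ⟨(LinearEquiv.ofBijective _ h).symm.toLinearMap ∘ₗ (b ∘ₗ f).flip, fun _ y x' => ?_⟩
    exact LinearMap.congr_fun ((LinearEquiv.ofBijective _ h).apply_symm_apply _) y
  · exact ⟨0, fun h' => absurd h' h⟩

/-- evaluation for `S`-modules -/
abbrev fdualc_e (σ : Anti k R S) (T : Md k S) : T →ₗ[S] Dk σ (Dk σ.symm T) :=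
  fdualc_ev σ.symm σ (fun r => σ.e.apply_symm_apply r) T

/-- evaluation for `R`-modules -/
abbrev fdualc_e' (σ : Anti k R S) (U : Md k R) : U →ₗ[R] Dk σ.symm (Dk σ U) :=
  fdualc_ev σ σ.symm (fun r => σ.e.symm_apply_apply r) U

variable {σ : Anti k R S} {d : Fam R} {p : k}

/-- the pairing for `S`-modules -/
def fdualc_B (β : Lk σ d p) (T : Md k S) : TT d p (Dk σ.symm T) →ₗ[k] TT (d.op σ) p T →ₗ[k] k :=
  (β.β (Dk σ.symm T)).compl₂ (mapT (d.op σ) p (fdualc_e σ T))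

theorem fdualc_B_def (β : Lk σ d p) (T : Md k S) (x : TT d p (Dk σ.symm T)) (y : TT (d.op σ) p T) :
    fdualc_B β T x y = β.β _ x (mapT (d.op σ) p (fdualc_e σ T) y) := rfl

theorem fdualc_pow (β : Lk σ d p) (U : Md k R) (n : ℕ) (x : TT d p U) (y) :
    β.β U ((piT d p U ^ n) x) y = β.β U x ((piT (d.op σ) p _ ^ n) y) := by
  induction n generalizing y with
  | zero => rfl
  | succ n ih => rw [pow_succ', pow_succ, Module.End.mul_apply, Module.End.mul_apply, β.bal, ih]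

theorem fdualc_B_pow (β : Lk σ d p) (T : Md k S) (n : ℕ) (x) (y) :
    fdualc_B β T ((piT d p _ ^ n) x) y = fdualc_B β T x ((piT (d.op σ) p T ^ n) y) := by
  rw [fdualc_B_def, fdualc_B_def, fdualc_pow, mapT_pi]

theorem fdualc_B_bal (β : Lk σ d p) (T : Md k S) (x) (y) :
    fdualc_B β T (piT d p _ x) y = fdualc_B β T x (piT (d.op σ) p T y) := by
  simpa using fdualc_B_pow β T 1 x y

theorem fdualc_B_nat (β : Lk σ d p) {T T' : Md k S} (g : T →ₗ[S] T') (x) (y) :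
    fdualc_B β T (mapT d p (Dkm σ.symm g) x) y = fdualc_B β T' x (mapT (d.op σ) p g y) := by
  rw [fdualc_B_def, fdualc_B_def, β.nat, ← mapT_comp, ← mapT_comp]
  rfl

theorem fdualc_B_map (β : Lk σ d p) {T : Md k S} {U : Md k R} (θ : T →ₗ[S] Dk σ U) (x) (y) :
    fdualc_B β T (mapT d p (Dkm σ.symm θ ∘ₗ fdualc_e' σ U) x) y =
      β.β U x (mapT (d.op σ) p θ y) := by
  rw [fdualc_B_def, β.nat, ← mapT_comp]
  rfl

theorem fdualc_B_flip {β : Lk σ d p} (h : β.Perf) {T : Md k S} (hT : T.fd) :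
    Bijective (fdualc_B β T).flip :=
  (h _ (fdualc_fd σ.symm hT)).2.2.2.comp (fdualc_T_bij _ p (fdualc_ev_bij _ _ _ hT))

theorem fdualc_inj {β : Lk σ d p} (h : β.Perf) {U : Md k R} (hU : U.fd) {a b}
    (e : ∀ y, β.β U y a = β.β U y b) : a = b := (h U hU).2.2.2.1 (LinearMap.ext e)

theorem fdualc_B_inj {β : Lk σ d p} (h : β.Perf) {T : Md k S} (hT : T.fd) {a b}
    (e : ∀ y, fdualc_B β T y a = fdualc_B β T y b) : a = b :=
  (fdualc_B_flip h hT).1 (LinearMap.ext e)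

theorem fdualc_can (Γ : Calc d p) (f : Bool) (U : Md k R) (hU : U.fd) :
    ∃ (κ : (Γ.Φ (!f)).obj ((Γ.Φ f).obj U) →ₗ[R] U) (κ' : U →ₗ[R] (Γ.Φ (!f)).obj ((Γ.Φ f).obj U)),
      (∀ x, Γ.rt f U (Γ.rt (!f) _ ((piT d p _ ^ (Γ.K + (Γ.v true + Γ.v false))) (mapT d p κ' x))) =
        (piT d p U ^ (Γ.K + (Γ.w + Γ.w))) x) ∧
      ∀ y, Γ.rt f U (Γ.rt (!f) _ ((piT d p _ ^ (Γ.K + (Γ.v true + Γ.v false))) y)) =
        (piT d p U ^ (Γ.K + (Γ.w + Γ.w))) (mapT d p κ y) := by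
  obtain ⟨κ, κ', h⟩ := Γ.can f U hU
  have hV := Γ.fd f U hU
  have r1 := pow_comm_of (Γ.rt f U) (Γ.rt_pi f U hU)
  have r2 := pow_comm_of (Γ.rt (!f) _) (Γ.rt_pi (!f) _ hV)
  have t2 := pow_comm_of (Γ.tr (!f) _) (Γ.tr_pi (!f) _ hV)
  refine ⟨κ, κ', fun x => ?_, fun y => ?_⟩
  · rw [← mapT_pi, ← (h x).2, r2, r1, Γ.rt_tr _ _ hV, r1, Γ.rt_tr _ _ hU, piT_add, piT_add]
  · rw [r2, r1, ← (h _).1, Γ.tr_rt _ _ hU, t2, Γ.tr_rt _ _ hV, ← mapT_pi, piT_add, piT_add]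

theorem fdualc_main (β : Lk σ d p) (hβ : β.Perf) (Γ : Calc d p) :
    ∃ Γ' : Calc (d.op σ) p, (∀ e, Γ'.v e + Γ.v (!e) = Γ.w) ∧ Adj β Γ Γ' := by
  choose tr htr using fun (e : Bool) (T : Md k S) =>
    fdualc_adj (fdualc_B β T) (β.β ((Γ.Φ (!e)).obj (Dk σ.symm T))) (Γ.rt (!e) _)
  choose rt hrt using fun (e : Bool) (T : Md k S) =>
    fdualc_adj (β.β ((Γ.Φ (!e)).obj (Dk σ.symm T))) (fdualc_B β T) (Γ.tr (!e) _)
  have hD : ∀ {T : Md k S}, T.fd → (Dk σ.symm T).fd := fdualc_fd σ.symm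
  have hF : ∀ (e : Bool) {T : Md k S}, T.fd → ((Γ.Φ e).obj (Dk σ.symm T)).fd :=
    fun e _ h => Γ.fd e _ (hD h)
  replace htr := fun e T (h : T.fd) => htr e T (hβ _ (hF (!e) h)).2.2.2
  replace hrt := fun e T (h : T.fd) => hrt e T (fdualc_B_flip hβ h)
  have hv : Γ.K + (Γ.v true + Γ.v false) + (Γ.w - Γ.v (!true) + (Γ.w - Γ.v (!false))) =
      Γ.K + (Γ.w + Γ.w) := by
    have := Γ.hw true
    have := Γ.hw false
    simp only [Bool.not_true, Bool.not_false]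
    omega
  refine ⟨⟨fun e => fdualc_F σ (Γ.Φ (!e)), fun e T h => fdualc_fd σ (hF (!e) h),
    fun e => Γ.w - Γ.v (!e), Γ.w, Γ.K + (Γ.v true + Γ.v false), fun _ => Nat.sub_le _ _, tr, rt,
    fun e T h x => fdualc_inj hβ (hF (!e) h) fun y => ?_,
    fun e T h x => fdualc_B_inj hβ h fun y => ?_,
    fun e T T' h h' g x => fdualc_inj hβ (hF (!e) h') fun y => ?_,
    fun e T T' h h' g x => fdualc_B_inj hβ h' fun y => ?_,
    fun e T h x => fdualc_B_inj hβ h fun y => ?_,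
    fun e T h x => fdualc_inj hβ (hF (!e) h) fun y => ?_, fun e T h => ?_⟩,
    fun e => Nat.sub_add_cancel (Γ.hw _), fun e U T hU hT θ hθ => ?_⟩
  · rw [htr e T h, ← fdualc_B_bal, ← Γ.rt_pi _ _ (hD h), ← htr e T h, β.bal]
  · refine (hrt e T h _ _).trans ((β.bal _ _ _).symm.trans ?_)
    rw [← Γ.tr_pi _ _ (hD h), ← hrt e T h, fdualc_B_bal]
  · rw [htr e T' h', ← fdualc_B_nat, ← Γ.rt_nat _ _ _ (hD h') (hD h), ← htr e T h, β.nat]
    rfl
  · refine (hrt e T' h' _ _).trans ((β.nat _ _ ((Γ.Φ (!e)).map (Dkm σ.symm g)) _ _).symm.trans ?_)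
    rw [← Γ.tr_nat _ _ _ (hD h') (hD h), ← hrt e T h, fdualc_B_nat]
  · rw [hrt e T h, htr e T h, Γ.rt_tr _ _ (hD h), fdualc_B_pow]
  · rw [htr e T h, hrt e T h, Γ.tr_rt _ _ (hD h), fdualc_pow]
  · obtain ⟨κ, κ', h1, h2⟩ := fdualc_can Γ (!e) _ (hD h)
    have hV := hF (!e) h
    have hV' := fdualc_fd σ hV
    obtain ⟨i, i1, i2⟩ := fdualc_inv (fdualc_ev_bij σ.symm σ (fun r => σ.e.apply_symm_apply r) h)
    obtain ⟨j, j1, j2⟩ := fdualc_inv (fdualc_ev_bij σ σ.symm (fun r => σ.e.symm_apply_apply r) hV)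
    have key : ∀ (n : ℕ) y x, β.β _ (mapT d p ((Γ.Φ (!!e)).map (fdualc_e' σ _)) y)
        ((piT (d.op σ) p _ ^ n) (tr (!e) _ (tr e T x))) =
        fdualc_B β T (Γ.rt (!e) _ (Γ.rt (!!e) _ ((piT d p _ ^ n) y))) x := by
      intro n y x
      rw [← fdualc_pow, ← mapT_pi, htr _ _ hV', Γ.rt_nat _ _ _ hV (hD hV'), ← htr e T h]
      exact (fdualc_B_map β LinearMap.id _ _).trans (by rw [mapT_id])
    refine ⟨i ∘ₗ Dkm σ ((Γ.Φ (!!e)).map (fdualc_e' σ _) ∘ₗ κ'),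
      Dkm σ (κ ∘ₗ (Γ.Φ (!!e)).map j) ∘ₗ fdualc_e σ T, fun x => ⟨fdualc_B_inj hβ h fun y => ?_,
        fdualc_inj hβ (hF (!!e) hV') fun y => ?_⟩⟩
    · rw [hv, ← fdualc_B_pow, ← h1, ← key, ← mapT_comp, β.nat, fdualc_B_def, ← mapT_comp,
        ← LinearMap.comp_assoc, i2]
      rfl
    · have hy : y = mapT d p ((Γ.Φ (!!e)).map (fdualc_e' σ _)) (mapT d p ((Γ.Φ (!!e)).map j) y) := by
        rw [← mapT_comp, ← AFun.map_comp, j2, AFun.map_id, mapT_id]
      refine (congrArg (fun z => β.β _ z _) hy).trans ((key _ _ _).trans ?_)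
      rw [h2, fdualc_B_pow, hv, ← mapT_comp, fdualc_B_def, β.nat, ← mapT_comp]
  · refine ⟨Dkm σ ((Γ.Φ (!e)).map (Dkm σ.symm θ ∘ₗ fdualc_e' σ U)), fdualc_D_bij σ
      (fdualc_F_bij _ ((fdualc_D_bij σ.symm hθ).comp (fdualc_ev_bij _ _ _ hU))), fun y x => ?_⟩
    refine (β.nat _ _ _ _ _).symm.trans ((htr e T hT _ _).trans ?_)
    rw [Γ.rt_nat _ _ _ hU (hD hT), fdualc_B_map]

end

end

theorem t_DUALC (k : Type u) [Field k] [IsAlgClosed k] (R : Type u) [Ring R] [Algebra k R]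
    [FiniteDimensional k R]
    (L : Lib k) :
    S_DUALC k R :=
  fun _ _ _ _ _ _ _ β hβ Γ => fdualc_main β hβ Γ

end Pool.Agent.P.MP_cf639b_al
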