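import Pool.Agent.P.MP_cf639b_al.IfF

set_option linter.dupNamespace false

namespace Pool.Agent.P.MP_cf639b_al

universe u v
open TensorProduct Polynomial Function

theorem flam_ari (Z : ℕ → ℕ → Prop) (B : ℕ) (h0 : Z 0 0)
    (hs : ∀ N a, Z N a → Z (N + 1) (a + 1)) (hm : ∀ N a b, a ≤ b → Z N a → Z N b)
    (hb : ∀ N a, Z N a → N ≤ a + B) :
    ∃ L N0 : ℕ, (∀ N a, Z N a → N ≤ a + L) ∧ ∀ N ≥ N0, ∀ a, N ≤ a + L → Z N a := by
  classical
  obtain ⟨a0, ha0⟩ : ∃ a, Z (a + Nat.findGreatest (fun l => ∃ a, Z (a + l) a) B) a :=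
    Nat.findGreatest_spec (P := fun l => ∃ a, Z (a + l) a) (Nat.zero_le B) ⟨0, h0⟩
  set L := Nat.findGreatest (fun l => ∃ a, Z (a + l) a) B with hL
  refine ⟨L, a0 + L, fun N a h => ?_, fun N hN a ha => ?_⟩
  · by_contra hc
    have h1 := hb N a h
    have h2 : N - a ≤ L := Nat.le_findGreatest (P := fun l => ∃ a, Z (a + l) a) (by omega)
      ⟨a, by rwa [show a + (N - a) = N by omega]⟩
    omega
  · have h1 : ∀ n, Z (a0 + L + n) (a0 + n) := fun n => by
      induction n with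
      | zero => exact ha0
      | succ n ih => exact hs _ _ ih
    obtain ⟨n, rfl⟩ := Nat.exists_eq_add_of_le hN
    exact hm _ _ _ (by omega) (h1 n)

section aux
variable {k : Type u} [Field k] {R : Type u} [Ring R] [Algebra k R] {d : Fam R} {p : k} {s : ℕ}

/-- the pointed module `e(N)` -/
noncomputable abbrev flam_E (h : Lc d p s) (N : ℕ) : Pt d p PUnit := Pt.el (h.fd N) (eT d p N)

theorem flam_ex (h : Lc d p s) (Γ : Calc d p) (u : List Bool) :
    ∃ L N0 : ℕ, (∀ N a, (Γ.trs u (flam_E h N)).nil a → N ≤ a + L) ∧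
      ∀ N ≥ N0, ∀ a, N ≤ a + L → (Γ.trs u (flam_E h N)).nil a := by
  refine flam_ari (fun N a => (Γ.trs u (flam_E h N)).nil a) (u.length * Γ.w + s)
    (Γ.trs_nil' u fun _ => h.zero 0) (fun N a ha => ?_) (fun N a b => Pt.nil_mono) fun N a ha => ?_
  · have h1 : Arr (flam_E h N) ((flam_E h (N + 1)).pi 1) := ⟨mJ d p N (N + 1), fun _ => by
      have := h.map N (N + 1)
      rwa [Nat.add_sub_cancel_left] at this⟩
    have h2 := (Γ.trs_arr u h1).nil ha
    rwa [Γ.trs_pi, Pt.nil_pi] at h2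
  · have h1 := congrArg (Γ.rtL u (MJ d p N)) (ha PUnit.unit)
    rw [Γ.rtL_pi u (h.fd N), map_zero, Γ.rtL_trL u (h.fd N), ← piT_add] at h1
    have := h.oe N _ h1
    omega

theorem flam_ub (h : Lc d p s) (Γ : Calc d p) (u : List Bool) {n a : ℕ}
    (hn : (Γ.trs u (flam_E h n)).nil a) (x : Pt d p PUnit) (hx : x.nil n) : (Γ.trs u x).nil a := by
  obtain ⟨g, hg⟩ := h.rep x.T n (x.t PUnit.unit) (hx _)
  exact (Γ.trs_arr u (show Arr (flam_E h n) x from ⟨g, fun _ => hg.symm⟩)).nil hn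
end aux

theorem t_LAM (k : Type u) [Field k] [IsAlgClosed k] (R : Type u) [Ring R] [Algebra k R]
    [FiniteDimensional k R]
    (hWR : S_WR k R) :
    S_LAM k R := by
  intro d p s h Γ
  choose L N0 h1 h2 using flam_ex h Γ
  have w1 : ∀ u u', wt u = wt u' → Γ.D u' + L u ≤ Γ.D u + L u' := fun u u' e => by
    have k1 := (hWR d p Γ PUnit (flam_E h (N0 u + (Γ.K + Γ.D u') + L u)) u u' e).nil
      (a := N0 u) ((Pt.nil_pi _ _ _).2 (h2 u _ (by omega) _ le_rfl))
    have k2 := h1 u' _ _ ((Pt.nil_pi _ _ _).1 k1)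
    omega
  have w2 : ∀ u, (L (wd (wt u)) : ℤ) - Γ.D (wd (wt u)) = L u - Γ.D u := fun u => by
    have := w1 u _ (wt_wd _).symm
    have := w1 _ u (wt_wd _)
    omega
  have w3 : ∀ u u', L u + L u' ≤ L (u ++ u') := fun u u' => by
    have k1 := h2 u (N0 u + N0 u' + L u' + L u) (by omega) _ le_rfl
    have k2 := flam_ub h Γ u' (h2 u' (N0 u + N0 u' + L u') (by omega) _ le_rfl) _ k1
    rw [← Γ.trs_append] at k2
    have := h1 _ _ _ k2
    omega
  have w4 : ∀ i j, (L (wd (i + j)) : ℤ) - Γ.D (wd (i + j)) =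
      L (wd i ++ wd j) - Γ.D (wd i) - Γ.D (wd j) := fun i j => by
    have k1 := w2 (wd i ++ wd j)
    rw [wt_append, wt_wd, wt_wd, Γ.D_append] at k1
    omega
  have w5 : L [] = 0 := by
    have := w3 [] []
    rw [List.append_nil] at this
    omega
  refine ⟨fun j => L (wd j) - Γ.D (wd j), fun u => ⟨N0 u, fun N hN a => ?_⟩,
    fun u => ⟨N0 u, fun T hT x n a hn ha hx => ?_⟩, fun i j => ?_, ?_, fun j => ?_⟩
  · rw [w2]
    refine ⟨fun k1 => ?_, fun k1 => h2 u N hN a (by omega) PUnit.unit⟩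
    have := h1 u N a fun _ => k1
    omega
  · rw [w2] at ha
    exact flam_ub h Γ u (h2 u n hn a (by omega)) (Pt.el hT x) (fun _ => hx) PUnit.unit
  · have := w3 (wd i) (wd j)
    rw [w4]
    omega
  · simp [wd_zero, w5, Γ.D_nil]
  · have k0 := w4 j (-j)
    rw [add_neg_cancel, wd_zero, w5, Γ.D_nil] at k0
    set w := wd j
    set w' := wd (-j)
    set N := N0 (w ++ w') + s + L (w ++ w') with hN
    have k1 := h2 (w ++ w') N (by omega) _ le_rfl
    rw [Γ.trs_append, ← Pt.nil_pi, ← Γ.trs_pi] at k1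
    obtain ⟨N', k2⟩ := h.sw _ (Γ.trs w (flam_E h N)).fd ((Γ.trs w (flam_E h N)).t PUnit.unit)
    obtain ⟨c, g, k3, k4⟩ := k2 N' le_rfl
    have k5 := (Γ.trs_arr w' (show Arr ((Γ.trs w (flam_E h N)).pi s) ((flam_E h N').pi c) from
      ⟨g, fun _ => k3⟩)).nil k1
    rw [Γ.trs_pi, Pt.nil_pi] at k5
    have k6 := h1 _ _ _ k5
    have k7 := h1 w N _ fun _ => k4 (N0 (w ++ w') + L w') (piT_mono (by omega) (h.zero N'))
    omega

end Pool.Agent.P.MP_cf639b_al
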