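import Pool.Agent.P.MP_cf639b_al.IfF

set_option linter.dupNamespace false

namespace Pool.Agent.P.MP_cf639b_al

universe u v
open TensorProduct Polynomial Function

section
variable {k : Type u} [Field k] {R : Type u} [Ring R] [Algebra k R]

theorem flc_aeval (q p z : k[X]) :
    aeval (LinearMap.mulLeft k (Qmk q X)) p (Qmk q z) = Qmk q (p * z) := by
  have e : LinearMap.mulLeft k (Qmk q X) =
      ((Algebra.lmul k (QT q)).comp (Ideal.Quotient.mkₐ k (Ideal.span {q}))) X := rfl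
  rw [e, aeval_algHom_apply, aeval_X_left_apply, map_mul]
  rfl

theorem flc_mul {W : Type u} [AddCommGroup W] [Module k W] (A : Module.End k W) (p q : k[X])
    (u : W) : aeval A (p * q) u = aeval A p (aeval A q u) := by
  rw [map_mul]
  rfl

theorem flc_cop {y : k} {U : k[X]} (h : ¬ X - C y ∣ U) (n : ℕ) : IsCoprime ((X - C y) ^ n) U :=
  ((irreducible_X_sub_C y).coprime_iff_not_dvd.2 h).pow_left

theorem flc_cyc {W : Type u} [AddCommGroup W] [Module k W] {π : Module.End k W} {a : ℕ} {x y : W}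
    (hy : y ∈ Cyc π a x) : π y ∈ Cyc π a x := by
  refine (Submodule.span_le.mpr (show _ ⊆ ((Cyc π a x).comap π : Set W) from ?_)) hy
  rintro _ ⟨r, rfl⟩
  exact Submodule.subset_span ⟨r + 1, by
    simp only [← add_assoc, pow_succ', Module.End.mul_apply]⟩

/-- every polynomial multiple of a torsion element lies in its cyclic span -/
theorem flc_pol {d : Fam R} {p : k} {T : Md k R} (x : TT d p T) (h : k[X]) :
    ∃ y ∈ Cyc (piT d p T) 0 x, y.1 = aeval (EX d T) h x.1 := by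
  induction h using Polynomial.induction_on with
  | C a =>
    refine ⟨a • x, Submodule.smul_mem _ _ (Submodule.subset_span ⟨0, rfl⟩), ?_⟩
    simp [Algebra.algebraMap_eq_smul_one]
  | add f g hf hg =>
    obtain ⟨y, h1, h2⟩ := hf
    obtain ⟨z, h3, h4⟩ := hg
    exact ⟨y + z, add_mem h1 h3, by rw [map_add, LinearMap.add_apply, ← h2, ← h4]; rfl⟩
  | monomial n a ih =>
    obtain ⟨y, h1, h2⟩ := ih
    refine ⟨piT d p T y + p • y, add_mem (flc_cyc h1) (Submodule.smul_mem _ _ h1), ?_⟩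
    rw [pow_succ, ← mul_assoc, mul_comm, flc_mul, ← h2, aeval_X, Submodule.coe_add, piT_coe]
    simp [piK]

theorem flc_comp (d : Fam R) (p : k) {n m l : ℕ} (h1 : n ≤ m) (h2 : m ≤ l) :
    mJ d p m l ∘ₗ mJ d p n m = mJ d p n l := by
  rw [← (MN d).map_comp]
  refine congrArg _ (Subtype.ext (LinearMap.ext fun z => ?_))
  obtain ⟨q, rfl⟩ := Ideal.Quotient.mk_surjective z
  change jmL k p m l (jmL k p n m (Jmk p n q)) = jmL k p n l (Jmk p n q)
  rw [jmL_mk, jmL_mk, jmL_mk, ← mul_assoc, ← pow_add, show l - m + (m - n) = l - n by omega]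

variable [FiniteDimensional k R] (L : Lib k) (d : Fam R) (p : k)
include L

theorem flc_pik (T : Md k R) (n : ℕ) :
    piK d p T ^ n = aeval (EX d T) ((X - C p : k[X]) ^ n) := by
  rw [(L.bock R).piK_pol, map_pow]

theorem flc_piE (A : FO k R k) : piE d A p = piK d p A.X := (L.bock R).piE_k k d p A

theorem flc_zero (N : ℕ) : (piK d p (MJ d p N) ^ N) (eJ d p N) = 0 := by
  have := (L.bock R).ej_zero k d p N
  rwa [flc_piE L] at this

theorem flc_coe (N : ℕ) : (eT d p N).1 = eJ d p N := by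
  rw [eT, dif_pos ⟨N, flc_zero L d p N⟩]

theorem flc_bock (N : ℕ) (c : k[X]) :
    Bock d (J k p N).V LinearMap.id (Jmk p N c) = aeval (EX d (MJ d p N)) c (eJ d p N) := by
  rw [eJ, ← (L.bock R).pol]
  exact congrArg _ ((flc_aeval _ c 1).trans (by rw [mul_one])).symm

theorem flc_emap (N : ℕ) (c : k[X]) :
    Emap d ((MN d).map (XH.pol (J k p N).V c)) (eJ d p N) =
      aeval (EX d (MJ d p N)) c (eJ d p N) := by
  rw [eJ, ← (L.bock R).pol, ← (L.bock R).eq]
  exact (L.bock R).map d _ _ _ LinearMap.id (XH.pol _ c) _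

theorem flc_acc {T : Md k R} (hT : T.fd) (W : ℕ → Submodule k (EE d T)) (hW : Monotone W)
    (h : ∀ n, ∀ u ∈ W n, piK d p T u ∈ W n) : ∃ n0, ∀ n ≥ n0, W n = W n0 := by
  let W' : ℕ → @Submodule k (EE d T) _ _ (EE.moduleF d (FO.ofMd T)) := fun n =>
    @Submodule.mk k (EE d T) _ _ (EE.moduleF d (FO.ofMd T)) (W n).toAddSubmonoid (by
      intro c u hu
      have e : (FO.ofMd T).act c = c • LinearMap.id := LinearMap.ext fun t => FO.smul_k _ c t
      change Emap d ((FO.ofMd T).act c) u ∈ W n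
      rw [e, map_smul, Emap_id]
      exact (W n).smul_mem c hu)
  obtain ⟨n0, h0⟩ := (L.noe R).acc k d (FO.ofMd T) (((L.fd R).ofk _).2 hT) W'
    (fun a b hab u hu => hW hab hu) (fun n u hu => by
      have e : EX d T u = piK d p T u + p • u := by simp [piK]
      change EX d T u ∈ W n
      rw [e]
      exact add_mem (h n u hu) ((W n).smul_mem p hu))
  refine ⟨n0, fun n hn => Submodule.ext fun u => ?_⟩
  change u ∈ W' n ↔ u ∈ W' n0
  rw [h0 n hn]

theorem flc_l0 {g : k[X]} (g0 : g ≠ 0)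
    (hg : ∀ (V : XV k) (u : EE d (M d V)) (h : k[X]), h ≠ 0 →
      aeval (EX d (M d V)) h u = 0 → ∃ v : V, aeval (EX d (M d V)) g u = Bock d V LinearMap.id v)
    {s : ℕ} (hs : rootMultiplicity p g ≤ s) (N : ℕ) {x : EE d (MJ d p N)}
    (hx : Trs (piK d p _) x) :
    ∃ c : k[X], (piK d p _ ^ s) x = aeval (EX d (MJ d p N)) c (eJ d p N) := by
  obtain ⟨n, hn⟩ := hx
  rw [flc_pik L] at hn
  obtain ⟨v, hv⟩ := hg _ x _ (pow_ne_zero n (X_sub_C_ne_zero p)) hn
  obtain ⟨v, rfl⟩ := Ideal.Quotient.mk_surjective v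
  obtain ⟨U, e, hU⟩ := exists_eq_pow_rootMultiplicity_mul_and_not_dvd g g0 p
  generalize rootMultiplicity p g = r at e hs
  obtain ⟨j, rfl⟩ := Nat.exists_eq_add_of_le' hs
  obtain ⟨a, b, hab⟩ := flc_cop hU n
  refine ⟨(X - C p) ^ j * b * v, ?_⟩
  have e2 : (X - C p) ^ (j + r) =
      (X - C p) ^ (j + r) * a * (X - C p) ^ n + (X - C p) ^ j * b * g := by
    rw [e]
    linear_combination (-(X - C p) ^ (j + r)) * hab
  rw [flc_pik L, e2, map_add, LinearMap.add_apply, flc_mul _ _ (_ ^ n), hn, map_zero, zero_add,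
    flc_mul _ _ g, flc_mul _ _ v, hv]
  exact congrArg _ (flc_bock L d p N v)

theorem flc_oe (H : NTh k R d) (N a : ℕ) (h : (piK d p (MJ d p N) ^ a) (eJ d p N) = 0) :
    N ≤ a + rootMultiplicity p H.c := by
  by_contra hn
  have e1 := (L.bock R).hat_pol d (J k p N).V _ (H.th.app _) ((X - C p) ^ a) (eJ d p N)
  rw [← flc_pik L, h, map_zero, eJ, H.ev] at e1
  have e2 := e1.trans ((congrArg _ (flc_aeval _ H.c 1)).trans (flc_aeval _ _ _))
  rw [eq_comm, Ideal.Quotient.eq_zero_iff_mem, Ideal.mem_span_singleton, mul_one] at e2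
  refine pow_rootMultiplicity_not_dvd H.hc p
    ((mul_dvd_mul_iff_left (pow_ne_zero a (X_sub_C_ne_zero p))).1 (dvd_trans ?_ e2))
  rw [← pow_add]
  exact pow_dvd_pow _ (by omega)

theorem flc_hat (H : NTh k R d) {s : ℕ} (hs : Expo d p s H.Q') (V : XV k) {T : Md k R}
    (b : T →ₗ[R] Y d V) {u : EE d T} (hu : Trs (piK d p T) u) :
    aeval V.x ((X - C p : k[X]) ^ s) (hat d V (H.th.app V) (Emap d (H.th'.app V ∘ₗ b) u)) =
      aeval V.x ((X - C p : k[X]) ^ s) (aeval V.x H.h (hat d V b u)) := by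
  obtain ⟨n, hn⟩ := hu
  have e1 := (L.cc R).expo d p s _ _ ((L.cc R).ten H.Q' V) hs (Emap d (H.a'.app V ∘ₗ b) u)
    ⟨n, by rw [← (L.bock R).emap_piK, hn, map_zero]⟩
  rw [← (L.bock R).hat_comp, ← LinearMap.comp_assoc, H.eY, LinearMap.add_comp,
    (L.bock R).hat_add, LinearMap.add_apply, (L.bock R).hat_map, LinearMap.comp_assoc,
    (L.bock R).hat_comp, map_add, ← (L.bock R).hat_pol d V _ (H.b'.app V), ← flc_pik L, e1,
    map_zero, add_zero]
  rfl

theorem flc_emb (H : NTh k R d) {s : ℕ} (hs : Expo d p s H.Q') {T : Md k R} (hT : T.fd) {N : ℕ}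
    (hN : Expo d p N T) {x : EE d T} (hx : Trs (piK d p T) x) :
    ∃ g : T →ₗ[R] MJ d p N, ∀ m : ℕ, (piK d p _ ^ m) (Emap d g x) = 0 →
      (piK d p T ^ (m + (s + rootMultiplicity p H.h))) x = 0 := by
  obtain ⟨b, -, hb⟩ := L.co R k d (FO.ofMd T) (((L.fd R).ofk _).2 hT) p N
    (by rw [flc_piE L]; exact hN) x (by rw [flc_piE L]; exact hx)
  rw [flc_piE L] at hb
  refine ⟨H.th'.app _ ∘ₗ b, fun m hm => (hb _).1 ?_⟩
  obtain ⟨β, hβ⟩ := Ideal.Quotient.mk_surjective (hat d (J k p N).V b x : JT p N)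
  have e1 := flc_hat L d p H hs (J k p N).V b hx
  have e2 := (L.bock R).hat_pol d (J k p N).V _ (H.th.app _) ((X - C p) ^ m)
    (Emap d (H.th'.app _ ∘ₗ b) x)
  rw [← flc_pik L, hm, map_zero] at e2
  have e3 := congrArg (aeval (J k p N).V.x ((X - C p : k[X]) ^ m)) e1
  rw [← flc_mul, mul_comm, flc_mul, ← e2, map_zero, ← hβ] at e3
  have e4 := e3.trans ((congrArg _ ((congrArg _ (flc_aeval _ H.h β)).trans
    (flc_aeval _ _ _))).trans (flc_aeval _ _ _))
  rw [eq_comm, Ideal.Quotient.eq_zero_iff_mem, Ideal.mem_span_singleton] at e4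
  obtain ⟨U, e, hU⟩ := exists_eq_pow_rootMultiplicity_mul_and_not_dvd H.h H.hh p
  generalize rootMultiplicity p H.h = r at e ⊢
  rw [← hβ, ← map_mul, Ideal.Quotient.eq_zero_iff_mem, Ideal.mem_span_singleton]
  refine (flc_cop hU N).dvd_of_dvd_mul_right (e4.trans (dvd_of_eq ?_))
  rw [e]
  ring

theorem flc_sw {T : Md k R} {N s w : ℕ} (hw : w ≤ s) (x : TT d p T) (g : T →ₗ[R] MJ d p N)
    (hg : ∀ m : ℕ, (piK d p _ ^ m) (Emap d g x.1) = 0 → (piK d p T ^ (m + w)) x.1 = 0) (c : k[X])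
    (hc : (piK d p _ ^ s) (Emap d g x.1) = aeval (EX d (MJ d p N)) c (eJ d p N)) :
    ∃ (c : ℕ) (g : T →ₗ[R] MJ d p N),
      mapT d p g ((piT d p T ^ s) x) = (piT d p _ ^ c) (eT d p N) ∧
      ∀ a, (piT d p _ ^ (a + c)) (eT d p N) = 0 → (piT d p T ^ (a + 2 * s)) x = 0 := by
  have key : ∀ a, (piK d p _ ^ (a + s)) (Emap d g x.1) = 0 → (piT d p T ^ (a + 2 * s)) x = 0 :=
    fun a ha => piT_mono (a := a + s + w) (by omega)
      (Subtype.ext (by rw [piT_pow_coe]; exact hg _ ha))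
  by_cases c0 : c = 0
  · rw [c0, map_zero, LinearMap.zero_apply] at hc
    refine ⟨N, g, Subtype.ext ?_, fun a _ => key a ?_⟩
    · rw [mapT_coe, piT_pow_coe, piT_pow_coe, Emap_piK_pow, hc, flc_coe L, flc_zero L]
    · rw [pow_add, Module.End.mul_apply, hc, map_zero]
  obtain ⟨U, e, hU⟩ := exists_eq_pow_rootMultiplicity_mul_and_not_dvd c c0 p
  generalize rootMultiplicity p c = r at e
  obtain ⟨a, b, hab⟩ := flc_cop hU N
  refine ⟨r, (MN d).map (XH.pol (J k p N).V b) ∘ₗ g, Subtype.ext ?_, fun a ha => key a ?_⟩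
  · have e2 : c * b = (X - C p) ^ r - (X - C p) ^ r * a * (X - C p) ^ N := by
      rw [e]
      linear_combination (X - C p) ^ r * hab
    have z := flc_zero L d p N
    rw [flc_pik L] at z
    rw [mapT_coe, piT_pow_coe, piT_pow_coe, Emap_comp, LinearMap.comp_apply, Emap_piK_pow, hc,
      (L.bock R).emap_pol, flc_emap L, flc_coe L, ← flc_mul, e2, map_sub, LinearMap.sub_apply,
      flc_mul _ _ (_ ^ N), z, map_zero, sub_zero, flc_pik L]
  · have e2 : (X - C p) ^ a * c = U * (X - C p) ^ (a + r) := by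
      rw [e]
      ring
    have z := congrArg Subtype.val ha
    rw [piT_pow_coe, flc_coe L, flc_pik L] at z
    rw [pow_add, Module.End.mul_apply, hc, flc_pik L, ← flc_mul, e2, flc_mul, z]
    exact map_zero _

end

theorem t_LC (k : Type u) [Field k] [IsAlgClosed k] (R : Type u) [Ring R] [Algebra k R]
    [FiniteDimensional k R]
    (L : Lib k)
    (hNTH : S_NTH k R)
    (hL0 : S_L0 k R) :
    S_LC k R := by
  intro d K _ _ t ht ck p
  obtain ⟨H⟩ := hNTH d K t ht ck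
  obtain ⟨g, g0, hg⟩ := hL0 d K t ht ck
  obtain ⟨s1, hs1⟩ := (L.noe R).expok d H.Q' H.fd' p
  refine ⟨rootMultiplicity p g + (s1 + rootMultiplicity p H.h) + rootMultiplicity p H.c,
    fun N => ?_, flc_coe L d p, fun N => Subtype.ext ?_, fun n m => Subtype.ext ?_,
    fun n m l => flc_comp d p, fun T n x hx => ?_, fun T n m hnm a ha => ?_, fun T hT => ?_,
    fun T hT => flc_acc L d p hT, fun N x => ?_, fun N a ha => ?_, fun T hT x => ?_⟩
  · exact ((L.fd R).ofk (MF d (J k p N))).1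
      ((L.fd R).m k d _ ((L.fd R).jq k _ (Jmonic p N)).1)
  · rw [piT_pow_coe, flc_coe L]
    exact flc_zero L d p N
  · rw [mapT_coe, piT_pow_coe, flc_coe L, flc_coe L, ← flc_piE L d p (MF d (J k p m))]
    exact (L.bock R).ej_map k d p n m
  · obtain ⟨a, ha⟩ := (L.rep R).repk d T p n x.1 (by rw [← piT_pow_coe, hx]; rfl)
    exact ⟨a, Subtype.ext (by rw [mapT_coe, flc_coe L]; exact ha)⟩
  · have h1 := congrArg Subtype.val ha
    rw [mapT_coe, flc_coe L] at h1
    obtain ⟨a', -, h2, h3⟩ := (L.rep R).ext k d (FO.ofMd T) p n m hnm a (mem_HomF_k _)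
      (((L.bock R).eq d _ _ a _).trans h1)
    refine ⟨a', h2, Subtype.ext ?_⟩
    rw [mapT_coe, flc_coe L]
    exact ((L.bock R).eq d _ _ a' _).symm.trans (LinearMap.congr_fun h3 _)
  · obtain ⟨a, ha⟩ := (L.noe R).expok d T hT p
    exact ⟨a, fun x => Subtype.ext (by rw [piT_pow_coe]; exact ha x.1 x.2)⟩
  · obtain ⟨c, hc⟩ := flc_l0 L d p g0 hg (s := rootMultiplicity p g +
      (s1 + rootMultiplicity p H.h) + rootMultiplicity p H.c) (by omega) N x.2
    obtain ⟨y, h1, h2⟩ := flc_pol (eT d p N) c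
    rw [flc_coe L, ← hc, ← piT_pow_coe] at h2
    exact Subtype.ext h2 ▸ h1
  · have h1 := congrArg Subtype.val ha
    rw [piT_pow_coe, flc_coe L] at h1
    have := flc_oe L d p H N a h1
    omega
  · obtain ⟨N0, h0⟩ := (L.noe R).expok d T hT p
    refine ⟨N0, fun N hN => ?_⟩
    obtain ⟨g1, h1⟩ := flc_emb L d p H hs1 hT ((L.noe R).expo_mono d p T _ _ hN h0) x.2
    obtain ⟨c, hc⟩ := flc_l0 L d p g0 hg (s := rootMultiplicity p g +
      (s1 + rootMultiplicity p H.h) + rootMultiplicity p H.c) (by omega) N (mapT d p g1 x).2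
    exact flc_sw L d p (by omega) x g1 h1 c hc

end Pool.Agent.P.MP_cf639b_al
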