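import Pool.Agent.P.MP_cf639b_al.Iface

set_option linter.dupNamespace false

namespace Pool.Agent.P.MP_cf639b_al

universe u v
open TensorProduct Polynomial Function

section aux
variable {k : Type u} [Field k] {R : Type u} [Ring R] [Algebra k R]

/-- the submodule over the endomorphism ring is defined by a pp-formula -/
def flen_Def (N : Md k R) (W : Submodule (Module.End R N) N) (φ : PP (reg k R)) : Prop :=
  ∀ b : reg k R →ₗ[R] N, b ∈ φ.ev N ↔ b (1 : R) ∈ W

theorem flen_ext {N : Md k R} {b b' : reg k R →ₗ[R] N} (h : b (1 : R) = b' (1 : R)) : b = b' :=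
  LinearMap.ext_ring h

theorem flen_surj {N : Md k R} (t : N) : ∃ b : reg k R →ₗ[R] N, b (1 : R) = t :=
  ⟨LinearMap.toSpanSingleton R N t, one_smul R t⟩

theorem flen_lt {N : Md k R} {W W' : Submodule (Module.End R N) N} {φ φ' : PP (reg k R)}
    (h : flen_Def N W φ) (h' : flen_Def N W' φ') (hW : W < W') : φ.ev N < φ'.ev N := by
  obtain ⟨t, ht', ht⟩ := SetLike.exists_of_lt hW
  obtain ⟨b, rfl⟩ := flen_surj t
  exact SetLike.lt_iff_le_and_exists.2
    ⟨fun c hc => (h' c).2 (hW.le ((h c).1 hc)), b, (h' b).2 ht', fun hb => ht ((h b).1 hb)⟩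

variable [FiniteDimensional k R]

theorem flen_sup (P : S_PP k R) {N : Md k R} {W W' : Submodule (Module.End R N) N}
    {φ φ' : PP (reg k R)} (h : flen_Def N W φ) (h' : flen_Def N W' φ') :
    ∃ χ, flen_Def N (W ⊔ W') χ := by
  obtain ⟨χ, hχ⟩ := P.sup _ φ φ'
  refine ⟨χ, fun b => ?_⟩
  rw [hχ, Submodule.mem_sup, Submodule.mem_sup]
  constructor
  · rintro ⟨c, hc, c', hc', rfl⟩
    exact ⟨_, (h c).1 hc, _, (h' c').1 hc', rfl⟩
  · rintro ⟨t, ht, t', ht', e⟩
    obtain ⟨c, rfl⟩ := flen_surj t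
    obtain ⟨c', rfl⟩ := flen_surj t'
    exact ⟨c, (h c).2 ht, c', (h' c').2 ht', flen_ext e⟩

theorem flen_one (P : S_PP k R) (hC : S_COMP k R) {N : Md k R} (hN : DCC N) (t : N) :
    ∃ φ, flen_Def N (Submodule.span (Module.End R N) {t}) φ := by
  have hU : (reg k R).fd := inferInstanceAs (Module.Finite k R)
  obtain ⟨a, rfl⟩ := flen_surj t
  have wf : WellFounded fun φ ψ : PP (reg k R) => φ.ev N < ψ.ev N :=
    wellFounded_iff_isEmpty_descending_chain.2
      ⟨fun f => hN ⟨f.1, strictAnti_nat_of_succ_lt f.2⟩⟩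
  obtain ⟨φ0, h0⟩ := P.top _ hU
  obtain ⟨φ, hφ, hmin⟩ := wf.has_min {φ | a ∈ φ.ev N} ⟨φ0, by simp [h0]⟩
  refine ⟨φ, fun b => ?_⟩
  rw [Submodule.mem_span_singleton]
  constructor
  · intro hb
    obtain ⟨f, rfl⟩ := hC N hN _ N hU a b fun ψ hψ => by
      obtain ⟨χ, hχ⟩ := P.inf _ φ ψ
      have h1 := hmin χ (by rw [Set.mem_ofPred_eq, hχ]; exact ⟨hφ, hψ⟩)
      rw [hχ] at h1
      have h2 := eq_of_le_of_not_lt inf_le_left h1
      rw [← h2] at hb
      exact hb.2
    exact ⟨f, rfl⟩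
  · rintro ⟨f, hf⟩
    rw [show b = f ∘ₗ a from flen_ext hf.symm]
    exact PP.comp_mem f hφ

end aux

theorem t_FLEN (k : Type u) [Field k] [IsAlgClosed k] (R : Type u) [Ring R] [Algebra k R]
    [FiniteDimensional k R]
    (L : Lib k) :
    S_FLEN k R := by
  intro N n hn
  have hD : DCC N := by
    rintro ⟨φ, hφ⟩
    have := hn (n + 1) (fun i => φ (n + 1 - i)) (fun i hi => hφ (by omega)) bot_le le_top
    omega
  have bd : ∀ M : ℕ → Submodule (Module.End R N) N, ¬ ∀ i < n + 1, M i < M (i + 1) := by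
    intro M hM
    choose! a ha ha' using fun i hi => SetLike.exists_of_lt (hM i hi)
    let S : ℕ → Submodule (Module.End R N) N := fun i =>
      Nat.rec ⊥ (fun j W => W ⊔ Submodule.span _ {a j}) i
    have hS : ∀ i, S (i + 1) = S i ⊔ Submodule.span _ {a i} := fun _ => rfl
    have h1 : ∀ i, ∃ χ, flen_Def N (S i) χ := fun i => by
      induction i with
      | zero =>
        obtain ⟨φ, hφ⟩ := (L.pp R).bot (reg k R)
        refine ⟨φ, fun b => ?_⟩
        rw [hφ, Submodule.mem_bot]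
        exact ⟨fun h => by rw [h]; exact Submodule.zero_mem _, fun h => flen_ext h⟩
      | succ i ih =>
        obtain ⟨χ, hχ⟩ := ih
        obtain ⟨φ, hφ⟩ := flen_one (L.pp R) (L.comp R) hD (a i)
        exact flen_sup (L.pp R) hχ hφ
    have h2 : ∀ i ≤ n + 1, S i ≤ M i := fun i => by
      induction i with
      | zero => exact fun _ => bot_le
      | succ i ih =>
        intro hi
        rw [hS]
        exact sup_le ((ih (by omega)).trans (hM i hi).le)
          ((Submodule.span_singleton_le_iff_mem _ _).2 (ha i hi))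
    choose χ hχ using h1
    have := hn (n + 1) χ (fun i hi => flen_lt (hχ i) (hχ (i + 1)) (by
      rw [hS]
      exact SetLike.lt_iff_le_and_exists.2 ⟨le_sup_left, a i,
        Submodule.mem_sup_right (Submodule.mem_span_singleton_self _),
        fun h => ha' i hi (h2 i hi.le h)⟩)) bot_le le_top
    omega
  refine isFiniteLength_iff_isNoetherian_isArtinian.2 ⟨isNoetherian_iff'.2 ⟨?_⟩,
    (isArtinian_iff _ _).2 ?_⟩
  · exact wellFounded_iff_isEmpty_descending_chain.2 ⟨fun f => bd f.1 fun i _ => f.2 i⟩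
  · refine wellFounded_iff_isEmpty_descending_chain.2 ⟨fun f => bd (fun i => f.1 (n + 1 - i))
      fun i hi => ?_⟩
    exact strictAnti_nat_of_succ_lt f.2 (by omega)

end Pool.Agent.P.MP_cf639b_al
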