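import Pool.Agent.P.MP_cf639b_al.IfF

set_option linter.dupNamespace false

namespace Pool.Agent.P.MP_cf639b_al

universe u v
open TensorProduct Polynomial Function

section cyc
variable {k : Type u} [Field k] {N : Type u} [AddCommGroup N] [Module k N]

theorem flf_cyc_mem (π : Module.End k N) {a m : ℕ} (h : a ≤ m) (x : N) :
    (π ^ m) x ∈ Cyc π a x := by
  obtain ⟨r, rfl⟩ := Nat.exists_eq_add_of_le h
  exact Submodule.subset_span ⟨r, rfl⟩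

theorem flf_cyc_le (π : Module.End k N) {a : ℕ} {x : N} {O : Submodule k N}
    (h : ∀ m, a ≤ m → (π ^ m) x ∈ O) : Cyc π a x ≤ O := by
  refine Submodule.span_le.mpr ?_
  rintro _ ⟨r, rfl⟩
  exact h _ (Nat.le_add_right _ _)

theorem flf_cyc_split (π : Module.End k N) (a : ℕ) (e : N) {x : N} (hx : x ∈ Cyc π a e) :
    ∃ c : k, x - c • (π ^ a) e ∈ Cyc π (a + 1) e := by
  have h : Cyc π a e ≤ (k ∙ (π ^ a) e) ⊔ Cyc π (a + 1) e := by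
    refine flf_cyc_le π fun m hm => ?_
    rcases Nat.eq_or_lt_of_le hm with rfl | hlt
    · exact Submodule.mem_sup_left (Submodule.mem_span_singleton_self _)
    · exact Submodule.mem_sup_right (flf_cyc_mem π hlt e)
  obtain ⟨y, hy, z, hz, rfl⟩ := Submodule.mem_sup.mp (h hx)
  obtain ⟨c, rfl⟩ := Submodule.mem_span_singleton.mp hy
  exact ⟨c, by simpa using hz⟩

theorem flf_cyc_pow (π : Module.End k N) (a b : ℕ) (e : N) {x : N} (hx : x ∈ Cyc π a e) :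
    (π ^ b) x ∈ Cyc π (a + b) e := by
  have h := Cyc_map (π := π) (π' := π) (π ^ b) (fun n z => by
    rw [← Module.End.mul_apply, ← Module.End.mul_apply, ← pow_add, ← pow_add, add_comm]) hx
  rwa [Cyc_pow] at h

theorem flf_cyc_main (π : Module.End k N) (O : Submodule k N)
    (hO : ∀ (b : ℕ), ∀ x ∈ O, (π ^ b) x ∈ O) (e : N) (n : ℕ) (hn : (π ^ n) e = 0) (a : ℕ)
    (ha : (π ^ a) e ∉ O) {x : N} (hx : x ∈ O) (hx0 : x ∈ Cyc π 0 e) : x ∈ Cyc π (a + 1) e := by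
  have key : ∀ r, r ≤ a + 1 → x ∈ Cyc π r e := by
    intro r
    induction r with
    | zero => exact fun _ => hx0
    | succ r ih =>
      intro hr
      obtain ⟨c, hc⟩ := flf_cyc_split π r e (ih (by omega))
      by_cases h0 : c = 0
      · simpa [h0] using hc
      exfalso
      have hall : ∀ i m, r ≤ m → n ≤ m + i → (π ^ m) e ∈ O := by
        intro i
        induction i with
        | zero =>
          intro m _ hm
          obtain ⟨j, rfl⟩ := Nat.exists_eq_add_of_le' (show n ≤ m by omega)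
          rw [pow_add, Module.End.mul_apply, hn, map_zero]
          exact O.zero_mem
        | succ i ihi =>
          intro m hm hm'
          obtain ⟨j, rfl⟩ := Nat.exists_eq_add_of_le' hm
          have h1 : Cyc π (r + 1 + j) e ≤ O :=
            flf_cyc_le π fun m' hm'' => ihi m' (by omega) (by omega)
          have h2 := h1 (flf_cyc_pow π (r + 1) j e hc)
          rw [map_sub, map_smul, ← Module.End.mul_apply, ← pow_add] at h2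
          have h3 : c • (π ^ (j + r)) e ∈ O := by
            have := O.sub_mem (hO j x hx) h2
            simpa using this
          exact (O.smul_mem_iff h0).mp h3
      exact ha (hall n a (by omega) (by omega))
  exact key _ le_rfl
end cyc

section main
variable {k : Type u} [Field k] {R : Type u} [Ring R] [Algebra k R]
variable {d : Fam R} {p : k}

theorem flf_mem_O (Γ : Calc d p) (s : ℤ × ℤ) (y : ℕ) {T : Md k R} (hT : T.fd) (x : TT d p T) :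
    x ∈ Γ.O s y T ↔ (Γ.trs (wd (-s.1)) (Pt.el hT x)).nil
      ((y : ℤ) + s.2 - Γ.D (wd (-s.1))).toNat :=
  ⟨fun h _ => h, fun h => h PUnit.unit⟩

theorem flf_el_pi {T : Md k R} (hT : T.fd) (x : TT d p T) (a : ℕ) :
    (Pt.el hT ((piT d p T ^ a) x) : Pt d p PUnit.{u + 1}) = (Pt.el hT x).pi a := rfl

theorem flf_ee (Γ : Calc d p) {s : ℕ} (hL : Lc d p s) (j : ℤ) (N : ℕ) :
    (Pt.el (Γ.ob_fd (wd j) (hL.fd N)) (Γ.ee j N) : Pt d p PUnit.{u + 1}) =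
      Γ.trs (wd j) (Pt.el (hL.fd N) (eT d p N)) := rfl

theorem flf_ep (Γ : Calc d p) {s : ℕ} (hL : Lc d p s) (t : ℤ × ℤ) (y N : ℕ) :
    (Pt.el (Γ.ob_fd (wd t.1) (hL.fd N)) (Γ.ep t y N) : Pt d p PUnit.{u + 1}) =
      (Γ.trs (wd t.1) (Pt.el (hL.fd N) (eT d p N))).pi
        ((N : ℤ) - Γ.D (wd t.1) - t.2 - y).toNat := rfl

/-- the form of `WR` with a free exponent -/
theorem flf_wr (Γ : Calc d p) (hW : Γ.WR) {W : Type u} (x : Pt d p W) (u u' : List Bool)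
    (h : wt u = wt u') (a b : ℕ) (ha : Γ.K + Γ.D u' ≤ a) (hab : a + Γ.D u = b + Γ.D u') :
    Arr ((Γ.trs u x).pi a) ((Γ.trs u' x).pi b) := by
  obtain ⟨c, rfl⟩ := Nat.exists_eq_add_of_le' ha
  have hb : b = c + (Γ.K + Γ.D u) := by omega
  have h1 := (hW W x u u' h).pi c
  rw [Pt.pi_pi, Pt.pi_pi] at h1
  rw [hb]
  exact h1

theorem flf_wr_nil (Γ : Calc d p) (hW : Γ.WR) {W : Type u} (x : Pt d p W) (u u' : List Bool)
    (h : wt u = wt u') (a b : ℕ) (ha : Γ.K + Γ.D u' ≤ a) (hab : a + Γ.D u = b + Γ.D u')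
    (hx : (Γ.trs u x).nil a) : (Γ.trs u' x).nil b := by
  have h1 := flf_wr Γ hW x u u' h a b ha hab
  have h2 : ((Γ.trs u x).pi a).nil 0 := (Pt.nil_pi _ _ _).mpr (by rwa [zero_add])
  have h3 := (Pt.nil_pi _ _ _).mp (h1.nil h2)
  rwa [zero_add] at h3

theorem flf_mem (Γ : Calc d p) {s : ℕ} (hL : Lc d p s) {lam : ℤ → ℤ} {c : ℕ} (hl : Lam Γ lam c)
    (u v : ℤ × ℤ) : ∃ y0, ∀ y ≥ y0, ∃ N0, ∀ N ≥ N0,
      Γ.ep u y N ∈ Γ.O v y _ ↔ Pos lam (u - v) := by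
  obtain ⟨N1, hN1⟩ := hl.ex (wd u.1 ++ wd (-v.1))
  refine ⟨((Γ.D (wd (-v.1)) : ℤ) - v.2).toNat, fun y hy =>
    ⟨max N1 ((Γ.D (wd u.1) : ℤ) + u.2 + y).toNat, fun N hN => ?_⟩⟩
  have hN' := hN1 N (le_trans (le_max_left _ _) hN)
  have hN2 : ((Γ.D (wd u.1) : ℤ) + u.2 + y).toNat ≤ N := le_trans (le_max_right _ _) hN
  rw [flf_mem_O Γ v y (Γ.ob_fd (wd u.1) (hL.fd N)), flf_ep Γ hL, Γ.trs_pi, Pt.nil_pi,
    ← Γ.trs_append]
  have e1 : ∀ a, (Γ.trs (wd u.1 ++ wd (-v.1))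
      (Pt.el (hL.fd N) (eT d p N) : Pt d p PUnit.{u + 1})).nil a ↔
      (piT d p _ ^ a) (Γ.trL (wd u.1 ++ wd (-v.1)) _ (eT d p N)) = 0 :=
    fun a => ⟨fun h => h PUnit.unit, fun h _ => h⟩
  rw [e1, hN', Γ.D_append, wt_append, wt_wd, wt_wd, Pos, Prod.fst_sub, Prod.snd_sub,
    ← sub_eq_add_neg]
  push_cast
  omega

theorem flf_incl (Γ : Calc d p) (hW : Γ.WR) {lam : ℤ → ℤ} {c : ℕ} (hl : Lam Γ lam c)
    (t v : ℤ × ℤ) (h : Pos lam (t - v)) :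
    ∃ y0, ∀ y ≥ y0, ∀ T : Md k R, T.fd → Γ.O t y T ≤ Γ.O v y T := by
  obtain ⟨N0, hN0⟩ := hl.ub (wd (t.1 - v.1))
  rw [Pos, Prod.fst_sub, Prod.snd_sub] at h
  refine ⟨max ((N0 : ℤ) + Γ.D (wd (-t.1)) - t.2).toNat
    ((Γ.K : ℤ) + Γ.D (wd (-v.1)) + Γ.D (wd (-t.1)) + Γ.D (wd (t.1 - v.1)) - v.2).toNat,
    fun y hy T hT x hx => ?_⟩
  have hy1 := le_trans (le_max_left _ _) hy
  have hy2 := le_trans (le_max_right _ _) hy
  rw [flf_mem_O Γ _ y hT] at hx ⊢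
  have h1 := hN0 (Γ.ob (wd (-t.1)) T) (Γ.ob_fd _ hT) (Γ.trL (wd (-t.1)) T x)
    ((y : ℤ) + t.2 - Γ.D (wd (-t.1))).toNat
    ((y : ℤ) + v.2 - Γ.D (wd (-t.1)) - Γ.D (wd (t.1 - v.1))).toNat (by omega)
    (by rw [wt_wd]; omega) (hx PUnit.unit)
  have h2 : (Γ.trs (wd (-t.1) ++ wd (t.1 - v.1)) (Pt.el hT x : Pt d p PUnit.{u + 1})).nil
      ((y : ℤ) + v.2 - Γ.D (wd (-t.1)) - Γ.D (wd (t.1 - v.1))).toNat := by
    rw [Γ.trs_append]
    exact fun _ => h1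
  refine flf_wr_nil Γ hW _ _ _ ?_ _ _ ?_ ?_ h2
  · rw [wt_append, wt_wd, wt_wd, wt_wd]; ring
  · omega
  · rw [Γ.D_append]; omega

theorem flf_ex (Γ : Calc d p) (hW : Γ.WR) {s : ℕ} (hL : Lc d p s) {lam : ℤ → ℤ} {c : ℕ}
    (hl : Lam Γ lam c) (u v : ℤ × ℤ) (h : Pos lam (u - v)) (y : ℕ) :
    ∃ N0, ∀ N ≥ N0, ∃ N1, ∀ N' ≥ N1,
      ∃ h : Γ.A v.1 N →ₗ[R] Γ.A u.1 N', mapT d p h (Γ.ep v y N) = Γ.ep u y N' := by
  obtain ⟨N2, hN2⟩ := hl.ex (wd (u.1 - v.1))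
  rw [Pos, Prod.fst_sub, Prod.snd_sub] at h
  refine ⟨((Γ.K : ℤ) + Γ.D (wd u.1) + Γ.D (wd v.1) + v.2 + y).toNat, fun N hN =>
    ⟨max N2 ((N : ℤ) + u.2 - v.2 + Γ.D (wd (u.1 - v.1))).toNat, fun N' hN' => ?_⟩⟩
  have hN1 := le_trans (le_max_left _ _) hN'
  have hN3 := le_trans (le_max_right _ _) hN'
  obtain ⟨a, ha⟩ : ∃ a : ℕ, a = ((N' : ℤ) - N + v.2 - u.2 - Γ.D (wd (u.1 - v.1))).toNat :=
    ⟨_, rfl⟩
  have h1 : (piT d p _ ^ N) ((piT d p _ ^ a) (Γ.ee (u.1 - v.1) N')) = 0 := by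
    rw [← piT_add]
    refine (hN2 N' hN1 (N + a)).mpr ?_
    rw [wt_wd]
    push_cast
    omega
  obtain ⟨g, hg⟩ := hL.rep _ N _ h1
  have h2 : Arr (Pt.el (hL.fd N) (eT d p N) : Pt d p PUnit.{u + 1})
      ((Γ.trs (wd (u.1 - v.1)) (Pt.el (hL.fd N') (eT d p N'))).pi a) :=
    ⟨g, fun _ => hg.symm⟩
  have h3 := (Γ.trs_arr (wd v.1) h2).pi ((N : ℤ) - Γ.D (wd v.1) - v.2 - y).toNat
  rw [Γ.trs_pi, Pt.pi_pi, ← Γ.trs_append] at h3
  have h4 := flf_wr Γ hW (Pt.el (hL.fd N') (eT d p N') : Pt d p PUnit.{u + 1})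
    (wd (u.1 - v.1) ++ wd v.1) (wd u.1) (by rw [wt_append, wt_wd, wt_wd, wt_wd]; ring)
    (((N : ℤ) - Γ.D (wd v.1) - v.2 - y).toNat + a) ((N' : ℤ) - Γ.D (wd u.1) - u.2 - y).toNat
    (by omega) (by rw [Γ.D_append]; omega)
  obtain ⟨f, hf⟩ := h3.trans h4
  exact ⟨f, hf PUnit.unit⟩

theorem flf_stab (Γ : Calc d p) (s : ℤ × ℤ) (y : ℕ) {T : Md k R} (hT : T.fd) (b : ℕ)
    (x : TT d p T) (hx : x ∈ Γ.O s y T) : (piT d p T ^ b) x ∈ Γ.O s y T := by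
  rw [flf_mem_O Γ s y hT] at hx ⊢
  rw [flf_el_pi, Γ.trs_pi, Pt.nil_pi]
  exact Pt.nil_mono (Nat.le_add_right _ _) hx

theorem flf_oth (Γ : Calc d p) {s : ℕ} (hL : Lc d p s) {lam : ℤ → ℤ} {c : ℕ}
    (hl : Lam Γ lam c) (u v : ℤ × ℤ) (h : ¬ Pos lam (u - v)) :
    ∃ B y0, ∀ y ≥ y0, ∃ N0, ∀ N ≥ N0, ∀ z : TT d p (Γ.A u.1 N),
      (piT d p _ ^ B) z ∈ Γ.O v y _ →
        (piT d p _ ^ B) z ∈ Cyc (piT d p _) 1 (Γ.ep u y N) := by
  obtain ⟨y0, hy0⟩ := flf_mem Γ hL hl u v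
  refine ⟨s + (wd u.1).length * Γ.w, y0, fun y hy => ?_⟩
  obtain ⟨N0, hN0⟩ := hy0 y hy
  refine ⟨N0, fun N hN z hz => ?_⟩
  have h1 : Γ.ep u y N ∉ Γ.O v y _ := fun h' => h ((hN0 N hN).mp h')
  have h2 : (piT d p _ ^ (s + (wd u.1).length * Γ.w)) z ∈
      Cyc (piT d p _) 0 (Γ.ee u.1 N) := by
    rw [piT_add, ← Γ.trL_rtL (wd u.1) (hL.fd N), ← Γ.trL_pi (wd u.1) (hL.fd N)]
    exact Cyc_map (Γ.trL (wd u.1) _) (Γ.trL_pi (wd u.1) (hL.fd N)) (hL.l0 N _)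
  obtain ⟨n, hn⟩ := piT_nil (Γ.ee u.1 N)
  have h3 := flf_cyc_main (piT d p _) (Γ.O v y _)
    (flf_stab Γ v y (Γ.ob_fd (wd u.1) (hL.fd N))) (Γ.ee u.1 N) n hn _ h1 hz h2
  rw [Calc.ep, Cyc_pow, add_comm]
  exact h3
end main

theorem t_LF (k : Type u) [Field k] [IsAlgClosed k] (R : Type u) [Ring R] [Algebra k R]
    [FiniteDimensional k R]
    (hWR : S_WR k R) :
    S_LF k R := by
  intro d p s hL Γ lam c hl
  have hW := hWR d p Γ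
  refine ⟨fun j N N' N'' h h' => ?_, fun t y => ?_, fun t y b => ?_,
    fun t y T T' hT hT' g x hx => ?_, fun t => ?_, flf_mem Γ hL hl, flf_incl Γ hW hl,
    flf_ex Γ hW hL hl, flf_oth Γ hL hl⟩
  · rw [Calc.io, Calc.io, Calc.io, ← Γ.mp_comp, hL.comp N N' N'' h h']
  · refine ⟨((Γ.D (wd t.1) : ℤ) + t.2 + y).toNat, fun N hN N' hN' => ?_⟩
    rw [Calc.ep, Calc.ep, mapT_pi, Calc.io, Calc.ee, Calc.ee,
      ← Γ.trL_nat (wd t.1) (hL.fd N) (hL.fd N'), hL.map, Γ.trL_pi (wd t.1) (hL.fd N'), ← piT_add]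
    congr 2
    omega
  · refine ⟨((Γ.D (wd t.1) : ℤ) + t.2 + y + b).toNat, fun N hN => ?_⟩
    rw [Calc.ep, Calc.ep, ← piT_add]
    congr 2
    push_cast
    omega
  · rw [flf_mem_O Γ t y hT] at hx
    rw [flf_mem_O Γ t y hT']
    exact (Γ.trs_arr _ (show Arr (Pt.el hT x) (Pt.el hT' (mapT d p g x)) from
      ⟨g, fun _ => rfl⟩)).nil hx
  · refine ⟨((Γ.D (wd (-t.1)) : ℤ) - t.2).toNat, fun y hy b T hT x => ?_⟩
    rw [flf_mem_O Γ t y hT, flf_mem_O Γ t (y + b) hT, flf_el_pi, Γ.trs_pi, Pt.nil_pi]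
    have e : ((y : ℤ) + t.2 - Γ.D (wd (-t.1))).toNat + b =
        (((y + b : ℕ) : ℤ) + t.2 - Γ.D (wd (-t.1))).toNat := by
      push_cast
      omega
    rw [e]

end Pool.Agent.P.MP_cf639b_al
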