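import Pool.Agent.P.MP_cf639b_al.IfF

set_option linter.dupNamespace false

namespace Pool.Agent.P.MP_cf639b_al

universe u v
open TensorProduct Polynomial Function

theorem flocn_loc {k : Type u} [Field k] {K : Type u} [Field K] [Algebra k K] {t : K}
    (ht : Gen k t) {N : Type u} [AddCommGroup N] [Module k N] (A : Module.End k N) :
    ∃ (W : Type u) (_ : AddCommGroup W) (_ : Module k W) (β : N →ₗ[k] K →ₗ[k] W),
      (∀ n v, β (A n) v = β n (t * v)) ∧ ∀ n, β n 1 = 0 → ∃ q : k[X], q ≠ 0 ∧ aeval A q n = 0 := by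
  letI : Algebra k[X] K := (aeval t : k[X] →ₐ[k] K).toRingHom.toAlgebra
  have hal : ∀ q : k[X], algebraMap k[X] K q = aeval t q := fun _ => rfl
  haveI : IsScalarTower k k[X] K := IsScalarTower.of_algebraMap_eq fun c => by
    rw [hal, AlgHom.commutes]
  have hinj : Injective (algebraMap k[X] K) := transcendental_iff_injective.1 ht.1
  haveI : IsLocalization (nonZeroDivisors k[X]) K :=
    (isLocalization_iff _ _).2 ⟨fun y => IsUnit.mk0 _
      ((map_ne_zero_iff _ hinj).2 (nonZeroDivisors.coe_ne_zero y)), fun z => by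
        obtain ⟨p, q, hq, e⟩ := ht.2 z
        exact ⟨(p, ⟨q, mem_nonZeroDivisors_of_ne_zero hq⟩), e⟩,
      fun e => ⟨1, by rw [hinj e]⟩⟩
  refine ⟨K ⊗[k[X]] Module.AEval' A, inferInstance, inferInstance,
    LinearMap.mk₂ k (fun n v => v ⊗ₜ Module.AEval'.of A n) (fun n n' v => ?_) (fun c n v => ?_)
      (fun n v v' => ?_) (fun c n v => ?_), fun n v => ?_, fun n hn => ?_⟩
  · rw [map_add, tmul_add]
  · rw [map_smul, tmul_smul]
  · rw [add_tmul]
  · rw [smul_tmul']
  · rw [LinearMap.mk₂_apply, LinearMap.mk₂_apply, ← Module.AEval'.X_smul_of, ← smul_tmul,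
      Algebra.smul_def, hal, aeval_X]
  · obtain ⟨q, hq⟩ := (IsLocalizedModule.eq_zero_iff (nonZeroDivisors k[X])
      (TensorProduct.mk k[X] K (Module.AEval' A) 1)).1 hn
    refine ⟨q, nonZeroDivisors.coe_ne_zero q, (Module.AEval'.of A).injective ?_⟩
    rw [map_zero, ← hq]
    rfl

theorem flocn_aeval {k : Type u} [Field k] {K : Type u} [Field K] [Algebra k K] (t : K) (q : k[X]) :
    aeval (LinearMap.mulLeft k t) q 1 = aeval t q := by
  have := aeval_algHom_apply (Algebra.lmul k K) t q
  exact (congrArg (fun f : Module.End k K => f 1) this).trans (mul_one _)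

theorem t_LOCN (k : Type u) [Field k] [IsAlgClosed k] (R : Type u) [Ring R] [Algebra k R]
    [FiniteDimensional k R]
    (L : Lib k)
    (hUNIV : S_UNIV k R) :
    S_LOCN k R := by
  intro d K _ _ t ht
  constructor
  · have h1 : ∀ (c v : K) (n : NN k d), Emap d ((MF d (one k t)).act c)
        (Emap d ((MN d).map (gv (one k t).V v)) n) =
        Emap d ((MN d).map (gv (one k t).V (c * v))) n := by
      intro c v n
      have e : XH.comp ((one k t).sc c) (gv (one k t).V v) = gv (one k t).V (c * v) :=
        Subtype.ext (LinearMap.ext fun q => by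
          have := LinearMap.congr_fun (XH.comp ((one k t).sc c) (gv (one k t).V v)).2
          change c * aeval (LinearMap.mulLeft k t) q v = aeval (LinearMap.mulLeft k t) q (c * v)
          have e' := aeval_algHom_apply (Algebra.lmul k K) t q
          change aeval (LinearMap.mulLeft k t) q = _ at e'
          rw [e']
          exact mul_left_comm _ _ _)
      rw [← e, (MN d).map_comp, Emap_comp]
      rfl
    have h2 : ∀ (q : k[X]) (n : NN k d), Emap d ((MN d).map (gv (one k t).V (aeval t q))) n =
        Emap d ((MN d).map (gv (one k t).V (1 : K))) (aeval (X1 k d) q n) := by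
      intro q n
      rw [hUNIV.gvx, ← flocn_aeval t q]
    have h3 : ∀ (a b : K) (u : EE d (M d (one k t).V)), Emap d ((MF d (one k t)).act (a * b)) u =
        Emap d ((MF d (one k t)).act a) (Emap d ((MF d (one k t)).act b) u) := by
      intro a b u
      rw [map_mul]
      exact LinearMap.congr_fun (Emap_comp d _ _) u
    intro u
    have hu : u ∈ Submodule.span k _ := (hUNIV.span d (one k t).V).symm ▸ Submodule.mem_top
    induction hu using Submodule.span_induction with
    | mem u hu =>
      obtain ⟨v, n, rfl⟩ := hu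
      obtain ⟨p, q, hq, e⟩ := ht.2 v
      exact ⟨q, aeval (X1 k d) p n, hq, by rw [h1, mul_comm, e, h2]⟩
    | zero => exact ⟨1, 0, one_ne_zero, by rw [map_zero, map_zero]⟩
    | add u u' _ _ ih ih' =>
      obtain ⟨q, n, hq, e⟩ := ih
      obtain ⟨q', n', hq', e'⟩ := ih'
      refine ⟨q * q', aeval (X1 k d) q' n + aeval (X1 k d) q n', mul_ne_zero hq hq', ?_⟩
      rw [map_add, map_add, map_mul, h3 _ _ u', mul_comm, h3, e, e', h1, h1, mul_one, mul_one,
        h2, h2]
    | smul c u _ ih =>
      obtain ⟨q, n, hq, e⟩ := ih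
      exact ⟨q, c • n, hq, by rw [map_smul, map_smul, e]⟩
  · intro n hn
    obtain ⟨W, _, _, β, h1, h2⟩ := flocn_loc ht (X1 k d)
    obtain ⟨φ, hφ⟩ := hUNIV.lift d (one k t).V W β h1
    exact h2 n (by rw [← hφ n (1 : K), hn, map_zero])

theorem flocn_add {k : Type u} [Field k] {N : Type u} [AddCommGroup N] [Module k N]
    (A B : Module.End k N) (b c : k[X][X]) : ev2 A B (b + c) = ev2 A B b + ev2 A B c :=
  sum_add_index b c _ (fun _ => by rw [map_zero, zero_mul]) fun _ _ _ => by rw [map_add, add_mul]

theorem flocn_mon {k : Type u} [Field k] {N : Type u} [AddCommGroup N] [Module k N]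
    (A B : Module.End k N) (j : ℕ) (c : k[X]) : ev2 A B (monomial j c) = aeval A c * B ^ j :=
  sum_monomial_index c _ (by rw [map_zero, zero_mul])

theorem t_SWAP (k : Type u) [Field k] [IsAlgClosed k] :
    S_SWAP k := by
  intro b hb
  refine ⟨Bivariate.swap b, (map_ne_zero_iff _ Bivariate.swap.injective).2 hb, ?_⟩
  intro N _ _ A B h
  clear hb
  induction b using Polynomial.induction_on' with
  | add p q hp hq => rw [map_add, flocn_add, flocn_add, hp, hq]
  | monomial j c =>
    induction c using Polynomial.induction_on' with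
    | add p q hp hq => rw [map_add, map_add, flocn_add, flocn_add, hp, hq]
    | monomial i c =>
      rw [Bivariate.swap_monomial_monomial, flocn_mon, flocn_mon, aeval_monomial, aeval_monomial,
        mul_assoc, mul_assoc, (h.pow_pow i j).eq]

end Pool.Agent.P.MP_cf639b_al
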