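import Pool.Agent.P.MP_cf639b_al.IfF

set_option linter.dupNamespace false

namespace Pool.Agent.P.MP_cf639b_al

universe u v
open TensorProduct Polynomial Function

theorem t_WINX (k : Type u) [Field k] [IsAlgClosed k] (R : Type u) [Ring R] [Algebra k R]
    [FiniteDimensional k R]
    (hLC : S_LC k R)
    (hCALC : S_CALC k R)
    (hLAM : S_LAM k R) :
    S_WINX k R := by
  intro d K _ _ t ht hC A N p
  obtain ⟨s0, hL⟩ := hLC d K t ht hC p
  obtain ⟨Γ, -, hv, hk⟩ := hCALC d K t A N p s0 hL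
  obtain ⟨lam, hl⟩ := hLAM d p s0 hL Γ
  refine ⟨s0, fun s => ?_⟩
  have key : ∀ e : Bool, ∃ n o : ℕ, o ≤ n ∧
      (piK d p _ ^ o) (Emap d (N.it e (J k p n).V s) (eJ d p n)) = 0 ∧
      (o : ℤ) + s * Γ.v e + lam (sg e * s) = n := by
    intro e
    obtain ⟨N0, h0⟩ := hl.ex (List.replicate s e)
    simp only [Calc.D_replicate, wt_replicate] at h0
    have h1 := (h0 N0 le_rfl N0).mp (by rw [← Γ.trL_pi _ (hL.fd _), hL.zero, map_zero])
    obtain ⟨m, hm⟩ : ∃ m : ℕ, (m : ℤ) = s * Γ.v e + lam (sg e * s) :=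
      ⟨(s * Γ.v e + lam (sg e * s)).toNat, Int.toNat_of_nonneg (by push_cast at h1; omega)⟩
    refine ⟨N0 + m, N0, by omega, hk e s _ _ ((h0 _ (by omega) _).mpr ?_), ?_⟩
    · push_cast; omega
    · push_cast; omega
  obtain ⟨n, o, h1, h2, h3⟩ := key true
  obtain ⟨n', o', h1', h2', h3'⟩ := key false
  refine ⟨n, o, n', o', h1, h1', h2, h2', ?_⟩
  have h4 := hl.win s
  simp only [sg, one_mul, neg_mul] at h3 h3'
  rw [← hv]
  zify
  rw [mul_add]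
  omega

theorem t_ATT (k : Type u) [Field k] [IsAlgClosed k] (R : Type u) [Ring R] [Algebra k R]
    [FiniteDimensional k R]
    (L : Lib k)
    (hLF : S_LF k R)
    (hANTI1 : S_ANTI1 k R)
    (hANTI2 : S_ANTI2 k R)
    (hDENSE : S_DENSE k R)
    (hARI : S_ARI) :
    S_ATT k R := by
  intro hN d p s hL Γ lam c hl
  have hF := hLF d p s hL Γ lam c hl
  refine hARI.att lam c hl.sup hl.zero hl.win (fun h => ?_) (fun h => ?_)
  · obtain ⟨D⟩ := hANTI1 d p s hL Γ lam c hl hF h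
    exact L.wt R (hANTI2 d p D) hN
  · exact hDENSE d p s hL Γ lam c hl hF h (L.ndnd R hN)

theorem t_O2 (k : Type u) [Field k] [IsAlgClosed k] (R : Type u) [Ring R] [Algebra k R]
    [FiniteDimensional k R]
    (L : Lib k)
    (hCKop : S_CKop k R)
    (hLC : ∀ (S : Type u) [Ring S] [Algebra k S] [FiniteDimensional k S], S_LC k S)
    (hAK : S_AK k R)
    (hNA : S_NA k R)
    (hCALC : S_CALC k R)
    (hLAM : ∀ (S : Type u) [Ring S] [Algebra k S] [FiniteDimensional k S], S_LAM k S)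
    (hATT : ∀ (S : Type u) [Ring S] [Algebra k S] [FiniteDimensional k S], S_ATT k S)
    (hARI : S_ARI)
    (hPF : S_PF k R)
    (hDUALC : S_DUALC k R)
    (hDIV : S_DIV k R)
    (hO2A : S_O2A k R)
    (hO2B : S_O2B k R) :
    S_O2 k R := by
  intro hN d K _ _ t ht hC p
  have hN' : ND0 k Rᵐᵒᵖ := L.ndop Rᵐᵒᵖ R (Anti.op k R).symm hN
  obtain ⟨s0, hL⟩ := hLC R d K t ht hC p
  obtain ⟨s1, hL'⟩ := hLC Rᵐᵒᵖ _ K t ht (hCKop Rᵐᵒᵖ (Anti.op k R) d K t ht hC) p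
  obtain ⟨A⟩ := hAK d K t ht hC
  obtain ⟨N⟩ := hNA d K t ht A
  obtain ⟨Γ, hΦ, -⟩ := hCALC d K t A N p s0 hL
  obtain ⟨β, hβ⟩ := hPF Rᵐᵒᵖ (Anti.op k R) d p
  obtain ⟨Γ', hv, hA⟩ := hDUALC Rᵐᵒᵖ (Anti.op k R) d p β hβ Γ
  obtain ⟨lam, hl⟩ := hLAM R d p s0 hL Γ
  obtain ⟨lam', hl'⟩ := hLAM Rᵐᵒᵖ _ p s1 hL' Γ'
  obtain ⟨e, s, hs, h⟩ := hARI.two lam lam' hl.sup hl.zero hl'.sup
    (hATT R hN d p s0 hL Γ lam s0 hl) (hATT Rᵐᵒᵖ hN' _ p s1 hL' Γ' lam' s1 hl')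
  have hD := hDIV Rᵐᵒᵖ (Anti.op k R) d p β hβ Γ Γ' hA lam' s1 hl' e s
  have hw : (s : ℤ) * Γ.w = s * Γ'.v e + s * Γ.v (!e) := by
    rw [← hv e]; push_cast; ring
  have hB : Γ.Bd (!e) := by
    rcases h with h | ⟨h, h'⟩
    · refine hO2A d p s0 hL Γ lam s0 hl (!e) s _ hs hD ?_
      rw [sg_not, neg_mul]
      omega
    · refine hO2B d p s0 hL Γ lam s0 hl e s _ hs hD ?_ h'
      omega
  obtain ⟨a, ha⟩ := hB (T0 k R) (L.fd R).t0k
  have e1 : ∀ (f : Bool) (m : ℕ) (T : Md k R),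
      Γ.ob (List.replicate m f) T = (Tn f m).obj T := by
    intro f m T
    induction m with
    | zero => rfl
    | succ n ih =>
      rw [List.replicate_succ', Γ.ob_append, ih]
      change (Γ.Φ f).obj _ = _
      rw [hΦ]
      rfl
  refine ⟨!e, a, fun m => ?_⟩
  rw [← e1]
  intro u hu
  exact (piT_pow_coe a ⟨u, hu⟩).symm.trans (congrArg Subtype.val (ha m ⟨u, hu⟩))

end Pool.Agent.P.MP_cf639b_al
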