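import Pool.Agent.P.MP_cf639b_al.IfF

set_option linter.dupNamespace false

namespace Pool.Agent.P.MP_cf639b_al

universe u v
open TensorProduct Polynomial Function

section
variable {k : Type u} [Field k] {R : Type u} [Ring R] [Algebra k R] {d : Fam R} {p : k}

/-- the torsion of `T` is killed by `π ^ a` -/
def fo2a_Ex (d : Fam R) (p : k) (a : ℕ) (T : Md k R) : Prop :=
  ∀ y : TT d p T, (piT d p T ^ a) y = 0

theorem fo2a_bound {s0 : ℕ} (hL : Lc d p s0) (Γ : Calc d p) (f : Bool) (s : ℕ) (U : Md k R)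
    (hU : U.fd) : ∃ B : ℕ, ∀ i < s, fo2a_Ex d p B (Γ.ob (List.replicate i f) U) := by
  choose b hb using fun i : ℕ => hL.expo _ (Γ.ob_fd (List.replicate i f) hU)
  refine ⟨∑ i ∈ Finset.range s, b i, fun i hi y => piT_mono ?_ (hb i y)⟩
  exact Finset.single_le_sum (f := b) (fun _ _ => Nat.zero_le _) (Finset.mem_range.2 hi)

theorem fo2a_ob (Γ : Calc d p) (f : Bool) (m s : ℕ) (U : Md k R) :
    Γ.ob (List.replicate (m + s) f) U =
      Γ.ob (List.replicate s f) (Γ.ob (List.replicate m f) U) := by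
  rw [List.replicate_add, Γ.ob_append]

theorem fo2a_A {s0 : ℕ} (hL : Lc d p s0) (Γ : Calc d p) {lam : ℤ → ℤ} {c : ℕ} (hl : Lam Γ lam c)
    (f : Bool) (s : ℕ) (δ : ℤ) (hs : 0 < s) (hD : Γ.Dv (List.replicate s f) δ)
    (hi : (s * Γ.w : ℤ) ≤ δ + s * Γ.v f + lam (sg f * s)) : Γ.Bd f := by
  intro U hU
  obtain ⟨n, n', hn, hD⟩ := hD
  obtain ⟨N0, hub⟩ := hl.ub (List.replicate s f)
  obtain ⟨B, hB⟩ := fo2a_bound hL Γ f s U hU
  have step : ∀ X : Md k R, X.fd → fo2a_Ex d p (N0 + B + n + s * Γ.w) X →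
      fo2a_Ex d p (N0 + B + n + s * Γ.w) (Γ.ob (List.replicate s f) X) := by
    intro X hX hE y
    obtain ⟨t, ht⟩ := hD X hX y
    have h1 : (piT d p X ^ (N0 + B + s * Γ.w + n')) (Γ.rtL _ X y) = 0 := by
      rw [piT_add, ← ht, ← piT_add, ← hE t]
      congr 2; ring
    have h2 := hub X hX _ _ (N0 + B + n) (by omega) (by
      rw [Γ.D_replicate, wt_replicate]; push_cast; linarith) h1
    rwa [Γ.trL_rtL _ hX, ← piT_add, List.length_replicate] at h2
  refine ⟨N0 + B + n + s * Γ.w, fun m => ?_⟩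
  change fo2a_Ex d p _ _
  induction m using Nat.strong_induction_on with
  | _ m ih =>
    rcases lt_or_ge m s with h | h
    · exact fun y => piT_mono (by omega) (hB m h y)
    · obtain ⟨m', rfl⟩ := Nat.exists_eq_add_of_le' h
      rw [fo2a_ob]
      exact step _ (Γ.ob_fd _ hU) (ih m' (by omega))

/-- the induction hypothesis -/
def fo2a_P (Γ : Calc d p) (e : Bool) (s k' A m : ℕ) (T : Md k R) : Prop :=
  ∀ (X : Pt d p PUnit.{u + 1}) (t : TT d p T) (g : T →ₗ[R] X.T) (c : ℕ),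
    (piT d p _ ^ A) (mapT d p g t - (piT d p _ ^ (c + m * k')) (X.t PUnit.unit)) = 0 →
      (Γ.trs (List.replicate (s * m) e) X).nil (A + c)

theorem fo2a_P0 (Γ : Calc d p) (e : Bool) (s k' A : ℕ) (T : Md k R) (h : fo2a_Ex d p A T) :
    fo2a_P Γ e s k' A 0 T := by
  intro X t g c hc i
  rw [map_sub, ← mapT_pi, h t, map_zero, zero_sub, neg_eq_zero, ← piT_add, zero_mul,
    add_zero] at hc
  exact hc

theorem fo2a_kappa (Γ : Calc d p) (hW : Γ.WR) (e : Bool) (s : ℕ) (T : Md k R) (hT : T.fd) :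
    ∃ κ : T →ₗ[R] Γ.ob (List.replicate s e) (Γ.ob (List.replicate s (!e)) T), ∀ x,
      mapT d p κ ((piT d p T ^ (Γ.K + (s * Γ.v (!e) + s * Γ.v e))) x) =
        (piT d p _ ^ Γ.K) (Γ.trL _ _ (Γ.trL _ _ x)) := by
  have h := hW (TT d p T) ⟨T, hT, id⟩ [] (List.replicate s (!e) ++ List.replicate s e) (by
    rw [wt_append, wt_replicate, wt_replicate, sg_not, wt_nil]; ring)
  rw [Γ.trs_append, Γ.D_append, Γ.D_replicate, Γ.D_replicate] at h
  exact h

theorem fo2a_step (Γ : Calc d p) (hW : Γ.WR) (e : Bool) (s n n' k' A : ℕ)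
    (hD : ∀ U : Md k R, U.fd → ∀ y : TT d p (Γ.ob (List.replicate s (!e)) U),
      ∃ t : TT d p U, (piT d p U ^ n) t = (piT d p U ^ n') (Γ.rtL _ U y))
    (hk : n' + s * Γ.w + k' = n + (s * Γ.v (!e) + s * Γ.v e))
    (hub : ∀ T : Md k R, T.fd → ∀ x : TT d p T,
      (piT d p T ^ (A + (Γ.K + (n' + s * Γ.w + k')))) x = 0 →
      (piT d p _ ^ (A + (Γ.K + (n' + s * Γ.w)))) (Γ.trL (List.replicate s e) T x) = 0)
    (m : ℕ) (T : Md k R) (hT : T.fd)
    (h : fo2a_P Γ e s k' (A + (Γ.K + (n' + s * Γ.w + k'))) m T) :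
    fo2a_P Γ e s k' (A + (Γ.K + (n' + s * Γ.w + k'))) (m + 1)
      (Γ.ob (List.replicate s (!e)) T) := by
  intro X y g c hc
  obtain ⟨κ, hκ⟩ := fo2a_kappa Γ hW e s T hT
  obtain ⟨t, ht⟩ := hD T hT y
  have hT' := Γ.ob_fd (List.replicate s (!e)) hT
  rw [mul_add, mul_one, add_comm (s * m), List.replicate_add, Γ.trs_append]
  refine h (Γ.trs (List.replicate s e) X) t (Γ.mp _ g ∘ₗ κ) c ?_
  have h1 : (piT d p _ ^ (Γ.K + (n' + s * Γ.w + k'))) (mapT d p κ t) =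
      (piT d p _ ^ (Γ.K + (n' + s * Γ.w))) (Γ.trL (List.replicate s e) _ y) := by
    rw [← mapT_pi, hk, show Γ.K + (n + (s * Γ.v (!e) + s * Γ.v e)) =
      Γ.K + (s * Γ.v (!e) + s * Γ.v e) + n by ring, piT_add, ht, hκ, Γ.trL_pi _ hT,
      Γ.trL_rtL _ hT, ← piT_add, Γ.trL_pi _ hT', ← piT_add, List.length_replicate]
  have h2 := hub X.T X.fd _ hc
  rw [map_sub, map_sub, Γ.trL_nat _ hT' X.fd, Γ.trL_pi _ X.fd, ← piT_add] at h2
  rw [map_sub, mapT_comp, ← mapT_pi, piT_add, h1, ← piT_add, mapT_pi, ← piT_add, ← h2]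
  congr 3; ring

theorem fo2a_B (hW : ∀ Γ : Calc d p, Γ.WR) {s0 : ℕ} (hL : Lc d p s0) (Γ : Calc d p)
    {lam : ℤ → ℤ} {c : ℕ} (hl : Lam Γ lam c) (e : Bool) (s : ℕ) (δ : ℤ) (hs : 0 < s)
    (hD : Γ.Dv (List.replicate s (!e)) δ) (hi : δ + s * Γ.v (!e) = s * Γ.w + lam (sg e * s))
    (hlin : ∀ i : ℕ, lam (sg e * s * i) = i * lam (sg e * s)) : Γ.Bd (!e) := by
  intro U hU
  obtain ⟨n, n', hn, hD⟩ := hD
  obtain ⟨N0, hub⟩ := hl.ub (List.replicate s e)
  obtain ⟨B, hB⟩ := fo2a_bound hL Γ (!e) s U hU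
  obtain ⟨k', hk'⟩ : ∃ k' : ℕ, (k' : ℤ) = s * Γ.v e + lam (sg e * s) := by
    obtain ⟨N1, hex⟩ := hl.ex (List.replicate s e)
    have h1 := (hex N1 le_rfl N1).1 (by rw [← Γ.trL_pi _ (hL.fd N1), hL.zero, map_zero])
    rw [Γ.D_replicate, wt_replicate] at h1
    push_cast at h1
    exact ⟨_, Int.toNat_of_nonneg (by linarith)⟩
  have hk : n' + s * Γ.w + k' = n + (s * Γ.v (!e) + s * Γ.v e) := by
    zify; linarith
  set A := N0 + B + (Γ.K + (n' + s * Γ.w + k')) with hA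
  have hP : ∀ i < s, ∀ m, fo2a_P Γ e s k' A m (Γ.ob (List.replicate (i + s * m) (!e)) U) := by
    intro i hi m
    induction m with
    | zero => exact fo2a_P0 Γ e s k' A _ fun y => piT_mono (by omega) (hB i hi y)
    | succ m ih =>
      rw [mul_add, mul_one, ← add_assoc, fo2a_ob]
      refine fo2a_step Γ (hW Γ) e s n n' k' (N0 + B) hD hk (fun T hT x hx => ?_) m _
        (Γ.ob_fd _ hU) ih
      refine hub T hT x _ _ (by omega) ?_ hx
      rw [Γ.D_replicate, wt_replicate]; push_cast; linarith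
  refine ⟨A + 2 * s0, fun m' => ?_⟩
  change fo2a_Ex d p _ _
  rw [← Nat.mod_add_div m' s]
  have h1 := hP _ (Nat.mod_lt m' hs) (m' / s)
  have hT := Γ.ob_fd (List.replicate (m' % s + s * (m' / s)) (!e)) hU
  generalize Γ.ob (List.replicate (m' % s + s * (m' / s)) (!e)) U = T at h1 hT
  generalize m' / s = m at h1
  intro t
  obtain ⟨N1, hsw⟩ := hL.sw T hT t
  obtain ⟨N2, hex⟩ := hl.ex (List.replicate (s * m) e)
  obtain ⟨b, hb⟩ := piT_nil t
  obtain ⟨c1, g, hg, hfin⟩ := hsw (N1 + N2 + b + s0 + m * k') (by omega)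
  have h2 : N1 + N2 + b + s0 + m * k' ≤ b + c1 + s0 := hL.oe _ _ (by
    rw [piT_add, ← hg, ← mapT_pi, ← piT_add, piT_mono (Nat.le_add_right b s0) hb, map_zero])
  obtain ⟨c2, rfl⟩ : ∃ c2, c1 = c2 + m * k' := ⟨c1 - m * k', by omega⟩
  have h3 := h1 (Pt.el (hL.fd _) (eT d p _)) _ g c2 (by rw [hg, sub_self, map_zero]) PUnit.unit
  have h4 := (hex _ (by omega) _).1 h3
  rw [Γ.D_replicate, wt_replicate, Nat.cast_mul s m, ← mul_assoc, hlin] at h4
  refine hfin A (piT_mono ?_ (hL.zero _))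
  zify
  push_cast at h4
  rw [hk']
  rw [hk'] at h4
  linarith

end

theorem t_O2A (k : Type u) [Field k] [IsAlgClosed k] (R : Type u) [Ring R] [Algebra k R]
    [FiniteDimensional k R] :
    S_O2A k R :=
  fun _ _ _ hL Γ _ _ hl f s δ hs hD hi => fo2a_A hL Γ hl f s δ hs hD hi

theorem t_O2B (k : Type u) [Field k] [IsAlgClosed k] (R : Type u) [Ring R] [Algebra k R]
    [FiniteDimensional k R]
    (hWR : S_WR k R) :
    S_O2B k R :=
  fun d p _ hL Γ _ _ hl e s δ hs hD hi hlin => fo2a_B (hWR d p) hL Γ hl e s δ hs hD hi hlin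

end Pool.Agent.P.MP_cf639b_al
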