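import Pool.Agent.P.MP_cf639b_al.IfF

set_option linter.dupNamespace false

namespace Pool.Agent.P.MP_cf639b_al

universe u v
open TensorProduct Polynomial Function

section aux
variable {k : Type u} [Field k] {R : Type u} [Ring R] [Algebra k R]
  {S : Type u} [Ring S] [Algebra k S]

/-- identifications with the dual vector space -/
abbrev fpf_DE (B : Md k S) (T : Md k R) : Type u := B ≃ₗ[k] Module.Dual k T

theorem fpf_DE.fd {B : Md k S} {T : Md k R} (E : fpf_DE B T) (h : T.fd) :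
    B.fd ∧ Module.finrank k B = Module.finrank k T :=
  ⟨Module.Finite.equiv E.symm, E.finrank_eq.trans Subspace.dual_finrank_eq⟩

theorem fpf_DE.bij {B : Md k S} {T C : Md k R} (E : fpf_DE B T) (E' : fpf_DE C B) (h : T.fd)
    (g : T →ₗ[R] C) (hg : ∀ t b, E' (g t) b = E b t) : Bijective g := by
  obtain ⟨h1, r1⟩ := E.fd h
  obtain ⟨h2, r2⟩ := E'.fd h1
  have hi : Injective (g.restrictScalars k) := by
    rw [injective_iff_map_eq_zero]
    intro t ht
    refine (Module.forall_dual_apply_eq_zero_iff k t).1 fun φ => ?_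
    rw [← E.apply_symm_apply φ, ← hg, show g t = 0 from ht, map_zero, LinearMap.zero_apply]
  exact ⟨hi, (LinearMap.injective_iff_surjective_of_finrank_eq_finrank (r2.trans r1).symm).1 hi⟩

/-- the dual module as the dual vector space -/
noncomputable def fpf_E (σ : Anti k R S) (T : Md k R) : fpf_DE (Dk σ T) T where
  toFun h :=
    { toFun := fun t => (h : DT σ (FO.ofMd T)) t
      map_add' := (DT.lin (σ := σ) (A := FO.ofMd T) h).map_add
      map_smul' := fun c t =>
        (congrArg (DT.lin (σ := σ) (A := FO.ofMd T) h) (FO.smul_k (FO.ofMd T) c t)).symm.trans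
          ((DT.lin (σ := σ) (A := FO.ofMd T) h).map_smul c t) }
  map_add' _ _ := rfl
  map_smul' _ _ := rfl
  invFun φ := DT.of σ
    { toFun := fun t => φ t
      map_add' := φ.map_add
      map_smul' := fun c t =>
        (congrArg φ (FO.smul_k (FO.ofMd T) c t)).trans (φ.map_smul c t) }
  left_inv _ := rfl
  right_inv _ := rfl

theorem fpf_fd (σ : Anti k R S) {T : Md k R} (h : T.fd) : (Dk σ T).fd := ((fpf_E σ T).fd h).1

/-- evaluation -/
noncomputable def fpf_ev (σ : Anti k R S) (T : Md k R) : T →ₗ[R] Dk σ.symm (Dk σ T) where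
  toFun t := (fpf_E σ.symm (Dk σ T)).symm (Module.Dual.eval k T t ∘ₗ (fpf_E σ T).toLinearMap)
  map_add' t t' := DT.ext (σ := σ.symm) (A := FO.ofMd (Dk σ T)) fun h =>
    (DT.lin (σ := σ) (A := FO.ofMd T) h).map_add t t'
  map_smul' r t := DT.ext (σ := σ.symm) (A := FO.ofMd (Dk σ T)) fun h => by
    change (h : DT σ (FO.ofMd T)) (r • t) = (h : DT σ (FO.ofMd T)) (σ.e.symm (σ.e r) • t)
    rw [LinearEquiv.symm_apply_apply]

theorem fpf_ev_bij (σ : Anti k R S) {T : Md k R} (h : T.fd) : Bijective (fpf_ev σ T) :=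
  (fpf_E σ T).bij (fpf_E σ.symm (Dk σ T)) h _ fun _ _ => rfl

theorem fpf_opop (σ : Anti k R S) (d : Fam R) : (d.op σ).op σ.symm = d := by
  cases d
  simp [Fam.op, Anti.symm]

theorem fpf_surj (d : Fam R) (p : k) {T T' : Md k R} {g : T →ₗ[R] T'} (h : Bijective g) :
    Surjective (mapT d p g) := fun x =>
  ⟨mapT d p (LinearEquiv.ofBijective g h).symm.toLinearMap x, by
    rw [← mapT_comp, show g ∘ₗ (LinearEquiv.ofBijective g h).symm.toLinearMap = LinearMap.id from
      LinearMap.ext fun t => (LinearEquiv.ofBijective g h).apply_symm_apply t, mapT_id]⟩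

theorem fpf_fin [FiniteDimensional k R] (L : Lib k) (d : Fam R) (p : k) {T : Md k R} (h : T.fd) :
    Module.Finite k (TT d p T) := by
  obtain ⟨n, hn⟩ := (L.noe R).expok d T h p
  have h1 : (MJ d p n).fd := by
    have h2 := ((L.fd R).jq k ((X - C p) ^ n) ((monic_X_sub_C p).pow n)).1
    exact ((L.fd R).ofk _).1 ((L.fd R).m k d _ h2)
  have h2 : Module.Finite k (MJ d p n →ₗ[R] T) :=
    Module.Finite.of_injective (LinearMap.restrictScalarsₗ k R (MJ d p n) T k)
      (LinearMap.restrictScalars_injective k)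
  have h3 : TS d p T ≤ LinearMap.range
      (LinearMap.applyₗ (R := k) (eJ d p n) ∘ₗ (Emap d : (MJ d p n →ₗ[R] T) →ₗ[k] _)) := by
    intro u hu
    obtain ⟨a, ha⟩ := (L.rep R).repk d T p n u (hn u hu)
    exact ⟨a, ha.symm⟩
  exact Submodule.finiteDimensional_of_le h3

theorem fpf_bal {σ : Anti k R S} {d : Fam R} {p : k} (β : Lk σ d p) (T : Md k R) (n : ℕ) :
    ∀ x y, β.β T ((piT d p T ^ n) x) y = β.β T x ((piT (d.op σ) p _ ^ n) y) := by
  induction n with
  | zero => intro x y; rfl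
  | succ n ih =>
    intro x y
    rw [pow_succ', Module.End.mul_apply, β.bal, ih, pow_succ, Module.End.mul_apply]

theorem fpf_adj {σ : Anti k R S} {d : Fam R} {p : k} {β : Lk σ d p} {Γ : Calc d p}
    {Γ' : Calc (d.op σ) p} (h : Adj β Γ Γ') (e : Bool) (s : ℕ) :
    ∀ (U : Md k R) (T : Md k S), U.fd → T.fd → ∀ θ : T →ₗ[S] Dk σ U, Bijective θ →
      ∃ θ1 : Γ'.ob (List.replicate s e) T →ₗ[S] Dk σ (Γ.ob (List.replicate s (!e)) U), ∀ y x,
        β.β _ y (mapT (d.op σ) p θ1 (Γ'.trL (List.replicate s e) T x)) =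
          β.β U (Γ.rtL (List.replicate s (!e)) U y) (mapT (d.op σ) p θ x) := by
  induction s with
  | zero => exact fun U T _ _ θ _ => ⟨θ, fun _ _ => rfl⟩
  | succ s ih =>
    intro U T hU hT θ hθ
    obtain ⟨θ1, b1, e1⟩ := h e U T hU hT θ hθ
    obtain ⟨θ2, e2⟩ := ih _ _ (Γ.fd _ U hU) (Γ'.fd _ T hT) θ1 b1
    exact ⟨θ2, fun y x => (e2 y (Γ'.tr e T x)).trans (e1 _ x)⟩

end aux

theorem t_PF (k : Type u) [Field k] [IsAlgClosed k] (R : Type u) [Ring R] [Algebra k R]
    [FiniteDimensional k R]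
    (L : Lib k)
    (hPF1 : ∀ (S : Type u) [Ring S] [Algebra k S] [FiniteDimensional k S], S_PF1 k S) :
    S_PF k R := by
  intro S _ _ _ σ d p
  obtain ⟨β, hβ⟩ := hPF1 R S σ d p
  obtain ⟨β', hβ'⟩ := hPF1 S R σ.symm (d.op σ) p
  refine ⟨β, fun T hT => ?_⟩
  have h1 := fpf_fd σ hT
  have h2 := fpf_fd σ.symm h1
  have f1 := fpf_fin L d p hT
  have f2 := fpf_fin L (d.op σ) p h1
  have f3 := fpf_fin L ((d.op σ).op σ.symm) p h2
  have r1 := LinearMap.finrank_le_finrank_of_injective (hβ T hT)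
  have r2 := LinearMap.finrank_le_finrank_of_injective (hβ' _ h1)
  have r3 := LinearMap.finrank_le_finrank_of_surjective (fpf_surj d p (fpf_ev_bij σ hT))
  have r4 : Module.finrank k (TT ((d.op σ).op σ.symm) p (Dk σ.symm (Dk σ T))) =
      Module.finrank k (TT d p (Dk σ.symm (Dk σ T))) := by rw [fpf_opop]
  have r5 := Subspace.dual_finrank_eq (K := k) (V := TT (d.op σ) p (Dk σ T))
  have r6 := Subspace.dual_finrank_eq (K := k)
    (V := TT ((d.op σ).op σ.symm) p (Dk σ.symm (Dk σ T)))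
  have hb : Bijective (β.β T) := ⟨hβ T hT,
    (LinearMap.injective_iff_surjective_of_finrank_eq_finrank
      (le_antisymm r1 (r5.le.trans (r2.trans (r6.le.trans (r4.le.trans r3)))))).1 (hβ T hT)⟩
  exact ⟨f1, f2, hb, LinearMap.flip_bijective_iff₂.2 hb⟩

theorem t_DIV (k : Type u) [Field k] [IsAlgClosed k] (R : Type u) [Ring R] [Algebra k R]
    [FiniteDimensional k R] :
    S_DIV k R := by
  intro S _ _ _ σ d p β hβ Γ Γ' hA lam' c hL e s
  obtain ⟨N0, hN⟩ := hL.ub (List.replicate s e)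
  rw [Calc.D_replicate, wt_replicate] at hN
  push_cast at hN
  generalize hδ : (s * Γ'.v e + lam' (sg e * s) : ℤ) = δ
  refine ⟨N0 + δ.toNat, ((N0 + δ.toNat : ℕ) - δ).toNat, by omega, fun U hU y => ?_⟩
  generalize hn' : (((N0 + δ.toNat : ℕ) : ℤ) - δ).toNat = n'
  have hD := fpf_fd σ hU
  obtain ⟨θ, hθ⟩ := fpf_adj hA e s U (Dk σ U) hU hD LinearMap.id bijective_id
  obtain ⟨-, -, -, hf⟩ := hβ U hU
  refine (Subspace.forall_mem_dualAnnihilator_apply_eq_zero_iff
    (LinearMap.range (piT d p U ^ (N0 + δ.toNat))) _).1 fun φ hφ => ?_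
  obtain ⟨x, rfl⟩ := hf.2 φ
  have hx : (piT (d.op σ) p _ ^ (N0 + δ.toNat)) x = 0 := by
    refine hf.1 (LinearMap.ext fun t => ?_)
    have := (Submodule.mem_dualAnnihilator _).1 hφ _ ⟨t, rfl⟩
    rw [map_zero]
    exact (fpf_bal β U _ t x).symm.trans this
  have h0 := hN _ hD x _ n' (Nat.le_add_right _ _) (by omega) hx
  change β.β U _ x = 0
  rw [← Γ.rtL_pi _ hU, ← mapT_id x, ← hθ, fpf_bal, ← mapT_pi, h0, map_zero, map_zero]

end Pool.Agent.P.MP_cf639b_al
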