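import Pool.Agent.P.MP_cf639b_al.IfF

set_option linter.dupNamespace false

namespace Pool.Agent.P.MP_cf639b_al

universe u v
open TensorProduct Polynomial Function

noncomputable section

section gen
variable {k : Type u} [Field k] {U T U' T' : Type u} [AddCommGroup U] [Module k U]
  [AddCommGroup T] [Module k T] [AddCommGroup U'] [Module k U'] [AddCommGroup T'] [Module k T']

/-- the polynomial valued pairing -/
def fpf1_q (e : U →ₗ[k] T →ₗ[k] k) : (ℕ →₀ U) →ₗ[k] (ℕ →₀ T) →ₗ[k] k[X] :=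
  Finsupp.lsum k fun l => (Finsupp.lsum k fun l' => (e.compr₂ (monomial (l + l'))).flip).flip

theorem fpf1_q_single (e : U →ₗ[k] T →ₗ[k] k) (l l' : ℕ) (u : U) (t : T) :
    fpf1_q e (Finsupp.single l u) (Finsupp.single l' t) = monomial (l + l') (e u t) := by
  simp [fpf1_q]

theorem fpf1_q_adj (e : U →ₗ[k] T →ₗ[k] k) (e' : U' →ₗ[k] T' →ₗ[k] k)
    (F : (ℕ →₀ U) →+ (ℕ →₀ U')) (G : (ℕ →₀ T') →+ (ℕ →₀ T)) (c : k[X])
    (h : ∀ l u l' t, fpf1_q e' (F (Finsupp.single l u)) (Finsupp.single l' t) =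
      c * fpf1_q e (Finsupp.single l u) (G (Finsupp.single l' t))) (w : ℕ →₀ U) (z : ℕ →₀ T') :
    fpf1_q e' (F w) z = c * fpf1_q e w (G z) := by
  induction w using Finsupp.induction_linear with
  | zero => simp
  | add a b ha hb => simp only [map_add, LinearMap.add_apply, ha, hb, mul_add]
  | single l u =>
    induction z using Finsupp.induction_linear with
    | zero => simp
    | add a b ha hb => simp only [map_add, ha, hb, mul_add]
    | single l' t => exact h l u l' t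

/-- the pairing on families -/
def fpf1_pr (e : U →ₗ[k] T →ₗ[k] k) (n : ℕ) :
    (Fin n → ℕ →₀ U) →ₗ[k] (Fin n → ℕ →₀ T) →ₗ[k] k[X] :=
  ∑ a, (fpf1_q e).compl₁₂ (LinearMap.proj a) (LinearMap.proj a)

theorem fpf1_pr_apply (e : U →ₗ[k] T →ₗ[k] k) {n : ℕ} (w : Fin n → ℕ →₀ U) (z : Fin n → ℕ →₀ T) :
    fpf1_pr e n w z = ∑ a, fpf1_q e (w a) (z a) := by
  simp [fpf1_pr, LinearMap.sum_apply]

variable (T) in
/-- the operator `x - p` on families -/
def fpf1_P (p : k) (n : ℕ) : Module.End k (Fin n → ℕ →₀ T) :=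
  (shift k T).compLeft (Fin n) - p • 1

theorem fpf1_P_apply (p : k) {n : ℕ} (z : Fin n → ℕ →₀ T) :
    fpf1_P T p n z = (fun a => shift k T (z a)) - p • z := rfl

theorem fpf1_P_left (e : U →ₗ[k] T →ₗ[k] k) (p : k) {n : ℕ} (w : Fin n → ℕ →₀ U)
    (z : Fin n → ℕ →₀ T) : fpf1_pr e n (fpf1_P U p n w) z = (X - C p) * fpf1_pr e n w z := by
  rw [fpf1_P_apply, map_sub, map_smul, LinearMap.sub_apply, LinearMap.smul_apply, sub_mul,
    smul_eq_C_mul]
  congr 1
  rw [fpf1_pr_apply, fpf1_pr_apply, Finset.mul_sum]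
  refine Finset.sum_congr rfl fun a _ => fpf1_q_adj e e (shift k U).toAddMonoidHom
    (AddMonoidHom.id _) X (fun l u l' t => ?_) _ _
  simp only [LinearMap.toAddMonoidHom_coe, shift_single, AddMonoidHom.id_apply, fpf1_q_single,
    X_mul_monomial, add_right_comm]

theorem fpf1_P_right (e : U →ₗ[k] T →ₗ[k] k) (p : k) {n : ℕ} (w : Fin n → ℕ →₀ U)
    (z : Fin n → ℕ →₀ T) : fpf1_pr e n w (fpf1_P T p n z) = (X - C p) * fpf1_pr e n w z := by
  rw [← fpf1_P_left, fpf1_P_apply, fpf1_P_apply, map_sub, map_smul, map_sub, map_smul,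
    LinearMap.sub_apply, LinearMap.smul_apply]
  congr 1
  rw [fpf1_pr_apply, fpf1_pr_apply]
  refine Finset.sum_congr rfl fun a _ => ((fpf1_q_adj e e (shift k U).toAddMonoidHom
    (shift k T).toAddMonoidHom 1 (fun l u l' t => ?_) _ _).trans (one_mul _)).symm
  simp only [LinearMap.toAddMonoidHom_coe, shift_single, fpf1_q_single, one_mul, add_right_comm,
    add_assoc]

theorem fpf1_pow_left (e : U →ₗ[k] T →ₗ[k] k) (p : k) {n : ℕ} (N : ℕ) (w : Fin n → ℕ →₀ U)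
    (z : Fin n → ℕ →₀ T) :
    fpf1_pr e n ((fpf1_P U p n ^ N) w) z = (X - C p) ^ N * fpf1_pr e n w z := by
  induction N with
  | zero => simp
  | succ N ih => rw [pow_succ', Module.End.mul_apply, fpf1_P_left, ih, pow_succ', mul_assoc]

theorem fpf1_pow_right (e : U →ₗ[k] T →ₗ[k] k) (p : k) {n : ℕ} (N : ℕ) (w : Fin n → ℕ →₀ U)
    (z : Fin n → ℕ →₀ T) :
    fpf1_pr e n w ((fpf1_P T p n ^ N) z) = (X - C p) ^ N * fpf1_pr e n w z := by
  induction N with
  | zero => simp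
  | succ N ih => rw [pow_succ', Module.End.mul_apply, fpf1_P_right, ih, pow_succ', mul_assoc]

theorem fpf1_pr_const (e : U →ₗ[k] T →ₗ[k] k) {n : ℕ} (h : Fin n → U) (a : Fin n) (t : T) :
    fpf1_pr e n (fun b => Finsupp.single 0 (h b)) (Pi.single a (Finsupp.single 0 t)) =
      C (e (h a) t) := by
  rw [fpf1_pr_apply, Finset.sum_eq_single a (fun b _ hb => by simp [hb]) (by simp),
    Pi.single_eq_same, fpf1_q_single, monomial_zero_left]

/-- induction on polynomial vectors -/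
theorem fpf1_ind (p : k) {n : ℕ} (W : Submodule k (Fin n → ℕ →₀ T))
    (h0 : ∀ (a : Fin n) (t : T), Pi.single a (Finsupp.single 0 t) ∈ W) (h1 : ∀ z ∈ W, fpf1_P T p n z ∈ W)
    (z : Fin n → ℕ →₀ T) : z ∈ W := by
  rw [← Finset.univ_sum_single z]
  refine W.sum_mem fun a _ => ?_
  induction z a using Finsupp.induction_linear with
  | zero => simp
  | add x y hx hy => rw [Pi.single_add]; exact W.add_mem hx hy
  | single l t =>
    induction l with
    | zero => exact h0 a t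
    | succ l ih =>
      have := W.add_mem (h1 _ ih) (W.smul_mem p ih)
      rw [fpf1_P_apply, sub_add_cancel] at this
      refine (congrArg (· ∈ W) (funext fun b => ?_)).mp this
      by_cases hb : b = a
      · subst hb; simp
      · simp [hb]

theorem fpf1_div1 (p : k) {n : ℕ} (z : Fin n → ℕ →₀ T) : ∃ (w : Fin n → ℕ →₀ T) (h : Fin n → T),
    z = fpf1_P T p n w + fun b => Finsupp.single 0 (h b) := by
  have := fpf1_ind p (LinearMap.range (fpf1_P T p n) ⊔
    LinearMap.range ((Finsupp.lsingle 0 : T →ₗ[k] _).compLeft (Fin n))) (fun a t =>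
      Submodule.mem_sup_right ⟨Pi.single a t, funext fun b => by
        by_cases hb : b = a
        · subst hb; simp
        · simp [hb]⟩) (fun z _ => Submodule.mem_sup_left ⟨z, rfl⟩) z
  obtain ⟨_, ⟨w, rfl⟩, _, ⟨h, rfl⟩, e⟩ := Submodule.mem_sup.1 this
  exact ⟨w, h, e.symm⟩

theorem fpf1_div (e : U →ₗ[k] T →ₗ[k] k) (he : Injective e) (p : k) {n : ℕ} (N : ℕ)
    (w : Fin n → ℕ →₀ U) (h : ∀ z, (X - C p) ^ N ∣ fpf1_pr e n w z) :
    ∃ w', (fpf1_P U p n ^ N) w' = w := by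
  induction N generalizing w with
  | zero => exact ⟨w, rfl⟩
  | succ N ih =>
    obtain ⟨w1, g, rfl⟩ := fpf1_div1 p w
    have g0 : (fun b => Finsupp.single 0 (g b) : Fin n → ℕ →₀ U) = 0 := funext fun a => by
      rw [he (a₁ := g a) (a₂ := 0) (LinearMap.ext fun t => ?_), Finsupp.single_zero, Pi.zero_apply]
      have := (dvd_pow_self _ N.succ_ne_zero).trans (h (Pi.single a (Finsupp.single 0 t)))
      rw [map_add, LinearMap.add_apply, fpf1_P_left, fpf1_pr_const,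
        dvd_add_right (dvd_mul_right _ _), dvd_iff_isRoot] at this
      simpa using this
    rw [g0, add_zero] at h ⊢
    obtain ⟨w', rfl⟩ := ih w1 fun z => by
      have := h z
      rwa [fpf1_P_left, pow_succ', mul_dvd_mul_iff_left (X_sub_C_ne_zero p)] at this
    exact ⟨w', by rw [pow_succ', Module.End.mul_apply]⟩

/-- the residue of `f / (x - p) ^ N` -/
def fpf1_res (p : k) (N : ℕ) : k[X] →ₗ[k] k := lcoeff k N ∘ₗ LinearMap.mulLeft k X ∘ₗ taylor p

theorem fpf1_res_succ (p : k) (N : ℕ) (f : k[X]) :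
    fpf1_res p (N + 1) ((X - C p) * f) = fpf1_res p N f := by
  simp [fpf1_res, taylor_mul, coeff_X_mul]

theorem fpf1_res_add (p : k) (N j : ℕ) (f : k[X]) :
    fpf1_res p (N + j) ((X - C p) ^ j * f) = fpf1_res p N f := by
  induction j with
  | zero => simp
  | succ j ih => rw [← add_assoc, pow_succ', mul_assoc, fpf1_res_succ, ih]

theorem fpf1_res_zero (p : k) (N : ℕ) (f : k[X]) : fpf1_res p N ((X - C p) ^ N * f) = 0 := by
  have := fpf1_res_add p 0 N f
  rw [zero_add] at this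
  rw [this]
  simp [fpf1_res]

theorem fpf1_res_one (p c : k) : fpf1_res p 1 (C c) = c := by
  simp [fpf1_res]

theorem fpf1_res_C (p c : k) (N : ℕ) : fpf1_res p (N + 2) (C c) = 0 := by
  simp [fpf1_res]

end gen

section main
variable {k : Type u} [Field k] {R : Type u} [Ring R] [Algebra k R] {S : Type u} [Ring S]
  [Algebra k S]

theorem fpf1_smul {F : Type u} [Field F] [Algebra k F] {σ : Anti k R S} {A : FO k R F}
    (h : DT σ A) (c : k) (t : A.X) : h (c • t) = c • h t := h.lin.map_smul_of_tower c t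

/-- evaluation -/
def fpf1_ev (σ : Anti k R S) (T : Md k R) : Dk σ T →ₗ[k] T →ₗ[k] k :=
  LinearMap.mk₂ k (fun h t => (h : DT σ (FO.ofMd T)) t) (fun _ _ _ => rfl) (fun _ _ _ => rfl)
    (fun h => map_add (h : DT σ (FO.ofMd T))) fun c h t => fpf1_smul (h : DT σ (FO.ofMd T)) c t

theorem fpf1_ev_inj (σ : Anti k R S) (T : Md k R) : Injective (fpf1_ev σ T) :=
  fun _ _ e => DT.ext (σ := σ) (A := FO.ofMd T) fun t => LinearMap.congr_fun e t

theorem fpf1_ev_surj (σ : Anti k R S) (T : Md k R) : Surjective (fpf1_ev σ T) := fun f =>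
  ⟨DT.of σ (A := FO.ofMd T)
    { toFun := f
      map_add' := f.map_add
      map_smul' := fun c t => (congrArg f (FO.smul_k (FO.ofMd T) c t)).trans (f.map_smul c t) },
    rfl⟩

theorem fpf1_ev_smul (σ : Anti k R S) (T : Md k R) (r : R) (h : Dk σ T) (t : T) :
    fpf1_ev σ T (σ.e r • h) t = fpf1_ev σ T h (r • t) :=
  congrArg (fun s : R => fpf1_ev σ T h (s • t)) (σ.e.symm_apply_apply r)

/-- the transposed operator -/
def fpf1_DD (σ : Anti k R S) (d : Fam R) (T : Md k R) :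
    (Fin d.n1 → ℕ →₀ Dk σ T) →ₗ[k] (Fin d.n0 → ℕ →₀ Dk σ T) := DX (d.op σ) (Dk σ T)

/-- the class map of the transposed operator -/
def fpf1_E (σ : Anti k R S) (d : Fam R) (T : Md k R) :
    (Fin d.n0 → ℕ →₀ Dk σ T) →ₗ[k] EE (d.op σ) (Dk σ T) := Emk (d.op σ) (Dk σ T)

theorem fpf1_surj {σ : Anti k R S} {d : Fam R} {T : Md k R} (y : EE (d.op σ) (Dk σ T)) :
    ∃ θ, fpf1_E σ d T θ = y := Emk_surj _ _ y

theorem fpf1_zero {σ : Anti k R S} {d : Fam R} {T : Md k R} {θ : Fin d.n0 → ℕ →₀ Dk σ T} :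
    fpf1_E σ d T θ = 0 ↔ ∃ w, fpf1_DD σ d T w = θ := Emk_eq_zero (d := d.op σ)

theorem fpf1_D (σ : Anti k R S) (d : Fam R) (T : Md k R) (w : Fin d.n1 → ℕ →₀ Dk σ T)
    (z : Fin d.n0 → ℕ →₀ T) : fpf1_pr (fpf1_ev σ T) d.n0 (fpf1_DD σ d T w) z =
      fpf1_pr (fpf1_ev σ T) d.n1 w (DX d T z) := by
  have e : ∀ b, fpf1_DD σ d T w b = ∑ i ∈ Finset.range (d.r + 1), ∑ a,
      σ.e (d.c i a b) • (shift S (Dk σ T) ^ i) (w a) := fun _ => rfl
  simp only [fpf1_pr_apply, e, Dop_apply, map_sum, LinearMap.sum_apply]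
  rw [Finset.sum_comm, Finset.sum_comm (s := Finset.univ) (t := Finset.range _)]
  refine Finset.sum_congr rfl fun i _ => Finset.sum_comm.trans (Finset.sum_congr rfl fun a _ =>
    Finset.sum_congr rfl fun b _ => ?_)
  refine (fpf1_q_adj (fpf1_ev σ T) (fpf1_ev σ T)
    ((DistribSMul.toAddMonoidHom _ (σ.e (d.c i a b))).comp (shift S (Dk σ T) ^ i).toAddMonoidHom)
    ((DistribSMul.toAddMonoidHom _ (d.c i a b)).comp (shift R T ^ i).toAddMonoidHom) 1
    (fun l u l' t => ?_) _ _).trans (one_mul _)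
  simp only [AddMonoidHom.comp_apply, LinearMap.toAddMonoidHom_coe, shift_pow_single,
    DistribSMul.toAddMonoidHom_apply, Finsupp.smul_single, fpf1_q_single, one_mul]
  rw [fpf1_ev_smul, add_right_comm, add_assoc]

theorem fpf1_nat (σ : Anti k R S) {T T' : Md k R} (g : T →ₗ[R] T') {n : ℕ}
    (w : Fin n → ℕ →₀ Dk σ T') (z : Fin n → ℕ →₀ T) :
    fpf1_pr (fpf1_ev σ T) n (fun a => Finsupp.mapRange.linearMap (Dkm σ g) (w a)) z =
      fpf1_pr (fpf1_ev σ T') n w fun a => Finsupp.mapRange.linearMap g (z a) := by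
  simp only [fpf1_pr_apply]
  refine Finset.sum_congr rfl fun a _ => (fpf1_q_adj (fpf1_ev σ T') (fpf1_ev σ T)
    (Finsupp.mapRange.linearMap (Dkm σ g)).toAddMonoidHom
    (Finsupp.mapRange.linearMap g).toAddMonoidHom 1 (fun l u l' t => ?_) _ _).trans (one_mul _)
  simp only [LinearMap.toAddMonoidHom_coe, Finsupp.mapRange.linearMap_apply,
    Finsupp.mapRange_single, fpf1_q_single, one_mul]
  rfl

theorem fpf1_mk1 (d : Fam R) (p : k) (T : Md k R) (z : Fin d.n1 → ℕ →₀ T) :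
    Emk d T (fpf1_P T p _ z) = piK d p T (Emk d T z) := by
  rw [fpf1_P_apply, map_sub, map_smul]; rfl

theorem fpf1_mk (d : Fam R) (p : k) (T : Md k R) (N : ℕ) (z : Fin d.n1 → ℕ →₀ T) :
    Emk d T ((fpf1_P T p _ ^ N) z) = (piK d p T ^ N) (Emk d T z) :=
  pow_comm_of (Emk d T) (fpf1_mk1 d p T) N z

theorem fpf1_DP (d : Fam R) (p : k) (T : Md k R) (N : ℕ) (z : Fin d.n0 → ℕ →₀ T) :
    DX d T ((fpf1_P T p _ ^ N) z) = (fpf1_P T p _ ^ N) (DX d T z) :=
  pow_comm_of (DX d T) (fun z => by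
    rw [fpf1_P_apply, fpf1_P_apply, map_sub, map_smul]
    exact congrArg (· - _) (Dop_nat d _ _ (shift R T) rfl z)) N z

theorem fpf1_key {d : Fam R} {p : k} {T : Md k R} {x : TT d p T} {N : ℕ}
    (h : (piT d p T ^ N) x = 0) {η : Fin d.n1 → ℕ →₀ T} (e : Emk d T η = x.1) :
    ∃ ξ, DX d T ξ = (fpf1_P T p _ ^ N) η :=
  Emk_eq_zero.1 (by rw [fpf1_mk, e, ← piT_pow_coe, h]; rfl)

theorem fpf1_ex (σ : Anti k R S) (d : Fam R) (p : k) (T : Md k R) (x : TT d p T)
    (y : TT (d.op σ) p (Dk σ T)) : ∃ c : k, ∀ N η ξ η', Emk d T η = x.1 →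
      fpf1_E σ d T η' = y.1 → DX d T ξ = (fpf1_P T p _ ^ N) η →
      c = fpf1_res p N (fpf1_pr (fpf1_ev σ T) d.n0 η' ξ) := by
  obtain ⟨N, hN⟩ := piT_nil x
  obtain ⟨N', hN'⟩ := piT_nil y
  obtain ⟨η, e⟩ := Emk_surj d T x.1
  obtain ⟨η', e'⟩ := fpf1_surj y.1
  obtain ⟨ξ, h⟩ := fpf1_key hN e
  obtain ⟨ξ', h'⟩ : ∃ ξ', fpf1_DD σ d T ξ' = (fpf1_P _ p d.n0 ^ N') η' := fpf1_key hN' e'
  refine ⟨fpf1_res p N (fpf1_pr (fpf1_ev σ T) d.n0 η' ξ), fun M θ ζ θ' a a' b => ?_⟩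
  obtain ⟨u, hu⟩ := Emk_eq_zero.1 (show Emk d T (θ - η) = 0 by rw [map_sub, a, e, sub_self])
  obtain ⟨u', hu'⟩ := fpf1_zero.1
    (show fpf1_E σ d T (θ' - η') = 0 by rw [map_sub, a', e', sub_self])
  have z : DX d T ((fpf1_P T p _ ^ M) ξ + (fpf1_P T p _ ^ (N + M)) u - (fpf1_P T p _ ^ N) ζ) = 0 := by
    rw [map_sub, map_add, fpf1_DP, fpf1_DP, fpf1_DP, h, hu, b, ← Module.End.mul_apply,
      ← Module.End.mul_apply, ← pow_add, ← pow_add, add_comm M, map_sub]
    abel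
  have z1 := fpf1_D σ d T ξ' ((fpf1_P T p _ ^ M) ξ + (fpf1_P T p _ ^ (N + M)) u -
    (fpf1_P T p _ ^ N) ζ)
  rw [z, map_zero, h', fpf1_pow_left, mul_eq_zero, map_sub, map_add, fpf1_pow_right,
    fpf1_pow_right, fpf1_pow_right] at z1
  have z2 := congrArg (fpf1_res p (N + M)) (z1.resolve_left (pow_ne_zero _ (X_sub_C_ne_zero p)))
  rw [map_sub, map_add, fpf1_res_add, fpf1_res_zero, add_comm N, fpf1_res_add, map_zero, add_zero,
    sub_eq_zero] at z2
  rw [z2, ← sub_add_cancel θ' η', ← hu', map_add, LinearMap.add_apply, map_add, fpf1_D, b,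
    fpf1_pow_right, fpf1_res_zero, zero_add]

/-- the pairing -/
def fpf1_b (σ : Anti k R S) (d : Fam R) (p : k) (T : Md k R) (x : TT d p T)
    (y : TT (d.op σ) p (Dk σ T)) : k := (fpf1_ex σ d p T x y).choose

theorem fpf1_spec {σ : Anti k R S} {d : Fam R} {p : k} {T : Md k R} {x : TT d p T}
    {y : TT (d.op σ) p (Dk σ T)} {N η ξ η'} (e : Emk d T η = x.1)
    (e' : fpf1_E σ d T η' = y.1) (h : DX d T ξ = (fpf1_P T p _ ^ N) η) :
    fpf1_b σ d p T x y = fpf1_res p N (fpf1_pr (fpf1_ev σ T) d.n0 η' ξ) :=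
  (fpf1_ex σ d p T x y).choose_spec N η ξ η' e e' h

theorem fpf1_rep {d : Fam R} {p : k} {T : Md k R} (x : TT d p T) :
    ∃ N η ξ, Emk d T η = x.1 ∧ DX d T ξ = (fpf1_P T p _ ^ N) η := by
  obtain ⟨N, hN⟩ := piT_nil x
  obtain ⟨η, e⟩ := Emk_surj d T x.1
  obtain ⟨ξ, h⟩ := fpf1_key hN e
  exact ⟨N, η, ξ, e, h⟩

/-- the pairing as a bilinear map -/
def fpf1_B (σ : Anti k R S) (d : Fam R) (p : k) (T : Md k R) :
    TT d p T →ₗ[k] TT (d.op σ) p (Dk σ T) →ₗ[k] k :=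
  LinearMap.mk₂ k (fpf1_b σ d p T)
    (fun x x' y => by
      obtain ⟨N, hN⟩ := piT_nil x
      obtain ⟨N', hN'⟩ := piT_nil x'
      obtain ⟨η, e⟩ := Emk_surj d T x.1
      obtain ⟨η', e'⟩ := Emk_surj d T x'.1
      obtain ⟨θ, f⟩ := fpf1_surj y.1
      obtain ⟨ξ, h⟩ := fpf1_key (piT_mono (Nat.le_add_right N N') hN) e
      obtain ⟨ξ', h'⟩ := fpf1_key (piT_mono (Nat.le_add_left N' N) hN') e'
      rw [fpf1_spec e f h, fpf1_spec e' f h', fpf1_spec (x := x + x') (η := η + η') (ξ := ξ + ξ')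
        (N := N + N') (by rw [map_add, e, e']; rfl) f (by rw [map_add, map_add, h, h']), map_add,
        map_add])
    (fun c x y => by
      obtain ⟨N, η, ξ, e, h⟩ := fpf1_rep x
      obtain ⟨θ, f⟩ := fpf1_surj y.1
      rw [fpf1_spec e f h, fpf1_spec (x := c • x) (η := c • η) (ξ := c • ξ) (N := N)
        (by rw [map_smul, e]; rfl) f (by rw [map_smul, map_smul, h]), map_smul, map_smul])
    (fun x y y' => by
      obtain ⟨N, η, ξ, e, h⟩ := fpf1_rep x
      obtain ⟨θ, f⟩ := fpf1_surj y.1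
      obtain ⟨θ', f'⟩ := fpf1_surj y'.1
      rw [fpf1_spec e f h, fpf1_spec e f' h, fpf1_spec (y := y + y') (η' := θ + θ') e
        (by rw [map_add, f, f']; rfl) h, map_add, LinearMap.add_apply, map_add])
    (fun c x y => by
      obtain ⟨N, η, ξ, e, h⟩ := fpf1_rep x
      obtain ⟨θ, f⟩ := fpf1_surj y.1
      rw [fpf1_spec e f h, fpf1_spec (y := c • y) (η' := c • θ) e
        (by rw [map_smul, f]; rfl) h, map_smul, LinearMap.smul_apply, map_smul])

/-- the natural balanced pairing -/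
def fpf1_L (σ : Anti k R S) (d : Fam R) (p : k) : Lk σ d p where
  β := fpf1_B σ d p
  bal T x y := by
    obtain ⟨N, η, ξ, e, h⟩ := fpf1_rep x
    obtain ⟨θ, f⟩ := fpf1_surj y.1
    change fpf1_b σ d p T _ _ = fpf1_b σ d p T _ _
    rw [fpf1_spec (η := fpf1_P T p _ η) (ξ := fpf1_P T p _ ξ) (N := N)
      (by rw [fpf1_mk1, e]; rfl) f (by
        have := fpf1_DP d p T 1 ξ
        rw [pow_one, pow_one] at this
        rw [this, h, ← Module.End.mul_apply, ← pow_succ', pow_succ, Module.End.mul_apply]),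
      fpf1_spec (y := piT _ p _ y) (η' := fpf1_P _ p _ θ) e ((fpf1_mk1 (d.op σ) p _ θ).trans (congrArg (piK _ p _) f)) h,
      fpf1_P_left, fpf1_P_right]
  nat T T' g x y := by
    obtain ⟨N, η, ξ, e, h⟩ := fpf1_rep x
    obtain ⟨θ, f⟩ := fpf1_surj y.1
    change fpf1_b σ d p T' _ _ = fpf1_b σ d p T _ _
    rw [fpf1_spec (η := fun a => Finsupp.mapRange.linearMap g (η a))
      (ξ := fun a => Finsupp.mapRange.linearMap g (ξ a)) (N := N)
      (by rw [mapT_coe, ← e, Emap_mk]) f ?_,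
      fpf1_spec (η' := fun a => Finsupp.mapRange.linearMap (Dkm σ g) (θ a)) e
        (by rw [mapT_coe, ← f]; rfl) h, fpf1_nat]
    refine (Dop_nat d _ _ _ (mapRange_shift g) ξ).trans ?_
    refine (congrArg (fun (w : Fin d.n1 → ℕ →₀ T) a => Finsupp.mapRange.linearMap g (w a)) h).trans
      (pow_comm_of (((Finsupp.mapRange.linearMap g).restrictScalars k).compLeft (Fin d.n1))
        (fun z => ?_) N η)
    rw [fpf1_P_apply, fpf1_P_apply, map_sub, map_smul]
    exact congrArg (· - _) (funext fun a => LinearMap.congr_fun (mapRange_shift g) (z a))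

theorem fpf1_lam (σ : Anti k R S) (d : Fam R) (p : k) (T : Md k R) (l : EE d T →ₗ[k] k) (n : ℕ) :
    ∃ (w : Fin d.n1 → ℕ →₀ Dk σ T) (Φ : EE d T →ₗ[k] k[X]),
      (∀ a t, fpf1_pr (fpf1_ev σ T) d.n1 w (Pi.single a (Finsupp.single 0 t)) =
        Φ (Emk d T (Pi.single a (Finsupp.single 0 t)))) ∧
      (∀ u, (X - C p) * Φ u - Φ (piK d p T u) =
        (X - C p) ^ (n + 1) * C (l u) - C (l ((piK d p T ^ (n + 1)) u))) ∧
      ∀ u, fpf1_res p (n + 1) (Φ u) = l u := by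
  have c : ∀ l : EE d T →ₗ[k] k, ∃ w : Fin d.n1 → ℕ →₀ Dk σ T, ∀ a t,
      fpf1_pr (fpf1_ev σ T) d.n1 w (Pi.single a (Finsupp.single 0 t)) =
        C (l (Emk d T (Pi.single a (Finsupp.single 0 t)))) := fun l => by
    choose h hh using fun a => fpf1_ev_surj σ T
      (l ∘ₗ Emk d T ∘ₗ LinearMap.single k (fun _ => ℕ →₀ T) a ∘ₗ Finsupp.lsingle 0)
    exact ⟨_, fun a t => by rw [fpf1_pr_const _ h, hh]; rfl⟩
  induction n with
  | zero =>
    obtain ⟨w, hw⟩ := c l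
    exact ⟨w, monomial 0 ∘ₗ l, hw, fun u => by simp, fun u => fpf1_res_one p _⟩
  | succ n ih =>
    obtain ⟨w, Φ, h1, h2, h3⟩ := ih
    obtain ⟨w', hw⟩ := c (l ∘ₗ piK d p T ^ (n + 1))
    refine ⟨w' + fpf1_P _ p _ w, monomial 0 ∘ₗ l ∘ₗ piK d p T ^ (n + 1) +
      LinearMap.mulLeft k (X - C p) ∘ₗ Φ, fun a t => ?_, fun u => ?_, fun u => ?_⟩
    · rw [map_add, LinearMap.add_apply, hw, fpf1_P_left, h1]; rfl
    · have := h2 u
      simp only [LinearMap.add_apply, LinearMap.comp_apply, LinearMap.mulLeft_apply,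
        monomial_zero_left, pow_succ (piK d p T) (n + 1), Module.End.mul_apply]
      linear_combination (X - C p) * this
    · rw [LinearMap.add_apply, map_add]
      exact (congrArg₂ (· + ·) (fpf1_res_C p _ n) ((fpf1_res_succ p _ _).trans (h3 u))).trans
        (zero_add _)

theorem fpf1_inj (σ : Anti k R S) (d : Fam R) (p : k) (T : Md k R) (n : ℕ) (hn : Expo d p n T) :
    Injective (fpf1_B σ d p T) := by
  refine (injective_iff_map_eq_zero _).2 fun x hx => by_contra fun x0 => ?_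
  have nil : ∀ u, Trs (piK d p T) u → (piK d p T ^ (n + 1)) u = 0 := fun u hu => by
    rw [pow_succ', Module.End.mul_apply, hn u hu, map_zero]
  obtain ⟨l, l1, l2⟩ := Submodule.exists_le_ker_of_notMem
    (p := LinearMap.range (piK d p T ^ (n + 1))) (v := x.1) (by
      rintro ⟨u, hu⟩
      obtain ⟨m, hm⟩ := x.2
      refine x0 (Subtype.ext (hu.symm.trans (nil u ⟨m + (n + 1), ?_⟩)))
      rw [pow_add, Module.End.mul_apply, hu, hm])
  obtain ⟨w, Φ, h1, h2, h3⟩ := fpf1_lam σ d p T l n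
  have h4 : ∀ z, (X - C p) ^ (n + 1) ∣ fpf1_pr (fpf1_ev σ T) d.n1 w z - Φ (Emk d T z) :=
    fun z => Ideal.mem_span_singleton.1 <| fpf1_ind p (((Ideal.span {(X - C p) ^ (n + 1)}).restrictScalars k).comap
      (fpf1_pr (fpf1_ev σ T) d.n1 w - Φ ∘ₗ Emk d T)) (fun a t => by
        rw [Submodule.mem_comap, LinearMap.sub_apply, h1, LinearMap.comp_apply, sub_self]
        exact zero_mem _) (fun z hz => by
        rw [Submodule.mem_comap, LinearMap.sub_apply, LinearMap.comp_apply,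
          Submodule.restrictScalars_mem] at hz ⊢
        have := h2 (Emk d T z)
        rw [show l ((piK d p T ^ (n + 1)) _) = 0 from l2 ⟨_, rfl⟩, map_zero, sub_zero] at this
        rw [fpf1_P_right, fpf1_mk1, show ∀ a, (X - C p) * a - Φ (piK d p T (Emk d T z)) =
          (X - C p) * (a - Φ (Emk d T z)) + (X - C p) ^ (n + 1) * C (l (Emk d T z)) from
          fun a => by linear_combination this]
        exact add_mem (Ideal.mul_mem_left _ _ hz)
          (Ideal.mul_mem_right _ _ (Ideal.mem_span_singleton_self _))) z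
  obtain ⟨θ, hθ⟩ := fpf1_div _ (fpf1_ev_inj σ T) p (n + 1) (fpf1_DD σ d T w) fun z => by
    have := h4 (DX d T z)
    rwa [Emk_eq_zero.2 ⟨z, rfl⟩, map_zero, sub_zero, ← fpf1_D] at this
  obtain ⟨η, e⟩ := Emk_surj d T x.1
  obtain ⟨ξ, h⟩ := fpf1_key (N := n + 1)
    (Subtype.ext ((piT_pow_coe _ x).trans (nil _ x.2))) e
  have h5 := fpf1_D σ d T w ξ
  rw [h, ← hθ, fpf1_pow_left, fpf1_pow_right] at h5
  have h6 := fpf1_spec (σ := σ) (y := ⟨fpf1_E σ d T θ, n + 1,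
    (fpf1_mk (d.op σ) p _ _ θ).symm.trans (fpf1_zero.2 ⟨w, hθ.symm⟩)⟩) e rfl h
  obtain ⟨f, hf⟩ := h4 η
  rw [mul_left_cancel₀ (pow_ne_zero _ (X_sub_C_ne_zero p)) h5, eq_add_of_sub_eq hf, map_add,
    fpf1_res_zero, zero_add, h3, e] at h6
  exact l1 (h6.symm.trans (LinearMap.congr_fun hx _))

end main

end

theorem t_PF1 (k : Type u) [Field k] [IsAlgClosed k] (R : Type u) [Ring R] [Algebra k R]
    [FiniteDimensional k R]
    (L : Lib k) :
    S_PF1 k R := fun _ _ _ _ σ d p =>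
  ⟨fpf1_L σ d p, fun T hT => let ⟨n, hn⟩ := (L.noe R).expok d T hT p; fpf1_inj σ d p T n hn⟩

end Pool.Agent.P.MP_cf639b_al
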