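import Pool.Agent.P.MP_cf639b_al.IfF

set_option linter.dupNamespace false

namespace Pool.Agent.P.MP_cf639b_al

universe u v
open TensorProduct Polynomial Function

theorem frx_ex {k : Type u} [Field k] {R : Type u} [Ring R] [Algebra k R] (d : Fam R)
    (B Z A : Md k R) (i : B →ₗ[R] Z) (p : Z →ₗ[R] A) (h : Exact i p) (hp : Surjective p) :
    Exact (Emap d i) (Emap d p) := by
  intro u
  constructor
  · obtain ⟨z, rfl⟩ := Emk_surj d Z u
    intro hz
    obtain ⟨w, hw⟩ := Emk_eq_zero.1 ((Emap_mk d p z).symm.trans hz)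
    choose w' hw' using fun b => Finsupp.mapRange_surjective p (map_zero p) hp (w b)
    have h1 := Dop_nat (k := k) d _ _ _ (mapRange_shift p) w'
    have h2 : ∀ a l, (z - DX d Z w') a l ∈ Set.range i := fun a l => by
      rw [← h, Pi.sub_apply, Finsupp.sub_apply, map_sub, sub_eq_zero]
      have h3 := congrFun hw a
      rw [show w = fun b => Finsupp.mapRange.linearMap p (w' b) from funext fun b => (hw' b).symm]
        at h3
      exact (DFunLike.congr_fun (h3.symm.trans (congrFun h1 a)) l :)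
    have h3 : ∀ a, ∃ y : ℕ →₀ B, Finsupp.mapRange.linearMap i y = (z - DX d Z w') a := fun a => by
      choose f hf using h2 a
      classical
      refine ⟨Finsupp.onFinset ((z - DX d Z w') a).support
        (fun l => if (z - DX d Z w') a l = 0 then 0 else f l) fun l hl => ?_, ?_⟩
      · exact Finsupp.mem_support_iff.2 fun e => hl (if_pos e)
      · ext l
        simp only [Finsupp.mapRange.linearMap_apply, Finsupp.mapRange_apply, Finsupp.onFinset_apply]
        split_ifs with e
        · rw [e, map_zero]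
        · exact hf l
    choose y hy using h3
    refine ⟨Emk d B y, ?_⟩
    rw [Emap_mk, funext hy, map_sub, Emk_eq_zero.2 ⟨w', rfl⟩, sub_zero]
  · rintro ⟨v, rfl⟩
    rw [← LinearMap.comp_apply, ← Emap_comp, h.linearMap_comp_eq_zero, map_zero,
      LinearMap.zero_apply]

theorem frx_m {k : Type u} [Field k] {R : Type u} [Ring R] [Algebra k R] (d : Fam R)
    {V V' V'' : XV k} (f : XH V V') (g : XH V' V'') (h : Exact f.1 g.1) (hg : Surjective g.1) :
    Exact ((MN d).map f) ((MN d).map g) ∧ Surjective ((MN d).map g) := by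
  constructor
  · obtain ⟨s, hs⟩ := g.1.exists_rightInverse_of_surjective (LinearMap.range_eq_top.2 hg)
    have key : ∀ b v, (LinearMap.range ((MN d).map f)).mkQ (gen d V' b (s (g.1 v))) =
        (LinearMap.range ((MN d).map f)).mkQ (gen d V' b v) := fun b v => by
      obtain ⟨w, hw⟩ := (h (s (g.1 v) - v)).1 (by
        rw [map_sub, sub_eq_zero]
        exact LinearMap.congr_fun hs _)
      rw [← sub_eq_zero, ← map_sub, ← map_sub, ← hw, ← map_gen]
      exact (Submodule.Quotient.mk_eq_zero _).2 ⟨_, rfl⟩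
    let z : Fin d.n0 → V'' →ₗ[k] (M d V').quo (LinearMap.range ((MN d).map f)) := fun b =>
      (LinearMap.range ((MN d).map f)).mkQ.restrictScalars k ∘ₗ gen d V' b ∘ₗ s
    have hz : ∀ a v, ∑ i ∈ Finset.range (d.r + 1), ∑ b, d.c i a b • z b ((V''.x ^ i) v) = 0 := by
      intro a v
      obtain ⟨v, rfl⟩ := hg v
      have e := congrArg (LinearMap.range ((MN d).map f)).mkQ (gen_rel d V' a v)
      rw [map_zero, map_sum] at e
      refine Eq.trans (Finset.sum_congr rfl fun i _ => ?_) e
      rw [map_sum]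
      refine Finset.sum_congr rfl fun b _ => ?_
      rw [map_smul, ← XH.comm_pow, ← key]
      rfl
    have e : Mlift d V'' z hz ∘ₗ (MN d).map g = (LinearMap.range ((MN d).map f)).mkQ :=
      M_ext (T := (M d V').quo (LinearMap.range ((MN d).map f))) fun b v => by
        rw [LinearMap.comp_apply, map_gen, Mlift_gen]
        exact key b v
    intro u
    constructor
    · intro hu
      have e1 := LinearMap.congr_fun e u
      rw [LinearMap.comp_apply, hu, map_zero] at e1
      exact (Submodule.Quotient.mk_eq_zero _).1 e1.symm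
    · rintro ⟨w, rfl⟩
      have e1 : XH.comp g f = 0 := Subtype.ext h.linearMap_comp_eq_zero
      rw [← LinearMap.comp_apply, ← (MN d).map_comp, e1, map_zero, LinearMap.zero_apply]
  · have e : (LinearMap.range ((MN d).map g)).mkQ = 0 :=
      M_ext (T := (M d V'').quo (LinearMap.range ((MN d).map g))) fun b v => by
        obtain ⟨v, rfl⟩ := hg v
        rw [← map_gen]
        exact (Submodule.Quotient.mk_eq_zero _).2 ⟨_, rfl⟩
    exact fun u => (Submodule.Quotient.mk_eq_zero _).1 (LinearMap.congr_fun e u)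

theorem frx_j {k : Type u} [Field k] (p : k) (n n' : ℕ) :
    Exact (jm k p n (n + n')).1 (jm k p (n + n') n').1 ∧ Surjective (jm k p (n + n') n').1 := by
  have e1 : ∀ q, (jm k p n (n + n')).1 (Jmk p n q) = Jmk p (n + n') ((X - C p) ^ n' * q) :=
    fun q => by rw [jm_mk, Nat.add_sub_cancel_left]
  have e2 : ∀ q, (jm k p (n + n') n').1 (Jmk p (n + n') q) = Jmk p n' q :=
    fun q => by rw [jm_mk, Nat.sub_eq_zero_of_le (Nat.le_add_left _ _), pow_zero, one_mul]
  refine ⟨fun u => ⟨fun hu => ?_, ?_⟩, fun u => ?_⟩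
  · obtain ⟨q, rfl⟩ := Ideal.Quotient.mk_surjective u
    obtain ⟨r, rfl⟩ := Ideal.mem_span_singleton.1
      (Ideal.Quotient.eq_zero_iff_mem.1 ((e2 q).symm.trans hu))
    exact ⟨Jmk p n r, e1 r⟩
  · rintro ⟨w, rfl⟩
    obtain ⟨q, rfl⟩ := Ideal.Quotient.mk_surjective w
    exact (congrArg _ (e1 q)).trans ((e2 _).trans (Ideal.Quotient.eq_zero_iff_mem.2
      (Ideal.mem_span_singleton.2 (dvd_mul_right _ _))))
  · obtain ⟨q, rfl⟩ := Ideal.Quotient.mk_surjective u
    exact ⟨_, e2 q⟩

theorem t_RX (k : Type u) [Field k] [IsAlgClosed k] (R : Type u) [Ring R] [Algebra k R]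
    [FiniteDimensional k R]
    (L : Lib k) :
    S_RX k R := by
  refine ⟨frx_ex, fun d p n n' => frx_m d _ _ (frx_j p n n').1 (frx_j p n n').2,
    fun d Q V _ _ _ => ?_⟩
  let v := Module.finBasis k V
  let c : Fin (Module.finrank k V) → (Q ⊗[k] V →ₗ[R] Q) := fun i =>
    (AlgebraTensorModule.rid k R Q).toLinearMap ∘ₗ AlgebraTensorModule.map LinearMap.id (v.coord i)
  have hc : ∀ i (q : Q) (w : V), c i (q ⊗ₜ[k] w) = v.coord i w • q := fun i q w => by simp [c]
  have hv : ∀ w, ∑ i, v.coord i w • v i = w := v.sum_repr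
  have e : ∑ i, tmr Q V (v i) ∘ₗ c i = LinearMap.id :=
    AlgebraTensorModule.ext fun q w => by
      rw [LinearMap.sum_apply]
      refine Eq.trans (Finset.sum_congr rfl fun i _ => ?_)
        ((tmul_sum q Finset.univ fun i => v.coord i w • v i).symm.trans (congrArg _ (hv w)))
      exact (congrArg (tmr Q V (v i)) (hc i q w)).trans (smul_tmul _ _ _)
  refine ⟨_, v, v.coord, c, hv, fun i w => LinearMap.ext fun q => hc i q w, fun x => ?_⟩
  have e1 : ∀ (T : Md k R) (m : ℕ) (a : Fin m → (Q →ₗ[R] T)) (b : Fin m → (T →ₗ[R] Q)),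
      ∑ i, a i ∘ₗ b i = LinearMap.id → ∀ x : EE d T, x = ∑ i, Emap d (a i) (Emap d (b i) x) := by
    intro T m a b h x
    have e2 := congrArg (fun g : T →ₗ[R] T => Emap d g x) h
    simp only [map_sum, LinearMap.sum_apply, Emap_id, Emap_comp] at e2
    exact e2.symm
  exact e1 ((TenA V).obj Q) _ (fun i => tmr Q V (v i)) c e x

end Pool.Agent.P.MP_cf639b_al
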