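import Pool.Agent.P.MP_cf639b_al.IfF

set_option linter.dupNamespace false

namespace Pool.Agent.P.MP_cf639b_al

universe u v
open TensorProduct Polynomial Function

section abs
variable {k : Type u} [Field k] {K : Type u} [Field K] [Algebra k K] {N : Type u} [AddCommGroup N]
  [Module k N] {E : Type u} [AddCommGroup E] [Module K[X] E]

/-- a map from a module with two operators to a `K[x]`-module -/
structure ftn_D (t : K) (A B : Module.End k N) (e : N) (ι : N →+ E) : Prop where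
  gen : Gen k t
  a : ∀ (q : k[X]) n, ι (aeval A q n) = C (aeval t q) • ι n
  b : ∀ n, ι (B n) = (X : K[X]) • ι n
  x : (X - C t : K[X]) • ι e = 0
  ker : ∀ n, ι n = 0 → ∃ q : k[X], q ≠ 0 ∧ aeval A q n = 0

variable {t : K} {A B : Module.End k N} {e : N} {ι : N →+ E}

theorem ftn_D.ne (H : ftn_D t A B e ι) {q : k[X]} (hq : q ≠ 0) : aeval t q ≠ 0 :=
  fun h => hq (transcendental_iff.1 H.gen.1 q h)

theorem ftn_cancel {c : K} (hc : c ≠ 0) {u : E} (h : C c • u = 0) : u = 0 := by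
  rw [← one_smul K[X] u, ← C_1, ← inv_mul_cancel₀ hc, C_mul, mul_smul, h, smul_zero]

theorem ftn_D.pow (H : ftn_D t A B e ι) (j : ℕ) (n : N) :
    ι ((B ^ j) n) = (X ^ j : K[X]) • ι n := by
  induction j with
  | zero => simp
  | succ j ih => rw [pow_succ', pow_succ', Module.End.mul_apply, H.b, ih, mul_smul]

theorem ftn_D.ev (H : ftn_D t A B e ι) (b : k[X][X]) (z : N) :
    ι (ev2 A B b z) = b.map (aeval t : k[X] →ₐ[k] K).toRingHom • ι z := by
  conv_rhs => rw [← sum_C_mul_X_pow_eq b]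
  rw [ev2, Polynomial.sum, Polynomial.sum, LinearMap.sum_apply, map_sum, Polynomial.map_sum,
    Finset.sum_smul]
  refine Finset.sum_congr rfl fun j _ => ?_
  rw [Module.End.mul_apply, H.a, H.pow, Polynomial.map_mul, map_C, Polynomial.map_pow, map_X,
    mul_smul]
  rfl

theorem ftn_D.pol (H : ftn_D t A B e ι) (f : k[X]) (n : N) :
    ι (aeval B f n) = f.map (algebraMap k K) • ι n := by
  induction f using Polynomial.induction_on' with
  | add p q hp hq => rw [map_add, LinearMap.add_apply, map_add, hp, hq, Polynomial.map_add, add_smul]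
  | monomial j c =>
    rw [aeval_monomial, ← aeval_C A, Module.End.mul_apply, H.a, H.pow, aeval_C, map_monomial,
      ← C_mul_X_pow_eq_monomial, mul_smul]

theorem ftn_D.eval (H : ftn_D t A B e ι) (g : K[X]) : g • ι e = C (g.eval t) • ι e := by
  obtain ⟨r, hr⟩ : X - C t ∣ g - C (g.eval t) := X_sub_C_dvd_sub_C_eval
  rw [← sub_eq_zero, ← sub_smul, hr, mul_comm, mul_smul, H.x, smul_zero]

theorem ftn_D.evalk (H : ftn_D t A B e ι) (f : k[X]) :
    f.map (algebraMap k K) • ι e = C (aeval t f) • ι e := by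
  rw [H.eval, eval_map_algebraMap]

theorem ftn_ev_C (A B : Module.End k N) (q : k[X]) (b : k[X][X]) (z : N) :
    ev2 A B (C q * b) z = aeval A q (ev2 A B b z) := by
  rw [← smul_eq_C_mul, ev2, ev2, sum_smul_index _ _ _ (fun _ => by simp), Polynomial.sum,
    Polynomial.sum, LinearMap.sum_apply, LinearMap.sum_apply, map_sum]
  refine Finset.sum_congr rfl fun j _ => ?_
  rw [map_mul, mul_assoc, Module.End.mul_apply]

theorem ftn_D.one (H : ftn_D t A B e ι) (he : ι e ≠ 0) {f : k[X]} (hf : f ≠ 0)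
    (ht : ∀ (u : E) (g : K[X]), g ≠ 0 → g • u = 0 → ∃ (c : K) (n : ℕ),
      (f ^ n).map (algebraMap k K) • (u - C c • ι e) = 0) :
    (∀ q : k[X], q ≠ 0 → aeval A q e ≠ 0) ∧ ∀ (z : N) (b : k[X][X]), b ≠ 0 → ev2 A B b z = 0 →
      ∃ h f q : k[X], h ≠ 0 ∧ f ≠ 0 ∧ aeval A h (aeval B f z) = aeval A q e := by
  refine ⟨fun q hq h => he (ftn_cancel (H.ne hq) (by rw [← H.a, h, map_zero])),
    fun z b hb hz => ?_⟩
  obtain ⟨c, n, hc⟩ := ht (ι z) _
    ((Polynomial.map_ne_zero_iff (f := (aeval t : k[X] →ₐ[k] K).toRingHom)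
      (transcendental_iff_injective.1 H.gen.1)).2 hb) (by rw [← H.ev, hz, map_zero])
  obtain ⟨p, q₀, hq₀, hp⟩ := H.gen.2 c
  obtain ⟨q₁, hq₁, h⟩ := H.ker (aeval A q₀ (aeval B (f ^ n) z) - aeval A (p * f ^ n) e) (by
    rw [smul_sub, sub_eq_zero, smul_comm, H.evalk] at hc
    rw [map_sub, H.a, H.a, H.pol, hc, map_mul (aeval t), ← hp, ← mul_smul, ← mul_smul, ← C_mul,
      ← C_mul, mul_comm c, sub_self])
  refine ⟨q₁ * q₀, f ^ n, q₁ * (p * f ^ n), mul_ne_zero hq₁ hq₀, pow_ne_zero _ hf, ?_⟩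
  rw [map_mul _ q₁, map_mul _ q₁, Module.End.mul_apply, Module.End.mul_apply, ← sub_eq_zero,
    ← map_sub, h]

theorem ftn_den (hg : Gen k t) (g : K[X]) : ∃ (b : k[X][X]) (q : k[X]), q ≠ 0 ∧
    b.map (aeval t : k[X] →ₐ[k] K).toRingHom = C (aeval t q) * g := by
  induction g using Polynomial.induction_on' with
  | add g g' h h' =>
    obtain ⟨b, q, hq, h⟩ := h
    obtain ⟨b', q', hq', h'⟩ := h'
    refine ⟨C q' * b + C q * b', q * q', mul_ne_zero hq hq', ?_⟩
    rw [Polynomial.map_add, Polynomial.map_mul, Polynomial.map_mul, map_C, map_C, h, h', map_mul,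
      C_mul]
    change C (aeval t q') * _ + C (aeval t q) * _ = _
    ring
  | monomial j c =>
    obtain ⟨p, q, hq, h⟩ := hg.2 c
    refine ⟨monomial j p, q, hq, ?_⟩
    rw [map_monomial, C_mul_monomial, mul_comm, h]
    rfl

theorem ftn_D.two (H : ftn_D t A B e ι) [Module.Finite K[X] E]
    (hs : ∀ u : E, ∃ (q : k[X]) (n : N), q ≠ 0 ∧ C (aeval t q) • u = ι n)
    (ht : ∀ (z : N) (b : k[X][X]), b ≠ 0 → ev2 A B b z = 0 →
      ∃ h f q : k[X], h ≠ 0 ∧ f ≠ 0 ∧ aeval A h (aeval B f z) = aeval A q e) :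
    ∃ f : k[X], f ≠ 0 ∧ ∀ (u : E) (g : K[X]), g ≠ 0 → g • u = 0 →
      ∃ c : K, f.map (algebraMap k K) • (u - C c • ι e) = 0 := by
  have h1 : ∀ u ∈ Submodule.torsion K[X] E, ∃ f : k[X], f ≠ 0 ∧
      ∃ c : K, f.map (algebraMap k K) • (u - C c • ι e) = 0 := by
    rintro u ⟨⟨g, hg0⟩, hg⟩
    replace hg : g • u = 0 := hg
    obtain ⟨q, n, hq, hn⟩ := hs u
    obtain ⟨b, q', hq', hb⟩ := ftn_den H.gen g
    have hb0 : b ≠ 0 := by
      rintro rfl
      exact mul_ne_zero (C_ne_zero.2 (H.ne hq')) (nonZeroDivisors.ne_zero hg0)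
        (hb.symm.trans (Polynomial.map_zero _))
    obtain ⟨q₁, hq₁, h⟩ := H.ker (ev2 A B b n) (by
      rw [H.ev, hb, ← hn, smul_comm, mul_smul, hg, smul_zero, smul_zero])
    obtain ⟨h, f, q₂, hh, hf, e2⟩ := ht n (C q₁ * b) (mul_ne_zero (C_ne_zero.2 hq₁) hb0)
      (by rw [ftn_ev_C, h])
    have e3 := congrArg ι e2
    rw [H.a, H.a, H.pol, ← hn, smul_comm (f.map _), ← mul_smul, ← C_mul] at e3
    have a1 := H.ne hh
    have a2 := H.ne hq
    have a3 := H.ne hf
    refine ⟨f, hf, aeval t q₂ / (aeval t h * aeval t q * aeval t f),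
      ftn_cancel (mul_ne_zero a1 a2) ?_⟩
    rw [smul_sub, smul_sub, e3, smul_comm (f.map _), H.evalk, ← mul_smul, ← mul_smul, ← C_mul,
      ← C_mul, sub_eq_zero]
    congr 2
    field_simp
  have : IsNoetherian K[X] E := isNoetherian_of_isNoetherianRing_of_finite _ _
  obtain ⟨s, hs⟩ := IsNoetherian.noetherian (Submodule.torsion K[X] E)
  have h2 : ∀ s : Finset E, (∀ u ∈ s, u ∈ Submodule.torsion K[X] E) → ∃ f : k[X], f ≠ 0 ∧
      ∀ u ∈ s, ∃ c : K, f.map (algebraMap k K) • (u - C c • ι e) = 0 := by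
    classical
    intro s
    induction s using Finset.induction_on with
    | empty => exact fun _ => ⟨1, one_ne_zero, fun _ h => absurd h (Finset.notMem_empty _)⟩
    | insert v s _ ih =>
      intro h
      obtain ⟨f, hf, c, hc⟩ := h1 v (h v (Finset.mem_insert_self _ _))
      obtain ⟨f', hf', hc'⟩ := ih fun u hu => h u (Finset.mem_insert_of_mem hu)
      refine ⟨f * f', mul_ne_zero hf hf', fun u hu => ?_⟩
      rcases Finset.mem_insert.1 hu with rfl | hu
      · exact ⟨c, by rw [Polynomial.map_mul, mul_comm, mul_smul, hc, smul_zero]⟩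
      · obtain ⟨c', hc'⟩ := hc' u hu
        exact ⟨c', by rw [Polynomial.map_mul, mul_smul, hc', smul_zero]⟩
  obtain ⟨f, hf, h3⟩ := h2 s fun u hu => hs ▸ Submodule.subset_span hu
  refine ⟨f, hf, fun u g hg hu => ?_⟩
  have h4 : u ∈ Submodule.span K[X] (s : Set E) :=
    hs ▸ ⟨⟨g, mem_nonZeroDivisors_of_ne_zero hg⟩, hu⟩
  clear hu
  induction h4 using Submodule.span_induction with
  | mem u hu => exact h3 u hu
  | zero => exact ⟨0, by simp⟩
  | add u v _ _ hu hv =>
    obtain ⟨c, hc⟩ := hu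
    obtain ⟨c', hc'⟩ := hv
    refine ⟨c + c', ?_⟩
    rw [C_add, add_smul, add_sub_add_comm, smul_add, hc, hc', add_zero]
  | smul r u _ hu =>
    obtain ⟨c, hc⟩ := hu
    refine ⟨c * r.eval t, ?_⟩
    rw [C_mul, mul_smul, ← H.eval, smul_comm (C c), ← smul_sub, smul_comm, hc, smul_zero]

end abs

section con
variable {k : Type u} [Field k] {R : Type u} [Ring R] [Algebra k R]
  {K : Type u} [Field K] [Algebra k K]

/-- `EE` as a `K[x]`-module -/
abbrev ftn_E (d : Fam R) (A : FO k R K) : Type u := Module.AEval' (EXF d A)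

/-- the identity map to it -/
noncomputable def ftn_of (d : Fam R) (A : FO k R K) : EE d A.X ≃+ ftn_E d A :=
  (Module.AEval'.of (EXF d A)).toAddEquiv

theorem ftn_of_pol (d : Fam R) (A : FO k R K) (g : K[X]) (u : EE d A.X) :
    ftn_of d A (polE d A g u) = g • ftn_of d A u := rfl

theorem ftn_of_act (d : Fam R) (A : FO k R K) (c : K) (u : EE d A.X) :
    ftn_of d A (Emap d (A.act c) u) = C c • ftn_of d A u := by
  rw [← ftn_of_pol, polE, aeval_C]
  rfl

theorem ftn_of_X (d : Fam R) (A : FO k R K) (u : EE d A.X) :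
    ftn_of d A (EX d A.X u) = (X : K[X]) • ftn_of d A u := by
  rw [← ftn_of_pol, polE, aeval_X]
  rfl

/-- the comparison map -/
noncomputable def ftn_i (d : Fam R) (t : K) : NN k d →+ ftn_E d (MF d (one k t)) :=
  (ftn_of d (MF d (one k t))).toAddMonoidHom.comp
    (Emap d ((MN d).map (gv (one k t).V (1 : K)))).toAddMonoidHom

theorem ftn_i_apply (d : Fam R) (t : K) (n : NN k d) : ftn_i d t n =
    ftn_of d (MF d (one k t)) (Emap d ((MN d).map (gv (one k t).V (1 : K))) n) := rfl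

theorem ftn_aeval (t : K) (q : k[X]) (v : K) :
    aeval (LinearMap.mulLeft k t) q v = aeval t q * v := by
  have := aeval_algHom_apply (Algebra.lmul k K) t q
  exact LinearMap.congr_fun this v

variable [FiniteDimensional k R]

theorem ftn_e (hU : S_UNIV k R) (d : Fam R) (t : K) :
    ftn_i d t (eN k d) = ftn_of d (MF d (one k t)) (eK d t) :=
  congrArg (ftn_of d (MF d (one k t))) (hU.gve d (one k t).V (1 : K))

theorem ftn_data (hB : S_BOCK k R) (hU : S_UNIV k R) (hL : S_LOCN k R) (d : Fam R) {t : K}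
    (hg : Gen k t) : ftn_D t (X1 k d) (X2 k d) (eN k d) (ftn_i d t) where
  gen := hg
  a q n := by
    rw [ftn_i_apply, ftn_i_apply, hU.gvx, ← ftn_of_act]
    have e : gv (one k t).V (aeval (one k t).V.x q (1 : K)) =
        XH.comp ((one k t).sc (aeval t q)) (gv (one k t).V (1 : K)) :=
      Subtype.ext (LinearMap.ext fun p => by
        change aeval (LinearMap.mulLeft k t) p (aeval (LinearMap.mulLeft k t) q (1 : K)) =
          aeval t q * aeval (LinearMap.mulLeft k t) p (1 : K)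
        rw [ftn_aeval, ftn_aeval, ftn_aeval, mul_left_comm])
    rw [e, (MN d).map_comp, Emap_comp]
    rfl
  b n := by
    rw [ftn_i_apply, ftn_i_apply, ← ftn_of_X]
    exact congrArg _ (Emap_EX d _ n)
  x := by
    rw [ftn_e hU, sub_smul, ← ftn_of_X, ← ftn_of_act, ← map_sub]
    exact (congrArg _ (hB.ek_zero K d t)).trans (map_zero _)
  ker n h := (hL d K t hg).2 n ((ftn_of d _).map_eq_zero_iff.1 h)

theorem ftn_of_k (hB : S_BOCK k R) (d : Fam R) (A : FO k R K) (f : k[X]) (u v : EE d A.X)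
    (c : K) : aeval (EX d A.X) f (u - Emap d (A.act c) v) = 0 ↔
      f.map (algebraMap k K) • (ftn_of d A u - C c • ftn_of d A v) = 0 := by
  rw [← ftn_of_act, ← map_sub, ← ftn_of_pol, hB.polE_k, (ftn_of d A).map_eq_zero_iff]

end con

theorem t_TN1 (k : Type u) [Field k] [IsAlgClosed k] (R : Type u) [Ring R] [Algebra k R]
    [FiniteDimensional k R]
    (L : Lib k)
    (hUNIV : S_UNIV k R)
    (hLOCN : S_LOCN k R) :
    S_TN1 k R := by
  intro d K _ _ t hg hC
  obtain ⟨f, hf, ht⟩ := hC.tors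
  refine (ftn_data (L.bock R) hUNIV hLOCN d hg).one ?_ hf fun u g h0 hu => ?_
  · rw [ftn_e hUNIV]
    exact fun h => hC.ne ((ftn_of d _).map_eq_zero_iff.1 h)
  · obtain ⟨u, rfl⟩ := (ftn_of d (MF d (one k t))).surjective u
    obtain ⟨c, n, h⟩ := ht u g h0 ((ftn_of d _).map_eq_zero_iff.1 hu)
    exact ⟨c, n, by rw [ftn_e hUNIV]; exact (ftn_of_k (L.bock R) d _ _ _ _ _).1 h⟩

theorem t_TN2 (k : Type u) [Field k] [IsAlgClosed k] (R : Type u) [Ring R] [Algebra k R]
    [FiniteDimensional k R]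
    (L : Lib k)
    (hUNIV : S_UNIV k R)
    (hLOCN : S_LOCN k R) :
    S_TN2 k R := by
  intro d K _ _ t hg hT
  have H := ftn_data (L.bock R) hUNIV hLOCN d hg
  refine ⟨fun h => ?_, ?_⟩
  · obtain ⟨q, hq, h2⟩ := H.ker (eN k d) (by rw [ftn_e hUNIV, h, map_zero])
    exact hT.1 q hq h2
  · have : Module.Finite K[X] (ftn_E d (MF d (one k t))) :=
      (L.noe R).fin K d _ ((L.fd R).m K d _ ((L.fd R).one K t).1)
    obtain ⟨f, hf, h⟩ := H.two (fun u => by
      obtain ⟨u, rfl⟩ := (ftn_of d (MF d (one k t))).surjective u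
      obtain ⟨q, n, hq, h⟩ := (hLOCN d K t hg).1 u
      exact ⟨q, n, hq, by rw [← ftn_of_act]; exact congrArg _ h⟩) hT.2
    refine ⟨f, hf, fun u g h0 hu => ?_⟩
    obtain ⟨c, hc⟩ := h (ftn_of d _ u) g h0 (by rw [← ftn_of_pol, hu, map_zero])
    rw [ftn_e hUNIV] at hc
    exact ⟨c, 1, by rw [pow_one]; exact (ftn_of_k (L.bock R) d _ _ _ _ _).2 hc⟩

end Pool.Agent.P.MP_cf639b_al
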