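import Pool.Agent.P.MP_cf639b_al.IfF

set_option linter.dupNamespace false

namespace Pool.Agent.P.MP_cf639b_al

universe u v
open TensorProduct Polynomial Function

section aux
variable {k : Type u} [Field k] {R : Type u} [Ring R] [Algebra k R] {d : Fam R} {p : k} {s : ℕ}

/-- evaluation of a map on a fixed torsion element -/
noncomputable def ftr_ev {U : Md k R} (x : TT d p U) (T : Md k R) : (U →ₗ[R] T) →ₗ[k] TT d p T where
  toFun g := mapT d p g x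
  map_add' g f := mapT_add g f x
  map_smul' c g := mapT_smul c g x

/-- the value prescribed for the translation -/
noncomputable def ftr_F (Φ : AFun k R) (a : NT (MN (k := k) d) ((MN d).post Φ)) (p : k) (n : ℕ)
    (T : Md k R) : (MJ d p n →ₗ[R] T) →ₗ[k] TT d p (Φ.obj T) :=
  ftr_ev (mapT d p (T := MJ d p n) (T' := Φ.obj (MJ d p n)) (a.app (J k p n).V) (eT d p n)) _ ∘ₗ
    Φ.map

theorem ftr_F_apply (Φ : AFun k R) (a : NT (MN (k := k) d) ((MN d).post Φ)) (n : ℕ)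
    {T : Md k R} (g : MJ d p n →ₗ[R] T) : ftr_F Φ a p n T g =
      mapT d p (T := MJ d p n) (Φ.map g ∘ₗ a.app (J k p n).V) (eT d p n) :=
  (mapT_comp (T := MJ d p n) (T' := Φ.obj (MJ d p n)) (Φ.map g) (a.app (J k p n).V) _).symm

theorem ftr_E_comp (L : Lc d p s) (n m : ℕ) {T : Md k R} (g : MJ d p m →ₗ[R] T) :
    mapT d p (g ∘ₗ mJ d p n m) (eT d p n) = (piT d p T ^ (m - n)) (mapT d p g (eT d p m)) := by
  rw [mapT_comp, L.map, mapT_pi]

theorem ftr_sq {U U' V V' T : Md k R} {α : U →ₗ[R] V} {α' : U' →ₗ[R] V'} {m : U →ₗ[R] U'}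
    {m' : V →ₗ[R] V'} (h : m' ∘ₗ α = α' ∘ₗ m) (G : V' →ₗ[R] T) (x : TT d p U) :
    mapT d p ((G ∘ₗ m') ∘ₗ α) x = mapT d p ((G ∘ₗ α') ∘ₗ m) x := by
  rw [LinearMap.comp_assoc, h, LinearMap.comp_assoc]

theorem ftr_F_comp (L : Lc d p s) (Φ : AFun k R) (a : NT (MN (k := k) d) ((MN d).post Φ))
    (n m : ℕ) {T : Md k R} (g : MJ d p m →ₗ[R] T) :
    ftr_F Φ a p n T (g ∘ₗ mJ d p n m) = (piT d p _ ^ (m - n)) (ftr_F Φ a p m T g) := by
  rw [ftr_F_apply, ftr_F_apply, Φ.map_comp]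
  exact (ftr_sq (U := MJ d p n) (U' := MJ d p m) (V := Φ.obj (MJ d p n)) (V' := Φ.obj (MJ d p m))
    (a.nat (jm k p n m)) (Φ.map g) _).trans
    (ftr_E_comp L n m (T := Φ.obj T) (Φ.map g ∘ₗ a.app (J k p m).V))

theorem ftr_wd (L : Lc d p s) (Φ : AFun k R) (a : NT (MN (k := k) d) ((MN d).post Φ))
    {T : Md k R} (hT : (Φ.obj T).fd) {n n' : ℕ} {g : MJ d p n →ₗ[R] T} {g' : MJ d p n' →ₗ[R] T}
    (h : mapT d p g (eT d p n) = mapT d p g' (eT d p n')) :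
    ftr_F Φ a p n T g = ftr_F Φ a p n' T g' := by
  obtain ⟨A, hA⟩ := L.expo _ hT
  have h1 := ftr_E_comp L (max n n') n g
  have h2 := ftr_E_comp L (max n n') n' g'
  have h3 := ftr_F_comp L Φ a (max n n') n g
  have h4 := ftr_F_comp L Φ a (max n n') n' g'
  rw [Nat.sub_eq_zero_of_le (le_max_left _ _), pow_zero, Module.End.one_apply] at h1 h3
  rw [Nat.sub_eq_zero_of_le (le_max_right _ _), pow_zero, Module.End.one_apply] at h2 h4
  obtain ⟨b, hb, -⟩ := L.ext T (max n n') (max n n' + A) (Nat.le_add_right _ _)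
    (g ∘ₗ mJ d p (max n n') n - g' ∘ₗ mJ d p (max n n') n') (by rw [mapT_sub, h1, h2, h, sub_self])
  rw [← h3, ← h4, ← sub_eq_zero, ← map_sub, ← hb, ftr_F_comp L, Nat.add_sub_cancel_left, hA]

theorem ftr_ex (L : Lc d p s) (Φ : AFun k R) (hΦ : ∀ T : Md k R, T.fd → (Φ.obj T).fd)
    (a : NT (MN (k := k) d) ((MN d).post Φ)) (T : Md k R) :
    ∃ tr : TT d p T →ₗ[k] TT d p (Φ.obj T), T.fd → ∀ (n : ℕ) (g : MJ d p n →ₗ[R] T),
      tr (mapT d p g (eT d p n)) = ftr_F Φ a p n T g := by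
  by_cases hT : T.fd
  · obtain ⟨B, hB⟩ := L.expo T hT
    obtain ⟨σ, hσ⟩ := (ftr_ev (eT d p B) T).exists_rightInverse_of_surjective
      (LinearMap.range_eq_top.2 fun x => (L.rep T B x (hB x)).imp fun _ h => h.symm)
    exact ⟨ftr_F Φ a p B T ∘ₗ σ, fun _ n g =>
      ftr_wd L Φ a (hΦ T hT) (LinearMap.congr_fun hσ _)⟩
  · exact ⟨0, fun h => absurd h hT⟩

theorem ftr_list (u : List Bool) : (∃ n e, u = List.replicate n e) ∨
    ∃ u₁ e u₂, u = u₁ ++ ([e, !e] ++ u₂) := by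
  induction u with
  | nil => exact Or.inl ⟨0, true, rfl⟩
  | cons b u ih =>
    rcases ih with ⟨n, e, rfl⟩ | ⟨u₁, e, u₂, rfl⟩
    · cases n with
      | zero => exact Or.inl ⟨1, b, rfl⟩
      | succ n =>
        by_cases h : b = e
        · exact Or.inl ⟨n + 2, e, h ▸ rfl⟩
        · exact Or.inr ⟨[], b, List.replicate n e, by rw [← Bool.eq_not_of_ne (Ne.symm h)]; rfl⟩
    · exact Or.inr ⟨b :: u₁, e, u₂, rfl⟩

theorem ftr_rep (n : ℕ) (e : Bool) : wd (wt (List.replicate n e)) = List.replicate n e := by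
  rw [wt_replicate, wd]
  cases e
  · cases n with
    | zero => rfl
    | succ n =>
      have : ¬ (0 : ℤ) ≤ sg false * (n + 1 : ℕ) := by simp only [sg]; omega
      rw [decide_eq_false this, Int.natAbs_mul, Int.natAbs_natCast]
      simp [sg]
  · simp [sg]

theorem ftr_red (Γ : Calc d p) {W : Type u} (x : Pt d p W) (l : ℕ) : ∀ u : List Bool,
    u.length = l → ∃ c, Γ.D u = Γ.D (wd (wt u)) + c ∧
      Arr ((Γ.trs u x).pi Γ.K) ((Γ.trs (wd (wt u)) x).pi (c + Γ.K)) ∧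
      Arr ((Γ.trs (wd (wt u)) x).pi (c + Γ.K)) ((Γ.trs u x).pi Γ.K) := by
  induction l using Nat.strong_induction_on with
  | _ l ih =>
    intro u hu
    rcases ftr_list u with ⟨n, e, rfl⟩ | ⟨u₁, e, u₂, rfl⟩
    · rw [ftr_rep]
      exact ⟨0, rfl, by rw [zero_add]; exact ⟨Arr.refl _, Arr.refl _⟩⟩
    · obtain ⟨c, h1, h2, h3⟩ := ih (u₁ ++ u₂).length (by simp at hu ⊢; omega) _ rfl
      have e1 : wt (u₁ ++ ([e, !e] ++ u₂)) = wt (u₁ ++ u₂) := by
        simp only [wt_append, wt_cons, wt_nil, sg_not]; ring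
      have e2 : Γ.D (u₁ ++ ([e, !e] ++ u₂)) = Γ.D (u₁ ++ u₂) + (Γ.v true + Γ.v false) := by
        cases e <;> simp only [Γ.D_append, Γ.D_cons, Γ.D_nil, Bool.not_true, Bool.not_false] <;>
          omega
      obtain ⟨κ, κ', hκ⟩ := Γ.can e _ (Γ.trs u₁ x).fd
      have a1 : Arr ((Γ.trs [e, !e] (Γ.trs u₁ x)).pi Γ.K)
          ((Γ.trs u₁ x).pi (Γ.K + (Γ.v true + Γ.v false))) := ⟨κ, fun i => (hκ _).1⟩
      have a2 : Arr ((Γ.trs u₁ x).pi (Γ.K + (Γ.v true + Γ.v false)))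
          ((Γ.trs [e, !e] (Γ.trs u₁ x)).pi Γ.K) := ⟨κ', fun i => (hκ _).2.symm⟩
      have a3 := Γ.trs_arr u₂ a1
      have a4 := Γ.trs_arr u₂ a2
      rw [Γ.trs_pi, Γ.trs_pi, ← Γ.trs_append, ← Γ.trs_append, ← Γ.trs_append, add_comm Γ.K]
        at a3 a4
      have a5 := h2.pi (Γ.v true + Γ.v false)
      have a6 := h3.pi (Γ.v true + Γ.v false)
      rw [Pt.pi_pi, Pt.pi_pi, ← add_assoc] at a5
      rw [Pt.pi_pi, Pt.pi_pi, ← add_assoc] at a6
      rw [e1, e2]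
      exact ⟨Γ.v true + Γ.v false + c, by omega, a3.trans a5, a6.trans a4⟩

end aux

theorem t_TR (k : Type u) [Field k] [IsAlgClosed k] (R : Type u) [Ring R] [Algebra k R]
    [FiniteDimensional k R] :
    S_TR k R := by
  intro d p s L Φ hΦ a
  choose tr htr using ftr_ex L Φ hΦ a
  refine ⟨tr, fun T hT x => ?_, fun T T' hT hT' g x => ?_, fun T hT n g => ?_⟩
  · obtain ⟨n, hn⟩ := piT_nil x
    obtain ⟨g, rfl⟩ := L.rep T n x hn
    have h1 := ftr_E_comp L n (n + 1) (g ∘ₗ mJ d p (n + 1) n)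
    have h2 := ftr_F_comp L Φ a n (n + 1) (g ∘ₗ mJ d p (n + 1) n)
    rw [ftr_E_comp L (n + 1) n, Nat.add_sub_cancel_left, Nat.sub_eq_zero_of_le (Nat.le_succ n),
      pow_zero, pow_one, Module.End.one_apply] at h1
    rw [ftr_F_comp L Φ a (n + 1) n, Nat.add_sub_cancel_left, Nat.sub_eq_zero_of_le (Nat.le_succ n),
      pow_zero, pow_one, Module.End.one_apply] at h2
    rw [← h1, htr T hT, htr T hT, h2]
  · obtain ⟨n, hn⟩ := piT_nil x
    obtain ⟨h, rfl⟩ := L.rep T n x hn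
    rw [← mapT_comp, htr T hT, htr T' hT', ftr_F_apply, ftr_F_apply, ← mapT_comp, Φ.map_comp]
    rfl
  · rw [htr T hT, ftr_F_apply]

theorem t_WR (k : Type u) [Field k] [IsAlgClosed k] (R : Type u) [Ring R] [Algebra k R]
    [FiniteDimensional k R] :
    S_WR k R := by
  intro d p Γ W x u u' h
  obtain ⟨c, h1, h2, -⟩ := ftr_red Γ x _ u rfl
  obtain ⟨c', h3, -, h4⟩ := ftr_red Γ x _ u' rfl
  have a1 := h2.pi (Γ.D u')
  have a2 := h4.pi (Γ.D u)
  rw [Pt.pi_pi, Pt.pi_pi] at a1 a2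
  rw [← h] at h3 a2
  rw [show Γ.D u + (c' + Γ.K) = Γ.D u' + (c + Γ.K) by omega] at a2
  rw [add_comm Γ.K, add_comm Γ.K]
  exact a1.trans a2

end Pool.Agent.P.MP_cf639b_al
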