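import Pool.Agent.P.MP_cf639b_al.IfF

set_option linter.dupNamespace false

namespace Pool.Agent.P.MP_cf639b_al

universe u v
open TensorProduct Polynomial Function

section
variable {k : Type u} [Field k] {R : Type u} [Ring R] [Algebra k R]

theorem funiv_M {d : Fam R} {V : XV k} {p : M d V → Prop} (h0 : p 0)
    (ha : ∀ x y, p x → p y → p (x + y)) (hg : ∀ (r : R) b v, p (r • gen d V b v)) (m : M d V) :
    p m := by
  obtain ⟨z, rfl⟩ := (LinearMap.range (Xd d V)).mkQ_surjective m
  induction z using TensorProduct.induction_on with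
  | zero => exact h0
  | add x y hx hy => exact ha _ _ hx hy
  | tmul r w =>
    rw [← Finset.univ_sum_single w, TensorProduct.tmul_sum, map_sum]
    refine Finset.sum_induction _ p ha h0 fun b _ => ?_
    have e : r ⊗ₜ[k] (Pi.single b (w b) : Fin d.n0 → V) =
        r • ((1 : R) ⊗ₜ[k] (Pi.single b (w b) : Fin d.n0 → V)) := by
      simp [TensorProduct.smul_tmul']
    rw [e, map_smul]
    exact hg r b (w b)

theorem funiv_Z {n : ℕ} {T : Type u} [AddCommGroup T] {p : (Fin n → ℕ →₀ T) → Prop} (h0 : p 0)
    (ha : ∀ x y, p x → p y → p (x + y)) (hg : ∀ a l t, p (Pi.single a (Finsupp.single l t)))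
    (z : Fin n → ℕ →₀ T) : p z := by
  rw [← Finset.univ_sum_single z]
  refine Finset.sum_induction _ p ha h0 fun a _ => ?_
  induction z a using Finsupp.induction_linear with
  | zero => rwa [Pi.single_zero]
  | add x y hx hy => rw [Pi.single_add]; exact ha _ _ hx hy
  | single l t => exact hg a l t

/-- the class of an element in position `a` and degree `l` -/
noncomputable def funiv_s (d : Fam R) (T : Md k R) (a : Fin d.n1) (l : ℕ) : T →ₗ[k] EE d T :=
  Emk d T ∘ₗ LinearMap.single k (fun _ => ℕ →₀ T) a ∘ₗ Finsupp.lsingle l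

theorem funiv_s_apply (d : Fam R) (T : Md k R) (a : Fin d.n1) (l : ℕ) (t : T) :
    funiv_s d T a l t = Emk d T (Pi.single a (Finsupp.single l t)) := rfl

theorem funiv_E {d : Fam R} {T : Md k R} {p : EE d T → Prop} (h0 : p 0)
    (ha : ∀ x y, p x → p y → p (x + y)) (hg : ∀ a l t, p (funiv_s d T a l t)) (u : EE d T) :
    p u := by
  obtain ⟨z, rfl⟩ := Emk_surj d T u
  exact funiv_Z (p := fun z => p (Emk d T z)) h0 (fun _ _ => ha _ _) hg z

theorem funiv_mr {n : ℕ} {T T' : Md k R} (g : (ℕ →₀ T) →ₗ[R] (ℕ →₀ T')) (a : Fin n)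
    (t : ℕ →₀ T) : (fun b => g ((Pi.single a t : Fin n → ℕ →₀ T) b)) = Pi.single a (g t) :=
  funext fun b => Pi.apply_single (fun _ => g) (fun _ => map_zero g) a t b

theorem funiv_map (d : Fam R) {T T' : Md k R} (g : T →ₗ[R] T') (a : Fin d.n1) (l : ℕ) (t : T) :
    Emap d g (funiv_s d T a l t) = funiv_s d T' a l (g t) := by
  rw [funiv_s_apply, Emap_mk, funiv_mr, funiv_s_apply]
  simp

theorem funiv_ex (d : Fam R) (T : Md k R) (a : Fin d.n1) (l : ℕ) (t : T) :
    (EX d T ^ l) (funiv_s d T a 0 t) = funiv_s d T a l t := by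
  induction l with
  | zero => rfl
  | succ l ih =>
    rw [pow_succ', Module.End.mul_apply, ih, funiv_s_apply, EX_mk, funiv_mr, shift_single]
    rfl

theorem funiv_gv (V : XV k) (v : V) : (gv V v).1 (1 : k[X]) = v := by
  rw [gv_apply, map_one]
  rfl

theorem funiv_mul (q q' : k[X]) : aeval (LinearMap.mulLeft k (X : k[X])) q q' = q * q' := by
  have := aeval_algHom_apply (Algebra.lmul k k[X]) X q
  rw [aeval_X_left_apply] at this
  exact LinearMap.congr_fun this q'

theorem funiv_pol (d : Fam R) (q : k[X]) :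
    aeval (X1 k d) q = Emap d ((MN d).map (XH.pol (VX k) q)) := by
  induction q using Polynomial.induction_on with
  | C a =>
    have : XH.pol (VX k) (C a) = a • XH.id _ :=
      Subtype.ext ((aeval_C _ a).trans (Algebra.algebraMap_eq_smul_one a))
    rw [this, map_smul, map_smul, (MN d).map_id, Emap_id, aeval_C, Algebra.algebraMap_eq_smul_one]
    rfl
  | add p q hp hq =>
    have : XH.pol (VX k) (p + q) = XH.pol _ p + XH.pol _ q := Subtype.ext (map_add _ p q)
    rw [this, map_add, map_add, map_add, hp, hq]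
  | monomial n a ih =>
    have : XH.pol (VX k) (C a * X ^ n * X) = XH.comp (XH.pol _ (C a * X ^ n)) (XH.pol _ X) :=
      Subtype.ext (map_mul _ _ _)
    rw [pow_succ, ← mul_assoc, this, map_mul, ih, aeval_X, (MN d).map_comp, Emap_comp]
    rfl

theorem funiv_x1 (d : Fam R) (a : Fin d.n1) (l : ℕ) (r : R) (b : Fin d.n0) (q : k[X]) :
    aeval (X1 k d) q (funiv_s d _ a l (r • gen d (VX k) b (1 : k[X]))) =
      funiv_s d _ a l (r • gen d (VX k) b q) := by
  rw [funiv_pol, funiv_map, map_smul, map_gen, XH.pol_val]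
  exact congrArg (fun w => funiv_s d _ a l (r • gen d (VX k) b w))
    ((funiv_mul q 1).trans (mul_one q))

theorem funiv_lift (d : Fam R) (V : XV k) (W : Type u) [AddCommGroup W] [Module k W]
    (β : NN k d →ₗ[k] V →ₗ[k] W) (h : ∀ n v, β (X1 k d n) v = β n (V.x v)) :
    ∃ φ : EE d (M d V) →ₗ[k] W, ∀ n v, φ (Emap d ((MN d).map (gv V v)) n) = β n v := by
  have h1 : ∀ (i : ℕ) n v, β ((X1 k d ^ i) n) v = β n ((V.x ^ i) v) := fun i => by
    induction i with
    | zero => exact fun _ _ => rfl
    | succ i ih =>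
      intro n v
      rw [pow_succ', pow_succ, Module.End.mul_apply, Module.End.mul_apply, h, ih]
  have h2 : ∀ (q : k[X]) n v, β (aeval (X1 k d) q n) v = β n (aeval V.x q v) := fun q n v => by
    simp only [aeval_endomorphism, Polynomial.sum, map_sum, map_smul, LinearMap.sum_apply,
      LinearMap.smul_apply, h1]
  let z : Fin d.n1 → ℕ → Fin d.n0 → V →ₗ[k] CoInd k R W := fun a l b =>
    (β ∘ₗ funiv_s d _ a l ∘ₗ
      (LinearMap.toSpanSingleton R _ (gen d (VX k) b (1 : k[X]))).restrictScalars k).flip
  have hz : ∀ a l b v (r : R), z a l b v r =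
      β (funiv_s d _ a l (r • gen d (VX k) b (1 : k[X]))) v := fun _ _ _ _ _ => rfl
  have rel : ∀ a l a' v, ∑ i ∈ Finset.range (d.r + 1), ∑ b,
      d.c i a' b • z a l b ((V.x ^ i) v) = 0 := fun a l a' v => CoInd.ext fun s => by
    have e := congrArg (fun m => β (funiv_s d _ a l (s • m)) v) (gen_rel d (VX k) a' (1 : k[X]))
    simp only [Finset.smul_sum, map_sum, LinearMap.sum_apply, smul_zero, map_zero,
      LinearMap.zero_apply] at e
    simp only [CoInd.sum_apply, CoInd.smul_apply, CoInd.zero_apply, hz]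
    refine Eq.trans (Finset.sum_congr rfl fun i _ => Finset.sum_congr rfl fun b _ => ?_) e
    have e1 := funiv_x1 (k := k) d a l (s * d.c i a' b) b (X ^ i)
    have e2 := funiv_mul (k := k) (X ^ i) 1
    rw [map_pow, aeval_X] at e1 e2
    rw [← h1, e1, e2, mul_one, mul_smul]
  let ψ : Fin d.n1 → ℕ → M d V →ₗ[k] W := fun a l =>
    Iev W ∘ₗ (Mlift d V (T := I R W) (z a l) (rel a l)).restrictScalars k
  have hψ : ∀ a l v m, ψ a l ((MN d).map (gv V v) m) = β (funiv_s d _ a l m) v := by
    intro a l v m
    induction m using funiv_M with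
    | h0 => simp only [map_zero, LinearMap.zero_apply]
    | ha x y hx hy => simp only [map_add, LinearMap.add_apply, hx, hy]
    | hg r b q =>
      rw [map_smul, map_gen, gv_apply, ← funiv_x1, h2]
      have e := (Mlift d V (T := I R W) (z a l) (rel a l)).map_smul r (gen d V b (aeval V.x q v))
      rw [Mlift_gen] at e
      refine (congrArg (Iev (R := R) W) e).trans ?_
      rw [Iev_apply, CoInd.smul_apply, one_mul, hz]
  let φ : (Fin d.n1 → ℕ →₀ M d V) →ₗ[k] W := ∑ a, Finsupp.lsum k (ψ a) ∘ₗ LinearMap.proj a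
  have hφ : ∀ v (w : Fin d.n1 → ℕ →₀ M d (VX k)),
      φ (fun a => Finsupp.mapRange.linearMap ((MN d).map (gv V v)) (w a)) = β (Emk d _ w) v := by
    intro v w
    induction w using funiv_Z with
    | h0 =>
      simp only [Pi.zero_apply, map_zero, LinearMap.zero_apply]
      exact map_zero φ
    | ha x y hx hy =>
      simp only [Pi.add_apply, map_add, LinearMap.add_apply, ← hx, ← hy]
      exact map_add φ _ _
    | hg a l t =>
      rw [funiv_mr, ← funiv_s_apply, ← hψ, LinearMap.sum_apply,
        Finset.sum_eq_single a (fun b _ hb => by simp [hb]) (by simp)]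
      simp
  refine ⟨Submodule.liftQ _ φ ?_, fun n v => ?_⟩
  · rintro _ ⟨w, rfl⟩
    induction w using funiv_Z with
    | h0 => rw [map_zero]; exact zero_mem _
    | ha x y hx hy => rw [map_add]; exact add_mem hx hy
    | hg b l m =>
      induction m using funiv_M with
      | h0 => rw [Finsupp.single_zero, Pi.single_zero, map_zero]; exact zero_mem _
      | ha x y hx hy => rw [Finsupp.single_add, Pi.single_add, map_add]; exact add_mem hx hy
      | hg r b' v =>
        have e := Dop_nat (k := k) d _ _ _ (mapRange_shift ((MN d).map (gv V v)))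
          (Pi.single b (Finsupp.single l (r • gen d (VX k) b' (1 : k[X]))))
        rw [funiv_mr, Finsupp.mapRange.linearMap_apply, Finsupp.mapRange_single, map_smul, map_gen,
          funiv_gv] at e
        rw [LinearMap.mem_ker, e, hφ, Emk_eq_zero.2 ⟨_, rfl⟩, map_zero, LinearMap.zero_apply]
  · obtain ⟨w, rfl⟩ := Emk_surj d _ n
    exact hφ v w

theorem funiv_fg [FiniteDimensional k R] (d : Fam R) : Fg2 (X1 k d) (X2 k d) := by
  classical
  refine ⟨Finset.univ.image fun p : Fin d.n1 × Fin d.n0 × Fin (Module.finrank k R) =>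
    funiv_s d _ p.1 0 (bR k R p.2.2 • gen d (VX k) p.2.1 (1 : k[X])), eq_top_iff.2 fun u h => ?_⟩
  clear h
  induction u using funiv_E with
  | h0 => exact zero_mem _
  | ha x y hx hy => exact add_mem hx hy
  | hg a l m =>
    induction m using funiv_M with
    | h0 => rw [map_zero]; exact zero_mem _
    | ha x y hx hy => rw [map_add]; exact add_mem hx hy
    | hg r b q =>
      rw [← (bR k R).sum_repr r, Finset.sum_smul, map_sum]
      refine Submodule.sum_mem _ fun j _ => ?_
      rw [smul_assoc, map_smul, ← funiv_x1, aeval_endomorphism, ← funiv_ex]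
      exact Submodule.smul_mem _ _ (Submodule.sum_mem _ fun i _ => Submodule.smul_mem _ _
        (Submodule.subset_span
          ⟨_, Finset.mem_image_of_mem _ (Finset.mem_univ (a, b, j)), i, l, rfl⟩))

end

theorem t_UNIV (k : Type u) [Field k] [IsAlgClosed k] (R : Type u) [Ring R] [Algebra k R]
    [FiniteDimensional k R]
    (L : Lib k) :
    S_UNIV k R := by
  refine ⟨fun d V => eq_top_iff.2 fun u h => ?_, funiv_lift, funiv_fg,
    fun d => LinearMap.ext (Emap_EX d _), funiv_pol, fun d V v q n => ?_, fun d V v => ?_,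
    fun d q => ?_⟩
  · clear h
    induction u using funiv_E with
    | h0 => exact zero_mem _
    | ha x y hx hy => exact add_mem hx hy
    | hg a l m =>
      induction m using funiv_M with
      | h0 => rw [map_zero]; exact zero_mem _
      | ha x y hx hy => rw [map_add]; exact add_mem hx hy
      | hg r b v =>
        refine Submodule.subset_span ⟨v, funiv_s d _ a l (r • gen d (VX k) b (1 : k[X])), ?_⟩
        rw [funiv_map, ((MN d).map _).map_smul, map_gen, funiv_gv]
  · have : XH.comp (gv V v) (XH.pol (VX k) q) = gv V (aeval V.x q v) :=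
      Subtype.ext (LinearMap.ext fun q' => by
        refine (congrArg (gv V v).1 (funiv_mul q q')).trans ?_
        rw [gv_apply, gv_apply, mul_comm, map_mul]
        rfl)
    rw [funiv_pol, ← this, (MN d).map_comp, Emap_comp]
    rfl
  · have := (L.bock R).map d _ V _ LinearMap.id (gv V v) (1 : k[X])
    rw [funiv_gv, (L.bock R).eq] at this
    exact this
  · have := (L.bock R).map d _ _ _ LinearMap.id (XH.pol (VX k) q) (1 : k[X])
    rw [(L.bock R).eq, XH.pol_val, (L.bock R).pol] at this
    rw [funiv_pol]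
    exact this

end Pool.Agent.P.MP_cf639b_al
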