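import Pool.Agent.P.MP_cf639b_al.IfG

set_option linter.dupNamespace false

namespace Pool.Agent.P.MP_cf639b_al

universe u
open TensorProduct Polynomial Function

noncomputable section

section aux
variable {k : Type u} [Field k] {R : Type u} [Ring R] [Algebra k R]
  {L : Type u} [Field L] [Algebra k L] {P : UP k L} {A : ℕ → Md k R} {N : FO k R L}

theorem gbas_eq (E : UM P A N) (f g : ∀ i, A i) :
    E.e f = E.e g ↔ ∀ᶠ i in (P.U : Filter ℕ), f i = g i := by
  rw [← sub_eq_zero, ← map_sub, E.ker]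
  simp only [Pi.sub_apply, sub_eq_zero]

theorem gbas_sum (E : UM P A N) {κ : Type} [Fintype κ] (W : κ → ∀ i, A i) (c : κ → ℕ → k) :
    E.e (fun i => ∑ a, c a i • W a i) = ∑ a, P.ev (c a) • E.e (W a) := by
  have h : (fun i => ∑ a, c a i • W a i) = ∑ a, (fun i => c a i • W a i) := by
    funext i
    rw [Finset.sum_apply]
  rw [h, map_sum]
  exact Finset.sum_congr rfl fun a _ => E.act _ _

theorem gbas_repr (E : UM P A N) {d : ℕ} (b : ∀ i, Module.Basis (Fin d) k (A i))
    (f : ∀ i, A i) :
    E.e f = ∑ s, P.ev (fun i => (b i).repr (f i) s) • E.e (fun i => b i s) := by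
  rw [← gbas_sum E (fun s i => b i s) (fun s i => (b i).repr (f i) s)]
  exact congrArg _ (funext fun i => ((b i).sum_repr (f i)).symm)

theorem gbas_li (E : UM P A N) {d : ℕ} (b : ∀ i, Module.Basis (Fin d) k (A i)) :
    LinearIndependent L (fun s => E.e (fun i => b i s)) := by
  rw [Fintype.linearIndependent_iff]
  intro g hg s
  choose c hc using fun s => P.surj (g s)
  rw [← hc s, P.ker]
  have h : E.e (fun i => ∑ a, c a i • b i a) = 0 := by
    rw [gbas_sum E (fun s i => b i s) c, ← hg]
    exact Finset.sum_congr rfl fun a _ => by rw [hc a]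
  filter_upwards [(E.ker _).mp h] with i hi
  exact Fintype.linearIndependent_iff.mp (b i).linearIndependent (fun a => c a i) hi s

theorem gbas_sp (E : UM P A N) {d : ℕ} (b : ∀ i, Module.Basis (Fin d) k (A i)) :
    ⊤ ≤ Submodule.span L (Set.range fun s => E.e (fun i => b i s)) := by
  intro t _
  obtain ⟨f, rfl⟩ := E.surj t
  rw [gbas_repr E b f]
  exact Submodule.sum_mem _ fun s _ => Submodule.smul_mem _ _ (Submodule.subset_span ⟨s, rfl⟩)

theorem gbas_dim (E : UM P A N) {d : ℕ} (b : ∀ i, Module.Basis (Fin d) k (A i)) :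
    N.fd ∧ N.dim = d := by
  let B : Module.Basis (Fin d) L N.X := Module.Basis.mk (gbas_li E b) (gbas_sp E b)
  exact ⟨Module.Finite.of_basis B, by simpa using Module.finrank_eq_card_basis B⟩

theorem gbas_span (E : UM P A N) {d : ℕ} (b : ∀ i, Module.Basis (Fin d) k (A i))
    {κ : Type} [Fintype κ] (W : κ → ∀ i, A i)
    (hW : Submodule.span L (Set.range fun a => E.e (W a)) = ⊤) :
    ∀ᶠ i in (P.U : Filter ℕ), Submodule.span k (Set.range fun a => W a i) = ⊤ := by
  have h : ∀ s, ∀ᶠ i in (P.U : Filter ℕ), b i s ∈ Submodule.span k (Set.range fun a => W a i) := by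
    intro s
    have h1 : E.e (fun i => b i s) ∈ Submodule.span L (Set.range fun a => E.e (W a)) := by
      rw [hW]; trivial
    obtain ⟨g, hg⟩ := (Submodule.mem_span_range_iff_exists_fun L).mp h1
    choose c hc using fun a => P.surj (g a)
    have h2 : E.e (fun i => ∑ a, c a i • W a i) = E.e (fun i => b i s) := by
      rw [gbas_sum E W c, ← hg]
      exact Finset.sum_congr rfl fun a _ => by rw [hc a]
    filter_upwards [(gbas_eq E _ _).mp h2] with i hi
    rw [← hi]
    exact Submodule.sum_mem _ fun a _ => Submodule.smul_mem _ _ (Submodule.subset_span ⟨a, rfl⟩)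
  filter_upwards [Filter.eventually_all.mpr h] with i hi
  rw [eq_top_iff, ← (b i).span_eq, Submodule.span_le]
  rintro _ ⟨s, rfl⟩
  exact hi s

theorem gbas_lift (E : UM P A N) {d : ℕ} (b : ∀ i, Module.Basis (Fin d) k (A i))
    (u : N.X →ₗ[R] N.X) (hu : u ∈ HomF N N) :
    ∃ v : ∀ i, A i →ₗ[k] A i, ∀ f : ∀ i, A i, u (E.e f) = E.e (fun i => v i (f i)) := by
  choose G hG using fun s => E.surj (u (E.e (fun i => b i s)))
  refine ⟨fun i => (b i).constr k (fun s => G s i), fun f => ?_⟩
  have h : (fun i => (b i).constr k (fun s => G s i) (f i)) =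
      fun i => ∑ s, (b i).repr (f i) s • G s i := by
    funext i
    rw [Module.Basis.constr_apply_fintype]
    rfl
  rw [h, gbas_sum E G (fun s i => (b i).repr (f i) s), gbas_repr E b f, map_sum]
  refine Finset.sum_congr rfl fun s _ => ?_
  rw [mem_HomF.mp hu, hG]

theorem gbas_lin [FiniteDimensional k R] (T : Md k R) {d : ℕ} (b : Module.Basis (Fin d) k T)
    (v : T →ₗ[k] T) (h : ∀ t s, v (bR k R t • b s) = bR k R t • v (b s)) (r : R) (x : T) :
    v (r • x) = r • v x := by
  rw [← (bR k R).sum_repr r, ← b.sum_repr x]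
  simp only [Finset.sum_smul, Finset.smul_sum, map_sum, smul_assoc, map_smul]
  refine Finset.sum_congr rfl fun s _ => Finset.sum_congr rfl fun t _ => ?_
  rw [smul_comm (bR k R t), smul_comm (bR k R t), map_smul, h]

theorem gbas_idem (T : Md k R) (hT : Indec R T) (v : T →ₗ[R] T) (h : ∀ x, v (v x) = v x) :
    (∀ x, v x = 0) ∨ ∀ x, v x = x := by
  have hc : IsCompl (LinearMap.range v) (LinearMap.ker v) := by
    refine LinearMap.IsProj.isCompl ⟨fun x => ⟨x, rfl⟩, ?_⟩
    rintro _ ⟨x, rfl⟩
    exact h x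
  rcases hT.2 _ _ hc with h0 | h0
  · left
    intro x
    have : v x ∈ LinearMap.range v := ⟨x, rfl⟩
    rwa [h0, Submodule.mem_bot] at this
  · right
    intro x
    have : v x - x ∈ LinearMap.ker v := by rw [LinearMap.mem_ker, map_sub, h, sub_self]
    rwa [h0, Submodule.mem_bot, sub_eq_zero] at this

theorem gbas_loc [FiniteDimensional k R] (E : UM P A N) {d : ℕ}
    (b : ∀ i, Module.Basis (Fin d) k (A i)) (hA : ∀ i, Indec R (A i))
    (u : N.X →ₗ[R] N.X) (hu : u ∈ HomF N N) (h2 : u ∘ₗ u = u) : u = 0 ∨ u = LinearMap.id := by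
  obtain ⟨v, hv⟩ := gbas_lift E b u hu
  have h1 : ∀ t s, ∀ᶠ i in (P.U : Filter ℕ), v i (bR k R t • b i s) = bR k R t • v i (b i s) := by
    intro t s
    refine (gbas_eq E (fun i => v i (bR k R t • b i s)) (fun i => bR k R t • v i (b i s))).mp ?_
    have e1 : (fun i => bR k R t • v i (b i s)) = bR k R t • (fun i => v i (b i s)) := rfl
    have e2 : (fun i => bR k R t • b i s) = bR k R t • (fun i => b i s) := rfl
    rw [e1, map_smul, ← hv (fun i => b i s), ← hv (fun i => bR k R t • b i s), e2, map_smul,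
      map_smul]
  have h3 : ∀ s, ∀ᶠ i in (P.U : Filter ℕ), v i (v i (b i s)) = v i (b i s) := by
    intro s
    refine (gbas_eq E (fun i => v i (v i (b i s))) (fun i => v i (b i s))).mp ?_
    rw [← hv (fun i => v i (b i s)), ← hv (fun i => b i s)]
    exact LinearMap.congr_fun h2 _
  have h4 : ∀ᶠ i in (P.U : Filter ℕ), (∀ x, v i x = 0) ∨ ∀ x, v i x = x := by
    filter_upwards [Filter.eventually_all.mpr fun t => Filter.eventually_all.mpr (h1 t),
      Filter.eventually_all.mpr h3] with i hi hi'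
    let w : A i →ₗ[R] A i := ⟨⟨v i, (v i).map_add⟩, gbas_lin (A i) (b i) (v i) hi⟩
    have e : v i ∘ₗ v i = v i := (b i).ext hi'
    exact gbas_idem (A i) (hA i) w fun x => LinearMap.congr_fun e x
  rcases Ultrafilter.eventually_or.mp h4 with h | h
  · left
    refine LinearMap.ext fun t => ?_
    obtain ⟨f, rfl⟩ := E.surj t
    rw [hv, LinearMap.zero_apply, E.ker]
    filter_upwards [h] with i hi using hi _
  · right
    refine LinearMap.ext fun t => ?_
    obtain ⟨f, rfl⟩ := E.surj t
    rw [hv, LinearMap.id_apply, gbas_eq]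
    filter_upwards [h] with i hi using hi _

end aux

theorem t_GBAS (k : Type u) [Field k] [IsAlgClosed k] (R : Type u) [Ring R] [Algebra k R]
    [FiniteDimensional k R] (L : Lib k) :
    S_GBAS k R := by
  refine ⟨fun F _ _ P A N E d hf hd => ?_, fun F _ _ P A N E d hf hd κ _ W hW => ?_,
    fun F _ _ P A N E d hf hd hA => ?_⟩
  · exact gbas_dim E fun i => @Module.finBasisOfFinrankEq k (A i) _ _ _ _ _ (hf i) d (hd i)
  · exact gbas_span E (fun i => @Module.finBasisOfFinrankEq k (A i) _ _ _ _ _ (hf i) d (hd i)) W hW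
  · let b : ∀ i, Module.Basis (Fin d) k (A i) := fun i =>
      @Module.finBasisOfFinrankEq k (A i) _ _ _ _ _ (hf i) d (hd i)
    obtain ⟨h1, h2⟩ := gbas_dim E b
    refine (L.ks R).indec F N h1 ?_ (gbas_loc E b hA)
    have := hf 0
    have := (hA 0).1
    have := h1
    have h3 : 0 < Module.finrank k (A 0) := Module.finrank_pos
    rw [hd 0, ← h2] at h3
    exact Module.nontrivial_of_finrank_pos h3

end
end Pool.Agent.P.MP_cf639b_al
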