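import Pool.Agent.P.MP_cf639b_al.IfG

set_option linter.dupNamespace false

namespace Pool.Agent.P.MP_cf639b_al

universe u
open TensorProduct Polynomial Function

noncomputable section

section
variable {k : Type u} [Field k] {R : Type u} [Ring R] [Algebra k R]

/-- the `k[x]`-module structure given by an operator -/
abbrev gbim_mod (T : Md k R) (z : Module.End R T) : Module k[X] T :=
  Module.compHom T (aeval z : k[X] →ₐ[k] Module.End R T).toRingHom

theorem gbim_tw (T : Md k R) (z : Module.End R T) :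
    letI := gbim_mod T z; IsScalarTower k k[X] T :=
  letI := gbim_mod T z
  ⟨fun c p t => LinearMap.congr_fun (map_smul (aeval z : k[X] →ₐ[k] Module.End R T) c p) t⟩

theorem gbim_fin (T : Md k R) (z : Module.End R T) (s : Finset T)
    (h : Submodule.span k {t | ∃ n : ℕ, ∃ w ∈ s, t = (z ^ n) w} = ⊤) :
    letI := gbim_mod T z; Module.Finite k[X] T := by
  let := gbim_mod T z
  have := gbim_tw T z
  refine ⟨s, Submodule.eq_top_iff'.2 fun t => ?_⟩
  refine (Submodule.span_le (p := (Submodule.span k[X] (s : Set T)).restrictScalars k)).2 ?_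
    (Submodule.eq_top_iff'.1 h t)
  rintro _ ⟨n, w, hw, rfl⟩
  have : (z ^ n) w = (X ^ n : k[X]) • w := (LinearMap.congr_fun (aeval_X_pow z) w).symm
  exact this ▸ Submodule.smul_mem _ _ (Submodule.subset_span hw)

/-- the bimodule -/
def gbim_B (T : Md k R) (z : Module.End R T) (s : Finset T)
    (h : Submodule.span k {t | ∃ n : ℕ, ∃ w ∈ s, t = (z ^ n) w} = ⊤)
    (h2 : ∀ (p : k[X]) t, aeval z p t = 0 → p = 0 ∨ t = 0) : Bimod k R :=
  letI := gbim_mod T z
  haveI := gbim_tw T z
  haveI := gbim_fin T z s h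
  haveI : SMulCommClass k[X] R T := ⟨fun p r t => (aeval z p).map_smul r t⟩
  haveI : Module.IsTorsionFree k[X] T := Module.IsTorsionFree.of_smul_eq_zero h2
  { T := T }

theorem gbim_nat {T T' : Md k R} {z : Module.End R T} {z' : Module.End R T'} (g : T →ₗ[R] T')
    (hg : ∀ t, g (z t) = z' (g t)) (p : k[X]) (t : T) : g (aeval z p t) = aeval z' p (g t) := by
  induction p using Polynomial.induction_on with
  | C a => simp
  | add p q hp hq => simp [hp, hq]
  | monomial n a h => rw [pow_succ', mul_left_comm, map_mul (aeval z), map_mul (aeval z'), aeval_X,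
      aeval_X, Module.End.mul_apply, Module.End.mul_apply, hg, h]
end

theorem t_GBIM (k : Type u) [Field k] [IsAlgClosed k] (R : Type u) [Ring R] [Algebra k R]
    [FiniteDimensional k R] (L : Lib k) :
    S_GBIM k R := by
  classical
  intro T z s hs
  have cm : ∀ (p q : k[X]) t, aeval z p (aeval z q t) = aeval z q (aeval z p t) := fun p q t => by
    rw [← Module.End.mul_apply, ← map_mul, mul_comm, map_mul, Module.End.mul_apply]
  let N : Submodule R T :=
    { carrier := {t | ∃ p : k[X], p ≠ 0 ∧ aeval z p t = 0}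
      add_mem' := fun ⟨p, hp, e⟩ ⟨q, hq, e'⟩ => ⟨p * q, mul_ne_zero hp hq, by
        rw [map_mul, Module.End.mul_apply, map_add, map_add, e', cm, e]; simp⟩
      zero_mem' := ⟨1, one_ne_zero, map_zero _⟩
      smul_mem' := fun r t ⟨p, hp, e⟩ => ⟨p, hp, by rw [map_smul, e, smul_zero]⟩ }
  obtain ⟨h, h0, hh⟩ : ∃ h : k[X], h ≠ 0 ∧ ∀ t ∈ N, aeval z h t = 0 := by
    let := gbim_mod T z
    have := gbim_fin T z s hs
    obtain ⟨h, h1, h2⟩ := Submodule.annihilator_top_inter_nonZeroDivisors
      (Submodule.torsion_isTorsion (R := k[X]) (M := T))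
    exact ⟨h, nonZeroDivisors.ne_zero h2, fun t ⟨p, hp, e⟩ => congrArg Subtype.val
      (Submodule.mem_annihilator.1 h1 ⟨t, ⟨p, mem_nonZeroDivisors_of_ne_zero hp⟩, e⟩ trivial)⟩
  let w : Module.End R (T.quo N) := N.mapQ N z fun t ⟨p, hp, e⟩ => ⟨p, hp, by
    have := cm p X t
    rwa [aeval_X, e, map_zero] at this⟩
  have nt := gbim_nat (T' := T.quo N) (z := z) (z' := w) N.mkQ fun _ => rfl
  refine ⟨gbim_B (T.quo N) w (s.image N.mkQ) (Submodule.eq_top_iff'.2 fun t => ?_)
    fun p t e => ?_, h, h0, fun c hc => ⟨?_⟩⟩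
  · obtain ⟨t, rfl⟩ := N.mkQ_surjective t
    refine Submodule.mem_comap.1 ((Submodule.span_le
      (p := Submodule.comap (N.mkQ.restrictScalars k) _)).2 ?_ (Submodule.eq_top_iff'.1 hs t))
    rintro _ ⟨n, v, hv, rfl⟩
    refine Submodule.subset_span ⟨n, _, Finset.mem_image_of_mem _ hv, ?_⟩
    have := nt (X ^ n) v
    rwa [aeval_X_pow, aeval_X_pow] at this
  · obtain ⟨t, rfl⟩ := N.mkQ_surjective t
    obtain ⟨q, hq, e2⟩ := (Submodule.Quotient.mk_eq_zero N).1 ((nt p t).trans e)
    exact or_iff_not_imp_left.2 fun hp => (Submodule.Quotient.mk_eq_zero N).2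
      ⟨q * p, mul_ne_zero hq hp, by rw [map_mul]; exact e2⟩
  · have e1 : aeval z (X - C c) = z - c • 1 := by simp [Algebra.algebraMap_eq_smul_one]
    have le : N ≤ LinearMap.range (z - c • 1) := fun t ht => by
      obtain ⟨q, hq⟩ : X - C c ∣ h - C (h.eval c) := dvd_iff_isRoot.2 (by simp)
      have := congrArg (fun p => aeval z p t) hq
      simp only [map_sub, map_mul, LinearMap.sub_apply, hh t ht, aeval_C, aeval_X,
        Module.algebraMap_end_apply, Module.End.mul_apply, zero_sub] at this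
      refine ⟨-(h.eval c)⁻¹ • aeval z q t, ?_⟩
      rw [LinearMap.map_smul_of_tower]
      exact (congrArg _ this.symm).trans (by simp [hc])
    refine (Submodule.quotientQuotientEquivQuotient N _ le).symm.trans
      (Submodule.quotEquivOfEq _ _ (Submodule.ext fun t => ⟨?_, ?_⟩))
    · rintro ⟨_, ⟨t, rfl⟩, rfl⟩
      exact ⟨N.mkQ t, (nt (X - C c) t).symm.trans (by rw [e1])⟩
    · rintro ⟨t, rfl⟩
      obtain ⟨t, rfl⟩ := N.mkQ_surjective t
      exact ⟨_, ⟨t, rfl⟩, Eq.trans (by rw [e1]) (nt (X - C c) t)⟩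

end
end Pool.Agent.P.MP_cf639b_al
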