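import Pool.Agent.P.MP_cf639b_al.IfG

set_option linter.dupNamespace false

namespace Pool.Agent.P.MP_cf639b_al

universe u
open TensorProduct Polynomial Function

noncomputable section

theorem gcon_lin {k : Type u} [Field k] {R : Type u} [Ring R] [Algebra k R]
    [FiniteDimensional k R] {Z T : Md k R} (s : Z →ₗ[k] T) {ι : Type} (w : Module.Basis ι k Z)
    (h : ∀ a j, s (bR k R a • w j) = bR k R a • s (w j)) (r : R) (z : Z) :
    s (r • z) = r • s z := by
  have h1 : ∀ a z, s (bR k R a • z) = bR k R a • s z := fun a =>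
    LinearMap.congr_fun (w.ext (f₁ := s ∘ₗ DistribSMul.toLinearMap k Z (bR k R a))
      (f₂ := DistribSMul.toLinearMap k T (bR k R a) ∘ₗ s) (h a))
  exact LinearMap.congr_fun ((bR k R).ext
    (f₁ := s ∘ₗ (LinearMap.toSpanSingleton R Z z).restrictScalars k)
    (f₂ := (LinearMap.toSpanSingleton R T (s z)).restrictScalars k) fun a => h1 a z) r

theorem gcon_span {k : Type u} [Field k] {R : Type u} [Ring R] [Algebra k R] {F : Type u} [Field F]
    [Algebra k F] {Q : Md k R} {N : FO k R F} {ι : Type} (w : Module.Basis ι k Q)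
    (g : Q ⊗[k] F →ₗ[R] N.X) (hg : ∀ (x : Q) (c : F), g (x ⊗ₜ[k] c) = c • g (x ⊗ₜ[k] 1))
    (hs : Surjective g) : Submodule.span F (Set.range fun a => g (w a ⊗ₜ[k] 1)) = ⊤ := by
  refine eq_top_iff.2 fun t _ => ?_
  obtain ⟨z, rfl⟩ := hs t
  induction z using TensorProduct.induction_on with
  | zero => rw [map_zero]; exact zero_mem _
  | add x y hx hy => rw [map_add]; exact add_mem (hx trivial) (hy trivial)
  | tmul x c =>
    rw [hg]
    refine Submodule.smul_mem _ _ ?_
    induction w.mem_span x using Submodule.span_induction with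
    | mem x hx => obtain ⟨a, rfl⟩ := hx; exact Submodule.subset_span ⟨a, rfl⟩
    | zero => rw [zero_tmul, map_zero]; exact zero_mem _
    | add x y _ _ hx hy => rw [add_tmul, map_add]; exact add_mem (hx trivial) (hy trivial)
    | smul a x _ hx =>
      rw [← smul_tmul', g.map_smul_of_tower]
      exact Submodule.smul_of_tower_mem _ a (hx trivial)

theorem t_GCON (k : Type u) [Field k] [IsAlgClosed k] (R : Type u) [Ring R] [Algebra k R]
    [FiniteDimensional k R] (L : Lib k) :
    S_GBAS k R → S_GCON k R := by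
  rintro hB F _ _ P A N E d hA hd ⟨Q, hQ, hI⟩
  have h1 := (L.fd R).one F 0
  have h2 : Module.finrank k Q = d := by
    have := ((L.fd R).ten F Q _ hQ h1.1).2
    rw [h1.2, mul_one] at this
    exact this.symm.trans (((L.id R).iso_fd F _ _ hI).2.symm.trans (hB.dim F P A N E d hA hd).2)
  obtain ⟨g, hg, hb⟩ := (L.id R).iso_symm F _ _ hI
  let w := Module.finBasis k Q
  choose W hW using fun a => E.surj (g (w a ⊗ₜ[k] (1 : F)))
  let s : Q →ₗ[k] ∀ i, A i := w.constr k W
  have hs : ∀ x, E.e (s x) = g (x ⊗ₜ[k] (1 : F)) := LinearMap.congr_fun (w.ext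
    (f₁ := E.e.restrictScalars k ∘ₗ s)
    (f₂ := g.restrictScalars k ∘ₗ (TensorProduct.mk k Q F).flip 1) fun a =>
      (congrArg E.e (w.constr_basis k W a)).trans (hW a))
  have h3 : ∀ᶠ i in (P.U : Filter ℕ), ∀ a j, s (bR k R a • w j) i = bR k R a • s (w j) i :=
    Filter.eventually_all.2 fun a => Filter.eventually_all.2 fun j =>
      ((E.ker (s (bR k R a • w j) - bR k R a • s (w j))).1 (by
        rw [map_sub, E.e.map_smul, hs, hs, sub_eq_zero]
        exact g.map_smul (bR k R a) (w j ⊗ₜ[k] (1 : F)))).mono fun i h => sub_eq_zero.1 h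
  have h4 := hB.span F P A N E d hA hd _ W (by
    rw [funext hW]
    refine gcon_span w g (fun x c => ?_) hb.2
    exact (congrArg (fun z : F => g (x ⊗ₜ[k] z)) (mul_one c).symm).trans (hg c (x ⊗ₜ[k] (1 : F))))
  refine ⟨Q, ?_⟩
  filter_upwards [h3, h4] with i h3 h4
  have := hA i
  let f : Q →ₗ[k] A i := LinearMap.proj i ∘ₗ s
  have h5 : Surjective f := by
    rw [← LinearMap.range_eq_top, eq_top_iff, ← h4, Submodule.span_le]
    rintro _ ⟨a, rfl⟩
    exact ⟨w a, congrFun (w.constr_basis k W a) i⟩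
  exact ⟨LinearEquiv.ofBijective ⟨f.toAddHom, gcon_lin f w h3⟩
    ⟨(LinearMap.injective_iff_surjective_of_finrank_eq_finrank (h2.trans (hd i).symm)).2 h5, h5⟩⟩

end
end Pool.Agent.P.MP_cf639b_al
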