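import Pool.Agent.P.MP_cf639b_al.IfG

set_option linter.dupNamespace false

namespace Pool.Agent.P.MP_cf639b_al

universe u
open TensorProduct Polynomial Function

noncomputable section

section
variable {k : Type u} [Field k] {R : Type u} [Ring R] [Algebra k R]

theorem gfam_ex (D : Fam R) {V V' : XV k} (g : XH V V') (u : XH V V) (hg : Surjective g.1)
    (hu : Exact u.1 g.1) :
    Nonempty ((M D V ⧸ LinearMap.range ((MN D).map u)) ≃ₗ[R] M D V') := by
  obtain ⟨s, hs⟩ := g.1.exists_rightInverse_of_surjective (LinearMap.range_eq_top.2 hg)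
  replace hs : ∀ v, g.1 (s v) = v := LinearMap.congr_fun hs
  let N := LinearMap.range ((MN D).map u)
  have key : ∀ b v v', g.1 v = g.1 v' → N.mkQ (gen D V b v) = N.mkQ (gen D V b v') :=
    fun b v v' h => by
      obtain ⟨w, hw⟩ := (hu (v - v')).1 (by rw [map_sub, h, sub_self])
      exact (Submodule.Quotient.eq N).2 ⟨gen D V b w, by rw [map_gen, hw, map_sub]⟩
  have z0 : (MN D).map g ∘ₗ (MN D).map u = 0 := by
    rw [← (MN D).map_comp, show XH.comp g u = 0 from
      Subtype.ext (LinearMap.ext hu.apply_apply_eq_zero), map_zero]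
  obtain ⟨ψ, hψ⟩ : ∃ ψ : M D V' →ₗ[R] (M D V).quo N,
      ∀ b v, ψ (gen D V' b v) = N.mkQ (gen D V b (s v)) := by
    refine ⟨Mlift D V' (T := (M D V).quo N) (fun b => N.mkQ.restrictScalars k ∘ₗ gen D V b ∘ₗ s)
      fun a v => ?_, Mlift_gen _ _ _ _⟩
    have := congrArg N.mkQ (gen_rel D V a (s v))
    simp only [map_sum, map_smul, map_zero] at this
    refine Eq.trans (Finset.sum_congr rfl fun i _ => Finset.sum_congr rfl fun b _ =>
      congrArg _ (key b _ _ ?_)) this
    rw [hs, XH.comm_pow, hs]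
  refine ⟨LinearEquiv.ofLinearMap (N.liftQ ((MN D).map g) (LinearMap.range_le_ker_iff.2 z0)) ψ
    (M_ext fun b v => ?_) (Submodule.linearMap_qext _ (M_ext (T := (M D V).quo N) fun b v => ?_))⟩
  · rw [LinearMap.comp_apply, hψ]
    exact (map_gen D g b (s v)).trans (congrArg _ (hs v))
  · exact (congrArg ψ (map_gen D g b v)).trans ((hψ _ _).trans (key b _ _ (hs _)))

theorem gfam_top (D : Fam R) (V : XV k) (S : Submodule k (M D V))
    (h : ∀ (r : R) b v, r • gen D V b v ∈ S) : S = ⊤ := by
  refine Submodule.eq_top_iff'.2 fun m => ?_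
  obtain ⟨t, rfl⟩ := (LinearMap.range (Xd D V)).mkQ_surjective m
  induction t using TensorProduct.induction_on with
  | zero => exact zero_mem S
  | add x y hx hy => exact add_mem hx hy
  | tmul r v =>
    have e : r ⊗ₜ[k] v = ∑ b, r • ((1 : R) ⊗ₜ[k] Pi.single b (v b)) := by
      conv_lhs => rw [← Finset.univ_sum_single v, TensorProduct.tmul_sum]
      simp [TensorProduct.smul_tmul']
    rw [e, map_sum]
    exact sum_mem fun b _ => h r b (v b)
end

theorem t_GFAM (k : Type u) [Field k] [IsAlgClosed k] (R : Type u) [Ring R] [Algebra k R]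
    [FiniteDimensional k R] (L : Lib k) :
    S_GFAM k R := by
  classical
  intro D e
  let q : k[X][X] := (X - C X) ^ e
  have hq : q.Monic := (monic_X_sub_C _).pow e
  let mk : k[X][X] →ₐ[k] (k[X][X] ⧸ Ideal.span {q}) := Ideal.Quotient.mkₐ k _
  let V : XV k := ⟨k[X][X] ⧸ Ideal.span {q}, LinearMap.mulLeft k (mk X)⟩
  let ml : k[X] → XH V V := fun a => ⟨LinearMap.mulLeft k (mk (C a)),
    LinearMap.ext fun v => mul_left_comm (mk (C a)) (mk X) v⟩
  refine ⟨M D V, (MN D).map (ml X), Finset.univ.image fun p : Fin _ × Fin D.n0 × Fin e =>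
    bR k R p.1 • gen D V p.2.1 (mk (X ^ (p.2.2 : ℕ))), gfam_top D V _ fun r b v => ?_, fun c => ?_⟩
  · obtain ⟨p, rfl⟩ := Ideal.Quotient.mkₐ_surjective k _ v
    have e1 : mk p = mk (p %ₘ q) := (Ideal.Quotient.eq.2 (Ideal.mem_span_singleton.2
      ⟨p /ₘ q, by rw [modByMonic_eq_sub_mul_div, sub_sub_cancel]⟩))
    have e2 : (p %ₘ q).degree < (e : ℕ) := (degree_modByMonic_lt p hq).trans_eq
      (by rw [degree_pow, degree_X_sub_C]; simp)
    have e3 : ∀ (n : ℕ) (w : k[X][X]), (((MN D).map (ml X) : Module.End R (M D V)) ^ n)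
        (gen D V b (mk w)) = gen D V b (mk (C (X ^ n) * w)) := fun n w => by
      induction n with
      | zero => simp
      | succ n ih =>
        rw [pow_succ', Module.End.mul_apply, ih, map_gen, pow_succ', C_mul, mul_assoc, map_mul mk (C X)]
        rfl
    change r • gen D V b (mk p) ∈ _
    rw [e1, ← sum_fin (fun i a => monomial i a) (by simp) e2 |>.trans (sum_monomial_eq _),
      ← (bR k R).sum_repr r, Finset.sum_smul]
    refine sum_mem fun t _ => ?_
    rw [smul_assoc, map_sum, map_sum, Finset.smul_sum]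
    refine Submodule.smul_mem _ _ (sum_mem fun l _ => ?_)
    induction (p %ₘ q).coeff l using Polynomial.induction_on' with
    | add a a' h h' => rw [map_add, map_add, map_add, smul_add]; exact add_mem h h'
    | monomial n a =>
      rw [show monomial (l : ℕ) (monomial n a) = a • (C (X ^ n) * X ^ (l : ℕ) : k[X][X]) by
        rw [C_mul_X_pow_eq_monomial, smul_monomial, smul_X_eq_monomial],
        map_smul, map_smul, smul_comm, ← e3, ← map_smul]
      exact Submodule.smul_mem _ _ (Submodule.subset_span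
        ⟨n, _, Finset.mem_image_of_mem _ (Finset.mem_univ (t, b, l)), rfl⟩)
  · let ev : k[X][X] →ₐ[k] k[X] := mapAlgHom (aeval c)
    have e0 : ∀ p, ev p = p.map (evalRingHom c) := fun p => by
      rw [coe_mapAlgHom]; congr 1
    have e1 : ev q = (X - C c) ^ e := by simp [e0, q]
    let g : (k[X][X] ⧸ Ideal.span {q}) →ₐ[k] JT c e := Ideal.quotientMapₐ _ ev
      (Ideal.span_le.2 (Set.singleton_subset_iff.2 (Ideal.subset_span e1)))
    have e2 : ∀ p, g (mk p) = Jmk c e (ev p) := fun _ => rfl
    have e3 : ∀ r : k[X], ev (r.map C) = r := fun r => by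
      rw [e0, Polynomial.map_map]; ext; simp
    have := gfam_ex D (V := V) (V' := (J k c e).V) ⟨g.toLinearMap, LinearMap.ext fun v =>
      (map_mul g _ v).trans (congrArg (· * g v) ((e2 X).trans (congrArg (Jmk c e)
        (show ev X = X by simp [e0]))))⟩ (ml (X - C c))
      (fun v => by
        obtain ⟨r, rfl⟩ := Ideal.Quotient.mk_surjective v
        exact ⟨mk (r.map C), (e2 _).trans (congrArg _ (e3 r))⟩) fun v => ⟨fun h => ?_, ?_⟩
    · rwa [show ml (X - C c) = ml X - c • XH.id V from Subtype.ext (LinearMap.ext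
        fun v : k[X][X] ⧸ Ideal.span {q} => by
        obtain ⟨p, rfl⟩ := Ideal.Quotient.mkₐ_surjective k _ v
        change mk (C (X - C c) * p) = mk (C X * p - c • p)
        rw [C_sub, sub_mul, Algebra.smul_def]; rfl),
        map_sub, map_smul, (MN D).map_id] at this
    · obtain ⟨p, rfl⟩ := Ideal.Quotient.mkₐ_surjective k _ v
      obtain ⟨r, hr⟩ := Ideal.mem_span_singleton.1 (Ideal.Quotient.eq_zero_iff_mem.1
        ((e2 p).symm.trans h))
      have h1 : ev (p - q * r.map C) = 0 := by rw [map_sub, map_mul, e1, e3, hr, sub_self]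
      obtain ⟨w, hw⟩ : C (X - C c) ∣ p - q * r.map C := (C_dvd_iff_dvd_coeff _ _).2 fun i =>
        dvd_iff_isRoot.2 ((coeff_map (evalRingHom c) i).symm.trans
          (congrArg (coeff · i) ((e0 _).symm.trans h1)))
      exact ⟨mk w, (map_mul mk _ _).symm.trans ((congrArg mk hw).symm.trans
        (Ideal.Quotient.eq.2 (Ideal.mem_span_singleton.2 ⟨-r.map C, by ring⟩)))⟩
    · rintro ⟨v, rfl⟩
      exact (map_mul g _ v).trans (mul_eq_zero_of_left ((e2 _).trans (by simp [e0])) _)

end
end Pool.Agent.P.MP_cf639b_al
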