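import Pool.Agent.P.MP_cf639b_al.IfG

set_option linter.dupNamespace false

namespace Pool.Agent.P.MP_cf639b_al

universe u
open TensorProduct Polynomial Function

noncomputable section

section aux
variable {k : Type u} [Field k] {R : Type u} [Ring R] [Algebra k R]
  {F : Type u} [Field F] [Algebra k F]

theorem gj_deg (y : F) (e : ℕ) : ((X - C y) ^ e).degree = (e : WithBot ℕ) := by
  rw [degree_pow, degree_X_sub_C, nsmul_one]

theorem gj_mk (y : F) (e : ℕ) (p : F[X]) : Jmk y e p =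
    ∑ l : Fin e, (p %ₘ (X - C y) ^ e).coeff l • Jmk y e (X ^ (l : ℕ)) := by
  have h1 : Jmk y e p = Jmk y e (p %ₘ (X - C y) ^ e) := by
    refine Ideal.Quotient.eq.2 (Ideal.mem_span_singleton.2 ?_)
    exact dvd_sub_comm.1 (dvd_modByMonic_sub _ _)
  rw [h1]
  nth_rw 1 [← sum_modByMonic_coeff (Jmonic y e) (gj_deg y e).le]
  rw [map_sum]
  refine Finset.sum_congr rfl fun l _ => ?_
  rw [← smul_X_eq_monomial]
  rfl

theorem gj_xpow (y : F) (e j : ℕ) (p : F[X]) :
    ((J k y e).V.x ^ j) (Jmk y e p) = Jmk y e (X ^ j * p) := by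
  induction j with
  | zero => simp
  | succ j ih =>
    rw [pow_succ', Module.End.mul_apply, ih, pow_succ', mul_assoc, map_mul (Jmk y e) X]
    rfl

theorem gj_key (D : Fam R) (y : F) (e : ℕ) (A : FO k R F) {g : M D (J k y e).V →ₗ[R] A.X}
    (hg : g ∈ HomF (MF D (J k y e)) A) (b : Fin D.n0) (p : F[X]) :
    g (gen D (J k y e).V b (Jmk y e p)) = ∑ l : Fin e, A.act ((p %ₘ (X - C y) ^ e).coeff l)
      (g (gen D (J k y e).V b (Jmk y e (X ^ (l : ℕ))))) := by
  rw [gj_mk y e p, map_sum, map_sum]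
  refine Finset.sum_congr rfl fun l _ => Eq.trans (congrArg g ?_) (hg _ _)
  refine Eq.trans (congrArg _ ?_) (map_gen D ((J k y e).sc _) b _).symm
  exact Algebra.smul_def (A := JT y e) _ _

/-- the linear map on `J_e(c)` with given values on the powers of `x` -/
def gj_z (c : k) (e : ℕ) {T : Type u} [AddCommGroup T] [Module k T] (w : Fin e → T) :
    JT c e →ₗ[k] T :=
  ∑ l : Fin e, (lcoeff k l ∘ₗ AdjoinRoot.modByMonicHom (Jmonic c e)).smulRight (w l)

theorem gj_z_mk (c : k) (e : ℕ) {T : Type u} [AddCommGroup T] [Module k T] (w : Fin e → T)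
    (p : k[X]) : gj_z c e w (Jmk c e p) = ∑ l : Fin e, (p %ₘ (X - C c) ^ e).coeff l • w l := by
  exact LinearMap.sum_apply Finset.univ (fun l : Fin e =>
    (lcoeff k l ∘ₗ AdjoinRoot.modByMonicHom (Jmonic c e)).smulRight (w l)) _

theorem gj_z_pow (c : k) (e : ℕ) {T : Type u} [AddCommGroup T] [Module k T] (w : Fin e → T)
    (l : Fin e) : gj_z c e w (Jmk c e (X ^ (l : ℕ))) = w l := by
  rw [gj_z_mk, (modByMonic_eq_self_iff (Jmonic c e)).2 (by
    rw [gj_deg, degree_X_pow]; exact_mod_cast l.2),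
    Finset.sum_eq_single l (fun l' _ h => by
      rw [coeff_X_pow, if_neg (fun h2 => h (Fin.ext h2)), zero_smul]) (by simp)]
  simp

theorem gj_ind {d : Fam R} {V : XV k} (U : Submodule R (M d V)) (h : ∀ b v, gen d V b v ∈ U) :
    U = ⊤ := by
  have h1 : (U.mkQ : M d V →ₗ[R] (M d V).quo U) = 0 :=
    M_ext (T := (M d V).quo U) fun b v => (Submodule.Quotient.mk_eq_zero U).2 (h b v)
  rw [← U.ker_mkQ, h1, LinearMap.ker_zero]

theorem gj_span [FiniteDimensional k R] (D : Fam R) (y : F) (e : ℕ) (A : FO k R F)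
    {g : M D (J k y e).V →ₗ[R] A.X} (hg : g ∈ HomF (MF D (J k y e)) A) (hs : Surjective g) :
    Submodule.span F (Set.range fun a : Fin (Module.finrank k R) × Fin D.n0 × Fin e =>
      bR k R a.1 • g (gen D (J k y e).V a.2.1 (Jmk y e (X ^ (a.2.2 : ℕ))))) = ⊤ := by
  obtain ⟨S, hS⟩ : ∃ S : Submodule F A.X, S = Submodule.span F
    (Set.range fun a : Fin (Module.finrank k R) × Fin D.n0 × Fin e =>
      bR k R a.1 • g (gen D (J k y e).V a.2.1 (Jmk y e (X ^ (a.2.2 : ℕ))))) := ⟨_, rfl⟩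
  rw [← hS]
  have h1 := gj_ind (d := D) (V := (J k y e).V)
    { carrier := {m | ∀ r : R, r • g m ∈ S}
      add_mem' := fun {a b} ha hb r => by
        rw [map_add, smul_add]; exact add_mem (ha r) (hb r)
      zero_mem' := fun r => by rw [map_zero, smul_zero]; exact zero_mem _
      smul_mem' := fun s a ha r => by rw [map_smul, ← mul_smul]; exact ha _ }
    (fun b v r => by
      obtain ⟨p, rfl⟩ := Ideal.Quotient.mk_surjective v
      rw [gj_key D y e A hg b p, Finset.smul_sum]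
      refine Submodule.sum_mem _ fun l _ => ?_
      rw [← map_smul]
      refine S.smul_mem _ ?_
      rw [← (bR k R).sum_repr r, Finset.sum_smul]
      refine Submodule.sum_mem _ fun t _ => ?_
      rw [smul_assoc]
      exact S.smul_of_tower_mem _ (hS ▸ Submodule.subset_span ⟨(t, b, l), rfl⟩))
  refine eq_top_iff.2 fun x _ => ?_
  obtain ⟨m, rfl⟩ := hs x
  have h2 := (h1 ▸ Submodule.mem_top (x := m) :) (1 : R)
  rwa [one_smul] at h2

theorem gj_coeff {A B : Type u} [CommRing A] [CommRing B] (f : A →+* B) (c : A) (e n l : ℕ) :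
    f ((X ^ n %ₘ (X - C c) ^ e).coeff l) = (X ^ n %ₘ (X - C (f c)) ^ e).coeff l := by
  rw [← coeff_map, map_modByMonic f ((monic_X_sub_C c).pow e)]
  simp
end aux

theorem t_GJ (k : Type u) [Field k] [IsAlgClosed k] (R : Type u) [Ring R] [Algebra k R]
    [FiniteDimensional k R] (L : Lib k) :
    S_GBAS k R → S_GJ k R := by
  intro hBAS F _ _ P A N E d hfd hdim D c e hiso
  obtain ⟨g, hg, hb⟩ := (L.id R).iso_symm F _ _ hiso
  choose W hW using fun a : Fin D.n0 × Fin e =>
    E.surj (g (gen D (J k (P.ev c) e).V a.1 (Jmk (P.ev c) e (X ^ (a.2 : ℕ)))))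
  have key : ∀ b n, E.e (fun i => gj_z (c i) e (fun l => W (b, l) i) (Jmk (c i) e (X ^ n))) =
      g (gen D (J k (P.ev c) e).V b (Jmk (P.ev c) e (X ^ n))) := by
    intro b n
    have h1 : (fun i => gj_z (c i) e (fun l => W (b, l) i) (Jmk (c i) e (X ^ n))) =
        ∑ l : Fin e, fun i => (X ^ n %ₘ (X - C c) ^ e : (ℕ → k)[X]).coeff l i • W (b, l) i := by
      funext i
      rw [gj_z_mk, Finset.sum_apply]
      exact Finset.sum_congr rfl fun l _ => congrArg (· • W (b, l) i)
        (gj_coeff (Pi.evalRingHom (fun _ => k) i) c e n l).symm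
    rw [h1, map_sum, gj_key D _ e N hg]
    refine Finset.sum_congr rfl fun l _ => ?_
    rw [E.act, hW]
    exact congrArg (fun a => N.act a _) (gj_coeff (P.ev : (ℕ → k) →+* F) c e n l)
  have hrel : ∀ᶠ i in (P.U : Filter ℕ), ∀ a : Fin D.n1 × Fin e,
      ∑ j ∈ Finset.range (D.r + 1), ∑ b, D.c j a.1 b •
        gj_z (c i) e (fun l => W (b, l) i) (Jmk (c i) e (X ^ (j + a.2))) = 0 := by
    refine Filter.eventually_all.2 fun a => ?_
    have h2 := congrArg g (gen_rel D (J k (P.ev c) e).V a.1 (Jmk (P.ev c) e (X ^ (a.2 : ℕ))))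
    have h3 : E.e (∑ j ∈ Finset.range (D.r + 1), ∑ b, D.c j a.1 b • fun i =>
        gj_z (c i) e (fun l => W (b, l) i) (Jmk (c i) e (X ^ (j + a.2)))) = 0 := by
      rw [map_sum, map_zero] at h2
      rw [map_sum]
      refine Eq.trans (Finset.sum_congr rfl fun j _ => ?_) h2
      rw [map_sum, map_sum]
      refine Finset.sum_congr rfl fun b _ => ?_
      rw [map_smul, map_smul, key, gj_xpow, pow_add]
    refine ((E.ker _).1 h3).mono fun i hi => ?_
    simpa only [Finset.sum_apply, Pi.smul_apply] using hi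
  have hspan := hBAS.span F P A N E d hfd hdim (Fin (Module.finrank k R) × Fin D.n0 × Fin e)
    (fun a => bR k R a.1 • W a.2) (by
      simp only [map_smul, hW]
      exact gj_span D _ e N hg hb.2)
  refine (hrel.and hspan).mono fun i hi => ?_
  refine ⟨Mlift D (J k (c i) e).V (fun b => gj_z (c i) e fun l => W (b, l) i) fun a v => ?_, ?_⟩
  · obtain ⟨p, rfl⟩ := Ideal.Quotient.mk_surjective v
    have h3 := gj_mk (c i) e p
    have h4 : ∀ l : Fin e, ∑ j ∈ Finset.range (D.r + 1), ∑ b, D.c j a b •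
        gj_z (c i) e (fun l => W (b, l) i) (((J k (c i) e).V.x ^ j)
          (Jmk (c i) e (X ^ (l : ℕ)))) = 0 := fun l => by
      refine Eq.trans (Finset.sum_congr rfl fun j _ => Finset.sum_congr rfl fun b _ => ?_)
        (hi.1 (a, l))
      rw [gj_xpow, pow_add]
    have h5 : (∑ j ∈ Finset.range (D.r + 1), ∑ b, DistribSMul.toLinearMap k (A i) (D.c j a b) ∘ₗ
        gj_z (c i) e (fun l => W (b, l) i) ∘ₗ ((J k (c i) e).V.x ^ j)) (Jmk (c i) e p) = 0 := by
      rw [h3, map_sum]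
      refine Finset.sum_eq_zero fun l _ => ?_
      rw [map_smul]
      simp only [LinearMap.sum_apply, LinearMap.comp_apply, DistribSMul.toLinearMap_apply]
      rw [h4, smul_zero]
    simpa only [LinearMap.sum_apply, LinearMap.comp_apply, DistribSMul.toLinearMap_apply] using h5
  · rw [← LinearMap.range_eq_top, ← Submodule.restrictScalars_eq_top_iff k, eq_top_iff]
    refine hi.2.ge.trans (Submodule.span_le.2 ?_)
    rintro _ ⟨a, rfl⟩
    refine ⟨bR k R a.1 • gen D (J k (c i) e).V a.2.1 (Jmk (c i) e (X ^ (a.2.2 : ℕ))), ?_⟩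
    rw [map_smul, Mlift_gen, gj_z_pow]
    rfl

end
end Pool.Agent.P.MP_cf639b_al
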