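import Pool.Agent.P.MP_cf639b_al.IfG

set_option linter.dupNamespace false

namespace Pool.Agent.P.MP_cf639b_al

universe u
open TensorProduct Polynomial Function

noncomputable section

theorem grk_dim {k : Type u} [Field k] {R : Type u} [Ring R] [Algebra k R] {F : Type u} [Field F]
    [Algebra k F] (G : NF k R) {n : ℕ} {h : k[X]} (i : ∀ V : XV k, (Fin n → V) →ₗ[k] G.obj V)
    (j : ∀ V : XV k, G.obj V →ₗ[k] (Fin n → V))
    (h1 : ∀ (V V' : XV k) (g : XH V V') (v : Fin n → V), G.map g (i V v) = i V' fun a => g.1 (v a))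
    (h3 : ∀ (V : XV k) (z : G.obj V), i V (j V z) = G.map (XH.pol V h) z)
    (h4 : ∀ (V : XV k) (v : Fin n → V), j V (i V v) = fun a => aeval V.x h (v a))
    (V : FXV k F) (hV : V.fd) (hb : Bijective (aeval V.V.x h)) :
    (G.onF V).fd ∧ (G.onF V).dim = n * V.dim := by
  let e := LinearEquiv.ofBijective (aeval V.V.x h : V.V →ₗ[k] V.V) hb
  let g : XH V.V V.V := ⟨e.symm.toLinearMap, LinearMap.ext fun v => e.injective
    ((e.apply_symm_apply _).trans ((XH.comm (XH.pol V.V h) _).trans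
      (congrArg V.V.x (e.apply_symm_apply v))).symm)⟩
  have hg : XH.comp (XH.pol V.V h) g = XH.id _ := Subtype.ext (LinearMap.ext e.apply_symm_apply)
  let := FO.module (G.onF V)
  let f : (Fin n → V.V) →ₗ[F] (G.onF V).X :=
    ⟨⟨i V.V, map_add _⟩, fun a v => (h1 _ _ (V.sc a) v).symm⟩
  have bf : Bijective f := ⟨fun v w hw => funext fun a => hb.1 ((congrFun (h4 _ v) a).symm.trans
    ((congrFun (congrArg (j V.V) hw) a).trans (congrFun (h4 _ w) a))), fun z =>
      ⟨j V.V (G.map g z), (h3 _ _).trans ((LinearMap.congr_fun (G.map_comp _ _) z).symm.trans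
        (by rw [hg, G.map_id]; rfl))⟩⟩
  exact ⟨Module.Finite.of_surjective f bf.2, (LinearEquiv.ofBijective f bf).finrank_eq.symm.trans
    (by rw [Module.finrank_pi_fintype]; simp)⟩

theorem t_GRK (k : Type u) [Field k] [IsAlgClosed k] (R : Type u) [Ring R] [Algebra k R]
    [FiniteDimensional k R] (L : Lib k) :
    S_GRK k R := by
  rintro G ⟨n, h, i, j, h0, h1, -, h3, h4⟩
  refine ⟨n, h, h0, fun F _ _ y e hy => ?_⟩
  obtain ⟨f1, f2⟩ := (L.fd R).jq F _ (Jmonic y e)
  have := grk_dim G i j h1 h3 h4 (J k y e) f1 ((L.pg R).alJ F h y e hy)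
  rwa [f2, natDegree_pow, natDegree_X_sub_C, mul_one] at this

end
end Pool.Agent.P.MP_cf639b_al
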