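import Pool.Agent.P.MP_cf639b_al.IfG

set_option linter.dupNamespace false

namespace Pool.Agent.P.MP_cf639b_al

universe u
open TensorProduct Polynomial Function

noncomputable section

theorem gum_closed {k : Type u} [Field k] [IsAlgClosed k] {L : Type u} [Field L] [Algebra k L]
    (ev : (ℕ → k) →ₐ[k] L) (hs : Surjective ev) : IsAlgClosed L := by
  refine IsAlgClosed.of_exists_root L fun p hp hirr => ?_
  obtain ⟨q, hq, hd, hm⟩ := lifts_and_natDegree_eq_and_monic
    (mem_lifts_of_surjective (f := ev.toRingHom) hs p) hp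
  have h1 : ∀ i, ∃ c : k, (q.map (Pi.evalRingHom (fun _ : ℕ => k) i)).IsRoot c := fun i =>
    IsAlgClosed.exists_root _ (by
      have := hirr.natDegree_pos
      rw [← hd, ← hm.natDegree_map (Pi.evalRingHom (fun _ : ℕ => k) i)] at this
      exact (natDegree_pos_iff_degree_pos.1 this).ne')
  choose c hc using h1
  have h2 : q.eval c = 0 := funext fun i =>
    (eval_map_apply (Pi.evalRingHom (fun _ : ℕ => k) i) c).symm.trans (hc i)
  refine ⟨ev c, ?_⟩
  rw [← hq]
  refine (eval_map_apply ev.toRingHom c).trans ?_
  rw [h2, map_zero]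

theorem t_GUP (k : Type u) [Field k] [IsAlgClosed k] :
    S_GUP k := by
  let L := Filter.Germ (Filter.hyperfilter ℕ : Filter ℕ) k
  let φ : (ℕ → k) →+* L := Filter.Germ.coeRingHom _
  letI : Algebra k L := (φ.comp (Pi.constRingHom ℕ k)).toAlgebra
  let ev : (ℕ → k) →ₐ[k] L := { φ with commutes' := fun _ => rfl }
  have hs : Surjective ev := fun z => Filter.Germ.inductionOn z fun f => ⟨f, rfl⟩
  exact ⟨L, inferInstance, inferInstance, gum_closed ev hs,
    ⟨⟨Filter.hyperfilter ℕ, Filter.hyperfilter_le_cofinite, ev, hs,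
      fun c => Filter.Germ.coe_eq (f := c) (g := 0)⟩⟩⟩

section
variable {k : Type u} [Field k] {R : Type u} [Ring R] [Algebra k R]

/-- the families vanishing almost everywhere -/
def gum_null (l : Filter ℕ) (A : ℕ → Md k R) : Submodule R (Md.pi A) where
  carrier := {f | ∀ᶠ i in l, f i = 0}
  add_mem' {f g} hf hg := by
    filter_upwards [hf, hg] with i h1 h2
    rw [Pi.add_apply, h1, h2, add_zero]
  zero_mem' := Filter.Eventually.of_forall fun _ => rfl
  smul_mem' r f hf := by
    filter_upwards [hf] with i h1
    rw [Pi.smul_apply, h1, smul_zero]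

/-- multiplication by a family of scalars -/
def gum_mul (A : ℕ → Md k R) (c : ℕ → k) : Md.pi A →ₗ[R] Md.pi A where
  toFun f i := c i • f i
  map_add' f g := funext fun i => smul_add _ _ _
  map_smul' r f := funext fun i => smul_comm _ _ _

/-- the action of families of scalars on the quotient -/
def gum_act (l : Filter ℕ) (A : ℕ → Md k R) :
    (ℕ → k) →ₐ[k] Module.End R ((Md.pi A).quo (gum_null l A)) where
  toFun c := (gum_null l A).mapQ (gum_null l A) (gum_mul A c) fun f hf => by
    refine Filter.Eventually.mono hf fun i h1 => ?_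
    change c i • f i = 0
    rw [h1, smul_zero]
  map_one' := Submodule.linearMap_qext _ (LinearMap.ext fun f =>
    congrArg Submodule.Quotient.mk (funext fun i => one_smul k (f i)))
  map_mul' a b := Submodule.linearMap_qext _ (LinearMap.ext fun f =>
    congrArg Submodule.Quotient.mk (funext fun i => mul_smul (a i) (b i) (f i)))
  map_zero' := Submodule.linearMap_qext _ (LinearMap.ext fun f =>
    congrArg Submodule.Quotient.mk (funext fun i => zero_smul k (f i)))
  map_add' a b := Submodule.linearMap_qext _ (LinearMap.ext fun f =>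
    congrArg Submodule.Quotient.mk (funext fun i => add_smul (a i) (b i) (f i)))
  commutes' c := Submodule.linearMap_qext _ (LinearMap.ext fun f => rfl)

theorem gum_act_mk (l : Filter ℕ) (A : ℕ → Md k R) (c : ℕ → k) (f : Md.pi A) :
    gum_act l A c (Submodule.Quotient.mk f) = Submodule.Quotient.mk fun i => c i • f i := rfl

end

theorem t_GUM (k : Type u) [Field k] [IsAlgClosed k] (R : Type u) [Ring R] [Algebra k R]
    [FiniteDimensional k R] (L : Lib k) :
    S_GUM k R := by
  intro F _ _ P A
  have hk : RingHom.ker P.ev.toRingHom ≤ RingHom.ker (gum_act (P.U : Filter ℕ) A).toRingHom := by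
    intro c hc
    refine Submodule.linearMap_qext _ (LinearMap.ext fun f => ?_)
    refine (gum_act_mk _ A c f).trans ((Submodule.Quotient.mk_eq_zero _).2 ?_)
    refine Filter.Eventually.mono ((P.ker c).1 hc) fun i h1 => ?_
    change c i • f i = 0
    rw [h1, zero_smul]
  let ρ := RingHom.liftOfSurjective P.ev.toRingHom P.surj ⟨_, hk⟩
  have hρ : ∀ c, ρ (P.ev c) = gum_act (P.U : Filter ℕ) A c := fun c =>
    RingHom.liftOfRightInverse_comp_apply _ _ _ _ c
  let act : F →ₐ[k] Module.End R ((Md.pi A).quo (gum_null (P.U : Filter ℕ) A)) :=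
    { ρ with
      commutes' := fun c => by
        rw [← P.ev.commutes, ← (gum_act (P.U : Filter ℕ) A).commutes]
        exact hρ _ }
  refine ⟨⟨_, act⟩, ⟨⟨Submodule.mkQ _, Submodule.mkQ_surjective _,
    fun f => Submodule.Quotient.mk_eq_zero _, fun c f => ?_⟩⟩⟩
  exact (LinearMap.congr_fun (hρ c) (Submodule.Quotient.mk f)).symm

end
end Pool.Agent.P.MP_cf639b_al
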