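import Pool.Agent.P.MP_cf639b_al.T.GG
import Pool.Agent.P.MP_cf639b_al.T.GUM
import Pool.Agent.P.MP_cf639b_al.T.GBAS
import Pool.Agent.P.MP_cf639b_al.T.GCON
import Pool.Agent.P.MP_cf639b_al.T.GJ
import Pool.Agent.P.MP_cf639b_al.T.GRK
import Pool.Agent.P.MP_cf639b_al.T.GBIM
import Pool.Agent.P.MP_cf639b_al.T.GFAM

set_option linter.dupNamespace false

namespace Pool.Agent.P.MP_cf639b_al

universe u

theorem t_G (k : Type u) [Field k] [IsAlgClosed k] (R : Type u) [Ring R] [Algebra k R]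
    [FiniteDimensional k R] (L : Lib k) : S_CL1 k R → S_SAME k R → S_G k R :=
  t_GG k R L (t_GUP k) (t_GUM k R L) (t_GBAS k R L) (t_GCON k R L (t_GBAS k R L))
    (t_GJ k R L (t_GBAS k R L)) (t_GRK k R L) (t_GBIM k R L) (t_GFAM k R L)

end Pool.Agent.P.MP_cf639b_al
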