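import Pool.Agent.P.MP_cf639b_al.Iface

set_option linter.dupNamespace false

namespace Pool.Agent.P.MP_cf639b_al

universe u v
open TensorProduct Polynomial Function

section

variable {k : Type u} [Field k] {R : Type u} [Ring R] [Algebra k R]
  {K : Type u} [Field K] [Algebra k K] {F : Type u} [Field F] [Algebra k F]

/-- restriction of scalars along a field embedding -/
def good_res (A : FO k R F) (ι : K →ₐ[k] F) : FO k R K := ⟨A.X, A.act.comp ι⟩

theorem good_res_mem {A B : FO k R F} (ι : K →ₐ[k] F) {f : A.X →ₗ[R] B.X} (hf : f ∈ HomF A B) :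
    f ∈ HomF (good_res A ι) (good_res B ι) := fun c t => hf (ι c) t

theorem good_res_i0 {A B : FO k R F} (ι : K →ₐ[k] F) {f : A.X →ₗ[R] B.X} (hf : f ∈ I0 A B) :
    f ∈ I0 (good_res A ι) (good_res B ι) := by
  obtain ⟨g, hg, e⟩ := hf
  exact ⟨g, fun c t => hg (ι c) t, e⟩

theorem good_retr (ι : K →ₐ[k] F) :
    ∃ la : F →ₗ[k] K, (∀ c z, la (ι c * z) = c * la z) ∧ la 1 = 1 := by
  let _ : Algebra K F := ι.toRingHom.toAlgebra
  have : IsScalarTower k K F := IsScalarTower.of_algebraMap_eq fun c => (ι.commutes c).symm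
  obtain ⟨la, hla⟩ := (Algebra.linearMap K F).exists_leftInverse_of_injective
    (LinearMap.ker_eq_bot.2 (algebraMap K F).injective)
  refine ⟨la.restrictScalars k, fun c z => ?_, ?_⟩
  · exact la.map_smul c z
  · have := LinearMap.congr_fun hla 1
    simpa using this

theorem good_io (G : NF k R) (ι : K →ₐ[k] F) {t : K} {y : F} (io : XH (one k t).V (one k y).V)
    (hio : ∀ c, io.1 c = ι c) :
    G.map io ∈ HomF (G.onF (one k t)) (good_res (G.onF (one k y)) ι) :=
  mem_HomF'.2 fun c => by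
    change G.map io ∘ₗ G.map ((one k t).sc c) = G.map ((one k y).sc (ι c)) ∘ₗ G.map io
    rw [← G.map_comp, ← G.map_comp]
    refine congrArg _ (Subtype.ext (LinearMap.ext fun z => ?_))
    change io.1 (c * z) = ι c * io.1 z
    rw [hio, hio, map_mul]

theorem good_la (G : NF k R) (ι : K →ₐ[k] F) {t : K} {y : F} (la : XH (one k y).V (one k t).V)
    (hla : ∀ (c : K) (z : F), la.1 (ι c * z) = c * la.1 z) :
    G.map la ∈ HomF (good_res (G.onF (one k y)) ι) (G.onF (one k t)) :=
  mem_HomF'.2 fun c => by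
    change G.map la ∘ₗ G.map ((one k y).sc (ι c)) = G.map ((one k t).sc c) ∘ₗ G.map la
    rw [← G.map_comp, ← G.map_comp]
    exact congrArg _ (Subtype.ext (LinearMap.ext fun z => hla c z))

theorem good_aeval (t : K) (h : k[X]) (s : K) :
    aeval (LinearMap.mulLeft k t) h s = aeval t h * s := by
  have := aeval_algHom_apply (Algebra.lmul k K) t h
  exact LinearMap.congr_fun this s

theorem good_act_bij (A : FO k R F) {c : F} (hc : c ≠ 0) : Bijective (A.act c) := by
  refine bijective_iff_has_inverse.2 ⟨A.act c⁻¹, fun z => ?_, fun z => ?_⟩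
  · rw [← Module.End.mul_apply, ← map_mul, inv_mul_cancel₀ hc, map_one, Module.End.one_apply]
  · rw [← Module.End.mul_apply, ← map_mul, mul_inv_cancel₀ hc, map_one, Module.End.one_apply]

theorem good_cop (d : Fam R) (A : FO k R F) {p q : F[X]} (h : IsCoprime p q) (w : EE d A.X)
    (hp : polE d A p w = 0) (hq : polE d A q w = 0) : w = 0 := by
  obtain ⟨a, b, e⟩ := h
  have h1 : polE d A (a * p + b * q) w = w := by rw [e, polE, map_one, Module.End.one_apply]
  unfold polE at *
  rw [map_add, map_mul, map_mul, LinearMap.add_apply, Module.End.mul_apply, Module.End.mul_apply,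
    hp, hq, map_zero, map_zero, add_zero] at h1
  exact h1.symm

variable [FiniteDimensional k R]

/-- the torsion at the generic point has exponent one -/
theorem good_expo (L : Lib k) (d : Fam R) (t : K) (f : k[X]) (hf : aeval t f ≠ 0)
    (h : ∀ (u : EE d (MF d (one k t)).X) (g : K[X]), g ≠ 0 → polE d (MF d (one k t)) g u = 0 →
      ∃ (c : K) (n : ℕ), aeval (EX d (MF d (one k t)).X) (f ^ n)
        (u - Emap d ((MF d (one k t)).act c) (eK d t)) = 0)
    (u : EE d (MF d (one k t)).X) (hu : Trs (piE d (MF d (one k t)) t) u) :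
    (piE d (MF d (one k t)) t ^ 1) u = 0 := by
  obtain ⟨m, hm⟩ := hu
  obtain ⟨c, n, hc⟩ := h u ((X - C t) ^ m) (pow_ne_zero _ (X_sub_C_ne_zero t))
    (by rw [(L.bock R).piE_pol]; exact hm)
  have h0 : (piE d (MF d (one k t)) t ^ 1) (Emap d ((MF d (one k t)).act c) (eK d t)) = 0 := by
    rw [← (L.bock R).emap_piE K d t _ _ _ (HomF.act _ c), pow_one, (L.bock R).ek_zero, map_zero]
  have hcop : IsCoprime ((f ^ n).map (algebraMap k K)) ((X - C t) ^ (m + 1)) := by
    rw [Polynomial.map_pow]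
    refine IsCoprime.pow ((irreducible_X_sub_C t).coprime_iff_not_dvd.2 ?_).symm
    rw [dvd_iff_isRoot, IsRoot.def, eval_map_algebraMap]
    exact hf
  have hw := good_cop d (MF d (one k t)) hcop _ (by rw [(L.bock R).polE_k]; exact hc) (by
    rw [(L.bock R).piE_pol, map_sub, pow_succ', Module.End.mul_apply, hm, map_zero, ← pow_succ',
      pow_add, Module.End.mul_apply, h0, map_zero, sub_zero])
  rw [sub_eq_zero.1 hw, h0]

/-- a natural map that does not kill `e` -/
theorem good_th (L : Lib k) (d : Fam R) (t : K) (ht : Gen k t) (he : eK (k := k) d t ≠ 0)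
    (hx : ∀ u : EE d (MF d (one k t)).X, Trs (piE d (MF d (one k t)) t) u →
      (piE d (MF d (one k t)) t ^ 1) u = 0) :
    ∃ th : NT (MN (k := k) d) (YN d), hat d (one k t).V (th.app (one k t).V) (eK d t) ≠ 0 := by
  obtain ⟨b, hb, h⟩ := L.co R K d (MF d (one k t)) ((L.fd R).m K d _ ((L.fd R).one K t).1) t 1 hx
    (eK d t) ⟨1, by rw [pow_one, (L.bock R).ek_zero]⟩
  have h0 : hat d (J k t 1).V b (eK d t) ≠ 0 := by
    intro e
    have := (h 0).1 (by rw [e]; exact mul_zero _)
    exact he this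
  obtain ⟨g, g', hg, _, _, e, _, _⟩ := (L.id R).one_J K t
  have h1 : g.1 (hat d (J k t 1).V b (eK d t)) ≠ 0 := by
    intro e'
    have := LinearMap.congr_fun (congrArg Subtype.val e) (hat d (J k t 1).V b (eK d t))
    change g'.1 (g.1 _) = _ at this
    rw [e', map_zero] at this
    exact h0 this.symm
  obtain ⟨p, th, hp, e2⟩ := L.af1 R (MN d) (YN d) ((L.af R).m d) ((L.af R).y d) K t ht
    ((YN d).map g ∘ₗ b) (HomF.comp ((YN d).map_mem g hg) hb)
  refine ⟨th, ?_⟩
  rw [e2]
  erw [(L.bock R).hat_map, (L.bock R).hat_map]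
  change aeval (LinearMap.mulLeft k t) p _ ≠ 0
  rw [good_aeval]
  exact mul_ne_zero (fun e => ht.1 ⟨p, hp, e⟩) h1

/-- maps through injectives kill `e` -/
theorem good_kill (L : Lib k) (d : Fam R) (y : F) (hy : Transcendental k y) (B : FO k R F)
    (j : (MF d (one k y)).X →ₗ[R] B.X) (hj : j ∈ I0 (MF d (one k y)) B) :
    Emap d j (eK d y) = 0 := by
  obtain ⟨g, _, rfl⟩ := hj
  obtain ⟨f, hf, h⟩ := L.notor R d (T0 k R) (L.fd R).t0k
  have hinj := h F (IA.onF (MF d (one k y))) ((L.cc R).ia _) y fun e => hy ⟨f, hf, e⟩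
  have h1 := (L.bock R).emap_piE F d y _ _ _ ((L.id R).iI_mem F (MF d (one k y))) 1 (eK d y)
  rw [pow_one, pow_one, (L.bock R).ek_zero, map_zero] at h1
  have h2 : Emap d (iI (MF d (one k y)).X) (eK d y) = 0 :=
    (injective_iff_map_eq_zero _).1 hinj _ h1.symm
  rw [Emap_comp, LinearMap.comp_apply, h2, map_zero]

/-- an endomorphism that does not kill `e` is bijective -/
theorem good_bij (L : Lib k) (H : PG k R) (y : F) (hy : Transcendental k y)
    (u : (MF H.d (one k y)).X →ₗ[R] (MF H.d (one k y)).X)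
    (hu : u ∈ HomF (MF H.d (one k y)) (MF H.d (one k y))) (h : Emap H.d u (eK H.d y) ≠ 0) :
    Bijective u := by
  have al : Allowed true H.D.f (one k y).V :=
    (L.pg R).alOne F _ y fun e => hy ⟨_, H.D.hf, e⟩
  have al' : Allowed (H.D.K H.v) H.D.f (one k y).V := by rw [H.hK]; exact al
  obtain ⟨g, hg, hj⟩ := (L.pg R).decF H F _ _ al al u hu
  have e : g = (one k y).sc (g.1 (1 : F)) := Subtype.ext (LinearMap.ext fun z => by
    have := hg z (1 : F)
    change g.1 (z * 1) = z * g.1 (1 : F) at this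
    change g.1 z = g.1 (1 : F) * z
    rw [mul_one] at this
    rw [this, mul_comm])
  have hc : g.1 (1 : F) ≠ 0 := by
    intro e0
    have e1 : g = 0 := by
      rw [e, e0]
      exact Subtype.ext (map_zero (one k y).act)
    rw [e1, map_zero, sub_zero] at hj
    have := H.D.bock al' al' H.hK u hj
    refine h (((L.bock R).eq H.d _ _ u (1 : F)).symm.trans ?_)
    exact LinearMap.congr_fun this _
  have hb : Bijective ((MN H.d).map g) := by
    rw [e]
    exact good_act_bij (MF H.d (one k y)) hc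
  have := (L.pg R).unit H.D H.v _ _ al' al' _ _ hj hb
  rwa [add_sub_cancel] at this

/-- the inverse over a large field -/
theorem good_inv (L : Lib k) (H : PG k R) (y : F) (hy : Transcendental k y)
    (hθ : Theta (MF H.d (one k y))) (th : (MF H.d (one k y)).X →ₗ[R] (YF H.d (one k y)).X)
    (hth : th ∈ HomF (MF H.d (one k y)) (YF H.d (one k y))) (h : Emap H.d th (eK H.d y) ≠ 0) :
    ∃ th' ∈ HomF (YF H.d (one k y)) (MF H.d (one k y)), th' ∘ₗ th = LinearMap.id ∧
      th ∘ₗ th' - LinearMap.id ∈ I0 (YF H.d (one k y)) (YF H.d (one k y)) := by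
  obtain ⟨z, hz⟩ := L.zeta R H.d
  obtain ⟨g, hg, z1, _⟩ := hz F (one k y)
  have hz' := z.mem (one k y)
  set z' := z.app (one k y).V
  obtain ⟨θ, hθ, θ', hθ', _, t2⟩ := hθ
  have hid := L.id R
  have hab : (g ∘ₗ θ) ∘ₗ (θ' ∘ₗ z') - LinearMap.id ∈ I0 (YF H.d (one k y)) (YF H.d (one k y)) := by
    have e : (g ∘ₗ θ) ∘ₗ (θ' ∘ₗ z') - LinearMap.id =
        g ∘ₗ ((θ ∘ₗ θ' - LinearMap.id) ∘ₗ z') + (g ∘ₗ z' - LinearMap.id) :=
      LinearMap.ext fun w => by
        change g (θ (θ' (z' w))) - w = g (θ (θ' (z' w)) - z' w) + (g (z' w) - w)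
        rw [map_sub]; abel
    rw [e]
    exact add_mem (hid.i0_l F _ _ _ _ (hid.i0_r F _ _ _ _ t2 _ hz') _ hg) z1
  have hb : θ' ∘ₗ z' ∈ HomF (YF H.d (one k y)) (MF H.d (one k y)) := HomF.comp hθ' hz'
  set a := g ∘ₗ θ
  set b := θ' ∘ₗ z'
  have hu : b ∘ₗ th ∈ HomF (MF H.d (one k y)) (MF H.d (one k y)) := HomF.comp hb hth
  have hj := hid.i0_r F _ _ _ _ hab _ hth
  have h1 := good_kill L H.d y hy _ _ hj
  have h2 : Emap H.d (b ∘ₗ th) (eK H.d y) ≠ 0 := by
    intro e
    have e' : (a ∘ₗ b - LinearMap.id) ∘ₗ th = a ∘ₗ (b ∘ₗ th) - th := rfl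
    rw [e', map_sub, LinearMap.sub_apply, Emap_comp, LinearMap.comp_apply, e, map_zero, zero_sub,
      neg_eq_zero] at h1
    exact h h1
  obtain ⟨w, hw, w1, w2⟩ := hid.iso_inv F _ _ _ hu (good_bij L H y hy _ hu h2)
  refine ⟨w ∘ₗ b, HomF.comp hw hb, w1, ?_⟩
  have e : th ∘ₗ (w ∘ₗ b) - LinearMap.id = (a ∘ₗ b - LinearMap.id) -
      ((a ∘ₗ b - LinearMap.id) ∘ₗ th) ∘ₗ (w ∘ₗ b) := LinearMap.ext fun s => by
    have : b (th (w (b s))) = b s := LinearMap.congr_fun w2 (b s)
    change th (w (b s)) - s = (a (b s) - s) - (a (b (th (w (b s)))) - th (w (b s)))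
    rw [this]; abel
  rw [e]
  exact sub_mem hab (hid.i0_r F _ _ _ _ hj _ (HomF.comp hw hb))

end

theorem t_GOOD (k : Type u) [Field k] [IsAlgClosed k] (R : Type u) [Ring R] [Algebra k R]
    [FiniteDimensional k R]
    (L : Lib k)
    (hHOM : S_HOM k R)
    (hC1 : S_C1 k R) :
    S_GOOD k R := by
  intro hnd H
  obtain ⟨he, htors⟩ := hC1 H
  refine ⟨he, ⟨H.D.f, H.D.hf, htors⟩, ?_⟩
  have hgen := L.aut.gen
  set t : RatFunc k := RatFunc.X
  obtain ⟨th, hth⟩ := good_th L H.d t hgen he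
    (good_expo L H.d t H.D.f (fun e => hgen.1 ⟨_, H.D.hf, e⟩) htors)
  obtain ⟨F, _, _, hF, hbig⟩ := L.aut.big
  obtain ⟨y, hy⟩ := hbig ∅
  have hy := L.aut.tr F _ y hy
  obtain ⟨ι, hι⟩ := L.aut.emb _ t hgen F y hy
  obtain ⟨la, hla, hla1⟩ := good_retr ι
  let io : XH (one k t).V (one k y).V := ⟨ι.toLinearMap, LinearMap.ext fun z => by
    change ι (t * z) = y * ι z
    rw [map_mul, hι]⟩
  let la' : XH (one k y).V (one k t).V := ⟨la, LinearMap.ext fun z => by
    change la (y * z) = t * la z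
    rw [← hι, hla]⟩
  have hli : XH.comp la' io = XH.id _ := Subtype.ext (LinearMap.ext fun z => by
    change la (ι z) = z
    rw [← mul_one (ι z), hla, hla1, mul_one])
  have hθ : Theta (MF H.d (one k y)) :=
    (L.id R).theta_iso F _ _ ((L.id R).iso_one_J F (MN H.d) y) (hHOM hnd F H y 0 hy)
  have he' : eK H.d y = Emap H.d ((MN H.d).map io) (eK H.d t) := by
    have h1 := (L.bock R).map H.d _ _ _ LinearMap.id io (1 : RatFunc k)
    rw [(L.bock R).eq] at h1
    have h2 : io.1 (1 : RatFunc k) = (1 : F) := map_one ι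
    rw [h2] at h1
    exact h1.symm
  have hne : Emap H.d (th.app (one k y).V) (eK H.d y) ≠ 0 := by
    intro e
    have h1 := (L.bock R).hat_comp H.d (one k y).V _ _ LinearMap.id (th.app (one k y).V) (eK H.d y)
    have h2 := (L.bock R).hat_comp H.d (one k y).V _ _ (th.app (one k y).V) ((MN H.d).map io)
      (eK H.d t)
    have h3 := (L.bock R).hat_map H.d _ _ _ (th.app (one k t).V) io (eK H.d t)
    rw [e, map_zero, LinearMap.id_comp, he', ← h2, ← th.nat io] at h1
    exact hth (ι.toRingHom.injective ((h3.symm.trans h1).trans (map_zero _).symm))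
  obtain ⟨th', hth', e1, e2⟩ := good_inv L H y hy hθ _ (th.mem (one k y)) hne
  have hM : (MN H.d).map la' ∘ₗ (MN H.d).map io = LinearMap.id := by
    rw [← NF.map_comp, hli, NF.map_id]
  have hY : (YN H.d).map la' ∘ₗ (YN H.d).map io = LinearMap.id := by
    rw [← NF.map_comp, hli, NF.map_id]
  have m1 := good_io (YN H.d) ι io fun _ => rfl
  have m2 := good_la (MN H.d) ι la' hla
  have m3 := good_la (YN H.d) ι la' hla
  refine ⟨th.app (one k t).V, th.mem (one k t), (MN H.d).map la' ∘ₗ th' ∘ₗ (YN H.d).map io,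
    HomF.comp m2 (HomF.comp (good_res_mem ι hth') m1), ?_, ?_⟩
  · have e : ((MN H.d).map la' ∘ₗ th' ∘ₗ (YN H.d).map io) ∘ₗ th.app (one k t).V -
        LinearMap.id = 0 := LinearMap.ext fun s => by
      have a1 := LinearMap.congr_fun (th.nat io) s
      have a2 := LinearMap.congr_fun e1 ((MN H.d).map io s)
      have a3 := LinearMap.congr_fun hM s
      simp only [LinearMap.comp_apply, LinearMap.id_apply] at a1 a2 a3
      change (MN H.d).map la' (th' ((YN H.d).map io (th.app (one k t).V s))) - s = 0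
      rw [a1, a2, a3, sub_self]
    rw [e]
    exact (L.cst R).zero _ _ _
  · refine (L.cst R).i0 _ _ _ ((L.fd R).y _ H.d _ ((L.fd R).one _ t).1) _ ?_
    have e : th.app (one k t).V ∘ₗ ((MN H.d).map la' ∘ₗ th' ∘ₗ (YN H.d).map io) - LinearMap.id =
        (YN H.d).map la' ∘ₗ ((th.app (one k y).V ∘ₗ th' - LinearMap.id) ∘ₗ (YN H.d).map io) :=
      LinearMap.ext fun s => by
        have a1 := LinearMap.congr_fun (th.nat la') (th' ((YN H.d).map io s))
        have a3 := LinearMap.congr_fun hY s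
        simp only [LinearMap.comp_apply, LinearMap.id_apply] at a1 a3
        change th.app (one k t).V ((MN H.d).map la' (th' ((YN H.d).map io s))) - s =
          (YN H.d).map la' (th.app (one k y).V (th' ((YN H.d).map io s)) - (YN H.d).map io s)
        rw [map_sub, a1, a3]
    rw [e]
    exact (L.id R).i0_l _ _ _ _ _ ((L.id R).i0_r _ _ _ _ _ (good_res_i0 ι e2) _ m1) _ m3

end Pool.Agent.P.MP_cf639b_al
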