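import Pool.Agent.P.MP_cf639b_al.Iface

set_option linter.dupNamespace false

namespace Pool.Agent.P.MP_cf639b_al

universe u v
open TensorProduct Polynomial Function

section
variable {k : Type u} [Field k] {R : Type u} [Ring R] [Algebra k R]
  {F : Type u} [Field F] [Algebra k F]

theorem hom_unit (y : F) (n : ℕ) (w : JT y (n + 1)) (h : Jmk y (n + 1) ((X - C y) ^ n) * w ≠ 0) :
    ∃ p : F[X], Jmk y (n + 1) p * w = 1 := by
  obtain ⟨p, rfl⟩ := Ideal.Quotient.mk_surjective w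
  have hd : ¬ (X - C y) ∣ p := by
    rintro ⟨c, rfl⟩
    refine h ?_
    change Jmk y (n + 1) _ * Jmk y (n + 1) _ = 0
    rw [← map_mul, ← mul_assoc, ← pow_succ]
    exact Ideal.Quotient.eq_zero_iff_mem.mpr (Ideal.mem_span_singleton.mpr (dvd_mul_right _ _))
  obtain ⟨a, b, hab⟩ := ((irreducible_X_sub_C y).coprime_iff_not_dvd.mpr hd).pow_left (m := n + 1)
  refine ⟨b, ?_⟩
  have e : Jmk y (n + 1) (a * (X - C y) ^ (n + 1)) = 0 :=
    Ideal.Quotient.eq_zero_iff_mem.mpr (Ideal.mem_span_singleton.mpr (dvd_mul_left _ _))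
  have := congrArg (Jmk y (n + 1)) hab
  rw [map_add, e, zero_add, map_mul, map_one] at this
  exact this

theorem hom_aeval {y : F} (hy : Transcendental k y) {f : k[X]} (hf : f ≠ 0) : aeval y f ≠ 0 :=
  fun h => hy ⟨f, hf, h⟩

theorem hom_inl (A B : FO k R F) : LinearMap.inl R A.X B.X ∈ HomF A (A.prod B) := fun a t => by
  change ((a • t, 0) : A.X × B.X) = (a • t, a • 0)
  rw [smul_zero]
theorem hom_inr (A B : FO k R F) : LinearMap.inr R A.X B.X ∈ HomF B (A.prod B) := fun a t => by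
  change ((0, a • t) : A.X × B.X) = (a • 0, a • t)
  rw [smul_zero]
theorem hom_fst (A B : FO k R F) : LinearMap.fst R A.X B.X ∈ HomF (A.prod B) A := fun _ _ => rfl
theorem hom_snd (A B : FO k R F) : LinearMap.snd R A.X B.X ∈ HomF (A.prod B) B := fun _ _ => rfl

theorem hom_fd_of {A B Z : FO k R F} (hA : A.fd) (hB : B.fd) {m : A.X →ₗ[R] Z.X}
    {i : B.X →ₗ[R] Z.X} (hm : m ∈ HomF A Z) (hi : i ∈ HomF B Z)
    (hs : ∀ z, ∃ x y, z = m x + i y) : Z.fd :=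
  Module.Finite.of_surjective (LinearMap.coprod (HomF.lin hm) (HomF.lin hi)) fun z => by
    obtain ⟨x, y, rfl⟩ := hs z
    exact ⟨(x, y), rfl⟩

theorem hom_prod_fd {A B : FO k R F} (hA : A.fd) (hB : B.fd) : (A.prod B).fd :=
  hom_fd_of hA hB (hom_inl A B) (hom_inr A B) fun z => ⟨z.1, z.2, by simp⟩

theorem hom_sum {ι : Type} [Fintype ι] {T : ι → Md k R} {Z B : Md k R} (s : ∀ i, T i →ₗ[R] Z)
    (r : ∀ i, Z →ₗ[R] T i) (e : ∑ i, s i ∘ₗ r i = LinearMap.id) (p : Z →ₗ[R] B) (q : B →ₗ[R] Z)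
    (h : p ∘ₗ q = LinearMap.id) : ∑ i, (p ∘ₗ s i) ∘ₗ (r i ∘ₗ q) = LinearMap.id := by
  refine LinearMap.ext fun x => ?_
  have a1 := congrArg p (LinearMap.congr_fun e (q x))
  rw [LinearMap.sum_apply, map_sum] at a1
  rw [LinearMap.sum_apply]
  exact a1.trans (LinearMap.congr_fun h x)

theorem hom_polE_mul (d : Fam R) (A : FO k R F) (p q : F[X]) (u : EE d A.X) :
    polE d A (p * q) u = polE d A p (polE d A q u) := by
  rw [polE, map_mul]
  rfl

variable [FiniteDimensional k R]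

theorem hom_kill (L : Lib k) (d : Fam R) {A B : FO k R F} {y : F} (hy : Transcendental k y)
    {f : A.X →ₗ[R] B.X} (hf : f ∈ I0 A B) {t : EE d A.X} (ht : Trs (piE d A y) t) :
    Emap d f t = 0 := by
  obtain ⟨g, -, rfl⟩ := hf
  obtain ⟨n, hn⟩ := ht
  obtain ⟨q, hq, hi⟩ := L.notor R d (T0 k R) (L.fd R).t0k
  have h1 := hi F (IA.onF A) ((L.cc R).ia A.X) y (hom_aeval hy hq)
  have h2 := (L.bock R).emap_piE F d y A (IA.onF A) _ ((L.id R).iI_mem F A) n t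
  rw [hn, map_zero] at h2
  have h3 : Injective (piE d (IA.onF A) y ^ n) := by
    rw [Module.End.coe_pow]
    exact h1.iterate n
  have h4 : Emap d (iI A.X) t = 0 := h3 (h2.symm.trans (map_zero _).symm)
  rw [Emap_comp, LinearMap.comp_apply, h4, map_zero]

theorem hom_theta (L : Lib k) {A : FO k R F} (hL : Loc A) (hI : LinearMap.id ∉ I0 A A)
    {a : A.X →ₗ[R] Tp.obj A.X} {b : Tp.obj A.X →ₗ[R] A.X} (ha : a ∈ HomF A (Tp.onF A))
    (hb : b ∈ HomF (Tp.onF A) A) (e : b ∘ₗ a = LinearMap.id) : Theta A := by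
  have hab : a ∘ₗ b ∈ HomF (Tp.onF A) (Tp.onF A) := HomF.comp ha hb
  have e2 : (a ∘ₗ b) ∘ₗ (a ∘ₗ b) = a ∘ₗ b := by
    rw [LinearMap.comp_assoc, ← LinearMap.comp_assoc b a b, e, LinearMap.id_comp]
  obtain ⟨φ, hφ, h0⟩ := (L.st R).full_p F A A _ hab
  refine ⟨a, ha, b, hb, by rw [e, sub_self]; exact zero_mem _, ?_⟩
  rcases hL.2 φ hφ with ⟨m, hm⟩ | hbij
  · exfalso
    have hp : ∀ j : ℕ, (φ ^ j : Module.End R A.X) ∈ HomF A A := fun j => by
      induction j with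
      | zero => exact HomF.id A
      | succ j ih => rw [pow_succ]; exact HomF.comp ih hφ
    have key : ∀ j : ℕ, a ∘ₗ b - Tp.map (φ ^ (j + 1) : Module.End R A.X) ∈
        I0 (Tp.onF A) (Tp.onF A) := fun j => by
      induction j with
      | zero => rw [zero_add, pow_one]; exact h0
      | succ j ih =>
        have h1 := (L.id R).i0_l F _ _ _ _ ih _ hab
        have h2 := (L.id R).i0_r F _ _ _ _ h0 _ (Tp.map_mem (hp (j + 1)))
        have h3 := add_mem h1 h2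
        rw [LinearMap.comp_sub, LinearMap.sub_comp, e2, ← Tp.map_comp, sub_add_sub_cancel] at h3
        rw [pow_succ']
        exact h3
    have h4 := key m
    rw [pow_succ, hm, zero_mul, map_zero, sub_zero] at h4
    have h5 := (L.id R).i0_l F _ _ _ _ ((L.id R).i0_r F _ _ _ _ h4 _ ha) _ hb
    rw [LinearMap.comp_assoc, e, LinearMap.comp_id, e] at h5
    exact hI h5
  · obtain ⟨ψ, hψ, e3, -⟩ := (L.id R).iso_inv F A A φ hφ hbij
    have hε : a ∘ₗ b - LinearMap.id ∈ HomF (Tp.onF A) (Tp.onF A) := sub_mem hab (HomF.id _)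
    have h1 := (L.id R).i0_l F _ _ _ _ ((L.id R).i0_r F _ _ _ _ (neg_mem h0) _ hε) _
      (Tp.map_mem hψ)
    have e4 : (a ∘ₗ b) ∘ₗ (a ∘ₗ b - LinearMap.id) = 0 := by
      rw [LinearMap.comp_sub, e2, LinearMap.comp_id, sub_self]
    rw [neg_sub, LinearMap.sub_comp, e4, sub_zero, ← LinearMap.comp_assoc, ← Tp.map_comp, e3,
      Tp.map_id, LinearMap.id_comp] at h1
    exact h1

theorem hom_gam (B : S_BOCK k R) (d : Fam R) (V W : FXV k F) (β : M d W.V →ₗ[R] Y d V.V)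
    (hβ : β ∈ HomF (MF d W) (YF d V)) : ∃ γ : XH W.V V.V, XLin W V γ ∧
      ∀ t, γ.1 t = hat d V.V β (Bock d W.V LinearMap.id t) := by
  refine ⟨⟨hat d _ β ∘ₗ Bock d _ LinearMap.id, LinearMap.ext fun t => ?_⟩, fun a t => ?_,
    fun t => rfl⟩
  · simp only [LinearMap.comp_apply]
    rw [B.x, B.hat_x]
  · have e1 := B.map d _ _ _ LinearMap.id (W.sc a) t
    rw [B.eq] at e1
    have e2 := (B.hat_lin F d V (MF d W) β).mp hβ a (Bock d _ LinearMap.id t)
    exact (congrArg (hat d _ β) e1.symm).trans e2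

omit [FiniteDimensional k R] in
theorem hom_mul_bij (G : NF k R) (q p : F[X]) (θ : XH (Jq k q).V (Jq k q).V) (w : QT q)
    (h : ∀ t : QT q, θ.1 t = t * w) (hp : Qmk q p * w = 1) : Bijective (G.map θ) := by
  have e3 : XH.comp (jmul k q p) θ = XH.id (Jq k q).V :=
    Subtype.ext (LinearMap.ext fun t : QT q => by
      refine Eq.trans (congrArg (fun s : QT q => Qmk q p * s) (h t)) ?_
      change Qmk q p * (t * w) = t
      rw [mul_left_comm, hp, mul_one])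
  have e4 : XH.comp θ (jmul k q p) = XH.id (Jq k q).V :=
    Subtype.ext (LinearMap.ext fun t : QT q => by
      refine Eq.trans (h (Qmk q p * t)) ?_
      change Qmk q p * t * w = t
      rw [mul_right_comm, hp, one_mul])
  have a1 := congrArg G.map e3
  have a2 := congrArg G.map e4
  rw [NF.map_comp, NF.map_id] at a1 a2
  exact ⟨LeftInverse.injective (LinearMap.congr_fun a1),
    RightInverse.surjective (LinearMap.congr_fun a2)⟩

theorem hom_split1 (B : S_BOCK k R) (d : Fam R) (q : F[X]) (A : FO k R F)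
    (a : M d (Jq k q).V →ₗ[R] A.X) (ha : a ∈ HomF (MF d (Jq k q)) A)
    (β : A.X →ₗ[R] Y d (Jq k q).V) (hβ : β ∈ HomF A (YF d (Jq k q))) (t : QT q) :
    hat d (Jq k q).V β (Bock d (Jq k q).V a t) =
      t * (hat d (Jq k q).V β (Bock d (Jq k q).V a (1 : QT q)) : QT q) := by
  obtain ⟨h, rfl⟩ := Ideal.Quotient.mk_surjective t
  have a1 := B.jq F d q h A a ha
  have a2 := B.hat_jq F d q h A β hβ (Bock d (Jq k q).V a (1 : QT q))
  rw [← a1] at a2
  exact a2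

theorem hom_split (B : S_BOCK k R) (d : Fam R) (q p : F[X]) (W : FXV k F)
    (g : XH (Jq k q).V W.V) (hg : XLin (Jq k q) W g) (β : M d W.V →ₗ[R] Y d (Jq k q).V)
    (hβ : β ∈ HomF (MF d W) (YF d (Jq k q)))
    (hp : Qmk q p * (hat d (Jq k q).V β (Bock d (Jq k q).V ((MN d).map g) (1 : QT q)) : QT q) = 1) :
    ∃ b ∈ HomF (MF d W) (MF d (Jq k q)), Bijective (b ∘ₗ (MN d).map g) := by
  obtain ⟨γ, hγ, e⟩ := hom_gam B d (Jq k q) W β hβ
  have hMg := (MN d).map_mem (V := Jq k q) (V' := W) g hg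
  have e1 : ∀ t : QT q, (XH.comp γ g).1 t =
      hat d (Jq k q).V β (Bock d (Jq k q).V ((MN d).map g) t) := fun t => by
    have a1 := B.map d (Jq k q).V W.V (M d W.V) LinearMap.id g t
    rw [LinearMap.id_comp] at a1
    rw [a1]
    exact e (g.1 t)
  have hb := hom_mul_bij (MN d) q p (XH.comp γ g) _
    (fun t => (e1 t).trans (hom_split1 B d q (MF d W) _ hMg β hβ t)) hp
  rw [NF.map_comp] at hb
  exact ⟨_, (MN d).map_mem (V := W) (V' := Jq k q) γ hγ, hb⟩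

theorem hom_block (L : Lib k) (D : RD k R) (v0 w : D.ι) (hK : D.K v0 = true) (ν : F) (n : ℕ)
    (hν : Transcendental k ν) (W : FXV k F)
    (hW : (D.K w = false ∧ W.V.x = 0) ∨
      (D.K w = true ∧ ∃ (y : F) (m : ℕ), Transcendental k y ∧ W = J k y (m + 1)))
    (c : M (D.d v0) (J k ν (n + 1)).V →ₗ[R] M (D.d w) W.V)
    (hc : c ∈ HomF (MF (D.d v0) (J k ν (n + 1))) (MF (D.d w) W))
    (β : M (D.d w) W.V →ₗ[R] Y (D.d v0) (J k ν (n + 1)).V)
    (hβ : β ∈ HomF (MF (D.d w) W) (YF (D.d v0) (J k ν (n + 1))))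
    (h : Jmk ν (n + 1) ((X - C ν) ^ n) * (hat (D.d v0) (J k ν (n + 1)).V β
      (Emap (D.d v0) c (eJ (D.d v0) ν (n + 1))) : JT ν (n + 1)) ≠ 0) : Bijective c := by
  have B := L.bock R
  have al0 := (L.pg R).alJ F D.f ν (n + 1) (hom_aeval hν D.hf)
  have al : Allowed (D.K v0) D.f (J k ν (n + 1)).V := by
    rw [hK]
    exact al0
  have alW : Allowed (D.K w) D.f W.V := by
    rcases hW with ⟨h1, h2⟩ | ⟨h1, y, m, hy, rfl⟩
    · rw [h1]
      exact h2
    · rw [h1]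
      exact (L.pg R).alJ F D.f y _ (hom_aeval hy D.hf)
  have hj : ∀ j ∈ D.J v0 _ w W.V, Emap (D.d v0) j (eJ (D.d v0) ν (n + 1)) = 0 := fun j hj => by
    have := LinearMap.congr_fun (D.bock al alW hK j hj) (1 : JT ν (n + 1))
    rw [B.eq] at this
    exact this
  by_cases hw : v0 = w
  swap
  · refine absurd ?_ h
    rw [hj c (by rw [D.ne al alW hw]; trivial), map_zero, mul_zero]
  subst hw
  have hL : Loc (MF (D.d v0) W) := by
    rcases hW with ⟨h1, -⟩ | ⟨-, y, m, hy, rfl⟩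
    · rw [hK] at h1
      exact absurd h1 (by simp)
    · exact (L.pg R).locJ ⟨D, v0, hK⟩ F y m (hom_aeval hy D.hf)
  have alW0 : Allowed true D.f W.V := by
    rw [← hK]
    exact alW
  obtain ⟨g, hg, hgj⟩ := (L.pg R).decF ⟨D, v0, hK⟩ F (J k ν (n + 1)) W al0 alW0 c hc
  have e1 : Emap (D.d v0) c (eJ (D.d v0) ν (n + 1)) =
      Bock (D.d v0) _ ((MN (D.d v0)).map g) (1 : JT ν (n + 1)) := by
    have := hj _ hgj
    rw [map_sub, LinearMap.sub_apply, sub_eq_zero] at this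
    rw [B.eq]
    exact this
  rw [e1] at h
  obtain ⟨p, hp⟩ := hom_unit ν n _ h
  obtain ⟨b, hb1, hb⟩ := hom_split B (D.d v0) _ p W g hg β hβ hp
  have hb2 := ((L.ks R).split_bij F _ _ ((L.pg R).locJ ⟨D, v0, hK⟩ F ν n (hom_aeval hν D.hf)).1
    hL _ ((MN (D.d v0)).map_mem (V := J k ν (n + 1)) (V' := W) g hg) _ hb1 hb).1
  have := (L.pg R).unit D v0 _ _ al alW _ _ hgj hb2
  rwa [add_sub_cancel] at this

theorem hom_core (L : Lib k) (D : RD k R) (v0 : D.ι) (hK : D.K v0 = true) (ν : F) (n : ℕ)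
    (hν : Transcendental k ν) (ι : Type) [Fintype ι] (v : ι → D.ι) (V : ι → FXV k F)
    (hV : ∀ i, (D.K (v i) = false ∧ (V i).V.x = 0) ∨
      (D.K (v i) = true ∧ ∃ (y : F) (m : ℕ), Transcendental k y ∧ V i = J k y (m + 1)))
    (s : ∀ i, M (D.d (v i)) (V i).V →ₗ[R] Tp.obj (M (D.d v0) (J k ν (n + 1)).V))
    (r : ∀ i, Tp.obj (M (D.d v0) (J k ν (n + 1)).V) →ₗ[R] M (D.d (v i)) (V i).V)
    (hs : ∀ i, s i ∈ HomF (MF (D.d (v i)) (V i)) (Tp.onF (MF (D.d v0) (J k ν (n + 1)))))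
    (hr : ∀ i, r i ∈ HomF (Tp.onF (MF (D.d v0) (J k ν (n + 1)))) (MF (D.d (v i)) (V i)))
    (e : ∑ i, s i ∘ₗ r i = LinearMap.id) : Theta (MF (D.d v0) (J k ν (n + 1))) := by
  have B := L.bock R
  let H : PG k R := ⟨D, v0, hK⟩
  have hf := hom_aeval hν D.hf
  have hT : (MF (D.d v0) (J k ν (n + 1))).fd :=
    (L.fd R).m F _ _ ((L.fd R).jq F _ (Jmonic ν (n + 1))).1
  have ho := (L.pg R).ordJ H F ν n hf
  have hz := B.ej_zero F (D.d v0) ν (n + 1)
  have ht : Trs (piE (D.d v0) (MF (D.d v0) (J k ν (n + 1))) ν) (eJ (D.d v0) ν (n + 1)) := ⟨_, hz⟩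
  obtain ⟨b, hb, hb1⟩ := L.co R F (D.d v0) _ hT ν (n + 1) (fun t h => by
    obtain ⟨w, rfl⟩ := (L.pg R).torsJ H F ν (n + 1) hf t h
    obtain ⟨q, rfl⟩ := Ideal.Quotient.mk_surjective w
    have a1 := B.jq F (D.d v0) ((X - C ν) ^ (n + 1)) (((X - C ν) ^ (n + 1)) * q) _ _ (HomF.id _)
    have a2 := B.jq F (D.d v0) ((X - C ν) ^ (n + 1)) q _ _ (HomF.id _)
    have a3 : Qmk ((X - C ν) ^ (n + 1)) (((X - C ν) ^ (n + 1)) * q) = 0 :=
      Ideal.Quotient.eq_zero_iff_mem.mpr (Ideal.mem_span_singleton.mpr (dvd_mul_right _ _))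
    rw [a3, map_zero, hom_polE_mul] at a1
    rw [← B.piE_pol]
    exact (congrArg _ a2).trans a1.symm) _ ht
  have hu := fun h => ho ((hb1 n).mp h)
  obtain ⟨z, hz'⟩ := L.zeta R (D.d v0)
  obtain ⟨z', hz1, hz2, -⟩ := hz' F (J k ν (n + 1))
  have hzm : z.app (J k ν (n + 1)).V ∈
      HomF (YF (D.d v0) (J k ν (n + 1))) (Tp.onF (MF (D.d v0) (J k ν (n + 1)))) :=
    mem_HomF'.mpr (mem_HomF'.mp (z.mem (J k ν (n + 1))))
  have ha := HomF.comp hzm hb
  have k1 := hom_kill L (D.d v0) hν ((L.id R).i0_r F _ _ _ _ hz2 b hb) ht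
  have k2 : hat (D.d v0) _ b (eJ (D.d v0) ν (n + 1)) = ∑ i, hat (D.d v0) _ (z' ∘ₗ s i)
      (Emap (D.d v0) (r i ∘ₗ z.app _ ∘ₗ b) (eJ (D.d v0) ν (n + 1))) := by
    have a1 : ∑ i, (z' ∘ₗ s i) ∘ₗ (r i ∘ₗ z.app _ ∘ₗ b) = (z' ∘ₗ z.app _) ∘ₗ b := by
      refine LinearMap.ext fun x => ?_
      have := LinearMap.congr_fun e (z.app _ (b x))
      rw [LinearMap.sum_apply] at this
      rw [LinearMap.sum_apply]
      exact (map_sum z' _ _).symm.trans (congrArg z' this)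
    rw [LinearMap.sub_comp, map_sub, LinearMap.sub_apply, sub_eq_zero, ← a1, map_sum,
      LinearMap.sum_apply] at k1
    have a2 := congrArg (hat (D.d v0) _ LinearMap.id) k1
    rw [map_sum, ← B.hat_comp] at a2
    refine a2.symm.trans (Finset.sum_congr rfl fun i _ => ?_)
    rw [← B.hat_comp, ← B.hat_comp]
    rfl
  rw [k2, Finset.mul_sum] at hu
  obtain ⟨i, -, hi⟩ := Finset.exists_ne_zero_of_sum_ne_zero hu
  have hc := HomF.comp (hr i) ha
  have hbij := hom_block L D v0 (v i) hK ν n hν (V i) (hV i) _ hc _ (HomF.comp hz1 (hs i)) hi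
  obtain ⟨c', hc', e1, -⟩ := (L.id R).iso_inv F _ _ _ hc hbij
  refine hom_theta L ((L.pg R).locJ H F ν n hf) (fun hI => ho ?_) ha (HomF.comp hc' (hr i)) e1
  have := hom_kill L (D.d v0) hν hI ht
  rw [Emap_id] at this
  exact (congrArg _ this).trans (map_zero _)
end

theorem t_HOM (k : Type u) [Field k] [IsAlgClosed k] (R : Type u) [Ring R] [Algebra k R]
    [FiniteDimensional k R]
    (L : Lib k)
    (hCL : S_CL k R) :
    S_HOM k R := by
  intro hND F _ _ _ H y e hy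
  have hL := (L.pg R).locJ H F y e (hom_aeval hy H.D.hf)
  have hN : (MF H.d (J k y (e + 1))).fd :=
    (L.fd R).m F _ _ ((L.fd R).jq F _ (Jmonic y (e + 1))).1
  have hTN : (Tp.onF (MF H.d (J k y (e + 1)))).fd := (L.fd R).te F true _ hN
  obtain ⟨D, ι, _, v, V, hD, hV⟩ := hCL hND F _ (hom_prod_fd hN hTN)
  obtain ⟨i0, hi0⟩ := (L.ks R).exch F _ _ ι _ hL hD
    ⟨_, hom_inl _ _, _, hom_fst _ _, LinearMap.fst_comp_inl _ _ _⟩
  rcases hV i0 with ⟨-, h0⟩ | ⟨hK, ν, n, hν, hV0⟩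
  · obtain ⟨i, -, p, -, hp⟩ := hi0
    exact absurd ((L.cc R).smd _ _ _ i p hp ((L.cc R).zx _ _ h0))
      ((L.pg R).nc H F y e hy _ ((L.fd R).mfd _ _ (inferInstanceAs (Module.Finite k k))).1)
  rw [hV0] at hi0
  have hiso := (L.ks R).smd_iso F _ _ hL.1
    ((L.pg R).locJ ⟨D, v i0, hK⟩ F ν n (hom_aeval hν D.hf)) hi0
  refine (L.id R).theta_iso F _ _ ((L.id R).iso_symm F _ _ hiso) ?_
  obtain ⟨al, hal, hb⟩ := hiso
  obtain ⟨al', hal', -, e2⟩ := (L.id R).iso_inv F _ _ al hal hb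
  obtain ⟨s, r, hs, hr, -, -, e3⟩ := hD
  refine hom_core L D (v i0) hK ν n hν ι v V hV
    (fun i => Tp.map al ∘ₗ LinearMap.snd R _ _ ∘ₗ s i)
    (fun i => r i ∘ₗ LinearMap.inr R _ _ ∘ₗ Tp.map al')
    (fun i => HomF.comp (Tp.map_mem hal) (HomF.comp (hom_snd _ _) (hs i)))
    (fun i => HomF.comp (hr i) (HomF.comp (hom_inr _ _) (Tp.map_mem hal'))) ?_
  refine hom_sum s r e3 (Tp.map al ∘ₗ LinearMap.snd R _ _) (LinearMap.inr R _ _ ∘ₗ Tp.map al') ?_
  have a3 := Tp.map_comp al al'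
  rw [e2, Tp.map_id] at a3
  exact a3.symm

end Pool.Agent.P.MP_cf639b_al
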