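import Pool.Agent.P.MP_cf639b_al.Iface

set_option linter.dupNamespace false

namespace Pool.Agent.P.MP_cf639b_al

universe u v
open TensorProduct Polynomial Function

section
open CategoryTheory
variable {k : Type u} [Field k] {R : Type u} [Ring R] [Algebra k R] {U : Md k R}

variable (k) in
/-- a finitely generated module with its structure over the field -/
noncomputable def kg_md (T : FGModuleCat.{u} R) : Md k R :=
  letI : Module k T := Module.compHom T (algebraMap k R)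
  haveI : IsScalarTower k R T := ⟨fun c r t => by
    rw [Algebra.smul_def, mul_smul]
    rfl⟩
  ⟨T⟩

/-- the value of a pair -/
abbrev kg_q (φ ψ : PP U) (T : Md k R) : Type u := φ.ev T ⧸ (ψ.ev T).submoduleOf (φ.ev T)

/-- the class of a solution -/
def kg_mk (φ ψ : PP U) {T : Md k R} (t : U →ₗ[R] T) (h : t ∈ φ.ev T) : kg_q φ ψ T :=
  Submodule.Quotient.mk ⟨t, h⟩

theorem kg_surj {φ ψ : PP U} {T : Md k R} (z : kg_q φ ψ T) : ∃ t h, z = kg_mk φ ψ t h := by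
  obtain ⟨⟨t, h⟩, rfl⟩ := Submodule.Quotient.mk_surjective _ z
  exact ⟨t, h, rfl⟩

theorem kg_zero {φ ψ : PP U} {T : Md k R} {t : U →ₗ[R] T} {h : t ∈ φ.ev T} :
    kg_mk φ ψ t h = 0 ↔ t ∈ ψ.ev T := Submodule.Quotient.mk_eq_zero _

/-- the induced maps -/
def kg_map {φ ψ φ' ψ' : PP U} (h1 : φ.le φ') (h2 : ψ.le ψ') {T T' : Md k R} (g : T →ₗ[R] T') :
    kg_q φ ψ T →ₗ[k] kg_q φ' ψ' T' :=
  Submodule.mapQ _ _
    { toFun := fun t => ⟨g ∘ₗ t.1, h1 _ (PP.comp_mem g t.2)⟩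
      map_add' := fun _ _ => Subtype.ext (LinearMap.comp_add _ _ _)
      map_smul' := fun _ _ => Subtype.ext (LinearMap.ext fun _ => g.map_smul_of_tower _ _) }
    fun _ ht => h2 _ (PP.comp_mem g ht)

theorem kg_refl (φ : PP U) : φ.le φ := fun _ => le_rfl

/-- the functor of a pair -/
noncomputable def kg_F (φ ψ : PP U) : Fn R where
  obj T := AddCommGrpCat.of (kg_q φ ψ (kg_md k T))
  map {T T'} g := AddCommGrpCat.ofHom
    (kg_map (kg_refl φ) (kg_refl ψ) (T := kg_md k T) (T' := kg_md k T') g.hom.hom).toAddMonoidHom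
  map_id T := AddCommGrpCat.hom_ext (AddMonoidHom.ext fun z => by
    obtain ⟨t, h, rfl⟩ := kg_surj z
    rfl)
  map_comp f g := AddCommGrpCat.hom_ext (AddMonoidHom.ext fun z => by
    obtain ⟨t, h, rfl⟩ := kg_surj z
    rfl)

/-- the natural map between the functors of two pairs -/
noncomputable def kg_nat {φ ψ φ' ψ' : PP U} (h1 : φ.le φ') (h2 : ψ.le ψ') :
    kg_F φ ψ ⟶ kg_F φ' ψ' where
  app T := AddCommGrpCat.ofHom (kg_map h1 h2 (T := kg_md k T) LinearMap.id).toAddMonoidHom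
  naturality _ _ g := AddCommGrpCat.hom_ext (AddMonoidHom.ext fun z => by
    obtain ⟨t, h, rfl⟩ := kg_surj z
    rfl)

theorem kg_inj {φ ψ φ' : PP U} (h1 : φ.le φ') (T : FGModuleCat.{u} R) :
    Injective ((kg_nat h1 (kg_refl ψ)).app T) :=
  (injective_iff_map_eq_zero (kg_map h1 (kg_refl ψ) (T := kg_md k T) LinearMap.id)).2 fun z hz => by
    obtain ⟨t, h, rfl⟩ := kg_surj z
    exact kg_zero.2 ((kg_zero (φ := φ') (h := h1 _ h)).1 hz)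

theorem kg_onto {φ ψ ψ' : PP U} (h2 : ψ.le ψ') (T : FGModuleCat.{u} R) :
    Surjective ((kg_nat (kg_refl φ) h2).app T) := fun z => by
  obtain ⟨t, h, rfl⟩ := kg_surj z
  exact ⟨kg_mk φ ψ t h, rfl⟩

theorem kg_exact {φ χ ψ : PP U} (h1 : χ.le φ) (h2 : ψ.le χ) (T : FGModuleCat.{u} R) :
    Function.Exact ((kg_nat h1 (kg_refl ψ)).app T) ((kg_nat (kg_refl φ) h2).app T) := fun z => by
  obtain ⟨t, h, rfl⟩ := kg_surj z
  refine ⟨fun b => ⟨kg_mk χ ψ t ((kg_zero (φ := φ) (h := h)).1 b), rfl⟩, ?_⟩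
  rintro ⟨y, hy⟩
  obtain ⟨s, hs, rfl⟩ := kg_surj y
  rw [← hy]
  exact (kg_zero (φ := φ) (h := h1 _ hs)).2 hs

theorem kg_fin (φ : PP U) : Module.Finite R φ.Z :=
  haveI := φ.fd
  Module.Finite.of_restrictScalars_finite k R φ.Z

theorem kg_fp [FiniteDimensional k R] (hPP : S_PP k R) (φ ψ : PP U) : FP (kg_F φ ψ) := by
  obtain ⟨χ, hχ⟩ := hPP.pull U φ.Z φ.fd φ.u ψ
  have := kg_fin φ
  have := kg_fin χ
  refine ⟨⟨fun {T T' f g} => AddCommGrpCat.hom_ext (AddMonoidHom.ext fun z => ?_)⟩,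
    FGModuleCat.of R φ.Z, FGModuleCat.of R χ.Z, FGModuleCat.ofHom χ.u,
    kg_mk φ ψ (T := kg_md k (FGModuleCat.of R φ.Z)) φ.u ⟨LinearMap.id, rfl⟩,
    fun T => ⟨fun z => ?_, fun g => ?_⟩⟩
  · obtain ⟨t, h, rfl⟩ := kg_surj z
    rfl
  · obtain ⟨t, ⟨g, rfl⟩, rfl⟩ := kg_surj z
    exact ⟨FGModuleCat.ofHom (W := T) g, rfl⟩
  · refine (kg_zero (φ := φ) (T := kg_md k T) (t := g.hom.hom ∘ₗ φ.u) (h := ⟨_, rfl⟩)).trans
      ((hχ (kg_md k T) g.hom.hom).symm.trans ⟨?_, ?_⟩)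
    · rintro ⟨h, e⟩
      exact ⟨FGModuleCat.ofHom (W := T) h, FGModuleCat.hom_ext e⟩
    · rintro ⟨h, rfl⟩
      exact ⟨h.hom.hom, rfl⟩

theorem kg_ne {φ ψ : PP U} (h : ¬ φ.le ψ) : ¬ ∀ T, Subsingleton ((kg_F φ ψ).obj T) := fun b => by
  have := kg_fin φ
  have e := (b (FGModuleCat.of R φ.Z)).elim
    (kg_mk φ ψ (T := kg_md k (FGModuleCat.of R φ.Z)) φ.u ⟨LinearMap.id, rfl⟩) 0
  exact h (PP.le_iff.2 (kg_zero.1 e))

theorem kg_chain {S : Set (Pr k R)} (hS : ∀ π ∈ S, ¬ π.φ.le π.ψ ∧ ∃ χ : PP π.U,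
    π.ψ.le χ ∧ χ.le π.φ ∧ (⟨π.U, π.fd, π.φ, χ⟩ : Pr k R) ∈ S ∧ (⟨π.U, π.fd, χ, π.ψ⟩ : Pr k R) ∈ S)
    (fd : U.fd) (m : ℕ) : ∀ φ ψ : PP U, (⟨U, fd, φ, ψ⟩ : Pr k R) ∈ S → ∃ χ : ℕ → PP U,
      χ 0 = ψ ∧ (∀ l, (χ l).le (χ (l + 1))) ∧ (χ m).le φ ∧
        ∀ l < m, (⟨U, fd, χ (l + 1), χ l⟩ : Pr k R) ∈ S := by
  induction m with
  | zero =>
    intro φ ψ h
    obtain ⟨-, χ, h1, h2, -⟩ := hS _ h
    exact ⟨fun _ => ψ, rfl, fun _ => kg_refl ψ, fun T => (h1 T).trans (h2 T), by simp⟩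
  | succ m ih =>
    intro φ ψ h
    obtain ⟨-, χ, h1, -, h3, h4⟩ := hS _ h
    obtain ⟨c, rfl, c1, c2, c3⟩ := ih φ χ h3
    refine ⟨fun l => Nat.casesOn l ψ c, rfl, fun l => ?_, c2, fun l hl => ?_⟩
    · cases l with
      | zero => exact h1
      | succ l => exact c1 l
    · cases l with
      | zero => exact h4
      | succ l => exact c3 l (by omega)

theorem kg_step [FiniteDimensional k R] (hPP : S_PP k R) {S : Set (Pr k R)}
    (hS : ∀ π ∈ S, ¬ π.φ.le π.ψ ∧ ∃ χ : PP π.U, π.ψ.le χ ∧ χ.le π.φ ∧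
      (⟨π.U, π.fd, π.φ, χ⟩ : Pr k R) ∈ S ∧ (⟨π.U, π.fd, χ, π.ψ⟩ : Pr k R) ∈ S)
    {Z : Fn R → Prop} (hZ : ∀ π ∈ S, ¬ Z (kg_F π.φ π.ψ)) : ∀ π ∈ S, ¬ Step Z (kg_F π.φ π.ψ) := by
  rintro π hπ ⟨-, n, hn⟩
  obtain ⟨χ, c0, c1, c2, c3⟩ := kg_chain hS π.fd (n + 1) π.φ π.ψ hπ
  have c4 : ∀ l, π.ψ.le (χ l) := fun l => by
    induction l with
    | zero => exact c0 ▸ kg_refl _
    | succ l ih => exact fun T => (ih T).trans (c1 l T)
  have := hn (n + 1) (fun l => kg_F (χ l) π.ψ) (fun l => kg_F (χ (l + 1)) (χ l))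
    (fun l => kg_nat (c1 l) (kg_refl _)) (fun l => kg_nat (kg_refl _) (c4 l))
    (kg_nat c2 (kg_refl _)) (fun _ _ => kg_fp hPP _ _) (fun _ _ => kg_fp hPP _ _)
    (fun l _ T => ⟨kg_inj _ T, kg_exact _ _ T, kg_onto _ T⟩) (kg_inj _)
  rw [@Finset.filter_true_of_mem _ _ (_) _ fun l hl => hZ _ (c3 l (Finset.mem_range.1 hl)),
    Finset.card_range] at this
  omega

end

theorem t_KG (k : Type u) [Field k] [IsAlgClosed k] (R : Type u) [Ring R] [Algebra k R]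
    [FiniteDimensional k R]
    (hPP : ∀ (S : Type u) [Ring S] [Algebra k S] [FiniteDimensional k S], S_PP k S) :
    S_KG.{u, v} k R := by
  rintro h ⟨S, ⟨π, hπ⟩, hS⟩
  have key : ∀ a : Ordinal.{v}, ∀ π ∈ S, ¬ KGC R a (kg_F π.φ π.ψ) := fun a => by
    induction a using Ordinal.limitRecOn with
    | zero =>
      rw [KGC, Ordinal.limitRecOn_zero]
      exact kg_step (hPP R) hS fun π hπ => kg_ne (hS π hπ).1
    | add_one a ih =>
      rw [KGC, Ordinal.limitRecOn_add_one]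
      exact kg_step (hPP R) hS ih
    | limit a ha ih =>
      rw [KGC, Ordinal.limitRecOn_limit _ _ _ _ ha]
      rintro π hπ ⟨b, hb, e⟩
      exact ih b hb π hπ e
  exact h fun a => ⟨_, kg_fp (hPP R) π.φ π.ψ, key a π hπ⟩

end Pool.Agent.P.MP_cf639b_al
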