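import Pool.Agent.P.MP_cf639b_al.Iface

set_option linter.dupNamespace false

namespace Pool.Agent.P.MP_cf639b_al

universe u v
open TensorProduct Polynomial Function

section
variable {k : Type u} [Field k] {R : Type u} [Ring R] [Algebra k R]

theorem kill_mono {N U : Md k R} (χ : ℕ → PP U) (m : ℕ)
    (h : ∀ i < m, (χ i).ev N ≤ (χ (i + 1)).ev N) (i : ℕ) (hi : i ≤ m) :
    (χ i).ev N ≤ (χ m).ev N := by
  induction m, hi using Nat.le_induction with
  | base => exact le_rfl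
  | succ m _ ih => exact (ih fun j hj => h j (by omega)).trans (h m (by omega))

open Classical in
theorem kill_sub {N U : Md k R} (χ : ℕ → PP U) (m : ℕ)
    (h : ∀ i < m, (χ i).ev N ≤ (χ (i + 1)).ev N) : ∃ χ' : ℕ → PP U,
    (∀ i < ((Finset.range m).filter fun i => (χ i).ev N ≠ (χ (i + 1)).ev N).card,
      (χ' i).ev N < (χ' (i + 1)).ev N) ∧ χ' 0 = χ 0 ∧
    (χ' ((Finset.range m).filter fun i => (χ i).ev N ≠ (χ (i + 1)).ev N).card).ev N =
      (χ m).ev N := by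
  induction m with
  | zero => exact ⟨χ, by simp, rfl, by simp⟩
  | succ m ih =>
    obtain ⟨χ', h1, h2, h3⟩ := ih fun j hj => h j (by omega)
    rw [Finset.range_add_one, Finset.filter_insert]
    split_ifs with hm
    · rw [Finset.card_insert_of_notMem (by simp)]
      generalize ((Finset.range m).filter fun i => (χ i).ev N ≠ (χ (i + 1)).ev N).card = c at *
      refine ⟨update χ' (c + 1) (χ (m + 1)), fun i hi => ?_, by simp [h2], by simp⟩
      rw [update_of_ne (by omega)]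
      rcases (Nat.lt_succ_iff.1 hi).eq_or_lt with rfl | hi
      · rw [update_self, h3]
        exact lt_of_le_of_ne (h m (by omega)) hm
      · rw [update_of_ne (by omega)]
        exact h1 i hi
    · exact ⟨χ', h1, h2, h3.trans (not_not.1 hm)⟩

open Classical in
theorem kill_count {N U : Md k R} {W' W : Submodule k (U →ₗ[R] N)} {n : ℕ}
    (hn : PLen N U W' W n) (χ : ℕ → PP U) (m : ℕ)
    (h : ∀ i < m, (χ i).ev N ≤ (χ (i + 1)).ev N) (h0 : W' ≤ (χ 0).ev N) (h1 : (χ m).ev N ≤ W) :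
    ((Finset.range m).filter fun i => (χ i).ev N ≠ (χ (i + 1)).ev N).card ≤ n := by
  obtain ⟨χ', a, b, c⟩ := kill_sub χ m h
  exact hn _ χ' a (b ▸ h0) (c ▸ h1)

/-- the solution set has no finite pp-length -/
def KillBig (N : Md k R) (θ : PP (reg k R)) : Prop := ¬ ∃ n, PLen N (reg k R) ⊥ (θ.ev N) n

theorem kill_ne {N : Md k R} {θ : PP (reg k R)} (h : KillBig N θ) : θ.u 1 ≠ 0 := fun h0 => by
  refine h ⟨0, fun m χ h1 _ h2 => by_contra fun hm => ?_⟩
  have h3 : θ.u = 0 := LinearMap.ext_ring h0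
  have h4 : θ.ev N ≤ ⊥ := by
    rintro _ ⟨g, rfl⟩
    rw [h3, LinearMap.comp_zero]
    exact zero_mem _
  exact not_lt_bot ((h1 0 (by omega)).trans_le
    ((kill_mono χ m (fun i hi => (h1 i hi).le) 1 (by omega)).trans (h2.trans h4)))

theorem kill_lim (Z : ℕ → Md k R) (hZ : ∀ n, (Z n).fd) (j : ∀ n, Z n →ₗ[R] Z (n + 1)) :
    ∃ (N : Md k R) (o : ∀ n, Z n →ₗ[R] N), (∀ n, o (n + 1) ∘ₗ j n = o n) ∧
      (∀ z, o 0 z = 0 → ∃ n, chain Z j n z = 0) ∧
      ∀ X : Md k R, X.fd → ∀ g : X →ₗ[R] N, ∃ (n : ℕ) (G : X →ₗ[R] Z n), g = o n ∘ₗ G := by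
  classical
  let f : ∀ a b, a ≤ b → Z a →ₗ[R] Z b := fun a b h =>
    Nat.leRec (motive := fun b _ => Z a →ₗ[R] Z b) LinearMap.id (fun m _ ih => j m ∘ₗ ih) h
  have f0 : ∀ a, f a a le_rfl = LinearMap.id := fun a => Nat.leRec_self _ _
  have f1 : ∀ a b (h : a ≤ b), f a (b + 1) (h.trans b.le_succ) = j b ∘ₗ f a b h := fun a b h =>
    Nat.leRec_succ _ _ h
  have : DirectedSystem (fun n => (Z n).T) (f · · ·) := by
    refine ⟨fun a x => by rw [f0]; rfl, fun c b a hab hbc x => ?_⟩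
    induction c, hbc using Nat.le_induction with
    | base => rw [f0]; rfl
    | succ c hbc ih => rw [f1 b c hbc, f1 a c (hab.trans hbc)]; exact congrArg (j c) ih
  let : Module k (Module.DirectLimit (fun n => (Z n).T) f) := Module.compHom _ (algebraMap k R)
  have : IsScalarTower k R (Module.DirectLimit (fun n => (Z n).T) f) :=
    ⟨fun c r x => by rw [Algebra.smul_def, mul_smul]; rfl⟩
  let N : Md k R := ⟨Module.DirectLimit (fun n => (Z n).T) f⟩
  let o : ∀ n, Z n →ₗ[R] N := fun n => Module.DirectLimit.of R ℕ (fun n => (Z n).T) f n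
  have of : ∀ a b (h : a ≤ b) x, o b (f a b h x) = o a x := fun a b h x => Module.DirectLimit.of_f
  have ex : ∀ a x, o a x = 0 → ∃ b, ∃ h : a ≤ b, f a b h x = 0 := fun a x h =>
    Module.DirectLimit.of.zero_exact h
  refine ⟨N, o, fun n => LinearMap.ext fun x => ?_, fun z hz => ?_, fun X hX g => ?_⟩
  · have := of n (n + 1) n.le_succ x
    rwa [f1 n n le_rfl, f0] at this
  · obtain ⟨b, h, hb⟩ := ex 0 z hz
    have : ∀ b, f 0 b b.zero_le = chain Z j b := fun b => by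
      induction b with
      | zero => exact f0 0
      | succ b ih => rw [f1 0 b b.zero_le, ih]; rfl
    exact ⟨b, this b ▸ hb⟩
  · let b := Module.finBasis k X
    choose s y hy using fun i => Module.DirectLimit.exists_of (f := f) (g (b i))
    obtain ⟨n, hn⟩ := Finite.exists_le s
    let g0 : X →ₗ[k] Z n := b.constr k fun i => f _ _ (hn i) (y i)
    have h0 : ∀ x, o n (g0 x) = g x := fun x => LinearMap.congr_fun
      (b.ext (f₁ := (o n).restrictScalars k ∘ₗ g0) (f₂ := g.restrictScalars k) fun i => by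
        simp only [g0, LinearMap.comp_apply, Module.Basis.constr_basis,
          LinearMap.restrictScalars_apply, of]
        exact hy i) x
    have := hZ n
    obtain ⟨t, ht⟩ := IsNoetherian.noetherian (LinearMap.ker ((o n).restrictScalars k))
    choose s' h1 h2 using fun x : t => ex n x (ht.le (Submodule.subset_span x.2))
    obtain ⟨m, hm⟩ := Finite.exists_le (fun x : Option t => x.elim n s')
    have h3 : LinearMap.ker ((o n).restrictScalars k) ≤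
        LinearMap.ker ((f n m (hm none)).restrictScalars k) := by
      rw [← ht, Submodule.span_le]
      intro x hx
      have := DirectedSystem.map_map (f := (f · · ·)) (h1 ⟨x, hx⟩) (hm (some ⟨x, hx⟩)) x
      change f n m _ x = 0
      rw [← this, h2 ⟨x, hx⟩, map_zero]
    refine ⟨m, ⟨⟨fun x => f n m (hm none) (g0 x), fun x x' => by rw [map_add, map_add]⟩,
      fun r x => ?_⟩, LinearMap.ext fun x => ((of n m _ _).trans (h0 x)).symm⟩
    have := h3 (x := g0 (r • x) - r • g0 x) (by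
      change o n _ = 0
      rw [map_sub, map_smul (o n), h0, h0, map_smul, sub_self])
    change f n m _ _ = 0 at this
    rwa [map_sub, map_smul (f n m _), sub_eq_zero] at this

variable [FiniteDimensional k R]

theorem kill_step (P : S_PP k R) {N : Md k R} (ρ : Pr k R) {n : ℕ}
    (hn : PLen N ρ.U (ρ.φ.ev N ⊓ ρ.ψ.ev N) (ρ.φ.ev N) n) (θ : PP (reg k R)) (hθ : KillBig N θ)
    (t : ρ.U →ₗ[R] θ.Z) (ht : t ∈ ρ.φ.ev θ.Z) : ∃ (θ' : PP (reg k R)) (j : θ.Z →ₗ[R] θ'.Z),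
      KillBig N θ' ∧ θ'.u = j ∘ₗ θ.u ∧ j ∘ₗ t ∈ ρ.ψ.ev θ'.Z := by
  classical
  obtain ⟨ω, hω⟩ := P.pull _ _ θ.fd t ρ.ψ
  refine ⟨⟨ω.Z, ω.fd, ω.u ∘ₗ θ.u⟩, ω.u, ?_, rfl, (hω _ _).1 ⟨LinearMap.id, rfl⟩⟩
  rintro ⟨n', hn'⟩
  refine hθ ⟨n' + n, fun m χ h1 _ h2 => ?_⟩
  choose α hα using fun i => P.inf _ (χ i) ⟨ω.Z, ω.fd, ω.u ∘ₗ θ.u⟩
  choose γ hγ using fun i => P.pull _ _ θ.fd θ.u (χ i)
  choose δ hδ using fun i => P.push _ _ t (γ i)
  obtain ⟨ε, hε⟩ := P.inf _ ρ.φ ρ.ψ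
  choose β hβ using fun i => P.sup _ (δ i) ε
  have c1 := kill_count hn' α m (fun i hi => by
    rw [hα, hα]; exact inf_le_inf_right _ (h1 i hi).le) bot_le (by rw [hα]; exact inf_le_right)
  have c2 := kill_count hn β m (fun i hi => by
      rw [hβ, hβ]
      refine sup_le_sup_right (fun x hx => ?_) _
      obtain ⟨g, hg, rfl⟩ := (hδ _ _ _).1 hx
      exact (hδ _ _ _).2 ⟨g, (hγ _ _ _).2 ((h1 i hi).le ((hγ _ _ _).1 hg)), rfl⟩)
    (by rw [hβ, hε]; exact le_sup_right) (by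
      rw [hβ, hε]
      refine sup_le (fun x hx => ?_) inf_le_left
      obtain ⟨g, -, rfl⟩ := (hδ _ _ _).1 hx
      exact PP.comp_mem g ht)
  refine le_trans ?_ ((Finset.card_union_le _ _).trans (add_le_add c1 c2))
  conv_lhs => rw [← Finset.card_range m]
  refine Finset.card_le_card fun i hi => by_contra fun hc => ?_
  simp only [Finset.mem_union, Finset.mem_filter, hi, true_and, not_or, not_not] at hc
  rw [Finset.mem_range] at hi
  refine (h1 i hi).not_ge fun x hx => ?_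
  obtain ⟨g, rfl⟩ := h2 (kill_mono χ m (fun i hi => (h1 i hi).le) (i + 1) hi hx)
  have a1 : g ∘ₗ t ∈ (β i).ev N := by
    rw [hc.2, hβ]
    exact Submodule.mem_sup_left ((hδ _ _ _).2 ⟨g, (hγ _ _ _).2 hx, rfl⟩)
  rw [hβ, hε] at a1
  obtain ⟨y, hy, s, hs, e⟩ := Submodule.mem_sup.1 a1
  obtain ⟨g', hg', rfl⟩ := (hδ _ _ _).1 hy
  rw [hγ] at hg'
  obtain ⟨w, hw⟩ := (hω N (g - g')).2 (by
    rw [LinearMap.sub_comp, ← e, add_sub_cancel_left]; exact hs.2)
  have a2 : (g - g') ∘ₗ θ.u ∈ (α i).ev N := by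
    rw [hc.1, hα]
    exact ⟨by rw [LinearMap.sub_comp]; exact sub_mem hx ((h1 i hi).le hg'), w, by rw [hw]; rfl⟩
  rw [hα, LinearMap.sub_comp] at a2
  simpa using add_mem a2.1 hg'

theorem kill_one (P : S_PP k R) {N : Md k R} (ρ : Pr k R) {n : ℕ}
    (hn : PLen N ρ.U (ρ.φ.ev N ⊓ ρ.ψ.ev N) (ρ.φ.ev N) n) (θ : PP (reg k R)) (hθ : KillBig N θ) :
    ∃ (θ' : PP (reg k R)) (j : θ.Z →ₗ[R] θ'.Z), KillBig N θ' ∧ θ'.u = j ∘ₗ θ.u ∧
      ∀ t ∈ ρ.φ.ev θ.Z, j ∘ₗ t ∈ ρ.ψ.ev θ'.Z := by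
  classical
  have key : ∀ s : Finset (ρ.U →ₗ[R] θ.Z), (∀ t ∈ s, t ∈ ρ.φ.ev θ.Z) →
      ∃ (θ' : PP (reg k R)) (j : θ.Z →ₗ[R] θ'.Z), KillBig N θ' ∧ θ'.u = j ∘ₗ θ.u ∧
        ∀ t ∈ s, j ∘ₗ t ∈ ρ.ψ.ev θ'.Z := fun s => by
    induction s using Finset.induction_on with
    | empty => exact fun _ => ⟨θ, LinearMap.id, hθ, rfl, by simp⟩
    | insert t s _ ih =>
      intro h
      obtain ⟨θ₁, j₁, a1, a2, a3⟩ := ih fun x hx => h x (Finset.mem_insert_of_mem hx)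
      obtain ⟨θ₂, j₂, b1, b2, b3⟩ := kill_step P ρ hn θ₁ a1 (j₁ ∘ₗ t)
        (PP.comp_mem j₁ (h t (Finset.mem_insert_self _ _)))
      refine ⟨θ₂, j₂ ∘ₗ j₁, b1, by rw [b2, a2]; rfl, fun x hx => ?_⟩
      rcases Finset.mem_insert.1 hx with rfl | hx
      exacts [b3, PP.comp_mem j₂ (a3 x hx)]
  have := ρ.fd
  have := θ.fd
  have : Module.Finite k (ρ.U →ₗ[R] θ.Z) := Module.Finite.of_injective
    (LinearMap.restrictScalarsₗ k R ρ.U θ.Z k) (LinearMap.restrictScalars_injective k)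
  obtain ⟨s, hs⟩ := IsNoetherian.noetherian (ρ.φ.ev θ.Z)
  obtain ⟨θ', j, a1, a2, a3⟩ := key s fun t ht => hs.le (Submodule.subset_span ht)
  refine ⟨θ', j, a1, a2, fun t ht => ?_⟩
  rw [← hs] at ht
  induction ht using Submodule.span_induction with
  | mem x hx => exact a3 x hx
  | zero => rw [LinearMap.comp_zero]; exact zero_mem _
  | add x y _ _ hx hy => rw [LinearMap.comp_add]; exact add_mem hx hy
  | smul c x _ hx => rw [LinearMap.comp_smul]; exact Submodule.smul_mem _ _ hx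

theorem kill_all (P : S_PP k R) {N : Md k R} {m : ℕ} (ρ : Fin m → Pr k R)
    (hn : ∀ i, ∃ n, PLen N (ρ i).U ((ρ i).φ.ev N ⊓ (ρ i).ψ.ev N) ((ρ i).φ.ev N) n)
    (θ : PP (reg k R)) (hθ : KillBig N θ) (s : Finset (Fin m)) :
    ∃ (θ' : PP (reg k R)) (j : θ.Z →ₗ[R] θ'.Z), KillBig N θ' ∧ θ'.u = j ∘ₗ θ.u ∧
      ∀ i ∈ s, ∀ t ∈ (ρ i).φ.ev θ.Z, j ∘ₗ t ∈ (ρ i).ψ.ev θ'.Z := by
  induction s using Finset.induction_on with
  | empty => exact ⟨θ, LinearMap.id, hθ, rfl, by simp⟩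
  | insert i s _ ih =>
    obtain ⟨θ₁, j₁, a1, a2, a3⟩ := ih
    obtain ⟨θ₂, j₂, b1, b2, b3⟩ := kill_one P (ρ i) (hn i).choose_spec θ₁ a1
    refine ⟨θ₂, j₂ ∘ₗ j₁, b1, by rw [b2, a2]; rfl, fun x hx t ht => ?_⟩
    rcases Finset.mem_insert.1 hx with rfl | hx
    exacts [b3 _ (PP.comp_mem j₁ ht), PP.comp_mem j₂ (a3 x hx t ht)]

end

theorem t_KILL (k : Type u) [Field k] [IsAlgClosed k] (R : Type u) [Ring R] [Algebra k R]
    [FiniteDimensional k R]
    (L : Lib k) :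
    S_KILL k R := by
  intro N hN m ρ hρ
  obtain ⟨θ₀, h0⟩ := (L.pp R).top (reg k R) inferInstance
  choose nx jj h1 h2 h3 using fun s : {θ // KillBig N θ} =>
    kill_all (L.pp R) ρ hρ s.1 s.2 Finset.univ
  let s : ℕ → {θ // KillBig N θ} := fun n =>
    Nat.rec ⟨θ₀, by rwa [KillBig, h0]⟩ (fun _ x => ⟨nx x, h1 x⟩) n
  obtain ⟨N', o, a1, a2, a3⟩ := kill_lim (fun n => (s n).1.Z) (fun n => (s n).1.fd)
    fun n => jj (s n)
  refine ⟨N', ⟨o 0 (θ₀.u 1), 0, fun h => ?_⟩, fun i hi => hi ?_⟩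
  · obtain ⟨n, hn⟩ := a2 _ h
    have : ∀ n, (s n).1.u = chain (fun n => (s n).1.Z) (fun n => jj (s n)) n ∘ₗ θ₀.u := fun n => by
      induction n with
      | zero => rfl
      | succ n ih => exact (h2 (s n)).trans (by rw [ih]; rfl)
    exact kill_ne (s n).2 (by rw [this]; exact hn)
  · rintro _ ⟨g, rfl⟩
    obtain ⟨n, G, rfl⟩ := a3 _ (ρ i).φ.fd g
    rw [← a1 n]
    exact PP.comp_mem (o (n + 1)) (h3 (s n) i (Finset.mem_univ i) _ ⟨G, rfl⟩)

end Pool.Agent.P.MP_cf639b_al
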