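import Mathlib

/-! Commutative algebra for the step `L0`. -/

set_option linter.dupNamespace false

namespace Pool.Agent.P.MP_cf639b_al

universe u
open TensorProduct Polynomial Function DirectSum

theorem l0_pid (B : Type u) [CommRing B] [IsDomain B] [IsPrincipalIdealRing B] (W : Type u)
    [AddCommGroup W] [Module B W] [Module.Finite B W] :
    ∃ (ι : Type u) (_ : Fintype ι) (I : ι → Ideal B) (a : ∀ i, W →ₗ[B] B ⧸ I i)
      (b : ∀ i, (B ⧸ I i) →ₗ[B] W),
      (∀ i, I i = ⊥ ∨ ∃ (p : B) (e : ℕ), Irreducible p ∧ I i = Ideal.span {p ^ e}) ∧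
      (∀ i x, a i (b i x) = x) ∧ ∀ w, ∑ i, b i (a i w) = w := by
  classical
  obtain ⟨n, ι, _, p, hp, e, ⟨φ⟩⟩ := Module.equiv_free_prod_directSum (R := B) (M := W)
  let q := Submodule.quotEquivOfEqBot (⊥ : Ideal B) rfl
  refine ⟨Fin n ⊕ ι, inferInstance, Sum.elim (fun _ => ⊥) fun i => Ideal.span {p i ^ e i},
    fun i => match i with
      | Sum.inl j => q.symm.toLinearMap ∘ₗ Finsupp.lapply j ∘ₗ LinearMap.fst _ _ _ ∘ₗ φ.toLinearMap
      | Sum.inr i => DirectSum.component B ι (fun i => B ⧸ B ∙ p i ^ e i) i ∘ₗ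
          LinearMap.snd _ _ _ ∘ₗ φ.toLinearMap,
    fun i => match i with
      | Sum.inl j => φ.symm.toLinearMap ∘ₗ LinearMap.inl _ _ _ ∘ₗ Finsupp.lsingle j ∘ₗ q.toLinearMap
      | Sum.inr i => φ.symm.toLinearMap ∘ₗ LinearMap.inr _ _ _ ∘ₗ
          DirectSum.lof B ι (fun i => B ⧸ B ∙ p i ^ e i) i, ?_, ?_, fun w => ?_⟩
  · rintro (j | i)
    · exact Or.inl rfl
    · exact Or.inr ⟨p i, e i, hp i, rfl⟩
  · rintro (j | i) x
    · change q.symm ((φ (φ.symm (Finsupp.single j (q x), 0))).1 j) = x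
      rw [φ.apply_symm_apply, Finsupp.single_eq_same]
      exact q.symm_apply_apply x
    · change DirectSum.component B ι (fun i => B ⧸ B ∙ p i ^ e i) i
        (φ (φ.symm (0, DirectSum.lof B ι (fun i => B ⧸ B ∙ p i ^ e i) i x))).2 = x
      rw [φ.apply_symm_apply]
      exact DirectSum.component.lof_self _ _ _
  · rw [Fintype.sum_sum_type]
    change ∑ j, φ.symm (LinearMap.inl B _ _ (Finsupp.single j (q (q.symm ((φ w).1 j))))) +
      ∑ i, φ.symm (LinearMap.inr B _ _ (DirectSum.of (fun i => B ⧸ B ∙ p i ^ e i) i ((φ w).2 i))) = w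
    simp only [LinearEquiv.apply_symm_apply]
    rw [← map_sum, ← map_sum, ← map_sum, ← map_sum, ← map_add, DirectSum.sum_univ_of,
      Finsupp.univ_sum_single]
    simp

attribute [local instance] Polynomial.algebra

theorem l0_alg (k : Type u) [Field k] [IsAlgClosed k] (N : Type u) [AddCommGroup N]
    [Module k[X][X] N] [Module.Finite k[X][X] N]
    (tors : ∀ (n : N) (a : k[X][X]), a ≠ 0 → a • n = 0 →
      ∃ h f : k[X], h ≠ 0 ∧ f ≠ 0 ∧ (h.map C * C f : k[X][X]) • n = 0) :
    ∃ (W : Type u) (_ : AddCommGroup W) (_ : Module k[X][X] W) (j : N →ₗ[k[X][X]] W)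
      (ρ : W →+ N) (g : k[X]), g ≠ 0 ∧
      (∀ f : k[X], f ≠ 0 → Bijective fun w : W => (C f : k[X][X]) • w) ∧
      (∀ (h : k[X]) (w : W), ρ ((h.map C : k[X][X]) • w) = (h.map C : k[X][X]) • ρ w) ∧
      ∀ n, ρ (j n) = (C g : k[X][X]) • n := by
  classical
  let F := FractionRing k[X]
  let S : Submonoid k[X][X] := (nonZeroDivisors k[X]).map C
  haveI : IsLocalization S F[X] := Polynomial.isLocalization _ F
  let W := F[X] ⊗[k[X][X]] N
  let j : N →ₗ[k[X][X]] W := TensorProduct.mk _ _ _ 1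
  haveI : IsLocalizedModule S j := IsLocalization.tensorProduct_isLocalizedModule S F[X]
  have hS : ∀ s : S, ∃ g : k[X], g ≠ 0 ∧ (s : k[X][X]) = C g := by
    rintro ⟨_, g, hg, rfl⟩
    exact ⟨g, nonZeroDivisors.ne_zero hg, rfl⟩
  have hmap : ∀ h : k[X], algebraMap k[X][X] F[X] (h.map C) = h.map (algebraMap k F) := by
    intro h
    change (h.map C).map (algebraMap k[X] F) = _
    rw [Polynomial.map_map]
    rfl
  obtain ⟨ι, _, I, a, b, hI, hab, hba⟩ := l0_pid F[X] W
  -- the ideals are defined over `k`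
  have h1 : ∀ i, ∃ δ : k[X], I i = Ideal.span {δ.map (algebraMap k F)} := by
    intro i
    rcases hI i with h | ⟨p, e, hp, h⟩
    · exact ⟨0, by simp [h]⟩
    rcases Nat.eq_zero_or_pos e with rfl | he
    · exact ⟨1, by simp [h]⟩
    obtain ⟨⟨n, s⟩, hn⟩ := IsLocalizedModule.surj S j (b i 1)
    obtain ⟨⟨P, s'⟩, hP⟩ := IsLocalization.surj S (p ^ e)
    have hP0 : P ≠ 0 := by
      rintro rfl
      rw [map_zero] at hP
      exact (mul_ne_zero (pow_ne_zero _ hp.ne_zero) (IsLocalization.map_units F[X] s').ne_zero) hP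
    have hpe : (p ^ e) • (1 : F[X] ⧸ I i) = 0 := by
      change Ideal.Quotient.mk _ (p ^ e * 1) = 0
      rw [Ideal.Quotient.eq_zero_iff_mem, h, mul_one]
      exact Ideal.mem_span_singleton_self _
    have h2 : j (P • n) = 0 := by
      simp only at hn hP
      rw [map_smul, ← hn, smul_comm, ← algebraMap_smul F[X] P, ← hP, mul_comm, mul_smul,
        ← map_smul, hpe, map_zero, smul_zero, smul_zero]
    obtain ⟨s2, hs2⟩ := (IsLocalizedModule.eq_zero_iff S j).mp h2
    obtain ⟨g2, hg2, e2⟩ := hS s2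
    obtain ⟨h0, f, hh0, hf, h3⟩ := tors n (s2 * P)
      (mul_ne_zero (by rw [e2]; exact C_ne_zero.mpr hg2) hP0) (by rw [mul_smul]; exact hs2)
    have h4 : h0.map (algebraMap k F) ∈ I i := by
      have h5 := congrArg (fun n => a i (j n)) h3
      simp only at hn h5
      rw [map_smul, ← hn, Submonoid.smul_def, smul_smul, ← algebraMap_smul F[X], map_smul, hab,
        map_zero, map_zero] at h5
      change Ideal.Quotient.mk _ (_ * 1) = 0 at h5
      rw [Ideal.Quotient.eq_zero_iff_mem, mul_one, map_mul, map_mul, hmap, mul_assoc] at h5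
      refine (Ideal.mul_unit_mem_iff_mem _ (IsUnit.mul ?_ (IsLocalization.map_units F[X] s))).mp h5
      exact IsLocalization.map_units F[X] (⟨C f, f, mem_nonZeroDivisors_of_ne_zero hf, rfl⟩ : S)
    rw [h, Ideal.mem_span_singleton] at h4
    have h6 : p ∣ h0.map (algebraMap k F) := (dvd_pow_self p he.ne').trans h4
    rw [(IsAlgClosed.splits h0).eq_prod_roots, Polynomial.map_mul, map_C,
      Polynomial.map_multiset_prod, Multiset.map_map] at h6
    have h7 := (hp.prime.dvd_or_dvd h6).resolve_left fun h8 => hp.not_isUnit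
      (isUnit_of_dvd_unit h8 (isUnit_C.mpr (IsUnit.mk0 _ (by simpa using hh0))))
    obtain ⟨q, hq, h9⟩ := hp.prime.exists_mem_multiset_dvd h7
    obtain ⟨c, -, rfl⟩ := Multiset.mem_map.mp hq
    refine ⟨(X - C c) ^ e, ?_⟩
    rw [h, Ideal.span_singleton_eq_span_singleton, Polynomial.map_pow]
    refine Associated.pow_pow (hp.associated_of_dvd ?_ h9)
    simpa using irreducible_X_sub_C (algebraMap k F c)
  choose δ hδ using h1
  -- integral generators
  obtain ⟨s0, hs0⟩ := IsLocalizedModule.exist_integer_multiples_of_finite S j fun i => b i 1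
  choose ν0 hν0 using hs0
  have h2 : ∀ i, ∃ s : S, s • ((δ i).map C : k[X][X]) • ν0 i = 0 := by
    intro i
    refine (IsLocalizedModule.eq_zero_iff S j).mp ?_
    have hpe : (δ i).map (algebraMap k F) • (1 : F[X] ⧸ I i) = 0 := by
      change Ideal.Quotient.mk _ (_ * 1) = 0
      rw [Ideal.Quotient.eq_zero_iff_mem, hδ, mul_one]
      exact Ideal.mem_span_singleton_self _
    rw [map_smul, hν0, smul_comm, ← algebraMap_smul F[X] ((δ i).map C), hmap, ← map_smul, hpe,
      map_zero, smul_zero]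
  choose s1 hs1 using h2
  let s : S := (∏ i, s1 i) * s0
  let ν : ι → N := fun i => (∏ i, s1 i) • ν0 i
  have hν : ∀ i, j (ν i) = (s : k[X][X]) • b i 1 := fun i => by
    simp only [ν, s, Submonoid.smul_def, map_smul, hν0, Submonoid.coe_mul, mul_smul]
  have hδν : ∀ i, ((δ i).map C : k[X][X]) • ν i = 0 := fun i => by
    simp only [ν]
    rw [← Finset.prod_erase_mul _ _ (Finset.mem_univ i), smul_comm, mul_smul, hs1, smul_zero]
  -- integral coordinates
  obtain ⟨m, ε, hε⟩ := Module.Finite.exists_fin (R := k[X][X]) (M := N)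
  choose Pε hPε using fun p : ι × Fin m => Ideal.Quotient.mk_surjective (a p.1 (j (ε p.2)))
  obtain ⟨s2, hs2⟩ := IsLocalization.exist_integer_multiples_of_finite S Pε
  have h3 : ∀ n i, ∃ P : k[X][X], a i ((s2 : k[X][X]) • j n) =
      Ideal.Quotient.mk _ (algebraMap _ F[X] P) := by
    intro n i
    have hn : n ∈ Submodule.span k[X][X] (Set.range ε) := hε ▸ Submodule.mem_top
    induction hn using Submodule.span_induction with
    | mem x hx =>
      obtain ⟨l, rfl⟩ := hx
      obtain ⟨P, hP⟩ := hs2 (i, l)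
      refine ⟨P, ?_⟩
      rw [hP, ← algebraMap_smul F[X] (s2 : k[X][X]) (j _), map_smul, ← hPε (i, l),
        Algebra.smul_def (s2 : k[X][X])]
      rfl
    | zero => exact ⟨0, by simp⟩
    | add x y _ _ hx hy =>
      obtain ⟨P, hP⟩ := hx
      obtain ⟨Q, hQ⟩ := hy
      exact ⟨P + Q, by rw [map_add, smul_add, map_add, hP, hQ, map_add, map_add]⟩
    | smul c x _ hx =>
      obtain ⟨P, hP⟩ := hx
      refine ⟨c * P, ?_⟩
      rw [j.map_smul, smul_comm, ← algebraMap_smul F[X] c, map_smul, hP, map_mul, map_mul]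
      rfl
  -- the retraction
  obtain ⟨r, hr⟩ := (IsScalarTower.toAlgHom k k[X] F).toLinearMap.exists_leftInverse_of_injective
    (LinearMap.ker_eq_bot.mpr (IsFractionRing.injective k[X] F))
  let rr : F[X] →ₗ[k] k[X][X] := Polynomial.lsum fun n => (monomial n).restrictScalars k ∘ₗ r
  have rrm : ∀ n c, rr (monomial n c) = monomial n (r c) := fun n c => by simp [rr]
  have rr1 : ∀ P : k[X][X], rr (algebraMap _ F[X] P) = P := by
    intro P
    induction P using Polynomial.induction_on' with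
    | add p q hp hq => rw [map_add, map_add, hp, hq]
    | monomial n c =>
      change rr ((monomial n c).map (algebraMap k[X] F)) = _
      rw [map_monomial, rrm]
      exact congrArg _ (LinearMap.congr_fun hr c)
  have rr2 : ∀ (h : k[X]) (P : F[X]), rr (h.map (algebraMap k F) * P) = h.map C * rr P := by
    intro h P
    induction h using Polynomial.induction_on' with
    | add p q hp hq => simp only [Polynomial.map_add, add_mul, map_add, hp, hq]
    | monomial n c =>
      induction P using Polynomial.induction_on' with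
      | add p q hp hq => simp only [mul_add, map_add, hp, hq]
      | monomial l z =>
        rw [map_monomial, map_monomial, monomial_mul_monomial, rrm, rrm, monomial_mul_monomial,
          ← Algebra.smul_def, map_smul, smul_eq_C_mul]
  let ρi : ∀ i, (F[X] ⧸ I i) →+ N := fun i => QuotientAddGroup.lift (I i).toAddSubgroup
    ((LinearMap.toSpanSingleton _ N (ν i)).toAddMonoidHom.comp rr.toAddMonoidHom) (by
      intro P hP
      have hP' : P ∈ I i := hP
      rw [hδ, Ideal.mem_span_singleton] at hP'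
      obtain ⟨Q, rfl⟩ := hP'
      change rr _ • ν i = 0
      rw [rr2, mul_comm, mul_smul, hδν, smul_zero])
  have hρi : ∀ i P, ρi i (Ideal.Quotient.mk _ P) = rr P • ν i := fun _ _ => rfl
  let ρ0 : W →+ N := ∑ i, (ρi i).comp ((a i).toAddMonoidHom.comp
    (DistribSMul.toAddMonoidHom W (s2 : k[X][X])))
  have hρ0 : ∀ w, ρ0 w = ∑ i, ρi i (a i ((s2 : k[X][X]) • w)) := fun w => by
    simp [ρ0, AddMonoidHom.finsetSum_apply]
  have h4 : ∀ n, ρ0 (j n) - ((s * s2 : S) : k[X][X]) • n ∈ LinearMap.ker j := by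
    intro n
    choose P hP using h3 n
    rw [LinearMap.mem_ker, map_sub, sub_eq_zero, hρ0, map_sum, map_smul, Submonoid.coe_mul,
      mul_smul]
    conv_rhs => rw [← hba ((s2 : k[X][X]) • j n), Finset.smul_sum]
    refine Finset.sum_congr rfl fun i _ => ?_
    rw [hP, hρi, rr1, map_smul, hν, smul_comm, ← algebraMap_smul F[X] (P i), ← map_smul]
    congr 2
    change Ideal.Quotient.mk _ (_ * 1) = _
    rw [mul_one]
  obtain ⟨s3, hs3⟩ := Module.Finite.exists_smul_of_comp_eq_of_isLocalizedModule S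
    (M := LinearMap.ker j) (N' := W) j (LinearMap.ker j).subtype 0 (by ext x; simp)
  obtain ⟨g, hg, eg⟩ := hS (s3 * (s * s2))
  refine ⟨W, inferInstance, inferInstance, j,
    (DistribSMul.toAddMonoidHom N (s3 : k[X][X])).comp ρ0, g, hg, fun f hf => ?_,
    fun h w => ?_, fun n => ?_⟩
  · exact (Module.End.isUnit_iff _).mp (IsLocalizedModule.map_units j
      (⟨C f, f, mem_nonZeroDivisors_of_ne_zero hf, rfl⟩ : S))
  · change (s3 : k[X][X]) • ρ0 _ = _ • (s3 : k[X][X]) • ρ0 _
    rw [smul_comm _ (s3 : k[X][X]), hρ0, hρ0, Finset.smul_sum (r := h.map C)]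
    congr 1
    refine Finset.sum_congr rfl fun i _ => ?_
    obtain ⟨P, hP⟩ := Ideal.Quotient.mk_surjective (a i ((s2 : k[X][X]) • w))
    rw [smul_comm, ← algebraMap_smul F[X] (h.map C), map_smul, hmap, ← hP, hρi, ← mul_smul, ← rr2]
    rfl
  · have h5 := LinearMap.congr_fun hs3 ⟨_, h4 n⟩
    change (s3 : k[X][X]) • (_ - _) = (s3 : k[X][X]) • (0 : N) at h5
    rw [smul_zero, smul_sub, sub_eq_zero, smul_smul] at h5
    rw [← eg]
    exact h5

end Pool.Agent.P.MP_cf639b_al
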