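import Pool.Agent.P.MP_cf639b_al.OZ
import Pool.Agent.P.MP_cf639b_al.T.L0a

set_option linter.dupNamespace false

namespace Pool.Agent.P.MP_cf639b_al

universe u v
open TensorProduct Polynomial Function

noncomputable section
variable {k : Type u} [Field k] {R : Type u} [Ring R] [Algebra k R]

/-- `p ↦ p(x) v` -/
def l0_hat (V : XV k) : V →ₗ[k] XH (V0 k) V where
  toFun v := ⟨LinearMap.applyₗ v ∘ₗ (aeval V.x : k[X] →ₐ[k] _).toLinearMap,
    LinearMap.ext fun p => by
      change aeval V.x (X * p) v = V.x (aeval V.x p v)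
      rw [map_mul, aeval_X]; rfl⟩
  map_add' _ _ := Subtype.ext (LinearMap.ext fun p => (aeval V.x p).map_add _ _)
  map_smul' _ _ := Subtype.ext (LinearMap.ext fun p => (aeval V.x p).map_smul _ _)
theorem l0_hat_apply (V : XV k) (v : V) (p : k[X]) : (l0_hat V v).1 p = aeval V.x p v := rfl
theorem l0_hat_one (V : XV k) (v : V) : (l0_hat V v).1 (1 : k[X]) = v := by
  rw [l0_hat_apply, map_one]; rfl
theorem l0_V0_pol (h p : k[X]) : aeval (V0 k).x h p = h * p := by
  induction h using Polynomial.induction_on' with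
  | add a b ha hb => rw [map_add, LinearMap.add_apply, ha, hb, add_mul]
  | monomial n c =>
    rw [← smul_X_eq_monomial, map_smul, map_pow, aeval_X, LinearMap.smul_apply, V0_pow,
      smul_mul_assoc]
theorem l0_hat_pol (V : XV k) (v : V) (h : k[X]) :
    XH.comp (l0_hat V v) (XH.pol _ h) = l0_hat V (aeval V.x h v) :=
  Subtype.ext (LinearMap.ext fun p => by
    change aeval V.x (aeval (V0 k).x h p) v = aeval V.x p (aeval V.x h v)
    rw [l0_V0_pol, mul_comm, map_mul]; rfl)
theorem l0_pol_comm {V V' : XV k} (g : XH V V') (h : k[X]) :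
    XH.comp g (XH.pol V h) = XH.comp (XH.pol V' h) g :=
  Subtype.ext (LinearMap.ext fun v => by
    change g.1 (aeval V.x h v) = aeval V'.x h (g.1 v)
    induction h using Polynomial.induction_on' with
    | add a b ha hb => simp only [map_add, LinearMap.add_apply, ha, hb]
    | monomial n c => simp [← smul_X_eq_monomial, XH.comm_pow])

theorem l0_M_ind {d : Fam R} {V : XV k} (P : M d V → Prop) (h0 : P 0)
    (ha : ∀ x y, P x → P y → P (x + y)) (hg : ∀ (r : R) b v, P (r • gen d V b v)) (t : M d V) :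
    P t := by
  obtain ⟨z, rfl⟩ := Submodule.mkQ_surjective (LinearMap.range (Xd d V)) t
  induction z using TensorProduct.induction_on with
  | zero => rw [map_zero]; exact h0
  | add x y hx hy => rw [map_add]; exact ha _ _ hx hy
  | tmul r v =>
    rw [← Finset.univ_sum_single v, tmul_sum, map_sum]
    refine Finset.sum_induction _ P ha h0 fun b _ => ?_
    have e : r ⊗ₜ[k] (Pi.single b (v b) : Fin d.n0 → V) =
        r • ((1 : R) ⊗ₜ[k] (Pi.single b (v b) : Fin d.n0 → V)) := by simp [smul_tmul']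
    rw [e, map_smul]
    exact hg r b (v b)

/-- the generators of `EE` -/
def l0_el (d : Fam R) (T : Md k R) (a : Fin d.n1) (l : ℕ) : T →ₗ[k] EE d T :=
  Emk d T ∘ₗ LinearMap.single k (fun _ => ℕ →₀ T) a ∘ₗ Finsupp.lsingle l
theorem l0_el_map (d : Fam R) {T T' : Md k R} (g : T →ₗ[R] T') (a : Fin d.n1) (l : ℕ) (t : T) :
    Emap d g (l0_el d T a l t) = l0_el d T' a l (g t) := by
  change Emap d g (Emk d T _) = Emk d T' _
  rw [Emap_mk]
  congr 1
  funext a'
  by_cases h : a' = a
  · subst h; simp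
  · simp [h]
theorem l0_el_succ (d : Fam R) (T : Md k R) (a : Fin d.n1) (l : ℕ) (t : T) :
    l0_el d T a (l + 1) t = EX d T (l0_el d T a l t) := by
  change Emk d T _ = EX d T (Emk d T _)
  rw [EX_mk]
  congr 1
  funext a'
  by_cases h : a' = a
  · subst h; simp
  · simp [h]
theorem l0_E_ind {d : Fam R} {V : XV k} (P : EE d (M d V) → Prop) (h0 : P 0)
    (ha : ∀ x y, P x → P y → P (x + y))
    (hg : ∀ a l (r : R) b v, P (l0_el d _ a l (r • gen d V b v))) (u : EE d (M d V)) : P u := by
  obtain ⟨z, rfl⟩ := Emk_surj d _ u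
  rw [← Finset.univ_sum_single z, map_sum]
  refine Finset.sum_induction _ P ha h0 fun a _ => ?_
  induction z a using Finsupp.induction_linear with
  | zero => simpa using h0
  | add x y hx hy => rw [Pi.single_add, map_add]; exact ha _ _ hx hy
  | single l t =>
    change P (l0_el d _ a l t)
    refine l0_M_ind (fun t => P (l0_el d _ a l t)) (by simpa using h0) (fun x y hx hy => ?_)
      (hg a l) t
    simp only [map_add]
    exact ha _ _ hx hy

variable [FiniteDimensional k R]

theorem l0_theta (hB : S_BOCK k R) (d : Fam R) (W Y' V : XV k) (j : EE d (M d (V0 k)) →ₗ[k] W)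
    (hj : ∀ n, j (EX d _ n) = W.x (j n)) (xW : XH W W)
    (hx : ∀ n, j (Emap d ((MN d).map (XH.pol (V0 k) X)) n) = xW.1 (j n))
    (m : V →ₗ[k] XH W Y') (hm : ∀ v, m (V.x v) = XH.comp (m v) xW) :
    ∃ θ : EE d (M d V) →ₗ[k] Y', (∀ (h : k[X]) u, θ (aeval (EX d _) h u) = aeval Y'.x h (θ u)) ∧
      ∀ v n, θ (Emap d ((MN d).map (l0_hat V v)) n) = (m v).1 (j n) := by
  obtain ⟨b0, hb0⟩ := hB.hat_surj d W _ j hj
  have h1 : b0 ∘ₗ (MN d).map (XH.pol (V0 k) X) = (YN d).map xW ∘ₗ b0 :=
    hB.hat_inj d W _ _ _ (LinearMap.ext fun u => by rw [hB.hat_comp, hB.hat_map, hb0, hx])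
  have h2 : ∀ (v : V) (b : Fin d.n0) (p : k[X]),
      (YN d).map (m (aeval V.x p v)) (b0 (gen d (V0 k) b (1 : k[X]))) =
        (YN d).map (m v) (b0 (gen d (V0 k) b p)) := by
    intro v b p
    induction p using Polynomial.induction_on generalizing v with
    | C c =>
      have e : (C c : k[X]) = c • (1 : k[X]) := by rw [smul_eq_C_mul, mul_one]
      rw [e, map_smul, map_one, LinearMap.smul_apply, map_smul, map_smul,
        (gen d (V0 k) b).map_smul, LinearMap.map_smul_of_tower, LinearMap.map_smul_of_tower]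
      rfl
    | add p q hp hq =>
      rw [map_add, LinearMap.add_apply, map_add, map_add, LinearMap.add_apply, hp, hq,
        (gen d (V0 k) b).map_add, map_add, map_add]
    | monomial n c ih =>
      have e : gen d (V0 k) b (C c * X ^ (n + 1) : k[X]) =
          (MN d).map (XH.pol (V0 k) X) (gen d (V0 k) b (C c * X ^ n : k[X])) := by
        rw [map_gen]
        congr 1
        rw [XH.pol_val, l0_V0_pol]; ring
      rw [e, ← LinearMap.comp_apply b0, h1, LinearMap.comp_apply,
        ← LinearMap.comp_apply ((YN d).map (m v)), ← (YN d).map_comp, ← hm, ← ih, pow_succ,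
        ← mul_assoc, map_mul, aeval_X]
      rfl
  let bV : M d V →ₗ[R] Y d Y' := Mlift d V (fun b => LinearMap.applyₗ (R := k)
      (b0 (gen d (V0 k) b (1 : k[X]))) ∘ₗ (LinearMap.restrictScalarsₗ k R _ _ k) ∘ₗ
      (YN d).map ∘ₗ m) (fun a v => by
    have h := congrArg (fun z => (YN d).map (m v) (b0 z)) (gen_rel d (V0 k) a (1 : k[X]))
    simp only [map_sum, map_smul, map_zero] at h
    refine Eq.trans (Finset.sum_congr rfl fun i _ => Finset.sum_congr rfl fun b _ => ?_) h
    rw [V0_pow, mul_one, ← h2, map_pow, aeval_X]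
    rfl)
  have h3 : ∀ v, bV ∘ₗ (MN d).map (l0_hat V v) = (YN d).map (m v) ∘ₗ b0 := fun v =>
    M_ext fun b p => by
      rw [LinearMap.comp_apply, map_gen, Mlift_gen]
      exact h2 v b p
  exact ⟨hat d Y' bV, fun h u => hB.hat_pol d Y' _ bV h u, fun v n => by
    rw [← hB.hat_comp, h3, hB.hat_map, hb0]⟩

/-- the operator `x` on `EE (M V)` -/
def l0_x (d : Fam R) (V : XV k) : Module.End k (EE d (M d V)) :=
  Emap d ((MN d).map (XH.pol V X))
theorem l0_x_pol (d : Fam R) (V : XV k) (h : k[X]) :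
    aeval (l0_x d V) h = Emap d ((MN d).map (XH.pol V h)) := by
  induction h using Polynomial.induction_on with
  | C c =>
    have e : XH.pol V (C c) = c • XH.id V := Subtype.ext (by
      simp [Algebra.algebraMap_eq_smul_one]; rfl)
    rw [e, map_smul, map_smul, (MN d).map_id, Emap_id, aeval_C, Algebra.algebraMap_eq_smul_one]
    rfl
  | add p q hp hq =>
    have e : XH.pol V (p + q) = XH.pol V p + XH.pol V q := Subtype.ext (map_add _ _ _)
    rw [map_add, hp, hq, e, map_add, map_add]
  | monomial n c ih =>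
    have e : XH.pol V (C c * X ^ (n + 1)) = XH.comp (XH.pol V (C c * X ^ n)) (XH.pol V X) :=
      Subtype.ext (by rw [pow_succ, ← mul_assoc]; exact map_mul _ _ _)
    rw [e, (MN d).map_comp, Emap_comp, ← ih, pow_succ, ← mul_assoc, map_mul, aeval_X]
    rfl

theorem l0_ker (hB : S_BOCK k R) (d : Fam R) {K : Type u} [Field K] [Algebra k K] {t : K}
    (ht : Gen k t) (n : EE d (M d (V0 k)))
    (hn : Emap d ((MN d).map (l0_hat (one k t).V (1 : K))) n = 0) :
    ∃ q : k[X], q ≠ 0 ∧ aeval (l0_x d (V0 k)) q n = 0 := by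
  letI : Algebra k[X] K := (aeval t : k[X] →ₐ[k] K).toRingHom.toAlgebra
  have hal : ∀ p : k[X], algebraMap k[X] K p = aeval t p := fun _ => rfl
  haveI : IsScalarTower k k[X] K := IsScalarTower.of_algebraMap_eq fun c => by simp [hal]
  have hinj : Injective (algebraMap k[X] K) := (injective_iff_map_eq_zero _).mpr
    fun p hp => by_contra fun h => ht.1 ⟨p, h, hp⟩
  haveI : IsFractionRing k[X] K := by
    refine ⟨⟨fun s => IsUnit.mk0 _ fun h => nonZeroDivisors.ne_zero s.2 (hinj (by simpa using h)),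
      fun z => ?_, fun {a b} h => ⟨1, by rw [hinj h]⟩⟩⟩
    obtain ⟨p, q, hq, h⟩ := ht.2 z
    exact ⟨⟨p, q, mem_nonZeroDivisors_of_ne_zero hq⟩, h⟩
  let NX := Module.AEval' (l0_x d (V0 k))
  let o := Module.AEval'.of (l0_x d (V0 k))
  let ex : NX →ₗ[k[X]] NX := xlin (o.toLinearMap ∘ₗ EX d _ ∘ₗ o.symm.toLinearMap) fun a => by
    obtain ⟨a, rfl⟩ := o.surjective a
    rw [Module.AEval'.X_smul_of]
    change o (EX d _ (l0_x d _ a)) = (X : k[X]) • o (EX d _ a)
    rw [Module.AEval'.X_smul_of]
    exact congrArg o (Emap_EX d _ _).symm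
  let W : XV k := ⟨K ⊗[k[X]] NX, (LinearMap.lTensor K ex).restrictScalars k⟩
  let mv : K →ₗ[k] XH W W :=
    { toFun := fun v => ⟨(LinearMap.rTensor NX (LinearMap.mulLeft k[X] v)).restrictScalars k,
        LinearMap.ext fun w => LinearMap.congr_fun
          ((LinearMap.rTensor_comp_lTensor _ _ _).trans (LinearMap.lTensor_comp_rTensor _ _ _).symm) w⟩
      map_add' := fun v v' => Subtype.ext (LinearMap.ext fun w => by
        induction w using TensorProduct.induction_on with
        | zero => simp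
        | add x y hx hy => simp only [map_add, hx, hy]
        | tmul a b =>
          change ((v + v') * a) ⊗ₜ[k[X]] b = (v * a) ⊗ₜ[k[X]] b + (v' * a) ⊗ₜ[k[X]] b
          rw [add_mul, add_tmul])
      map_smul' := fun c v => Subtype.ext (LinearMap.ext fun w => by
        induction w using TensorProduct.induction_on with
        | zero => simp
        | add x y hx hy => simp only [map_add, hx, hy]
        | tmul a b =>
          change ((c • v) * a) ⊗ₜ[k[X]] b = c • ((v * a) ⊗ₜ[k[X]] b)
          rw [smul_mul_assoc, smul_tmul']) }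
  obtain ⟨θ, -, hθ⟩ := l0_theta hB d W W (one k t).V
    ((TensorProduct.mk k[X] K NX 1).restrictScalars k ∘ₗ o.toLinearMap) (fun _ => rfl) (mv t)
    (fun n => by
      change (1 : K) ⊗ₜ[k[X]] o (l0_x d (V0 k) n) = (t * 1) ⊗ₜ[k[X]] o n
      rw [← Module.AEval'.X_smul_of, ← smul_tmul, Algebra.smul_def, hal, aeval_X]) mv
    (fun v => Subtype.ext (LinearMap.ext fun w => by
      induction w using TensorProduct.induction_on with
      | zero => simp
      | add x y hx hy => simp only [map_add, hx, hy]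
      | tmul a b =>
        change (t * v * a) ⊗ₜ[k[X]] b = (v * (t * a)) ⊗ₜ[k[X]] b
        congr 1; ring))
  have h1 := hθ (1 : K) n
  rw [hn, map_zero] at h1
  have h2 : TensorProduct.mk k[X] K NX 1 (o n) = 0 := by
    refine Eq.trans ?_ h1.symm
    change _ = (1 * 1 : K) ⊗ₜ[k[X]] o n
    rw [mul_one]; rfl
  obtain ⟨s, hs⟩ := (IsLocalizedModule.eq_zero_iff (nonZeroDivisors k[X]) _).mp h2
  exact ⟨s, nonZeroDivisors.ne_zero s.2, hs⟩

/-- the action of `k[x', x]` on `EE (M V)` -/
def l0_act (d : Fam R) (V : XV k) : k[X][X] →+* Module.End k (EE d (M d V)) :=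
  eval₂RingHom' (aeval (EX d (M d V)) : k[X] →ₐ[k] _).toRingHom (l0_x d V) fun a => by
    have h : Commute (EX d (M d V)) (l0_x d V) := LinearMap.ext fun u => (Emap_EX d _ u).symm
    induction a using Polynomial.induction_on' with
    | add p q hp hq => rw [map_add]; exact hp.add_left hq
    | monomial n c =>
      change Commute (aeval _ (monomial n c)) _
      rw [aeval_monomial]
      exact (Algebra.commute_algebraMap_left c _).mul_left (h.pow_left n)
theorem l0_act_C (d : Fam R) (V : XV k) (f : k[X]) :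
    l0_act d V (C f) = aeval (EX d (M d V)) f := eval₂_C _ _
theorem l0_act_X (d : Fam R) (V : XV k) : l0_act d V X = l0_x d V := eval₂_X _ _
theorem l0_act_map (d : Fam R) (V : XV k) (h : k[X]) :
    l0_act d V (h.map C) = aeval (l0_x d V) h := by
  induction h using Polynomial.induction_on' with
  | add p q hp hq => rw [Polynomial.map_add, map_add, hp, hq, map_add]
  | monomial n c =>
    rw [map_monomial, ← C_mul_X_pow_eq_monomial, map_mul, map_pow, l0_act_C, l0_act_X,
      aeval_monomial, aeval_C]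
theorem l0_ind (P : k[X][X] → Prop) (hC : ∀ f, P (C f)) (hX : P X)
    (ha : ∀ a b, P a → P b → P (a + b)) (hm : ∀ a b, P a → P b → P (a * b)) (a : k[X][X]) :
    P a := by
  induction a using Polynomial.induction_on with
  | C f => exact hC f
  | add p q hp hq => exact ha _ _ hp hq
  | monomial n c ih => rw [pow_succ, ← mul_assoc]; exact hm _ _ ih hX
theorem l0_act_nat (hB : S_BOCK k R) (d : Fam R) {V V' : XV k} (g : XH V V') (a : k[X][X]) :
    ∀ u, Emap d ((MN d).map g) (l0_act d V a u) = l0_act d V' a (Emap d ((MN d).map g) u) := by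
  induction a using l0_ind with
  | hC f => intro u; rw [l0_act_C, l0_act_C, hB.emap_pol]
  | hX =>
    intro u
    rw [l0_act_X, l0_act_X, l0_x, l0_x, ← LinearMap.comp_apply, ← Emap_comp, ← (MN d).map_comp,
      l0_pol_comm, (MN d).map_comp, Emap_comp, LinearMap.comp_apply]
  | ha a b ha hb => intro u; simp only [map_add, LinearMap.add_apply, ha, hb]
  | hm a b ha hb => intro u; simp only [map_mul, Module.End.mul_apply, ha, hb]
theorem l0_bock_map (hB : S_BOCK k R) (d : Fam R) {V V' : XV k} (g : XH V V') (v : V) :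
    Emap d ((MN d).map g) (Bock d V LinearMap.id v) = Bock d V' LinearMap.id (g.1 v) := by
  rw [← hB.comp, ← hB.map]; rfl
theorem l0_act_bock (hB : S_BOCK k R) (d : Fam R) (V : XV k) (a : k[X][X]) :
    ∀ v, ∃ v', l0_act d V a (Bock d V LinearMap.id v) = Bock d V LinearMap.id v' := by
  induction a using l0_ind with
  | hC f => intro v; exact ⟨_, by rw [l0_act_C, hB.pol]⟩
  | hX => intro v; exact ⟨_, by rw [l0_act_X, l0_x, l0_bock_map hB]⟩
  | ha a b ha hb =>
    intro v
    obtain ⟨x, hx⟩ := ha v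
    obtain ⟨y, hy⟩ := hb v
    exact ⟨x + y, by rw [map_add, LinearMap.add_apply, hx, hy, map_add]⟩
  | hm a b ha hb =>
    intro v
    obtain ⟨y, hy⟩ := hb v
    obtain ⟨x, hx⟩ := ha y
    exact ⟨x, by rw [map_mul, Module.End.mul_apply, hy, hx]⟩

/-- `EE (M k[x])` as a module over `k[x', x]` -/
def L0N (d : Fam R) (k : Type u) [Field k] [Algebra k R] : Type u := EE d (M d (V0 k))
instance (d : Fam R) : AddCommGroup (L0N d k) := inferInstanceAs (AddCommGroup (EE d (M d (V0 k))))
instance (d : Fam R) : Module k[X][X] (L0N d k) :=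
  Module.compHom (EE d (M d (V0 k))) (l0_act d (V0 k))
theorem l0_smul (d : Fam R) (a : k[X][X]) (n : L0N d k) : a • n = l0_act d (V0 k) a n := rfl
instance (d : Fam R) : Module.Finite k[X][X] (L0N d k) := by
  let ε : Fin d.n1 × Fin (Module.finrank k R) × Fin d.n0 → L0N d k := fun p =>
    l0_el d _ p.1 0 (bR k R p.2.1 • gen d (V0 k) p.2.2 (1 : k[X]))
  refine ⟨Submodule.fg_def.mpr ⟨Set.range ε, Set.finite_range _, eq_top_iff.mpr fun u _ => ?_⟩⟩
  refine l0_E_ind (fun u : L0N d k => u ∈ Submodule.span k[X][X] (Set.range ε)) (zero_mem _)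
    (fun _ _ => add_mem) (fun a l r b p => ?_) u
  induction l with
  | succ l ih =>
    have := Submodule.smul_mem _ (C X : k[X][X]) ih
    rwa [l0_smul, l0_act_C, aeval_X, ← l0_el_succ] at this
  | zero =>
    rw [← (bR k R).sum_repr r, Finset.sum_smul, map_sum]
    refine Submodule.sum_mem _ fun i _ => ?_
    have := Submodule.smul_mem _ (Polynomial.map C ((bR k R).repr r i • p : k[X]))
      (Submodule.subset_span (R := k[X][X]) (Set.mem_range_self (f := ε) (a, i, b)))
    rw [l0_smul, l0_act_map, l0_x_pol] at this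
    erw [l0_el_map] at this
    rw [map_smul, map_gen, XH.pol_val, l0_V0_pol, mul_one, (gen d (V0 k) b).map_smul,
      smul_comm, ← smul_assoc] at this
    exact this

theorem l0_polE (hB : S_BOCK k R) (d : Fam R) {K : Type u} [Field K] [Algebra k K] (t : K)
    (a : k[X][X]) : ∀ u, l0_act d (one k t).V a u =
      polE d (MF d (one k t)) (eval₂ (mapRingHom (algebraMap k K)) (C t) a) u := by
  induction a using l0_ind with
  | hC f => intro u; rw [l0_act_C, eval₂_C]; exact (hB.polE_k K d f (MF d (one k t)) u).symm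
  | hX =>
    intro u
    have e : XH.pol (one k t).V X = (one k t).sc t := Subtype.ext (aeval_X _)
    have e2 : ∀ (A : FO k R K) (u : EE d A.X), polE d A (C t) u = Emap d (A.act t) u := by
      intro A u
      rw [polE, aeval_C]
      rfl
    rw [l0_act_X, eval₂_X, e2, l0_x, e]
    rfl
  | ha a b ha hb => intro u; simp only [map_add, LinearMap.add_apply, ha, hb, eval₂_add, polE]
  | hm a b ha hb => intro u; simp only [map_mul, Module.End.mul_apply, ha, hb, eval₂_mul, polE]

theorem l0_ne {K : Type u} [Field K] [Algebra k K] {t : K} (ht : Transcendental k t)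
    {a : k[X][X]} (ha : a ≠ 0) : eval₂ (mapRingHom (algebraMap k K)) (C t) a ≠ 0 := by
  have e : eval₂ (mapRingHom (algebraMap k K)) (C t) a =
      (Polynomial.Bivariate.swap a).map (aeval t : k[X] →ₐ[k] K).toRingHom := by
    clear ha
    induction a using l0_ind with
    | hC f =>
      rw [eval₂_C, Polynomial.Bivariate.swap_C, Polynomial.map_map]
      exact congrArg (fun φ => f.map φ) (RingHom.ext fun c => by simp)
    | hX => simp [Polynomial.Bivariate.swap_Y]
    | ha a b ha hb => rw [eval₂_add, map_add, Polynomial.map_add, ha, hb]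
    | hm a b ha hb => rw [eval₂_mul, map_mul, Polynomial.map_mul, ha, hb]
  rw [e]
  refine (Polynomial.map_ne_zero_iff ?_).mpr (by simpa using ha)
  exact (injective_iff_map_eq_zero _).mpr fun p hp => by_contra fun h => ht ⟨p, h, hp⟩

theorem l0_tors (hB : S_BOCK k R) (d : Fam R) {K : Type u} [Field K] [Algebra k K] {t : K}
    (ht : Gen k t) (hck : CK (k := k) d t) (ν : L0N d k) (a a' : k[X][X]) (ha : a ≠ 0)
    (e : L0N d k) (he : e = Bock d (V0 k) LinearMap.id (1 : k[X])) (h : a • ν = a' • e) :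
    ∃ h f : k[X], h ≠ 0 ∧ f ≠ 0 ∧ ∃ a'' : k[X][X], (h.map C * C f : k[X][X]) • ν = a'' • e := by
  obtain ⟨f, hf, hT⟩ := hck.tors
  let τ := Emap d ((MN d).map (l0_hat (one k t).V (1 : K)))
  have h1 : τ e = eK d t := by rw [he, l0_bock_map hB, l0_hat_one]; rfl
  have h2 := congrArg τ h
  rw [l0_smul, l0_smul, l0_act_nat hB, l0_act_nat hB, l0_polE hB, l0_polE hB] at h2
  have h3 : polE d (MF d (one k t)) (X - C t) (eK d t) = 0 := by
    have := hB.piE_pol K d t (MF d (one k t)) 1 (eK d t)
    rw [pow_one, pow_one, hB.ek_zero] at this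
    exact this
  have hmul : ∀ (A : FO k R K) (p q : K[X]) (u : EE d A.X),
      polE d A (p * q) u = polE d A p (polE d A q u) := fun A p q u => by
    rw [polE, map_mul]; rfl
  obtain ⟨c, n, h4⟩ := hT (τ ν) ((X - C t) * _) (mul_ne_zero (X_sub_C_ne_zero t) (l0_ne ht.1 ha))
    (by
      rw [hmul]
      erw [h2, h1]
      rw [← hmul, mul_comm, hmul, h3, map_zero])
  obtain ⟨p, q, hq, hpq⟩ := ht.2 c
  have h5 : XH.comp (XH.pol (one k t).V q) ((one k t).sc c) = XH.pol (one k t).V p := by
    have e1 : ∀ (h : k[X]) (z : K), aeval (one k t).V.x h z = aeval t h * z := by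
      intro h z
      induction h using Polynomial.induction_on' with
      | add a b ha hb => rw [map_add, LinearMap.add_apply, ha, hb, map_add, add_mul]
      | monomial n c =>
        change aeval (LinearMap.mulLeft k t) _ z = _
        rw [aeval_monomial, aeval_monomial, LinearMap.pow_mulLeft, Module.End.mul_apply,
          Module.algebraMap_end_apply, Algebra.smul_def, mul_assoc]
        rfl
    refine Subtype.ext (LinearMap.ext fun z => ?_)
    change aeval (one k t).V.x q (c * z) = aeval (one k t).V.x p z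
    rw [e1, e1, ← hpq]; ring
  obtain ⟨q2, hq2, h6⟩ := l0_ker hB d ht
    ((q.map C * C (f ^ n) : k[X][X]) • ν - (p.map C * C (f ^ n) : k[X][X]) • e : L0N d k) (by
      erw [map_sub]
      rw [l0_smul, l0_smul, l0_act_nat hB, l0_act_nat hB, mul_comm (q.map C), mul_comm (p.map C),
        map_mul, map_mul, Module.End.mul_apply, Module.End.mul_apply, l0_act_C, l0_act_map,
        l0_act_map, l0_x_pol, l0_x_pol, ← h5, (MN d).map_comp, Emap_comp, LinearMap.comp_apply,
        ← map_sub, ← map_sub, ← hB.emap_pol]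
      erw [h1, h4]
      exact map_zero _)
  rw [← l0_act_map, ← l0_smul, smul_sub] at h6
  have h7 := (sub_eq_zero (G := L0N d k)).mp h6
  rw [smul_smul, smul_smul, ← mul_assoc, ← Polynomial.map_mul] at h7
  exact ⟨q2 * q, f ^ n, mul_ne_zero hq2 hq, pow_ne_zero _ hf, _, h7⟩

theorem l0_fin (hB : S_BOCK k R) (d : Fam R) (W : Type u) [AddCommGroup W] [Module k W]
    [Module k[X] W] [IsScalarTower k k[X] W] (ω : W →ₗ[k[X]] W)
    (hω : ∀ h : k[X], h ≠ 0 → Bijective (aeval (ω.restrictScalars k) h))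
    (j : EE d (M d (V0 k)) →ₗ[k] W) (hj : ∀ n, j (EX d _ n) = ω (j n))
    (hx : ∀ n, j (l0_x d (V0 k) n) = (X : k[X]) • j n) (g : k[X])
    (N : Type u) [AddCommGroup N] (π : EE d (M d (V0 k)) →+ N) (hπ : Surjective π)
    (hπ0 : ∀ n, π n = 0 → ∃ v, n = Bock d (V0 k) LinearMap.id v)
    (ρ : W →+ N)
    (hρ : ∀ (h : k[X]) w n, ρ w = π n → ρ (h • w) = π (aeval (l0_x d (V0 k)) h n))
    (hg : ∀ n, ρ (j n) = π (aeval (EX d _) g n)) (V : XV k) (u : EE d (M d V)) (h : k[X])
    (hh : h ≠ 0) (hu : aeval (EX d (M d V)) h u = 0) :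
    ∃ v : V, aeval (EX d (M d V)) g u = Bock d V LinearMap.id v := by
  let VX := Module.AEval' V.x
  let o := Module.AEval'.of V.x
  let W' : XV k := ⟨W, ω.restrictScalars k⟩
  let Y' : XV k := ⟨W ⊗[k[X]] VX, (LinearMap.rTensor VX ω).restrictScalars k⟩
  let mv : V →ₗ[k] XH W' Y' :=
    { toFun := fun v => ⟨((TensorProduct.mk k[X] W VX).flip (o v)).restrictScalars k, rfl⟩
      map_add' := fun v v' => Subtype.ext (LinearMap.ext fun w => by
        change w ⊗ₜ[k[X]] o (v + v') = w ⊗ₜ[k[X]] o v + w ⊗ₜ[k[X]] o v'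
        rw [map_add, tmul_add])
      map_smul' := fun c v => Subtype.ext (LinearMap.ext fun w => by
        change w ⊗ₜ[k[X]] o (c • v) = c • w ⊗ₜ[k[X]] o v
        rw [map_smul, tmul_smul]) }
  let xW : XH W' W' :=
    ⟨(LinearMap.lsmul k[X] W X).restrictScalars k, LinearMap.ext fun w => (ω.map_smul X w).symm⟩
  obtain ⟨θ, hθ1, hθ2⟩ := l0_theta hB d W' Y' V j hj xW hx mv (fun v => Subtype.ext (LinearMap.ext fun w => by
      change w ⊗ₜ[k[X]] o (V.x v) = ((X : k[X]) • w) ⊗ₜ[k[X]] o v
      rw [← Module.AEval'.X_smul_of, smul_tmul]))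
  have h1 : θ u = 0 := by
    let ωh : W →ₗ[k[X]] W := xlin (aeval (ω.restrictScalars k) h) fun w =>
      (LinearMap.congr_fun (congrArg Subtype.val (l0_pol_comm xW h)) w).symm
    have e : ∀ y : W ⊗[k[X]] VX, aeval Y'.x h y = LinearMap.rTensor VX ωh y := by
      intro y
      induction y using TensorProduct.induction_on with
      | zero => exact (map_zero _).trans (map_zero _).symm
      | add a b ha hb => exact (map_add _ _ _).trans (by rw [ha, hb, map_add])
      | tmul w v =>
        exact (LinearMap.congr_fun (congrArg Subtype.val (l0_pol_comm (mv (o.symm v)) h)) w).symm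
    have h2 := hθ1 h u
    rw [hu, map_zero, e] at h2
    exact ((LinearEquiv.ofBijective ωh (hω h hh)).rTensor VX).injective
      (h2.symm.trans (map_zero _).symm)
  let Q := LinearMap.range (Bock d V (LinearMap.id : M d V →ₗ[R] M d V))
  let Ev : V →ₗ[k] EE d (M d (V0 k)) →ₗ[k] (EE d (M d V) ⧸ Q) :=
    LinearMap.llcomp k _ _ _ Q.mkQ ∘ₗ Emap d ∘ₗ (MN d).map ∘ₗ l0_hat V
  have hEv : ∀ v n, Ev v n = Q.mkQ (Emap d ((MN d).map (l0_hat V v)) n) := fun _ _ => rfl
  have hE0 : ∀ v n n', π n = π n' → Ev v n = Ev v n' := by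
    intro v n n' hn
    obtain ⟨p, hp⟩ := hπ0 (n - n') (by rw [map_sub, hn, sub_self])
    rw [← sub_eq_zero, ← map_sub, hp, hEv, l0_bock_map hB]
    exact (Submodule.Quotient.mk_eq_zero _).mpr ⟨_, rfl⟩
  choose s hs using hπ
  let β : W ⊗[k[X]] VX →+ (EE d (M d V) ⧸ Q) := TensorProduct.liftAddHom
    { toFun := fun w => (Ev.flip (s (ρ w))).toAddMonoidHom.comp o.symm.toLinearMap.toAddMonoidHom
      map_zero' := AddMonoidHom.ext fun v =>
        (hE0 _ _ 0 (by rw [hs, map_zero, map_zero])).trans (map_zero _)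
      map_add' := fun w w' => AddMonoidHom.ext fun v =>
        (hE0 _ _ (s (ρ w) + s (ρ w')) (by rw [hs, map_add, map_add, hs, hs])).trans
          (map_add _ _ _) }
    (fun p w v => by
      change Ev (o.symm v) (s (ρ (p • w))) = Ev (aeval V.x p (o.symm v)) (s (ρ w))
      rw [hE0 _ _ _ ((hs _).trans (hρ p w _ (hs _).symm)), hEv, hEv, l0_x_pol,
        ← l0_hat_pol, (MN d).map_comp, Emap_comp, LinearMap.comp_apply])
  have hβ : ∀ u, β (θ u) = Q.mkQ (aeval (EX d (M d V)) g u) := by
    intro u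
    refine l0_E_ind (fun u => β (θ u) = Q.mkQ (aeval (EX d (M d V)) g u)) (by simp)
      (fun x y hx hy => ?_) (fun a l r b v => ?_) u
    · simp only [map_add, hx, hy]
    · have e : l0_el d _ a l (r • gen d V b v) = Emap d ((MN d).map (l0_hat V v))
          (l0_el d _ a l (r • gen d (V0 k) b (1 : k[X]))) := by
        rw [l0_el_map, ((MN d).map _).map_smul, map_gen, l0_hat_one]
      change β (θ _) = _
      rw [e, hθ2, ← hB.emap_pol, ← hEv]
      exact hE0 _ _ _ ((hs _).trans (hg _))
  have h3 := hβ u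
  rw [h1] at h3
  obtain ⟨v, hv⟩ := (Submodule.Quotient.mk_eq_zero _).mp (h3.symm.trans (map_zero β))
  exact ⟨v, hv.symm⟩
end

theorem t_L0 (k : Type u) [Field k] [IsAlgClosed k] (R : Type u) [Ring R] [Algebra k R]
    [FiniteDimensional k R]
    (L : Lib k) :
    S_L0 k R := by
  intro d K _ _ t ht hck
  have hB := L.bock R
  let e : L0N d k := Bock d (V0 k) LinearMap.id (1 : k[X])
  let U : Submodule k[X][X] (L0N d k) := Submodule.span _ {e}
  obtain ⟨W, _, _, j, ρ, g, hg, hbij, hρ, hj⟩ := l0_alg k (L0N d k ⧸ U) (by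
    intro n a ha h
    obtain ⟨ν, rfl⟩ := U.mkQ_surjective n
    rw [← map_smul, Submodule.mkQ_apply, Submodule.Quotient.mk_eq_zero,
      Submodule.mem_span_singleton] at h
    obtain ⟨a', h⟩ := h
    obtain ⟨h, f, hh, hf, a'', h'⟩ := l0_tors hB d ht hck ν a a' ha e rfl h.symm
    refine ⟨h, f, hh, hf, ?_⟩
    rw [← map_smul, Submodule.mkQ_apply, Submodule.Quotient.mk_eq_zero,
      Submodule.mem_span_singleton]
    exact ⟨a'', h'.symm⟩)
  letI : Module k[X] W := Module.compHom W (mapRingHom (C : k →+* k[X]))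
  letI : Module k W := Module.compHom W (C : k →+* k[X])
  have s1 : ∀ (h : k[X]) (w : W), h • w = (h.map C : k[X][X]) • w := fun _ _ => rfl
  have s2 : ∀ (c : k) (w : W), c • w = (C (C c) : k[X][X]) • w := fun c w => by
    change ((C c).map C : k[X][X]) • w = _
    rw [map_C]
  haveI : IsScalarTower k k[X] W := ⟨fun c h w => by
    rw [s2, s1, s1, smul_eq_C_mul, Polynomial.map_mul, map_C, mul_smul]⟩
  let ω : W →ₗ[k[X]] W :=
    { toFun := fun w => (C X : k[X][X]) • w
      map_add' := smul_add _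
      map_smul' := fun h w => by rw [RingHom.id_apply, s1, s1, smul_comm] }
  have hω : ∀ (h : k[X]) (w : W), aeval (ω.restrictScalars k) h w = (C h : k[X][X]) • w := by
    intro h
    induction h using Polynomial.induction_on with
    | C c => intro w; rw [aeval_C, Module.algebraMap_end_apply, s2]
    | add p q hp hq => intro w; rw [map_add, LinearMap.add_apply, hp, hq, map_add, add_smul]
    | monomial n c ih =>
      intro w
      rw [pow_succ, ← mul_assoc, map_mul, Module.End.mul_apply, ih, aeval_X, map_mul C _ X,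
        mul_smul]
      rfl
  refine ⟨g, hg, l0_fin hB d W ω (fun h hh => ?_)
    { toFun := fun n => j (U.mkQ n)
      map_add' := fun x y => by erw [map_add]; rw [map_add]
      map_smul' := fun c n => by
        have : (c • n : EE d (M d (V0 k))) = l0_act d (V0 k) (C (C c)) n := by
          rw [l0_act_C, aeval_C]; rfl
        rw [RingHom.id_apply, s2, ← map_smul, ← map_smul, this]; rfl }
    (fun n => ?_) (fun n => ?_) g (L0N d k ⧸ U) U.mkQ.toAddMonoidHom U.mkQ_surjective
    (fun n hn => ?_) ρ (fun h w n hn => ?_) fun n => ?_⟩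
  · rw [show ⇑(aeval (ω.restrictScalars k) h) = _ from funext (hω h)]
    exact hbij h hh
  · change j (U.mkQ _) = (C X : k[X][X]) • j (U.mkQ n)
    rw [← map_smul, ← map_smul, l0_smul, l0_act_C, aeval_X]
  · change j (U.mkQ _) = (X : k[X]) • j (U.mkQ n)
    rw [s1, ← map_smul, ← map_smul, l0_smul, l0_act_map, aeval_X]
  · obtain ⟨a, ha⟩ := Submodule.mem_span_singleton.mp ((Submodule.Quotient.mk_eq_zero U).mp hn)
    obtain ⟨v, hv⟩ := l0_act_bock hB d (V0 k) a (1 : k[X])
    exact ⟨v, ha.symm.trans hv⟩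
  · rw [s1, hρ, hn, ← l0_act_map]
    exact (U.mkQ.map_smul _ _).symm
  · refine (hj _).trans ?_
    rw [← l0_act_C]
    exact (U.mkQ.map_smul _ _).symm

end Pool.Agent.P.MP_cf639b_al
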