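import Pool.Agent.P.MP_cf639b_al.Iface

set_option linter.dupNamespace false

namespace Pool.Agent.P.MP_cf639b_al

universe u v
open TensorProduct Polynomial Function

section
variable {k : Type u} [Field k] {R : Type u} [Ring R] [Algebra k R]

theorem link_inv {U T T' : Md k R} {ψ : PP U} {e : T →ₗ[R] T'} (he : Bijective e) {a : U →ₗ[R] T}
    (h : e ∘ₗ a ∈ ψ.ev T') : a ∈ ψ.ev T := by
  have := PP.comp_mem (LinearEquiv.ofBijective e he).symm.toLinearMap h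
  rwa [show (LinearEquiv.ofBijective e he).symm.toLinearMap ∘ₗ e ∘ₗ a = a from
    LinearMap.ext fun x => (LinearEquiv.ofBijective e he).symm_apply_apply (a x)] at this

variable [FiniteDimensional k R]

theorem link_soc (hp : S_PG k R) (H : PG k R) {U : Md k R} {φ ψ : PP U}
    (h : ¬φ.ev H.G ≤ ψ.ev H.G) :
    ∃ a ∈ φ.ev H.G, a ∉ ψ.ev H.G ∧ ∀ j ∈ H.JG, j ∘ₗ a ∈ ψ.ev H.G := by
  by_contra hn
  push Not at hn
  obtain ⟨a, ha, ha'⟩ := SetLike.not_le_iff_exists.1 h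
  have key : ∀ n, ∃ l : List (Module.End R H.G), l.length = n ∧ (∀ j ∈ l, j ∈ H.JG) ∧
      l.prod ∘ₗ a ∉ ψ.ev H.G := fun n => by
    induction n with
    | zero => exact ⟨[], rfl, by simp, ha'⟩
    | succ n ih =>
      obtain ⟨l, h1, h2, h3⟩ := ih
      obtain ⟨j, h4, h5⟩ := hn _ (PP.comp_mem l.prod ha) h3
      exact ⟨j :: l, by simp [h1], List.forall_mem_cons.2 ⟨h4, h2⟩, h5⟩
  obtain ⟨l, h1, h2, h3⟩ := key H.D.s
  rw [H.D.nil (hp.alG H) l h1 h2, LinearMap.zero_comp] at h3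
  exact h3 (zero_mem _)

theorem link_tr [IsAlgClosed k] (L : Lib k) (H : PG k R) {T : Md k R} (π : Pr k R)
    (hK : ∀ θ : PP π.U, θ.le π.φ → ¬θ.ev T ≤ π.ψ.ev T → ¬θ.ev H.G ≤ π.ψ.ev H.G)
    {a : π.U →ₗ[R] T} (ha : a ∈ π.φ.ev T) (ha' : a ∉ π.ψ.ev T) :
    ∃ f : T →ₗ[R] H.G, f ∘ₗ a ∉ π.ψ.ev H.G := by
  obtain ⟨θ, ⟨h1, h2⟩, h3⟩ := (L.orb R).min _ H.GF ((L.pg R).fdG H) π.U π.fd
    {θ | θ.le π.φ ∧ a ∈ θ.ev T} ⟨π.φ, fun _ => le_rfl, ha⟩ (by
      rintro θ ⟨a1, a2⟩ θ' ⟨-, b2⟩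
      obtain ⟨χ, e⟩ := (L.pp R).inf _ θ θ'
      exact ⟨χ, ⟨fun T => (e T).le.trans (inf_le_left.trans (a1 T)), e T ▸ ⟨a2, b2⟩⟩, (e _).le⟩)
  obtain ⟨b, hb, hb'⟩ := SetLike.not_le_iff_exists.1 (hK θ h1 fun h => ha' (h h2))
  obtain ⟨f, rfl⟩ := L.comp R H.G ((L.orb R).dcc _ H.GF ((L.pg R).fdG H)) π.U T π.fd a b
    fun θ' h4 => by
      obtain ⟨χ, e⟩ := (L.pp R).inf _ π.φ θ'
      exact ((h3 χ ⟨fun T => (e T).le.trans inf_le_left, e T ▸ ⟨ha, h4⟩⟩).trans (e _).le hb).2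
  exact ⟨f, hb'⟩

end

theorem t_LINK (k : Type u) [Field k] [IsAlgClosed k] (R : Type u) [Ring R] [Algebra k R]
    [FiniteDimensional k R]
    (L : Lib k) :
    S_LINK k R := by
  intro H π π' h h'
  have pp := L.pp R
  have pg := L.pg R
  obtain ⟨a, ha, na⟩ := SetLike.not_le_iff_exists.1 h
  obtain ⟨a', ha', na'⟩ := SetLike.not_le_iff_exists.1 h'
  have fd : (π.U.prod π'.U).fd := by
    have := π.fd
    have := π'.fd
    exact inferInstanceAs (Module.Finite k (π.U × π'.U))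
  obtain ⟨ρ0, e0⟩ := (L.orb R).orb _ H.GF (pg.fdG H) _ fd (a.coprod a')
  obtain ⟨A, eA⟩ := pp.pull _ _ fd (LinearMap.inl R π.U π'.U) π.φ
  obtain ⟨A', eA'⟩ := pp.pull _ _ fd (LinearMap.inr R π.U π'.U) π'.φ
  obtain ⟨B, eB⟩ := pp.pull _ _ fd (LinearMap.inl R π.U π'.U) π.ψ
  obtain ⟨B', eB'⟩ := pp.pull _ _ fd (LinearMap.inr R π.U π'.U) π'.ψ
  obtain ⟨A2, e2⟩ := pp.inf _ A A'
  obtain ⟨φ, eφ⟩ := pp.inf _ ρ0 A2
  obtain ⟨ψ1, e3⟩ := pp.inf _ φ B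
  obtain ⟨ψ2, e4⟩ := pp.inf _ φ B'
  obtain ⟨ψ, eψ⟩ := pp.sup _ ψ1 ψ2
  refine ⟨⟨_, fd, φ, ψ⟩, fun hle => ?_, fun T hT => ⟨fun hle => hT fun t ht => ?_,
    fun hle => hT fun t ht => ?_⟩⟩
  · have hc : a.coprod a' ∈ φ.ev H.G := by
      rw [eφ, e2]
      exact ⟨(e0 _).2 ⟨LinearMap.id, rfl⟩, (eA _ _).2 (by rwa [LinearMap.coprod_inl]),
        (eA' _ _).2 (by rwa [LinearMap.coprod_inr])⟩
    have h1 : a.coprod a' ∈ ψ.ev H.G := hle hc
    rw [eψ, e3, e4, eφ] at h1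
    obtain ⟨c1, ⟨⟨p1, -⟩, q1⟩, c2, ⟨⟨p2, -⟩, q2⟩, hs⟩ := Submodule.mem_sup.1 h1
    obtain ⟨f1, rfl⟩ := (e0 _).1 p1
    obtain ⟨f2, rfl⟩ := (e0 _).1 p2
    have r1 := (eB _ _).1 q1
    have r2 := (eB' _ _).1 q2
    rw [LinearMap.comp_assoc, LinearMap.coprod_inl] at r1
    rw [LinearMap.comp_assoc, LinearMap.coprod_inr] at r2
    have j1 := (pg.unitG H f1).resolve_left fun b => na (link_inv b r1)
    have j2 := (pg.unitG H f2).resolve_left fun b => na' (link_inv b r2)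
    have b := pg.unit H.D H.v _ _ (pg.alG H) (pg.alG H) LinearMap.id _ (neg_mem (add_mem j1 j2))
      bijective_id
    refine na (link_inv b ?_)
    have z : (LinearMap.id + -(f1 + f2)) ∘ₗ a = 0 := LinearMap.ext fun x => by
      have := LinearMap.congr_fun hs (x, 0)
      simp only [LinearMap.add_apply, LinearMap.comp_apply, LinearMap.coprod_apply, map_zero,
        add_zero] at this
      exact add_neg_eq_zero.2 this.symm
    exact z ▸ zero_mem _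
  · change t ∈ ψ.ev T
    have h1 : t ∈ φ.ev T := ht
    rw [eψ, e3]
    refine Submodule.mem_sup_left ⟨h1, (eB _ _).2 (hle ((eA _ _).1 ?_))⟩
    rw [eφ, e2] at h1
    exact h1.2.1
  · change t ∈ ψ.ev T
    have h1 : t ∈ φ.ev T := ht
    rw [eψ, e4]
    refine Submodule.mem_sup_right ⟨h1, (eB' _ _).2 (hle ((eA' _ _).1 ?_))⟩
    rw [eφ, e2] at h1
    exact h1.2.2

theorem t_SEP (k : Type u) [Field k] [IsAlgClosed k] (R : Type u) [Ring R] [Algebra k R]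
    [FiniteDimensional k R]
    (L : Lib k) :
    S_SEP k R := by
  intro G H π hs hle hG hH
  have pp := L.pp R
  have pg := L.pg R
  by_contra hn
  have key : ∀ θ : PP π.U, θ.le π.φ → (θ.ev G.G ≤ π.ψ.ev G.G ↔ θ.ev H.G ≤ π.ψ.ev H.G) := by
    intro θ hθ
    obtain ⟨χ, e⟩ := pp.sup _ π.ψ θ
    by_contra hne
    refine hn ⟨χ, fun T => e T ▸ le_sup_left, fun T => e T ▸ sup_le (hle T) (hθ T), ?_, ?_⟩
    · by_cases h : θ.ev G.G ≤ π.ψ.ev G.G
      · exact Or.inl fun a => hG (le_trans a ((e _).le.trans (sup_le le_rfl h)))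
      · exact Or.inr fun a => hH (le_trans a ((e _).le.trans (sup_le le_rfl (by tauto))))
    · by_cases h : θ.ev G.G ≤ π.ψ.ev G.G
      · exact Or.inr fun a => hne (iff_of_true h (le_sup_right.trans ((e _).ge.trans a)))
      · exact Or.inl fun a => h (le_sup_right.trans ((e _).ge.trans a))
  obtain ⟨a, ha, na, ja⟩ := link_soc pg G hG
  obtain ⟨f, hf⟩ := link_tr L H π (fun θ h1 h2 h3 => h2 ((key θ h1).2 h3)) ha na
  obtain ⟨g, hg⟩ := link_tr L G π (fun θ h1 h2 h3 => h2 ((key θ h1).1 h3)) (PP.comp_mem f ha) hf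
  have b : Bijective (g ∘ₗ f) := (pg.unitG G _).resolve_right fun j => hg (ja _ j)
  let i := LinearEquiv.ofBijective (g ∘ₗ f) b
  have hi : ∀ x, g (f (i.symm x)) = x := i.apply_symm_apply
  let e : Module.End R H.G := f ∘ₗ i.symm.toLinearMap ∘ₗ g
  have ee : IsIdempotentElem e := LinearMap.ext fun x => congrArg (fun y => f (i.symm y)) (hi (g x))
  rcases pg.unitG H e with c | c
  · exact hs (pp.iso _ _ f ⟨Injective.of_comp (f := g) b.1, Surjective.of_comp (f := f) c.2⟩)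
  · have z : e = 0 := ee.eq_zero_of_isNilpotent (pg.nilp H.D H.v _ (pg.alG H) e c)
    refine hg ((show g ∘ₗ f ∘ₗ a = 0 from LinearMap.ext fun x => ?_) ▸ zero_mem _)
    have := congrArg g (LinearMap.congr_fun z (f (a x)))
    rw [LinearMap.zero_apply, map_zero] at this
    exact (hi _).symm.trans this

end Pool.Agent.P.MP_cf639b_al
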