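import Pool.Agent.P.MP_cf639b_al.Iface

set_option linter.dupNamespace false

namespace Pool.Agent.P.MP_cf639b_al

universe u v
open TensorProduct Polynomial Function

section
variable {k : Type u} [Field k] {R : Type u} [Ring R] [Algebra k R]

theorem ll_push (G U : Md k R) (Jk : Set (Module.End R G)) (s : ℕ)
    (nil : ∀ l : List (Module.End R G), l.length = s → (∀ j ∈ l, j ∈ Jk) → l.prod = 0)
    (φ ψ : PP U) (h : ¬ φ.ev G ≤ ψ.ev G) :
    ∃ a ∈ φ.ev G, a ∉ ψ.ev G ∧ ∀ j ∈ Jk, j ∘ₗ a ∈ ψ.ev G := by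
  by_contra hc
  push Not at hc
  obtain ⟨a, ha, ha'⟩ := Set.not_subset.mp h
  have key : ∀ n : ℕ, ∃ l : List (Module.End R G), l.length = n ∧ (∀ j ∈ l, j ∈ Jk) ∧
      l.prod ∘ₗ a ∉ ψ.ev G := by
    intro n
    induction n with
    | zero => exact ⟨[], rfl, by simp, ha'⟩
    | succ n ih =>
      obtain ⟨l, hl, hJ, hn⟩ := ih
      obtain ⟨j, hj, hj'⟩ := hc _ (PP.comp_mem l.prod ha) hn
      refine ⟨j :: l, by simp [hl], ?_, ?_⟩
      · intro x hx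
        rcases List.mem_cons.mp hx with rfl | hx
        exacts [hj, hJ x hx]
      · rw [List.prod_cons]
        exact hj'
  obtain ⟨l, hl, hJ, hn⟩ := key s
  rw [nil l hl hJ] at hn
  exact hn (zero_mem _)

theorem ll_mem {F : Type u} [Field F] [Algebra k F] {U : Md k R} (φ : PP U) (A : FO k R F)
    (t : U →ₗ[R] A.X) : t ∈ φ.evF A ↔ t ∈ φ.ev A.X := Iff.rfl

theorem ll_sup {F : Type u} [Field F] [Algebra k F] {U : Md k R} {φ ψ χ : PP U} (A : FO k R F)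
    (h : χ.ev A.X = φ.ev A.X ⊔ ψ.ev A.X) : χ.evF A = φ.evF A ⊔ ψ.evF A := by
  ext t
  rw [ll_mem, h, Submodule.mem_sup, Submodule.mem_sup]
  rfl

theorem ll_reg_fd [FiniteDimensional k R] : (reg k R).fd :=
  inferInstanceAs (Module.Finite k R)

/-- formulas whose dimension is bounded by pairs closed on `G` -/
def ll_Good (G : Md k R) (π : Pr k R) (χ : PP (reg k R)) : Prop :=
  ∃ (r : ℕ) (ρ : Fin r → Pr k R), (∀ i, ¬ (ρ i).Open G) ∧
    ∀ (F : Type u) [Field F] [Algebra k F] (A : FO k R F), A.fd → ¬ π.Open A.X →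
      Module.finrank F (χ.evF A) ≤ ∑ i, (ρ i).dim A

variable [FiniteDimensional k R]

theorem ll_add (hFD : S_FD k R) {G : Md k R} {π : Pr k R} {χ χ' φ : PP (reg k R)}
    (hχ : ll_Good G π χ) (hc : φ.ev G ≤ χ.ev G)
    (he : ∀ T : Md k R, ¬ π.Open T → χ'.ev T = φ.ev T ⊔ χ.ev T) : ll_Good G π χ' := by
  obtain ⟨r, ρ, h1, h2⟩ := hχ
  refine ⟨r + 1, Fin.cons ⟨reg k R, ll_reg_fd, φ, χ⟩ ρ, fun i => ?_, fun F _ _ A hA hπ => ?_⟩
  · refine Fin.cases ?_ (fun i => ?_) i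
    · exact fun h => h hc
    · exact h1 i
  · have := hFD.homU F (reg k R) A ll_reg_fd hA
    rw [Fin.sum_univ_succ, ll_sup A (he _ hπ)]
    have e := Submodule.finrank_sup_add_finrank_inf_eq (φ.evF A) (χ.evF A)
    have e2 := h2 F A hA hπ
    have e3 := Submodule.finrank_mono (inf_le_left : φ.evF A ⊓ χ.evF A ≤ φ.evF A)
    change Module.finrank F (φ.evF A ⊔ χ.evF A : Submodule F _) ≤ Module.finrank F (φ.evF A) -
      Module.finrank F (φ.evF A ⊓ χ.evF A : Submodule F _) + ∑ i, (ρ i).dim A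
    have e4 : Module.finrank F (φ.evF A ⊔ χ.evF A : Submodule F _) +
        Module.finrank F (φ.evF A ⊓ χ.evF A : Submodule F _) ≤
        Module.finrank F (φ.evF A) + ∑ i, (ρ i).dim A :=
      e.trans_le (Nat.add_le_add_left e2 _)
    omega

theorem ll_step (hPP : S_PP k R) (hFD : S_FD k R) (hO : S_ORB k R)
    {K : Type u} [Field K] [Algebra k K] (G : FO k R K) (hG : G.fd)
    (Jk : Set (Module.End R G.X)) (s : ℕ)
    (nil : ∀ l : List (Module.End R G.X), l.length = s → (∀ j ∈ l, j ∈ Jk) → l.prod = 0)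
    (unit : ∀ u : Module.End R G.X, Bijective u ∨ u ∈ Jk) (π : Pr k R) (hπ : π.Open G.X)
    (χ : PP (reg k R)) (hχ : ll_Good G.X π χ) (hne : χ.ev G.X ≠ ⊤) :
    ∃ χ' : PP (reg k R), ll_Good G.X π χ' ∧ χ.evF G < χ'.evF G := by
  obtain ⟨tp, htp⟩ := hPP.top (reg k R) ll_reg_fd
  obtain ⟨a, -, ha, haJ⟩ := ll_push G.X _ Jk s nil tp χ (by rw [htp]; exact fun h => hne (top_le_iff.mp h))
  obtain ⟨a', ha1, ha2, ha3⟩ := ll_push G.X _ Jk s nil π.φ π.ψ hπ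
  let U : Md k R := (reg k R).prod π.U
  have hU : U.fd := by
    have := π.fd
    exact inferInstanceAs (Module.Finite k (R × π.U))
  let i1 : reg k R →ₗ[R] U := LinearMap.inl R R π.U
  let i2 : π.U →ₗ[R] U := LinearMap.inr R R π.U
  let c : U →ₗ[R] G.X := LinearMap.coprod a a'
  have c1 : c ∘ₗ i1 = a := LinearMap.coprod_inl a a'
  have c2 : c ∘ₗ i2 = a' := LinearMap.coprod_inr a a'
  obtain ⟨o, ho⟩ := hO.orb K G hG U hU c
  obtain ⟨pφ, hpφ⟩ := hPP.pull π.U U hU i2 π.φ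
  obtain ⟨pψ, hpψ⟩ := hPP.pull π.U U hU i2 π.ψ
  obtain ⟨ρ, hρ⟩ := hPP.inf U o pφ
  obtain ⟨ρ', hρ'⟩ := hPP.inf U ρ pψ
  obtain ⟨dm, hdm⟩ := hPP.push (reg k R) U i1 ρ
  obtain ⟨kr, hkr⟩ := hPP.push (reg k R) U i1 ρ'
  obtain ⟨χ', hχ'⟩ := hPP.sup (reg k R) dm χ
  refine ⟨χ', ll_add hFD (φ := kr) hχ (fun t ht => ?_) (fun T hT => ?_), ?_⟩
  · obtain ⟨t', ht', rfl⟩ := (hkr _ t).mp ht
    rw [hρ', hρ] at ht'
    obtain ⟨f, rfl⟩ := (ho t').mp ht'.1.1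
    have h2 : f ∘ₗ a' ∈ π.ψ.ev G.X := by
      rw [← c2]
      exact (hpψ _ _).mp ht'.2
    rcases unit f with hf | hf
    · refine absurd ?_ ha2
      have := PP.comp_mem (LinearEquiv.ofBijective f hf).symm.toLinearMap h2
      rwa [show (LinearEquiv.ofBijective f hf).symm.toLinearMap ∘ₗ f ∘ₗ a' = a' from
        LinearMap.ext fun x => (LinearEquiv.ofBijective f hf).symm_apply_apply (a' x)] at this
    · rw [LinearMap.comp_assoc, c1]
      exact haJ f hf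
  · rw [hχ']
    congr 1
    ext t
    rw [hdm, hkr]
    refine exists_congr fun t' => and_congr_left fun _ => ?_
    rw [hρ']
    refine ⟨fun h => ⟨h, (hpψ _ _).mpr (not_not.mp hT ?_)⟩, fun h => h.1⟩
    rw [hρ] at h
    exact (hpφ _ _).mp h.2
  · rw [ll_sup G (hχ' _)]
    refine right_lt_sup.mpr fun h => ha (h ?_)
    refine (hdm _ a).mpr ⟨c, ?_, c1.symm⟩
    rw [hρ]
    exact ⟨(ho c).mpr ⟨LinearMap.id, rfl⟩, (hpφ _ _).mpr (c2 ▸ ha1)⟩

theorem ll_main (hPP : S_PP k R) (hFD : S_FD k R) (hO : S_ORB k R)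
    {K : Type u} [Field K] [Algebra k K] (G : FO k R K) (hG : G.fd)
    (Jk : Set (Module.End R G.X)) (s : ℕ)
    (nil : ∀ l : List (Module.End R G.X), l.length = s → (∀ j ∈ l, j ∈ Jk) → l.prod = 0)
    (unit : ∀ u : Module.End R G.X, Bijective u ∨ u ∈ Jk) (π : Pr k R) (hπ : π.Open G.X) :
    ∃ (r : ℕ) (ρ : Fin r → Pr k R), (∀ i, ¬ (ρ i).Open G.X) ∧
      ∀ (F : Type u) [Field F] [Algebra k F] (A : FO k R F), A.fd → ¬ π.Open A.X →
        A.dim ≤ ∑ i, (ρ i).dim A := by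
  have := hFD.homU K (reg k R) G ll_reg_fd hG
  obtain ⟨bt, hbt⟩ := hPP.bot (reg k R)
  obtain ⟨tp, htp⟩ := hPP.top (reg k R) ll_reg_fd
  have g0 : ll_Good G.X π bt := ⟨0, Fin.elim0, fun i => i.elim0, fun F _ _ A _ _ => by
    have : bt.evF A = ⊥ := by
      ext t
      rw [ll_mem, hbt, Submodule.mem_bot, Submodule.mem_bot]
    rw [this, finrank_bot]
    exact Nat.zero_le _⟩
  obtain ⟨W, ⟨χ, hχ, rfl⟩, hmax⟩ := (wellFounded_gt (α := Submodule K (reg k R →ₗ[R] G.X))).has_min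
    {W | ∃ χ, ll_Good G.X π χ ∧ χ.evF G = W} ⟨_, bt, g0, rfl⟩
  have ht : χ.ev G.X = ⊤ := by
    by_contra hne
    obtain ⟨χ', h1, h2⟩ := ll_step hPP hFD hO G hG Jk s nil unit π hπ χ hχ hne
    exact hmax _ ⟨χ', h1, rfl⟩ h2
  obtain ⟨r, ρ, h1, h2⟩ := ll_add hFD (χ' := tp) (φ := tp) hχ (ht ▸ le_top)
    (fun T _ => by rw [htp, top_sup_eq])
  refine ⟨r, ρ, h1, fun F _ _ A hA hc => le_trans (le_of_eq ?_) (h2 F A hA hc)⟩
  have : tp.evF A = ⊤ := by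
    ext t
    rw [ll_mem, htp]
    simp
  rw [this, finrank_top]
  exact (LinearMap.ringLmapEquivSelf R F A.X).finrank_eq.symm
end

theorem t_LL (k : Type u) [Field k] [IsAlgClosed k] (R : Type u) [Ring R] [Algebra k R]
    [FiniteDimensional k R]
    (L : Lib k) :
    S_LL k R := by
  intro H π hπ
  exact ll_main (L.pp R) (L.fd R) (L.orb R) H.GF ((L.pg R).fdG H) H.JG H.D.s
    (H.D.nil ((L.pg R).alG H)) ((L.pg R).unitG H) π hπ

end Pool.Agent.P.MP_cf639b_al
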