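import Pool.Agent.P.MP_cf639b_al.Iface

set_option linter.dupNamespace false

namespace Pool.Agent.P.MP_cf639b_al

universe u v
open TensorProduct Polynomial Function

section aux
variable {k : Type u} [Field k] [IsAlgClosed k] {R : Type u} [Ring R] [Algebra k R]
  [FiniteDimensional k R]

omit [IsAlgClosed k] in
theorem ms_fd (L : Lib k) {F : Type u} [Field F] [Algebra k F] (d : Fam R) (y : F) (n : ℕ) :
    (MF d (J k y n)).fd :=
  (L.fd R).m F d _ ((L.fd R).jq F _ (Jmonic y n)).1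

omit [IsAlgClosed k] in
theorem ms_expo (L : Lib k) (hO2 : S_O2 k R) (hSWF : S_SWF k R) (hMSC : S_MSC k R)
    (hE2 : S_E2 k R) (hND : ND0 k R) {F : Type u} [Field F] [Algebra k F] (hF : Big k F)
    (d : Fam R) {K : Type u} [Field K] [Algebra k K] (t : K) (ht : Gen k t)
    (hC : CK (k := k) d t) (p : k) : ∃ a : ℕ, ∀ (G : PG k R) (y : F), Transcendental k y →
      ¬ Expo d p a (MF G.d (J k y (0 + 1))).X → Gam G := by
  obtain ⟨e, a, ha⟩ := hO2 hND d K t ht hC p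
  obtain ⟨s, hs⟩ := hSWF d K t ht hC p
  refine ⟨a + s, fun G y hy hN => ?_⟩
  haveI := hF.1
  obtain ⟨z, hz⟩ := hF.2 {y}
  rw [Finset.coe_singleton] at hz
  obtain ⟨σ, -, rfl⟩ := L.aut.aut F ∅ y z (L.aut.empty F y hy)
    (L.aut.mono F ∅ {y} z (Set.empty_subset _) hz)
  obtain ⟨f, -, hf⟩ := (L.tw R).j F (MN G.d) y (0 + 1) σ
  let φ : (MF G.d (J k y (0 + 1))).X ≃ₗ[R] (MF G.d (J k (σ y) (0 + 1))).X :=
    LinearEquiv.ofBijective f hf
  have hB : ¬ Expo d p (a + s) (MF G.d (J k (σ y) (0 + 1))).X := fun h =>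
    hN ((L.cc R).expo d p _ _ _ ((L.cc R).smd _ _ _ φ.toLinearMap φ.symm.toLinearMap
      (LinearMap.ext φ.symm_apply_apply) ((L.cc R).refl _)) h)
  obtain ⟨g, hg, u, hu, hne⟩ := hs F _ _ (ms_fd L G.d y _) a hN hB
  exact hE2 hND F hF G G y (σ y) 0 0 e hy hz _ _ ((L.id R).iso_refl F _) ((L.id R).iso_refl F _)
    ⟨g, hg, fun h => hne (hMSC d p e a ha F _ _ g h u hu)⟩

omit [IsAlgClosed k] in
theorem ms_short (L : Lib k) (hO1 : S_O1 k R) (hMSA : S_MSA k R)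
    (hE2 : S_E2 k R) (hND : ND0 k R) {F : Type u} [Field F] [Algebra k F] (hF : Big k F)
    (H : PG k R) (hC : CK (k := k) H.d (RatFunc.X : RatFunc k)) :
    ∃ a : ℕ, ∀ (G : PG k R) (y : F), Transcendental k y →
      ¬ Short H.d a (MF G.d (J k y (0 + 1))).X → Gam G := by
  classical
  obtain ⟨e, a, ha⟩ := hO1 H.d _ _ L.aut.gen hC
  refine ⟨a, fun G y hy hN => ?_⟩
  obtain ⟨s, hs⟩ := hMSA H.d e a ha F _ (ms_fd L G.d y _) hN
  obtain ⟨z, hz⟩ := hF.2 (insert y s)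
  have h1 : z ∉ s := fun h => L.aut.ne F _ z hz (Finset.mem_insert_of_mem h)
  have h2 : Transcendental k z := L.aut.tr F _ z hz
  have h3 : TrO k (insert z ∅) y := L.aut.exch F ∅ y z (L.aut.empty F y hy)
    (L.aut.mono F _ _ z (by simp) hz)
  rw [insert_empty_eq] at h3
  exact hE2 hND F hF H G z y 0 0 e h2 h3 _ _
    ((L.id R).iso_symm F _ _ ((L.id R).iso_one_J F (MN H.d) z)) ((L.id R).iso_refl F _)
    (hs z h1 h2)

end aux

theorem t_MS (k : Type u) [Field k] [IsAlgClosed k] (R : Type u) [Ring R] [Algebra k R]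
    [FiniteDimensional k R]
    (L : Lib k)
    (hGOOD : S_GOOD k R)
    (hCKrev : S_CKrev k R)
    (hTUBE : S_TUBE k R)
    (hTUBE2 : S_TUBE2 k R)
    (hSTR : S_STR k R)
    (hLINK : S_LINK k R)
    (hO1 : S_O1 k R)
    (hO2 : S_O2 k R)
    (hSWF : S_SWF k R)
    (hMSA : S_MSA k R)
    (hMSC : S_MSC k R)
    (hE2 : S_E2 k R)
    (hMSB : S_MSB k R) :
    S_MS k R := by
  classical
  intro hND H π hG hπ
  obtain ⟨F, _, _, hF⟩ := L.aut.big
  haveI := hF.1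
  have hC := hGOOD hND H
  obtain ⟨g, hg⟩ := hTUBE H hC
  choose aP haP using ms_expo L hO2 hSWF hMSC hE2 hND hF H.d _ L.aut.gen hC
  obtain ⟨a1, ha1⟩ := ms_expo L hO2 hSWF hMSC hE2 hND hF H.d.rev _ (L.aut.gen_inv _ _ L.aut.gen)
    (hCKrev H.d _ _ L.aut.gen hC) 0
  obtain ⟨a2, ha2⟩ := ms_short L hO1 hMSA hE2 hND hF H hC
  obtain ⟨a3, ha3⟩ := hMSB hND H
  obtain ⟨π1, h1, h2⟩ := hSTR Rᵐᵒᵖ (Anti.op k R) H g
    (g.roots.toFinset.sup aP + a1 + a2 + a3) hg.1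
  obtain ⟨ρ, h3, h4⟩ := hLINK H π π1 hπ h1
  obtain ⟨G, h5, h6⟩ := hG ρ h3
  refine ⟨G, ?_, h5, (h4 _ h6).1⟩
  by_contra hn
  obtain ⟨y, hy'⟩ := hF.2 ∅
  have hy := L.aut.tr F _ y hy'
  have hS := (L.sames R).j G.d F y 0 hy
  refine h2 F (MF G.d (J k y (0 + 1))) (ms_fd L G.d y _) ?_ ?_ (fun p hp => ?_) ?_
    (fun z hz => ?_) ((hS π1).2 (h4 _ h6).2)
  · exact (L.noe R).short_mono _ _ a2 _ (by omega) (not_not.1 fun h => hn (ha2 G y hy h))
  · exact (L.noe Rᵐᵒᵖ).short_mono _ _ a3 _ (by omega)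
      (not_not.1 fun h => hn (ha3 F hF G y hy h))
  · have h7 : aP p ≤ g.roots.toFinset.sup aP :=
      Finset.le_sup (Multiset.mem_toFinset.2 ((mem_roots hg.1).2 hp))
    exact (L.noe R).expo_mono _ _ _ (aP p) _ (by omega) (not_not.1 fun h => hn (haP p G y hy h))
  · exact (L.noe R).expo_mono _ _ _ a1 _ (by omega) (not_not.1 fun h => hn (ha1 G y hy h))
  · by_contra hi
    obtain ⟨hz', e, f, -, hf⟩ := hTUBE2 H G g hg F z y 0 hy hz hi
    exact h5 fun τ => (hS τ).symm.trans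
      (((L.pp R).iso _ _ f hf τ).trans ((L.sames R).j H.d F z e hz' τ))

theorem t_FIN (k : Type u) [Field k] [IsAlgClosed k] (R : Type u) [Ring R] [Algebra k R]
    [FiniteDimensional k R]
    (L : Lib k)
    (hD1 : S_D1 k R)
    (hMS : S_MS k R)
    (hSEP : S_SEP k R) :
    S_FIN k R := by
  intro hND
  by_contra hn
  obtain ⟨H, -, hH⟩ := exists_seq_of_forall_finset_exists (fun _ : PG k R => True)
    (fun G G' => ¬ SameS G.G G'.G) fun s _ => by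
      by_contra hc
      refine hn ⟨s.card, fun i => (s.equivFin.symm i).1, fun H' => ?_⟩
      by_contra h
      refine hc ⟨H', trivial, fun x hx e => h ⟨s.equivFin ⟨x, hx⟩, ?_⟩⟩
      simp only [Equiv.symm_apply_apply]
      exact e
  obtain ⟨H0, h0⟩ := hD1 hND H fun i j hij e => by
    rcases lt_or_gt_of_ne hij with h | h
    · exact hH i j h e
    · exact hH j i h fun π => (e π).symm
  refine hND ⟨{π | π.ψ.le π.φ ∧ ∃ G : PG k R, Gam G ∧ π.Open G.G}, ?_, ?_⟩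
  · have hfd : (reg k R).fd := (inferInstance : Module.Finite k R)
    obtain ⟨φ, hφ⟩ := (L.pp R).top (reg k R) hfd
    obtain ⟨ψ, hψ⟩ := (L.pp R).bot (reg k R)
    refine ⟨⟨reg k R, hfd, φ, ψ⟩, fun T => (hφ T).symm ▸ le_top, H0, h0, fun h => ?_⟩
    haveI := (L.pg R).ntG H0
    obtain ⟨x, hx⟩ := exists_ne (0 : H0.G)
    have h1 : LinearMap.toSpanSingleton R H0.G x ∈ φ.ev H0.G := (hφ _).symm ▸ Submodule.mem_top
    have h2 : LinearMap.toSpanSingleton R H0.G x ∈ ψ.ev H0.G := h h1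
    rw [hψ, Submodule.mem_bot] at h2
    exact hx (by simpa using LinearMap.congr_fun h2 1)
  · rintro π ⟨h1, G, hG, ho⟩
    obtain ⟨G', hG', hne, ho'⟩ := hMS hND G π hG ho
    obtain ⟨χ, h2, h3, h4, h5⟩ := hSEP G' G π hne h1 ho' ho
    exact ⟨fun h => ho (h _), χ, h2, h3,
      ⟨h3, h4.elim (fun h => ⟨G', hG', h⟩) fun h => ⟨G, hG, h⟩⟩,
      ⟨h2, h5.elim (fun h => ⟨G', hG', h⟩) fun h => ⟨G, hG, h⟩⟩⟩

end Pool.Agent.P.MP_cf639b_al
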