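import Pool.Agent.P.MP_cf639b_al.Iface

set_option linter.dupNamespace false

namespace Pool.Agent.P.MP_cf639b_al

universe u v
open TensorProduct Polynomial Function

theorem t_MSB (k : Type u) [Field k] [IsAlgClosed k] (R : Type u) [Ring R] [Algebra k R]
    [FiniteDimensional k R]
    (L : Lib k)
    (hGOOD : S_GOOD k R)
    (hCKop : S_CKop k R)
    (hO1 : ∀ (S : Type u) [Ring S] [Algebra k S] [FiniteDimensional k S], S_O1 k S)
    (hMSA : ∀ (S : Type u) [Ring S] [Algebra k S] [FiniteDimensional k S], S_MSA k S)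
    (hDG : S_DG k R)
    (hE2 : ∀ (S : Type u) [Ring S] [Algebra k S] [FiniteDimensional k S], S_E2 k S)
    (hGAMD : S_GAMD k R)
    (hHOM : S_HOM k R) :
    S_MSB k R := by
  classical
  intro hN H
  have hS : ND0 k Rᵐᵒᵖ := L.ndop Rᵐᵒᵖ R (Anti.op k R).symm hN
  obtain ⟨e, a, ha⟩ := hO1 Rᵐᵒᵖ (H.d.op (Anti.op k R)) _ _ L.aut.gen
    (hCKop _ (Anti.op k R) H.d _ _ L.aut.gen (hGOOD hN H))
  refine ⟨a, fun F _ _ hB G y hy hsh => ?_⟩
  have := hB.1
  have fdN : (MF G.d (J k y 1)).fd :=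
    (L.fd R).m F G.d _ ((L.fd R).jq F _ (Jmonic y 1)).1
  obtain ⟨H2, y', n', ty', i2⟩ := hDG.ex _ (Anti.op k R) hS F G y 0 hy
  obtain ⟨s, hs⟩ := hMSA Rᵐᵒᵖ _ e a ha F _ ((L.dd R).fd _ (Anti.op k R) F _ fdN).1 hsh
  obtain ⟨la, hla⟩ := hB.2 (insert y' s)
  have tl := L.aut.tr F _ _ hla
  obtain ⟨f, hf, hq⟩ := hs la (fun h => L.aut.ne F _ _ hla (by simp [h])) tl
  obtain ⟨H1, la', m', tl', i1⟩ := hDG.ex _ (Anti.op k R) hS F H la 0 tl
  have t1 : TrO k {la'} y' := by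
    have h1 := hDG.ind _ (Anti.op k R) F hB H H1 la la' 0 m' {y'} tl'
      (L.aut.mono F _ _ _ (by simp) hla) i1
    simpa using L.aut.exch F ∅ y' la' (L.aut.empty F _ ty') (by simpa using h1)
  have iJ := (L.id R).iso_one_J F (MN H.d) la
  obtain ⟨a0, ha0, b0, hb0, -, e0⟩ := (L.id R).theta_iso F _ _ iJ (hHOM hN F H la 0 tl)
  obtain ⟨z, hz⟩ := L.zeta R H.d
  obtain ⟨g, hg, e1, -⟩ := hz F (one k la)
  have hz' : z.app (one k la).V ∈ HomF (YF H.d (one k la)) (Tp.onF (MF H.d (one k la))) :=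
    NT.mem z (one k la)
  have hA := HomF.comp hg ha0
  have hb := HomF.comp hb0 hz'
  have e2 : (g ∘ₗ a0) ∘ₗ (b0 ∘ₗ z.app (one k la).V) - LinearMap.id ∈
      I0 (YF H.d (one k la)) (YF H.d (one k la)) := by
    have h1 := add_mem ((L.id R).i0_l F _ _ _ _ ((L.id R).i0_r F _ _ _ _ e0 _ hz') _ hg) e1
    refine (congrArg (· ∈ I0 _ _) (LinearMap.ext fun t => ?_)).mp h1
    exact (congrArg (· + (g (z.app (one k la).V t) - t))
      (map_sub g (a0 (b0 (z.app (one k la).V t))) (z.app (one k la).V t))).trans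
      (sub_add_sub_cancel _ _ _)
  have fdY : (YF H.d (one k la)).fd := (L.fd R).y F H.d _ ((L.fd R).one F la).1
  obtain ⟨io, hio, bio⟩ := (L.dmy R _ (Anti.op k R) F H.d la).2
  obtain ⟨io', hio', -, e3⟩ := (L.id _).iso_inv F _ _ io hio bio
  refine hGAMD _ (Anti.op k R) hN F G H2 y y' 0 n' hy ty' i2 (hE2 _ hS F hB H1 H2 la' y' m' n' e
    tl' t1 (DF (Anti.op k R) (MF H.d (one k la))) _ ((L.id _).iso_trans F _ _ _
      ((L.id _).iso_symm F _ _ ((L.dd R).iso _ (Anti.op k R) F _ _ iJ)) i1) i2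
    ⟨(f ∘ₗ io) ∘ₗ Dmap (Anti.op k R) hb, HomF.comp (HomF.comp hf hio) (Dmap_mem _ hb),
      fun h => hq ?_⟩)
  have h1 := (L.qq _).r F e _ _ _ _ h _ (Dmap_mem (Anti.op k R) hA)
  have h2 := (L.qq _).p0 F e _ _ ((L.dd R).fd _ (Anti.op k R) F _ fdY).1
    ((L.id _).p0_l F _ _ _ _ ((L.dd R).i0 _ (Anti.op k R) F _ _ _
      ((L.id R).i0_le F _ _ e2) fdY e2) _ (HomF.comp hf hio))
  have h3 := (L.qq _).r F e _ _ _ _ (sub_mem h1 h2) _ hio'
  refine (congrArg (· ∈ QQ e _ _) (LinearMap.ext fun t => ?_)).mp h3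
  refine ((map_sub (f ∘ₗ io) _ _).symm.trans (congrArg (f ∘ₗ io) (?_ : _ = io' t))).trans
    (congrArg f (LinearMap.congr_fun e3 t))
  generalize io' t = w
  refine DT.ext (σ := Anti.op k R) (A := YF H.d (one k la)) fun x => ?_
  have h4 := map_sub (DT.lin (σ := Anti.op k R) (A := YF H.d (one k la)) w)
    (g (a0 (b0 (z.app (one k la).V x)))) x
  exact sub_eq_iff_eq_add.2 (eq_add_of_sub_eq' h4.symm)

end Pool.Agent.P.MP_cf639b_al
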