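import Pool.Agent.P.MP_cf639b_al.Iface

set_option linter.dupNamespace false

namespace Pool.Agent.P.MP_cf639b_al

universe u v
open TensorProduct Polynomial Function

section
variable {k : Type u} [Field k] {R : Type u} [Ring R] [Algebra k R]

theorem nth_aeval {V V' : XV k} (g : XH V V') (p : k[X]) (v : V) :
    g.1 (aeval V.x p v) = aeval V'.x p (g.1 v) := by
  induction p using Polynomial.induction_on' with
  | add p q hp hq => simp only [map_add, LinearMap.add_apply, hp, hq]
  | monomial n c =>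
    simp only [aeval_monomial, Module.End.mul_apply, Module.algebraMap_end_apply, map_smul,
      XH.comm_pow]

theorem nth_left {K : Type u} [Field K] [Algebra k K] (t : K) (p : k[X]) (z : K) :
    aeval (LinearMap.mulLeft k t) p z = aeval t p * z := by
  have e : LinearMap.mulLeft k t = Algebra.lmul k K t := rfl
  rw [e, aeval_algHom_apply]
  rfl

/-- the free module of rank one -/
noncomputable abbrev nth_V (k : Type u) [Field k] : XV k := ⟨k[X], LinearMap.mulLeft k X⟩

/-- the map from the free module given by an element -/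
noncomputable def nth_g (V : XV k) (v : V) : XH (nth_V k) V :=
  ⟨LinearMap.applyₗ v ∘ₗ (aeval V.x : k[X] →ₐ[k] Module.End k V).toLinearMap,
    LinearMap.ext fun p => by simp⟩

theorem nth_g_apply (V : XV k) (v : V) (p : k[X]) : (nth_g V v).1 p = aeval V.x p v := rfl

theorem nth_mul (H : NF k R) (V : XV k) (p q : k[X]) (z : H.obj V) :
    H.map (XH.pol V (p * q)) z = H.map (XH.pol V p) (H.map (XH.pol V q) z) := by
  have e : XH.pol V (p * q) = XH.comp (XH.pol V p) (XH.pol V q) := Subtype.ext (map_mul _ p q)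
  rw [e, H.map_comp]
  rfl

/-- composition -/
def nth_comp {G H I : NF k R} (b : NT H I) (a : NT G H) : NT G I where
  app V := b.app V ∘ₗ a.app V
  nat g := by rw [← LinearMap.comp_assoc, b.nat, LinearMap.comp_assoc, a.nat, LinearMap.comp_assoc]

/-- difference -/
def nth_sub {G H : NF k R} (b a : NT G H) : NT G H where
  app V := b.app V - a.app V
  nat g := by rw [LinearMap.comp_sub, LinearMap.sub_comp, a.nat, b.nat]

/-- a polynomial -/
noncomputable def nth_pol (G : NF k R) (p : k[X]) : NT G G where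
  app V := G.map (XH.pol V p)
  nat g := by
    rw [← G.map_comp, ← G.map_comp]
    exact congrArg _ (Subtype.ext (LinearMap.ext (nth_aeval g p)))

theorem nth_sc (G : NF k R) {K : Type u} [Field K] [Algebra k K] (t : K) (p : k[X]) :
    G.map (XH.pol (one k t).V p) = (G.onF (one k t)).act (aeval t p) :=
  congrArg _ (Subtype.ext (LinearMap.ext (nth_left t p)))

theorem nth_calc {K : Type u} [Field K] [Algebra k K] {A B C : FO k R K} {a : A.X →ₗ[R] B.X}
    {b : B.X →ₗ[R] A.X} {α : A.X →ₗ[R] C.X} {β : C.X →ₗ[R] A.X} (hb : b ∈ HomF B A)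
    (hβ : β ∈ HomF C A) (h : b ∘ₗ a - LinearMap.id = β ∘ₗ α) (s1 s2 s3 s4 : K) (z : A.X) :
    A.act (s3 * s4) (A.act s2 (b (B.act s1 (a z)))) - A.act (s3 * s4 * (s1 * s2)) z -
      A.act (s1 * s2) (A.act s4 (β (C.act s3 (α z)))) = 0 := by
  have e : β (α z) = b (a z) - z := (LinearMap.congr_fun h z).symm
  simp only [← FO.smul_def]
  rw [hb, hβ, e]
  module

theorem nth_side [FiniteDimensional k R] (h1 : S_AF1 k R) (h2 : S_AF2 k R) {G H T : NF k R}
    (hG : IsAF G) (hT : IsAF T) {K : Type u} [Field K] [Algebra k K] {t : K} (ht : Gen k t)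
    {a : G.obj (one k t).V →ₗ[R] H.obj (one k t).V}
    {b : H.obj (one k t).V →ₗ[R] G.obj (one k t).V}
    {α : G.obj (one k t).V →ₗ[R] T.obj (one k t).V}
    {β : T.obj (one k t).V →ₗ[R] G.obj (one k t).V}
    (hb : b ∈ HomF (H.onF (one k t)) (G.onF (one k t)))
    (hα : α ∈ HomF (G.onF (one k t)) (T.onF (one k t)))
    (hβ : β ∈ HomF (T.onF (one k t)) (G.onF (one k t)))
    (h : b ∘ₗ a - LinearMap.id = β ∘ₗ α) {p q : k[X]} {a' : NT G H} {b' : NT H G}
    (ea : a'.app (one k t).V = H.map (XH.pol _ p) ∘ₗ a)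
    (eb : b'.app (one k t).V = G.map (XH.pol _ q) ∘ₗ b) :
    ∃ (g : k[X]) (α' : NT G T) (β' : NT T G), g ≠ 0 ∧ ∀ V z,
      G.map (XH.pol V g) (b'.app V (a'.app V z)) =
        G.map (XH.pol V (g * (p * q))) z + β'.app V (α'.app V z) := by
  obtain ⟨h3, α', n3, e3⟩ := h1 G T hG hT K t ht α hα
  obtain ⟨h4, β', n4, e4⟩ := h1 T G hT hG K t ht β hβ
  obtain ⟨h5, n5, e5⟩ := h2 G G hG hG K t ht.1
    (nth_sub (nth_sub (nth_comp (nth_pol G (h3 * h4)) (nth_comp b' a'))
      (nth_pol G (h3 * h4 * (p * q)))) (nth_comp (nth_pol G (p * q)) (nth_comp β' α')))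
    (LinearMap.ext fun z => by
      have := nth_calc hb hβ h (aeval t p) (aeval t q) (aeval t h3) (aeval t h4) z
      rw [← map_mul (aeval t), ← map_mul (aeval t), ← map_mul (aeval t), ← nth_sc, ← nth_sc,
        ← nth_sc, ← nth_sc, ← nth_sc, ← nth_sc, ← nth_sc] at this
      simp only [nth_sub, nth_comp, nth_pol, ea, eb, e3, e4, LinearMap.sub_apply,
        LinearMap.comp_apply, LinearMap.zero_apply]
      exact this)
  refine ⟨h5 * (h3 * h4), α', nth_comp (nth_pol G (h5 * (p * q))) β',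
    mul_ne_zero n5 (mul_ne_zero n3 n4), fun V z => ?_⟩
  have := LinearMap.congr_fun (e5 V) z
  simp only [nth_sub, nth_comp, nth_pol, LinearMap.sub_apply, LinearMap.comp_apply,
    LinearMap.zero_apply, map_sub] at this ⊢
  rw [mul_assoc h5, nth_mul G V h5, nth_mul G V h5, nth_mul G V h5]
  exact sub_eq_iff_eq_add'.1 (sub_eq_zero.1 this)

variable [FiniteDimensional k R] (L : Lib k) (d : Fam R) {K : Type u} [Field K]
  [Algebra k K] {t : K}
include L

theorem nth_trs {A B : FO k R K} {f : A.X →ₗ[R] B.X} (hf : f ∈ HomF A B) {u : EE d A.X}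
    (hu : Trs (piE d A t) u) : Trs (piE d B t) (Emap d f u) := by
  obtain ⟨n, hn⟩ := hu
  exact ⟨n, by rw [← (L.bock R).emap_piE K d t A B f hf, hn, map_zero]⟩

theorem nth_cst (ht : Transcendental k t) {A B : FO k R K} {f : A.X →ₗ[R] B.X} (hf : Cst A B f)
    {u : EE d A.X} (hu : Trs (piE d A t) u) : Emap d f u = 0 := by
  obtain ⟨Q, hQ, a, ha, b, -, rfl⟩ := hf
  obtain ⟨p, p0, hp⟩ := L.notor R d Q hQ
  have inj := hp K (TenF K Q) ((L.cc R).ten Q _) t fun h => p0 (transcendental_iff.1 ht p h)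
  obtain ⟨n, hn⟩ := nth_trs L d ha hu
  have inj' : Injective (piE d (TenF K Q) t ^ n) := by
    rw [Module.End.coe_pow]
    exact inj.iterate n
  rw [Emap_comp, LinearMap.comp_apply, inj' (hn.trans (map_zero _).symm), map_zero]

theorem nth_fix (ht : Transcendental k t) {A B : FO k R K} {a : A.X →ₗ[R] B.X}
    {b : B.X →ₗ[R] A.X} (hf : Cst A A (b ∘ₗ a - LinearMap.id)) {u : EE d A.X}
    (hu : Trs (piE d A t) u) : Emap d b (Emap d a u) = u := by
  have := nth_cst L d ht hf hu
  rw [map_sub, Emap_comp, Emap_id] at this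
  exact sub_eq_zero.1 this

theorem nth_line (ht : Transcendental k t) {A : FO k R K} {e : EE d A.X} (he : piE d A t e = 0)
    {f : k[X]} (f0 : f ≠ 0) (h : ∀ (u : EE d A.X) (g : K[X]), g ≠ 0 → polE d A g u = 0 →
      ∃ (c : K) (n : ℕ), aeval (EX d A.X) (f ^ n) (u - Emap d (A.act c) e) = 0)
    {u : EE d A.X} (hu : Trs (piE d A t) u) : ∃ c, u = Emap d (A.act c) e := by
  obtain ⟨n, hn⟩ := hu
  obtain ⟨c, m, hc⟩ := h u ((X - C t) ^ n) (pow_ne_zero _ (X_sub_C_ne_zero t))
    (((L.bock R).piE_pol K d t A n u).trans hn)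
  refine ⟨c, sub_eq_zero.1 ?_⟩
  have e1 : polE d A ((X - C t) ^ (n + 1)) (u - Emap d (A.act c) e) = 0 := by
    rw [(L.bock R).piE_pol, map_sub, ← (L.bock R).emap_piE K d t A A _ (HomF.act A c), pow_succ,
      Module.End.mul_apply, Module.End.mul_apply, he, map_zero, map_zero, ← Module.End.mul_apply,
      ← pow_succ, pow_succ', Module.End.mul_apply, hn, map_zero, sub_zero]
  rw [← (L.bock R).polE_k K d (f ^ m) A] at hc
  have cop : IsCoprime (X - C t) ((f ^ m).map (algebraMap k K)) := by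
    rw [(irreducible_X_sub_C t).coprime_iff_not_dvd, dvd_iff_isRoot, IsRoot, eval_map_algebraMap]
    exact fun b => pow_ne_zero m f0 (transcendental_iff.1 ht _ b)
  obtain ⟨x, y, hxy⟩ := cop.pow_left (m := n + 1)
  generalize u - Emap d (A.act c) e = w at e1 hc
  have := congrArg (fun g => polE d A g w) hxy
  simp only [polE, map_add, map_mul, map_one, LinearMap.add_apply, Module.End.mul_apply,
    Module.End.one_apply] at this e1 hc
  rw [e1, hc, map_zero, map_zero, add_zero] at this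
  exact this.symm

theorem nth_ne (ht : Transcendental k t) (ck : CK (k := k) d t)
    {a : (MF d (one k t)).X →ₗ[R] (YF d (one k t)).X}
    {b : (YF d (one k t)).X →ₗ[R] (MF d (one k t)).X}
    (ha : a ∈ HomF (MF d (one k t)) (YF d (one k t)))
    (hb : b ∈ HomF (YF d (one k t)) (MF d (one k t)))
    (c1 : Cst (MF d (one k t)) (MF d (one k t)) (b ∘ₗ a - LinearMap.id))
    (c2 : Cst (YF d (one k t)) (YF d (one k t)) (a ∘ₗ b - LinearMap.id)) :
    hat d (one k t).V a (eK d t) ≠ 0 := by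
  intro h0
  obtain ⟨f, f0, hf⟩ := ck.tors
  have he := (L.bock R).ek_zero K d t
  have te : Trs (piE d (MF d (one k t)) t) (eK d t) := ⟨1, by rw [pow_one, he]⟩
  have n1 : Emap d a (eK d t) ≠ 0 := fun h => ck.ne (by
    rw [← nth_fix L d ht c1 te, h, map_zero])
  have tor : ∀ u, Trs (piE d (YF d (one k t)) t) u →
      ∃ c, u = Emap d a (Emap d ((MF d (one k t)).act c) (eK d t)) := fun u hu => by
    obtain ⟨c, hc⟩ := nth_line L d ht he f0 hf (nth_trs L d hb hu)
    exact ⟨c, by rw [← hc, nth_fix L d ht c2 hu]⟩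
  obtain ⟨b', hb', e1⟩ := L.co R K d (YF d (one k t))
    ((L.fd R).y K d _ ((L.fd R).one K t).1) t 1 (fun u hu => by
      obtain ⟨c, rfl⟩ := tor u hu
      rw [← (L.bock R).emap_piE K d t _ _ a ha,
        ← (L.bock R).emap_piE K d t _ _ _ (HomF.act (MF d (one k t)) c), pow_one, he, map_zero,
        map_zero]) _ (nth_trs L d ha te)
  obtain ⟨g, g', hg, -, -, e2, -⟩ := (L.id R).one_J K t
  obtain ⟨c, hc⟩ := tor _ (nth_trs L d (HomF.comp ((YN d).map_mem g hg) hb') (nth_trs L d ha te))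
  have e3 := (L.bock R).hat_map d _ _ _ b' g (Emap d a (eK d t))
  have e4 := (L.bock R).hat_comp d (one k t).V _ _ LinearMap.id ((YN d).map g ∘ₗ b')
    (Emap d a (eK d t))
  have e5 := (L.bock R).hat_comp d (one k t).V _ _ LinearMap.id a
    (Emap d ((MF d (one k t)).act c) (eK d t))
  have e6 := ((L.bock R).hat_lin K d (one k t) (MF d (one k t)) a).1 ha c (eK d t)
  rw [h0, map_zero] at e6
  have e7 : g.1 (hat d (J k t 1).V b' (Emap d a (eK d t))) = 0 :=
    e3.symm.trans (e4.trans ((congrArg _ hc).trans (e5.symm.trans e6)))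
  have e8 := LinearMap.congr_fun (congrArg Subtype.val e2)
    (hat d (J k t 1).V b' (Emap d a (eK d t)))
  rw [XH.comp_val, LinearMap.comp_apply, e7, map_zero] at e8
  refine n1 ((e1 0).1 ?_)
  exact mul_eq_zero_of_right _ e8.symm

theorem nth_ev (th : NT (MN (k := k) d) (YN d)) (V : XV k) (v : V) :
    hat d V (th.app V) (Bock d V LinearMap.id v) = aeval V.x
      (hat d (nth_V k) (th.app _) (Bock d (nth_V k) LinearMap.id (1 : k[X])) : k[X]) v := by
  have e1 := (L.bock R).map d _ V _ LinearMap.id (nth_g V v) (1 : k[X])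
  rw [nth_g_apply, map_one (aeval V.x), Module.End.one_apply, LinearMap.id_comp, (L.bock R).eq] at e1
  rw [← e1, ← (L.bock R).hat_comp, ← th.nat, (L.bock R).hat_map, nth_g_apply]

end

theorem t_NTH (k : Type u) [Field k] [IsAlgClosed k] (R : Type u) [Ring R] [Algebra k R]
    [FiniteDimensional k R]
    (L : Lib k) :
    S_NTH k R := by
  intro d K _ _ t ht ck
  obtain ⟨a, ha, b, hb, c1, c2⟩ := ck.th
  have ne := nth_ne L d ht.1 ck ha hb c1 c2
  obtain ⟨Q, hQ, α, hα, β, hβ, e1⟩ := c1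
  obtain ⟨Q', hQ', α', hα', β', hβ', e2⟩ := c2
  have hM := (L.af R).m d
  have hY := (L.af R).y d
  obtain ⟨p, a', p0, ea⟩ := L.af1 R _ _ hM hY K t ht a ha
  obtain ⟨q, b', q0, eb⟩ := L.af1 R _ _ hY hM K t ht b hb
  obtain ⟨g, u, v, g0, h1⟩ := nth_side (T := TenN Q) (L.af1 R) (L.af2 R) hM ((L.af R).ten Q hQ) ht
    hb hα hβ e1 ea eb
  obtain ⟨g', u', v', g0', h2⟩ := nth_side (T := TenN Q') (L.af1 R) (L.af2 R) hY
    ((L.af R).ten Q' hQ') ht ha hα' hβ' e2 eb ea
  refine ⟨⟨g' * (g * (p * q)), mul_ne_zero g0' (mul_ne_zero g0 (mul_ne_zero p0 q0)), a',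
    nth_comp (nth_pol _ (g' * g)) b', Q, hQ, u, nth_comp (nth_pol _ g') v, Q', hQ', u',
    nth_comp (nth_pol _ g) v', fun V => LinearMap.ext fun z => ?_,
    fun V => LinearMap.ext fun z => ?_, _, fun h0 => ne ?_, nth_ev L d a'⟩⟩
  · simp only [nth_comp, nth_pol, LinearMap.comp_apply, LinearMap.add_apply]
    rw [nth_mul, h1, map_add, ← nth_mul]
  · simp only [nth_comp, nth_pol, LinearMap.comp_apply, LinearMap.add_apply]
    have e := LinearMap.congr_fun (a'.nat (XH.pol V (g' * g))) (b'.app V z)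
    simp only [LinearMap.comp_apply] at e
    rw [← e, mul_comm g' g, nth_mul, h2, map_add, ← nth_mul, mul_left_comm g g', mul_comm q p]
  · have e := nth_ev L d a' (one k t).V (1 : K)
    rw [h0, map_zero, LinearMap.zero_apply, ea, (L.bock R).hat_map] at e
    have e' := (nth_left t p _).symm.trans e
    exact (mul_eq_zero.1 e').resolve_left fun h => p0 (transcendental_iff.1 ht.1 p h)

end Pool.Agent.P.MP_cf639b_al
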