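import Pool.Agent.P.MP_cf639b_al.IfO

set_option linter.dupNamespace false

namespace Pool.Agent.P.MP_cf639b_al

universe u v
open TensorProduct Polynomial Function

noncomputable section
section aux
variable {k : Type u} [Field k] {R : Type u} [Ring R] [Algebra k R] {T : Md k R}

/-- the scalar polynomial of a polynomial vector along a functional -/
def ob_pol (μ : T →ₗ[k] k) : (ℕ →₀ T) →ₗ[k] k[X] := Finsupp.lsum k fun l => monomial l ∘ₗ μ

theorem ob_pol_single (μ : T →ₗ[k] k) (l : ℕ) (y : T) :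
    ob_pol μ (Finsupp.single l y) = μ y • X ^ l := by
  simp [ob_pol, smul_X_eq_monomial]

theorem ob_pol_coeff (μ : T →ₗ[k] k) (z : ℕ →₀ T) (l : ℕ) : (ob_pol μ z).coeff l = μ (z l) := by
  induction z using Finsupp.induction_linear with
  | zero => simp
  | add x y hx hy => simp [hx, hy]
  | single j y =>
    rw [ob_pol_single, coeff_smul, coeff_X_pow, Finsupp.single_apply]
    by_cases h : j = l
    · simp [h]
    · simp [h, Ne.symm h]

theorem ob_zero {z : ℕ →₀ T} (h : ∀ μ : T →ₗ[k] k, ob_pol μ z = 0) : z = 0 :=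
  Finsupp.ext fun l => (Module.forall_dual_apply_eq_zero_iff k (z l)).mp fun μ => by
    rw [← ob_pol_coeff, h, coeff_zero]

theorem ob_pol_aeval (μ : T →ₗ[k] k) (q : k[X]) (z : ℕ →₀ T) :
    ob_pol μ (aeval (shift R T) q z) = q * ob_pol μ z := by
  induction q using Polynomial.induction_on' with
  | add p q hp hq => rw [map_add, LinearMap.add_apply, map_add, hp, hq, add_mul]
  | monomial i c =>
    rw [← smul_X_eq_monomial, map_smul, LinearMap.smul_apply, map_smul, aeval_X_pow,
      smul_mul_assoc]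
    refine congrArg _ ?_
    induction z using Finsupp.induction_linear with
    | zero => simp
    | add x y hx hy => simp only [map_add, hx, hy, mul_add]
    | single j y => rw [shift_pow_single, ob_pol_single, ob_pol_single, pow_add, mul_smul_comm,
        mul_comm]

theorem ob_tf {q : k[X]} (hq : q ≠ 0) {z : ℕ →₀ T} (h : aeval (shift R T) q z = 0) : z = 0 :=
  ob_zero fun μ => (mul_eq_zero.mp (by rw [← ob_pol_aeval, h, map_zero])).resolve_left hq

theorem ob_v {d : Fam R} (q : k[X]) (ξ : ZZ d T) (b : Fin d.n0) :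
    ZZ.v (q • ξ) b = aeval (shift R T) q (ZZ.v ξ b) := by
  induction q using Polynomial.induction_on' with
  | add p q hp hq => rw [add_smul, map_add, Pi.add_apply, hp, hq, map_add, LinearMap.add_apply]
  | monomial i c =>
    rw [← smul_X_eq_monomial, smul_assoc, map_smul, Pi.smul_apply, ZZ.v_X_pow, map_smul,
      aeval_X_pow, LinearMap.smul_apply]

variable (T) in
/-- extension of scalars of a linear operator on polynomials -/
def ob_ext (G : k[X] →ₗ[k] k[X]) : (ℕ →₀ T) →ₗ[k] (ℕ →₀ T) :=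
  Finsupp.lsum k fun l => ∑ j ∈ (G (X ^ l)).support, (G (X ^ l)).coeff j • Finsupp.lsingle j

theorem ob_pol_ext (μ : T →ₗ[k] k) (G : k[X] →ₗ[k] k[X]) (z : ℕ →₀ T) :
    ob_pol μ (ob_ext T G z) = G (ob_pol μ z) := by
  induction z using Finsupp.induction_linear with
  | zero => simp
  | add x y hx hy => simp only [map_add, hx, hy]
  | single l y =>
    rw [ob_pol_single, map_smul, ob_ext, Finsupp.lsum_single, LinearMap.sum_apply, map_sum]
    conv_rhs => rw [(G (X ^ l)).as_sum_support, Finset.smul_sum]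
    refine Finset.sum_congr rfl fun j _ => ?_
    rw [LinearMap.smul_apply, map_smul, Finsupp.lsingle_apply, ob_pol_single, smul_comm,
      smul_X_eq_monomial]

/-- division by a monic polynomial -/
def ob_div {q : k[X]} (hq : q.Monic) : k[X] →ₗ[k] k[X] where
  toFun p := p /ₘ q
  map_add' a b := mul_left_cancel₀ hq.ne_zero (by
    have h1 := modByMonic_add_div (a + b) q
    have h2 := modByMonic_add_div a q
    have h3 := modByMonic_add_div b q
    rw [add_modByMonic] at h1
    linear_combination h1 - h2 - h3)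
  map_smul' c a := mul_left_cancel₀ hq.ne_zero (by
    have h1 := modByMonic_add_div (c • a) q
    have h2 := modByMonic_add_div a q
    rw [smul_modByMonic, smul_eq_C_mul, smul_eq_C_mul] at h1
    rw [RingHom.id_apply, smul_eq_C_mul, smul_eq_C_mul]
    linear_combination h1 - C c * h2)

theorem ob_xpow (q : k[X]) (l : ℕ) (v : QT q) :
    ((Jq k q).V.x ^ l) v = Qmk q (X ^ l) * v := by
  change (LinearMap.mulLeft k (Qmk q X) ^ l) v = _
  rw [LinearMap.pow_mulLeft, map_pow]; rfl

theorem ob_ctr {q : k[X]} (hq : q.Monic) (μ : T →ₗ[k] k) (z : ℕ →₀ T) (v : QT q) :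
    μ (ctr (Jq k q).V (lamV hq) T z v) = lamQ hq (Qmk q (ob_pol μ z) * v) := by
  induction z using Finsupp.induction_linear with
  | zero => simp
  | add x y hx hy => simp only [map_add, LinearMap.add_apply, add_mul, ← hx, ← hy]
  | single l y =>
    have e : Qmk q (μ y • X ^ l) = μ y • Qmk q (X ^ l) := rfl
    rw [ctr_single, ob_pol_single, ob_xpow, e, smul_mul_assoc, map_smul, map_smul, smul_eq_mul,
      smul_eq_mul, mul_comm]

theorem ob_nondeg {q : k[X]} (hq : q.Monic) (p : k[X])
    (h : ∀ v : QT q, lamQ hq (Qmk q p * v) = 0) : q ∣ p := by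
  rw [← modByMonic_eq_zero_iff_dvd hq]
  by_contra h0
  have hlt : (p %ₘ q).natDegree < q.natDegree :=
    natDegree_lt_natDegree h0 (degree_modByMonic_lt p hq)
  obtain ⟨m, hm⟩ := Nat.exists_eq_add_of_lt hlt
  have e := h (Qmk q (X ^ m))
  have e1 : (p * X ^ m) %ₘ q = p %ₘ q * X ^ m := by
    rw [modByMonic_eq_of_dvd_sub (p₂ := p %ₘ q * X ^ m) hq
      (by rw [← sub_mul]; exact (dvd_sub_comm.mp (dvd_modByMonic_sub p q)).mul_right _),
      modByMonic_eq_self_iff hq]
    refine degree_lt_degree ?_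
    rw [natDegree_mul_X_pow _ h0]
    omega
  rw [← map_mul, lamQ_mk, e1, hm, Nat.add_sub_cancel, coeff_mul_X_pow] at e
  exact h0 (leadingCoeff_eq_zero.mp e)

theorem ob_res {d : Fam R} {q : k[X]} (hq : q.Monic) (a : M d (Jq k q).V →ₗ[R] T) (ξ : ZZ d T)
    (h : IsRes d hq (FO.ofMd T) a (ZZ.v ξ)) : a = res d hq T ξ := M_ext fun b v => by
  refine (h b v).trans (Eq.trans ?_ (evm_gen _ _ ξ b v).symm)
  rw [ctr_apply]
  refine Finsupp.sum_congr fun l _ => ?_
  rw [ob_xpow]
  exact FO.smul_k (FO.ofMd T) _ _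

theorem ob_dvd {d : Fam R} {q : k[X]} (hq : q.Monic) (ξ : ZZ d T) :
    res d hq T ξ = 0 ↔ ∃ η : ZZ d T, ξ = q • η := by
  constructor
  · intro h
    have e : ∀ b, aeval (shift R T) q (ob_ext T (ob_div hq) (ZZ.v ξ b)) = ZZ.v ξ b := fun b =>
      sub_eq_zero.mp (ob_zero fun μ => by
        obtain ⟨p, hp⟩ := ob_nondeg hq (ob_pol μ (ZZ.v ξ b)) fun v => by
          rw [← ob_ctr, ← evm_gen, h, LinearMap.zero_apply, map_zero]
        rw [map_sub, ob_pol_aeval, ob_pol_ext, hp, sub_eq_zero]
        exact congrArg _ (mul_divByMonic_cancel_left p hq))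
    have hc : aeval (shift R T) q ∘ₗ shift R T = shift R T ∘ₗ aeval (shift R T) q := by
      have e3 := congrArg (aeval (shift R T)) (X_mul (p := q))
      rw [map_mul, map_mul, aeval_X] at e3
      exact e3.symm
    refine ⟨ZZ.mk (fun b => ob_ext T (ob_div hq) (ZZ.v ξ b)) (funext fun a => ob_tf hq.ne_zero ?_),
      ZZ.v_inj (funext fun b => ?_)⟩
    · have e1 := congrFun (Dop_nat (k := k) d _ _ _ hc fun b => ob_ext T (ob_div hq) (ZZ.v ξ b)) a
      refine e1.symm.trans ?_
      rw [funext e]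
      exact congrFun ξ.sol a
    · rw [ob_v]
      exact (e b).symm
  · rintro ⟨η, rfl⟩
    have e : XH.pol (Jq k q).V q = 0 := Subtype.ext (LinearMap.ext fun v => by
      have e1 : ∀ p : k[X], aeval (Jq k q).V.x p v = Qmk q p * v := fun p => by
        induction p using Polynomial.induction_on' with
        | add p p' hp hp' => rw [map_add, LinearMap.add_apply, hp, hp', map_add, add_mul]
        | monomial i c =>
          have e2 : Qmk q (c • X ^ i) = c • Qmk q (X ^ i) := rfl
          rw [← smul_X_eq_monomial, map_smul, aeval_X_pow, LinearMap.smul_apply, ob_xpow, e2,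
            smul_mul_assoc]
      refine (e1 q).trans ?_
      rw [show Qmk q q = 0 from Ideal.Quotient.eq_zero_iff_mem.mpr (Ideal.mem_span_singleton_self q),
        zero_mul]
      rfl)
    rw [evm_smul, e, map_zero, LinearMap.comp_zero]

end aux
end

theorem t_OB (k : Type u) [Field k] [IsAlgClosed k] (R : Type u) [Ring R] [Algebra k R]
    [FiniteDimensional k R]
    (L : Lib k) :
    S_OB k R := by
  have hker : ∀ (d : Fam R) (T : Md k R) (q : k[X]) (hq : q.Monic)
      (a : M d (Jq k q).V →ₗ[R] T), Bock d (Jq k q).V a (1 : QT q) = 0 →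
      ∃ ξ : ZZ d T, a = res d hq T ξ := fun d T q hq a ha => by
    obtain ⟨z, hz, h⟩ := (L.rep R).ker k d (FO.ofMd T) q hq a (mem_HomF_k _) ha
    exact ⟨ZZ.mk z hz, ob_res hq a _ h⟩
  have hb : ∀ (d : Fam R) (T : Md k R) (q : k[X]) (hq : q.Monic) (ξ : ZZ d T),
      Bock d (Jq k q).V (res d hq T ξ) = 0 := fun d T q hq ξ => by
    obtain ⟨a, -, h, h0⟩ := (L.rep R).res k d (FO.ofMd T) q hq (ZZ.v ξ) ξ.sol
    rwa [ob_res hq a ξ h] at h0
  refine ⟨fun d T q ξ hq h => ZZ.v_inj (funext fun b => ob_tf hq ?_),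
    fun d T q hq ξ => ob_dvd hq ξ, hker, hb, fun d Φ P T q hq a ha => ?_,
    fun e => ⟨(L.fd R).tek e, (L.cc R).te e⟩⟩
  · rw [← ob_v, h]
    rfl
  · obtain ⟨ξ, rfl⟩ := hker d T q hq a ha
    rw [← P.spec]
    exact hb d _ q hq _

end Pool.Agent.P.MP_cf639b_al
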