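import Pool.Agent.P.MP_cf639b_al.IfO

set_option linter.dupNamespace false

namespace Pool.Agent.P.MP_cf639b_al

universe u v
open TensorProduct Polynomial Function

section
variable {k : Type u} [Field k] {R : Type u} [Ring R] [Algebra k R]

theorem og_cmp_pow {d : Fam R} {Φ : AFun k R} {K : Type u} [Field K] [Algebra k K] {t : K}
    (ht : Transcendental k t⁻¹) {P : Tr d Φ} {P' : Tr d.rev Φ} {H H' : k[X]} (hH : H' ≠ 0)
    (h : Cmp t P P' H H') (s : ℕ) : Cmp t (P.pow s) (P'.pow s) (H ^ s) (H' ^ s) := by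
  have hne : aeval t⁻¹ H' ≠ 0 := fun e => ht ⟨H', hH, e⟩
  induction s with
  | zero =>
    intro T ξ η c e
    simp only [pow_zero, map_one, one_smul, one_mul]
    exact e
  | succ s ih =>
    intro T ξ η c e
    have h1 := h T ξ η c e
    have h2 : val d (Φ.obj T) t (P.t T ξ) =
        ((aeval t⁻¹ H')⁻¹ * (aeval t H * c)) • val d.rev (Φ.obj T) t⁻¹ (P'.t T η) := by
      rw [mul_smul, ← h1, smul_smul, inv_mul_cancel₀ hne, one_smul]
    have h3 := ih (Φ.obj T) _ _ _ h2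
    change aeval t⁻¹ (H' ^ (s + 1)) • val d ((Φ.it s).obj (Φ.obj T)) t
        ((P.pow s).t (Φ.obj T) (P.t T ξ)) = (aeval t (H ^ (s + 1)) * c) •
      val d.rev ((Φ.it s).obj (Φ.obj T)) t⁻¹ ((P'.pow s).t (Φ.obj T) (P'.t T η))
    rw [pow_succ', map_mul, mul_smul, h3, smul_smul]
    congr 1
    rw [pow_succ, map_mul]
    generalize aeval t⁻¹ H' = w at hne
    field_simp

theorem og_wd_mono {d : Fam R} {Φ : AFun k R} {P : Tr d Φ} {S : Finset k} {c c' : ℕ}
    (h : Wd P S c) (hc : c ≤ c') : Wd P S c' := by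
  obtain ⟨m, m', h1, h2, h3⟩ := h
  exact ⟨m, m', h1, h2, by omega⟩

theorem og_sum_mult [IsAlgClosed k] [DecidableEq k] {h : k[X]} (hh : h ≠ 0) :
    ∑ p ∈ h.roots.toFinset, rootMultiplicity p h = h.natDegree := by
  rw [← IsAlgClosed.card_roots_eq_natDegree, ← Multiset.toFinset_sum_count_eq]
  exact Finset.sum_congr rfl fun p _ => (count_roots h).symm

theorem og_mult_pow {h : k[X]} (hh : h ≠ 0) (p : k) (s : ℕ) :
    rootMultiplicity p (h ^ s) = s * rootMultiplicity p h := by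
  induction s with
  | zero => simp
  | succ s ih => rw [pow_succ, rootMultiplicity_mul (mul_ne_zero (pow_ne_zero _ hh) hh), ih]; ring
end

theorem t_OG (k : Type u) [Field k] [IsAlgClosed k] (R : Type u) [Ring R] [Algebra k R]
    [FiniteDimensional k R]
    (L : Lib k)
    (hCKrev : S_CKrev k R)
    (hL0 : S_L0 k R)
    (hOB : S_OB k R)
    (hOCMP : S_OCMP k R)
    (hOLC : S_OLC k R)
    (hOTW : S_OTW k R)
    (hOREV : S_OREV k R)
    (hOHL : S_OHL k R)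
    (hOMAIN : S_OMAIN k R) :
    S_O1 k R := by
  classical
  intro d K _ _ t ht hck
  obtain ⟨D, D', cp, cm, hw, hw'⟩ := hOCMP d K t ht hck
  obtain ⟨g, hg⟩ := hL0 d K t ht hck
  obtain ⟨g', hg'⟩ := hL0 d.rev K t⁻¹ (L.aut.gen_inv K t ht) (hCKrev d K t ht hck)
  have hHL : HLc k d := hOHL d g g' D hg hg'
  obtain ⟨a, -, twp, twm⟩ := hOTW d D
  have hti : Transcendental k t⁻¹ := (L.aut.gen_inv K t ht).1
  have hh : D.hp * D.hm ≠ 0 := mul_ne_zero D.hp0 D.hm0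
  set S := (D.hp * D.hm).roots.toFinset with hS
  choose c hc using hw
  obtain ⟨c0, hc0⟩ := hw' 0
  -- the two gains
  have key : ∀ s : ℕ, ∃ (mp mm : k → ℕ) (ip im : ℤ),
      (∀ p ∈ S, LATp (D.Pp.pow s) p (mp p)) ∧ LATi (D.Pp.pow s) ip ∧
      (∀ p ∈ S, LATp (D.Pm.pow s) p (mm p)) ∧ LATi (D.Pm.pow s) im ∧
      ip + im ≤ ((∑ p ∈ S, mp p : ℕ) : ℤ) + ((∑ p ∈ S, mm p : ℕ) : ℤ) +
        ((∑ p ∈ S, c p + c0 : ℕ) : ℤ) := by
    intro s
    choose mp mm h1 h2 h3 using fun p => hc p s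
    obtain ⟨rp, rm, r1, r2, r3⟩ := hc0 s
    refine ⟨mp, mm, _, _, fun p _ => h1 p,
      hOREV.lat d _ K t ht.1 _ _ _ _ rp (pow_ne_zero s D'.hp0)
        (og_cmp_pow hti D'.hp0 cp s) r1, fun p _ => h2 p,
      hOREV.lat d _ K t ht.1 _ _ _ _ rm (pow_ne_zero s D'.hm0)
        (og_cmp_pow hti D'.hm0 cm s) r2, ?_⟩
    have e1 : s * (D.hp * D.hm).natDegree ≤ ∑ p ∈ S, mp p + ∑ p ∈ S, mm p + ∑ p ∈ S, c p := by
      rw [← og_sum_mult hh, Finset.mul_sum, ← Finset.sum_add_distrib, ← Finset.sum_add_distrib]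
      exact Finset.sum_le_sum fun p _ => h3 p
    rw [natDegree_mul D.hp0 D.hm0, mul_add] at e1
    rw [rootMultiplicity_mul (mul_ne_zero D'.hp0 D'.hm0), mul_add] at r3
    rw [natDegree_pow, natDegree_pow, og_mult_pow D'.hp0, og_mult_pow D'.hm0]
    omega
  have fin : ∀ (e : Bool) (P : Tr d (Te e : AFun k R)), TWc P (D.hp * D.hm) a →
      (∃ c, ∀ s, Wd (P.pow s) S c) → ∃ (e : Bool) (a : ℕ), ∀ m,
        Short d a ((Tn e m).obj (T0 k R)) := by
    rintro e P tw ⟨c, hc⟩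
    obtain ⟨a', ha'⟩ := hOMAIN d _ P _ a c S (hOB.nice e) hh tw hHL hc _ (L.fd R).t0k
    refine ⟨e, a', fun m => ?_⟩
    have := ha' m
    rwa [AFun.it_eq] at this
  by_cases hA : ∃ s0, 1 ≤ s0 ∧ Wd (D.Pm.pow s0) S 0
  · obtain ⟨s0, hs0, hW⟩ := hA
    have h1 : ∀ r, ∃ c, Wd (D.Pm.pow r) S c := by
      intro r
      obtain ⟨-, mm, -, im, -, -, h1, h2, -⟩ := key r
      exact ⟨im.toNat, mm, im, h1, h2, by omega⟩
    choose cr hcr using h1
    refine fin false D.Pm twm ⟨∑ r ∈ Finset.range s0, cr r, fun s => ?_⟩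
    induction s using Nat.strong_induction_on with
    | _ s ih =>
      by_cases hs : s < s0
      · exact og_wd_mono (hcr s)
          (Finset.single_le_sum (fun _ _ => Nat.zero_le _) (Finset.mem_range.mpr hs))
      · obtain ⟨s', rfl⟩ : ∃ s', s = s0 + s' := ⟨s - s0, by omega⟩
        exact D.Pm.pow_add s0 s' (fun _ P => Wd P S _)
          (hOLC.wd d _ _ _ _ S _ 0 (ih s' (by omega)) hW)
  · refine fin true D.Pp twp ⟨∑ p ∈ S, c p + c0, fun s => ?_⟩
    rcases Nat.eq_zero_or_pos s with rfl | hs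
    · exact og_wd_mono (hOLC.id d S) (Nat.zero_le _)
    · obtain ⟨mp, mm, ip, im, h1, h2, h3, h4, h5⟩ := key s
      refine ⟨mp, ip, h1, h2, ?_⟩
      by_contra hn
      exact hA ⟨s, hs, mm, im, h3, h4, by omega⟩

end Pool.Agent.P.MP_cf639b_al
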