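import Pool.Agent.P.MP_cf639b_al.IfO

set_option linter.dupNamespace false

namespace Pool.Agent.P.MP_cf639b_al

universe u v
open TensorProduct Polynomial Function

section
variable {k : Type u} [Field k] {R : Type u} [Ring R] [Algebra k R] [FiniteDimensional k R]

theorem oha_fin (hN : S_NOE k R) (hB : S_BOCK k R) (d : Fam R) {F : Type u} [Field F]
    [Algebra k F] (A : FO k R F) (hA : A.fd) :
    ∃ s : Finset k, ∀ y ∉ s, Injective (piK d y A.X) := by
  classical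
  haveI := hN.fin F d A hA
  obtain ⟨P, h1, h2⟩ := Submodule.annihilator_top_inter_nonZeroDivisors
    (Submodule.torsion_isTorsion (R := F[X]) (M := Module.AEval' (EXF d A)))
  have hP : P ≠ 0 := nonZeroDivisors.ne_zero h2
  refine ⟨P.roots.toFinset.preimage (algebraMap k F) (algebraMap k F).injective.injOn,
    fun y hy => ?_⟩
  rw [Finset.mem_preimage, Multiset.mem_toFinset, mem_roots hP] at hy
  rw [injective_iff_map_eq_zero]
  intro u hu
  have hx : polE d A (X - C (algebraMap k F y)) u = 0 := by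
    have := hB.piE_pol F d (algebraMap k F y) A 1 u
    rw [pow_one, pow_one, hB.piE_k, hu] at this
    exact this
  have h3 : Module.AEval'.of (EXF d A) u ∈
      Submodule.torsion F[X] (Module.AEval' (EXF d A)) :=
    ⟨⟨_, mem_nonZeroDivisors_of_ne_zero (X_sub_C_ne_zero (algebraMap k F y))⟩, hx⟩
  have h4 : polE d A P u = 0 :=
    congrArg Subtype.val (Submodule.mem_annihilator.1 h1 ⟨_, h3⟩ Submodule.mem_top)
  obtain ⟨Q, hQ⟩ := X_sub_C_dvd_sub_C_eval (a := algebraMap k F y) (p := P)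
  have h5 : polE d A (P - C (P.eval (algebraMap k F y))) u = 0 := by
    rw [hQ, mul_comm, polE, map_mul, Module.End.mul_apply]
    exact (congrArg _ hx).trans (map_zero _)
  rw [polE, map_sub, LinearMap.sub_apply, aeval_C] at h5
  rw [polE] at h4
  rw [h4, zero_sub, neg_eq_zero, Module.algebraMap_end_apply] at h5
  exact (smul_eq_zero.mp h5).resolve_left hy

theorem oha_res (hB : S_BOCK k R) (hOB : S_OB k R) (d : Fam R) (y : k) (b : ℕ) {W : Md k R}
    (hW : Injective (piK d y W)) (ψ : M d (J k y b).V →ₗ[R] W) :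
    ∃ ζ, ψ = res d (Jmonic y b) W ζ := by
  refine hOB.ker d W _ (Jmonic y b) ψ ?_
  have h1 := hB.ej_zero k d y b
  have h2 := hB.piE_k k d y (MF d (J k y b))
  rw [Algebra.algebraMap_self, RingHom.id_apply] at h2
  rw [h2] at h1
  have h3 := hB.emap_piK d y _ W ψ b (eJ d y b)
  erw [h1] at h3
  rw [map_zero] at h3
  have h4 : Injective (piK d y W ^ b) := by
    rw [Module.End.coe_pow]
    exact hW.iterate b
  rw [hB.eq]
  exact h4 (h3.symm.trans (map_zero _).symm)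

theorem oha_short (hF : S_FD k R) (hN : S_NOE k R) (d : Fam R) (T : Md k R) (hT : T.fd) :
    ∃ a, Short d a T := hN.short k d (FO.ofMd T) ((hF.ofk _).mpr hT)

/-- a `k`-linear functional on `Hom` as a functional on `HomF` -/
def oha_fun (A B : FO k R k) (H : (A.X →ₗ[R] B.X) →ₗ[k] k) : HomF A B →ₗ[k] k where
  toFun ψ := H ψ.1
  map_add' _ _ := H.map_add _ _
  map_smul' c ψ := by
    refine Eq.trans (congrArg H ?_) (H.map_smul c ψ.1)
    exact LinearMap.ext fun t => FO.smul_k B c _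

theorem oha_dvd {q P : k[X]} (hq : q.Monic) (h : ∀ c : k[X], lamQ hq (Qmk q (c * P)) = 0) :
    q ∣ P := by
  by_contra hn
  have hr : P %ₘ q ≠ 0 := fun e => hn ((modByMonic_eq_zero_iff_dvd hq).mp e)
  have hlt : (P %ₘ q).natDegree < q.natDegree :=
    natDegree_lt_natDegree hr (degree_modByMonic_lt P hq)
  set r := P %ₘ q with hrdef
  have h1 := h (X ^ (q.natDegree - 1 - r.natDegree))
  have e : Qmk q (X ^ (q.natDegree - 1 - r.natDegree) * P) =
      Qmk q (X ^ (q.natDegree - 1 - r.natDegree) * r) := by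
    rw [map_mul, map_mul]
    congr 1
    rw [Ideal.Quotient.eq, Ideal.mem_span_singleton]
    exact ⟨P /ₘ q, by rw [hrdef, sub_eq_iff_eq_add, add_comm, modByMonic_add_div]⟩
  rw [e, lamQ_mk, (modByMonic_eq_self_iff hq).mpr] at h1
  · rw [coeff_X_pow_mul', if_pos (by omega)] at h1
    have : q.natDegree - 1 - (q.natDegree - 1 - r.natDegree) = r.natDegree := by omega
    rw [this] at h1
    exact hr (leadingCoeff_eq_zero.mp h1)
  · refine degree_lt_degree ?_
    rw [natDegree_mul (pow_ne_zero _ X_ne_zero) hr, natDegree_X_pow]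
    omega
end

theorem t_OHA (k : Type u) [Field k] [IsAlgClosed k] (R : Type u) [Ring R] [Algebra k R]
    [FiniteDimensional k R]
    (L : Lib k)
    (hOB : S_OB k R) :
    S_OHA k R := by
  classical
  intro d D a hRP K _ _ A1 A2 hA1 hA2
  have hF := L.fd R
  have hN := L.noe R
  have hB := L.bock R
  have hC := L.cc R
  obtain ⟨a0, ha0⟩ := oha_short hF hN d _ (hF.tek false _ hF.t0k)
  obtain ⟨b1, hb1⟩ := hN.short K d _ (hF.te K false A1 hA1)
  obtain ⟨b2, hb2⟩ := hN.short K d _ (hF.te K false A2 hA2)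
  obtain ⟨s1, hs1⟩ := oha_fin hN hB d A1 hA1
  obtain ⟨s2, hs2⟩ := oha_fin hN hB d A2 hA2
  obtain ⟨f0, hf0, hnt⟩ := L.notor R d _ hF.t0k
  refine ⟨a + a0 + b1 + b2, fun T hT φ hφ f hf b => ?_⟩
  obtain ⟨s0, hs0⟩ := oha_fin hN hB d (FO.ofMd (Tp.obj T)) ((hF.ofk _).mpr (hF.tek true T hT))
  have hh : D.hp * D.hm ≠ 0 := mul_ne_zero D.hp0 D.hm0
  have hne : f * (D.hp * D.hm) * f0 ≠ 0 := mul_ne_zero (mul_ne_zero hf hh) hf0
  obtain ⟨y, hy⟩ := Infinite.exists_notMem_finset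
    (s0 ∪ s1 ∪ s2 ∪ (f * (D.hp * D.hm) * f0).roots.toFinset)
  simp only [Finset.mem_union, not_or, Multiset.mem_toFinset, mem_roots hne, IsRoot.def] at hy
  obtain ⟨⟨⟨y0, y1⟩, y2⟩, y3⟩ := hy
  rw [eval_mul, eval_mul] at y3
  have yf : f.eval y ≠ 0 := left_ne_zero_of_mul (left_ne_zero_of_mul y3)
  have yh : (D.hp * D.hm).eval y ≠ 0 := right_ne_zero_of_mul (left_ne_zero_of_mul y3)
  have yf0 : f0.eval y ≠ 0 := right_ne_zero_of_mul y3
  have hq := Jmonic y b
  set B : Md k R := M d (J k y b).V with hBdef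
  have hBfd : B.fd := (hF.mfd d _ (by
    exact (Module.Finite.of_basis (AdjoinRoot.powerBasis' hq).basis :
      Module.Finite k (QT ((X - C y) ^ b))))).1
  -- the functional
  let ψ0 : ZZ d (Tp.obj T) →ₗ[k[X]] k[X] := φ ∘ₗ zmap d (eps T) ∘ₗ D.Pm.t (Tp.obj T)
  let lam : k[X] →ₗ[k] k := lamQ hq ∘ₗ (Ideal.Quotient.mkₐ k _).toLinearMap
  have hlam : ∀ P, lam P = lamQ hq (Qmk _ P) := fun _ => rfl
  obtain ⟨sec, hsec⟩ := (res d hq (Tp.obj T)).exists_rightInverse_of_surjective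
    (LinearMap.range_eq_top.mpr fun ψ => by
      obtain ⟨ζ, h⟩ := oha_res hB hOB d y b (hs0 y y0) ψ
      exact ⟨ζ, h.symm⟩)
  let H : (B →ₗ[R] Tp.obj T) →ₗ[k] k := lam ∘ₗ ψ0.restrictScalars k ∘ₗ sec
  have hH : ∀ ζ, H (res d hq _ ζ) = lam (ψ0 ζ) := by
    intro ζ
    obtain ⟨η, hη⟩ := (hOB.div d _ _ hq (sec (res d hq _ ζ) - ζ)).mp (by
      rw [map_sub, sub_eq_zero]; exact LinearMap.congr_fun hsec _)
    change lam (ψ0 (sec (res d hq _ ζ))) = _
    rw [sub_eq_iff_eq_add.mp hη, map_add, map_add, map_smul, hlam (_ • _), smul_eq_mul, map_mul,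
      Ideal.Quotient.eq_zero_iff_mem.mpr (Ideal.mem_span_singleton_self _), zero_mul, map_zero,
      zero_add]
  have kill : ∀ (W : Md k R), Injective (piK d y W) → Short d (a + a0 + b1 + b2) (Tm.obj W) →
      ∀ (r : B →ₗ[R] W) (ψ : W →ₗ[R] Tp.obj T), H (ψ ∘ₗ r) = 0 := by
    intro W h1 h2 r ψ
    obtain ⟨ρ, rfl⟩ := oha_res hB hOB d y b h1 r
    rw [← evm_zmap, hH]
    change lam (φ (zmap d (eps T) (D.Pm.t _ (zmap d ψ ρ)))) = 0
    rw [D.Pm.nat, hφ _ (Zs_zmap _ (Zs_zmap _ (short_iff.mp h2 _))), map_zero]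
  obtain ⟨Z, i, p, -, -, -, hi, hex, hp, hE1, hE2⟩ := L.ext R k (FO.ofMd T) (FO.ofMd B)
    ((hF.ofk _).mpr hT) ((hF.ofk _).mpr hBfd)
    (oha_fun (FO.ofMd B) (Tp.onF (FO.ofMd T)) H) (by
      rintro ⟨ψ, hψ⟩ ⟨g, -, rfl⟩
      refine kill (IA.obj B) ?_ ?_ _ g
      · have := hnt k (FO.ofMd (IA.obj B)) (hC.ia B) (algebraMap k k y) (by simpa using yf0)
        rwa [hB.piE_k] at this
      · exact hC.short d _ _ _ (hC.te false _ _ (hC.ia B))
          (hN.short_mono d _ _ _ (by omega) ha0))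
  refine ⟨y, Z.X, i, p, yf, hi, hex, hp, fun r => ?_, fun r => ?_, fun ξ' => ?_⟩
  · obtain ⟨r', -, h⟩ := (hE1 (FO.ofMd A1.X) r (mem_HomF_k _)).mpr fun ψ _ =>
      kill A1.X (hs1 y y1) (hN.short_mono d _ _ _ (by omega) hb1) r ψ
    exact ⟨r', h⟩
  · obtain ⟨r', -, h⟩ := (hE1 (FO.ofMd A2.X) r (mem_HomF_k _)).mpr fun ψ _ =>
      kill A2.X (hs2 y y2) (hN.short_mono d _ _ _ (by omega) hb2) r ψ
    exact ⟨r', h⟩
  · have h1 : (X - C y) ^ b ∣ D.hp * D.hm * φ (zmap d p ξ') := by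
      refine oha_dvd hq fun c => ?_
      have h2 := (hE2 (FO.ofMd B) (res d hq T (zmap d p (c • ξ'))) (mem_HomF_k _)).mp
        ⟨res d hq Z.X (c • ξ'), mem_HomF_k _, (evm_zmap _ _ _ _).symm⟩
        (D.Pp.A (J k y b).V) (mem_HomF_k _)
      change H (Tp.map (res d hq T (zmap d p (c • ξ'))) ∘ₗ D.Pp.A (J k y b).V) = 0 at h2
      rw [← D.Pp.spec, hH] at h2
      have h3 := hφ _ (Zs_mono (by omega) (hRP T (zmap d p (c • ξ'))))
      rw [map_sub, sub_eq_zero] at h3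
      change lam (φ (zmap d (eps T) (D.Pm.t _ (D.Pp.t T _)))) = 0 at h2
      rw [h3, φ.map_smul, (zmap d p).map_smul, φ.map_smul, smul_eq_mul, smul_eq_mul,
        mul_left_comm] at h2
      exact h2
    refine IsCoprime.dvd_of_dvd_mul_left (IsCoprime.pow_left ?_) h1
    exact (irreducible_X_sub_C y).coprime_iff_not_dvd.mpr fun h => yh (dvd_iff_isRoot.mp h)

end Pool.Agent.P.MP_cf639b_al
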