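import Pool.Agent.P.MP_cf639b_al.IfO

set_option linter.dupNamespace false

namespace Pool.Agent.P.MP_cf639b_al

universe u v
open TensorProduct Polynomial Function

section aux
variable {k : Type u} [Field k]

theorem ohl_mul {A : Type u} [CommRing A] [Algebra k A] (a : A) (p : k[X]) (v : A) :
    aeval (LinearMap.mulLeft k a : Module.End k A) p v = aeval a p * v :=
  LinearMap.congr_fun (aeval_algHom_apply (Algebra.lmul k A) a p) v

theorem ohl_inv {A : Type u} [CommRing A] [Algebra k A] (x : A) (y : k) (hy : y ≠ 0) (b : ℕ)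
    (h : (x - algebraMap k A y) ^ b = 0) :
    ∃ w : A, x * w = 1 ∧ (w - algebraMap k A y⁻¹) ^ b = 0 := by
  have h1 : IsUnit (x - algebraMap k A y + algebraMap k A y) :=
    IsNilpotent.isUnit_add_right_of_commute ⟨b, h⟩ ((IsUnit.mk0 y hy).map (algebraMap k A))
      (Commute.all _ _)
  rw [sub_add_cancel] at h1
  obtain ⟨w, hw⟩ := h1.exists_right_inv
  have h2 : algebraMap k A y⁻¹ * algebraMap k A y = 1 := by
    rw [← map_mul, inv_mul_cancel₀ hy, map_one]
  have e : w - algebraMap k A y⁻¹ = -(w * algebraMap k A y⁻¹) * (x - algebraMap k A y) := by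
    linear_combination (algebraMap k A y⁻¹) * hw - w * h2
  exact ⟨w, hw, by rw [e, mul_pow, h, mul_zero]⟩

variable {R : Type u} [Ring R] [Algebra k R] [FiniteDimensional k R]

theorem ohl_kill (hB : S_BOCK k R) {d : Fam R} {g : k[X]} (hg : L0c d g) (V : XV k) (q : k[X])
    (hq : ∀ v : V, aeval V.x q v = 0) (u : EE d (M d V))
    (hu : ∃ H : k[X], H ≠ 0 ∧ aeval (EX d (M d V)) H u = 0) :
    aeval (EX d (M d V)) (q * g) u = 0 := by
  obtain ⟨H, h0, h1⟩ := hu
  obtain ⟨v, hv⟩ := hg.2 V u H h0 h1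
  rw [map_mul, Module.End.mul_apply, hv, ← hB.pol, hq, map_zero]

end aux

theorem t_OHL (k : Type u) [Field k] [IsAlgClosed k] (R : Type u) [Ring R] [Algebra k R]
    [FiniteDimensional k R]
    (L : Lib k)
    (hOVAL : S_OVAL k R)
    (hOTW : S_OTW k R)
    (hOREV : S_OREV k R)
    (hOSN : S_OSN k R)
    (hOGAM : S_OGAM k R)
    (hOHA : S_OHA k R) :
    S_OHL k R := by
  intro d g g' D hg hg'
  obtain ⟨a, ha, -⟩ := hOTW d D
  obtain ⟨K, _, _, t, hK⟩ := hOGAM
  obtain ⟨a1, h1⟩ := hOHA d D a ha K (YF d (one k t)) (YF d.rev (one k t))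
    ((L.fd R).y K d _ ((L.fd R).one K t).1) ((L.fd R).y K d.rev _ ((L.fd R).one K t).1)
  refine ⟨a1, rootMultiplicity 0 g', g, hg.1, fun T hT φ hφ f hf b => ?_⟩
  obtain ⟨y, T', i, p, hy, hi, hex, hp, r1, r2, h3⟩ :=
    h1 T hT φ hφ (f * X) (mul_ne_zero hf X_ne_zero) b
  rw [eval_mul, eval_X] at hy
  have hy0 : y ≠ 0 := right_ne_zero_of_mul hy
  have hx : (Jmk y b X - algebraMap k (JT y b) y) ^ b = 0 := by
    have e : Jmk y b ((X - C y) ^ b) = 0 :=
      Ideal.Quotient.eq_zero_iff_mem.2 (Ideal.mem_span_singleton_self _)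
    rw [map_pow, map_sub] at e
    exact e
  refine ⟨T', p, y, left_ne_zero_of_mul hy, fun ξ => ?_, ?_, h3⟩
  · obtain ⟨u, hu, h⟩ := hOSN d _ T' T i p hi hex hp ξ
    refine h _ (ohl_kill (L.bock R) hg (J k y b).V _ (fun v => ?_) u (hK d _ T' i r1 u hu))
    refine (ohl_mul (Jmk y b X) _ v).trans ?_
    rw [map_pow, map_sub, aeval_X, aeval_C, hx, zero_mul]
  · obtain ⟨w, hw, hw0⟩ := ohl_inv _ y hy0 b hx
    obtain ⟨ρ, ρ', -, -, hρ, -⟩ := hOVAL.rho d (J k y b).V (LinearMap.mulLeft k w)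
      (LinearMap.ext fun v => by
        change Jmk y b X * (w * v) = v
        rw [← mul_assoc, hw, one_mul])
      (LinearMap.ext fun v => by
        change w * (Jmk y b X * v) = v
        rw [← mul_assoc, mul_comm w, hw, one_mul])
    have hq : ((X - C y⁻¹) ^ b : k[X]) ≠ 0 := pow_ne_zero _ (X_sub_C_ne_zero _)
    have hH : (X - C y⁻¹) ^ b * g' ≠ 0 := mul_ne_zero hq hg'.1
    have hm : rootMultiplicity 0 ((X - C y⁻¹) ^ b * g') = rootMultiplicity 0 g' := by
      rw [rootMultiplicity_mul hH, rootMultiplicity_eq_zero, zero_add]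
      simp [hy0]
    rw [← hm]
    refine hOREV.pull d T T' p _ hH fun η => ?_
    obtain ⟨u, hu, h⟩ := hOSN d.rev _ T' T i p hi hex hp η
    obtain ⟨H, hH0, hH1⟩ := hK d.rev _ T' i r2 u hu
    have h4 := ohl_kill (L.bock R) hg' ⟨(J k y b).V.T, LinearMap.mulLeft k w⟩ ((X - C y⁻¹) ^ b)
      (fun v => (ohl_mul w _ v).trans (by
        rw [map_pow, map_sub, aeval_X, aeval_C, hw0, zero_mul])) (Emap d.rev ρ u)
      ⟨H, hH0, by rw [← (L.bock R).emap_pol, hH1, map_zero]⟩
    refine h _ ?_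
    rw [← (L.bock R).emap_pol] at h4
    have h5 := congrArg (Emap d.rev ρ') h4
    rwa [← LinearMap.comp_apply, ← Emap_comp, hρ, Emap_id, map_zero] at h5

end Pool.Agent.P.MP_cf639b_al
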