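import Pool.Agent.P.MP_cf639b_al.IfO

set_option linter.dupNamespace false

namespace Pool.Agent.P.MP_cf639b_al

universe u v
open TensorProduct Polynomial Function

section aux
variable {k : Type u} [Field k] {R : Type u} [Ring R] [Algebra k R]

/-- the universal solution of bounded degree -/
theorem olc_univ (d : Fam R) (σ : ℕ) : ∃ (N : Md k R) (ζ : ZZ d N),
    ∀ T : Md k R, ∀ ξ ∈ Zd d σ T, ∃ g : N →ₗ[R] T, zmap d g ζ = ξ := by
  let Fr : Md k R := ⟨(Fin d.n0 × ℕ) →₀ R⟩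
  let z : Fin d.n0 → ℕ →₀ Fr := fun b => Finsupp.onFinset (Finset.range (σ + 1))
    (fun l => if l ≤ σ then Finsupp.single (b, l) (1 : R) else 0) fun l hl => by
      rw [Finset.mem_range]
      by_contra h
      exact hl (if_neg (by omega))
  let S : Submodule R Fr := Submodule.span R {t | ∃ a l, t = DX d Fr z a l}
  have key : ∀ (T : Md k R) (g : Fr →ₗ[R] T) a l,
      DX d T (fun b => Finsupp.mapRange.linearMap g (z b)) a l = g (DX d Fr z a l) :=
    fun T g a l => by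
      have := Dop_nat (k := k) d _ _ _ (mapRange_shift g) z
      exact congrArg (fun w => w a l) this
  refine ⟨Fr.quo S, ZZ.mk (fun b => Finsupp.mapRange.linearMap S.mkQ (z b)) ?_,
    fun T ξ hξ => ?_⟩
  · refine funext fun a => Finsupp.ext fun l => (key (Fr.quo S) S.mkQ a l).trans ?_
    exact (Submodule.Quotient.mk_eq_zero _).2 (Submodule.subset_span ⟨a, l, rfl⟩)
  · let g : Fr →ₗ[R] T := Finsupp.linearCombination R fun p => ZZ.v ξ p.1 p.2
    have hg : ∀ b l, g (z b l) = ZZ.v ξ b l := fun b l => by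
      change g (if l ≤ σ then Finsupp.single (b, l) (1 : R) else 0) = _
      split_ifs with h
      · exact (Finsupp.linearCombination_single _ _ _).trans (one_smul _ _)
      · rw [map_zero, hξ b l (by omega)]
    refine ⟨S.liftQ g (Submodule.span_le.2 ?_), ZZ.ext hg⟩
    rintro _ ⟨a, l, rfl⟩
    have e : (fun b => Finsupp.mapRange.linearMap g (z b)) = ZZ.v ξ :=
      funext fun b => Finsupp.ext (hg b)
    refine (key T g a l).symm.trans ?_
    rw [e, ξ.sol]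
    rfl

theorem olc_sh (d : Fam R) (Φ : AFun k R) (P : Tr d Φ) (σ : ℕ) : ∃ σ' : ℕ,
    ∀ T : Md k R, ∀ ξ ∈ Zs d σ T, P.t T ξ ∈ Zs d σ' (Φ.obj T) := by
  obtain ⟨N, ζ, h⟩ := olc_univ (k := k) d σ
  obtain ⟨σ', h'⟩ := exists_Zd (P.t N ζ)
  refine ⟨σ', fun T ξ hξ => Zs_le (P.t T) _ (fun η hη => ?_) hξ⟩
  obtain ⟨g, rfl⟩ := h T η hη
  rw [P.nat]
  exact Zd_le_Zs (Zd_zmap _ h')

theorem olc_p {d : Fam R} {Φ Ψ : AFun k R} {P : Tr d Φ} {Q : Tr d Ψ} {p : k} {m m' : ℕ}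
    (h : LATp P p m) (h' : LATp Q p m') : LATp (Q.comp P) p (m + m') := by
  obtain ⟨s, h⟩ := h
  obtain ⟨s', h'⟩ := h'
  obtain ⟨s1, h1⟩ := olc_sh d Ψ Q s
  refine ⟨max s1 s', fun T ξ => ?_⟩
  obtain ⟨η, hη⟩ := h T ξ
  obtain ⟨η', hη'⟩ := h' _ η
  refine ⟨η', ?_⟩
  have a1 := Zs_mono (le_max_left s1 s') (h1 _ _ hη)
  have a2 := Submodule.smul_mem _ ((X - C p) ^ m : k[X]) (Zs_mono (le_max_right s1 s') hη')
  have a3 := add_mem a1 a2
  rw [map_sub, map_smul, smul_sub, sub_add_sub_cancel, smul_smul, ← pow_add] at a3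
  exact a3

theorem olc_i {d : Fam R} {Φ Ψ : AFun k R} {P : Tr d Φ} {Q : Tr d Ψ} {m m' : ℤ}
    (h : LATi P m) (h' : LATi Q m') : LATi (Q.comp P) (m + m') := by
  obtain ⟨s, h⟩ := h
  obtain ⟨s', h'⟩ := h'
  obtain ⟨s1, h1⟩ := olc_sh d Ψ Q s
  refine ⟨max s1 s', fun T n ξ hξ => ?_⟩
  obtain ⟨q, N, hq, hN, η, hη, e⟩ := h T n ξ hξ
  obtain ⟨q', N', hq', hN', η', hη', e'⟩ := h' _ N η hη
  refine ⟨q' * q, N', mul_ne_zero hq' hq, ?_, η', hη', ?_⟩
  · rw [natDegree_mul hq' hq]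
    push_cast
    omega
  · have a1 := Submodule.smul_mem _ q' (Zs_mono (le_max_left s1 s') (h1 _ _ e))
    have a3 := add_mem a1 (Zs_mono (le_max_right s1 s') e')
    rw [map_sub, map_smul, smul_sub, sub_add_sub_cancel, smul_smul] at a3
    exact a3

theorem olc_pol (q h r : k[X]) : aeval (Jq k q).V.x h (Qmk q r) = Qmk q (h * r) := by
  have h1 := Polynomial.aeval_algHom_apply (Algebra.lmul k (QT q)) (Qmk q X) h
  have h2 := Polynomial.aeval_algHom_apply (Ideal.Quotient.mkₐ k (Ideal.span {q})) X h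
  rw [aeval_X_left_apply] at h2
  refine (LinearMap.congr_fun h1 _).trans ?_
  rw [map_mul]
  exact congrArg (· * Qmk q r) h2

theorem olc_jm (p : k) (N o : ℕ) :
    XH.comp (jm k p N o) (XH.pol (J k p N).V ((X - C p) ^ o)) = 0 := by
  refine Subtype.ext (LinearMap.ext fun v => ?_)
  obtain ⟨r, rfl⟩ := Ideal.Quotient.mk_surjective v
  change (jm k p N o).1 (aeval (J k p N).V.x ((X - C p) ^ o) (Jmk p N r)) = (0 : JT p o)
  rw [olc_pol, jm_mk, Ideal.Quotient.eq_zero_iff_mem]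
  exact Ideal.mul_mem_left _ _ (Ideal.mul_mem_right _ _ (Ideal.mem_span_singleton_self _))

end aux

theorem t_OLC (k : Type u) [Field k] [IsAlgClosed k] (R : Type u) [Ring R] [Algebra k R]
    [FiniteDimensional k R]
    (L : Lib k)
    (hOB : S_OB k R) :
    S_OLC k R := by
  refine ⟨olc_sh, ?_, fun d S => ?_, fun d Φ P p N o ho hz => ?_⟩
  · rintro d Φ Ψ P Q S c c' ⟨m, n, h1, h2, h3⟩ ⟨m', n', h1', h2', h3'⟩
    refine ⟨fun p => m p + m' p, n + n', fun p hp => olc_p (h1 p hp) (h1' p hp), olc_i h2 h2', ?_⟩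
    rw [Finset.sum_add_distrib]
    push_cast at h3 h3' ⊢
    omega
  · refine ⟨fun _ => 0, 0, fun p _ => ⟨0, fun T ξ => ⟨ξ, ?_⟩⟩,
      ⟨0, fun T n ξ hξ => ⟨1, n, one_ne_zero, by simp, ξ, hξ, ?_⟩⟩, by simp⟩
    · change ξ - ((X - C p) ^ 0 : k[X]) • ξ ∈ Zs d 0 T
      rw [pow_zero, one_smul, sub_self]
      exact zero_mem _
    · rw [one_smul]
      exact (sub_self ξ).symm ▸ zero_mem _
  · have B := L.bock R
    obtain ⟨h0, e0⟩ := (L.rep R).repk d _ p o _ hz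
    obtain ⟨ζ, hζ⟩ := hOB.ker d _ _ (Jmonic p N)
      (P.A (J k p N).V - h0 ∘ₗ (MN d).map (jm k p N o)) (by
        have h1 := B.ej_map k d p N o
        rw [Nat.sub_eq_zero_of_le ho, pow_zero, Module.End.one_apply] at h1
        rw [B.eq, map_sub, LinearMap.sub_apply, sub_eq_zero, Emap_comp, LinearMap.comp_apply]
        exact e0.trans (congrArg _ h1.symm))
    obtain ⟨σ, hσ⟩ := exists_Zd ζ
    refine ⟨σ, fun T ξ => ?_⟩
    set β := res d (Jmonic p N) T ξ with hβ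
    obtain ⟨η, hη⟩ := (hOB.div d (Φ.obj T) _ (Jmonic p N)
      (((X - C p) ^ o : k[X]) • (P.t T ξ - zmap d (Φ.map β) ζ))).1 (by
        have h1 : res d (Jmonic p N) (Φ.obj T) (P.t T ξ - zmap d (Φ.map β) ζ) =
            Φ.map β ∘ₗ h0 ∘ₗ (MN d).map (jm k p N o) := by
          rw [map_sub, P.spec, evm_zmap, ← hβ, ← LinearMap.comp_sub]
          refine congrArg _ ?_
          rw [sub_eq_iff_eq_add, ← sub_eq_iff_eq_add']
          exact hζ
        rw [evm_smul]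
        refine (congrArg (· ∘ₗ _) h1).trans ?_
        beta_reduce
        rw [LinearMap.comp_assoc, LinearMap.comp_assoc, ← (MN d).map_comp, olc_jm, map_zero,
          LinearMap.comp_zero, LinearMap.comp_zero])
    have h2 := hOB.tf d (Φ.obj T) ((X - C p) ^ o)
      (P.t T ξ - zmap d (Φ.map β) ζ - ((X - C p) ^ (N - o) : k[X]) • η) (Jmonic p o).ne_zero (by
        rw [smul_sub, hη, smul_smul, ← pow_add, Nat.add_sub_cancel' ho, sub_self])
    refine ⟨η, ?_⟩
    rw [sub_right_comm, sub_eq_zero] at h2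
    rw [h2]
    exact Zd_le_Zs (Zd_zmap _ hσ)

end Pool.Agent.P.MP_cf639b_al
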