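import Pool.Agent.P.MP_cf639b_al.IfO

set_option linter.dupNamespace false

namespace Pool.Agent.P.MP_cf639b_al

universe u v
open TensorProduct Polynomial Function

noncomputable section
variable {k : Type u} [Field k] {R : Type u} [Ring R] [Algebra k R] {d : Fam R} {Φ : AFun k R}

/-- the solutions which come from short solutions -/
def omain_Sh (P : Tr d Φ) (A : ℕ) :
    ∀ (s : ℕ) (T : Md k R), Submodule k[X] (ZZ d ((Φ.it s).obj T))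
  | 0, T => Zs d A T
  | s + 1, T => (omain_Sh P A s (Φ.obj T) ⊔ (Zs d A T).map ((P.pow s).t (Φ.obj T) ∘ₗ P.t T) :
      Submodule k[X] (ZZ d ((Φ.it s).obj (Φ.obj T))))

variable (P : Tr d Φ) {A : ℕ}

theorem omain_mem {s : ℕ} {T : Md k R} {w : ZZ d ((Φ.it s).obj (Φ.obj T))} :
    w ∈ omain_Sh P A (s + 1) T ↔ ∃ w1 ∈ omain_Sh P A s (Φ.obj T), ∃ ξ ∈ Zs d A T,
      w1 + (P.pow s).t (Φ.obj T) (P.t T ξ) = w :=
  (Submodule.mem_sup (p := omain_Sh P A s (Φ.obj T))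
    (p' := (Zs d A T).map ((P.pow s).t (Φ.obj T) ∘ₗ P.t T))).trans
    ⟨fun ⟨a, b, _, ⟨ξ, c, e⟩, f⟩ => ⟨a, b, ξ, c, e ▸ f⟩, fun ⟨a, b, ξ, c, e⟩ => ⟨a, b, _, ⟨ξ, c, rfl⟩, e⟩⟩

theorem omain_i (s : ℕ) (T : Md k R) {ξ : ZZ d T} (h : ξ ∈ Zs d A T) :
    (P.pow s).t T ξ ∈ omain_Sh P A s T := by
  cases s with
  | zero => exact h
  | succ s => exact (omain_mem P).2 ⟨0, zero_mem _, ξ, h, zero_add _⟩

theorem omain_ii (s : ℕ) : ∀ (T' T : Md k R) (g : T' →ₗ[R] T), ∀ w ∈ omain_Sh P A s T',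
    zmap d ((Φ.it s).map g) w ∈ omain_Sh P A s T := by
  induction s with
  | zero => exact fun T' T g w hw => Zs_zmap g hw
  | succ s ih =>
    intro T' T g w hw
    obtain ⟨w1, h1, ξ, h2, rfl⟩ := (omain_mem P).1 hw
    refine (omain_mem P).2 ⟨_, ih _ _ (Φ.map g) w1 h1, _, Zs_zmap g h2, ?_⟩
    rw [P.nat, (P.pow s).nat, ← map_add]
    rfl

theorem omain_iii {h : k[X]} {a : ℕ} (tw : TWc P h a) (ha : a ≤ A) (s : ℕ) :
    ∀ (T : Md k R) (w : ZZ d ((Φ.it s).obj T)),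
      ∃ ξ, h ^ s • w - (P.pow s).t T ξ ∈ omain_Sh P A s T := by
  induction s with
  | zero =>
    refine fun T w => ⟨w, ?_⟩
    rw [pow_zero, one_smul]
    exact (sub_self w).symm ▸ zero_mem _
  | succ s ih =>
    intro T (w : ZZ d ((Φ.it s).obj (Φ.obj T)))
    obtain ⟨ω, h1⟩ := ih (Φ.obj T) w
    obtain ⟨ξ, h2⟩ := tw T ω
    have h3 := add_mem (Submodule.smul_mem _ h h1) (omain_i P s _ (Zs_mono ha h2))
    rw [map_sub, map_smul, smul_sub, sub_add_sub_cancel, smul_smul, ← pow_succ'] at h3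
    exact ⟨ξ, (omain_mem P).2 ⟨_, h3, 0, zero_mem _, by rw [map_zero, map_zero, add_zero]; rfl⟩⟩

theorem omain_cop {f : k[X]} {y : k} (hf : f.eval y ≠ 0) (b : ℕ) : IsCoprime ((X - C y) ^ b) f :=
  ((irreducible_X_sub_C y).coprime_iff_not_dvd.2 fun h => hf (dvd_iff_isRoot.1 h)).pow_left

theorem omain_ul {h G : k[X]} {a a1 a2 A' c s : ℕ} {S : Finset k} (h0 : h ≠ 0) (tw : TWc P h a)
    (ha : a ≤ A) (ha1 : a1 ≤ A) (hG : G ≠ 0) (W : Wd (P.pow s) S c) {T : Md k R}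
    (HL : ∀ φ : ZZ d T →ₗ[k[X]] k[X], (∀ w ∈ Zs d a1 T, φ w = 0) → ∀ f : k[X], f ≠ 0 → ∀ b : ℕ,
      ∃ (T' : Md k R) (g : T' →ₗ[R] T) (y : k), f.eval y ≠ 0 ∧
        (∀ ξ : ZZ d T, ∃ ξ' : ZZ d T', ((X - C y) ^ b * G) • ξ = zmap d g ξ') ∧
        (∀ n : ℕ, ∀ ξ ∈ Zd d n T, ∃ (q : k[X]) (N : ℕ), q ≠ 0 ∧ N ≤ q.natDegree + n + a2 ∧
          ∃ ξ' ∈ Zd d N T', q • ξ = zmap d g ξ') ∧
        ∀ ξ' : ZZ d T', (X - C y) ^ b ∣ φ (zmap d g ξ'))
    (φ : ZZ d ((Φ.it s).obj T) →ₗ[k[X]] k[X]) (st : Steep (A + A' + a2 + G.natDegree + c) φ)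
    (kl : ∀ w ∈ omain_Sh P A s T, φ w = 0) : ∀ ξ ∈ Zd d A' T, φ ((P.pow s).t T ξ) = 0 := by
  obtain ⟨m, m', hp, ⟨σ0, hi⟩, hm⟩ := W
  choose! σ1 h1 using hp
  set σ := max σ0 (S.sup σ1) with hσ
  obtain ⟨T', g, y, hy, H1, H2, H3⟩ := HL (φ ∘ₗ (P.pow s).t T)
    (fun w hw => kl _ (omain_i P s T (Zs_mono ha1 hw))) (h * ∏ p ∈ S, (X - C p))
    (mul_ne_zero h0 (Finset.prod_ne_zero_iff.2 fun p _ => X_sub_C_ne_zero p)) (σ + 1)
  rw [eval_mul, mul_ne_zero_iff, eval_prod, Finset.prod_ne_zero_iff] at hy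
  let ψ := φ ∘ₗ zmap d ((Φ.it s).map g)
  have nt : ∀ ξ', φ ((P.pow s).t T (zmap d g ξ')) = ψ ((P.pow s).t T' ξ') := fun ξ' =>
    congrArg φ ((P.pow s).nat g ξ')
  have kill : ∀ w ∈ Zs d σ ((Φ.it s).obj T'), ψ w = 0 := fun w hw => by
    refine Zs_le ψ ⊥ (fun w hw => ?_) hw
    by_contra hn
    have e1 := st _ _ (Zd_zmap ((Φ.it s).map g) hw) hn
    obtain ⟨ξ', e2⟩ := omain_iii P tw ha s T' w
    have e3 : ψ (h ^ s • w - (P.pow s).t T' ξ') = 0 := kl _ (omain_ii P s _ _ g _ e2)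
    rw [map_sub, map_smul, sub_eq_zero, ← nt, smul_eq_mul] at e3
    have e4 : (X - C y) ^ (σ + 1) ∣ ψ w :=
      ((omain_cop hy.1 _).pow_right (n := s)).dvd_of_dvd_mul_left (e3 ▸ H3 ξ')
    have e5 := natDegree_le_of_dvd e4 hn
    rw [natDegree_pow, natDegree_X_sub_C] at e5
    change (ψ w).natDegree + _ + 1 ≤ σ at e1
    omega
  intro ξ hξ
  by_contra hn
  obtain ⟨ξ1, e1⟩ := H1 ξ
  have dv : ∀ p ∈ S, (X - C p) ^ m p ∣ G * φ ((P.pow s).t T ξ) := fun p hp => by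
    obtain ⟨η, e2⟩ := h1 p hp T' ξ1
    have e3 := kill _ (Zs_mono ((Finset.le_sup hp).trans (le_max_right _ _)) e2)
    rw [map_sub, map_smul, sub_eq_zero, ← nt, ← e1, map_smul, map_smul, smul_eq_mul, smul_eq_mul,
      mul_assoc] at e3
    refine (omain_cop (f := (X - C y) ^ (σ + 1)) ?_ _).dvd_of_dvd_mul_left ⟨_, e3⟩
    have := hy.2 p hp
    simp only [eval_pow, eval_sub, eval_X, eval_C] at this ⊢
    exact pow_ne_zero _ fun e => this (by rw [← neg_sub, e, neg_zero])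
  have e4 := natDegree_le_of_dvd (Finset.prod_dvd_of_coprime (fun p _ p' _ hne =>
    (isCoprime_X_sub_C_of_isUnit_sub (sub_ne_zero.2 hne).isUnit).pow) dv) (mul_ne_zero hG hn)
  rw [natDegree_prod _ _ fun p _ => pow_ne_zero _ (X_sub_C_ne_zero p), natDegree_mul hG hn] at e4
  simp only [natDegree_pow, natDegree_X_sub_C, mul_one] at e4
  obtain ⟨q, N, q0, hN, ξ2, d2, e5⟩ := H2 A' ξ hξ
  obtain ⟨q', N', q0', hN', η, d3, e6⟩ := hi T' N ξ2 d2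
  have e7 := kill _ (Zs_mono (le_max_left _ _) e6)
  rw [map_sub, map_smul, sub_eq_zero, ← nt, ← e5, map_smul, map_smul, smul_eq_mul,
    smul_eq_mul] at e7
  have e8 := st _ _ (Zd_zmap ((Φ.it s).map g) d3)
    (fun e => mul_ne_zero q0' (mul_ne_zero q0 hn) (e7.trans e))
  change (ψ η).natDegree + _ + 1 ≤ N' at e8
  rw [← e7, natDegree_mul q0' (mul_ne_zero q0 hn), natDegree_mul q0 hn] at e8
  omega

end

theorem t_OMAIN (k : Type u) [Field k] [IsAlgClosed k] (R : Type u) [Ring R] [Algebra k R]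
    [FiniteDimensional k R]
    (L : Lib k)
    (hOLC : S_OLC k R)
    (hOMIN : S_OMIN k R) :
    S_OMAIN k R := by
  intro d Φ P h a c S nice h0 tw ⟨a1, a2, G, hG, HL⟩ W T hT
  obtain ⟨a0, s0⟩ := (L.noe R).short k d (FO.ofMd T) (((L.fd R).ofk _).2 hT)
  set A := max (max a a1) a0 with hA
  obtain ⟨A', sh⟩ := hOLC.sh d Φ P A
  have key : ∀ (s : ℕ) (T : Md k R), T.fd → ∀ φ : ZZ d ((Φ.it s).obj T) →ₗ[k[X]] k[X],
      Steep (A + A' + a2 + G.natDegree + c) φ → ∀ w ∈ omain_Sh P A s T, φ w = 0 := by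
    intro s
    induction s with
    | zero =>
      refine fun T _ φ st w hw => Zs_le φ ⊥ (fun ξ hξ => by_contra fun hn => ?_) hw
      have := st _ _ hξ hn
      omega
    | succ s ih =>
      intro T hT (φ : ZZ d ((Φ.it s).obj (Φ.obj T)) →ₗ[k[X]] k[X]) st w hw
      have k1 := ih _ (nice.1 T hT) φ st
      have k2 := omain_ul P h0 tw (by omega) (by omega) hG (W s) (HL _ (nice.1 T hT)) φ st k1
      obtain ⟨w1, h1, ξ, h2, rfl⟩ := (omain_mem P).1 hw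
      exact (map_add φ w1 _).trans (by
        rw [k1 w1 h1, zero_add]
        exact Zs_le (φ ∘ₗ (P.pow s).t (Φ.obj T)) ⊥ k2 (sh T ξ h2))
  refine ⟨A + A' + a2 + G.natDegree + c, fun s => by_contra fun hn => ?_⟩
  obtain ⟨φ, hφ, st⟩ := hOMIN d _ _ ((nice.it s).1 T hT) hn
  refine hφ (LinearMap.ext fun w => ?_)
  obtain ⟨ξ, e⟩ := omain_iii P tw (A := A) (by omega) s T w
  have e1 := key s T hT φ st _ e
  rw [map_sub, key s T hT φ st _ (omain_i P s T (Zs_mono (by omega) (short_iff.1 s0 ξ))), sub_zero,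
    map_smul, smul_eq_mul] at e1
  exact (mul_eq_zero.1 e1).resolve_left (pow_ne_zero _ h0)

end Pool.Agent.P.MP_cf639b_al
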