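import Pool.Agent.P.MP_cf639b_al.IfO

set_option linter.dupNamespace false

namespace Pool.Agent.P.MP_cf639b_al

universe u v
open TensorProduct Polynomial Function

section
variable {k : Type u} [Field k] {R : Type u} [Ring R] [Algebra k R] {d : Fam R} {T : Md k R}

/-- the coefficient of `x ^ n` -/
noncomputable def omin_lc (n : ℕ) : ZZ d T →ₗ[k] (Fin d.n0 → T) where
  toFun ξ b := ZZ.v ξ b n
  map_add' ξ η := funext fun b => by simp
  map_smul' c ξ := funext fun b => by simp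

theorem omin_pow (i n : ℕ) (ξ : ZZ d T) :
    omin_lc (n + i) ((X ^ i : k[X]) • ξ) = omin_lc n ξ := funext fun b => by
  change ZZ.v _ b _ = ZZ.v _ b _
  rw [ZZ.v_X_pow_apply, if_pos (by omega), Nat.add_sub_cancel]

theorem omin_high {n m : ℕ} {ξ : ZZ d T} (h : ξ ∈ Zd d n T) (hm : n < m) : omin_lc m ξ = 0 :=
  funext fun b => h b m hm

theorem omin_low {n : ℕ} {ξ : ZZ d T} (h : ξ ∈ Zd d (n + 1) T) (h0 : omin_lc (n + 1) ξ = 0) :
    ξ ∈ Zd d n T := fun b l hl => by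
  rcases (Nat.succ_le_of_lt hl).eq_or_lt with rfl | hl
  exacts [congrFun h0 b, h b l hl]

theorem omin_mem (i : ℕ) {n : ℕ} {ξ : ZZ d T} (h : ξ ∈ Zd d n T) :
    (X ^ i : k[X]) • ξ ∈ Zd d (n + i) T := by
  have := Zd_smul (X ^ i : k[X]) h
  rwa [natDegree_X_pow, add_comm] at this

/-- reduction of the degree -/
theorem omin_red {e j : ℕ} {ξ : ZZ d T} (h : ξ ∈ Zd d (e + j + 1) T)
    (hW : (Zd d (e + j + 1) T).map (omin_lc (e + j + 1)) ≤ (Zd d e T).map (omin_lc e)) :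
    ∃ η ∈ Zd d e T, ξ - (X ^ (j + 1) : k[X]) • η ∈ Zd d (e + j) T := by
  obtain ⟨η, h1, h2⟩ := hW ⟨ξ, h, rfl⟩
  exact ⟨η, h1, omin_low (sub_mem h (omin_mem (j + 1) h1))
    (by rw [map_sub, ← h2, add_assoc, omin_pow, sub_self])⟩

/-- sums of the `x ^ i κ`, `i ≤ j`, `κ ∈ K` -/
noncomputable def omin_N (K : Submodule k (ZZ d T)) : ℕ → Submodule k (ZZ d T)
  | 0 => K
  | j + 1 => omin_N K j ⊔ K.map ((LinearMap.lsmul k[X] _ (X ^ (j + 1))).restrictScalars k)

theorem omin_mono (K : Submodule k (ZZ d T)) : Monotone (omin_N K) :=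
  monotone_nat_of_le_succ fun _ => le_sup_left

theorem omin_gen {K : Submodule k (ZZ d T)} {κ : ZZ d T} (h : κ ∈ K) (i : ℕ) :
    (X ^ i : k[X]) • κ ∈ omin_N K i := by
  cases i with
  | zero => rw [pow_zero, one_smul]; exact h
  | succ i => exact Submodule.mem_sup_right ⟨κ, h, rfl⟩

theorem omin_span {K : Submodule k (ZZ d T)} {ξ : ZZ d T}
    (h : ξ ∈ Submodule.span k[X] (K : Set (ZZ d T))) (q : k[X]) : ∃ j, q • ξ ∈ omin_N K j := by
  have ad : ∀ {x y : ZZ d T}, (∃ j, x ∈ omin_N K j) → (∃ j, y ∈ omin_N K j) →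
      ∃ j, x + y ∈ omin_N K j := fun ⟨i, hi⟩ ⟨j, hj⟩ =>
    ⟨max i j, add_mem (omin_mono K (le_max_left i j) hi) (omin_mono K (le_max_right i j) hj)⟩
  induction h using Submodule.span_induction generalizing q with
  | mem w hw =>
    induction q using Polynomial.induction_on' with
    | add p q hp hq => rw [add_smul]; exact ad hp hq
    | monomial i c =>
      rw [← smul_X_eq_monomial, smul_assoc]
      exact ⟨i, Submodule.smul_mem _ _ (omin_gen hw i)⟩
  | zero => exact ⟨0, by simp⟩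
  | add x y _ _ hx hy => rw [smul_add]; exact ad (hx q) (hy q)
  | smul c x _ hx => rw [smul_smul]; exact hx _

/-- the predictable degree property -/
theorem omin_top {e : ℕ} (μ : (Fin d.n0 → T) →ₗ[k] k)
    (hμ : (Zd d e T).map (omin_lc e) ≤ LinearMap.ker μ) {ξ : ZZ d T} {j : ℕ}
    (h : ξ ∈ Submodule.span k[X]
      ((Zd d (e + 1) T ⊓ LinearMap.ker (μ ∘ₗ omin_lc (e + 1)) : Submodule k (ZZ d T)) : Set (ZZ d T)))
    (hj : ξ ∈ Zd d (e + 1 + j) T) : μ (omin_lc (e + 1 + j) ξ) = 0 := by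
  set K := Zd d (e + 1) T ⊓ LinearMap.ker (μ ∘ₗ omin_lc (e + 1))
  have c : ∀ j, ∀ ξ ∈ omin_N K j, ξ ∈ Zd d (e + 1 + j) T ∧ μ (omin_lc (e + 1 + j) ξ) = 0 := by
    intro j
    induction j with
    | zero => exact fun ξ h => h
    | succ j ih =>
      intro ξ h
      obtain ⟨η, h1, _, ⟨κ, h2, rfl⟩, rfl⟩ := Submodule.mem_sup.1 h
      refine ⟨add_mem (Zd_mono (by omega) (ih η h1).1) (omin_mem _ h2.1), ?_⟩
      rw [map_add, omin_high (ih η h1).1 (by omega), zero_add]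
      exact (congrArg μ (omin_pow _ _ κ)).trans h2.2
  refine (c j ξ ?_).2
  obtain ⟨i, hi⟩ := omin_span h 1
  rw [one_smul] at hi
  induction i with
  | zero => exact omin_mono K (Nat.zero_le j) hi
  | succ i ih =>
    by_cases b : i + 1 ≤ j
    · exact omin_mono K b hi
    obtain ⟨η, h1, _, ⟨κ, h2, rfl⟩, rfl⟩ := Submodule.mem_sup.1 hi
    refine ih (add_mem h1 ?_)
    have h3 := omin_high hj (m := e + 1 + (i + 1)) (by omega)
    rw [map_add, omin_high (c i η h1).1 (by omega), zero_add] at h3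
    have h4 := omin_low h2.1 ((omin_pow _ _ κ).symm.trans h3)
    have h5 : (X ^ 1 : k[X]) • κ ∈ K :=
      ⟨omin_mem 1 h4, (congrArg μ (omin_pow 1 e κ)).trans (hμ ⟨κ, h4, rfl⟩)⟩
    have := omin_gen h5 i
    rwa [smul_smul, ← pow_add] at this

theorem omin_phi {e : ℕ} (μ : (Fin d.n0 → T) →ₗ[k] k)
    (hμ : (Zd d e T).map (omin_lc e) ≤ LinearMap.ker μ) {z : ZZ d T} (hz : z ∈ Zd d (e + 1) T)
    (h1 : μ (omin_lc (e + 1) z) = 1)
    (hW : ∀ m, e + 1 ≤ m → (Zd d m T).map (omin_lc m) ≤ (Zd d (e + 1) T).map (omin_lc (e + 1))) :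
    ∃ φ : ZZ d T →ₗ[k[X]] k[X], φ ≠ 0 ∧ Steep e φ := by
  set K := Zd d (e + 1) T ⊓ LinearMap.ker (μ ∘ₗ omin_lc (e + 1))
  set N := Submodule.span k[X] (K : Set (ZZ d T))
  have k1 : ∀ η ∈ Zd d (e + 1) T, η - C (μ (omin_lc (e + 1) η)) • z ∈ N := fun η h =>
    Submodule.subset_span (by
      rw [ZZ.C_smul]
      exact ⟨sub_mem h (Submodule.smul_mem _ _ hz), by simp [h1]⟩)
  have sur : ∀ j, ∀ ξ ∈ Zd d (e + 1 + j) T, ∃ q : k[X], q.natDegree ≤ j ∧ ξ - q • z ∈ N := by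
    intro j
    induction j with
    | zero => exact fun ξ h => ⟨_, (natDegree_C _).le, k1 ξ h⟩
    | succ j ih =>
      intro ξ h
      obtain ⟨η, a1, a2⟩ := omin_red (e := e + 1) h (hW _ (by omega))
      obtain ⟨q, a3, a4⟩ := ih _ a2
      refine ⟨q + X ^ (j + 1) * C (μ (omin_lc (e + 1) η)), (natDegree_add_le _ _).trans
        (max_le (by omega) (natDegree_mul_le.trans (by simp))), ?_⟩
      have := add_mem a4 (N.smul_mem (X ^ (j + 1)) (k1 η a1))
      rwa [smul_sub, smul_smul, show ∀ a b c f : ZZ d T, a - b - c + (b - f) = a - (c + f) from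
        fun a b c f => by abel, ← add_smul] at this
  have inj : ∀ q : k[X], q • z ∈ N → q = 0 := fun q h => by
    have h2 := omin_top μ hμ h (j := q.natDegree) (by rw [add_comm]; exact Zd_smul q hz)
    rw [← q.eraseLead_add_C_mul_X_pow, add_smul, map_add, mul_smul, ZZ.C_smul,
      q.eraseLead_add_C_mul_X_pow, map_smul _ q.leadingCoeff, omin_pow, map_add, map_smul μ, h1] at h2
    rcases q.eraseLead_natDegree_lt_or_eraseLead_eq_zero with b | b
    · rw [omin_high (Zd_smul _ hz) (by omega)] at h2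
      simpa using h2
    · simpa [b] using h2
  let f := N.mkQ ∘ₗ LinearMap.toSpanSingleton k[X] _ z
  have fq : ∀ (q : k[X]) ξ, ξ - q • z ∈ N → f q = N.mkQ ξ := fun q ξ h =>
    ((Submodule.Quotient.eq N).2 h).symm
  let E := LinearEquiv.ofBijective f ⟨(injective_iff_map_eq_zero f).2 fun q h =>
    inj q ((Submodule.Quotient.mk_eq_zero N).1 h), fun y => by
      obtain ⟨ξ, rfl⟩ := N.mkQ_surjective y
      obtain ⟨n, hn⟩ := exists_Zd ξ
      obtain ⟨q, -, h⟩ := sur n ξ (Zd_mono (by omega) hn)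
      exact ⟨q, fq q ξ h⟩⟩
  have Eq : ∀ (q : k[X]) ξ, ξ - q • z ∈ N → (E.symm.toLinearMap ∘ₗ N.mkQ) ξ = q := fun q ξ h =>
    E.symm_apply_eq.2 (fq q ξ h).symm
  refine ⟨E.symm.toLinearMap ∘ₗ N.mkQ, fun h => ?_, fun n ξ h h0 => ?_⟩
  · have := Eq 1 z (by simp)
    rw [h] at this
    exact zero_ne_one this
  · by_cases b : n ≤ e
    · refine (h0 (Eq 0 ξ ?_)).elim
      rw [zero_smul, sub_zero]
      exact Submodule.subset_span ⟨Zd_mono (by omega) h, by
        simp [omin_high h (by omega : n < e + 1)]⟩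
    · obtain ⟨q, a1, a2⟩ := sur (n - (e + 1)) ξ (Zd_mono (by omega) h)
      rw [Eq q ξ a2]
      omega
end

theorem t_OMIN (k : Type u) [Field k] [IsAlgClosed k] (R : Type u) [Ring R] [Algebra k R]
    [FiniteDimensional k R]
    (L : Lib k) :
    S_OMIN k R := by
  intro d T a hT hs
  classical
  have : FiniteDimensional k T := hT
  let W : ℕ →o Submodule k (Fin d.n0 → T) := ⟨fun n => (Zd d n T).map (omin_lc n),
    monotone_nat_of_le_succ fun n => by
      rintro _ ⟨ξ, h, rfl⟩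
      exact ⟨_, omin_mem 1 h, omin_pow 1 n ξ⟩⟩
  have ex : ∃ n, ∀ m, n ≤ m → W m ≤ W n := by
    obtain ⟨n, hn⟩ := monotone_stabilizes_iff_noetherian.2 inferInstance W
    exact ⟨n, fun m h => (hn m h).ge⟩
  have h1 := Nat.find_spec ex
  have h2 : a < Nat.find ex := not_le.1 fun b => hs (short_iff.2 fun ξ => by
    have key : ∀ j, ∀ ξ ∈ Zd d (a + j) T, ξ ∈ Zs d a T := by
      intro j
      induction j with
      | zero => exact fun ξ h => Zd_le_Zs h
      | succ j ih =>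
        intro ξ h
        obtain ⟨η, a1, a2⟩ := omin_red h ((h1 _ (by omega)).trans (W.mono b))
        simpa using add_mem (ih _ a2) ((Zs d a T).smul_mem (X ^ (j + 1)) (Zd_le_Zs a1))
    obtain ⟨n, hn⟩ := exists_Zd ξ
    exact key n ξ (Zd_mono (by omega) hn))
  obtain ⟨e, he⟩ : ∃ e, Nat.find ex = e + 1 := ⟨Nat.find ex - 1, by omega⟩
  have h3 := Nat.find_min ex (m := e) (by omega)
  rw [he] at h1 h2
  obtain ⟨_, ⟨z, hz, rfl⟩, h4⟩ : ∃ w ∈ W (e + 1), w ∉ W e := SetLike.not_le_iff_exists.1 fun b =>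
    h3 fun m hm => by
      rcases hm.eq_or_lt with rfl | hm
      exacts [le_rfl, (h1 m hm).trans b]
  obtain ⟨μ, m1, m2⟩ := Submodule.exists_le_ker_of_notMem h4
  obtain ⟨φ, p1, p2⟩ := omin_phi μ m2 (z := (μ (omin_lc (e + 1) z))⁻¹ • z)
    (Submodule.smul_mem _ _ hz) (by simp [m1]) h1
  exact ⟨φ, p1, fun n ξ h h0 => by have := p2 n ξ h h0; omega⟩

end Pool.Agent.P.MP_cf639b_al
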