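import Pool.Agent.P.MP_cf639b_al.IfO

set_option linter.dupNamespace false

namespace Pool.Agent.P.MP_cf639b_al

universe u v
open TensorProduct Polynomial Function

section aux
variable {k : Type u} [Field k]

theorem orev_ev (H : k[X]) (j : ℕ) {K : Type u} [Field K] [Algebra k K] {t : K} (ht : t ≠ 0) :
    aeval t (X ^ j * H.reverse) = t ^ (H.natDegree + j) * aeval t⁻¹ H := by
  let _ := invertibleOfNonzero (inv_ne_zero ht)
  have := eval₂_reverse_mul_pow (algebraMap k K) t⁻¹ H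
  rw [invOf_eq_inv, inv_inv, ← aeval_def, ← aeval_def] at this
  rw [← this, map_mul, map_pow, aeval_X, inv_pow]
  field_simp
  ring

theorem orev_deg {H : k[X]} (h : H ≠ 0) (j : ℕ) : X ^ j * H.reverse ≠ 0 ∧
    (X ^ j * H.reverse).natDegree + rootMultiplicity 0 H = H.natDegree + j := by
  have h1 : H.reverse ≠ 0 := by rwa [Ne, reverse_eq_zero]
  refine ⟨mul_ne_zero (pow_ne_zero _ X_ne_zero) h1, ?_⟩
  rw [natDegree_X_pow_mul _ h1, reverse_natDegree, rootMultiplicity_eq_natTrailingDegree']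
  have := H.natTrailingDegree_le_natDegree
  omega

variable {R : Type u} [Ring R] [Algebra k R] [FiniteDimensional k R]

omit [FiniteDimensional k R] in
theorem orev_zs (h : S_OVAL k R) (d : Fam R) (T : Md k R) {K : Type u} [Field K] [Algebra k K]
    {t : K} (ht : t ≠ 0) (σ : ℕ) (w' : ZZ d.rev T) (hw : w' ∈ Zs d.rev σ T) :
    ∃ J : ℕ, ∃ w ∈ Zs d σ T, val d T t w = t ^ J • val d.rev T t⁻¹ w' := by
  induction hw using Submodule.span_induction with
  | mem x hx =>
    obtain ⟨w, h1, h2⟩ := h.rev' d T σ x hx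
    exact ⟨σ, w, Zd_le_Zs h1, h2 K t ht⟩
  | zero => exact ⟨0, 0, zero_mem _, by simp⟩
  | add x y _ _ hx hy =>
    obtain ⟨I, x', h1, h2⟩ := hx
    obtain ⟨J, y', h3, h4⟩ := hy
    refine ⟨I + J, (X ^ J : k[X]) • x' + (X ^ I : k[X]) • y',
      add_mem (Submodule.smul_mem _ _ h1) (Submodule.smul_mem _ _ h3), ?_⟩
    rw [map_add, map_add, h.smul, h.smul, h2, h4, map_pow, map_pow, aeval_X, smul_smul, smul_smul,
      smul_add, pow_add, mul_comm]
  | smul p x _ hx =>
    obtain ⟨I, x', h1, h2⟩ := hx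
    refine ⟨p.natDegree + 0 + I, (X ^ 0 * p.reverse) • x', Submodule.smul_mem _ _ h1, ?_⟩
    rw [h.smul, h.smul, h2, orev_ev p 0 ht, smul_smul, smul_smul, pow_add _ _ I, mul_right_comm]

omit [FiniteDimensional k R] in
theorem orev_lt {K : Type u} [Field K] [Algebra k K] {T T' : Md k R} (g : T →ₗ[k] T') (c : K)
    (z : K ⊗[k] T) : LinearMap.lTensor K g (c • z) = c • LinearMap.lTensor K g z := by
  rw [← LinearMap.baseChange_eq_ltensor, map_smul]

end aux

theorem t_OREV (k : Type u) [Field k] [IsAlgClosed k] (R : Type u) [Ring R] [Algebra k R]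
    [FiniteDimensional k R]
    (L : Lib k)
    (hOVAL : S_OVAL k R) :
    S_OREV k R := by
  constructor
  · rintro d Φ K _ _ t ht P P' H H' m hH hC ⟨σ, hσ⟩
    have t0 : t ≠ 0 := fun h => ht (h ▸ isAlgebraic_zero)
    refine ⟨σ, fun T n ξ hξ => ?_⟩
    obtain ⟨η, -, h1⟩ := hOVAL.rev d T n ξ hξ
    have h2 := hC T ξ η _ (h1 K t t0)
    obtain ⟨η', h3⟩ := hσ T η
    obtain ⟨j, hj⟩ := exists_Zd η'
    obtain ⟨ξ', h4, h5⟩ := hOVAL.rev' d _ j η' hj
    obtain ⟨J, w, h6, h7⟩ := orev_zs hOVAL d _ t0 σ _ h3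
    obtain ⟨q0, qd⟩ := orev_deg hH (m + j + J)
    refine ⟨_, H.natDegree + (H'.natDegree + J + n) + j, q0, by omega,
      (H * X ^ (H'.natDegree + J + n)) • ξ', Zd_mono (Nat.add_le_add_right
        (natDegree_mul_le.trans (by rw [natDegree_X_pow])) j) (Zd_smul _ h4), ?_⟩
    have : (X ^ (m + j + J) * H'.reverse) • P.t T ξ - (H * X ^ (H'.natDegree + J + n)) • ξ' =
        (H * X ^ (H'.natDegree + m + j + n)) • w := by
      refine hOVAL.inj d _ K t ht ?_
      rw [map_sub, hOVAL.smul, hOVAL.smul, hOVAL.smul, orev_ev _ _ t0, mul_smul, h2, h5 K t t0, h7,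
        map_sub, hOVAL.smul, smul_sub, smul_sub]
      simp only [smul_smul, map_mul, map_pow, aeval_X, C_0, sub_zero]
      congr 2
      · ring
      · rw [inv_pow]
        field_simp
        ring
    rw [this]
    exact Submodule.smul_mem _ _ h6
  · intro d T T' g H hH h n ξ hξ
    have ht := L.aut.gen.1
    have t0 : (RatFunc.X : RatFunc k) ≠ 0 := RatFunc.X_ne_zero
    obtain ⟨η, -, h1⟩ := hOVAL.rev d T n ξ hξ
    obtain ⟨η', h2⟩ := h η
    obtain ⟨j, hj⟩ := exists_Zd η'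
    obtain ⟨ξ', h4, h5⟩ := hOVAL.rev' d _ (H.natDegree + j + n) η' (Zd_mono (by omega) hj)
    obtain ⟨q0, qd⟩ := orev_deg hH j
    refine ⟨_, _, q0, by omega, ξ', h4, hOVAL.inj d _ _ _ ht (funext fun b => ?_)⟩
    rw [hOVAL.zmap, h5 _ _ t0, Pi.smul_apply, orev_lt, ← hOVAL.zmap, ← h2, hOVAL.smul, hOVAL.smul,
      h1 _ _ t0, orev_ev _ _ t0]
    simp only [Pi.smul_apply, smul_smul]
    rw [pow_add _ _ n, mul_right_comm]

end Pool.Agent.P.MP_cf639b_al
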