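import Pool.Agent.P.MP_cf639b_al.IfO

set_option linter.dupNamespace false

namespace Pool.Agent.P.MP_cf639b_al

universe u v
open TensorProduct Polynomial Function

section
variable {k : Type u} [Field k] {R : Type u} [Ring R] [Algebra k R]

theorem osn_aeval {V W : Type*} [AddCommGroup V] [Module k V] [AddCommGroup W] [Module k W]
    (f : V →ₗ[k] W) (x : Module.End k V) (y : Module.End k W) (h : ∀ v, f (x v) = y (f v))
    (H : k[X]) (v : V) : f (aeval x H v) = aeval y H (f v) := by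
  have e : ∀ (n : ℕ) (v : V), f ((x ^ n) v) = (y ^ n) (f v) := by
    intro n v
    induction n with
    | zero => rfl
    | succ n ih => rw [pow_succ', pow_succ', Module.End.mul_apply, Module.End.mul_apply, h, ih]
  induction H using Polynomial.induction_on' with
  | add p q hp hq => simp only [map_add, LinearMap.add_apply, hp, hq]
  | monomial n c =>
    simp only [aeval_monomial, Module.End.mul_apply, Module.algebraMap_end_apply, map_smul, e]

/-- the shift on polynomial vectors -/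
noncomputable def osn_S (n : ℕ) (T : Md k R) : Module.End k (Fin n → ℕ →₀ T) :=
  LinearMap.compLeft ((shift R T).restrictScalars k) (Fin n)

/-- a map applied to all coefficients -/
noncomputable def osn_M (n : ℕ) {T T' : Md k R} (g : T →ₗ[R] T') :
    (Fin n → ℕ →₀ T) →ₗ[k] (Fin n → ℕ →₀ T') :=
  LinearMap.compLeft ((Finsupp.mapRange.linearMap g).restrictScalars k) (Fin n)

theorem osn_M_apply (n : ℕ) {T T' : Md k R} (g : T →ₗ[R] T') (z : Fin n → ℕ →₀ T) (a : Fin n)
    (l : ℕ) : osn_M n g z a l = g (z a l) := rfl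

theorem osn_MS (n : ℕ) {T T' : Md k R} (g : T →ₗ[R] T') (z : Fin n → ℕ →₀ T) :
    osn_M n g (osn_S n T z) = osn_S n T' (osn_M n g z) :=
  funext fun a => LinearMap.congr_fun (mapRange_shift g) (z a)

theorem osn_DM (d : Fam R) {T T' : Md k R} (g : T →ₗ[R] T') (z : Fin d.n0 → ℕ →₀ T) :
    DX d T' (osn_M d.n0 g z) = osn_M d.n1 g (DX d T z) :=
  Dop_nat d _ _ (Finsupp.mapRange.linearMap g) (mapRange_shift g) z

theorem osn_DS (d : Fam R) (T : Md k R) (z : Fin d.n0 → ℕ →₀ T) :
    DX d T (osn_S d.n0 T z) = osn_S d.n1 T (DX d T z) :=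
  Dop_nat d _ _ (shift R T) rfl z

theorem osn_lift (n : ℕ) {T T' : Md k R} (g : T →ₗ[R] T') (w : Fin n → ℕ →₀ T')
    (h : ∀ a l, w a l ∈ Set.range g) : ∃ z, osn_M n g z = w := by
  have : ∀ a, ∃ z : ℕ →₀ T, Finsupp.mapRange g (map_zero g) z = w a := fun a => by
    have e : w a ∈ Set.range (Finsupp.mapRange (α := ℕ) g (map_zero g)) := by
      rw [Finsupp.range_mapRange]
      exact h a
    exact e
  choose z hz using this
  exact ⟨z, funext hz⟩

theorem osn_fun {M : Type u} [AddCommGroup M] [Module k M] (x : Module.End k M) (u : M)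
    (hu : ∀ H : k[X], H ≠ 0 → aeval x H u ≠ 0) :
    ∃ γ : M →ₗ[k] FractionRing k[X], γ u ≠ 0 ∧
      ∀ w, γ (x w) = algebraMap k[X] (FractionRing k[X]) X * γ w := by
  have h1 : LocalizedModule.mkLinearMap (nonZeroDivisors k[X]) (Module.AEval' x)
      (Module.AEval'.of x u) ≠ 0 := by
    intro h
    obtain ⟨s, hs⟩ := (IsLocalizedModule.eq_zero_iff (nonZeroDivisors k[X]) _).mp h
    refine hu s.1 (nonZeroDivisors.ne_zero s.2) ?_
    apply (Module.AEval'.of x).injective
    rw [map_zero, ← hs]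
    rfl
  obtain ⟨φ, hφ⟩ : ∃ φ : Module.Dual (FractionRing k[X])
      (LocalizedModule (nonZeroDivisors k[X]) (Module.AEval' x)),
      φ (LocalizedModule.mkLinearMap (nonZeroDivisors k[X]) (Module.AEval' x)
        (Module.AEval'.of x u)) ≠ 0 := by
    by_contra hc
    push Not at hc
    exact h1 ((Module.forall_dual_apply_eq_zero_iff (FractionRing k[X]) _).mp hc)
  let γ0 : Module.AEval' x →ₗ[k[X]] FractionRing k[X] :=
    φ.restrictScalars k[X] ∘ₗ LocalizedModule.mkLinearMap (nonZeroDivisors k[X]) (Module.AEval' x)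
  refine ⟨γ0.restrictScalars k ∘ₗ (Module.AEval'.of x).toLinearMap, hφ, fun w => ?_⟩
  change γ0 (Module.AEval'.of x (x w)) = _ * γ0 (Module.AEval'.of x w)
  rw [← Module.AEval'.X_smul_of, map_smul, Algebra.smul_def]

end

theorem t_OSN (k : Type u) [Field k] [IsAlgClosed k] (R : Type u) [Ring R] [Algebra k R]
    [FiniteDimensional k R]
    (L : Lib k) :
    S_OSN k R := by
  intro d B T' T i g _ hex hg ξ
  obtain ⟨z, hz⟩ := osn_lift d.n0 g (ZZ.v ξ) fun a l => hg _
  have h0 : osn_M d.n1 g (DX d T' z) = 0 := by rw [← osn_DM, hz, ξ.sol]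
  obtain ⟨β, hβ⟩ := osn_lift d.n1 i (DX d T' z) fun a l =>
    (hex _).mp (congrArg (fun w => w a l) h0)
  refine ⟨Emk d B β, ?_, fun H hH => ?_⟩
  · rw [Emap_mk]
    exact Emk_eq_zero.mpr ⟨z, hβ.symm⟩
  · rw [← osn_aeval (Emk d B) (osn_S d.n1 B) (EX d B) (fun _ => rfl)] at hH
    obtain ⟨γ, hγ⟩ := Emk_eq_zero.mp hH
    refine ⟨ZZ.mk (aeval (osn_S d.n0 T') H z - osn_M d.n0 i γ) ?_, ZZ.v_inj ?_⟩
    · rw [map_sub, osn_aeval _ _ _ (osn_DS d T'), osn_DM, hγ, osn_aeval _ _ _ (osn_MS d.n1 i), hβ,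
        sub_self]
    · change ZZ.v (aeval (ZX d T) H ξ) = osn_M d.n0 g (aeval (osn_S d.n0 T') H z - osn_M d.n0 i γ)
      have e : osn_M d.n0 g (osn_M d.n0 i γ) = 0 :=
        funext fun a => Finsupp.ext fun l => hex.apply_apply_eq_zero _
      rw [map_sub, e, sub_zero, osn_aeval _ _ _ (osn_MS d.n0 g), hz,
        osn_aeval ZZ.v (ZX d T) (osn_S d.n0 T) (fun _ => rfl)]

theorem t_OGAM (k : Type u) [Field k] [IsAlgClosed k] (R : Type u) [Ring R] [Algebra k R]
    [FiniteDimensional k R]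
    (L : Lib k) :
    S_OGAM k R := by
  refine ⟨FractionRing k[X], inferInstance, inferInstance, algebraMap k[X] _ X,
    fun d B T' i hi u hu => ?_⟩
  by_contra hc
  obtain ⟨γ, h1, h2⟩ := osn_fun (EX d B) u fun H hH h => hc ⟨H, hH, h⟩
  obtain ⟨r, hr⟩ := (L.bock R).hat_surj d
    (one k (algebraMap k[X] (FractionRing k[X]) X)).V B γ h2
  obtain ⟨r', rfl⟩ := hi r
  have e := (L.bock R).hat_comp d _ B T' r' i u
  rw [hr, hu, map_zero] at e
  exact h1 e

end Pool.Agent.P.MP_cf639b_al
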