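import Pool.Agent.P.MP_cf639b_al.IfO

set_option linter.dupNamespace false

namespace Pool.Agent.P.MP_cf639b_al

universe u v
open TensorProduct Polynomial Function

noncomputable section

section
variable {k : Type u} [Field k] {R : Type u} [Ring R] [Algebra k R]

/-- contraction with a functional on `k[X]` -/
def otrex_cn (T : Md k R) (ν : k[X] →ₗ[k] k) : (TenA k[X]).obj T →ₗ[R] T :=
  AlgebraTensorModule.lift
    { toFun := fun y => ν.smulRight y
      map_add' := fun _ _ => LinearMap.ext fun _ => by simp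
      map_smul' := fun r _ => LinearMap.ext fun _ => by simp [smul_comm r] }
theorem otrex_cn_tmul (T : Md k R) (ν : k[X] →ₗ[k] k) (y : T) (p : k[X]) :
    otrex_cn T ν (y ⊗ₜ[k] p) = ν p • y := rfl

/-- a polynomial vector times a polynomial -/
def otrex_up (T : Md k R) : (ℕ →₀ T) →ₗ[k] (k[X] →ₗ[k] T ⊗[k] k[X]) :=
  Finsupp.lsum k fun l => (TensorProduct.mk k T k[X]).compl₂ ((V0 k).x ^ l)
theorem otrex_up_single (T : Md k R) (l : ℕ) (y : T) (p : k[X]) :
    otrex_up T (Finsupp.single l y) p = y ⊗ₜ[k] ((V0 k).x ^ l) p := by simp [otrex_up]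
theorem otrex_up_rsmul {T : Md k R} (r : R) (z : ℕ →₀ T) (p : k[X]) :
    otrex_up T (r • z) p = r • otrex_up T z p := by
  induction z using Finsupp.induction_linear with
  | zero => simp
  | add x y hx hy => simp [hx, hy]
  | single l y => rw [Finsupp.smul_single, otrex_up_single, otrex_up_single, smul_tmul']
theorem otrex_up_shift {T : Md k R} (i : ℕ) (z : ℕ →₀ T) (p : k[X]) :
    otrex_up T ((shift R T ^ i) z) p = otrex_up T z (((V0 k).x ^ i) p) := by
  induction z using Finsupp.induction_linear with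
  | zero => simp
  | add x y hx hy => simp only [map_add, LinearMap.add_apply, hx, hy]
  | single l y => rw [shift_pow_single, otrex_up_single, otrex_up_single, pow_add]; rfl
theorem otrex_cn_up {T : Md k R} (ν : k[X] →ₗ[k] k) (z : ℕ →₀ T) (p : k[X]) :
    otrex_cn T ν (otrex_up T z p) = ctr (V0 k) ν T z p := by
  induction z using Finsupp.induction_linear with
  | zero => exact map_zero _
  | add x y hx hy =>
    rw [map_add, map_add, LinearMap.add_apply, LinearMap.add_apply, ← hx, ← hy]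
    exact map_add _ _ _
  | single l y => rw [otrex_up_single, otrex_cn_tmul, ctr_single]
theorem otrex_up_surj {T : Md k R} (w : T ⊗[k] k[X]) : ∃ z, otrex_up T z 1 = w := by
  induction w with
  | zero => exact ⟨0, by simp⟩
  | add x y hx hy =>
    obtain ⟨z, rfl⟩ := hx
    obtain ⟨z', rfl⟩ := hy
    exact ⟨z + z', by simp⟩
  | tmul y p =>
    induction p using Polynomial.induction_on' with
    | add p q hp hq =>
      obtain ⟨z, hz⟩ := hp
      obtain ⟨z', hz'⟩ := hq
      exact ⟨z + z', by rw [map_add, LinearMap.add_apply, hz, hz', tmul_add]⟩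
    | monomial l c =>
      exact ⟨Finsupp.single l (c • y), by
        rw [otrex_up_single, V0_pow, mul_one, smul_tmul, smul_X_eq_monomial]⟩

/-- the universal evaluation of a polynomial solution -/
def otrex_xh {d : Fam R} {T : Md k R} (ξ : ZZ d T) : M d (V0 k) →ₗ[R] (TenA k[X]).obj T :=
  Mlift d (V0 k) (T := ⟨T ⊗[k] k[X]⟩) (fun b => otrex_up T (ZZ.v ξ b)) fun a p => by
    have h := congrArg (fun w => otrex_up T (w a) p) ξ.sol
    simpa only [Dop_apply, map_sum, LinearMap.sum_apply, otrex_up_rsmul, otrex_up_shift,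
      Pi.zero_apply, map_zero, LinearMap.zero_apply] using h
theorem otrex_cn_xh {d : Fam R} {T : Md k R} (ν : k[X] →ₗ[k] k) (ξ : ZZ d T) :
    otrex_cn T ν ∘ₗ otrex_xh ξ = evm d (V0 k) ν T ξ := M_ext fun b p => by
  rw [evm_gen, ← otrex_cn_up]
  exact congrArg (otrex_cn T ν) (Mlift_gen _ _ _ _ _ _)

theorem otrex_key (Φ : AFun k R) (T : Md k R) (ν : k[X] →ₗ[k] k) :
    Φ.map (otrex_cn T ν) ∘ₗ tenI Φ T k[X] = otrex_cn (Φ.obj T) ν :=
  AlgebraTensorModule.ext fun z p => by
    have e : otrex_cn T ν ∘ₗ tmr T k[X] p = ν p • LinearMap.id := rfl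
    change Φ.map (otrex_cn T ν) (Φ.map (tmr T k[X] p) z) = ν p • z
    rw [← LinearMap.comp_apply, ← Φ.map_comp, e, map_smul, Φ.map_id]
    rfl

/-- the map `k[X] → V` with `1 ↦ v` -/
def otrex_vh (V : XV k) (v : V) : XH (V0 k) V :=
  ⟨LinearMap.applyₗ v ∘ₗ (aeval V.x).toLinearMap, LinearMap.ext fun p => by
    change aeval V.x (X * p) v = V.x (aeval V.x p v)
    rw [map_mul, aeval_X]
    rfl⟩
theorem otrex_vh_one (V : XV k) (v : V) : (otrex_vh V v).1 (1 : k[X]) = v := by
  change aeval V.x (1 : k[X]) v = v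
  rw [map_one]
  rfl

theorem otrex_coeff {T : Md k R} (l : ℕ) (z : ℕ →₀ T) :
    ctr (V0 k) (lcoeff k l) T z (1 : k[X]) = z l := by
  induction z using Finsupp.induction_linear with
  | zero => simp
  | add x y hx hy => rw [map_add, LinearMap.add_apply, hx, hy, Finsupp.add_apply]
  | single j y =>
    rw [ctr_single, V0_pow, mul_one]
    change (X ^ j : k[X]).coeff l • y = _
    rw [coeff_X_pow, Finsupp.single_apply]
    split_ifs <;> first | (exfalso; omega) | simp

theorem otrex_ex {d : Fam R} {Φ : AFun k R} (hΦ : ∀ Q : Md k R, Surjective (tenI Φ Q k[X]))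
    (A : NT (MN (k := k) d) ((MN d).post Φ)) (T : Md k R) (ξ : ZZ d T) :
    ∃ η : ZZ d (Φ.obj T), ∀ (V : XV k) (μ : V →ₗ[k] k),
      evm d V μ (Φ.obj T) η = Φ.map (evm d V μ T ξ) ∘ₗ A.app V := by
  have h1 : ∀ b, ∃ z : ℕ →₀ Φ.obj T, ∀ (V : XV k) (μ : V →ₗ[k] k) (v : V),
      ctr V μ (Φ.obj T) z v = Φ.map (evm d V μ T ξ) (A.app V (gen d V b v)) := by
    intro b
    obtain ⟨w, hw⟩ := hΦ T (Φ.map (otrex_xh ξ) (A.app (V0 k) (gen d (V0 k) b (1 : k[X]))))
    obtain ⟨z, rfl⟩ := otrex_up_surj (T := Φ.obj T) w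
    refine ⟨z, fun V μ v => ?_⟩
    have e1 : ctr V μ (Φ.obj T) z v = ctr (V0 k) (μ ∘ₗ (otrex_vh V v).1) (Φ.obj T) z (1 : k[X]) := by
      rw [ctr_apply, ctr_apply]
      refine Finsupp.sum_congr fun l _ => ?_
      rw [LinearMap.comp_apply, XH.comm_pow (otrex_vh V v), otrex_vh_one]
    have e2 : Φ.map ((MN d).map (otrex_vh V v)) (A.app (V0 k) (gen d (V0 k) b (1 : k[X]))) =
        A.app V ((MN d).map (otrex_vh V v) (gen d (V0 k) b (1 : k[X]))) :=
      LinearMap.congr_fun (A.nat (otrex_vh V v)) (gen d (V0 k) b (1 : k[X]))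
    rw [map_gen, otrex_vh_one] at e2
    rw [e1, ← otrex_cn_up, ← otrex_key, LinearMap.comp_apply, hw, ← LinearMap.comp_apply,
      ← Φ.map_comp, otrex_cn_xh, ← evm_map, Φ.map_comp, LinearMap.comp_apply, ← e2]
  choose z hz using h1
  refine ⟨ZZ.mk z (funext fun a => Finsupp.ext fun l => ?_), fun V μ => M_ext fun b v => ?_⟩
  · have h := congrArg (Φ.map (evm d (V0 k) (lcoeff k l) T ξ) ∘ₗ A.app (V0 k))
      (gen_rel d (V0 k) a (1 : k[X]))
    rw [← otrex_coeff, Dop_apply]
    simp only [map_sum, map_smul, map_zero, LinearMap.sum_apply] at h ⊢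
    refine Eq.trans (Finset.sum_congr rfl fun i _ => Finset.sum_congr rfl fun b _ => ?_) h
    rw [ctr_rsmul, ctr_shift_pow, hz]
    rfl
  · rw [evm_gen, ZZ.v_mk, hz]
    rfl

end

theorem t_OTREX (k : Type u) [Field k] [IsAlgClosed k] (R : Type u) [Ring R] [Algebra k R]
    [FiniteDimensional k R]
    (L : Lib k) :
    S_OTREX k R := by
  intro d Φ hΦ A
  choose t ht using otrex_ex hΦ A
  refine ⟨⟨A.app, A.nat, fun T => ⟨⟨t T, fun ξ η => evm_ext fun l => ?_⟩,
    fun q ξ => evm_ext fun l => ?_⟩, ht⟩, fun _ => rfl⟩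
  · rw [map_add, ht, ht, ht, map_add, map_add, LinearMap.add_comp]
  · rw [RingHom.id_apply, evm_smul, ht, ht, evm_smul, Φ.map_comp, LinearMap.comp_assoc,
      LinearMap.comp_assoc, ← A.nat]
    rfl

end

end Pool.Agent.P.MP_cf639b_al
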