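import Pool.Agent.P.MP_cf639b_al.IfO

set_option linter.dupNamespace false

namespace Pool.Agent.P.MP_cf639b_al

universe u v
open TensorProduct Polynomial Function

section
variable {k : Type u} [Field k] {R : Type u} [Ring R] [Algebra k R]
  {K : Type u} [Field K] [Algebra k K] {T : Md k R}

/-- contraction with a functional -/
noncomputable def oval_con (μ : K →ₗ[k] k) (T : Md k R) : K ⊗[k] T →ₗ[k] T :=
  TensorProduct.lift (LinearMap.lsmul k T ∘ₗ μ)

theorem oval_con_tmul (μ : K →ₗ[k] k) (a : K) (y : T) : oval_con μ T (a ⊗ₜ y) = μ a • y := by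
  simp [oval_con]

theorem oval_ext {w w' : K ⊗[k] T} (h : ∀ μ, oval_con μ T w = oval_con μ T w') : w = w' := by
  classical
  let B := Module.Basis.ofVectorSpace k K
  have e : ∀ i (w : K ⊗[k] T), equivFinsuppOfBasisLeft B w i = oval_con (B.coord i) T w := by
    intro i w
    induction w using TensorProduct.induction_on with
    | zero => simp
    | tmul a y => simp [oval_con_tmul]
    | add x y hx hy => simp only [map_add, Finsupp.add_apply, hx, hy]
  exact (equivFinsuppOfBasisLeft B).injective (Finsupp.ext fun i => by rw [e, e, h])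

theorem oval_ctr (μ : K →ₗ[k] k) (t v : K) (z : ℕ →₀ T) :
    ctr (one k t).V μ T z v = oval_con μ T (v • valT t T z) := by
  induction z using Finsupp.induction_linear with
  | zero => simp
  | add x y hx hy => simp only [map_add, LinearMap.add_apply, hx, hy, smul_add]
  | single l y =>
    rw [ctr_single, valT_single, smul_tmul', oval_con_tmul]
    change μ ((LinearMap.mulLeft k t ^ l) v) • y = _
    rw [LinearMap.pow_mulLeft, LinearMap.mulLeft_apply, smul_eq_mul, mul_comm]

theorem oval_inj {t : K} (ht : Transcendental k t) : Injective (valT t T) := by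
  obtain ⟨g, hg⟩ := (aeval t : k[X] →ₐ[k] K).toLinearMap.exists_leftInverse_of_injective
    (LinearMap.ker_eq_bot.2 (transcendental_iff_injective.1 ht))
  have e : ∀ l (z : ℕ →₀ T), oval_con (lcoeff k l ∘ₗ g) T (valT t T z) = z l := by
    intro l z
    induction z using Finsupp.induction_linear with
    | zero => simp
    | add x y hx hy => simp only [map_add, Finsupp.add_apply, hx, hy]
    | single m y =>
      have := LinearMap.congr_fun hg (X ^ m)
      simp only [LinearMap.comp_apply, AlgHom.toLinearMap_apply, map_pow, aeval_X,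
        LinearMap.id_apply] at this
      rw [valT_single, oval_con_tmul, LinearMap.comp_apply, this, lcoeff_apply, coeff_X_pow,
        Finsupp.single_apply]
      split_ifs <;> first | (exfalso; omega) | simp
  exact fun z z' h => Finsupp.ext fun l => by rw [← e, ← e, h]

theorem oval_shift (t : K) (i : ℕ) (z : ℕ →₀ T) :
    valT t T ((shift R T ^ i) z) = t ^ i • valT t T z := by
  induction z using Finsupp.induction_linear with
  | zero => simp
  | add x y hx hy => simp only [map_add, hx, hy, smul_add]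
  | single l y => rw [shift_pow_single, valT_single, valT_single, smul_tmul', smul_eq_mul, ← pow_add,
      add_comm]

theorem oval_sum (t : K) {j : ℕ} {z : ℕ →₀ T} (h : ∀ l, j < l → z l = 0) :
    valT t T z = ∑ l ∈ Finset.range (j + 1), (t ^ l) ⊗ₜ[k] z l := by
  rw [valT, Finsupp.lsum_apply, Finsupp.sum_of_support_subset _ (s := Finset.range (j + 1))
    (fun l hl => by
      by_contra h'
      exact Finsupp.mem_support_iff.1 hl (h l (by simpa using h'))) _ (by simp)]
  rfl

theorem oval_refl {t : K} (ht : t ≠ 0) {j : ℕ} {z z' : ℕ →₀ T} (h : ∀ l, j < l → z l = 0)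
    (h' : ∀ l, j < l → z' l = 0) (e : ∀ l ≤ j, z' l = z (j - l)) :
    valT t T z = t ^ j • valT t⁻¹ T z' := by
  rw [oval_sum t h, oval_sum _ h', Finset.smul_sum, ← Finset.sum_flip]
  refine Finset.sum_congr rfl fun l hl => ?_
  have hl : l ≤ j := by simpa [Nat.lt_succ_iff] using hl
  rw [e l hl, smul_tmul', smul_eq_mul, inv_pow, pow_sub₀ _ ht hl]

theorem oval_rev {n0 n1 r : ℕ} {c c' : ℕ → Matrix (Fin n1) (Fin n0) R}
    (h : ∀ i ≤ r, c' (r - i) = c i) {j : ℕ} (ξ : ZZ ⟨n0, n1, r, c⟩ T) (hξ : ξ ∈ Zd _ j T) :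
    ∃ η ∈ Zd ⟨n0, n1, r, c'⟩ j T, ∀ b, ∀ l ≤ j, ZZ.v η b l = ZZ.v ξ b (j - l) := by
  let z : Fin n0 → ℕ →₀ T := fun b => Finsupp.onFinset (Finset.range (j + 1))
    (fun l => if l ≤ j then ZZ.v ξ b (j - l) else 0) fun l hl => by
      by_contra h'
      exact hl (if_neg (by simpa using h'))
  have hz : ∀ b l, z b l = if l ≤ j then ZZ.v ξ b (j - l) else 0 := fun _ _ => rfl
  refine ⟨ZZ.mk z (funext fun a => Finsupp.ext fun l => ?_), fun b l hl => ?_, fun b l hl => ?_⟩
  · have h1 := ξ.sol_apply a (j + r - l)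
    change (∑ i ∈ Finset.range (r + 1), ∑ b, c' i a b • (shift R T ^ i) (z b)) l = 0
    simp only [Finsupp.finsetSum_apply, Finsupp.smul_apply, shift_pow_apply, hz]
    rw [← Finset.sum_flip]
    by_cases hl : l ≤ j + r
    · refine Eq.trans (Finset.sum_congr rfl fun i hi => Finset.sum_congr rfl fun b _ => ?_) h1
      have hi : i ≤ r := by simpa [Nat.lt_succ_iff] using hi
      rw [h i hi]
      refine congrArg _ ?_
      split_ifs <;> first | omega | rfl | exact congrArg _ (by omega) | exact (hξ b _ (by omega)).symm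
    · refine Finset.sum_eq_zero fun i _ => Finset.sum_eq_zero fun b _ => ?_
      rw [if_pos (by omega), if_neg (by omega), smul_zero]
  · exact (hz b l).trans (if_neg (by omega))
  · exact (hz b l).trans (if_pos hl)

theorem oval_rel {n0 n1 r : ℕ} {c c' : ℕ → Matrix (Fin n1) (Fin n0) R}
    (h : ∀ i ≤ r, c' (r - i) = c i) {W : Type u} [AddCommGroup W] [Module k W]
    {x y : Module.End k W} (e : y * x = 1) (a : Fin n1) (v : W) :
    ∑ i ∈ Finset.range (r + 1), ∑ b, c i a b • gen ⟨n0, n1, r, c'⟩ ⟨W, y⟩ b ((x ^ i) v) = 0 := by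
  have e' : ∀ m : ℕ, y ^ m * x ^ m = 1 := fun m => by
    induction m with
    | zero => simp
    | succ m ih => rw [pow_succ, pow_succ', mul_assoc, ← mul_assoc y, e, one_mul, ih]
  have h1 := gen_rel (k := k) ⟨n0, n1, r, c'⟩ ⟨W, y⟩ a ((x ^ r) v)
  rw [← Finset.sum_flip] at h1
  refine Eq.trans (Finset.sum_congr rfl fun i hi => Finset.sum_congr rfl fun b _ => ?_) h1
  have hi : i ≤ r := by simpa [Nat.lt_succ_iff] using hi
  have e2 : (x ^ i) v = (y ^ (r - i)) ((x ^ r) v) := by
    rw [← Module.End.mul_apply, ← pow_sub_mul_pow x hi, ← mul_assoc, e', one_mul]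
  rw [e2, ← h i hi]
end

theorem oval_main (k : Type u) [Field k] (R : Type u) [Ring R] [Algebra k R] :
    S_OVAL k R where
  inj d T K _ _ t ht ξ η h := ZZ.v_inj (funext fun b => oval_inj ht (congrFun h b))
  smul d T K _ _ t q ξ := by
    induction q using Polynomial.induction_on' with
    | add p q hp hq => rw [add_smul, map_add, hp, hq, map_add, add_smul]
    | monomial i c =>
      rw [← smul_X_eq_monomial, smul_assoc, map_smul, map_smul (aeval t), smul_assoc, map_pow,
        aeval_X]
      refine congrArg _ (funext fun b => ?_)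
      rw [val_apply, ZZ.v_X_pow, oval_shift]; rfl
  zmap d T T' K _ _ t g ξ b := by
    rw [val_apply, val_apply, v_zmap']
    induction ZZ.v ξ b using Finsupp.induction_linear with
    | zero => simp
    | add x y hx hy => simp only [map_add, hx, hy]
    | single l y => simp
  rev d T j ξ hξ := by
    obtain ⟨η, h1, h2⟩ := oval_rev (c := d.c) (c' := d.rev.c) (r := d.r)
      (fun i hi => congrArg d.c (by omega)) ξ hξ
    exact ⟨η, h1, fun K _ _ t ht => funext fun b => oval_refl ht (hξ b) (h1 b) (h2 b)⟩
  rev' d T j η hη := by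
    obtain ⟨ξ, h1, h2⟩ := oval_rev (c := d.rev.c) (c' := d.c) (r := d.r) (fun i hi => rfl) η hη
    exact ⟨ξ, h1, fun K _ _ t ht => funext fun b => oval_refl ht (h1 b) (hη b) fun l hl =>
      ((h2 b _ (by omega)).trans (congrArg _ (by omega))).symm⟩
  evm d T K _ _ t c ξ η := by
    have e : ∀ (d : Fam R) (t : K) (ξ : ZZ d T) (μ : K →ₗ[k] k) b (v : K),
        evm d (one k t).V μ T ξ (gen d (one k t).V b v) = oval_con μ T (v • val d T t ξ b) :=
      fun d t ξ μ b v => (evm_gen (one k t).V μ ξ b v).trans (oval_ctr μ t v _)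
    constructor
    · intro h μ b v
      refine (e ..).trans (Eq.trans ?_ (e ..).symm)
      rw [h, mul_comm, mul_smul]; rfl
    · intro h
      refine funext fun b => oval_ext fun μ => ?_
      have := (e ..).symm.trans ((h μ b 1).trans (e ..))
      rwa [one_smul, mul_one] at this
  rho d V y h1 h2 := by
    refine ⟨Mlift d V (fun b => gen d.rev ⟨V.T, y⟩ b)
      (oval_rel (c := d.c) (c' := d.rev.c) (r := d.r) (fun i hi => congrArg d.c (by omega)) h2),
      Mlift d.rev ⟨V.T, y⟩ (fun b => gen d V b)
        (oval_rel (c := d.rev.c) (c' := d.c) (r := d.r) (fun i hi => rfl) h1),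
      fun b v => Mlift_gen .., fun b v => Mlift_gen .., M_ext fun b v => ?_, M_ext fun b v => ?_⟩ <;>
    · rw [LinearMap.comp_apply, Mlift_gen]
      exact Mlift_gen ..

theorem t_OVAL (k : Type u) [Field k] [IsAlgClosed k] (R : Type u) [Ring R] [Algebra k R]
    [FiniteDimensional k R]
    (L : Lib k) :
    S_OVAL k R := by
  exact oval_main k R

end Pool.Agent.P.MP_cf639b_al
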