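import Pool.Agent.P.MP_cf639b_al.T.OCMP
import Pool.Agent.P.MP_cf639b_al.T.OG
import Pool.Agent.P.MP_cf639b_al.T.OB
import Pool.Agent.P.MP_cf639b_al.T.OHA
import Pool.Agent.P.MP_cf639b_al.T.OHL
import Pool.Agent.P.MP_cf639b_al.T.OLC
import Pool.Agent.P.MP_cf639b_al.T.OMAIN
import Pool.Agent.P.MP_cf639b_al.T.OMIN
import Pool.Agent.P.MP_cf639b_al.T.OREV
import Pool.Agent.P.MP_cf639b_al.T.OSN
import Pool.Agent.P.MP_cf639b_al.T.OTREX
import Pool.Agent.P.MP_cf639b_al.T.OTW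
import Pool.Agent.P.MP_cf639b_al.T.OVAL

set_option linter.dupNamespace false

namespace Pool.Agent.P.MP_cf639b_al

universe u v

theorem t_O1 (k : Type u) [Field k] [IsAlgClosed k] (R : Type u) [Ring R] [Algebra k R]
    [FiniteDimensional k R] (L : Lib k) (hrev : S_CKrev k R) (_hN : S_NTH k R) (h0 : S_L0 k R)
    (hAK : S_AK k R) (hNA : S_NA k R) (hW : S_WINX k R) : S_O1 k R :=
  have hB := t_OB k R L
  have hV := t_OVAL k R L
  have hL := t_OLC k R L hB
  have hT := t_OTW k R L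
  have hR := t_OREV k R L hV
  t_OG k R L hrev h0 hB (t_OCMP k R L hrev hAK hNA hW (t_OTREX k R L) hV hL) hL hT hR
    (t_OHL k R L hV hT hR (t_OSN k R L) (t_OGAM k R L) (t_OHA k R L hB))
    (t_OMAIN k R L hL (t_OMIN k R L))

end Pool.Agent.P.MP_cf639b_al
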