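import Pool.Agent.P.MP_cf639b_al.Iface

set_option linter.dupNamespace false

namespace Pool.Agent.P.MP_cf639b_al

universe u v
open TensorProduct Polynomial Function

theorem orth_dual {F : Type u} [Field F] {E : Type u} [AddCommGroup E] [Module F E]
    (x : Module.End F E) (hx : Module.Finite F[X] (Module.AEval' x)) (u : E)
    (hu : ∀ h : F[X], h ≠ 0 → aeval x h u ≠ 0) :
    ∃ B : E →ₗ[F] F[X], B u ≠ 0 ∧ ∀ t, B (x t) = X * B t := by
  have h1 : Module.AEval'.of x u ∉ Submodule.torsion F[X] (Module.AEval' x) := by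
    rintro ⟨h, e⟩
    exact hu h.1 (nonZeroDivisors.ne_zero h.2) e
  obtain ⟨β, hβ, -⟩ := Submodule.exists_dual_map_eq_bot_of_notMem h1 inferInstance
  refine ⟨β.restrictScalars F ∘ₗ (Module.AEval'.of x).toLinearMap, hβ, fun t => ?_⟩
  change β (Module.AEval'.of x (x t)) = X * β (Module.AEval'.of x t)
  rw [← Module.AEval'.X_smul_of, map_smul, smul_eq_mul]

section aux
variable {k : Type u} [Field k] {R : Type u} [Ring R] [Algebra k R]
  {F : Type u} [Field F] [Algebra k F]

theorem orth_shift {T : Type u} [AddCommGroup T] [Module R T] (i l : ℕ) (f : ℕ →₀ T) :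
    (shift R T ^ i) f l = if i ≤ l then f (l - i) else 0 := by
  induction f using Finsupp.induction_linear with
  | zero => simp
  | add f g hf hg =>
    rw [map_add, Finsupp.add_apply, hf, hg]
    split_ifs <;> simp
  | single m t =>
    rw [shift_pow_single, Finsupp.single_apply, Finsupp.single_apply]
    split_ifs <;> first | rfl | omega

/-- the generators of `EE` -/
noncomputable def orth_g (d : Fam R) (A : FO k R F) (a : Fin d.n1) (l : ℕ) :
    A.X →ₗ[F] EE d A.X where
  toFun t := Emk d A.X (Pi.single a (Finsupp.single l t))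
  map_add' t t' := by rw [Finsupp.single_add, Pi.single_add, map_add]
  map_smul' c t := by
    rw [RingHom.id_apply, EE.smul_def, Emap_mk]
    refine congrArg _ (funext fun b => ?_)
    by_cases hb : b = a
    · subst hb; simp [FO.smul_def]
    · simp [hb]

theorem orth_g_succ (d : Fam R) (A : FO k R F) (a : Fin d.n1) (l : ℕ) (t : A.X) :
    orth_g d A a (l + 1) t = EXF d A (orth_g d A a l t) := by
  change Emk d A.X _ = EX d A.X (Emk d A.X _)
  rw [EX_mk]
  refine congrArg _ (funext fun b => ?_)
  by_cases hb : b = a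
  · subst hb; simp
  · simp [hb]

theorem orth_coeff (d : Fam R) (A : FO k R F) (B : EE d A.X →ₗ[F] F[X])
    (hB : ∀ t, B (EXF d A t) = X * B t) (w : Fin d.n1 → ℕ →₀ A.X) (l : ℕ) :
    (B (Emk d A.X w)).coeff l =
      ∑ a, ∑ i ∈ Finset.range (l + 1), (B (orth_g d A a 0 (w a (l - i)))).coeff i := by
  have h1 : ∀ a m t, B (orth_g d A a m t) = X ^ m * B (orth_g d A a 0 t) := by
    intro a m t
    induction m with
    | zero => simp
    | succ m ih => rw [orth_g_succ, hB, ih, pow_succ', mul_assoc]
  conv_lhs => rw [← Finset.univ_sum_single w, map_sum, map_sum, finset_sum_coeff]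
  refine Finset.sum_congr rfl fun a _ => ?_
  induction w a using Finsupp.induction_linear with
  | zero => simp
  | add f g hf hg =>
    simp only [Pi.single_add, map_add, coeff_add, hf, hg, Finsupp.add_apply,
      Finset.sum_add_distrib]
  | single m t =>
    refine (congrArg (coeff · l) (h1 a m t)).trans ?_
    change (X ^ m * B (orth_g d A a 0 t)).coeff l = _
    rw [coeff_X_pow_mul']
    split_ifs with hm
    · rw [Finset.sum_eq_single (l - m)]
      · rw [show l - (l - m) = m by omega, Finsupp.single_eq_same]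
      · intro i hi hne
        have := Finset.mem_range.1 hi
        rw [Finsupp.single_eq_of_ne (by omega), map_zero, map_zero, coeff_zero]
      · intro h
        exact absurd (Finset.mem_range.2 (by omega)) h
    · refine (Finset.sum_eq_zero fun i _ => ?_).symm
      rw [Finsupp.single_eq_of_ne (by omega), map_zero, map_zero, coeff_zero]

end aux

theorem t_ORTH (k : Type u) [Field k] [IsAlgClosed k] (R : Type u) [Ring R] [Algebra k R]
    [FiniteDimensional k R]
    (L : Lib k) :
    S_ORTH k R := by
  intro S _ _ _ σ d F _ _ A hA w hw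
  by_contra hn
  obtain ⟨B, hB0, hB⟩ := orth_dual (EXF d A) ((L.noe R).fin F d A hA) (Emk d A.X w)
    fun h h0 e => hn ⟨h, h0, e⟩
  obtain ⟨s, hs⟩ := (Module.Finite.fg_top : (⊤ : Submodule F A.X).FG)
  have hfin : ∀ a, (Function.support fun i =>
      DT.of σ (lcoeff F i ∘ₗ B ∘ₗ orth_g d A a 0)).Finite := by
    intro a
    refine (s.finite_toSet.biUnion fun t _ =>
      (B (orth_g d A a 0 t)).support.finite_toSet).subset fun i hi => ?_
    by_contra hc
    refine hi (LinearMap.ext_on hs fun t ht => ?_)
    by_contra h0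
    exact hc (Set.mem_biUnion ht (mem_support_iff.2 h0))
  let z : Fin d.n1 → ℕ →₀ DT σ A := fun a => Finsupp.ofSupportFinite _ (hfin a)
  have hz : ∀ a i t, z a i t = (B (orth_g d A a 0 t)).coeff i := fun _ _ _ => rfl
  have h1 : ∀ a m t, B (orth_g d A a m t) = X ^ m * B (orth_g d A a 0 t) := by
    intro a m t
    induction m with
    | zero => simp
    | succ m ih => rw [orth_g_succ, hB, ih, pow_succ', mul_assoc]
  refine hB0 (Polynomial.ext fun l => ?_)
  rw [orth_coeff d A B hB]
  refine hw z (funext fun b => Finsupp.ext fun m => DT.ext (σ := σ) (A := A) fun t => ?_) l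
  let ev : (ℕ →₀ DT σ A) →+ F :=
    { toFun := fun f => f m t
      map_zero' := rfl
      map_add' := fun _ _ => rfl }
  have e1 : Emk d A.X (DX d A.X (Pi.single b (Finsupp.single 0 t))) =
      ∑ a, ∑ i ∈ Finset.range (d.r + 1), orth_g d A a i (d.c i a b • t) := by
    conv_lhs => rw [← Finset.univ_sum_single (DX d A.X _), map_sum]
    refine Finset.sum_congr rfl fun a _ => ?_
    rw [Dop_apply, ← LinearMap.single_apply k (fun _ : Fin d.n1 => ℕ →₀ A.X), map_sum, map_sum]
    refine Finset.sum_congr rfl fun i _ => ?_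
    rw [Finset.sum_eq_single b (fun b' _ hb => by simp [hb]) (by simp)]
    change _ = Emk d A.X _
    simp
  have e2 := congrArg (fun u => (B u).coeff m) e1
  rw [Emk_eq_zero.2 ⟨_, rfl⟩] at e2
  simp only [map_zero, coeff_zero, map_sum, finset_sum_coeff] at e2
  change ev (∑ i ∈ Finset.range (d.r + 1), ∑ a,
    σ.e (d.c i a b) • (shift S (DT σ A) ^ i) (z a)) = 0
  rw [map_sum, e2, Finset.sum_comm]
  refine Finset.sum_congr rfl fun i _ => ?_
  rw [map_sum]
  refine Finset.sum_congr rfl fun a _ => ?_
  change (shift S (DT σ A) ^ i) (z a) m (σ.e.symm (σ.e (d.c i a b)) • t) = _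
  rw [LinearEquiv.symm_apply_apply, orth_shift, h1, coeff_X_pow_mul']
  split_ifs
  · exact hz _ _ _
  · rfl

end Pool.Agent.P.MP_cf639b_al
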