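import Pool.Agent.P.MP_cf639b_al.Iface

set_option linter.dupNamespace false

namespace Pool.Agent.P.MP_cf639b_al

universe u v
open TensorProduct Polynomial Function

theorem pdim_lin {F H W : Type*} [Field F] [AddCommGroup H] [Module F H] [AddCommGroup W]
    [Module F W] [Module.Finite F H] [Module.Finite F W] (Φ Ψ : Submodule F H)
    (G : Submodule F (H × W)) (h1 : ∀ t ∈ Φ, ∃ w, (t, w) ∈ G) (h2 : ∀ x ∈ G, x.1 ∈ Φ)
    (h3 : ∀ t, (t, 0) ∈ G → t ∈ Ψ) :
    Module.finrank F Φ ≤ Module.finrank F (Φ ⊓ Ψ : Submodule F H) + Module.finrank F W := by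
  have e1 : Module.finrank F Φ ≤ Module.finrank F G :=
    (Submodule.finrank_mono (s := Φ) (t := G.map (LinearMap.fst F H W)) fun t ht =>
      (h1 t ht).elim fun w hw => ⟨_, hw, rfl⟩).trans (Submodule.finrank_map_le _ _)
  have e2 := LinearMap.finrank_range_add_finrank_ker (LinearMap.snd F H W ∘ₗ G.subtype)
  have e3 := Submodule.finrank_le (LinearMap.range (LinearMap.snd F H W ∘ₗ G.subtype))
  have e4 : Module.finrank F (LinearMap.ker (LinearMap.snd F H W ∘ₗ G.subtype)) ≤
      Module.finrank F (Φ ⊓ Ψ : Submodule F H) := by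
    refine LinearMap.finrank_le_finrank_of_injective (f := LinearMap.codRestrict (Φ ⊓ Ψ)
      (LinearMap.fst F H W ∘ₗ G.subtype ∘ₗ Submodule.subtype _) fun x => ⟨h2 _ x.1.2, h3 _ ?_⟩)
      fun x y e => Subtype.ext (Subtype.ext (Prod.ext (congrArg Subtype.val e)
        ((show x.1.1.2 = 0 from x.2).trans (show y.1.1.2 = 0 from y.2).symm)))
    have := x.1.2
    rw [← show x.1.1.2 = 0 from x.2]
    exact this
  omega

theorem t_PDIM (k : Type u) [Field k] [IsAlgClosed k] (R : Type u) [Ring R] [Algebra k R]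
    [FiniteDimensional k R]
    (L : Lib k) :
    S_PDIM k R := by
  constructor
  · intro π F _ _ A B hB hs
    have := (L.fd R).homU F π.U A π.fd ((L.id R).smd_fd F A B hs hB).1
    have := (L.fd R).homU F π.U B π.fd hB
    obtain ⟨i, hi, p, hp, e⟩ := hs
    let N := (π.ψ.evF B).comap (π.φ.evF B).subtype
    have hc : ∀ (c : F) (t : π.U →ₗ[R] A.X), i ∘ₗ (c • t) = c • (i ∘ₗ t) := fun c t =>
      LinearMap.ext fun x => hi c (t x)
    have h1 := pdim_lin (π.φ.evF A) (π.ψ.evF A) (W := π.φ.evF B ⧸ N)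
      { carrier := {x | x.1 ∈ π.φ.evF A ∧ ∃ b : π.φ.evF B, b.1 = i ∘ₗ x.1 ∧ N.mkQ b = x.2}
        add_mem' := fun ⟨a1, b, a2, a3⟩ ⟨c1, d, c2, c3⟩ => ⟨add_mem a1 c1, b + d, by
          rw [Submodule.coe_add, a2, c2, Prod.fst_add, LinearMap.comp_add], by
          rw [map_add, a3, c3, Prod.snd_add]⟩
        zero_mem' := ⟨zero_mem _, 0, by simp, map_zero _⟩
        smul_mem' := fun c _ ⟨a1, b, a2, a3⟩ => ⟨Submodule.smul_mem _ c a1, c • b, by
          rw [Submodule.coe_smul, a2, Prod.smul_fst, hc], by rw [map_smul, a3, Prod.smul_snd]⟩ }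
      (fun t ht => ⟨_, ht, ⟨i ∘ₗ t, PP.comp_mem i ht⟩, rfl, rfl⟩) (fun x hx => hx.1)
      fun t ⟨_, b, a2, a3⟩ => by
        have a4 : b.1 ∈ π.ψ.ev B.X := (Submodule.Quotient.mk_eq_zero N).1 a3
        have := PP.comp_mem p a4
        rw [a2, ← LinearMap.comp_assoc, e] at this
        exact this
    have h2 := Submodule.finrank_quotient_add_finrank N
    have h3 := Submodule.finrank_map_subtype_eq (π.φ.evF B) N
    rw [Submodule.map_comap_subtype] at h3
    unfold Pr.dim
    omega
  · intro π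
    have := π.fd
    have := π.ψ.fd
    have : Module.Finite R π.U := Module.Finite.of_restrictScalars_finite k R _
    have : Module.Finite R π.ψ.Z := Module.Finite.of_restrictScalars_finite k R _
    obtain ⟨n, g, hg⟩ := Module.Finite.exists_fin' R π.ψ.Z
    have : IsNoetherian R (Fin n → R) :=
      isNoetherian_of_tower k (inferInstance : IsNoetherian k (Fin n → R))
    obtain ⟨a, e, he⟩ := Submodule.fg_iff_exists_fin_generating_family.1
      (IsNoetherian.noetherian (LinearMap.ker g))
    obtain ⟨b, u, hu⟩ := Module.Finite.exists_fin (R := R) (M := π.U)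
    choose s hs using fun j => hg (π.ψ.u (u j))
    refine ⟨a + b, fun F _ _ B Z A hZ i hi p hp i1 ex p1 cl => ?_⟩
    have := (L.fd R).homU F π.U Z π.fd hZ
    have : Module.Finite F B.X := Module.Finite.of_injective (HomF.lin hi) i1
    have h1 := pdim_lin (π.φ.evF Z) (π.ψ.evF Z) (W := (Fin a → B.X) × (Fin b → B.X))
      { carrier := {x | x.1 ∈ π.φ.evF Z ∧ ∃ γ : (Fin n → R) →ₗ[R] Z.X,
          (∀ j, γ (e j) = i (x.2.1 j)) ∧ ∀ j, x.1 (u j) - γ (s j) = i (x.2.2 j)}
        add_mem' := fun ⟨a1, γ, a2, a3⟩ ⟨c1, δ, c2, c3⟩ => ⟨add_mem a1 c1, γ + δ, fun j => by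
          simp [a2, c2], fun j => by
          simp only [Prod.fst_add, Prod.snd_add, LinearMap.add_apply, Pi.add_apply, map_add,
            ← a3, ← c3]
          abel⟩
        zero_mem' := ⟨zero_mem _, 0, by simp, by simp⟩
        smul_mem' := fun c _ ⟨a1, γ, a2, a3⟩ => ⟨Submodule.smul_mem _ c a1, c • γ, fun j => by
          simp only [Prod.smul_snd, Prod.smul_fst, LinearMap.smul_apply, Pi.smul_apply, a2]
          exact (hi c _).symm, fun j => by
          simp only [Prod.smul_snd, Prod.smul_fst, LinearMap.smul_apply, Pi.smul_apply,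
            ← smul_sub, a3]
          exact (hi c _).symm⟩ }
      (fun t ht => by
        obtain ⟨β, hβ⟩ := not_not.1 cl (PP.comp_mem p ht)
        obtain ⟨γ, hγ⟩ := Module.projective_lifting_property p (β ∘ₗ g) p1
        have q : ∀ x, p (γ x) = β (g x) := LinearMap.congr_fun hγ
        choose x hx using fun j => (ex (γ (e j))).1 (by
          rw [q, show g (e j) = 0 from he.le (Submodule.subset_span ⟨j, rfl⟩), map_zero])
        choose y hy using fun j => (ex (t (u j) - γ (s j))).1 (by
          rw [map_sub, q, hs, sub_eq_zero]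
          exact LinearMap.congr_fun hβ (u j))
        exact ⟨(x, y), ht, γ, fun j => (hx j).symm, fun j => (hy j).symm⟩) (fun x hx => hx.1)
      fun t ⟨_, γ, a2, a3⟩ => by
        have q : LinearMap.ker g ≤ LinearMap.ker γ := by
          rw [← he, Submodule.span_le]
          rintro _ ⟨j, rfl⟩
          exact (a2 j).trans (map_zero i)
        refine ⟨(LinearMap.ker g).liftQ γ q ∘ₗ (g.quotKerEquivOfSurjective hg).symm.toLinearMap,
          LinearMap.ext_on_range hu fun j => ?_⟩
        rw [LinearMap.comp_apply, LinearMap.comp_apply, ← hs, LinearEquiv.coe_coe,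
          LinearMap.quotKerEquivOfSurjective_symm_apply, Submodule.liftQ_apply]
        exact sub_eq_zero.1 ((a3 j).trans (map_zero i))
    rw [Module.finrank_prod, Module.finrank_pi_fintype, Module.finrank_pi_fintype] at h1
    simp only [Finset.sum_const, Finset.card_univ, Fintype.card_fin, smul_eq_mul] at h1
    unfold Pr.dim FO.dim
    rw [add_mul]
    omega

end Pool.Agent.P.MP_cf639b_al
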