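import Pool.Agent.P.MP_cf639b_al.Iface

set_option linter.dupNamespace false

namespace Pool.Agent.P.MP_cf639b_al

universe u v
open TensorProduct Polynomial Function

theorem rel_lin {F : Type u} [Field F] {V : Type u} [AddCommGroup V] [Module F V]
    [Module.Finite F V] (W : Submodule F V) (t : V →ₗ[F] V) (ht : W ≤ W.comap t)
    (hs : ∀ v, ∃ w, t w - v ∈ W) (v : V) (hv : t v ∈ W) : v ∈ W := by
  have h1 : Surjective (W.mapQ W t ht) := by
    intro x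
    obtain ⟨v, rfl⟩ := W.mkQ_surjective x
    obtain ⟨w, hw⟩ := hs v
    exact ⟨W.mkQ w, (Submodule.Quotient.eq W).2 hw⟩
  have h2 := LinearMap.injective_iff_surjective.2 h1
  have h3 : W.mapQ W t ht (W.mkQ v) = W.mapQ W t ht 0 := by
    rw [map_zero]
    exact (Submodule.Quotient.mk_eq_zero W).2 hv
  exact (Submodule.Quotient.mk_eq_zero W).1 (h2 h3)

section aux
variable {k : Type u} [Field k] {R : Type u} [Ring R] [Algebra k R] [FiniteDimensional k R]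
  {F : Type u} [Field F] [Algebra k F]

theorem rel_sand (hI : S_ID k R) {A B : FO k R F} {u : A.X →ₗ[R] B.X} (hu : u ∈ HomF A B)
    {e : B.X →ₗ[R] B.X} {e' : A.X →ₗ[R] A.X} (he : e - LinearMap.id ∈ I0 B B)
    (he' : e' - LinearMap.id ∈ I0 A A) (hm : e' ∈ HomF A A) : e ∘ₗ u ∘ₗ e' - u ∈ I0 A B := by
  have h := add_mem (hI.i0_r F A B B _ he _ (HomF.comp hu hm)) (hI.i0_l F A A B _ he' _ hu)
  have e1 : (e - LinearMap.id) ∘ₗ u ∘ₗ e' + u ∘ₗ (e' - LinearMap.id) = e ∘ₗ u ∘ₗ e' - u :=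
    LinearMap.ext fun x => by simp
  exact e1 ▸ h

omit [FiniteDimensional k R] in
/-- the `F`-linear map `f ↦ m Φ(f) s` -/
noncomputable def rel_t (Φ : AFun k R) {A B : FO k R F} {m : Φ.obj B.X →ₗ[R] B.X}
    {s : A.X →ₗ[R] Φ.obj A.X} (hm : m ∈ HomF (Φ.onF B) B) (hs : s ∈ HomF A (Φ.onF A)) :
    HomF A B →ₗ[F] HomF A B where
  toFun f := ⟨m ∘ₗ Φ.map f.1 ∘ₗ s, HomF.comp hm (HomF.comp (Φ.map_mem f.2) hs)⟩
  map_add' f g := Subtype.ext (LinearMap.ext fun x => by simp)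
  map_smul' c f := Subtype.ext (LinearMap.ext fun x => by
    change m (Φ.map (B.act c ∘ₗ f.1) (s x)) = c • m (Φ.map f.1 (s x))
    rw [Φ.map_comp]
    exact hm c _)

end aux

theorem t_REL (k : Type u) [Field k] [IsAlgClosed k] (R : Type u) [Ring R] [Algebra k R]
    [FiniteDimensional k R]
    (L : Lib k) :
    S_REL k R := by
  intro F _ _ A B hA hB hTA hTB
  obtain ⟨aA, haA, bA, hbA, -, hA2⟩ := hTA
  obtain ⟨aB, haB, bB, hbB, -, hB2⟩ := hTB
  have hI := L.id R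
  have hQ := L.qq R
  have hS := L.st R
  obtain ⟨g, hg, hg1, -⟩ := hS.eps_inv F A
  have hm : eps B.X ∘ₗ Tm.map aB ∈ HomF (Tm.onF B) B :=
    HomF.comp (hI.eps_mem F B) (Tm.map_mem haB)
  have hs : Tm.map bA ∘ₗ g ∈ HomF A (Tm.onF A) := HomF.comp (Tm.map_mem hbA) hg
  let s := rel_t Tp hbB haA
  let t := rel_t Tm hm hs
  have ts : ∀ f : HomF A B, (t (s f) - f).1 ∈ P0 A B := by
    intro f
    have h1 := rel_sand hI (Tp.map_mem f.2) hB2 hA2 (HomF.comp haA hbA)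
    have h2 := hI.p0_l F _ _ _ _ (hI.p0_r F _ _ _ _ (hS.tm F _ _ _ h1) _ hg) _ (hI.eps_mem F B)
    have h3 := hI.p0_l F _ _ _ _ hg1 _ f.2
    have e : (t (s f) - f).1 = eps B.X ∘ₗ Tm.map ((aB ∘ₗ bB) ∘ₗ Tp.map f.1 ∘ₗ aA ∘ₗ bA -
        Tp.map f.1) ∘ₗ g + f.1 ∘ₗ (eps A.X ∘ₗ g - LinearMap.id) := by
      refine LinearMap.ext fun x => ?_
      have e1 : f.1 (eps A.X (g x)) = eps B.X (Tm.map (Tp.map f.1) (g x)) :=
        LinearMap.congr_fun (hI.eps_nat _ _ f.1) (g x)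
      change eps B.X (Tm.map aB (Tm.map (bB ∘ₗ Tp.map f.1 ∘ₗ aA) (Tm.map bA (g x)))) - f.1 x = _
      simp only [map_sub, Tm.map_comp, LinearMap.add_apply, LinearMap.comp_apply,
        LinearMap.sub_apply, LinearMap.id_apply, e1, sub_add_sub_cancel]
    rw [e]
    exact add_mem h2 h3
  haveI := (L.fd R).hom F A B hA hB
  let W : Submodule F (HomF A B) := (QQ false A B).comap (HomF A B).subtype
  have hP : P0 A B ≤ QQ false A B := hQ.p0 F false A B hA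
  have hI0 : I0 A B ≤ QQ false A B := hQ.i0 F false A B hA
  have tW : W ≤ W.comap t := fun f hf =>
    hQ.l F false _ _ _ _ (hQ.r F false _ _ _ _ (hQ.te F false A B _ hf) _ hs) _ hm
  have key : ∀ f : HomF A B, t f ∈ W → f ∈ W :=
    rel_lin W t tW fun v => ⟨s v, hP (ts v)⟩
  refine Submodule.span_le.2 ?_
  rintro _ ⟨i, a, ha, b, hb, rfl⟩
  induction i with
  | zero => exact sup_le hP hI0 (hQ.t0p F A B a ha b hb)
  | succ i ih =>
    set C := (Tn true i).onF (T0F k R F) with hC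
    have ha' : a ∈ HomF A (Tp.onF C) := ha
    have hb' : b ∈ HomF (Tp.onF C) B := hb
    obtain ⟨g', hg', -, hg2⟩ := hS.eps_inv F C
    have h1 : Tm.map a ∘ₗ Tm.map bA ∘ₗ g ∈ HomF A (Tm.onF (Tp.onF C)) :=
      HomF.comp (Tm.map_mem ha') hs
    have h2 : (eps B.X ∘ₗ Tm.map aB) ∘ₗ Tm.map b ∈ HomF (Tm.onF (Tp.onF C)) B :=
      HomF.comp hm (Tm.map_mem hb')
    have h3 := ih _ (HomF.comp (hI.eps_mem F C) h1) _ (HomF.comp h2 hg')
    have h4 := hP (hI.p0_l F _ _ _ _ (hI.p0_r F _ _ _ _ hg2 _ h1) _ h2)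
    refine key ⟨b ∘ₗ a, HomF.comp hb' ha'⟩ ?_
    have h5 := sub_mem h3 h4
    refine (congrArg (· ∈ QQ false A B) (LinearMap.ext fun x => ?_)).mp h5
    change _ = eps B.X (Tm.map aB (Tm.map (b ∘ₗ a) (Tm.map bA (g x))))
    rw [Tm.map_comp]
    simp only [map_sub, LinearMap.comp_apply, LinearMap.sub_apply, LinearMap.id_apply,
      sub_sub_cancel]
    rfl

end Pool.Agent.P.MP_cf639b_al
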