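import Pool.Agent.P.MP_cf639b_al.Iface

set_option linter.dupNamespace false

namespace Pool.Agent.P.MP_cf639b_al

universe u v
open TensorProduct Polynomial Function

theorem t_STR (k : Type u) [Field k] [IsAlgClosed k] (R : Type u) [Ring R] [Algebra k R]
    [FiniteDimensional k R]
    (hSTRP : S_STRP k R)
    (hSTRO : S_STRO k R)
    (hSTRC : S_STRC k R) :
    S_STR k R := by
  intro S _ _ _ σ H g a hg
  obtain ⟨m, c, h1, h2, h3⟩ := hSTRC S σ H.d g a hg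
  obtain ⟨π, hπ⟩ := hSTRP H.d (g ^ a) m c a
  refine ⟨π, (hπ _).2 (hSTRO H (g ^ a) m c a (pow_ne_zero _ hg) h1 h2), ?_⟩
  intro F _ _ _ A hA s1 s2 e1 e2 hi ho
  obtain ⟨w, hw, hw'⟩ := (hπ _).1 ho
  exact hw' (h3 F A hA s1 s2 e1 e2 hi w hw)

theorem same_expo {k : Type u} [Field k] {R : Type u} [Ring R] [Algebra k R]
    [FiniteDimensional k R] (L : Lib k) {F : Type u} [Field F] [Algebra k F] (d : Fam R)
    (A : FO k R F) (hA : A.fd) (p : k) : ∃ e, Expo d p e A.X := by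
  obtain ⟨e, he⟩ := (L.noe R).expo F d A hA (algebraMap k F p)
  rw [(L.bock R).piE_k] at he
  exact ⟨e, he⟩

theorem t_SAME (k : Type u) [Field k] [IsAlgClosed k] (R : Type u) [Ring R] [Algebra k R]
    [FiniteDimensional k R]
    (L : Lib k)
    (hGOOD : S_GOOD k R)
    (hTUBE : S_TUBE k R)
    (hTUBE2 : S_TUBE2 k R)
    (hSTR : S_STR k R) :
    S_SAME k R := by
  classical
  intro hnd H H' hs F _ _ _ y' n hy'
  obtain ⟨g, hg⟩ := hTUBE H (hGOOD hnd H)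
  have hA : (MF H'.d (J k y' (n + 1))).fd :=
    (L.fd R).m F _ _ ((L.fd R).jq F _ (Jmonic y' (n + 1))).1
  have hD := ((L.dd R).fd _ (Anti.op k R) F _ hA).1
  obtain ⟨a1, s1⟩ := (L.noe R).short F H.d _ hA
  obtain ⟨a2, s2⟩ := (L.noe Rᵐᵒᵖ).short F (H.d.op (Anti.op k R)) _ hD
  choose e he using same_expo L H.d _ hA
  obtain ⟨a4, s4⟩ := same_expo L H.d.rev _ hA 0
  obtain ⟨π, o1, hπ⟩ := hSTR _ (Anti.op k R) H g (a1 + a2 + g.roots.toFinset.sup e + a4) hg.1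
  have o2 : π.Open (MF H'.d (J k y' (n + 1))).X :=
    ((L.sames R).j H'.d F y' n hy' π).2 ((hs π).1 o1)
  have h1 : ¬ ∀ y : F, aeval y g ≠ 0 → Injective (piE H.d (MF H'.d (J k y' (n + 1))) y) := by
    intro hi
    refine hπ F _ hA ((L.noe R).short_mono _ _ _ _ (by omega) s1)
      ((L.noe Rᵐᵒᵖ).short_mono _ _ _ _ (by omega) s2) (fun p hp => ?_)
      ((L.noe R).expo_mono _ _ _ _ _ (by omega) s4) hi o2
    have : e p ≤ g.roots.toFinset.sup e :=
      Finset.le_sup (Multiset.mem_toFinset.2 ((mem_roots hg.1).2 hp))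
    exact (L.noe R).expo_mono _ _ _ _ _ (by omega) (he p)
  obtain ⟨y, hy⟩ := not_forall.1 h1
  obtain ⟨hy1, hy2⟩ := Classical.not_imp.1 hy
  obtain ⟨t1, e', t2⟩ := hTUBE2 H H' g hg F y y' n hy' hy1 hy2
  exact ⟨y, e', t1, t2⟩

end Pool.Agent.P.MP_cf639b_al
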