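import Pool.Agent.P.MP_cf639b_al.Iface

set_option linter.dupNamespace false

namespace Pool.Agent.P.MP_cf639b_al

universe u v
open TensorProduct Polynomial Function

section aux
variable {k : Type u} [Field k] {R : Type u} [Ring R] [Algebra k R]

variable (k) in
/-- a set of models of the finite modules -/
noncomputable def small_md (a : Σ n : ℕ, Submodule R (Fin n → R)) : Md k R :=
  ⟨(Fin a.1 → R) ⧸ a.2⟩

theorem small_fd [FiniteDimensional k R] (a : Σ n : ℕ, Submodule R (Fin n → R)) :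
    (small_md k a).fd :=
  (Module.Finite.of_surjective (a.2.mkQ.restrictScalars k) a.2.mkQ_surjective :
    Module.Finite k ((Fin a.1 → R) ⧸ a.2))

theorem small_ex (A : Md k R) (h : A.fd) :
    ∃ a : Σ n : ℕ, Submodule R (Fin n → R), Nonempty (small_md k a ≃ₗ[R] A) := by
  have := Module.Finite.of_restrictScalars_finite k R A
  obtain ⟨n, f, hf⟩ := Module.Finite.exists_fin' R A
  exact ⟨⟨n, LinearMap.ker f⟩, ⟨f.quotKerEquivOfSurjective hf⟩⟩

theorem small_ev {U U' Z' : Md k R} (φ : PP U) (h : Z'.fd) (e : U' ≃ₗ[R] U) (f : Z' ≃ₗ[R] φ.Z)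
    (T : Md k R) (t : U →ₗ[R] T) : t ∈ φ.ev T ↔ t ∘ₗ e.toLinearMap ∈
      PP.ev ⟨Z', h, f.symm.toLinearMap ∘ₗ φ.u ∘ₗ e.toLinearMap⟩ T := by
  constructor
  · rintro ⟨g, rfl⟩
    exact ⟨g ∘ₗ f.toLinearMap, LinearMap.ext fun x => by simp⟩
  · rintro ⟨g, hg⟩
    refine ⟨g ∘ₗ f.symm.toLinearMap, LinearMap.ext fun x => ?_⟩
    obtain ⟨x, rfl⟩ := e.surjective x
    exact LinearMap.congr_fun hg x

theorem small_open (π : Pr k R) {U Z Z' : Md k R} (hU : U.fd) (hZ : Z.fd) (hZ' : Z'.fd)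
    (e : U ≃ₗ[R] π.U) (f : Z ≃ₗ[R] π.φ.Z) (f' : Z' ≃ₗ[R] π.ψ.Z) (T : Md k R) :
    π.Open T ↔ Pr.Open ⟨U, hU, ⟨Z, hZ, f.symm.toLinearMap ∘ₗ π.φ.u ∘ₗ e.toLinearMap⟩,
      ⟨Z', hZ', f'.symm.toLinearMap ∘ₗ π.ψ.u ∘ₗ e.toLinearMap⟩⟩ T := by
  refine not_congr ⟨fun h t ht => ?_,
    fun h t ht => (small_ev _ hZ' e f' T t).2 (h ((small_ev _ hZ e f T t).1 ht))⟩
  have e1 : t = (t ∘ₗ e.symm.toLinearMap) ∘ₗ e.toLinearMap := LinearMap.ext fun x =>
    congrArg t (e.symm_apply_apply x).symm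
  rw [e1] at ht ⊢
  exact (small_ev _ hZ' e f' T _).1 (h ((small_ev _ hZ e f T _).2 ht))

theorem small_lin [FiniteDimensional k R] {Z T : Md k R} (s : Z →ₗ[k] T)
    {ι : Type} (w : Module.Basis ι k Z)
    (h : ∀ a j, s (bR k R a • w j) = bR k R a • s (w j)) (r : R) (z : Z) :
    s (r • z) = r • s z := by
  have h1 : ∀ a z, s (bR k R a • z) = bR k R a • s z := fun a =>
    LinearMap.congr_fun (w.ext (f₁ := s ∘ₗ DistribSMul.toLinearMap k Z (bR k R a))
      (f₂ := DistribSMul.toLinearMap k T (bR k R a) ∘ₗ s) (h a))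
  exact LinearMap.congr_fun ((bR k R).ext
    (f₁ := s ∘ₗ (LinearMap.toSpanSingleton R Z z).restrictScalars k)
    (f₂ := (LinearMap.toSpanSingleton R T (s z)).restrictScalars k) fun a => h1 a z) r

end aux

theorem t_SMALL (k : Type u) [Field k] [IsAlgClosed k] (R : Type u) [Ring R] [Algebra k R]
    [FiniteDimensional k R] :
    S_SMALL k R := by
  refine ⟨Σ a b c : (Σ n : ℕ, Submodule R (Fin n → R)),
    (small_md k a →ₗ[R] small_md k b) × (small_md k a →ₗ[R] small_md k c),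
    fun i => ⟨small_md k i.1, small_fd _, ⟨_, small_fd _, i.2.2.2.1⟩, ⟨_, small_fd _, i.2.2.2.2⟩⟩,
    fun π => ?_⟩
  obtain ⟨a, ⟨e⟩⟩ := small_ex π.U π.fd
  obtain ⟨b, ⟨f⟩⟩ := small_ex π.φ.Z π.φ.fd
  obtain ⟨c, ⟨f'⟩⟩ := small_ex π.ψ.Z π.ψ.fd
  exact ⟨⟨a, b, c, _, _⟩, small_open π (small_fd a) (small_fd b) (small_fd c) e f f'⟩

theorem t_RP (k : Type u) [Field k] [IsAlgClosed k] (R : Type u) [Ring R] [Algebra k R]
    [FiniteDimensional k R] :
    S_RP k R := by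
  intro I l _ G hG
  let S : Submodule R (∀ i, G i) :=
    { carrier := {x | ∀ᶠ i in l, x i = 0}
      add_mem' := fun hx hy => (Filter.Eventually.and hx hy).mono fun i h => by
        rw [Pi.add_apply, h.1, h.2, add_zero]
      zero_mem' := Filter.Eventually.of_forall fun _ => rfl
      smul_mem' := fun r x hx => Filter.Eventually.mono hx fun i h => by
        rw [Pi.smul_apply, h, smul_zero] }
  have hS : ∀ x y : ∀ i, G i, S.mkQ x = S.mkQ y ↔ ∀ᶠ i in l, x i = y i := fun x y =>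
    (Submodule.Quotient.eq S).trans (Filter.eventually_congr
      (Filter.Eventually.of_forall fun i => sub_eq_zero))
  refine ⟨⟨(∀ i, G i) ⧸ S⟩, ?_, fun π h => not_not.2 ?_⟩
  · choose x hx using fun i => exists_ne (0 : G i)
    refine ⟨S.mkQ x, S.mkQ 0, fun e => ?_⟩
    obtain ⟨i, hi⟩ := ((hS _ _).1 e).exists
    exact hx i hi
  · rintro _ ⟨g, rfl⟩
    have := π.φ.fd
    obtain ⟨s, hs⟩ := Module.projective_lifting_property (S.mkQ.restrictScalars k)
      (g.restrictScalars k) S.mkQ_surjective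
    have hs' : ∀ z, S.mkQ (s z) = g z := LinearMap.congr_fun hs
    let w := Module.finBasis k π.φ.Z
    have h1 : ∀ᶠ i in l, ∀ a j, s (bR k R a • w j) i = bR k R a • s (w j) i :=
      Filter.eventually_all.2 fun a => Filter.eventually_all.2 fun j =>
        (hS _ (bR k R a • s (w j))).1 (by
          rw [S.mkQ.map_smul, hs', hs']; exact g.map_smul _ _)
    have h2 : ∀ᶠ i in l, ∃ f : π.ψ.Z →ₗ[R] G i, ∀ x, s (π.φ.u x) i = f (π.ψ.u x) := by
      filter_upwards [h, h1] with i h h1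
      obtain ⟨f, hf⟩ := not_not.1 h (x := _) ⟨
        { toFun := fun z => s z i
          map_add' := fun _ _ => by rw [map_add, Pi.add_apply]
          map_smul' := small_lin (LinearMap.proj i ∘ₗ s) w h1 }, rfl⟩
      exact ⟨f, LinearMap.congr_fun hf⟩
    obtain ⟨f, hf⟩ := Filter.skolem.1 h2
    refine ⟨S.mkQ ∘ₗ LinearMap.pi f, LinearMap.ext fun x => ?_⟩
    exact (hs' _).symm.trans ((hS _ _).2 (hf.mono fun i h => h x))

end Pool.Agent.P.MP_cf639b_al
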