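import Pool.Agent.P.MP_cf639b_al.Iface

set_option linter.dupNamespace false

namespace Pool.Agent.P.MP_cf639b_al

universe u v
open TensorProduct Polynomial Function

noncomputable section

/-- torsion elements are killed by `G ^ a` -/
theorem strc_kill {F E : Type*} [Field F] [IsAlgClosed F] [AddCommGroup E] [Module F E]
    (x : Module.End F E) (G : F[X]) (a : ℕ)
    (H : ∀ (y : F) (N : ℕ) (u : E), aeval x ((X - C y) ^ N) u = 0 → aeval x (G ^ a) u = 0) :
    ∀ (n : ℕ) (h : F[X]), h.natDegree = n → h ≠ 0 → ∀ u, aeval x h u = 0 → aeval x (G ^ a) u = 0 := by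
  intro n
  induction n using Nat.strong_induction_on with
  | _ n ih =>
    intro h hn h0 u hu
    rcases Nat.eq_zero_or_pos n with rfl | hpos
    · rw [eq_C_of_natDegree_eq_zero hn] at hu h0
      rw [aeval_C, Module.algebraMap_end_apply, smul_eq_zero_iff_right (by simpa using h0)] at hu
      rw [hu, map_zero]
    · obtain ⟨y, hy⟩ := IsAlgClosed.exists_root h (by
        rw [degree_eq_natDegree h0]; exact_mod_cast (by omega : h.natDegree ≠ 0))
      obtain ⟨q, e, hq⟩ := exists_eq_pow_rootMultiplicity_mul_and_not_dvd h h0 y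
      have hN : 0 < rootMultiplicity y h := (rootMultiplicity_pos h0).2 hy
      generalize rootMultiplicity y h = N at e hN
      have hq0 : q ≠ 0 := by rintro rfl; simp at hq
      have hd : q.natDegree < n := by
        rw [← hn, e, natDegree_mul (pow_ne_zero _ (X_sub_C_ne_zero y)) hq0, natDegree_pow,
          natDegree_X_sub_C]
        omega
      obtain ⟨α, β, hb⟩ : IsCoprime ((X - C y) ^ N) q :=
        ((irreducible_X_sub_C y).coprime_iff_not_dvd.2 hq).pow_left
      have h1 := ih _ hd q rfl hq0 (aeval x ((X - C y) ^ N) u) (by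
        rw [← Module.End.mul_apply, ← map_mul, mul_comm, ← e, hu])
      have h2 := H y N (aeval x q u) (by rw [← Module.End.mul_apply, ← map_mul, ← e, hu])
      have h3 : G ^ a = α * (G ^ a * (X - C y) ^ N) + β * (G ^ a * q) := by
        linear_combination (-G ^ a) * hb
      rw [h3]
      simp only [map_add, map_mul, LinearMap.add_apply, Module.End.mul_apply, h1, h2, map_zero,
        add_zero]

section
variable {k : Type u} [Field k] {R : Type u} [Ring R] [Algebra k R]

theorem strc_pow {T : Type u} [AddCommGroup T] [Module R T] (i : ℕ) (x : ℕ →₀ T) :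
    (shift R T ^ i) x = Finsupp.mapDomain (· + i) x := by
  induction x using Finsupp.induction_linear with
  | zero => simp
  | add x y hx hy => rw [map_add, Finsupp.mapDomain_add, hx, hy]
  | single l t => rw [shift_pow_single, Finsupp.mapDomain_single]

theorem strc_pow_apply {T : Type u} [AddCommGroup T] [Module R T] (i : ℕ) (x : ℕ →₀ T) (l : ℕ) :
    (shift R T ^ i) x l = if i ≤ l then x (l - i) else 0 := by
  rw [strc_pow]
  split_ifs with h
  · nth_rewrite 1 [← Nat.sub_add_cancel h]
    exact Finsupp.mapDomain_apply (add_left_injective i) x _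
  · exact Finsupp.mapDomain_of_notMem_range _ _ (by rintro ⟨j, rfl⟩; simp at h)

/-- degree at most `N` -/
def strc_Dg {T : Type u} [AddCommGroup T] (N : ℕ) (x : ℕ →₀ T) : Prop := ∀ l, N < l → x l = 0

theorem strc_Dg_ex {ι T : Type*} [Finite ι] [AddCommGroup T] (z : ι → ℕ →₀ T) (M : ℕ) :
    ∃ N, M ≤ N ∧ ∀ b l, N < l → z b l = 0 := by
  obtain ⟨N, hN⟩ := (Set.finite_iUnion fun b => (z b).support.finite_toSet).bddAbove
  refine ⟨max M N, le_max_left _ _, fun b l hl => by_contra fun h => ?_⟩
  have := hN (Set.mem_iUnion.2 ⟨b, Finsupp.mem_support_iff.2 h⟩)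
  omega

/-- reversal -/
def strc_rv (R : Type u) [Ring R] {T : Type u} [AddCommGroup T] [Module R T] (N : ℕ) :
    Module.End R (ℕ →₀ T) := Finsupp.lmapDomain T R fun l => N - l

theorem strc_rv_pow {T : Type u} [AddCommGroup T] [Module R T] {N r i : ℕ} {x : ℕ →₀ T}
    (hx : strc_Dg N x) (hi : i ≤ r) :
    strc_rv R (N + r) ((shift R T ^ i) x) = (shift R T ^ (r - i)) (strc_rv R N x) := by
  simp only [strc_pow, strc_rv, Finsupp.lmapDomain_apply, ← Finsupp.mapDomain_comp]
  refine Finsupp.mapDomain_congr fun l hl => ?_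
  have : l ≤ N := by_contra fun h => Finsupp.mem_support_iff.1 hl (hx l (by omega))
  simp only [Function.comp]
  omega

theorem strc_rv_rv {T : Type u} [AddCommGroup T] [Module R T] {N : ℕ} {x : ℕ →₀ T}
    (hx : strc_Dg N x) : strc_rv R N (strc_rv R N x) = x := by
  simp only [strc_rv, Finsupp.lmapDomain_apply, ← Finsupp.mapDomain_comp]
  refine (Finsupp.mapDomain_congr fun l hl => ?_).trans Finsupp.mapDomain_id
  have : l ≤ N := by_contra fun h => Finsupp.mem_support_iff.1 hl (hx l (by omega))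
  simp only [Function.comp, id]
  omega

theorem strc_rv_dg {T : Type u} [AddCommGroup T] [Module R T] (N : ℕ) (x : ℕ →₀ T) :
    strc_Dg N (strc_rv R N x) := fun l hl =>
  Finsupp.mapDomain_of_notMem_range _ _ (by rintro ⟨j, rfl⟩; simp only at hl; omega)

theorem strc_DX_rv (d : Fam R) (T : Md k R) {N : ℕ} {z : Fin d.n0 → ℕ →₀ T}
    (hz : ∀ b, strc_Dg N (z b)) :
    DX d.rev T (fun b => strc_rv R N (z b)) = fun a => strc_rv R (N + d.r) (DX d T z a) := by
  funext a
  simp only [Dop_apply, map_sum, map_smul]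
  rw [← Finset.sum_flip]
  refine Finset.sum_congr rfl fun i hi => Finset.sum_congr rfl fun b _ => ?_
  have hi' : i ≤ d.r := Nat.lt_succ_iff.1 (Finset.mem_range.1 hi)
  rw [strc_rv_pow (hz b) hi', Nat.sub_sub_self hi']

theorem strc_rev_rev (d : Fam R) (T : Md k R) (z : Fin d.n0 → ℕ →₀ T) :
    DX d.rev.rev T z = DX d T z := by
  funext a
  simp only [Dop_apply]
  refine Finset.sum_congr rfl fun i hi => ?_
  rw [Nat.sub_sub_self (Nat.lt_succ_iff.1 (Finset.mem_range.1 hi))]

theorem strc_DX_dg (d : Fam R) (T : Md k R) {N : ℕ} {z : Fin d.n0 → ℕ →₀ T}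
    (hz : ∀ b, strc_Dg N (z b)) (a : Fin d.n1) : strc_Dg (N + d.r) (DX d T z a) := fun l hl => by
  simp only [Dop_apply, Finsupp.finsetSum_apply, Finsupp.smul_apply, strc_pow_apply]
  refine Finset.sum_eq_zero fun i hi => Finset.sum_eq_zero fun b _ => ?_
  have := Finset.mem_range.1 hi
  rw [if_pos (by omega), hz b _ (by omega), smul_zero]

theorem strc_DX_pow (d : Fam R) (T : Md k R) (n : ℕ) (z : Fin d.n0 → ℕ →₀ T) :
    DX d T (fun b => (shift R T ^ n) (z b)) = fun a => (shift R T ^ n) (DX d T z a) :=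
  Dop_nat d _ _ (shift R T ^ n) (pow_mul_comm' (shift R T) n) z

variable {F : Type u} [Field F] [Algebra k F] (A : FO k R F)

/-- the action of polynomials over `F` -/
def strc_pl (p : F[X]) : Module.End F (ℕ →₀ A.X) := aeval (shift F A.X) p

theorem strc_pl_mul (p q : F[X]) (x : ℕ →₀ A.X) :
    strc_pl A (p * q) x = strc_pl A p (strc_pl A q x) := by
  rw [strc_pl, map_mul]; rfl

theorem strc_pl_comm (p q : F[X]) (x : ℕ →₀ A.X) :
    strc_pl A p (strc_pl A q x) = strc_pl A q (strc_pl A p x) := by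
  rw [← strc_pl_mul, mul_comm, strc_pl_mul]

theorem strc_pl_add (p q : F[X]) (x : ℕ →₀ A.X) :
    strc_pl A (p + q) x = strc_pl A p x + strc_pl A q x := by
  rw [strc_pl, map_add]; rfl

theorem strc_pl_mono (n : ℕ) (c : F) (x : ℕ →₀ A.X) :
    strc_pl A (monomial n c) x = c • (shift R A.X ^ n) x := by
  rw [strc_pl, aeval_monomial, Module.End.mul_apply, Module.algebraMap_end_apply, strc_pow, strc_pow]

theorem strc_pl_X (n : ℕ) (x : ℕ →₀ A.X) : strc_pl A (X ^ n) x = (shift R A.X ^ n) x := by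
  rw [← monomial_one_right_eq_X_pow, strc_pl_mono, one_smul]

theorem strc_pl_sum {p : F[X]} {N : ℕ} (hp : p.natDegree ≤ N) (x : ℕ →₀ A.X) :
    strc_pl A p x = ∑ i ∈ Finset.range (N + 1), p.coeff i • (shift R A.X ^ i) x := by
  rw [strc_pl, aeval_eq_sum_range' (Nat.lt_succ_of_le hp), LinearMap.sum_apply]
  simp only [LinearMap.smul_apply, strc_pow]

theorem strc_pl_k (q : k[X]) (x : ℕ →₀ A.X) :
    aeval ((shift R A.X).restrictScalars k : Module.End k (ℕ →₀ A.X)) q x =
      strc_pl A (q.map (algebraMap k F)) x := by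
  induction q using Polynomial.induction_on' with
  | add p q hp hq => rw [map_add, LinearMap.add_apply, Polynomial.map_add, strc_pl_add, hp, hq]
  | monomial n c =>
    rw [Polynomial.map_monomial, strc_pl_mono, aeval_monomial, Module.End.mul_apply,
      Module.algebraMap_end_apply, algebraMap_smul]
    congr 1
    induction n with
    | zero => rfl
    | succ n ih => rw [pow_succ', pow_succ', Module.End.mul_apply, Module.End.mul_apply, ih]; rfl

theorem strc_smul (c : F) (x : ℕ →₀ A.X) : Finsupp.mapRange.linearMap (A.act c) x = c • x :=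
  Finsupp.ext fun _ => rfl

theorem strc_DX_smul (d : Fam R) (c : F) (z : Fin d.n0 → ℕ →₀ A.X) :
    DX d A.X (fun b => c • z b) = fun a => c • DX d A.X z a := by
  simpa only [strc_smul] using Dop_nat (k := k) d _ _ _ (mapRange_shift (A.act c)) z

theorem strc_DX_pl (d : Fam R) (p : F[X]) (z : Fin d.n0 → ℕ →₀ A.X) :
    DX d A.X (fun b => strc_pl A p (z b)) = fun a => strc_pl A p (DX d A.X z a) := by
  induction p using Polynomial.induction_on' with
  | add p q hp hq =>
    simp only [strc_pl_add]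
    exact (map_add (DX d A.X) (fun b => strc_pl A p (z b)) fun b => strc_pl A q (z b)).trans
      (by rw [hp, hq]; rfl)
  | monomial n c => simp only [strc_pl_mono, strc_DX_smul, strc_DX_pow]

theorem strc_polE (d : Fam R) (p : F[X]) (w : Fin d.n1 → ℕ →₀ A.X) :
    polE d A p (Emk d A.X w) = Emk d A.X fun a => strc_pl A p (w a) := by
  induction p using Polynomial.induction_on' with
  | add p q hp hq =>
    simp only [strc_pl_add]
    rw [polE, map_add, LinearMap.add_apply, ← polE, ← polE, hp, hq, ← map_add]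
    rfl
  | monomial n c =>
    have h : (EXF d A ^ n) (Emk d A.X w) = Emk d A.X fun a => (shift R A.X ^ n) (w a) := by
      induction n with
      | zero => rfl
      | succ n ih => rw [pow_succ', Module.End.mul_apply, ih, EXF_apply, EX_mk, pow_succ']; rfl
    rw [polE, aeval_monomial, Module.End.mul_apply, Module.algebraMap_end_apply, h, EE.smul_def,
      Emap_mk]
    simp only [strc_pl_mono, strc_smul]

theorem strc_zero (d : Fam R) (p : F[X]) (w : Fin d.n1 → ℕ →₀ A.X) :
    polE d A p (Emk d A.X w) = 0 ↔ ∃ z, DX d A.X z = fun a => strc_pl A p (w a) := by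
  rw [strc_polE, Emk_eq_zero]

theorem strc_piE (d : Fam R) (y : F) (N : ℕ) (u : EE d A.X) :
    polE d A ((X - C y) ^ N) u = (piE d A y ^ N) u := by
  induction N with
  | zero => simp [polE]
  | succ N ih =>
    rw [pow_succ', pow_succ', polE, map_mul, Module.End.mul_apply, Module.End.mul_apply, ← polE,
      ← polE, ih, polE, map_sub, aeval_X, aeval_C]
    rfl

theorem strc_piK (d : Fam R) (p : k) : piE d A (algebraMap k F p) = piK d p A.X := by
  rw [piE, piK, AlgHom.commutes, Algebra.algebraMap_eq_smul_one, map_smul, Module.End.one_eq_id,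
    Emap_id]
  rfl

theorem strc_expo {d : Fam R} {p : k} {a : ℕ} (h : Expo d p a A.X) (N : ℕ) (u : EE d A.X)
    (hu : polE d A ((X - C (algebraMap k F p)) ^ N) u = 0) :
    polE d A ((X - C (algebraMap k F p)) ^ a) u = 0 := by
  rw [strc_piE, strc_piK] at hu ⊢
  exact h u ⟨N, hu⟩

theorem strc_tors [IsAlgClosed k] [IsAlgClosed F] (d : Fam R) {g : k[X]} (hg : g ≠ 0) {a : ℕ}
    (h1 : ∀ p : k, g.eval p = 0 → Expo d p a A.X)
    (h2 : ∀ y : F, aeval y g ≠ 0 → Injective (piE d A y)) {h : F[X]} (hh : h ≠ 0) {u : EE d A.X}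
    (hu : polE d A h u = 0) : polE d A (g.map (algebraMap k F) ^ a) u = 0 := by
  refine strc_kill (EXF d A) _ a (fun y N u hu => ?_) _ h rfl hh u hu
  by_cases hy : aeval y g = 0
  · have hr : (g.map (algebraMap k F)).IsRoot y := by rwa [IsRoot, eval_map_algebraMap]
    obtain ⟨p, rfl⟩ := (IsAlgClosed.splits g).mem_range_of_isRoot hg hr
    have hp : g.eval p = 0 := by
      rwa [aeval_algebraMap_apply, map_eq_zero, coe_aeval_eq_eval] at hy
    obtain ⟨q, e⟩ := pow_dvd_pow_of_dvd (dvd_iff_isRoot.2 hr) a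
    rw [e, mul_comm, map_mul, Module.End.mul_apply]
    exact (congrArg _ (strc_expo A (h1 p hp) N u hu)).trans (map_zero _)
  · have h3 : (piE d A y ^ N) u = 0 := (strc_piE A d y N u).symm.trans hu
    rw [Module.End.pow_apply] at h3
    have h4 : u = 0 := (h2 y hy).iterate N (h3.trans (by rw [← Module.End.pow_apply, map_zero]))
    rw [h4, map_zero]

theorem strc_rv_pl {p : F[X]} {N r : ℕ} (hp : p.natDegree ≤ N) {x : ℕ →₀ A.X} (hx : strc_Dg r x) :
    strc_rv R (N + r) (strc_pl A p x) = strc_pl A (reflect N p) (strc_rv R r x) := by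
  rw [strc_pl_sum A hp, strc_pl_sum A (natDegree_reflect_le.trans (max_le le_rfl hp)), map_sum,
    ← Finset.sum_flip]
  refine Finset.sum_congr rfl fun i hi => ?_
  have hi' : i ≤ N := Nat.lt_succ_iff.1 (Finset.mem_range.1 hi)
  rw [coeff_reflect, revAt_le hi', ← Nat.sub_sub_self hi', ← strc_rv_pow hx (Nat.sub_le N i),
    Nat.sub_sub_self hi', add_comm r N]
  exact Finsupp.mapDomain_smul _ _

/-- reversal of a relation -/
theorem strc_rel (d : Fam R) {p : F[X]} {z : Fin d.n0 → ℕ →₀ A.X} {w : Fin d.n1 → ℕ →₀ A.X}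
    (hw : ∀ a, strc_Dg d.r (w a)) (h : DX d A.X z = fun a => strc_pl A p (w a)) :
    ∃ N, p.natDegree ≤ N ∧ DX d.rev A.X (fun b => strc_rv R N (z b)) =
      fun a => strc_pl A (reflect N p) (strc_rv R d.r (w a)) := by
  obtain ⟨N, h1, h2⟩ := strc_Dg_ex z p.natDegree
  refine ⟨N, h1, ?_⟩
  rw [strc_DX_rv d A.X h2, h]
  exact funext fun a => strc_rv_pl A h1 (hw a)

/-- a relation with a small degree -/
theorem strc_small (d : Fam R) {a : ℕ} (he : Expo d.rev 0 a A.X) {p : F[X]} (hp : p ≠ 0)
    {z : Fin d.n0 → ℕ →₀ A.X} {w : Fin d.n1 → ℕ →₀ A.X} (hw : ∀ a, strc_Dg d.r (w a))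
    (h : DX d A.X z = fun a => strc_pl A p (w a)) : ∃ (q : F[X]) (z' : Fin d.n0 → ℕ →₀ A.X),
      q ≠ 0 ∧ (∀ b, strc_Dg (q.natDegree + a) (z' b)) ∧
        DX d A.X z' = fun a => strc_pl A q (w a) := by
  obtain ⟨N, -, h1⟩ := strc_rel A d hw h
  have h0 : reflect N p ≠ 0 := by simpa using hp
  obtain ⟨q, e, hq⟩ := exists_eq_pow_rootMultiplicity_mul_and_not_dvd _ h0 0
  have h2 := (strc_zero A d.rev _ _).2 ⟨_, h1⟩
  rw [e, polE, map_mul, Module.End.mul_apply, ← map_zero (algebraMap k F)] at h2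
  have h3 := strc_expo A he _ _ h2
  rw [polE, ← Module.End.mul_apply, ← map_mul, map_zero, C_0, sub_zero] at h3
  obtain ⟨z1, h4⟩ := (strc_zero A d.rev _ _).1 h3
  obtain ⟨M, h5, h6⟩ := strc_rel A d.rev (fun a => strc_rv_dg _ _) h4
  rw [C_0, sub_zero, X_dvd_iff] at hq
  have hq0 : q ≠ 0 := by rintro rfl; simp at hq
  have h7 : a ≤ M := by
    rw [natDegree_mul (by simp) hq0, natDegree_X_pow] at h5
    omega
  have h8 : (reflect M (X ^ a * q)).coeff (M - a) ≠ 0 := by
    rwa [coeff_reflect, revAt_le (Nat.sub_le _ _), Nat.sub_sub_self h7, coeff_X_pow_mul', if_pos le_rfl,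
      Nat.sub_self]
  have h9 := le_natDegree_of_ne_zero h8
  refine ⟨reflect M (X ^ a * q), fun b => strc_rv R M (z1 b), fun h => h8 (by rw [h, coeff_zero]),
    fun b l hl => strc_rv_dg M _ l (by omega), ?_⟩
  rw [← strc_rev_rev, h6]
  exact funext fun a => congrArg _ (strc_rv_rv (hw a))

theorem strc_U_smul (d : Fam R) (a : ℕ) (c : F) {w : Fin d.n0 → A.X} (hw : w ∈ StrB d a A.X) :
    c • w ∈ StrB d a A.X := by
  induction hw using Submodule.span_induction with
  | mem w hw =>
    obtain ⟨z, hz, l, rfl⟩ := hw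
    refine Submodule.subset_span ⟨fun b => c • z b, ⟨?_, fun b l h => ?_⟩, l, rfl⟩
    · rw [strc_DX_smul, hz.1]
      exact funext fun _ => smul_zero _
    · rw [Finsupp.smul_apply, hz.2 b l h, smul_zero]
  | zero => rw [smul_zero]; exact zero_mem _
  | add x y _ _ hx hy => rw [smul_add]; exact add_mem hx hy
  | smul r x _ hx => rw [smul_comm]; exact Submodule.smul_mem _ r hx

theorem strc_U_sol {d : Fam R} {a : ℕ} {T : Md k R} (h : Short d a T) {z : Fin d.n0 → ℕ →₀ T}
    (hz : DX d T z = 0) (l : ℕ) : (fun b => z b l) ∈ StrB d a T := by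
  have := h z hz
  clear hz
  induction this using Submodule.span_induction with
  | mem w hw =>
    obtain ⟨i, z', hz, rfl⟩ := hw
    simp only [strc_pow_apply]
    split_ifs
    · exact Submodule.subset_span ⟨z', hz, _, rfl⟩
    · exact zero_mem _
  | zero => exact zero_mem _
  | add x y _ _ hx hy => exact add_mem hx hy
  | smul r x _ hx => exact Submodule.smul_mem _ r hx

/-- division by a polynomial modulo an invariant subspace -/
theorem strc_down (d : Fam R) (a : ℕ) {q : F[X]} (hq : q ≠ 0) (z : Fin d.n0 → ℕ →₀ A.X) (n : ℕ)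
    (h : ∀ l, q.natDegree + n < l → (fun b => strc_pl A q (z b) l) ∈ StrB d a A.X) (l : ℕ)
    (hl : n < l) : (fun b => z b l) ∈ StrB d a A.X := by
  obtain ⟨N, h1, h2⟩ := strc_Dg_ex z l
  have key : ∀ j l, n < l → N < l + j → (fun b => z b l) ∈ StrB d a A.X := by
    intro j
    induction j with
    | zero => exact fun l _ h3 => by simp only [h2 _ l h3]; exact zero_mem _
    | succ j ih =>
      intro l hl h3
      have h4 := h (q.natDegree + l) (by omega)
      have h5 : (fun b => strc_pl A q (z b) (q.natDegree + l)) =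
          ∑ i ∈ Finset.range q.natDegree, q.coeff i • (fun b => z b (q.natDegree + l - i)) +
            q.leadingCoeff • fun b => z b l := by
        funext b
        simp only [strc_pl_sum A le_rfl, Finset.sum_range_succ, Finsupp.add_apply,
          Finsupp.finsetSum_apply, Finsupp.smul_apply, strc_pow_apply, Pi.add_apply,
          Finset.sum_apply, Pi.smul_apply, Nat.le_add_right, if_true, Nat.add_sub_cancel_left]
        refine congrArg₂ _ (Finset.sum_congr rfl fun i hi => ?_) rfl
        rw [if_pos (by have := Finset.mem_range.1 hi; omega)]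
      rw [h5, add_mem_cancel_left] at h4
      · have := strc_U_smul A d a q.leadingCoeff⁻¹ h4
        rwa [smul_smul, inv_mul_cancel₀ (leadingCoeff_ne_zero.2 hq), one_smul] at this
      · refine sum_mem fun i hi => strc_U_smul A d a _ (ih _ ?_ ?_) <;>
          have := Finset.mem_range.1 hi <;> omega
  exact key (N + 1) l hl (by omega)

theorem strc_pl_dg {p : F[X]} {N : ℕ} {x : ℕ →₀ A.X} (hx : strc_Dg N x) :
    strc_Dg (p.natDegree + N) (strc_pl A p x) := fun l hl => by
  simp only [strc_pl_sum A le_rfl, Finsupp.finsetSum_apply, Finsupp.smul_apply, strc_pow_apply]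
  refine Finset.sum_eq_zero fun i hi => ?_
  have := Finset.mem_range.1 hi
  rw [if_pos (by omega), hx _ (by omega), smul_zero]

variable {S : Type u} [Ring S] [Algebra k S] (σ : Anti k R S) {A}

/-- the coefficients of the pairing polynomial -/
def strc_P (φ : ℕ →₀ DT σ A) (x : ℕ →₀ A.X) (l : ℕ) : F :=
  ∑ i ∈ Finset.range (l + 1), φ i (x (l - i))

theorem strc_sh0 {T : Type u} [AddCommGroup T] [Module R T] (x : ℕ →₀ T) : shift R T x 0 = 0 := by
  simpa using strc_pow_apply (R := R) 1 x 0

theorem strc_sh1 {T : Type u} [AddCommGroup T] [Module R T] (x : ℕ →₀ T) (l : ℕ) :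
    shift R T x (l + 1) = x l := by
  simpa using strc_pow_apply (R := R) 1 x (l + 1)

theorem strc_P_left (φ : ℕ →₀ DT σ A) (x : ℕ →₀ A.X) (l : ℕ) :
    strc_P σ (shift S (DT σ A) φ) x l = if l = 0 then 0 else strc_P σ φ x (l - 1) := by
  cases l with
  | zero => simp [strc_P, strc_sh0]
  | succ l => simp [strc_P, Finset.sum_range_succ' _ (l + 1), strc_sh0, strc_sh1]

theorem strc_P_shift (φ : ℕ →₀ DT σ A) (x : ℕ →₀ A.X) (l : ℕ) :
    strc_P σ (shift S (DT σ A) φ) x l = strc_P σ φ (shift R A.X x) l := by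
  rw [strc_P_left]
  cases l with
  | zero => simp [strc_P, strc_sh0]
  | succ l =>
    rw [if_neg l.succ_ne_zero, strc_P, strc_P, Finset.sum_range_succ _ (l + 1), Nat.sub_self, strc_sh0,
      map_zero, add_zero, Nat.add_sub_cancel]
    refine Finset.sum_congr rfl fun i hi => ?_
    have := Finset.mem_range.1 hi
    rw [show l + 1 - i = l - i + 1 by omega, strc_sh1]

theorem strc_P_pow (n : ℕ) (φ : ℕ →₀ DT σ A) (x : ℕ →₀ A.X) (l : ℕ) :
    strc_P σ ((shift S (DT σ A) ^ n) φ) x l = strc_P σ φ ((shift R A.X ^ n) x) l := by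
  induction n generalizing x with
  | zero => rfl
  | succ n ih =>
    rw [pow_succ', Module.End.mul_apply, strc_P_shift, ih, pow_succ, Module.End.mul_apply]

theorem strc_P_sum1 {ι : Type*} (s : Finset ι) (φ : ι → ℕ →₀ DT σ A) (x : ℕ →₀ A.X) (l : ℕ) :
    strc_P σ (∑ j ∈ s, φ j) x l = ∑ j ∈ s, strc_P σ (φ j) x l := by
  classical
  induction s using Finset.induction_on with
  | empty => simp [strc_P]
  | insert j s hj ih =>
    rw [Finset.sum_insert hj, Finset.sum_insert hj, ← ih]
    simp [strc_P, Finset.sum_add_distrib]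

theorem strc_P_sum2 {ι : Type*} (s : Finset ι) (φ : ℕ →₀ DT σ A) (x : ι → ℕ →₀ A.X) (l : ℕ) :
    strc_P σ φ (∑ j ∈ s, x j) l = ∑ j ∈ s, strc_P σ φ (x j) l := by
  simp only [strc_P, Finsupp.finsetSum_apply, map_sum]
  exact Finset.sum_comm

theorem strc_P_smul (r : R) (φ : ℕ →₀ DT σ A) (x : ℕ →₀ A.X) (l : ℕ) :
    strc_P σ (σ.e r • φ) x l = strc_P σ φ (r • x) l := by
  simp [strc_P]

theorem strc_adj (d : Fam R) (φ : Fin d.n1 → ℕ →₀ DT σ A) (z : Fin d.n0 → ℕ →₀ A.X) (l : ℕ) :
    ∑ a, strc_P σ (φ a) (DX d A.X z a) l =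
      ∑ b, strc_P σ (DX (d.op σ) (DF σ A).X φ b) (z b) l := by
  have e : ∀ b, DX (d.op σ) (DF σ A).X φ b = ∑ i ∈ Finset.range (d.r + 1), ∑ a,
      σ.e (d.c i a b) • (shift S (DT σ A) ^ i) (φ a) := fun _ => rfl
  simp only [e, Dop_apply, strc_P_sum1, strc_P_sum2, strc_P_smul, strc_P_pow, map_smul]
  rw [Finset.sum_comm]
  refine (Finset.sum_congr rfl fun i _ => Finset.sum_comm).trans Finset.sum_comm

/-- the low part of `D z` is orthogonal to all the solutions of the transposed system -/
theorem strc_orth (d : Fam R) {a m : ℕ} (hs : Short (d.op σ) a (DF σ A).X) (hm : d.r + a ≤ m)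
    {z : Fin d.n0 → ℕ →₀ A.X} {w : Fin d.n1 → ℕ →₀ A.X} (h1 : ∀ b l, d.r ≤ l → w b l = 0)
    (h2 : ∀ b l, l ≤ m → w b l = DX d A.X z b l) (φ : Fin d.n1 → ℕ →₀ DT σ A)
    (hφ : DX (d.op σ) (DF σ A).X φ = 0) (l : ℕ) : ∑ b, strc_P σ (φ b) (w b) l = 0 := by
  have := hs φ hφ
  clear hφ
  induction this using Submodule.span_induction generalizing l with
  | mem x hx =>
    obtain ⟨i, ψ, hψ, rfl⟩ := hx
    induction i generalizing l with
    | zero =>
      change ∑ b, strc_P σ (ψ b) (w b) l = 0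
      by_cases hl : l ≤ m
      · have h3 := strc_adj σ d ψ z l
        rw [hψ.1] at h3
        refine Eq.trans (Finset.sum_congr rfl fun b _ => Finset.sum_congr rfl fun i _ => ?_)
          (h3.trans (by simp [strc_P]))
        rw [h2 b _ (by omega)]
      · refine Finset.sum_eq_zero fun b _ => Finset.sum_eq_zero fun i _ => ?_
        by_cases hi : a < i
        · exact congrArg (fun f : DT σ A => f (w b (l - i))) (hψ.2 b i hi)
        · rw [h1 b _ (by omega), map_zero]
    | succ i ih =>
      change ∑ b, strc_P σ ((shift S (DT σ A) ^ (i + 1)) (ψ b)) (w b) l = 0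
      simp only [pow_succ', Module.End.mul_apply, strc_P_left]
      split_ifs
      · simp
      · exact ih _
  | zero => simp [strc_P]
  | add x y _ _ hx hy =>
    have := congrArg₂ (· + ·) (hx l) (hy l)
    simp only [add_zero, ← Finset.sum_add_distrib] at this
    refine Eq.trans (Finset.sum_congr rfl fun b _ => ?_) this
    simp only [strc_P, ← Finset.sum_add_distrib]
    rfl
  | smul r x _ hx =>
    have := congrArg (r • ·) (hx l)
    simp only [smul_zero, Finset.smul_sum] at this
    refine Eq.trans (Finset.sum_congr rfl fun b _ => ?_) this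
    simp only [strc_P, Finset.smul_sum]
    rfl

end

theorem t_STRC (k : Type u) [Field k] [IsAlgClosed k] (R : Type u) [Ring R] [Algebra k R]
    [FiniteDimensional k R]
    (L : Lib k)
    (hORTH : S_ORTH k R) :
    S_STRC k R := by
  intro S _ _ _ σ d g a hg
  refine ⟨(g ^ a).natDegree + a + 1 + d.r + a, (g ^ a).natDegree + a + 1, by omega, by omega, ?_⟩
  intro F _ _ _ A hA s1 s2 e1 e2 hi w ⟨z, z1, z2, z3⟩
  set m := (g ^ a).natDegree + a + 1 + d.r + a with hm
  set G := g.map (algebraMap k F) ^ a with hG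
  have hn : G.natDegree = (g ^ a).natDegree := by rw [hG, ← Polynomial.map_pow, natDegree_map]
  let lo : Fin d.n1 → ℕ →₀ A.X := fun b => (DX d A.X z b).filter (· < d.r)
  let hi' : Fin d.n1 → ℕ →₀ A.X := fun b =>
    (DX d A.X z b).comapDomain (· + (m + 1)) (add_left_injective _).injOn
  have l1 : ∀ b l, d.r ≤ l → lo b l = 0 := fun b l h => Finsupp.filter_apply_neg _ _ (by omega)
  have l2 : ∀ b l, l ≤ m → lo b l = DX d A.X z b l := fun b l h => by
    by_cases h' : l < d.r
    · exact Finsupp.filter_apply_pos _ _ h'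
    · rw [l1 b l (by omega), z2 b l (by omega) h]
  have l3 : ∀ b, DX d A.X z b = lo b + strc_pl A (X ^ (m + 1)) (hi' b) := fun b => by
    ext l
    rw [Finsupp.add_apply, strc_pl_X, strc_pow_apply]
    split_ifs with h
    · rw [l1 b l (by omega), zero_add]
      exact congrArg _ (Nat.sub_add_cancel h).symm
    · rw [l2 b l (by omega), add_zero]
  obtain ⟨h, h0, h1⟩ := hORTH S σ d F A hA lo (strc_orth σ d s2 (by omega) l1 l2)
  obtain ⟨z0, t0⟩ := (strc_zero A d _ _).1 (strc_tors A d hg e1 hi h0 h1)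
  obtain ⟨y, t1⟩ := (strc_zero A d _ _).1 h1
  have h2 : polE d A (h * X ^ (m + 1)) (Emk d A.X hi') = 0 := by
    refine (strc_zero A d _ _).2 ⟨(fun b => strc_pl A h (z b)) - y, ?_⟩
    rw [map_sub, strc_DX_pl, t1]
    funext b
    simp only [Pi.sub_apply, l3 b, map_add, strc_pl_mul, add_sub_cancel_left]
  obtain ⟨z0', t2⟩ := (strc_zero A d _ _).1
    (strc_tors A d hg e1 hi (mul_ne_zero h0 (pow_ne_zero _ X_ne_zero)) h2)
  obtain ⟨q, y', q0, q1, q2⟩ := strc_small A d e2 h0 (fun b l hl => l1 b l hl.le) t1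
  have u0 : (fun b => z0 b ((g ^ a).natDegree + a + 1)) ∈ StrB d a A.X := by
    refine strc_down A d a q0 z0 ((g ^ a).natDegree + a) (fun l hl => ?_) _ (by omega)
    have := strc_U_sol s1 (z := (fun b => strc_pl A q (z0 b)) - fun b => strc_pl A G (y' b)) (by
      rw [map_sub, strc_DX_pl, strc_DX_pl, t0, q2]
      exact funext fun b => sub_eq_zero.2 (strc_pl_comm A _ _ _)) l
    have e : ∀ b, strc_pl A G (y' b) l = 0 := fun b => strc_pl_dg A (q1 b) l (by omega)
    simpa only [Pi.sub_apply, Finsupp.sub_apply, e, sub_zero] using this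
  have u1 := strc_U_sol s1 (z := (fun b => strc_pl A G (z b)) - z0 -
      fun b => strc_pl A (X ^ (m + 1)) (z0' b)) (by
    rw [map_sub, map_sub, strc_DX_pl, strc_DX_pl, t0, t2]
    funext b
    simp only [Pi.sub_apply, l3 b, map_add, ← hG, add_sub_cancel_left]
    exact sub_eq_zero.2 (strc_pl_comm A _ _ _)) ((g ^ a).natDegree + a + 1)
  have e : w = (fun b => (((fun b => strc_pl A G (z b)) - z0 - fun b => strc_pl A (X ^ (m + 1))
      (z0' b)) b) ((g ^ a).natDegree + a + 1)) + fun b => z0 b ((g ^ a).natDegree + a + 1) := by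
    funext b
    rw [z3, strc_pl_k, Polynomial.map_pow]
    simp only [Pi.add_apply, Pi.sub_apply, Finsupp.sub_apply, strc_pl_X, strc_pow_apply]
    rw [if_neg (by omega), sub_zero, sub_add_cancel]
  rw [e]
  exact add_mem u1 u0

end

end Pool.Agent.P.MP_cf639b_al
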