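import Pool.Agent.P.MP_cf639b_al.Iface

set_option linter.dupNamespace false

namespace Pool.Agent.P.MP_cf639b_al

universe u v
open TensorProduct Polynomial Function

section

variable {k : Type u} [Field k] {R : Type u} [Ring R] [Algebra k R]

theorem stro_shift {T : Md k R} (z : ℕ →₀ T) (i l : ℕ) : (shift R T ^ i) z (l + i) = z l := by
  induction i with
  | zero => rfl
  | succ i ih =>
    rw [pow_succ', Module.End.mul_apply, ← ih]
    exact Finsupp.mapDomain_apply Nat.succ_injective _ (l + i)

/-- pairing with the sequence of values of a functional -/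
noncomputable def stro_L {K : Type u} [Field K] [Algebra k K] (t : K) (lam : K →ₗ[k] k)
    (T : Md k R) (v : K) : (ℕ →₀ T) →ₗ[R] T :=
  Finsupp.lsum k fun n => lam (t ^ n * v) • LinearMap.id

theorem stro_L_shift {K : Type u} [Field K] [Algebra k K] (t : K) (lam : K →ₗ[k] k)
    (T : Md k R) (v : K) (i : ℕ) (z : ℕ →₀ T) :
    stro_L t lam T v ((shift R T ^ i) z) = stro_L t lam T (t ^ i * v) z := by
  induction z using Finsupp.induction_linear with
  | zero => simp
  | add x y hx hy => simp only [map_add, hx, hy]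
  | single n s => simp [stro_L, pow_add, mul_assoc]

theorem stro_junk [FiniteDimensional k R] {K : Type u} [Field K] [Algebra k K] (t : K)
    (lam : K →ₗ[k] k) (d : Fam R) (T : Md k R) (hT : ¬ T.fd) (z : Fin d.n0 → ℕ →₀ T)
    (hz : DX d T z = 0) : ∃ j : M d (one k t).V →ₗ[R] T, ¬ Surjective j ∧
      ∀ b, j (gen d (one k t).V b (1 : K)) = (z b).sum fun n s => lam (t ^ n) • s := by
  let y : Fin d.n0 → K →ₗ[k] T := fun b =>
    (z b).sum fun n s => (lam ∘ₗ LinearMap.mulLeft k (t ^ n)).smulRight s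
  have hy : ∀ b v, y b v = (z b).sum fun n s => lam (t ^ n * v) • s := fun b v => by
    simp [y, Finsupp.sum]
  have hr : ∀ a (v : K), ∑ i ∈ Finset.range (d.r + 1), ∑ b,
      d.c i a b • y b ((LinearMap.mulLeft k t ^ i) v) = 0 := fun a v => by
    have := congrArg (stro_L t lam T v) (congrFun hz a)
    rw [Dop_apply, Pi.zero_apply, map_zero] at this
    simp only [map_sum, map_smul, stro_L_shift] at this
    simp only [hy, LinearMap.pow_mulLeft, LinearMap.mulLeft_apply]
    exact this
  let P : Submodule R T := Submodule.span R (⋃ b, Set.range (z b))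
  have hP : P.FG := Submodule.fg_span (Set.finite_iUnion fun b => (z b).finite_range)
  refine ⟨Mlift d (one k t).V y hr, fun hs => hT ?_, fun b => ?_⟩
  · have e : (P.mkQ ∘ₗ Mlift d (one k t).V y hr : M d (one k t).V →ₗ[R] T.quo P) = 0 :=
      M_ext fun b v => by
        refine (congrArg P.mkQ (Mlift_gen d (one k t).V y hr b v)).trans
          ((Submodule.Quotient.mk_eq_zero P).2 ?_)
        rw [hy]
        exact Submodule.sum_mem _ fun n _ => P.smul_of_tower_mem _
          (Submodule.subset_span (Set.mem_iUnion.2 ⟨b, n, rfl⟩))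
    have e2 : P = ⊤ := eq_top_iff.2 fun x _ => by
      obtain ⟨x, rfl⟩ := hs x
      exact (Submodule.Quotient.mk_eq_zero P).1 (LinearMap.congr_fun e x)
    have : Module.Finite R T := ⟨e2 ▸ hP⟩
    exact Module.Finite.trans R T
  · refine (Mlift_gen d (one k t).V y hr b (1 : K)).trans ?_
    simp only [hy, mul_one]

theorem stro_A {K : Type u} [Field K] [Algebra k K] (t : K) (d : Fam R) (q : k[X]) (m c : ℕ)
    (h1 : q.natDegree ≤ c) (h2 : c ≤ m) : StrA d q m c (M d (one k t).V)
      fun b => gen d (one k t).V b (aeval t q * t ^ (m - c) : K) := by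
  let z : Fin d.n0 → ℕ →₀ M d (one k t).V := fun b =>
    ∑ j ∈ Finset.range (m + 1), Finsupp.single j (gen d (one k t).V b (t ^ (m - j) : K))
  have hz : ∀ b l, z b l = if l ≤ m then gen d (one k t).V b (t ^ (m - l) : K) else 0 :=
    fun b l => by
      simp only [z, Finsupp.finsetSum_apply, Finsupp.single_apply, Finset.sum_ite_eq',
        Finset.mem_range, Nat.lt_succ_iff]
  have hs : ∀ b i l, i ≤ l → l ≤ m → (shift R _ ^ i) (z b) l =
      gen d (one k t).V b (t ^ i * t ^ (m - l) : K) := fun b i l p p' => by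
    obtain ⟨l, rfl⟩ := Nat.exists_eq_add_of_le' p
    rw [stro_shift, hz, if_pos (by omega), ← pow_add, show i + (m - (l + i)) = m - l by omega]
  refine ⟨z, fun b l h => by rw [hz, if_neg (by omega)], fun a l p p' => ?_, fun b => ?_⟩
  · rw [Dop_apply, ← gen_rel d (one k t).V a (t ^ (m - l) : K), Finsupp.finsetSum_apply]
    refine Finset.sum_congr rfl fun i hi => ?_
    rw [Finsupp.finsetSum_apply]
    refine Finset.sum_congr rfl fun b _ => ?_
    rw [Finsupp.smul_apply, hs b i l (by have := Finset.mem_range.1 hi; omega) p']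
    simp only [LinearMap.pow_mulLeft, LinearMap.mulLeft_apply]
  · rw [aeval_eq_sum_range, aeval_eq_sum_range, LinearMap.sum_apply, Finsupp.finsetSum_apply,
      Finset.sum_mul]
    refine (map_sum (gen d (one k t).V b) _ _).trans (Finset.sum_congr rfl fun i hi => ?_)
    rw [LinearMap.smul_apply, Finsupp.smul_apply, Module.End.pow_apply, smul_mul_assoc]
    refine (map_smul (gen d (one k t).V b) _ _).trans (congrArg _ ?_)
    rw [← hs b i c (by have := Finset.mem_range.1 hi; omega) h2, Module.End.pow_apply]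
    rfl

end

theorem t_STRO (k : Type u) [Field k] [IsAlgClosed k] (R : Type u) [Ring R] [Algebra k R]
    [FiniteDimensional k R]
    (L : Lib k) :
    S_STRO k R := by
  intro H q m c a hq h1 h2
  refine ⟨_, stro_A RatFunc.X H.d q m c h1 h2, fun hw => ?_⟩
  obtain ⟨g, hg⟩ := LinearMap.exists_leftInverse_of_injective
    (IsScalarTower.toAlgHom k k[X] (RatFunc k)).toLinearMap
    (LinearMap.ker_eq_bot.2 (IsFractionRing.injective k[X] (RatFunc k)))
  have key : ∀ w ∈ StrB H.d a H.G, ∃ j ∈ H.JG, ∀ b, w b = j (gen H.d _ b (1 : RatFunc k)) := by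
    intro w hw
    induction hw using Submodule.span_induction with
    | mem w hw =>
      obtain ⟨z, hz, l, rfl⟩ := hw
      obtain ⟨j, j1, j2⟩ := stro_junk RatFunc.X (lcoeff k l ∘ₗ g) H.d H.G ((L.pg R).infG H) z hz.1
      refine ⟨j, ((L.pg R).unitG H j).resolve_left fun h => j1 h.2, fun b => ?_⟩
      have e : ∀ n : ℕ, g (RatFunc.X ^ n) = X ^ n := fun n => by
        have := LinearMap.congr_fun hg (X ^ n)
        simpa using this
      rw [j2]
      simp only [LinearMap.comp_apply, e, lcoeff_apply, coeff_X_pow, ite_smul, one_smul, zero_smul]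
      rw [Finsupp.sum_ite_self_eq]
    | zero => exact ⟨0, zero_mem _, fun _ => rfl⟩
    | add x y _ _ hx hy =>
      obtain ⟨j, p, q⟩ := hx
      obtain ⟨j', p', q'⟩ := hy
      exact ⟨j + j', add_mem p p', fun b => by rw [Pi.add_apply, q, q', LinearMap.add_apply]⟩
    | smul r x _ hx =>
      obtain ⟨j, p, q⟩ := hx
      exact ⟨r • j, Submodule.smul_mem _ _ p, fun b => by
        rw [Pi.smul_apply, q, LinearMap.smul_apply]⟩
  obtain ⟨j, j1, j2⟩ := key _ hw
  have hu : (aeval RatFunc.X q * RatFunc.X ^ (m - c) : RatFunc k) ≠ 0 :=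
    mul_ne_zero (fun e => L.aut.gen.1 ⟨q, hq, e⟩) (pow_ne_zero _ RatFunc.X_ne_zero)
  generalize (aeval RatFunc.X q * RatFunc.X ^ (m - c) : RatFunc k) = u at hu j2
  have hg : ∀ b (v : RatFunc k), H.GF.act v (gen H.d _ b (1 : RatFunc k)) = gen H.d _ b v :=
    fun b v => (map_gen H.d ((one k (RatFunc.X : RatFunc k)).sc v) b (1 : RatFunc k)).trans
      (congrArg _ (mul_one v))
  have hb := (L.pg R).unit H.D H.v _ _ ((L.pg R).alG H) ((L.pg R).alG H) (H.GF.act u) (-j)
    (neg_mem j1) ((Module.End.isUnit_iff _).1 ((IsUnit.mk0 u hu).map H.GF.act))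
  have h0 : ∀ b, gen H.d (one k (RatFunc.X : RatFunc k)).V b (1 : RatFunc k) = 0 := fun b =>
    hb.1 (by rw [map_zero, LinearMap.add_apply, LinearMap.neg_apply, ← j2]; exact add_neg_eq_zero.2 (hg b u))
  have e : (LinearMap.id : H.G →ₗ[R] H.G) = 0 := M_ext fun b v => by
    rw [← hg b v, h0, map_zero]; rfl
  obtain ⟨x, hx⟩ := @exists_ne _ ((L.pg R).ntG H) 0
  exact hx (LinearMap.congr_fun e x)

end Pool.Agent.P.MP_cf639b_al
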