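import Pool.Agent.P.MP_cf639b_al.Iface

set_option linter.dupNamespace false

namespace Pool.Agent.P.MP_cf639b_al

universe u v
open TensorProduct Polynomial Function

section aux
variable {k : Type u} [Field k] {R : Type u} [Ring R] [Algebra k R]

theorem strp_rep [FiniteDimensional k R] {I J : Type} [Fintype I] {n : ℕ}
    (L : ∀ T : Md k R, (I → T) → J → T) (W : ∀ T : Md k R, (I → T) → Fin n → T)
    (hL : ∀ (T T' : Md k R) (g : T →ₗ[R] T') y j, L T' (fun i => g (y i)) j = g (L T y j))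
    (hW : ∀ (T T' : Md k R) (g : T →ₗ[R] T') y j, W T' (fun i => g (y i)) j = g (W T y j)) :
    ∃ φ : PP (free k R n), ∀ (T : Md k R) (t : free k R n →ₗ[R] T), t ∈ φ.ev T ↔
      ∃ y, (∀ j, L T y j = 0) ∧ ∀ b, t (Pi.single b 1) = W T y b := by
  classical
  let Fr : Md k R := ⟨I → R⟩
  let e : I → Fr := fun i => (Pi.single i 1 : I → R)
  let S : Submodule R Fr := Submodule.span R (Set.range (L Fr e))
  have hF : Module.Finite k Fr := inferInstanceAs (Module.Finite k (I → R))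
  refine ⟨⟨Fr.quo S, Module.Finite.of_surjective (S.mkQ.restrictScalars k) S.mkQ_surjective,
    (Pi.basisFun R (Fin n)).constr k fun b => S.mkQ (W Fr e b)⟩, fun T t => ⟨?_, ?_⟩⟩
  · rintro ⟨g, rfl⟩
    refine ⟨fun i => (g ∘ₗ S.mkQ) (e i), fun j => ?_, fun b => ?_⟩
    · rw [hL, LinearMap.comp_apply, S.mkQ_apply,
        (Submodule.Quotient.mk_eq_zero S).2 (Submodule.subset_span ⟨j, rfl⟩), map_zero]
    · rw [hW, LinearMap.comp_apply, ← Pi.basisFun_apply, Module.Basis.constr_basis]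
      rfl
  · rintro ⟨y, h1, h2⟩
    let g : Fr →ₗ[R] T := (Pi.basisFun R I).constr k y
    have hg : (fun i => g (e i)) = y := funext fun i => by
      have := (Pi.basisFun R I).constr_basis k y i
      rwa [Pi.basisFun_apply] at this
    refine ⟨S.liftQ g (Submodule.span_le.2 ?_), (Pi.basisFun R (Fin n)).ext fun b => ?_⟩
    · rintro _ ⟨j, rfl⟩
      change g _ = 0
      rw [← hL, hg, h1]
    · rw [LinearMap.comp_apply, Module.Basis.constr_basis, Pi.basisFun_apply, h2]
      exact (congrArg (W T · b) hg.symm).trans (hW Fr T g e b)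

theorem strp_rep2 [FiniteDimensional k R] {J : Type} {n n0 : ℕ} (m : ℕ)
    (L : ∀ T : Md k R, (Fin n0 → ℕ →₀ T) → J → T) (W : ∀ T : Md k R, (Fin n0 → ℕ →₀ T) → Fin n → T)
    (hL : ∀ (T T' : Md k R) (g : T →ₗ[R] T') z j,
      L T' (fun i => Finsupp.mapRange.linearMap g (z i)) j = g (L T z j))
    (hW : ∀ (T T' : Md k R) (g : T →ₗ[R] T') z j,
      W T' (fun i => Finsupp.mapRange.linearMap g (z i)) j = g (W T z j)) :
    ∃ φ : PP (free k R n), ∀ (T : Md k R) (t : free k R n →ₗ[R] T), t ∈ φ.ev T ↔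
      ∃ z, (∀ b l, m < l → z b l = 0) ∧ (∀ j, L T z j = 0) ∧
        ∀ b, t (Pi.single b 1) = W T z b := by
  let Z : ∀ T : Md k R, (Fin n0 × Fin (m + 1) → T) → Fin n0 → ℕ →₀ T := fun T y b =>
    ∑ l : Fin (m + 1), Finsupp.single l.1 (y (b, l))
  have hZ : ∀ (T T' : Md k R) (g : T →ₗ[R] T') y,
      Z T' (fun i => g (y i)) = fun b => Finsupp.mapRange.linearMap g (Z T y b) :=
    fun T T' g y => funext fun b => by simp [Z, map_sum]
  obtain ⟨φ, h⟩ := strp_rep (fun T y => L T (Z T y)) (fun T y => W T (Z T y))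
    (fun T T' g y j => by rw [hZ, hL]) (fun T T' g y j => by rw [hZ, hW])
  refine ⟨φ, fun T t => (h T t).trans ⟨?_, ?_⟩⟩
  · rintro ⟨y, h1, h2⟩
    refine ⟨Z T y, fun b l hl => ?_, h1, h2⟩
    rw [Finsupp.finsetSum_apply]
    exact Finset.sum_eq_zero fun i _ => Finsupp.single_eq_of_ne (by omega)
  · rintro ⟨z, h0, h1, h2⟩
    have : Z T (fun p => z p.1 p.2.1) = z := by
      ext b l
      rw [Finsupp.finsetSum_apply]
      by_cases hl : m < l
      · rw [h0 b l hl]
        exact Finset.sum_eq_zero fun i _ => Finsupp.single_eq_of_ne (by omega)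
      · rw [Finset.sum_eq_single (⟨l, by omega⟩ : Fin (m + 1))
          (fun i _ hi => Finsupp.single_eq_of_ne fun e => hi (Fin.ext e.symm)) (by simp)]
        exact Finsupp.single_eq_same
    exact ⟨fun p => z p.1 p.2.1, by rwa [this], by rwa [this]⟩

theorem strp_dx (d : Fam R) (T T' : Md k R) (g : T →ₗ[R] T') (z : Fin d.n0 → ℕ →₀ T)
    (a : Fin d.n1) (l : ℕ) :
    DX d T' (fun i => Finsupp.mapRange.linearMap g (z i)) a l = g (DX d T z a l) := by
  rw [DX, Dop_nat d _ _ _ (mapRange_shift g)]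
  rfl

theorem strp_aev (T T' : Md k R) (g : T →ₗ[R] T') (q : k[X]) (z : ℕ →₀ T) :
    aeval ((shift R T').restrictScalars k : Module.End k (ℕ →₀ T')) q
      (Finsupp.mapRange.linearMap g z) = Finsupp.mapRange.linearMap g
        (aeval ((shift R T).restrictScalars k : Module.End k (ℕ →₀ T)) q z) := by
  induction q using Polynomial.induction_on' with
  | add p q hp hq => simp only [map_add, LinearMap.add_apply, hp, hq]
  | monomial n a =>
    simp only [aeval_monomial, Module.End.mul_apply, Module.algebraMap_end_apply,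
      LinearMap.map_smul_of_tower]
    refine congrArg _ ?_
    induction n with
    | zero => rfl
    | succ n ih =>
      rw [pow_succ', pow_succ', Module.End.mul_apply, Module.End.mul_apply, ih]
      exact (LinearMap.congr_fun (mapRange_shift g) _).symm

/-- values on the basis -/
noncomputable def strp_ka (n : ℕ) (T : Md k R) : (free k R n →ₗ[R] T) ≃ₗ[k] (Fin n → T) :=
  ((Pi.basisFun R (Fin n)).constr k).symm

theorem strp_ka_apply (n : ℕ) (T : Md k R) (t : free k R n →ₗ[R] T) (b : Fin n) :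
    strp_ka n T t b = t (Pi.single b 1) := by
  rw [← Pi.basisFun_apply]
  rfl

/-- coefficient spaces -/
noncomputable def strp_S (d : Fam R) (a l : ℕ) (T : Md k R) : Submodule k (Fin d.n0 → T) :=
  (Zle d a T).map (LinearMap.compLeft (Finsupp.lapply l) _)

theorem strp_B (d : Fam R) (a : ℕ) (T : Md k R) :
    StrB d a T = (Finset.range (a + 1)).sup fun l => strp_S d a l T := by
  refine le_antisymm (Submodule.span_le.2 ?_) (Finset.sup_le fun l _ => ?_)
  · rintro _ ⟨z, hz, l, rfl⟩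
    by_cases hl : a < l
    · rw [show (fun b => z b l) = 0 from funext fun b => hz.2 b l hl]
      exact zero_mem _
    · exact Finset.le_sup (f := fun l => strp_S d a l T) (Finset.mem_range.2 (by omega : l < a + 1))
        ⟨z, hz, rfl⟩
  · rintro _ ⟨z, hz, rfl⟩
    exact Submodule.subset_span ⟨z, hz, l, rfl⟩

theorem strp_psi [FiniteDimensional k R] (hP : S_PP k R) (d : Fam R) (a N : ℕ) :
    ∃ ψ : PP (free k R d.n0), ∀ T : Md k R, (ψ.ev T).map (strp_ka d.n0 T).toLinearMap =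
      (Finset.range N).sup fun l => strp_S d a l T := by
  induction N with
  | zero =>
    obtain ⟨ψ, h⟩ := hP.bot (free k R d.n0)
    exact ⟨ψ, fun T => by simp [h]⟩
  | succ N ih =>
    obtain ⟨ψ, h⟩ := ih
    obtain ⟨φ, h'⟩ := strp_rep2 (k := k) (J := Fin d.n1 × ℕ) a (fun T z j => DX d T z j.1 j.2)
      (fun _ z b => z b N) (fun T T' g z j => strp_dx d T T' g z j.1 j.2) fun _ _ _ _ _ => rfl
    obtain ⟨χ, h''⟩ := hP.sup _ φ ψ
    refine ⟨χ, fun T => ?_⟩
    rw [h'', Submodule.map_sup, h, Finset.range_add_one, Finset.sup_insert]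
    refine congrArg (· ⊔ _) (le_antisymm ?_ ?_)
    · rintro _ ⟨t, ht, rfl⟩
      obtain ⟨z, h0, h1, h2⟩ := (h' T t).1 ht
      exact ⟨z, ⟨funext fun b => Finsupp.ext fun l => h1 (b, l), h0⟩,
        funext fun b => ((strp_ka_apply _ _ t b).trans (h2 b)).symm⟩
    · rintro _ ⟨z, hz, rfl⟩
      refine ⟨(strp_ka d.n0 T).symm _, (h' T _).2 ⟨z, hz.2, fun j => by rw [hz.1]; rfl, fun b => ?_⟩,
        (strp_ka d.n0 T).apply_symm_apply _⟩
      rw [← strp_ka_apply, LinearEquiv.apply_symm_apply]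
      rfl

end aux

theorem t_STRP (k : Type u) [Field k] [IsAlgClosed k] (R : Type u) [Ring R] [Algebra k R]
    [FiniteDimensional k R]
    (L : Lib k) :
    S_STRP k R := by
  intro d q m c a
  obtain ⟨ψ, hψ⟩ := strp_psi (L.pp R) d a (a + 1)
  obtain ⟨φ, hφ⟩ := strp_rep2 (k := k) (J := Fin d.n1 × {l : ℕ // d.r ≤ l ∧ l ≤ m}) m
    (fun T z j => DX d T z j.1 j.2.1)
    (fun T z b => aeval ((shift R T).restrictScalars k : Module.End k (ℕ →₀ T)) q (z b) c)
    (fun T T' g z j => strp_dx d T T' g z j.1 j.2.1) fun T T' g z b => by rw [strp_aev]; rfl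
  refine ⟨⟨free k R d.n0, inferInstanceAs (Module.Finite k (Fin d.n0 → R)), φ, ψ⟩, fun T => ?_⟩
  rw [strp_B, ← hψ, Pr.Open, SetLike.not_le_iff_exists]
  constructor
  · rintro ⟨t, h1, h2⟩
    obtain ⟨z, z0, z1, z2⟩ := (hφ T t).1 h1
    refine ⟨strp_ka _ T t, ⟨z, z0, fun a l e e' => z1 (a, ⟨l, e, e'⟩), fun b =>
      (strp_ka_apply _ _ t b).trans (z2 b)⟩, ?_⟩
    rintro ⟨t', h3, e⟩
    exact h2 ((strp_ka _ T).injective e ▸ h3)
  · rintro ⟨w, ⟨z, z0, z1, z2⟩, h2⟩
    obtain ⟨t, rfl⟩ := (strp_ka _ T).surjective w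
    exact ⟨t, (hφ T t).2 ⟨z, z0, fun j => z1 j.1 j.2.1 j.2.2.1 j.2.2.2, fun b =>
      (strp_ka_apply _ _ t b).symm.trans (z2 b)⟩, fun h => h2 ⟨t, h, rfl⟩⟩

end Pool.Agent.P.MP_cf639b_al
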