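import Pool.Agent.P.MP_cf639b_al.Iface

set_option linter.dupNamespace false

namespace Pool.Agent.P.MP_cf639b_al

universe u v
open TensorProduct Polynomial Function

section aux
variable {k : Type u} [Field k] {R : Type u} [Ring R] [Algebra k R]
  {F : Type u} [Field F] [Algebra k F]

theorem tube_unit (y : F) (e : ℕ) (w : JT y (e + 1))
    (h : Jmk y (e + 1) ((X - C y) ^ e) * w ≠ 0) : IsUnit w := by
  obtain ⟨p, rfl⟩ := Ideal.Quotient.mk_surjective w
  have h1 : ¬ (X - C y) ∣ p := by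
    rintro ⟨q, rfl⟩
    refine h ?_
    rw [← map_mul, Ideal.Quotient.eq_zero_iff_mem, ← mul_assoc, ← pow_succ]
    exact Ideal.mul_mem_right _ _ (Ideal.mem_span_singleton_self _)
  obtain ⟨a, b, hab⟩ :=
    (((irreducible_X_sub_C y).coprime_iff_not_dvd.2 h1).pow_left (m := e + 1))
  refine IsUnit.of_mul_eq_one_right (Jmk y (e + 1) b) ?_
  have h0 : Jmk y (e + 1) (a * (X - C y) ^ (e + 1)) = 0 :=
    Ideal.Quotient.eq_zero_iff_mem.2 (Ideal.mul_mem_left _ _ (Ideal.mem_span_singleton_self _))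
  rw [← map_mul, ← map_one (Jmk y (e + 1)), ← hab, map_add, h0, zero_add]

theorem tube_pol (q : F[X]) (h : k[X]) (v : QT q) :
    aeval (Jq k q).V.x h v = aeval (Qmk q X) h * v := by
  have := Polynomial.aeval_algHom_apply (Algebra.lmul k (QT q)) (Qmk q X) h
  exact LinearMap.congr_fun this v

theorem tube_lin (q : F[X]) (g : XH (Jq k q).V (Jq k q).V) (hg : XLin (Jq k q) (Jq k q) g)
    (p : F[X]) : ∀ v : QT q, g.1 (Qmk q p * v) = Qmk q p * (g.1 v : QT q) := by
  induction p using Polynomial.induction_on with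
  | C a => exact fun v => hg a v
  | add p r hp hr =>
    intro v
    rw [map_add, add_mul, add_mul, ← hp, ← hr]
    exact g.1.map_add _ _
  | monomial n a ih =>
    intro v
    rw [pow_succ, ← mul_assoc, map_mul (Qmk q) (C a * X ^ n) X, mul_assoc, mul_assoc, ih]
    exact congrArg _ (XH.comm g v)

theorem tube_bij (q : F[X]) (g : XH (Jq k q).V (Jq k q).V) (hg : XLin (Jq k q) (Jq k q) g)
    (h : IsUnit (g.1 (1 : QT q) : QT q)) : Bijective g.1 := by
  have e : (g.1 : QT q → QT q) = fun v => (g.1 (1 : QT q) : QT q) * v := funext fun v => by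
    obtain ⟨p, rfl⟩ := Ideal.Quotient.mk_surjective v
    have := tube_lin q g hg p 1
    rwa [mul_one, mul_comm] at this
  change Bijective (g.1 : QT q → QT q)
  rw [e]
  exact IsUnit.isUnit_iff_mulLeft_bijective.1 h

theorem tube_map (G : NF k R) {V V' : XV k} (g : XH V V') (h : Bijective g.1) :
    Bijective (G.map g) := by
  let e := LinearEquiv.ofBijective g.1 h
  let g' : XH V' V := ⟨e.symm.toLinearMap, LinearMap.ext fun v => e.injective (by
    change e (e.symm (V'.x v)) = g.1 (V.x (e.symm v))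
    rw [XH.comm, LinearEquiv.apply_symm_apply]
    exact congrArg _ (e.apply_symm_apply v).symm)⟩
  have e1 : XH.comp g' g = XH.id _ := Subtype.ext (LinearMap.ext fun v => e.symm_apply_apply v)
  have e2 : XH.comp g g' = XH.id _ := Subtype.ext (LinearMap.ext fun v => e.apply_symm_apply v)
  refine bijective_iff_has_inverse.2 ⟨G.map g', fun t => ?_, fun t => ?_⟩
  · exact LinearMap.congr_fun ((G.map_comp _ _).symm.trans (by rw [e1, G.map_id])) t
  · exact LinearMap.congr_fun ((G.map_comp _ _).symm.trans (by rw [e2, G.map_id])) t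

theorem tube_pow {W : Type u} [AddCommGroup W] [Module k W] {π : Module.End k W}
    (h : Injective π) (n : ℕ) (t : W) (ht : (π ^ n) t = 0) : t = 0 := by
  induction n with
  | zero => simpa using ht
  | succ n ih =>
    rw [pow_succ', Module.End.mul_apply] at ht
    exact ih (h (ht.trans (map_zero π).symm))

end aux

theorem t_TUBE (k : Type u) [Field k] [IsAlgClosed k] (R : Type u) [Ring R] [Algebra k R]
    [FiniteDimensional k R]
    (L : Lib k)
    (hNTH : S_NTH k R) :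
    S_TUBE k R := by
  intro H hCK
  obtain ⟨N⟩ := hNTH H.d (RatFunc k) RatFunc.X L.aut.gen hCK
  obtain ⟨fQ, hfQ, hnt⟩ := L.notor R H.d N.Q' N.fd'
  refine ⟨H.D.f * (N.h * fQ), mul_ne_zero H.D.hf (mul_ne_zero N.hh hfQ), dvd_mul_right _ _, ?_⟩
  rintro F _ _ A hA y e hy hexp ⟨t, ht, hte⟩
  rw [map_mul, map_mul] at hy
  have y1 : aeval y H.D.f ≠ 0 := left_ne_zero_of_mul hy
  have y2 : aeval y N.h ≠ 0 := left_ne_zero_of_mul (right_ne_zero_of_mul hy)
  have y3 : aeval y fQ ≠ 0 := right_ne_zero_of_mul (right_ne_zero_of_mul hy)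
  have B := L.bock R
  have ht0 := hexp t ht
  obtain ⟨a, ha, hta⟩ := (L.rep R).repJ F H.d A y (e + 1) t ht0
  obtain ⟨b, hb, hbt⟩ := L.co R F H.d A hA y (e + 1) hexp t ht
  have hw : IsUnit (hat H.d (J k y (e + 1)).V b t : JT y (e + 1)) :=
    tube_unit y e _ fun h => hte ((hbt e).1 h)
  have hal : Allowed true H.D.f (J k y (e + 1)).V := (L.pg R).alJ F _ y _ y1
  have hal' : Allowed (H.D.K H.v) H.D.f (J k y (e + 1)).V := by rw [H.hK]; exact hal
  have hb' : N.th'.app _ ∘ₗ b ∈ HomF A (MF H.d (J k y (e + 1))) :=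
    HomF.comp (NT.mem N.th' (J k y (e + 1))) hb
  obtain ⟨g0, hg0, hj⟩ := (L.pg R).decF H F _ _ hal hal _ (HomF.comp hb' ha)
  refine (L.ks R).smd_of F _ _ a ha _ hb' ?_
  set u := (N.th'.app (J k y (e + 1)).V ∘ₗ b) ∘ₗ a with hu
  have z0 : Emap H.d (N.a'.app (J k y (e + 1)).V ∘ₗ b) t = 0 := by
    refine tube_pow (hnt F ((TenN N.Q').onF (J k y (e + 1))) ((L.cc R).ten _ _) y y3) (e + 1) _ ?_
    rw [← B.emap_piE F H.d y A _ _ (HomF.comp (NT.mem N.a' (J k y (e + 1))) hb), ht0, map_zero]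
  have z1 : hat H.d (J k y (e + 1)).V (N.th.app _) (Emap H.d u (eJ H.d y (e + 1))) =
      aeval (J k y (e + 1)).V.x N.h (hat H.d (J k y (e + 1)).V b t) := by
    rw [hu, Emap_comp, LinearMap.comp_apply, ← hta, ← B.hat_comp, ← LinearMap.comp_assoc, N.eY,
      LinearMap.add_comp, B.hat_add, LinearMap.add_apply, B.hat_map, LinearMap.comp_assoc,
      B.hat_comp, z0, map_zero, add_zero, XH.pol_val]
  have z2 : Emap H.d u (eJ H.d y (e + 1)) =
      Bock H.d (J k y (e + 1)).V LinearMap.id (g0.1 (1 : JT y (e + 1))) := by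
    have h1 := H.D.bock hal' hal' H.hK _ hj
    have h2 := B.eq H.d _ _ (u - (MN H.d).map g0) (1 : JT y (e + 1))
    rw [h1, map_sub, LinearMap.sub_apply, LinearMap.zero_apply, eq_comm, sub_eq_zero] at h2
    refine h2.trans ?_
    rw [← B.eq, ← B.map]
    rfl
  rw [z2, N.ev, tube_pol, tube_pol] at z1
  have u1 : IsUnit (aeval (Jmk y (e + 1) X) N.h) := by
    obtain ⟨v, hv⟩ := (show Bijective (aeval (J k y (e + 1)).V.x N.h) from
      (L.pg R).alJ F _ y _ y2).2 (1 : JT y (e + 1))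
    rw [tube_pol] at hv
    exact IsUnit.of_mul_eq_one _ hv
  have u2 : IsUnit (g0.1 (1 : JT y (e + 1)) : JT y (e + 1)) :=
    isUnit_of_mul_isUnit_right (z1 ▸ u1.mul hw)
  have := (L.pg R).unit H.D H.v _ _ hal' hal' _ _ hj (tube_map (MN H.d) g0 (tube_bij _ g0 hg0 u2))
  rwa [add_sub_cancel] at this

theorem t_TUBE2 (k : Type u) [Field k] [IsAlgClosed k] (R : Type u) [Ring R] [Algebra k R]
    [FiniteDimensional k R]
    (L : Lib k) :
    S_TUBE2 k R := by
  classical
  rintro H H' g ⟨-, hfg, hT⟩ F _ _ y y' n hy' hy hinj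
  have hA : (MF H'.d (J k y' (n + 1))).fd :=
    (L.fd R).m F _ _ ((L.fd R).jq F _ (Jmonic y' _)).1
  have hloc : Loc (MF H'.d (J k y' (n + 1))) :=
    (L.pg R).locJ H' F y' n fun h => hy' ⟨_, H'.D.hf, h⟩
  have y1 : aeval y H.D.f ≠ 0 := by
    obtain ⟨c, rfl⟩ := hfg
    rw [map_mul] at hy
    exact left_ne_zero_of_mul hy
  have hex := (L.noe R).expo F H.d _ hA y
  obtain ⟨e, he⟩ : ∃ e, Nat.find hex = e + 1 := by
    refine Nat.exists_eq_succ_of_ne_zero fun h0 => hinj ?_
    rw [injective_iff_map_eq_zero]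
    intro t ht
    have := Nat.find_spec hex t ⟨1, by rw [pow_one]; exact ht⟩
    rwa [h0, pow_zero] at this
  have h1 := Nat.find_spec hex
  have h2 := Nat.find_min hex (m := e) (by omega)
  rw [he] at h1
  push Not at h2
  have iso := (L.id R).iso_symm F _ _ ((L.ks R).smd_iso F _ _ ((L.pg R).locJ H F y e y1).1 hloc
    (hT F _ hA y e hy h1 h2))
  refine ⟨fun halg => ?_, e, iso⟩
  obtain ⟨p, rfl⟩ : y ∈ (algebraMap k F).range := minpoly.mem_range_of_degree_eq_one k y
    (IsAlgClosed.degree_eq_one_of_irreducible k (minpoly.irreducible halg.isIntegral))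
  obtain ⟨f, hf, hb⟩ := iso
  obtain ⟨f', -, e1, -⟩ := (L.id R).iso_inv F _ _ f hf hb
  exact (L.pg R).nc H' F y' n hy' _
    ((L.fd R).mfd H.d (J k p (e + 1)).V (Jmonic p (e + 1)).finite_quotient).1
    ((L.cc R).smd _ _ _ f f' e1 ((L.cc R).jk F H.d p (e + 1)))

end Pool.Agent.P.MP_cf639b_al
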