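import Pool.Agent.P.MP_cf639b_al.Iface

set_option linter.dupNamespace false

namespace Pool.Agent.P.MP_cf639b_al

universe u v
open TensorProduct Polynomial Function

noncomputable section

namespace Af

section matrices
variable {m n : Type} [Fintype m] [Fintype n] [DecidableEq m] [DecidableEq n]

theorem matK {K : Type u} [Field K] (A : Matrix m n K) : ∃ (r : ℕ) (N : Matrix n (Fin r) K)
    (L : Matrix (Fin r) n K) (B : Matrix n m K), N * L + B * A = 1 ∧ L * N = 1 ∧ A * N = 0 := by
  let f := Matrix.toLin' A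
  obtain ⟨s, hs⟩ := f.rangeRestrict.exists_rightInverse_of_surjective
    (LinearMap.range_rangeRestrict _)
  obtain ⟨l, hl⟩ := (LinearMap.range f).subtype.exists_leftInverse_of_injective
    (Submodule.ker_subtype _)
  have h : ∀ x, f (s (l (f x))) = f x := fun x =>
    (congrArg (fun z => f (s z)) (LinearMap.congr_fun hl ⟨f x, x, rfl⟩)).trans
      (congrArg Subtype.val (LinearMap.congr_fun hs ⟨f x, x, rfl⟩))
  let p : (n → K) →ₗ[K] LinearMap.ker f :=
    (LinearMap.id - s ∘ₗ l ∘ₗ f).codRestrict _ fun x => by simp [h]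
  let e := (Module.finBasis K (LinearMap.ker f)).equivFun
  refine ⟨_, LinearMap.toMatrix' ((LinearMap.ker f).subtype ∘ₗ e.symm.toLinearMap),
    LinearMap.toMatrix' (e.toLinearMap ∘ₗ p), LinearMap.toMatrix' (s ∘ₗ l), ?_, ?_, ?_⟩ <;>
    refine Matrix.toLin'.injective (LinearMap.ext fun x => ?_)
  · simp [Matrix.toLin'_mul, p, f]
  · have : p (e.symm x) = e.symm x := Subtype.ext (by simp [p])
    simp [Matrix.toLin'_mul, this]
  · simp [Matrix.toLin'_mul]

variable {D : Type u} [CommRing D] [IsDomain D]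

omit [DecidableEq m] [DecidableEq n] in
theorem clear (A : Matrix m n (FractionRing D)) : ∃ d : D, d ≠ 0 ∧ ∃ A₀ : Matrix m n D,
    A₀.map (algebraMap D (FractionRing D)) = algebraMap D (FractionRing D) d • A := by
  obtain ⟨d, hd⟩ := IsLocalization.exist_integer_multiples_of_finite (nonZeroDivisors D)
    fun p : m × n => A p.1 p.2
  choose a ha using hd
  exact ⟨d, nonZeroDivisors.coe_ne_zero d, fun i j => a (i, j), Matrix.ext fun i j =>
    (ha (i, j)).trans (Algebra.smul_def _ _)⟩

theorem matD (A : Matrix m n D) : ∃ (r : ℕ) (g : D) (N : Matrix n (Fin r) D)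
    (L : Matrix (Fin r) n D) (B : Matrix n m D),
    g ≠ 0 ∧ N * L + B * A = g • 1 ∧ L * N = g • 1 ∧ A * N = 0 := by
  let φ := algebraMap D (FractionRing D)
  obtain ⟨r, N, L, B, h1, h2, h3⟩ := matK (A.map φ)
  obtain ⟨a, ha, N₀, e1⟩ := clear N
  obtain ⟨b, hb, L₀, e2⟩ := clear L
  obtain ⟨c, hc, B₀, e3⟩ := clear B
  have hs : ∀ {p q : Type} (x : D) (Z : Matrix p q D), (x • Z).map φ = φ x • Z.map φ :=
    fun x Z => Matrix.ext fun i j => map_mul φ _ _
  refine ⟨r, a * b * c, N₀, c • L₀, (a * b) • B₀, by simp [ha, hb, hc], ?_, ?_, ?_⟩ <;>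
    refine Matrix.map_injective (IsFractionRing.injective D (FractionRing D)) ?_ <;>
    beta_reduce
  · rw [Matrix.map_add _ (map_add φ), Matrix.map_mul, Matrix.map_mul, hs, hs, hs, e1, e2, e3,
      Matrix.map_one _ (map_zero φ) (map_one φ), ← h1]
    simp only [Matrix.smul_mul, Matrix.mul_smul, smul_smul, smul_add, map_mul, φ]
    congr 2
    ring
  · rw [Matrix.map_mul, hs, hs, e1, e2, Matrix.map_one _ (map_zero φ) (map_one φ), ← h2]
    simp only [Matrix.smul_mul, Matrix.mul_smul, smul_smul, map_mul, φ]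
    congr 1
    ring
  · rw [Matrix.map_mul, e1, Matrix.mul_smul, h3, smul_zero, Matrix.map_zero _ (map_zero φ)]

theorem matD' (A : Matrix m n D) : ∃ (r : ℕ) (g : D) (C : Matrix (Fin r) m D)
    (S : Matrix m (Fin r) D) (B : Matrix n m D),
    g ≠ 0 ∧ S * C + A * B = g • 1 ∧ C * S = g • 1 ∧ C * A = 0 := by
  obtain ⟨r, g, N, L, B, h0, h1, h2, h3⟩ := matD A.transpose
  refine ⟨r, g, N.transpose, L.transpose, B.transpose, h0, ?_, ?_, ?_⟩
  · simpa using congrArg Matrix.transpose h1
  · simpa using congrArg Matrix.transpose h2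
  · simpa using congrArg Matrix.transpose h3
end matrices

variable {k : Type u} [Field k]

variable (k) in
/-- functors to vector spaces -/
structure KF where
  obj : XV k → Vs k
  map : ∀ {V V' : XV k}, XH V V' → (obj V →ₗ[k] obj V')
  comp : ∀ {V V' V'' : XV k} (g : XH V' V'') (f : XH V V') z, map (XH.comp g f) z = map g (map f z)

/-- natural transformations -/
structure KT (G H : KF k) where
  app : ∀ V, G.obj V →ₗ[k] H.obj V
  nat : ∀ {V V' : XV k} (g : XH V V') z, H.map g (app V z) = app V' (G.map g z)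

/-- composition -/
def KT.comp {G H K : KF k} (b : KT H K) (a : KT G H) : KT G K :=
  ⟨fun V => b.app V ∘ₗ a.app V, fun g z => (b.nat g _).trans (congrArg _ (a.nat g z))⟩

/-- powers -/
abbrev Pw (ι : Type) : KF k := ⟨fun V => ⟨ι → V⟩, fun g => g.1.compLeft ι, fun _ _ _ => rfl⟩

/-- the action of a polynomial -/
def KF.pol (G : KF k) (V : XV k) (h : k[X]) : G.obj V →ₗ[k] G.obj V := G.map (XH.pol V h)

theorem pol_mul (G : KF k) (V : XV k) (h h' : k[X]) (z : G.obj V) :
    G.pol V (h * h') z = G.pol V h (G.pol V h' z) :=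
  (congrArg (fun g => G.map g z) (Subtype.ext (map_mul (aeval V.x) h h'))).trans (G.comp _ _ z)

theorem pol_nat {G H : KF k} (a : KT G H) (V : XV k) (h : k[X]) (z : G.obj V) :
    a.app V (G.pol V h z) = H.pol V h (a.app V z) := (a.nat _ z).symm

theorem comm_aeval {V V' : XV k} (g : XH V V') (p : k[X]) (v : V) :
    g.1 (aeval V.x p v) = aeval V'.x p (g.1 v) := by
  induction p using Polynomial.induction_on' with
  | add p q hp hq => simp [hp, hq]
  | monomial n a => simp [aeval_monomial, XH.comm_pow]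

section mat
variable {ι κ μ : Type} [Fintype ι] [Fintype κ]

/-- the map given by a matrix -/
def matL (A : Matrix κ ι k[X]) (V : XV k) : (ι → V) →ₗ[k] (κ → V) :=
  LinearMap.pi fun a => ∑ b, aeval V.x (A a b) ∘ₗ LinearMap.proj b

omit [Fintype κ] in
theorem matL_app (A : Matrix κ ι k[X]) (V : XV k) (v : ι → V) (a : κ) :
    matL A V v a = ∑ b, aeval V.x (A a b) (v b) := by simp [matL]

/-- the transformation given by a matrix -/
def mat (A : Matrix κ ι k[X]) : KT (k := k) (Pw ι) (Pw κ) where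
  app V := matL A V
  nat {V V'} g z := funext fun a => by
    change g.1 (matL A V z a) = matL A V' (fun b => g.1 (z b)) a
    simp [matL_app, comm_aeval]

theorem mat_mul (A : Matrix μ κ k[X]) (B : Matrix κ ι k[X]) (V : XV k) (v : ι → V) :
    (mat (A * B)).app V v = (mat A).app V ((mat B).app V v) := funext fun a => by
  change matL (A * B) V v a = matL A V (matL B V v) a
  simp only [matL_app, Matrix.mul_apply, map_sum, map_mul, LinearMap.sum_apply,
    Module.End.mul_apply]
  exact Finset.sum_comm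

omit [Fintype κ] in
theorem mat_add (A B : Matrix κ ι k[X]) (V : XV k) (v : ι → V) :
    (mat (A + B)).app V v = (mat A).app V v + (mat B).app V v := funext fun a => by
  change matL (A + B) V v a = matL A V v a + matL B V v a
  simp [matL_app, Finset.sum_add_distrib]

omit [Fintype κ] in
theorem mat_zero (V : XV k) (v : ι → V) : (mat (0 : Matrix κ ι k[X])).app V v = 0 :=
  funext fun a => by
    change matL 0 V v a = 0
    simp [matL_app]

omit [Fintype κ] in
theorem mat_smul (h : k[X]) (A : Matrix κ ι k[X]) (V : XV k) (v : ι → V) :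
    (mat (h • A)).app V v = (Pw κ).pol V h ((mat A).app V v) := funext fun a => by
  change matL (h • A) V v a = aeval V.x h (matL A V v a)
  simp [matL_app]

theorem mat_one [DecidableEq ι] (h : k[X]) (V : XV k) (v : ι → V) :
    (mat (h • (1 : Matrix ι ι k[X]))).app V v = (Pw ι).pol V h v := by
  rw [mat_smul]
  refine congrArg _ (funext fun a => (matL_app _ _ _ _).trans ?_)
  rw [Finset.sum_eq_single a (fun b _ hb => by simp [hb.symm]) (by simp)]
  simp

omit [Fintype κ] in
theorem yon (c : KT (k := k) (Pw ι) (Pw κ)) :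
    ∃ A : Matrix κ ι k[X], ∀ V v, c.app V v = (mat A).app V v := by
  classical
  let U : XV k := ⟨k[X], LinearMap.mulLeft k X⟩
  refine ⟨fun a b => c.app U (Pi.single b (1 : k[X])) a, fun V v => funext fun a =>
    Eq.trans ?_ (matL_app _ _ _ _).symm⟩
  let g : V → XH U V := fun w => ⟨LinearMap.applyₗ w ∘ₗ (aeval V.x).toLinearMap,
    LinearMap.ext fun p : k[X] => by simp [U]⟩
  conv_lhs => rw [← Finset.univ_sum_single v, map_sum, Finset.sum_apply]
  refine Finset.sum_congr rfl fun b _ => ?_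
  refine Eq.trans (congrArg (fun z => c.app V z a) (funext fun b' => ?_))
    (congrFun (c.nat (g (v b)) (Pi.single b (1 : k[X]))) a).symm
  by_cases h : b' = b
  · subst h; simp [g]
  · simp [h]
end mat

/-- isogenous to a power -/
def AF (G : KF k) : Prop :=
  ∃ (ι : Type) (_ : Fintype ι) (h : k[X]) (i : KT (Pw ι) G) (j : KT G (Pw ι)), h ≠ 0 ∧
    (∀ V z, i.app V (j.app V z) = G.pol V h z) ∧ ∀ V v, j.app V (i.app V v) = (Pw ι).pol V h v

variable {G H K : KF k}

theorem af_ker (hG : AF G) (hH : AF H) (e : KT K G) (c : KT G H) (he : ∀ V, Injective (e.app V))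
    (hc : ∀ V, Exact (e.app V) (c.app V)) : AF K := by
  classical
  obtain ⟨ι, _, h, i, j, h0, h1, h2⟩ := hG
  obtain ⟨κ, _, h', i', j', h0', h1', -⟩ := hH
  obtain ⟨A, hA⟩ := yon (j'.comp (c.comp i))
  replace hA : ∀ V v, j'.app V (c.app V (i.app V v)) = (mat A).app V v := hA
  obtain ⟨r, g, N, L, B, g0, m1, m2, m3⟩ := matD A
  have z : ∀ V v, i.app V ((mat (h' • N)).app V v) ∈ LinearMap.range (e.app V) := fun V v =>
    (hc V _).1 (by rw [mat_smul, pol_nat, pol_nat, ← h1', hA, ← mat_mul, m3, mat_zero, map_zero])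
  have w : ∀ V v, e.app V ((i.app V ∘ₗ (mat (h' • N)).app V).codRestrictOfInjective (e.app V) (he V)
      (z V) v) = i.app V ((mat (h' • N)).app V v) := fun V v =>
    LinearMap.codRestrictOfInjective_comp_apply _ _ _ _ v
  refine ⟨Fin r, inferInstance, h * (h' * g), ⟨fun V => (i.app V ∘ₗ (mat (h' • N)).app V
    ).codRestrictOfInjective (e.app V) (he V) (z V), fun {V V'} f v => he V' ?_⟩,
    (mat L).comp (j.comp e), by simp [h0, h0', g0], fun V v => he V ?_, fun V v => ?_⟩
  rotate_left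
  · refine (w V ((mat L).app V (j.app V (e.app V v)))).trans ?_
    have e1 : (mat A).app V (j.app V (e.app V v)) = 0 := by
      rw [← hA, h1, pol_nat, (hc V).apply_apply_eq_zero, map_zero, map_zero]
    have e2 := mat_add (N * L) (B * A) V (j.app V (e.app V v))
    rw [m1, mat_one, mat_mul, mat_mul, e1, map_zero, add_zero] at e2
    rw [mat_smul, ← mat_mul, mat_mul N L, ← e2, pol_nat, pol_nat, h1, pol_nat, mul_comm h, pol_mul,
      pol_mul]
  · change (mat L).app V (j.app V (e.app V _)) = _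
    rw [w, h2, pol_nat, mat_smul, pol_nat, ← mat_mul, m2, mat_one, pol_mul, pol_mul]
  · rw [← e.nat, w, w]
    exact (i.comp (mat (h' • N))).nat f v

theorem af_coker (hG : AF G) (hH : AF H) (c : KT G H) (e : KT H K)
    (he : ∀ V, Surjective (e.app V)) (hc : ∀ V, Exact (c.app V) (e.app V)) : AF K := by
  classical
  obtain ⟨ι, _, h, i, j, h0, h1, -⟩ := hG
  obtain ⟨κ, _, h', i', j', h0', h1', h2'⟩ := hH
  obtain ⟨A, hA⟩ := yon (j'.comp (c.comp i))
  replace hA : ∀ V v, j'.app V (c.app V (i.app V v)) = (mat A).app V v := hA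
  obtain ⟨r, g, C, S, B, g0, m1, m2, m3⟩ := matD' A
  choose s hs using fun V => (e.app V).exists_rightInverse_of_surjective
    (LinearMap.range_eq_top.2 (he V))
  have w : ∀ V v, (mat (h • C)).app V (j'.app V (s V (e.app V v))) =
      (mat (h • C)).app V (j'.app V v) := fun V v => by
    obtain ⟨y, hy⟩ := (hc V (s V (e.app V v) - v)).1
      (by rw [map_sub]; exact sub_eq_zero.2 (LinearMap.congr_fun (hs V) _))
    rw [← sub_eq_zero, ← map_sub, ← map_sub, ← hy, mat_smul, ← pol_nat, ← pol_nat, ← pol_nat, ← h1,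
      hA, ← mat_mul, m3, mat_zero]
  refine ⟨Fin r, inferInstance, h * (h' * g), e.comp (i'.comp (mat S)),
    ⟨fun V => (mat (h • C)).app V ∘ₗ j'.app V ∘ₗ s V, fun {V V'} f v => ?_⟩,
    by simp [h0, h0', g0], fun V v => ?_, fun V v => (w V _).trans ?_⟩
  · obtain ⟨v, rfl⟩ := he V v
    rw [e.nat]
    exact (congrArg _ (w V v)).trans ((((mat (h • C)).comp j').nat f v).trans (w V' _).symm)
  · obtain ⟨v, rfl⟩ := he V v
    change e.app V (i'.app V ((mat S).app V ((mat (h • C)).app V (j'.app V (s V _))))) = _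
    have e1 : ∀ y, e.app V (i'.app V ((mat A).app V y)) = 0 := fun y => by
      rw [← hA, h1', pol_nat, (hc V).apply_apply_eq_zero, map_zero]
    have e2 := congrArg (fun y => e.app V (i'.app V y)) (mat_add (S * C) (A * B) V (j'.app V v))
    beta_reduce at e2
    rw [m1, mat_one, mat_mul, mat_mul, map_add, map_add, e1, add_zero] at e2
    rw [w, mat_smul, pol_nat, pol_nat, pol_nat, ← e2, pol_nat, pol_nat, h1', pol_nat, mul_comm h',
      pol_mul, pol_mul]
  · change (mat (h • C)).app V (j'.app V (i'.app V ((mat S).app V v))) = _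
    rw [h2', mat_smul, pol_nat, ← mat_mul, m2, mat_one, pol_mul, pol_mul]

theorem af_pw (ι : Type) [Fintype ι] (hid : ∀ V z, G.pol V 1 z = z) (i : KT (Pw ι) G)
    (j : KT G (Pw ι)) (h1 : ∀ V z, i.app V (j.app V z) = z) (h2 : ∀ V z, j.app V (i.app V z) = z) :
    AF G :=
  ⟨ι, inferInstance, 1, i, j, one_ne_zero, fun V z => (h1 V z).trans (hid V z).symm,
    fun V z => (h2 V z).trans (funext fun a => by simp [KF.pol])⟩

theorem af_pi {σ : Type} [Fintype σ] [DecidableEq σ] (hG : AF G) (a : σ → KT H G) (b : σ → KT G H)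
    (h1 : ∀ V z, ∑ s, (b s).app V ((a s).app V z) = z)
    (h2 : ∀ V s t z, (a s).app V ((b t).app V z) = if s = t then z else 0) : AF H := by
  obtain ⟨ι, _, h, i, j, h0, e1, e2⟩ := hG
  refine ⟨σ × ι, inferInstance, h,
    ⟨fun V => ∑ s, (b s).app V ∘ₗ i.app V ∘ₗ LinearMap.funLeft k V (Prod.mk s), fun f v => ?_⟩,
    ⟨fun V => LinearMap.pi fun p =>
      (LinearMap.proj p.2 : (ι → V) →ₗ[k] V) ∘ₗ j.app V ∘ₗ (a p.1).app V,
      fun f v => funext fun p => congrFun ((j.comp (a p.1)).nat f v) p.2⟩, h0, fun V z => ?_,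
    fun V v => funext fun p => ?_⟩
  · simp only [LinearMap.sum_apply, map_sum]
    exact Finset.sum_congr rfl fun s _ => ((b s).comp i).nat f _
  · rw [← h1 V (H.pol V h z), LinearMap.sum_apply]
    exact Finset.sum_congr rfl fun s _ => congrArg ((b s).app V)
      ((e1 V ((a s).app V z)).trans (pol_nat _ _ _ _).symm)
  · change j.app V ((a p.1).app V ((∑ s, (b s).app V ∘ₗ i.app V ∘ₗ
      LinearMap.funLeft k V (Prod.mk s)) v)) p.2 = _
    simp only [LinearMap.sum_apply, map_sum, LinearMap.comp_apply, h2, Finset.sum_ite_eq,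
      Finset.mem_univ, if_true, e2]
    rfl

theorem af_ten (hG : AF G) (Q : Type u) [AddCommGroup Q] [Module k Q] [Module.Finite k Q]
    (m : ∀ {V V' : XV k}, XH V V' → (Q ⊗[k] G.obj V →ₗ[k] Q ⊗[k] G.obj V')) (hc)
    (hm : ∀ {V V' : XV k} (g : XH V V') q w, m g (q ⊗ₜ w) = q ⊗ₜ G.map g w) :
    AF ⟨fun V => ⟨Q ⊗[k] G.obj V⟩, m, hc⟩ := by
  let b := Module.finBasis k Q
  refine af_pi hG (fun s => ⟨fun V => TensorProduct.lift (LinearMap.lsmul k _ ∘ₗ b.coord s),
    fun g z => ?_⟩) (fun s => ⟨fun V => TensorProduct.mk k Q _ (b s), fun g z => hm g _ z⟩)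
    (fun V z => ?_) fun V s t z => ?_
  · induction z using TensorProduct.induction_on with
    | zero => simp
    | tmul q w => simp [hm]
    | add x y hx hy => simp only [map_add, hx, hy]
  · induction z using TensorProduct.induction_on with
    | zero => simp
    | tmul q w =>
      conv_rhs => rw [← b.sum_repr q, TensorProduct.sum_tmul]
      simp [TensorProduct.smul_tmul]
    | add x y hx hy => simp only [map_add, Finset.sum_add_distrib, hx, hy]
  · by_cases h : s = t <;> simp [h]

variable {R : Type u} [Ring R] [Algebra k R]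

variable (R) in
/-- the functor `R ⊗ G` -/
abbrev PK (G : KF k) : KF k :=
  ⟨fun V => ⟨R ⊗[k] G.obj V⟩, fun g => (Pmap (G.map g)).restrictScalars k, fun g f z => by
    rw [show G.map (XH.comp g f) = G.map g ∘ₗ G.map f from LinearMap.ext (G.comp g f), Pmap_comp]
    rfl⟩

variable (R) in
/-- the functor `Hom(R, G)` -/
abbrev IK (G : KF k) : KF k :=
  ⟨fun V => ⟨CoInd k R (G.obj V)⟩, fun g => (Imap (G.map g)).restrictScalars k,
    fun g f _ => CoInd.ext fun _ => G.comp g f _⟩

/-- the underlying functor -/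
abbrev fg (G : NF k R) : KF k :=
  ⟨fun V => ⟨G.obj V⟩, fun g => (G.map g).restrictScalars k,
    fun g f => LinearMap.congr_fun (G.map_comp g f)⟩

theorem of_af {G : NF k R} (h : IsAF G) : AF (fg G) := by
  obtain ⟨n, h, i, j, h0, h1, h2, h3, h4⟩ := h
  exact ⟨Fin n, inferInstance, h, ⟨i, fun g => h1 _ _ g⟩, ⟨j, fun g z => (h2 _ _ g z).symm⟩, h0,
    h3, h4⟩

theorem to_af {G : NF k R} (h : AF (fg G)) : IsAF G := by
  obtain ⟨ι, _, h, i, j, h0, h1, h2⟩ := h
  let e := Fintype.equivFin ι
  refine ⟨_, h, fun V => i.app V ∘ₗ LinearMap.funLeft k V e,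
    fun V => LinearMap.funLeft k V e.symm ∘ₗ j.app V, h0, fun V V' g v => i.nat g _,
    fun V V' g z => funext fun a => (congrFun (j.nat g z) _).symm, fun V z => ?_, fun V v =>
      funext fun a => (congrFun (h2 V _) _).trans ?_⟩
  · exact (congrArg (i.app V) (funext fun a => congrArg (j.app V z) (e.symm_apply_apply a))).trans
      (h1 V z)
  · exact congrArg (fun b => aeval V.x h (v b)) (e.apply_symm_apply a)

theorem af_pow (n : ℕ) : AF (Pw (k := k) (Fin n)) :=
  af_pw (Fin n) (fun V z => funext fun a => by simp [KF.pol]) ⟨fun _ => LinearMap.id, fun _ _ => rfl⟩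
    ⟨fun _ => LinearMap.id, fun _ _ => rfl⟩ (fun _ _ => rfl) fun _ _ => rfl

variable [FiniteDimensional k R]

theorem af_P (hG : AF G) : AF (PK R G) := af_ten hG R _ _ fun _ _ _ => Pmap_tmul _ _ _

theorem af_I (hG : AF G) : AF (IK R G) := by
  refine af_pi hG (fun s => ⟨fun V => LinearMap.applyₗ (bR k R s), fun g z => rfl⟩)
    (fun s => ⟨fun V => LinearMap.smulRightₗ ((bR k R).coord s),
      fun g z => CoInd.ext fun x => (G.map g).map_smul _ z⟩) (fun V z => CoInd.ext fun x => ?_)
    fun V s t z => ?_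
  · rw [CoInd.sum_apply]
    conv_rhs => rw [← (bR k R).sum_repr x, map_sum]
    exact Finset.sum_congr rfl fun s _ => (map_smul z _ _).symm
  · change (bR k R).repr (bR k R s) t • z = _
    by_cases h : s = t <;> simp [h]

variable (d : ∀ V, R ⊗[k] G.obj V →ₗ[R] R ⊗[k] H.obj V)
  (hd : ∀ {V V' : XV k} (g : XH V V'), d V' ∘ₗ Pmap (G.map g) = Pmap (H.map g) ∘ₗ d V)

/-- the chain map induced by `g` -/
def cm {V V' : XV k} (g : XH V V') : CM (k := k) (R := R) ⟨_, _, d V⟩ ⟨_, _, d V'⟩ :=
  ⟨Pmap (G.map g), Pmap (H.map g), hd g⟩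

theorem af_H (hG : AF G) (hH : AF H) (hc) : AF ⟨fun V => ⟨(EO.mk _ _ (d V)).H0⟩,
    fun g => (cm d hd g).H0.restrictScalars k, hc⟩ := by
  refine af_coker (af_P (R := R) hG) (af_P (R := R) hH)
    ⟨fun V => (d V).restrictScalars k, fun g => LinearMap.congr_fun (hd g).symm⟩
    ⟨fun V => (LinearMap.range (d V)).mkQ.restrictScalars k, fun g z => ?_⟩ (fun V => ?_) fun V => ?_
  · exact CM.H0_mk (cm d hd g) z
  · exact (LinearMap.range (d V)).mkQ_surjective
  · exact LinearMap.exact_map_mkQ_range (d V)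

theorem af_T (hG : AF G) (hH : AF H) (hc) : AF ⟨fun V => ⟨(EO.mk _ _ (d V)).Tau⟩,
    fun g => (cm d hd g).Tau.restrictScalars k, hc⟩ :=
  af_ker (af_I hG) (af_I hH) ⟨fun V => (Submodule.subtype _).restrictScalars k,
      fun g z => (LinearMap.congr_fun (nu_Pmap (G.map g)) z.1).symm⟩
    ⟨fun V => (nu (d V)).restrictScalars k, fun g z => by
      have := congrArg nu (hd g)
      rw [nu_comp, nu_comp, nu_Pmap, nu_Pmap] at this
      exact (LinearMap.congr_fun this z).symm⟩
    (fun _ => Subtype.val_injective) fun V => LinearMap.exact_subtype_ker_map (nu (d V))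

end Af

end

open Af in
theorem t_AF (k : Type u) [Field k] [IsAlgClosed k] (R : Type u) [Ring R] [Algebra k R]
    [FiniteDimensional k R] :
    S_AF k R := by
  refine ⟨fun d => to_af ?_, fun d => to_af ?_, fun e G hG => to_af ?_, fun Q hQ => to_af ?_⟩
  · exact af_H (G := Pw _) (H := Pw _) (Xd d) (fun g => (Xmap d g).comm) (af_pow _) (af_pow _) _
  · exact af_T (G := Pw _) (H := Pw _) (Xd d) (fun g => (Xmap d g).comm) (af_pow _) (af_pow _) _
  · cases e
    · exact af_H (G := fg G) (H := IK R (fg G)) (fun V => copD k R (G.obj V))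
        (fun g => (copresMap (G.map g)).comm) (of_af hG) (af_I (of_af hG)) _
    · exact af_T (G := PK R (fg G)) (H := fg G) (fun V => presD k R (G.obj V))
        (fun g => (presMap (G.map g)).comm) (af_P (of_af hG)) (of_af hG) _
  · exact af_ten (G := ⟨fun V => ⟨V⟩, fun g => g.1, fun _ _ _ => rfl⟩)
      (af_pw Unit (fun V z => by simp [KF.pol]) ⟨fun _ => LinearMap.proj (), fun _ _ => rfl⟩
        ⟨fun _ => LinearMap.pi fun _ => LinearMap.id, fun _ _ => rfl⟩ (fun _ _ => rfl)
        fun _ _ => rfl) Q _ _ fun _ _ _ => rfl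

end Pool.Agent.P.MP_cf639b_al
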