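import Pool.Agent.P.MP_cf639b_al.Iface

set_option linter.dupNamespace false

namespace Pool.Agent.P.MP_cf639b_al

universe u v
open TensorProduct Polynomial Function

theorem c1_fac {F : Type u} [Field F] (φ g : F[X]) (hg : g ≠ 0) :
    ∃ (q : F[X]) (n : ℕ), q.Monic ∧ IsCoprime q φ ∧ g ∣ q * φ ^ n := by
  classical
  induction g using (wellFounded_dvdNotUnit (α := F[X])).induction with
  | _ g ih =>
    by_cases h : IsUnit (EuclideanDomain.gcd g φ)
    · refine ⟨g * C g.leadingCoeff⁻¹, 0, monic_mul_leadingCoeff_inv hg, ?_, by simp⟩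
      exact (isCoprime_mul_unit_right_left (isUnit_C.2 (IsUnit.mk0 _
        (inv_ne_zero (leadingCoeff_ne_zero.2 hg)))) _ _).2 (EuclideanDomain.gcd_isUnit_iff.1 h)
    · obtain ⟨g', e⟩ := EuclideanDomain.gcd_dvd_left g φ
      have hg' : g' ≠ 0 := fun h0 => hg (by rw [e, h0, mul_zero])
      obtain ⟨q, n, h1, h2, h3⟩ := ih g' ⟨hg', _, h, e.trans (mul_comm _ _)⟩ hg'
      refine ⟨q, n + 1, h1, h2, ?_⟩
      rw [e, pow_succ, ← mul_assoc, mul_comm]
      exact mul_dvd_mul h3 (EuclideanDomain.gcd_dvd_right g φ)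

theorem c1_al {k F : Type u} [Field k] [Field F] [Algebra k F] (f : k[X]) (q : F[X])
    (h : IsCoprime q (f.map (algebraMap k F))) : Allowed true f (Jq k q).V := by
  obtain ⟨a, b, e⟩ := h
  have h1 : IsUnit (Qmk q (f.map (algebraMap k F))) := by
    have := congrArg (Qmk q) e
    rw [map_add, map_mul, map_mul, map_one, Ideal.Quotient.eq_zero_iff_mem.2
      (Ideal.mem_span_singleton_self q), mul_zero, zero_add] at this
    exact IsUnit.of_mul_eq_one_right _ this
  have h2 : aeval (Qmk q X) f = Qmk q (f.map (algebraMap k F)) := by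
    rw [← aeval_X_left_eq_map]
    exact aeval_algHom_apply (Ideal.Quotient.mkₐ k (Ideal.span {q})) X f
  change Bijective (aeval (Algebra.lmul k (QT q) (Qmk q X)) f)
  rw [aeval_algHom_apply, h2]
  exact (Module.End.isUnit_iff _).1 (h1.map _)

theorem c1_kill {k : Type u} [Field k] {R : Type u} [Ring R] [Algebra k R] {F : Type u} [Field F]
    [Algebra k F] (d : Fam R) (A : FO k R F) {q p g h : F[X]} (e : q * p = g * h) (u : EE d A.X)
    (hu : polE d A g u = 0) : polE d A q (polE d A p u) = 0 := by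
  rw [polE, polE, ← Module.End.mul_apply, ← map_mul, e, mul_comm, map_mul, Module.End.mul_apply]
  exact (congrArg _ hu).trans (map_zero _)

theorem c1_end {k : Type u} [Field k] {R : Type u} [Ring R] [Algebra k R] [FiniteDimensional k R]
    (B : S_BOCK k R) {F : Type u} [Field F] [Algebra k F] (d : Fam R) (A : FO k R F) {f : k[X]}
    {y c : F} {n : ℕ} (hy : aeval y f ≠ 0) {u w : EE d A.X}
    (h6 : polE d A (f.map (algebraMap k F) ^ n) u = Emap d (A.act c) w) (h7 : piE d A y w = 0) :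
    aeval (EX d A.X) (f ^ n) (u - Emap d (A.act (c / aeval y f ^ n)) w) = 0 := by
  have h8 : EXF d A w = y • w := sub_eq_zero.1 h7
  rw [← B.polE_k, Polynomial.map_pow, map_sub, h6, ← EE.smul_def, ← EE.smul_def, map_smul, polE,
    Module.End.aeval_apply_of_mem_apply_eq_smul h8, smul_smul, eval_pow, eval_map_algebraMap,
    div_mul_cancel₀ _ (pow_ne_zero _ hy), sub_self]

theorem c1_main {k : Type u} [Field k] {R : Type u} [Ring R] [Algebra k R]
    [FiniteDimensional k R] (L : Lib k) (H : PG k R) {F : Type u} [Field F] [Algebra k F] (y : F)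
    (hy : aeval y H.D.f ≠ 0) : eK (k := k) H.d y ≠ 0 ∧
    ∀ (u : EE H.d (MF H.d (one k y)).X) (g : F[X]), g ≠ 0 → polE H.d (MF H.d (one k y)) g u = 0 →
      ∃ (c : F) (n : ℕ), aeval (EX H.d (MF H.d (one k y)).X) (H.D.f ^ n)
        (u - Emap H.d ((MF H.d (one k y)).act c) (eK H.d y)) = 0 := by
  have B := L.bock R
  refine ⟨fun h0 => ?_, fun u g hg hu => ?_⟩
  · obtain ⟨-, g', -, -, -, -, -, e⟩ := (L.id R).one_J F y
    refine (L.pg R).ordJ H F y 0 hy ?_
    have := B.map H.d _ _ _ LinearMap.id g' (1 : F)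
    rw [B.eq, e] at this
    refine this.symm.trans ?_
    change Emap H.d _ (eK H.d y) = 0
    rw [h0, map_zero]
  · obtain ⟨q, n, hq, hc, h, e⟩ := c1_fac (H.D.f.map (algebraMap k F)) g hg
    have h1 := c1_kill H.d _ e u hu
    obtain ⟨a, ha, h2⟩ := (L.rep R).rep F H.d _ q hq _ h1
    have a1 := c1_al H.D.f q hc
    have a2 := (L.pg R).alOne F H.D.f y hy
    obtain ⟨g0, -, hj⟩ := (L.pg R).decF H F (Jq k q) (one k y) a1 a2 a ha
    have h3 := LinearMap.congr_fun
      (H.D.bock (H.hK.symm ▸ a1) (H.hK.symm ▸ a2) H.hK _ hj) (1 : QT q)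
    rw [B.eq, map_sub, LinearMap.sub_apply, ← B.eq, ← B.eq, LinearMap.zero_apply,
      sub_eq_zero] at h3
    have h4 := B.map H.d _ _ _ LinearMap.id g0 (1 : QT q)
    have h5 := B.map H.d _ _ _ LinearMap.id ((one k y).sc (g0.1 (1 : QT q))) (1 : F)
    rw [B.eq] at h5
    have h6 : polE H.d (MF H.d (one k y)) (H.D.f.map (algebraMap k F) ^ n) u =
        Emap H.d ((MF H.d (one k y)).act (g0.1 (1 : QT q))) (eK H.d y) :=
      h2.trans (h3.trans (h4.trans ((congrArg _ (mul_one _).symm).trans h5.symm)))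
    exact ⟨_, n, c1_end B H.d _ hy h6 (B.ek_zero F H.d y)⟩

theorem t_C1 (k : Type u) [Field k] [IsAlgClosed k] (R : Type u) [Ring R] [Algebra k R]
    [FiniteDimensional k R]
    (L : Lib k) :
    S_C1 k R := by
  intro H
  exact c1_main L H RatFunc.X fun h => L.aut.gen.1 ⟨_, H.D.hf, h⟩

end Pool.Agent.P.MP_cf639b_al
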