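import Pool.Agent.P.MP_cf639b_al.Iface

set_option linter.dupNamespace false

namespace Pool.Agent.P.MP_cf639b_al

universe u v
open TensorProduct Polynomial Function

/-- every element of `B` is fixed as soon as finitely many elements of `A` are -/
def cc_Fy {E A B : Type u} (f : E → A → A) (g : E → B → B) : Prop :=
  ∀ w : B, ∃ s : Finset A, ∀ e, (∀ t ∈ s, f e t = t) → g e w = w

section
variable {E E' A B C : Type u} {f : E → A → A} {g : E → B → B} {h : E → C → C}

theorem cc_Fy.fin (H : cc_Fy f g) (S : Finset B) :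
    ∃ s : Finset A, ∀ e, (∀ t ∈ s, f e t = t) → ∀ w ∈ S, g e w = w := by
  classical
  choose s hs using H
  exact ⟨S.biUnion s, fun e he w hw => hs w e fun t ht => he t (Finset.mem_biUnion.2 ⟨w, hw, ht⟩)⟩

theorem cc_Fy.trans (H : cc_Fy f g) (H' : cc_Fy g h) : cc_Fy f h := fun w => by
  obtain ⟨S, hS⟩ := H' w
  obtain ⟨s, hs⟩ := H.fin S
  exact ⟨s, fun e he => hS e (hs e he)⟩

theorem cc_Fy.re (H : cc_Fy f g) (φ : E' → E) : cc_Fy (fun e => f (φ e)) (fun e => g (φ e)) :=
  fun w => (H w).imp fun _ hs e he => hs (φ e) he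

theorem cc_quot (π : A → B) (hπ : Surjective π) (e : ∀ x a, g x (π a) = π (f x a)) :
    cc_Fy f g := fun w => by
  obtain ⟨a, rfl⟩ := hπ w
  exact ⟨{a}, fun x hx => by rw [e, hx a (Finset.mem_singleton_self a)]⟩

theorem cc_sub (ι : B → A) (hι : Injective ι) (e : ∀ x b, ι (g x b) = f x (ι b)) :
    cc_Fy f g := fun w =>
  ⟨{ι w}, fun x hx => hι (by rw [e, hx _ (Finset.mem_singleton_self _)])⟩

theorem cc_pi {n : ℕ} : cc_Fy f fun e (z : Fin n → A) b => f e (z b) := fun z => by
  classical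
  exact ⟨Finset.univ.image z, fun e he => funext fun b =>
    he _ (Finset.mem_image_of_mem _ (Finset.mem_univ b))⟩

theorem cc_prod (H : cc_Fy f g) (H' : cc_Fy f h) :
    cc_Fy f fun e (z : B × C) => (g e z.1, h e z.2) := fun z => by
  classical
  obtain ⟨s, hs⟩ := H z.1
  obtain ⟨s', hs'⟩ := H' z.2
  exact ⟨s ∪ s', fun e he => Prod.ext (hs e fun t ht => he t (Finset.mem_union_left _ ht))
    (hs' e fun t ht => he t (Finset.mem_union_right _ ht))⟩
end

variable {k : Type u} [Field k] {R : Type u} [Ring R] [Algebra k R]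

theorem cc_ten (Q V : Type u) [AddCommGroup Q] [Module k Q] [AddCommGroup V] [Module k V]
    {E : Type u} (f : E → V → V) (g : E → Q ⊗[k] V →+ Q ⊗[k] V)
    (hg : ∀ e q v, g e (q ⊗ₜ v) = q ⊗ₜ f e v) : cc_Fy f fun e z => g e z := fun z => by
  classical
  induction z using TensorProduct.induction_on with
  | zero => exact ⟨∅, fun e _ => map_zero _⟩
  | tmul q v => exact ⟨{v}, fun e he => by
      beta_reduce
      rw [hg, he v (Finset.mem_singleton_self v)]⟩
  | add x y hx hy =>
    obtain ⟨s, hs⟩ := hx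
    obtain ⟨s', hs'⟩ := hy
    refine ⟨s ∪ s', fun e he => ?_⟩
    have h1 := hs e fun t ht => he t (Finset.mem_union_left _ ht)
    have h2 := hs' e fun t ht => he t (Finset.mem_union_right _ ht)
    beta_reduce at h1 h2 ⊢
    rw [map_add, h1, h2]

theorem cc_P (V : Type u) [AddCommGroup V] [Module k V] :
    cc_Fy (fun (e : V →ₗ[k] V) v => e v) fun e z => Pmap (R := R) e z :=
  cc_ten R V _ (fun e : V →ₗ[k] V => (Pmap (R := R) e).toAddMonoidHom) fun e q v =>
    Pmap_tmul e q v

theorem cc_I [FiniteDimensional k R] (V : Type u) [AddCommGroup V] [Module k V] :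
    cc_Fy (fun (e : V →ₗ[k] V) v => e v) fun e z => Imap (R := R) e z := fun z => by
  classical
  refine ⟨Finset.univ.image fun i => z (bR k R i), fun e he => ?_⟩
  exact (bR k R).ext (f₁ := CoInd.lin (Imap (R := R) e z)) (f₂ := CoInd.lin z) fun i =>
    he _ (Finset.mem_image_of_mem _ (Finset.mem_univ i))

theorem cc_fs (T : Md k R) :
    cc_Fy (fun (e : T →ₗ[R] T) v => e v) fun e (z : ℕ →₀ T) => Finsupp.mapRange.linearMap e z :=
  fun z => by
  classical
  refine ⟨z.support.image z, fun e he => Finsupp.ext fun l => ?_⟩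
  change e (z l) = z l
  by_cases h : z l = 0
  · rw [h, map_zero]
  · exact he _ (Finset.mem_image_of_mem _ (Finsupp.mem_support_iff.2 h))

/-- transfer along an additive functor -/
theorem cc_use {Q T : Md k R} (h : CC Q T) {W : Type u} {g : (T →ₗ[R] T) → W → W}
    (H : cc_Fy (fun (e : T →ₗ[R] T) v => e v) g) (S : Finset W) :
    ∃ (n : ℕ) (a : Fin n → T →ₗ[R] Q) (b : Fin n → Q →ₗ[R] T),
      ∀ w ∈ S, g (∑ i, b i ∘ₗ a i) w = w := by
  obtain ⟨s, hs⟩ := H.fin S
  obtain ⟨n, a, b, e⟩ := h s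
  exact ⟨n, a, b, hs _ fun t ht => by simpa using e t ht⟩

theorem cc_afun (Φ : AFun k R) {Q T : Md k R} (h : CC Q T)
    (H : cc_Fy (fun (e : T →ₗ[R] T) v => e v) fun e w => Φ.map e w) :
    CC (Φ.obj Q) (Φ.obj T) := fun S => by
  obtain ⟨n, a, b, e⟩ := cc_use h H S
  refine ⟨n, fun i => Φ.map (a i), fun i => Φ.map (b i), fun w hw => ?_⟩
  have := e w hw
  simpa only [map_sum, Φ.map_comp, LinearMap.sum_apply, LinearMap.comp_apply] using this

/-- the analogue of `CC` for `k[x]`-modules -/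
def cc_V (V₀ V : XV k) : Prop :=
  ∀ s : Finset V, ∃ (n : ℕ) (a : Fin n → XH V V₀) (b : Fin n → XH V₀ V),
    ∀ t ∈ s, ∑ i, (b i).1 ((a i).1 t) = t

theorem cc_nf (G : NF k R) {V₀ V : XV k} (h : cc_V V₀ V)
    (H : cc_Fy (fun (e : XH V V) v => e.1 v) fun e w => G.map e w) :
    CC (G.obj V₀) (G.obj V) := fun S => by
  obtain ⟨s, hs⟩ := H.fin S
  obtain ⟨n, a, b, e⟩ := h s
  refine ⟨n, fun i => G.map (a i), fun i => G.map (b i), fun w hw => ?_⟩
  have := hs (∑ i, XH.comp (b i) (a i)) (fun t ht => by simpa using e t ht) w hw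
  simpa only [map_sum, G.map_comp, LinearMap.sum_apply, LinearMap.comp_apply] using this

theorem cc_V_of {V₀ V : XV k} {ι : Type u} (a : ι → XH V V₀) (b : ι → XH V₀ V)
    (h : ∀ v, ∃ S : Finset ι, ∀ S' : Finset ι, S ⊆ S' → ∑ i ∈ S', (b i).1 ((a i).1 v) = v) :
    cc_V V₀ V := fun s => by
  classical
  choose S hS using h
  let e := (s.biUnion S).equivFin.symm
  refine ⟨_, fun i => a (e i), fun i => b (e i), fun t ht => ?_⟩
  rw [e.sum_comp fun i => (b i).1 ((a i).1 t),
    Finset.sum_coe_sort _ fun i => (b i).1 ((a i).1 t)]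
  exact hS t _ (Finset.subset_biUnion_of_mem S ht)

theorem cc_basis {K W ι : Type u} [Field K] [AddCommGroup W] [Module K W] (B : Module.Basis ι K W)
    (v : W) (S : Finset ι) (h : (B.repr v).support ⊆ S) : ∑ i ∈ S, B.repr v i • B i = v := by
  conv_rhs => rw [← B.linearCombination_repr v, Finsupp.linearCombination_apply]
  exact (Finsupp.sum_of_support_subset _ h (fun i c => c • B i) fun i _ => zero_smul _ _).symm

theorem cc_field {K : Type u} [Field K] [Algebra k K] (V : XV k) [Module K V]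
    (hk : ∀ (c : k) (v : V), algebraMap k K c • v = c • v) (ξ : K) (hx : ∀ v, V.x v = ξ • v) :
    cc_V (one k ξ).V V := by
  have := IsScalarTower.of_algebraMap_smul hk
  let B := Module.Basis.ofVectorSpace K V
  refine cc_V_of (fun i => ⟨(B.coord i).restrictScalars k, LinearMap.ext fun v => ?_⟩)
    (fun i => ⟨(LinearMap.toSpanSingleton K V (B i)).restrictScalars k,
      LinearMap.ext fun c => ?_⟩) fun v => ⟨(B.repr v).support, cc_basis B v⟩
  · change B.coord i (V.x v) = ξ * B.coord i v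
    rw [hx, map_smul, smul_eq_mul]
  · change (ξ * c) • B i = V.x (c • B i)
    rw [hx, mul_smul]

theorem cc_zero (V : XV k) (h : V.x = 0) : cc_V (one k (0 : k)).V V :=
  cc_field V (fun _ _ => rfl) 0 fun v => by rw [h, zero_smul]; rfl

theorem cc_ksp (V : XV k) (h : KSp V) : cc_V (one k (RatFunc.X : RatFunc k)).V V := by
  let e := Module.AEval'.of V.x
  have hl : IsLocalizedModule (nonZeroDivisors k[X])
      (LinearMap.id : Module.AEval' V.x →ₗ[k[X]] Module.AEval' V.x) :=
    ⟨fun p => (Module.End.isUnit_iff _).2 (h p.1 (nonZeroDivisors.ne_zero p.2)),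
      fun y => ⟨(y, 1), one_smul _ _⟩, fun e => ⟨1, congrArg _ e⟩⟩
  let _ : Module (RatFunc k) (Module.AEval' V.x) :=
    IsLocalizedModule.module (nonZeroDivisors k[X]) LinearMap.id
  have ht : IsScalarTower k[X] (RatFunc k) (Module.AEval' V.x) :=
    IsLocalizedModule.isScalarTower_module (nonZeroDivisors k[X]) LinearMap.id
  let _ : Module (RatFunc k) V := e.toAddEquiv.module (RatFunc k)
  have key : ∀ (p : k[X]) (v : V), algebraMap k[X] (RatFunc k) p • v = aeval V.x p v :=
    fun p v => by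
      change e.symm (algebraMap k[X] (RatFunc k) p • e v) = _
      rw [algebraMap_smul]
      rfl
  refine cc_field V (fun c v => ?_) _ fun v => ?_
  · rw [IsScalarTower.algebraMap_apply k k[X] (RatFunc k), key, AlgHom.commutes]
    rfl
  · rw [← RatFunc.algebraMap_X, key, aeval_X]

section jk
variable {F : Type u} [Field F] [Algebra k F]

/-- apply a functional to the coefficients -/
noncomputable def cc_cm (l : F →ₗ[k] k) : F[X] →ₗ[k] k[X] := lsum fun n => monomial n ∘ₗ l

theorem cc_cm_mon (l : F →ₗ[k] k) (n : ℕ) (c : F) : cc_cm l (monomial n c) = monomial n (l c) :=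
  sum_monomial_index c _ (by simp)

theorem cc_cm_mul (l : F →ₗ[k] k) (q : k[X]) (r : F[X]) :
    cc_cm l (q.map (algebraMap k F) * r) = q * cc_cm l r := by
  induction q using Polynomial.induction_on' with
  | add p q hp hq => rw [Polynomial.map_add, add_mul, map_add, hp, hq, add_mul]
  | monomial m a =>
    induction r using Polynomial.induction_on' with
    | add p q hp hq => rw [mul_add, map_add, hp, hq, map_add, mul_add]
    | monomial n c =>
      rw [map_monomial, monomial_mul_monomial, cc_cm_mon, cc_cm_mon, monomial_mul_monomial,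
        ← Algebra.smul_def, map_smul, smul_eq_mul]

theorem cc_jk {K : Type u} [Field K] [Algebra k K] [Algebra K F] [IsScalarTower k K F]
    (p : K) (n : ℕ) : cc_V (J k p n).V (J k (algebraMap K F p) n).V := by
  have hq : ((X - C p) ^ n : K[X]).map (algebraMap K F) = (X - C (algebraMap K F p)) ^ n := by
    simp
  let B := Module.Basis.ofVectorSpace K F
  have ea : ∀ l : F →ₗ[K] K, ∃ a : JT (algebraMap K F p) n →ₗ[K] JT p n,
      ∀ r, a (Jmk _ n r) = Jmk p n (cc_cm l r) := fun l => by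
    obtain ⟨σ, hσ⟩ := (Ideal.Quotient.mkₐ K
      (Ideal.span {(X - C (algebraMap K F p)) ^ n})).toLinearMap.exists_rightInverse_of_surjective
      (LinearMap.range_eq_top.2 Ideal.Quotient.mk_surjective)
    refine ⟨(Ideal.Quotient.mkₐ K _).toLinearMap ∘ₗ cc_cm l ∘ₗ σ, fun r => ?_⟩
    have h1 : Jmk _ n (σ (Jmk _ n r)) = Jmk _ n r := LinearMap.congr_fun hσ _
    obtain ⟨u, hu⟩ := Ideal.mem_span_singleton.1 (Ideal.Quotient.eq.1 h1)
    refine Ideal.Quotient.eq.2 (Ideal.mem_span_singleton.2 ⟨cc_cm l u, ?_⟩)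
    rw [← cc_cm_mul, hq, ← hu, map_sub]
    rfl
  choose a ha using ea
  obtain ⟨φ, hφ⟩ : ∃ φ : JT p n →ₐ[K] JT (algebraMap K F p) n,
      ∀ r, φ (Jmk p n r) = Jmk _ n (r.map (algebraMap K F)) :=
    ⟨Ideal.quotientMapₐ _ (mapAlgHom (Algebra.ofId K F)) (by
      rw [Ideal.span_le, Set.singleton_subset_iff]
      exact Ideal.mem_comap.2 (Ideal.mem_span_singleton.2 (dvd_of_eq hq.symm))), fun _ => rfl⟩
  have eb : ∀ c : F, ∃ b : JT p n →ₗ[K] JT (algebraMap K F p) n,
      ∀ r, b (Jmk p n r) = Jmk _ n (C c * r.map (algebraMap K F)) := fun c =>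
    ⟨LinearMap.mulLeft K (Jmk _ n (C c)) ∘ₗ φ.toLinearMap, fun r => by
      rw [map_mul, ← hφ]
      rfl⟩
  choose b hb using eb
  refine cc_V_of (V₀ := (J k p n).V) (V := (J k (algebraMap K F p) n).V)
    (fun i => ⟨(a (B.coord i)).restrictScalars k, mem_XH.2 (LinearMap.ext fun z => ?_)⟩)
    (fun i => ⟨(b (B i)).restrictScalars k, mem_XH.2 (LinearMap.ext fun z => ?_)⟩) fun z => ?_
  · obtain ⟨r, rfl⟩ := Ideal.Quotient.mk_surjective z
    change a _ (Jmk _ n X * Jmk _ n r) = Jmk p n X * a _ (Jmk _ n r)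
    rw [← map_mul, ha, ha, ← map_mul, ← cc_cm_mul, map_X]
  · obtain ⟨r, rfl⟩ := Ideal.Quotient.mk_surjective z
    change b _ (Jmk p n X * Jmk p n r) = Jmk _ n X * b _ (Jmk p n r)
    rw [← map_mul, hb, hb, ← map_mul, Polynomial.map_mul, map_X, mul_left_comm]
  · classical
    obtain ⟨r, rfl⟩ := Ideal.Quotient.mk_surjective z
    change ∃ S : Finset _, ∀ S', S ⊆ S' → ∑ i ∈ S', b (B i) (a (B.coord i) (Jmk _ n r)) = Jmk _ n r
    induction r using Polynomial.induction_on' with
    | add x y hx hy =>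
      obtain ⟨S, hS⟩ := hx
      obtain ⟨S', hS'⟩ := hy
      refine ⟨S ∪ S', fun U hU => ?_⟩
      simp only [map_add, Finset.sum_add_distrib]
      rw [hS U (Finset.subset_union_left.trans hU), hS' U (Finset.subset_union_right.trans hU)]
    | monomial m c =>
      refine ⟨(B.repr c).support, fun U hU => ?_⟩
      conv_rhs => rw [← cc_basis B c U hU, map_sum, map_sum]
      refine Finset.sum_congr rfl fun i _ => ?_
      rw [ha, hb, cc_cm_mon, map_monomial, C_mul_monomial, Algebra.smul_def, mul_comm]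
      rfl
end jk

end Pool.Agent.P.MP_cf639b_al
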