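import Pool.Agent.P.MP_cf639b_al.IfE

set_option linter.dupNamespace false

namespace Pool.Agent.P.MP_cf639b_al

universe u
open TensorProduct Polynomial Function

noncomputable section

variable {k : Type u} [Field k] {R : Type u} [Ring R] [Algebra k R] [FiniteDimensional k R]
  {F : Type u} [Field F] [Algebra k F]

omit [FiniteDimensional k R] in
theorem eg_ne (H : PG k R) {y : F} (hy : Transcendental k y) : aeval y H.D.f ≠ 0 :=
  fun h => hy ⟨_, H.D.hf, h⟩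

theorem eg_fd (L : Lib k) (H : PG k R) (y : F) (n : ℕ) : (NJ H y n).fd :=
  (L.fd R).m F H.d _ ((L.fd R).jq F _ (Jmonic y (n + 1))).1

/-- the parameter of an isomorphic Jordan object is algebraic over the other parameter -/
theorem eg_par (L : Lib k) (hBig : Big k F) (H H' : PG k R) (ν y : F) (n e : ℕ)
    (hiso : IsoF (NJ H ν n) (NJ H' y e)) : ¬ TrO k {y} ν := by
  classical
  intro hν
  have := hBig.1
  obtain ⟨z, hz⟩ := hBig.2 {y, ν}
  have hz1 : TrO k {y} z := L.aut.mono F _ _ _ (by simp) hz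
  obtain ⟨σ, hσ, hσν⟩ := L.aut.aut F {y} ν z hν hz1
  have h1 := (L.tw R).j F (MN H.d) ν (n + 1) σ
  have h2 := (L.tw R).j F (MN H'.d) y (e + 1) σ
  rw [hσν] at h1
  rw [hσ y rfl] at h2
  have h3 := (L.tw R).iso F _ _ σ hiso
  have h4 : IsoF (NJ H z n) (NJ H ν n) :=
    (L.id R).iso_trans F _ _ _ ((L.id R).iso_symm F _ _ h1) ((L.id R).iso_trans F _ _ _ h3
      ((L.id R).iso_trans F _ _ _ h2 ((L.id R).iso_symm F _ _ hiso)))
  have h5 := (L.pg R).isoJ H F z ν n n (eg_ne H (L.aut.tr F _ _ hz1))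
    (eg_ne H (L.aut.tr F _ _ hν)) h4
  exact L.aut.ne F _ _ hz (by simp [h5])

/-- the length of a Jordan summand is bounded by the torsion coming from `B` -/
theorem eg_len (L : Lib k) (hTOR : S_ETOR k R) (H : PG k R) (y : F) (e : ℕ)
    (hy : aeval y H.D.f ≠ 0) (B Z A : FO k R F) (i : B.X →ₗ[R] Z.X) (p : Z.X →ₗ[R] A.X)
    (hp : p ∈ HomF Z A) (hex : Exact i p) (hsurj : Surjective p)
    (hA : Injective (piE H.d A y)) (hs : Smd (NJ H y e) Z) (n0 : ℕ)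
    (hn0 : ∀ w : EE H.d B.X, Trs (piE H.d Z y) (Emap H.d i w) →
      (piE H.d Z y ^ n0) (Emap H.d i w) = 0) : e + 1 ≤ n0 := by
  obtain ⟨s, hs, r, hr, hrs⟩ := hs
  have h0 : (piE H.d Z y ^ (e + 1)) (Emap H.d s (eJ H.d y (e + 1))) = 0 := by
    rw [← (L.bock R).emap_piE F H.d y _ _ s hs, (L.bock R).ej_zero, map_zero]
  have h1 : Emap H.d p (Emap H.d s (eJ H.d y (e + 1))) = 0 := by
    have h2 : Injective (piE H.d A y ^ (e + 1)) := by
      rw [Module.End.coe_pow]; exact hA.iterate _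
    apply h2
    rw [← (L.bock R).emap_piE F H.d y _ _ p hp, h0, map_zero, map_zero]
  obtain ⟨w, hw⟩ := (hTOR.ex H.d _ _ _ i p hex hsurj _).1 h1
  have h3 := hn0 w ⟨e + 1, by rw [hw]; exact h0⟩
  rw [hw] at h3
  have h4 := congrArg (Emap H.d r) h3
  rw [(L.bock R).emap_piE F H.d y _ _ r hr, map_zero, ← LinearMap.comp_apply (Emap H.d r),
    ← Emap_comp, hrs, Emap_id, LinearMap.id_apply] at h4
  by_contra hlt
  refine (L.pg R).ordJ H F y e hy ?_
  obtain ⟨a, rfl⟩ : ∃ a, e = a + n0 := ⟨e - n0, by omega⟩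
  rw [pow_add, Module.End.mul_apply, h4, map_zero]

omit [Field F] in
theorem eg_range (μ : ℕ → F) (m : ℕ) : Set.range (fun j : Fin m => μ j) = μ '' Set.Iio m := by
  ext z
  constructor
  · rintro ⟨j, rfl⟩; exact ⟨j, j.2, rfl⟩
  · rintro ⟨j, hj, rfl⟩; exact ⟨⟨j, hj⟩, rfl⟩

theorem t_EG (k : Type u) [Field k] [IsAlgClosed k] (R : Type u) [Ring R] [Algebra k R]
    [FiniteDimensional k R] (L : Lib k) :
    S_EUX k R → S_E1 k R → S_EK k R → S_ECNT k R → S_ETOR k R → S_EDIM k R → S_HOM k R →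
      S_SAME k R → S_LL k R → S_PDIM k R → S_E k R := by
  intro hUX hE1 hEK hCNT hTOR hDIM hHOM hSAME hLL hPD hND F _ _ hBig H1 H2 y1 y2 e1 e2 hy1 hy2
    hf π hπ
  by_contra hno
  have := hBig.1
  obtain ⟨μ, hμ0, hμ, hμy⟩ := hDIM.seq F hBig y1 y2 hy2
  have hμt : ∀ l, Transcendental k (μ l) := fun l => L.aut.tr F _ _ (hμ l)
  have hB := eg_fd L H1 y1 e1
  choose Z A i p hX using fun m : ℕ => hUX F (NJ H1 y1 e1) (Fin m) (fun j => NJ H2 (μ j) e2) hB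
    (fun j => eg_fd L H2 _ _) (fun j => hHOM hND F H2 (μ j) e2 (hμt j))
  have hK : ∀ m, ∀ j < m, Kset (NJ H1 y1 e1) (Z m) (NJ H2 (μ j) e2) (i m) := fun m j hj =>
    ((hX m).univ (Z m) (i m) (hX m).hi).1 ⟨LinearMap.id, HomF.id _, rfl⟩ ⟨j, hj⟩
  obtain ⟨n0, hn0⟩ := hTOR.chain F H2.d (NJ H1 y1 e1) hB Z i (fun m => (hX m).fdZ)
    (fun m => (hX m).hi) (fun m => by
      obtain ⟨g, _, hg⟩ := ((hX m).univ (Z (m + 1)) (i (m + 1)) (hX (m + 1)).hi).2
        fun j => hK (m + 1) j (by omega)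
      exact ⟨g, hg⟩)
  obtain ⟨r, ρ, hρ, hLL'⟩ := hLL H2 π hπ
  choose c hc using fun l => hPD.ext (ρ l)
  obtain ⟨C, hC1, hC2⟩ : ∃ C : ℕ, ∑ l, c l * (NJ H1 y1 e1).dim ≤ C ∧
      Module.finrank k R * H2.d.n0 * n0 ≤ C := ⟨max _ _, le_max_left _ _, le_max_right _ _⟩
  obtain ⟨m, hm⟩ : ∃ m, m = (NJ H1 y1 e1).dim * C + 2 := ⟨_, rfl⟩
  obtain ⟨H, ν, n, hν, hsmd⟩ := hE1 hND F hBig H1 H2 y1 e1 e2 (Fin m) (fun j => μ j)
    (by rw [eg_range]; exact hμy hy1 m) (Z m) (A m) (i m) (p m) (hX m)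
  have hνt := L.aut.tr F _ _ hν
  have hνj : ∀ j : Fin m, TrO k {μ j} ν := fun j =>
    L.aut.mono F _ _ _
      (Set.singleton_subset_iff.2 (Set.mem_range_self (f := fun j : Fin m => μ j) j)) hν
  have hjν : ∀ j : Fin m, TrO k {ν} (μ j) := fun j => by
    have := L.aut.exch F ∅ (μ j) ν (L.aut.empty F _ (hμt j)) (by simpa using hνj j)
    simpa using this
  obtain ⟨κ, _, cc, hdec⟩ := (hX m).dec
  have hT : (NJ H ν n).dim ≤ C := by
    by_cases ho : π.Open (NJ H ν n).X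
    · have hS : SameS H.G H2.G := by
        by_contra h
        exact hno ⟨H, h, ((L.sames R).j H.d F ν n hνt π).1 ho⟩
      obtain ⟨y, e, hy, hiso⟩ := hSAME hND H2 H (fun π => (hS π).symm) F ν n hνt
      have hne : ∀ j : Fin m, μ j ≠ y := fun j hj =>
        eg_par L hBig H H2 ν y n e hiso (hj ▸ hνj j)
      have hs2 : Smd (NJ H2 y e) (Z m) := by
        obtain ⟨s, hs, r', hr, hrs⟩ := hsmd
        obtain ⟨g, hg, hgb⟩ := hiso
        obtain ⟨g', hg', _, h2⟩ := (L.id R).iso_inv F _ _ g hg hgb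
        refine ⟨s ∘ₗ g', HomF.comp hs hg', g ∘ₗ r', HomF.comp hg hr, ?_⟩
        rw [LinearMap.comp_assoc, ← LinearMap.comp_assoc g', hrs, LinearMap.id_comp, h2]
      have hlen := eg_len L hTOR H2 y e (eg_ne H2 hy) _ (Z m) (A m) (i m) (p m) (hX m).hp
        (hX m).ex (hX m).surj (hTOR.dec F H2.d (A m) κ _ y hdec fun s =>
          (L.pg R).notorJ H2 F _ y (e2 + 1) (eg_ne H2 (hμt _)) (eg_ne H2 hy) (hne _)) hs2 n0
        (hn0 m y)
      obtain ⟨h1, h2⟩ := (L.fd R).jq F _ (Jmonic y (e + 1))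
      rw [((L.id R).iso_fd F _ _ hiso).2]
      refine (hDIM.m F H2.d _ h1).trans (le_trans ?_ hC2)
      rw [h2, natDegree_pow, natDegree_X_sub_C, mul_one]
      exact Nat.mul_le_mul_left _ hlen
    · refine (hLL' F _ (eg_fd L H ν n) ho).trans (le_trans (Finset.sum_le_sum fun l _ => ?_) hC1)
      refine (hPD.smd (ρ l) F _ _ (hX m).fdZ hsmd).trans (hc l F _ (Z m) (A m) (hX m).fdZ (i m)
        (hX m).hi (p m) (hX m).hp (hX m).inj (hX m).ex (hX m).surj ?_)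
      exact hDIM.closed F (A m) κ _ (ρ l) hdec fun s h =>
        hρ l (((L.sames R).j H2.d F _ e2 (hμt _) (ρ l)).1 h)
  obtain ⟨s, hs, r', hr, hrs⟩ := hsmd
  have hcnt := hCNT F hBig H1 H2 H y1 ν e1 e2 n μ hμ m (r' ∘ₗ i m) (HomF.comp hr (hX m).hi)
    (fun j hj φ hφ => hK m j hj (φ ∘ₗ r') (HomF.comp hφ hr))
    (fun z hz => hEK F H1 H2 H y1 ν e1 e2 n (Fin m) (fun j => μ j) hy1 hνt hjν (Z m) (A m) (i m)
      (p m) (hX m) ⟨⟨0, by omega⟩, by subst hμ0; exact hf⟩ s hs r' hr hrs z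
      (L.aut.mono F _ _ _ (by simp) hz) (fun h => L.aut.ne F _ _ hz
        (Set.mem_insert_of_mem _ (by rwa [eg_range] at h))))
  have h3 := hDIM.hom F _ _ hB (eg_fd L H ν n)
  have h4 := Nat.mul_le_mul_left (NJ H1 y1 e1).dim hT
  omega

end
end Pool.Agent.P.MP_cf639b_al
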