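import Pool.Agent.P.MP_cf639b_al.Iface

set_option linter.dupNamespace false

namespace Pool.Agent.P.MP_cf639b_al

universe u v
open TensorProduct Polynomial Function

section lin
variable {F : Type u} [Field F] {U W : Type u} [AddCommGroup U] [Module F U] [AddCommGroup W]
  [Module F W]

theorem ext_nondeg [Module.Finite F U] (γ : W →ₗ[F] U)
    (h : ∀ a : U →ₗ[F] W, LinearMap.trace F U (γ ∘ₗ a) = 0) : γ = 0 := by
  ext w
  by_contra hw
  obtain ⟨f, hf⟩ := Module.Projective.exists_dual_ne_zero F hw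
  have := h (f.smulRight w)
  rw [show γ ∘ₗ f.smulRight w = f.smulRight (γ w) by ext; simp, LinearMap.trace_smulRight] at this
  exact hf this

theorem ext_repr [Module.Finite F U] (l : (U →ₗ[F] W) →ₗ[F] F) :
    ∃ γ : W →ₗ[F] U, ∀ a, l a = LinearMap.trace F U (γ ∘ₗ a) := by
  let b := Module.finBasis F U
  refine ⟨∑ j, (l ∘ₗ LinearMap.smulRightₗ (b.coord j)).smulRight (b j), fun a => ?_⟩
  rw [show (∑ j, (l ∘ₗ LinearMap.smulRightₗ (b.coord j)).smulRight (b j)) ∘ₗ a =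
    ∑ j, (l ∘ₗ LinearMap.smulRightₗ (b.coord j)).smulRight (b j) ∘ₗ a by ext; simp, map_sum]
  have e : a = ∑ j, (b.coord j).smulRight (a (b j)) := by
    ext x
    conv_lhs => rw [← b.sum_repr x, map_sum]
    simp
  conv_lhs => rw [e, map_sum]
  refine Finset.sum_congr rfl fun j _ => ?_
  rw [show (l ∘ₗ LinearMap.smulRightₗ (b.coord j)).smulRight (b j) ∘ₗ a =
    ((l ∘ₗ LinearMap.smulRightₗ (b.coord j)) ∘ₗ a).smulRight (b j) by ext; simp,
    LinearMap.trace_smulRight]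
  rfl

variable {V1 V0 Q : Type u} [AddCommGroup V1] [Module F V1] [AddCommGroup V0] [Module F V0]
  [AddCommGroup Q] [Module F Q] {ι : Type} [Fintype ι]

/-- `σ ↦ ∑ b_i σ g_i` -/
noncomputable def ext_D (g : ι → V1 →ₗ[F] V0) (b : ι → Q →ₗ[F] Q) :
    (V0 →ₗ[F] Q) →ₗ[F] (V1 →ₗ[F] Q) where
  toFun σ := ∑ i, b i ∘ₗ σ ∘ₗ g i
  map_add' σ σ' := by ext; simp [Finset.sum_add_distrib]
  map_smul' c σ := by ext; simp [Finset.smul_sum]

/-- `β ↦ ∑ g_i β b_i` -/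
noncomputable def ext_D' (g : ι → V1 →ₗ[F] V0) (b : ι → Q →ₗ[F] Q) :
    (Q →ₗ[F] V1) →ₗ[F] (Q →ₗ[F] V0) where
  toFun β := ∑ i, g i ∘ₗ β ∘ₗ b i
  map_add' σ σ' := by ext; simp [Finset.sum_add_distrib]
  map_smul' c σ := by ext; simp [Finset.smul_sum]

theorem ext_D_apply (g : ι → V1 →ₗ[F] V0) (b : ι → Q →ₗ[F] Q) (σ : V0 →ₗ[F] Q) (v : V1) :
    ext_D g b σ v = ∑ i, b i (σ (g i v)) := by simp [ext_D]

theorem ext_D'_apply (g : ι → V1 →ₗ[F] V0) (b : ι → Q →ₗ[F] Q) (β : Q →ₗ[F] V1) (q : Q) :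
    ext_D' g b β q = ∑ i, g i (β (b i q)) := by simp [ext_D']

theorem ext_tr1 [Module.Finite F V1] [Module.Finite F V0] (g : ι → V1 →ₗ[F] V0)
    (b : ι → Q →ₗ[F] Q) (σ : V0 →ₗ[F] Q) (β : Q →ₗ[F] V1) :
    LinearMap.trace F V1 (β ∘ₗ ext_D g b σ) = LinearMap.trace F V0 (ext_D' g b β ∘ₗ σ) := by
  have e1 : β ∘ₗ ext_D g b σ = ∑ i, (β ∘ₗ b i ∘ₗ σ) ∘ₗ g i := by
    ext v; simp [ext_D_apply]
  have e2 : ext_D' g b β ∘ₗ σ = ∑ i, g i ∘ₗ (β ∘ₗ b i ∘ₗ σ) := by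
    ext v; simp [ext_D'_apply]
  rw [e1, e2, map_sum, map_sum]
  exact Finset.sum_congr rfl fun i _ => LinearMap.trace_comp_comm' _ _

theorem ext_tr2 [Module.Finite F Q] (g : ι → V1 →ₗ[F] V0)
    (b : ι → Q →ₗ[F] Q) (σ : V0 →ₗ[F] Q) (β : Q →ₗ[F] V1) :
    LinearMap.trace F Q (ext_D g b σ ∘ₗ β) = LinearMap.trace F Q (σ ∘ₗ ext_D' g b β) := by
  have e1 : ext_D g b σ ∘ₗ β = ∑ i, b i ∘ₗ (σ ∘ₗ g i ∘ₗ β) := by
    ext v; simp [ext_D_apply]
  have e2 : σ ∘ₗ ext_D' g b β = ∑ i, (σ ∘ₗ g i ∘ₗ β) ∘ₗ b i := by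
    ext v; simp [ext_D'_apply]
  rw [e1, e2, map_sum, map_sum]
  exact Finset.sum_congr rfl fun i _ => LinearMap.trace_comp_comm' _ _

theorem ext_A1 [Module.Finite F V1] [Module.Finite F V0] (g : ι → V1 →ₗ[F] V0)
    (b : ι → Q →ₗ[F] Q) (ξ : V1 →ₗ[F] Q) :
    (∃ σ, ext_D g b σ = ξ) ↔
      ∀ β, ext_D' g b β = 0 → LinearMap.trace F V1 (β ∘ₗ ξ) = 0 := by
  constructor
  · rintro ⟨σ, rfl⟩ β hβ
    rw [ext_tr1, hβ, LinearMap.zero_comp, map_zero]
  · intro h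
    by_contra hne
    have hn : ξ ∉ LinearMap.range (ext_D g b) := hne
    obtain ⟨l, hl, hl0⟩ := Submodule.exists_dual_map_eq_bot_of_notMem hn inferInstance
    obtain ⟨β, hβ⟩ := ext_repr l
    refine hl ((hβ ξ).trans (h β (ext_nondeg _ fun σ => ?_)))
    rw [← ext_tr1, ← hβ]
    have : l (ext_D g b σ) ∈ (LinearMap.range (ext_D g b)).map l :=
      Submodule.mem_map_of_mem ⟨σ, rfl⟩
    rwa [hl0, Submodule.mem_bot] at this

theorem ext_A2 [Module.Finite F Q] (g : ι → V1 →ₗ[F] V0)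
    (b : ι → Q →ₗ[F] Q) (ξ : V1 →ₗ[F] Q) :
    (∃ σ, ext_D g b σ = ξ) ↔
      ∀ β, ext_D' g b β = 0 → LinearMap.trace F Q (ξ ∘ₗ β) = 0 := by
  constructor
  · rintro ⟨σ, rfl⟩ β hβ
    rw [ext_tr2, hβ, LinearMap.comp_zero, map_zero]
  · intro h
    let l : Module.Dual F (Q →ₗ[F] V1) := LinearMap.trace F Q ∘ₗ LinearMap.llcomp F Q V1 Q ξ
    have hl : l ∈ (LinearMap.ker (ext_D' g b)).dualAnnihilator := by
      rw [Submodule.mem_dualAnnihilator]
      exact fun β hβ => h β hβ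
    rw [← LinearMap.range_dualMap_eq_dualAnnihilator_ker] at hl
    obtain ⟨l', hl'⟩ := hl
    obtain ⟨σ, hσ⟩ := ext_repr l'
    refine ⟨σ, sub_eq_zero.mp (ext_nondeg _ fun β => ?_)⟩
    rw [LinearMap.sub_comp, map_sub, ext_tr2, ← hσ, sub_eq_zero]
    exact LinearMap.congr_fun hl' β
end lin

section mod
variable {k : Type u} [Field k] {R : Type u} [Ring R] [Algebra k R]
  {F : Type u} [Field F] [Algebra k F]

theorem ext_pl_mem {V B : FO k R F} (ξ : V.X →ₗ[F] B.X) :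
    (Plift (ξ.restrictScalars k) : R ⊗[k] V.X →ₗ[R] B.X) ∈ HomF (PA.onF V) B :=
  mem_HomF'.mpr fun a => P_ext fun v => by
    change Plift (ξ.restrictScalars k) (Pmap ((V.act a).restrictScalars k) ((1 : R) ⊗ₜ v)) =
      B.act a (Plift (ξ.restrictScalars k) ((1 : R) ⊗ₜ v))
    simp only [Pmap_tmul, Plift_tmul, one_smul, LinearMap.restrictScalars_apply]
    exact ξ.map_smul a v

theorem ext_pm_mem {V V' : FO k R F} (c : V.X →ₗ[F] V'.X) :
    (Pmap (c.restrictScalars k) : R ⊗[k] V.X →ₗ[R] R ⊗[k] V'.X) ∈ HomF (PA.onF V) (PA.onF V') :=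
  mem_HomF'.mpr fun a => P_ext fun v => by
    change Pmap (c.restrictScalars k) (Pmap ((V.act a).restrictScalars k) ((1 : R) ⊗ₜ v)) =
      Pmap ((V'.act a).restrictScalars k) (Pmap (c.restrictScalars k) ((1 : R) ⊗ₜ v))
    simp only [Pmap_tmul, LinearMap.restrictScalars_apply]
    exact congrArg _ (c.map_smul a v)

/-- restriction to the generators -/
noncomputable def ext_res {V B : FO k R F} (s : R ⊗[k] V.X →ₗ[R] B.X)
    (hs : s ∈ HomF (PA.onF V) B) : V.X →ₗ[F] B.X where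
  toFun v := s ((1 : R) ⊗ₜ v)
  map_add' v v' := by rw [tmul_add, map_add]
  map_smul' a v := LinearMap.congr_fun (mem_HomF'.mp hs a) ((1 : R) ⊗ₜ v)

theorem ext_pl_res {V B : FO k R F} (s : R ⊗[k] V.X →ₗ[R] B.X)
    (hs : s ∈ HomF (PA.onF V) B) : Plift ((ext_res s hs).restrictScalars k) = s :=
  P_ext fun v => by
    rw [Plift_tmul, one_smul]
    rfl

theorem ext_fd_of {A B Z : FO k R F} (hA : A.fd) (hB : B.fd) {m : A.X →ₗ[R] Z.X}
    {i : B.X →ₗ[R] Z.X} (hm : m ∈ HomF A Z) (hi : i ∈ HomF B Z)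
    (hs : ∀ z, ∃ x y, z = m x + i y) : Z.fd :=
  Module.Finite.of_surjective (LinearMap.coprod (HomF.lin hm) (HomF.lin hi)) fun z => by
    obtain ⟨x, y, rfl⟩ := hs z
    exact ⟨(x, y), rfl⟩

/-- pushouts of `F`-objects -/
theorem ext_po {C A B : FO k R F} {f : C.X →ₗ[R] A.X} {g : C.X →ₗ[R] B.X} (hf : f ∈ HomF C A)
    (hg : g ∈ HomF C B) : ∃ (Z : FO k R F) (m : A.X →ₗ[R] Z.X) (i : B.X →ₗ[R] Z.X),
      m ∈ HomF A Z ∧ i ∈ HomF B Z ∧ m ∘ₗ f = i ∘ₗ g ∧ (∀ z, ∃ x y, z = m x + i y) ∧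
      ∀ (W : Md k R) (s : A.X →ₗ[R] W) (r : B.X →ₗ[R] W), s ∘ₗ f = r ∘ₗ g →
        ∃ r' : Z.X →ₗ[R] W, r' ∘ₗ m = s ∧ r' ∘ₗ i = r := by
  let S : Submodule R (A.X × B.X) := LinearMap.range (f.prod (-g))
  have hS : ∀ (a : F), ∀ t ∈ S, (A.prod B).act a t ∈ S := by
    rintro a _ ⟨c, rfl⟩
    refine ⟨a • c, ?_⟩
    change (f (a • c), -g (a • c)) = (a • f c, a • -g c)
    rw [hf, hg, smul_neg]
  refine ⟨(A.prod B).quo S hS, S.mkQ ∘ₗ LinearMap.inl R _ _, S.mkQ ∘ₗ LinearMap.inr R _ _,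
    fun a t => ?_, fun a t => ?_, ?_, fun z => ?_, fun W s r h => ?_⟩
  · change S.mkQ (a • t, 0) = S.mkQ (a • t, a • 0)
    rw [smul_zero]
  · change S.mkQ (0, a • t) = S.mkQ (a • 0, a • t)
    rw [smul_zero]
  · refine LinearMap.ext fun c => ?_
    change S.mkQ (f c, 0) = S.mkQ (0, g c)
    rw [← sub_eq_zero, ← map_sub, Submodule.mkQ_apply, Submodule.Quotient.mk_eq_zero]
    exact ⟨c, by simp⟩
  · obtain ⟨⟨x, y⟩, rfl⟩ := S.mkQ_surjective z
    refine ⟨x, y, ?_⟩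
    change S.mkQ (x, y) = S.mkQ (x, 0) + S.mkQ (0, y)
    rw [← map_add]
    simp
  · refine ⟨S.liftQ (s.coprod r) ?_, ?_, ?_⟩
    · rintro _ ⟨c, rfl⟩
      have := LinearMap.congr_fun h c
      simp only [LinearMap.comp_apply] at this
      simp [this]
    · refine LinearMap.ext fun x => ?_
      change s x + r 0 = s x
      simp
    · refine LinearMap.ext fun y => ?_
      change s 0 + r y = r y
      simp

theorem ext_mem_of {A B Z Q : FO k R F} {m : A.X →ₗ[R] Z.X} {i : B.X →ₗ[R] Z.X}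
    (hm : m ∈ HomF A Z) (hi : i ∈ HomF B Z) (hs : ∀ z, ∃ x y, z = m x + i y)
    {r : Z.X →ₗ[R] Q.X} (h1 : r ∘ₗ m ∈ HomF A Q) (h2 : r ∘ₗ i ∈ HomF B Q) : r ∈ HomF Z Q := by
  intro a z
  obtain ⟨x, y, rfl⟩ := hs z
  have e1 := h1 a x
  have e2 := h2 a y
  simp only [LinearMap.comp_apply] at e1 e2
  rw [smul_add, ← hm, ← hi, map_add, map_add, e1, e2, smul_add]

theorem ext_mem_surj {A Z Q : FO k R F} {m : A.X →ₗ[R] Z.X} (hm : m ∈ HomF A Z)
    (hs : Surjective m) {r : Z.X →ₗ[R] Q.X} (h1 : r ∘ₗ m ∈ HomF A Q) : r ∈ HomF Z Q := by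
  intro a z
  obtain ⟨x, rfl⟩ := hs z
  rw [← hm]
  exact h1 a x

theorem ext_mem_inj {A B Z : FO k R F} {i : B.X →ₗ[R] Z.X} (hi : i ∈ HomF B Z)
    (hs : Injective i) {r : A.X →ₗ[R] B.X} (h1 : i ∘ₗ r ∈ HomF A Z) : r ∈ HomF A B := by
  intro a z
  apply hs
  rw [hi]
  exact h1 a z

theorem ext_fac_surj {A Z W : Type u} [AddCommGroup A] [Module R A] [AddCommGroup Z] [Module R Z]
    [AddCommGroup W] [Module R W] (π : A →ₗ[R] Z) (hπ : Surjective π) (s : A →ₗ[R] W)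
    (h : ∀ x, π x = 0 → s x = 0) : ∃ r : Z →ₗ[R] W, r ∘ₗ π = s := by
  refine ⟨(LinearMap.ker π).liftQ s h ∘ₗ (π.quotKerEquivOfSurjective hπ).symm.toLinearMap,
    LinearMap.ext fun x => ?_⟩
  have : (π.quotKerEquivOfSurjective hπ).symm (π x) = Submodule.Quotient.mk x := by
    rw [LinearEquiv.symm_apply_eq]
    rfl
  simp [this]

theorem ext_fac_inj {A B Z : Type u} [AddCommGroup A] [Module R A] [AddCommGroup Z] [Module R Z]
    [AddCommGroup B] [Module R B] (i : B →ₗ[R] Z) (hi : Injective i) (s : A →ₗ[R] Z)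
    (h : ∀ x, ∃ y, i y = s x) : ∃ r : A →ₗ[R] B, i ∘ₗ r = s := by
  refine ⟨(LinearEquiv.ofInjective i hi).symm.toLinearMap ∘ₗ s.codRestrict _ h,
    LinearMap.ext fun x => ?_⟩
  obtain ⟨y, hy⟩ := h x
  have : (LinearEquiv.ofInjective i hi).symm (s.codRestrict _ h x) = y := by
    rw [LinearEquiv.symm_apply_eq]
    exact Subtype.ext hy.symm
  simp only [LinearMap.comp_apply, LinearEquiv.coe_coe, this, hy]

variable [FiniteDimensional k R]

theorem ext_cf_map {V V' : Type u} [AddCommGroup V] [Module k V] [AddCommGroup V'] [Module k V']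
    (φ : V →ₗ[k] V') (i : Fin (Module.finrank k R)) (z : R ⊗[k] V) :
    cf V' i (Pmap φ z) = φ (cf V i z) := by
  induction z using TensorProduct.induction_on with
  | zero => simp
  | tmul r v => simp
  | add x y hx hy => simp only [map_add, hx, hy]

/-- the components of a differential -/
noncomputable def ext_g {V1 V0 : FO k R F} (d : R ⊗[k] V1.X →ₗ[R] R ⊗[k] V0.X)
    (hd : d ∈ HomF (PA.onF V1) (PA.onF V0)) (i : Fin (Module.finrank k R)) : V1.X →ₗ[F] V0.X where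
  toFun v := cf V0.X i (d ((1 : R) ⊗ₜ v))
  map_add' v v' := by rw [tmul_add, map_add, map_add]
  map_smul' a v := by
    have e : d ((1 : R) ⊗ₜ (a • v)) = Pmap ((V0.act a).restrictScalars k) (d ((1 : R) ⊗ₜ v)) :=
      LinearMap.congr_fun (mem_HomF'.mp hd a) ((1 : R) ⊗ₜ v)
    rw [e, ext_cf_map]
    rfl

/-- multiplication by the basis elements -/
noncomputable def ext_b (Q : FO k R F) (i : Fin (Module.finrank k R)) : Q.X →ₗ[F] Q.X :=
  DistribSMul.toLinearMap F Q.X (bR k R i)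

theorem ext_D_eq {V1 V0 Q : FO k R F} (d : R ⊗[k] V1.X →ₗ[R] R ⊗[k] V0.X)
    (hd : d ∈ HomF (PA.onF V1) (PA.onF V0)) (σ : V0.X →ₗ[F] Q.X) (ξ : V1.X →ₗ[F] Q.X) :
    ext_D (ext_g d hd) (ext_b Q) σ = ξ ↔
      Plift (σ.restrictScalars k) ∘ₗ d = Plift (ξ.restrictScalars k) := by
  have e : ∀ v, ext_D (ext_g d hd) (ext_b Q) σ v =
      Plift (σ.restrictScalars k) (d ((1 : R) ⊗ₜ v)) := fun v => by
    rw [ext_D_apply, ← sum_cf (d ((1 : R) ⊗ₜ v)), map_sum]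
    refine Finset.sum_congr rfl fun i _ => ?_
    rw [Plift_tmul]
    rfl
  constructor
  · intro h
    refine P_ext fun v => ?_
    rw [LinearMap.comp_apply, ← e, h, Plift_tmul, one_smul]
    rfl
  · intro h
    ext v
    rw [e]
    have := LinearMap.congr_fun h ((1 : R) ⊗ₜ v)
    rwa [Plift_tmul, one_smul] at this

/-- `j : T → I V1` is an `F`-linear kernel of `nu d` -/
structure ext_Ker {V1 V0 : FO k R F} (d : R ⊗[k] V1.X →ₗ[R] R ⊗[k] V0.X) (T : FO k R F)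
    (j : T.X →ₗ[R] CoInd k R V1.X) : Prop where
  mem : j ∈ HomF T (IA.onF V1)
  inj : Injective j
  ex : Exact j (nu d)

/-- `ev_1 ∘ j ∘ ψ` -/
noncomputable def ext_ev {V1 T : FO k R F} {j : T.X →ₗ[R] CoInd k R V1.X}
    (hj : j ∈ HomF T (IA.onF V1)) (Q : FO k R F) : HomF Q T →ₗ[F] (Q.X →ₗ[F] V1.X) where
  toFun ψ :=
    { toFun := fun q => j (ψ.1 q) 1
      map_add' := fun q q' => by rw [map_add, map_add]; rfl
      map_smul' := fun a q => by
        rw [ψ.2 a q]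
        exact congrArg (fun h : CoInd k R V1.X => h 1) (hj a (ψ.1 q)) }
  map_add' ψ ψ' := by ext q; simp
  map_smul' a ψ := by
    ext q
    exact congrArg (fun h : CoInd k R V1.X => h 1) (hj a (ψ.1 q))

omit [FiniteDimensional k R] in
theorem ext_ev_apply {V1 T : FO k R F} {j : T.X →ₗ[R] CoInd k R V1.X}
    (hj : j ∈ HomF T (IA.onF V1)) (Q : FO k R F) (ψ : HomF Q T) (q : Q.X) :
    ext_ev hj Q ψ q = j (ψ.1 q) 1 := rfl

omit [FiniteDimensional k R] in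
theorem ext_ev_inj {V1 T : FO k R F} {j : T.X →ₗ[R] CoInd k R V1.X}
    (hj : j ∈ HomF T (IA.onF V1)) (hi : Injective j) (Q : FO k R F) :
    LinearMap.ker (ext_ev hj Q) = ⊥ := by
  rw [LinearMap.ker_eq_bot']
  intro ψ hψ
  refine Subtype.ext (LinearMap.ext fun q => hi ?_)
  ext s
  have := LinearMap.congr_fun hψ (s • q)
  rw [ext_ev_apply, map_smul, map_smul, CoInd.smul_apply, one_mul] at this
  simpa using this

theorem ext_K {V1 V0 T : FO k R F} {d : R ⊗[k] V1.X →ₗ[R] R ⊗[k] V0.X}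
    (hd : d ∈ HomF (PA.onF V1) (PA.onF V0)) {j : T.X →ₗ[R] CoInd k R V1.X} (hj : ext_Ker d T j)
    (Q : FO k R F) (β : Q.X →ₗ[F] V1.X) :
    ext_D' (ext_g d hd) (ext_b Q) β = 0 ↔ ∃ ψ, ext_ev hj.mem Q ψ = β := by
  have e : ∀ q s, nu d (Ilift (β.restrictScalars k) q) s =
      ext_D' (ext_g d hd) (ext_b Q) β (s • q) := fun q s => by
    rw [ext_D'_apply, nu_apply]
    refine Finset.sum_congr rfl fun i _ => ?_
    rw [Ilift_apply, mul_smul]
    rfl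
  constructor
  · intro h
    obtain ⟨ψ, hψ⟩ := ext_fac_inj j hj.inj (Ilift (β.restrictScalars k)) fun q =>
      (hj.ex _).mp (by ext s; rw [e, h]; rfl)
    refine ⟨⟨ψ, ext_mem_inj (Z := IA.onF V1) hj.mem hj.inj ?_⟩, ?_⟩
    · intro a q
      refine CoInd.ext fun s => ?_
      change (j ∘ₗ ψ) (a • q) s = a • (j ∘ₗ ψ) q s
      rw [hψ]
      change β (s • a • q) = a • β (s • q)
      rw [smul_comm, map_smul]
    · ext q
      rw [ext_ev_apply]
      have := LinearMap.congr_fun hψ q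
      rw [LinearMap.comp_apply] at this
      rw [this, Ilift_apply, one_smul]
      rfl
  · rintro ⟨ψ, rfl⟩
    ext q
    have e1 : Ilift ((ext_ev hj.mem Q ψ).restrictScalars k) q = j (ψ.1 q) := by
      ext s
      rw [Ilift_apply, LinearMap.restrictScalars_apply, ext_ev_apply, map_smul, map_smul,
        CoInd.smul_apply, one_mul]
    have := e q 1
    rw [e1, hj.ex.apply_apply_eq_zero, one_smul] at this
    exact this.symm
end mod

end Pool.Agent.P.MP_cf639b_al
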