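import Pool.Agent.P.MP_cf639b_al.Iface
import Pool.Agent.P.MP_cf639b_al.T.EXTa

set_option linter.dupNamespace false

namespace Pool.Agent.P.MP_cf639b_al

universe u v
open TensorProduct Polynomial Function

section gen
variable {k : Type u} [Field k] {R : Type u} [Ring R] [Algebra k R] [FiniteDimensional k R]
  {F : Type u} [Field F] [Algebra k F]

theorem ext_main {V1 V0 T B : FO k R F} (h1 : V1.fd) (h0 : V0.fd) (hP0 : (PA.onF V0).fd)
    (hB : B.fd) {d : R ⊗[k] V1.X →ₗ[R] R ⊗[k] V0.X} (hd : d ∈ HomF (PA.onF V1) (PA.onF V0))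
    {j : T.X →ₗ[R] CoInd k R V1.X} (hj : ext_Ker d T j) (h : HomF B T →ₗ[F] F) :
    ∃ (ξ : V1.X →ₗ[F] B.X) (Z : FO k R F) (m : R ⊗[k] V0.X →ₗ[R] Z.X) (i : B.X →ₗ[R] Z.X),
      Z.fd ∧ m ∈ HomF (PA.onF V0) Z ∧ i ∈ HomF B Z ∧
      m ∘ₗ d = i ∘ₗ Plift (ξ.restrictScalars k) ∧ (∀ z, ∃ x y, z = m x + i y) ∧
      (∀ (W : Md k R) (s : R ⊗[k] V0.X →ₗ[R] W) (r : B.X →ₗ[R] W),
        s ∘ₗ d = r ∘ₗ Plift (ξ.restrictScalars k) →
          ∃ r' : Z.X →ₗ[R] W, r' ∘ₗ m = s ∧ r' ∘ₗ i = r) ∧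
      (∀ ψ, h ψ = LinearMap.trace F B.X (ξ ∘ₗ ext_ev hj.mem B ψ)) ∧
      ∀ (Q : FO k R F) (r : B.X →ₗ[R] Q.X) (hr : r ∈ HomF B Q),
        (∃ r' ∈ HomF Z Q, r' ∘ₗ i = r) ↔
          ∀ ψ (hψ : ψ ∈ HomF Q T), h ⟨ψ ∘ₗ r, HomF.comp hψ hr⟩ = 0 := by
  obtain ⟨l, hl⟩ := (ext_ev hj.mem B).exists_leftInverse_of_injective
    (ext_ev_inj hj.mem hj.inj B)
  obtain ⟨ξ, hξ⟩ := ext_repr (h ∘ₗ l)
  have hh : ∀ ψ, h ψ = LinearMap.trace F B.X (ξ ∘ₗ ext_ev hj.mem B ψ) := fun ψ => by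
    rw [← hξ, LinearMap.comp_apply]
    exact congrArg h (LinearMap.congr_fun hl ψ).symm
  obtain ⟨Z, m, i, hm, hi, e, hs, hu⟩ := ext_po hd (ext_pl_mem ξ)
  refine ⟨ξ, Z, m, i, ext_fd_of hP0 hB hm hi hs, hm, hi, e, hs, hu, hh, fun Q r hr => ?_⟩
  have e1 : Plift ((HomF.lin hr ∘ₗ ξ).restrictScalars k) =
      r ∘ₗ Plift (R := R) (ξ.restrictScalars k) := P_ext fun v => by simp
  have s1 : (∃ r' ∈ HomF Z Q, r' ∘ₗ i = r) ↔
      ∃ σ, ext_D (ext_g d hd) (ext_b Q) σ = HomF.lin hr ∘ₗ ξ := by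
    constructor
    · rintro ⟨r', hr', rfl⟩
      refine ⟨ext_res (r' ∘ₗ m) (HomF.comp hr' hm), (ext_D_eq d hd _ _).mpr ?_⟩
      rw [ext_pl_res, e1]
      exact congrArg (fun x => r' ∘ₗ x) e
    · rintro ⟨σ, hσ⟩
      have e2 := ((ext_D_eq d hd _ _).mp hσ).trans e1
      obtain ⟨r', a1, a2⟩ := hu Q.X (Plift (σ.restrictScalars k)) r e2
      exact ⟨r', ext_mem_of hm hi hs (a1 ▸ ext_pl_mem σ) (a2 ▸ hr), a2⟩
  have t : ∀ ψ : HomF Q T, h ⟨ψ.1 ∘ₗ r, HomF.comp ψ.2 hr⟩ =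
      LinearMap.trace F V1.X (ext_ev hj.mem Q ψ ∘ₗ HomF.lin hr ∘ₗ ξ) := fun ψ => by
    rw [hh, LinearMap.trace_comp_comm']
    rfl
  rw [s1, ext_A1]
  constructor
  · intro H ψ hψ
    exact (t ⟨ψ, hψ⟩).trans (H _ ((ext_K hd hj Q _).mpr ⟨_, rfl⟩))
  · intro H β hβ
    obtain ⟨ψ, rfl⟩ := (ext_K hd hj Q β).mp hβ
    exact (t ψ).symm.trans (H ψ.1 ψ.2)

theorem ext_lift {V1 V0 T B H Z V1' V0' T' H' : FO k R F} (hB : B.fd)
    {d : R ⊗[k] V1.X →ₗ[R] R ⊗[k] V0.X} {d' : R ⊗[k] V1'.X →ₗ[R] R ⊗[k] V0'.X}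
    (hd' : d' ∈ HomF (PA.onF V1') (PA.onF V0'))
    {j : T.X →ₗ[R] CoInd k R V1.X} {j' : T'.X →ₗ[R] CoInd k R V1'.X}
    (hj : j ∈ HomF T (IA.onF V1)) (hj' : ext_Ker d' T' j')
    {π : R ⊗[k] V0.X →ₗ[R] H.X} {π' : R ⊗[k] V0'.X →ₗ[R] H'.X}
    (hπ' : π' ∈ HomF (PA.onF V0') H') (sπ' : Surjective π') (eπ' : Exact d' π')
    (c1 : V1'.X →ₗ[F] V1.X) (c0 : V0'.X →ₗ[F] V0.X)
    (hc : d ∘ₗ Pmap (c1.restrictScalars k) = Pmap (c0.restrictScalars k) ∘ₗ d')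
    {b : H'.X →ₗ[R] H.X} (hb : b ∘ₗ π' = π ∘ₗ Pmap (c0.restrictScalars k))
    {τ : T'.X →ₗ[R] T.X} (hτ : τ ∈ HomF T' T) (eτ : ∀ t, j (τ t) 1 = c1 (j' t 1))
    (ξ : V1.X →ₗ[F] B.X) {m : R ⊗[k] V0.X →ₗ[R] Z.X} {i : B.X →ₗ[R] Z.X} {p : Z.X →ₗ[R] H.X}
    (hm : m ∈ HomF (PA.onF V0) Z) (hi : i ∈ HomF B Z)
    (e : m ∘ₗ d = i ∘ₗ Plift (ξ.restrictScalars k)) (ii : Injective i) (ex : Exact i p)
    (pm : p ∘ₗ m = π) :
    (∃ b' ∈ HomF H' Z, p ∘ₗ b' = b) ↔ ∀ ψ (hψ : ψ ∈ HomF B T'),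
      LinearMap.trace F B.X (ξ ∘ₗ ext_ev hj B ⟨τ ∘ₗ ψ, HomF.comp hτ hψ⟩) = 0 := by
  have e1 : Plift ((ξ ∘ₗ c1).restrictScalars k) =
      Plift (R := R) (ξ.restrictScalars k) ∘ₗ Pmap (c1.restrictScalars k) :=
    P_ext fun v => by simp
  have e2 : ∀ z, m (Pmap (c0.restrictScalars k) (d' z)) =
      i (Plift ((ξ ∘ₗ c1).restrictScalars k) z) := fun z => by
    rw [e1]
    exact (congrArg m (LinearMap.congr_fun hc z).symm).trans (LinearMap.congr_fun e _)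
  have hm0 : m ∘ₗ Pmap (c0.restrictScalars k) ∈ HomF (PA.onF V0') Z :=
    HomF.comp hm (ext_pm_mem c0)
  have s1 : (∃ b' ∈ HomF H' Z, p ∘ₗ b' = b) ↔
      ∃ σ, ext_D (ext_g d' hd') (ext_b B) σ = ξ ∘ₗ c1 := by
    constructor
    · rintro ⟨b', hb', rfl⟩
      obtain ⟨s, hs⟩ := ext_fac_inj i ii (m ∘ₗ Pmap (c0.restrictScalars k) - b' ∘ₗ π')
        fun x => (ex _).mp (by
          have := LinearMap.congr_fun hb x
          rw [← pm] at this
          simp only [LinearMap.comp_apply] at this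
          simp [this])
      have hs' : s ∈ HomF (PA.onF V0') B := ext_mem_inj hi ii (by
        have : m ∘ₗ Pmap (c0.restrictScalars k) - b' ∘ₗ π' ∈ HomF (PA.onF V0') Z :=
          sub_mem hm0 (HomF.comp hb' hπ')
        exact hs ▸ this)
      refine ⟨ext_res s hs', (ext_D_eq d' hd' _ _).mpr ?_⟩
      rw [ext_pl_res]
      refine LinearMap.ext fun z => ii ?_
      have := LinearMap.congr_fun hs (d' z)
      simp only [LinearMap.comp_apply, LinearMap.sub_apply, eπ'.apply_apply_eq_zero, map_zero,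
        sub_zero] at this
      rw [LinearMap.comp_apply, this, e2]
    · rintro ⟨σ, hσ⟩
      have e3 := (ext_D_eq d' hd' _ _).mp hσ
      obtain ⟨b', hb'⟩ := ext_fac_surj π' sπ'
        (m ∘ₗ Pmap (c0.restrictScalars k) - i ∘ₗ Plift (σ.restrictScalars k)) fun x hx => by
          obtain ⟨z, rfl⟩ := (eπ' x).mp hx
          have := LinearMap.congr_fun e3 z
          simp only [LinearMap.comp_apply] at this
          simp only [LinearMap.comp_apply, LinearMap.sub_apply, e2, this, sub_self]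
      refine ⟨b', ext_mem_surj hπ' sπ' ?_, LinearMap.ext fun x => ?_⟩
      · have : m ∘ₗ Pmap (c0.restrictScalars k) - i ∘ₗ Plift (σ.restrictScalars k) ∈
            HomF (PA.onF V0') Z := sub_mem hm0 (HomF.comp hi (ext_pl_mem σ))
        exact hb' ▸ this
      · obtain ⟨x, rfl⟩ := sπ' x
        have a1 := LinearMap.congr_fun hb' x
        have a2 := LinearMap.congr_fun hb x
        rw [← pm] at a2
        simp only [LinearMap.comp_apply, LinearMap.sub_apply] at a1 a2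
        rw [LinearMap.comp_apply, a1, a2, map_sub, ex.apply_apply_eq_zero, sub_zero]
  have t : ∀ ψ : HomF B T', ξ ∘ₗ ext_ev hj B ⟨τ ∘ₗ ψ.1, HomF.comp hτ ψ.2⟩ =
      (ξ ∘ₗ c1) ∘ₗ ext_ev hj'.mem B ψ := fun ψ => by
    ext q
    exact congrArg ξ (eτ (ψ.1 q))
  rw [s1, ext_A2]
  constructor
  · intro K ψ hψ
    exact (congrArg _ (t ⟨ψ, hψ⟩)).trans (K _ ((ext_K hd' hj' B _).mpr ⟨_, rfl⟩))
  · intro K β hβ
    obtain ⟨ψ, rfl⟩ := (ext_K hd' hj' B β).mp hβ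
    exact (congrArg _ (t ψ)).symm.trans (K ψ.1 ψ.2)

omit [FiniteDimensional k R] in
theorem ext_pres_mem (A : FO k R F) :
    presD k R A.X ∈ HomF (PA.onF (PA.onF A)) (PA.onF A) :=
  mem_HomF'.mpr fun a => (presMap (A.act a)).comm

omit [FiniteDimensional k R] in
theorem ext_pres_ex (T : Md k R) : Exact (presD k R T) (Pmul k R T) := fun z => by
  constructor
  · intro hz
    exact ⟨(1 : R) ⊗ₜ z, by simp [hz]⟩
  · rintro ⟨w, rfl⟩
    have : Pmul k R T ∘ₗ presD k R T = 0 := P_ext fun v => by simp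
    exact LinearMap.congr_fun this w

omit [FiniteDimensional k R] in
theorem ext_pmul_surj (T : Md k R) : Surjective (Pmul k R T) := fun t =>
  ⟨(1 : R) ⊗ₜ t, by simp⟩

theorem ext_tau_val {T T' : Md k R} (g : T →ₗ[R] T') (t : (pres T).Tau) (s : R) :
    ((presMap g).Tau t).1 s = Pmap (R := R) (g.restrictScalars k) (t.1 s) := by
  rw [CM.Tau_coe]
  change nu (Pmap ((Pmap (R := R) (g.restrictScalars k)).restrictScalars k)) t.1 s = _
  rw [nu_Pmap]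
  rfl

theorem ext_pres_ker (A : FO k R F) :
    ext_Ker (V1 := PA.onF A) (V0 := A) (presD k R A.X) (Tp.onF A)
      (LinearMap.ker (nu (presD k R A.X))).subtype where
  mem a t := CoInd.ext fun s => ext_tau_val (A.act a) t s
  inj := Subtype.val_injective
  ex := LinearMap.exact_subtype_ker_map _

omit [FiniteDimensional k R] in
theorem ext_iI_inj (T : Md k R) : Injective (iI T) := fun t t' h => by
  have := congrArg (fun x : CoInd k R T => x 1) h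
  change (1 : R) • t = (1 : R) • t' at this
  rwa [one_smul, one_smul] at this

theorem ext_cop_mem (A : FO k R F) :
    copD k R A.X ∈ HomF (PA.onF A) (PA.onF (IA.onF A)) :=
  mem_HomF'.mpr fun a => (copresMap (A.act a)).comm

theorem ext_cop_ker (A : FO k R F) (h : iI A.X ∈ HomF A (IA.onF A)) :
    ext_Ker (V1 := A) (V0 := IA.onF A) (copD k R A.X) A (iI A.X) where
  mem := h
  inj := ext_iI_inj _
  ex := fun y : CoInd k R A.X => by
    constructor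
    · intro hy
      refine ⟨y 1, CoInd.ext fun s => ?_⟩
      have : nu (copD k R A.X) y 1 s = 0 := by
        have hy' : nu (copD k R A.X) y = 0 := hy
        rw [hy']
        rfl
      rw [nu_copD, mul_one, sub_eq_zero] at this
      exact this.symm
    · rintro ⟨t, rfl⟩
      exact (copresEta A.X t).2

theorem ext_als (hID : S_ID k R) (hFD : S_FD k R) (hKS : S_KS k R) (N : FO k R F) (hN : N.fd)
    (hL : Loc N) : ∃ (Z : FO k R F) (i : N.X →ₗ[R] Z.X), Z.fd ∧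
      ∀ (Q : FO k R F) (r : N.X →ₗ[R] Q.X), r ∈ HomF N Q →
        ((∃ r' ∈ HomF Z Q, r' ∘ₗ i = r) ↔ ¬ ∃ s ∈ HomF Q N, s ∘ₗ r = LinearMap.id) := by
  have nt := hL.1
  let S : Submodule F (HomF N N) :=
    { carrier := {u | ¬ Bijective u.1}
      add_mem' := fun {u v} hu hv hb => by
        obtain ⟨i, -, hi⟩ := hKS.sum F N hL Bool Finset.univ (fun b => cond b u.1 v.1)
          (fun b _ => by cases b; exacts [v.2, u.2]) (by rw [Fintype.sum_bool]; exact hb)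
        cases i
        exacts [hv hi, hu hi]
      zero_mem' := fun hb => by
        obtain ⟨x, y, hxy⟩ := nt
        exact hxy (hb.1 rfl)
      smul_mem' := fun c u hu hb => by
        refine hu ⟨fun x y hxy => hb.1 ?_, fun y => ?_⟩
        · change c • u.1 x = c • u.1 y
          rw [hxy]
        · obtain ⟨x, hx⟩ := hb.2 y
          exact ⟨c • x, (u.2 c x).trans hx⟩ }
  have h1 : (⟨LinearMap.id, HomF.id N⟩ : HomF N N) ∉ S := fun h => h bijective_id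
  obtain ⟨h, hh1, hh0⟩ := Submodule.exists_dual_map_eq_bot_of_notMem h1 inferInstance
  obtain ⟨ξ, Z, m, i, hZ, -, -, -, -, -, -, H⟩ := ext_main (V0 := IA.onF N) hN (hFD.ia F N hN)
    (hFD.pa F _ (hFD.ia F N hN)) hN (ext_cop_mem N) (ext_cop_ker N (hID.iI_mem F N)) h
  refine ⟨Z, i, hZ, fun Q r hr => (H Q r hr).trans ⟨?_, fun hn ψ hψ => ?_⟩⟩
  · rintro K ⟨s, hs, e⟩
    refine hh1 (Eq.trans (congrArg h (Subtype.ext e.symm)) (K s hs))
  · have hm : (⟨ψ ∘ₗ r, HomF.comp hψ hr⟩ : HomF N N) ∈ S := fun hb => by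
      obtain ⟨g, hg, e, -⟩ := hID.iso_inv F N N _ (HomF.comp hψ hr) hb
      exact hn ⟨g ∘ₗ ψ, HomF.comp hg hψ, e⟩
    have := Submodule.mem_map_of_mem (f := h) hm
    rwa [hh0, Submodule.mem_bot] at this
end gen

theorem t_EXT (k : Type u) [Field k] [IsAlgClosed k] (R : Type u) [Ring R] [Algebra k R]
    [FiniteDimensional k R]
    (hID : ∀ (S : Type u) [Ring S] [Algebra k S] [FiniteDimensional k S], S_ID k S)
    (hFD : ∀ (S : Type u) [Ring S] [Algebra k S] [FiniteDimensional k S], S_FD k S) :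
    S_EXT k R := by
  intro F _ _ A B hA hB h hI
  have hPA := (hFD R).pa F A hA
  obtain ⟨ξ, Z, m, i, hZ, hm, hi, e, hs, hu, hh, H⟩ := ext_main (V1 := PA.onF A) hPA hA hPA hB
    (ext_pres_mem A) (ext_pres_ker A) h
  obtain ⟨p, pm, pi⟩ := hu A.X (Pmul k R A.X) 0 (LinearMap.ext fun z =>
    (ext_pres_ex A.X).apply_apply_eq_zero z)
  have hp : p ∈ HomF Z A :=
    ext_mem_of hm hi hs (pm ▸ (hID R).pP_mem F A) (pi ▸ zero_mem _)
  have ii : Injective i := by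
    obtain ⟨r', -, hr'⟩ := (H (IA.onF B) (iI B.X) ((hID R).iI_mem F B)).mpr fun ψ hψ =>
      hI _ ⟨ψ, hψ, rfl⟩
    refine Injective.of_comp (f := r') ?_
    have := ext_iI_inj B.X
    rw [← hr'] at this
    exact this
  have ex : Exact i p := fun z => by
    constructor
    · intro hz
      obtain ⟨x, y, rfl⟩ := hs z
      have a1 : p (m x) = Pmul k R A.X x := LinearMap.congr_fun pm x
      have a2 : p (i y) = 0 := LinearMap.congr_fun pi y
      rw [map_add, a1, a2, add_zero] at hz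
      obtain ⟨w, rfl⟩ := (ext_pres_ex A.X x).mp hz
      refine ⟨_ + y, (map_add i _ _).trans (congrArg (· + i y) (LinearMap.congr_fun e w).symm)⟩
    · rintro ⟨y, rfl⟩
      exact LinearMap.congr_fun pi y
  refine ⟨Z, i, p, hZ, hi, hp, ii, ex, ?_, H, fun A' b hb => ?_⟩
  · refine Surjective.of_comp (g := m) ?_
    have := ext_pmul_surj A.X
    rw [← pm] at this
    exact this
  · refine (ext_lift (V1 := PA.onF A) (V1' := PA.onF A') (H := A) (H' := A') hB (ext_pres_mem A')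
      (ext_pres_ker A).mem (ext_pres_ker A') ((hID R).pP_mem F A') (ext_pmul_surj A'.X)
      (ext_pres_ex A'.X) (HomF.lin (PA.map_mem hb)) (HomF.lin hb) (presMap b).comm
      ((hID R).pP_nat _ _ b) (Tp.map_mem hb) (fun t => ext_tau_val b t 1) ξ hm hi e ii ex
      pm).trans ?_
    exact forall_congr' fun ψ => forall_congr' fun hψ => by rw [hh]

theorem t_ALS (k : Type u) [Field k] [IsAlgClosed k] (R : Type u) [Ring R] [Algebra k R]
    [FiniteDimensional k R]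
    (hID : ∀ (S : Type u) [Ring S] [Algebra k S] [FiniteDimensional k S], S_ID k S)
    (hFD : ∀ (S : Type u) [Ring S] [Algebra k S] [FiniteDimensional k S], S_FD k S)
    (hKS : ∀ (S : Type u) [Ring S] [Algebra k S] [FiniteDimensional k S], S_KS k S) :
    S_ALS k R := by
  intro N hN hL
  obtain ⟨Z, i, hZ, H⟩ := ext_als (hID R) (hFD R) (hKS R) (FO.ofMd N)
    (((hFD R).ofk _).mpr hN) hL
  refine ⟨Z.X, i, ((hFD R).ofk _).mp hZ, fun Q r => ?_⟩
  have := H (FO.ofMd Q) r (mem_HomF_k _)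
  constructor
  · rintro ⟨r', e⟩ ⟨s, hs⟩
    exact this.mp ⟨r', mem_HomF_k _, e⟩ ⟨s, mem_HomF_k _, hs⟩
  · intro hn
    obtain ⟨r', -, e⟩ := this.mpr fun ⟨s, _, hs⟩ => hn ⟨s, hs⟩
    exact ⟨r', e⟩

end Pool.Agent.P.MP_cf639b_al
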