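import Pool.Agent.P.MP_cf639b_al.IfF

set_option linter.dupNamespace false

namespace Pool.Agent.P.MP_cf639b_al

universe u v
open TensorProduct Polynomial Function

section aux
variable {k : Type u} [Field k] {N N' : Type u} [AddCommGroup N] [Module k N] [AddCommGroup N']
  [Module k N']

theorem fckop_aeval {A : Module.End k N} {A' : Module.End k N'} (f : N →ₗ[k] N')
    (h : ∀ x, f (A x) = A' (f x)) (q : k[X]) (x : N) : f (aeval A q x) = aeval A' q (f x) := by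
  induction q using Polynomial.induction_on' with
  | add p q hp hq => simp only [map_add, LinearMap.add_apply, hp, hq]
  | monomial n c =>
    simp only [aeval_monomial, Module.End.mul_apply, Module.algebraMap_end_apply, map_smul,
      pow_comm_of f h]

theorem fckop_ev2 {A B : Module.End k N} {A' B' : Module.End k N'} (f : N →ₗ[k] N')
    (h : ∀ x, f (A x) = A' (f x)) (h' : ∀ x, f (B x) = B' (f x)) (b : k[X][X]) (x : N) :
    f (ev2 A B b x) = ev2 A' B' b (f x) := by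
  simp only [ev2, Polynomial.sum, LinearMap.sum_apply, map_sum, Module.End.mul_apply,
    fckop_aeval f h, pow_comm_of f h']

theorem fckop_comm {A B : Module.End k N} (h : Commute A B) (p q : k[X]) (x : N) :
    aeval A p (aeval B q x) = aeval B q (aeval A p x) :=
  fckop_aeval (aeval A p : Module.End k N)
    (fun y => (fckop_aeval B (fun z => LinearMap.congr_fun h.symm.eq z) p y).symm) q x

variable {R : Type u} [Ring R] [Algebra k R] [FiniteDimensional k R]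
  {S : Type u} [Ring S] [Algebra k S] [FiniteDimensional k S]

theorem fckop_tnp (hR : S_UNIV k R) (hS : S_UNIV k S) (hSYM : S_SYM k R) (hSWAP : S_SWAP k)
    (σ : Anti k R S) (d : Fam R) (h : TNP k d) : TNP k (d.op σ) := by
  obtain ⟨Θ, h1, h2, h3⟩ := hSYM S σ d
  have e1 : ∀ q x, Θ (aeval (X1 k d) q x) = aeval (X2 k (d.op σ)) q (Θ x) :=
    fckop_aeval Θ.toLinearMap h1
  have e2 : ∀ q x, Θ (aeval (X2 k d) q x) = aeval (X1 k (d.op σ)) q (Θ x) :=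
    fckop_aeval Θ.toLinearMap h2
  refine ⟨fun q hq e => h.1 q hq (Θ.injective ?_), fun z b hb e => ?_⟩
  · rw [hR.diag, e2, h3, e, map_zero]
  · obtain ⟨z, rfl⟩ := Θ.surjective z
    obtain ⟨b', hb', e'⟩ := hSWAP b hb
    have e3 : Θ (ev2 (X2 k d) (X1 k d) b z) = ev2 (X1 k (d.op σ)) (X2 k (d.op σ)) b (Θ z) :=
      fckop_ev2 Θ.toLinearMap h2 h1 b z
    rw [e, e' _ _ _ (hR.comm d).symm, Θ.map_eq_zero_iff] at e3
    obtain ⟨p, f, q, hp, hf, e4⟩ := h.2 z b' hb' e3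
    refine ⟨f, p, q, hf, hp, ?_⟩
    rw [fckop_comm (hS.comm _), ← e2, ← e1, e4, hR.diag, e2, h3]

theorem fckop_cst (L : Lib k) (σ : Anti k R S) {F : Type u} [Field F] [Algebra k F]
    {A B : FO k R F} {A' B' : FO k S F} {a : A.X →ₗ[R] B.X} {b : B.X →ₗ[R] A.X}
    (ha : a ∈ HomF A B) (hb : b ∈ HomF B A) {f1 : (DF σ A).X →ₗ[S] B'.X}
    {g1 : B'.X →ₗ[S] (DF σ A).X} {f2 : (DF σ B).X →ₗ[S] A'.X} {g2 : A'.X →ₗ[S] (DF σ B).X}
    (hf2 : f2 ∈ HomF (DF σ B) A') (hg2 : g2 ∈ HomF A' (DF σ B)) (e1 : g1 ∘ₗ f1 = LinearMap.id)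
    (e2 : f2 ∘ₗ g2 = LinearMap.id) (h : Cst B B (a ∘ₗ b - LinearMap.id)) :
    Cst A' A' ((f2 ∘ₗ Dmap σ hb ∘ₗ g1) ∘ₗ (f1 ∘ₗ Dmap σ ha ∘ₗ g2) - LinearMap.id) := by
  have hm : a ∘ₗ b - LinearMap.id ∈ HomF B B := sub_mem (HomF.comp ha hb) (HomF.id B)
  have h1 := (L.cst S).l F _ _ _ _
    ((L.cst S).r F _ _ _ _ ((L.dd R).cst S σ F B B _ hm h) g2 hg2) f2 hf2
  have e : (f2 ∘ₗ Dmap σ hb ∘ₗ g1) ∘ₗ (f1 ∘ₗ Dmap σ ha ∘ₗ g2) - LinearMap.id =
      f2 ∘ₗ Dmap σ hm ∘ₗ g2 := by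
    refine LinearMap.ext fun z => ?_
    have e3 : g1 (f1 (Dmap σ ha (g2 z))) = Dmap σ ha (g2 z) := LinearMap.congr_fun e1 _
    have e4 : f2 (g2 z) = z := LinearMap.congr_fun e2 z
    have e5 : Dmap σ hm (g2 z) = Dmap σ hb (Dmap σ ha (g2 z)) - g2 z :=
      DT.ext fun s => map_sub (g2 z : DT σ B) (a (b s)) s
    change f2 (Dmap σ hb (g1 (f1 (Dmap σ ha (g2 z))))) - z = f2 (Dmap σ hm (g2 z))
    rw [e3, e5]
    exact ((map_sub f2 _ _).trans (congrArg _ e4)).symm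
  rw [e]
  exact h1

theorem fckop_th (L : Lib k) (σ : Anti k R S) {F : Type u} [Field F] [Algebra k F]
    {A B : FO k R F} {A' B' : FO k S F} (h1 : IsoF (DF σ A) B') (h2 : IsoF (DF σ B) A')
    (h : ∃ a ∈ HomF A B, ∃ b ∈ HomF B A,
      Cst A A (b ∘ₗ a - LinearMap.id) ∧ Cst B B (a ∘ₗ b - LinearMap.id)) :
    ∃ a ∈ HomF A' B', ∃ b ∈ HomF B' A',
      Cst A' A' (b ∘ₗ a - LinearMap.id) ∧ Cst B' B' (a ∘ₗ b - LinearMap.id) := by
  obtain ⟨a, ha, b, hb, c1, c2⟩ := h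
  obtain ⟨f1, hf1, b1⟩ := h1
  obtain ⟨f2, hf2, b2⟩ := h2
  obtain ⟨g1, hg1, e1, e1'⟩ := (L.id S).iso_inv F _ _ f1 hf1 b1
  obtain ⟨g2, hg2, e2, e2'⟩ := (L.id S).iso_inv F _ _ f2 hf2 b2
  exact ⟨f1 ∘ₗ Dmap σ ha ∘ₗ g2, HomF.comp hf1 (HomF.comp (Dmap_mem σ ha) hg2),
    f2 ∘ₗ Dmap σ hb ∘ₗ g1, HomF.comp hf2 (HomF.comp (Dmap_mem σ hb) hg1),
    fckop_cst L σ ha hb hf2 hg2 e1 e2' c2, fckop_cst L σ hb ha hf1 hg1 e2 e1' c1⟩
end aux

theorem t_CKop (k : Type u) [Field k] [IsAlgClosed k] (R : Type u) [Ring R] [Algebra k R]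
    [FiniteDimensional k R]
    (L : Lib k)
    (hUNIV : ∀ (S : Type u) [Ring S] [Algebra k S] [FiniteDimensional k S], S_UNIV k S)
    (hTN1 : S_TN1 k R)
    (hTN2 : ∀ (S : Type u) [Ring S] [Algebra k S] [FiniteDimensional k S], S_TN2 k S)
    (hSYM : S_SYM k R)
    (hSWAP : S_SWAP k) :
    S_CKop k R := by
  intro S _ _ _ σ d K _ _ t ht h
  have h1 := hTN2 S (d.op σ) K t ht
    (fckop_tnp (hUNIV R) (hUNIV S) hSYM hSWAP σ d (hTN1 d K t ht h))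
  have h2 := L.dmy R S σ K d t
  exact ⟨h1.1, h1.2, fckop_th L σ h2.1 h2.2 h.th⟩

end Pool.Agent.P.MP_cf639b_al
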