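import Pool.Agent.P.MP_cf639b_al.IfF

set_option linter.dupNamespace false

namespace Pool.Agent.P.MP_cf639b_al

universe u v
open TensorProduct Polynomial Function

section
variable {k : Type u} [Field k] {R : Type u} [Ring R] [Algebra k R]

/-- the class of `t x^l` in position `a` -/
noncomputable def fsym_E (d : Fam R) (T : Md k R) (a : Fin d.n1) (l : ℕ) : T →ₗ[k] EE d T :=
  Emk d T ∘ₗ LinearMap.single k (fun _ => ℕ →₀ T) a ∘ₗ Finsupp.lsingle l

theorem fsym_E_apply (d : Fam R) (T : Md k R) (a : Fin d.n1) (l : ℕ) (t : T) :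
    fsym_E d T a l t = Emk d T (Pi.single a (Finsupp.single l t)) := rfl

theorem fsym_Emap (d : Fam R) {T T' : Md k R} (g : T →ₗ[R] T') (a : Fin d.n1) (l : ℕ) (t : T) :
    Emap d g (fsym_E d T a l t) = fsym_E d T' a l (g t) := by
  rw [fsym_E_apply, fsym_E_apply, Emap_mk]
  congr 1
  funext a'
  by_cases h : a' = a
  · subst h; simp
  · simp [h]

theorem fsym_EX (d : Fam R) (T : Md k R) (a : Fin d.n1) (l : ℕ) (t : T) :
    EX d T (fsym_E d T a l t) = fsym_E d T a (l + 1) t := by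
  rw [fsym_E_apply, fsym_E_apply, EX_mk]
  congr 1
  funext a'
  by_cases h : a' = a
  · subst h; simp
  · simp [h]

theorem fsym_mk (d : Fam R) (T : Md k R) (z : Fin d.n1 → ℕ →₀ T) :
    Emk d T z = ∑ a, (Emk d T ∘ₗ LinearMap.single k (fun _ => ℕ →₀ T) a) (z a) := by
  conv_lhs => rw [← Finset.univ_sum_single z, map_sum]
  rfl

theorem fsym_DX (d : Fam R) (T : Md k R) (b : Fin d.n0) (l : ℕ) (t : T) (a : Fin d.n1) :
    DX d T (Pi.single b (Finsupp.single l t)) a =
      ∑ i ∈ Finset.range (d.r + 1), Finsupp.single (l + i) (d.c i a b • t) := by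
  rw [Dop_apply]
  refine Finset.sum_congr rfl fun i _ => ?_
  rw [Finset.sum_eq_single b (fun b' _ hb => by simp [hb]) (by simp)]
  simp

theorem fsym_Erel (d : Fam R) (T : Md k R) (b : Fin d.n0) (l : ℕ) (t : T) :
    ∑ i ∈ Finset.range (d.r + 1), ∑ a, fsym_E d T a (l + i) (d.c i a b • t) = 0 := by
  have h : Emk d T (DX d T (Pi.single b (Finsupp.single l t))) = 0 := Emk_eq_zero.mpr ⟨_, rfl⟩
  rw [fsym_mk] at h
  rw [Finset.sum_comm]
  refine Eq.trans (Finset.sum_congr rfl fun a _ => ?_) h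
  rw [fsym_DX, map_sum]
  rfl

theorem fsym_Elift (d : Fam R) (T : Md k R) {W : Type u} [AddCommGroup W] [Module k W]
    (φ : Fin d.n1 → ℕ → T →ₗ[k] W)
    (h : ∀ b l t, ∑ i ∈ Finset.range (d.r + 1), ∑ a, φ a (l + i) (d.c i a b • t) = 0) :
    ∃ f : EE d T →ₗ[k] W, ∀ a l t, f (fsym_E d T a l t) = φ a l t := by
  refine ⟨Submodule.liftQ _ (∑ a, Finsupp.lsum k (φ a) ∘ₗ LinearMap.proj a) ?_, fun a l t => ?_⟩
  · rw [LinearMap.range_le_ker_iff]
    refine LinearMap.pi_ext' fun b => Finsupp.lhom_ext fun l t => ?_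
    simp only [LinearMap.comp_apply, LinearMap.sum_apply, LinearMap.proj_apply,
      LinearMap.single_apply, LinearMap.zero_apply, fsym_DX, map_sum, Finsupp.lsum_single]
    rw [Finset.sum_comm]
    exact h b l t
  · change (∑ a, Finsupp.lsum k (φ a) ∘ₗ LinearMap.proj a) (Pi.single a (Finsupp.single l t)) = _
    rw [LinearMap.sum_apply, Finset.sum_eq_single a (fun a' _ ha => by simp [ha]) (by simp)]
    simp

theorem fsym_xpow (i j : ℕ) : ((VX k).x ^ j) (X ^ i : k[X]) = (X ^ (i + j) : k[X]) := by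
  change (LinearMap.mulLeft k (X : k[X]) ^ j) (X ^ i) = _
  rw [LinearMap.pow_mulLeft, LinearMap.mulLeft_apply, ← pow_add, add_comm]

theorem fsym_pext {W : Type u} [AddCommGroup W] [Module k W] {f g : k[X] →ₗ[k] W}
    (h : ∀ i, f (X ^ i) = g (X ^ i)) : f = g :=
  (basisMonomials k).ext fun i => by
    rw [coe_basisMonomials]
    simpa only [← X_pow_eq_monomial] using h i

theorem fsym_Mext (d : Fam R) {W : Type u} [AddCommGroup W] [Module k W]
    {f g : M d (VX k) →ₗ[k] W}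
    (h : ∀ b i (r : R), f (r • gen d (VX k) b (X ^ i)) = g (r • gen d (VX k) b (X ^ i))) :
    f = g := by
  have e : (Ilift f : M d (VX k) →ₗ[R] I R W) = Ilift g :=
    M_ext (d := d) (V := VX k) (T := I R W) fun b v => by
    refine LinearMap.congr_fun (fsym_pext (f := (Ilift f).restrictScalars k ∘ₗ gen d (VX k) b)
      (g := (Ilift g).restrictScalars k ∘ₗ gen d (VX k) b) fun i => ?_) v
    exact CoInd.ext fun s => h b i s
  refine LinearMap.ext fun t => ?_
  have := congrArg (fun x : CoInd k R W => x 1) (LinearMap.congr_fun e t)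
  simpa using this

theorem fsym_Mlift (d : Fam R) {W : Type u} [AddCommGroup W] [Module k W]
    (B : Fin d.n0 → ℕ → R →ₗ[k] W)
    (h : ∀ i a r, ∑ j ∈ Finset.range (d.r + 1), ∑ b, B b (i + j) (r * d.c j a b) = 0) :
    ∃ f : M d (VX k) →ₗ[k] W, ∀ b i (r : R), f (r • gen d (VX k) b (X ^ i)) = B b i r := by
  let z : Fin d.n0 → VX k →ₗ[k] I R W := fun b =>
    (basisMonomials k).constr k fun i => CoInd.of (B b i)
  have hz0 : ∀ b i, z b (X ^ i : k[X]) = CoInd.of (B b i) := fun b i => by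
    have := (basisMonomials k).constr_basis k (fun i => CoInd.of (B b i)) i
    rw [coe_basisMonomials] at this
    simpa only [← X_pow_eq_monomial] using this
  have hz : ∀ a v, ∑ j ∈ Finset.range (d.r + 1), ∑ b, d.c j a b • z b (((VX k).x ^ j) v) = 0 := by
    intro a v
    have := fsym_pext (W := CoInd k R W) (f := ∑ j ∈ Finset.range (d.r + 1), ∑ b,
      DistribSMul.toLinearMap k _ (d.c j a b) ∘ₗ z b ∘ₗ ((VX k).x ^ j)) (g := 0) fun i => by
        refine CoInd.ext fun s => Eq.trans ?_ (h i a s)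
        simp only [LinearMap.sum_apply, LinearMap.comp_apply, CoInd.sum_apply]
        refine Finset.sum_congr rfl fun j _ => Finset.sum_congr rfl fun b _ => ?_
        rw [fsym_xpow, hz0]
        rfl
    have e := LinearMap.congr_fun this v
    simp only [LinearMap.sum_apply, LinearMap.comp_apply] at e
    exact e
  refine ⟨Iev W ∘ₗ (Mlift d (VX k) z hz).restrictScalars k, fun b i r => ?_⟩
  change Mlift d (VX k) z hz (r • gen d (VX k) b (X ^ i)) 1 = _
  rw [map_smul, Mlift_gen, hz0]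
  change B b i (1 * r) = _
  rw [one_mul]

variable (k) in
/-- the generators of `NN` -/
noncomputable def fsym_G (d : Fam R) (a : Fin d.n1) (l : ℕ) (b : Fin d.n0) (i : ℕ) :
    R →ₗ[k] NN k d :=
  fsym_E d _ a l ∘ₗ (LinearMap.toSpanSingleton R _ (gen d (VX k) b (X ^ i))).restrictScalars k

theorem fsym_G_apply (d : Fam R) (a : Fin d.n1) (l : ℕ) (b : Fin d.n0) (i : ℕ) (r : R) :
    fsym_G k d a l b i r = fsym_E d _ a l (r • gen d (VX k) b (X ^ i)) := rfl

theorem fsym_ext (d : Fam R) {W : Type u} [AddCommGroup W] [Module k W] {f g : NN k d →ₗ[k] W}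
    (h : ∀ a l b i r, f (fsym_G k d a l b i r) = g (fsym_G k d a l b i r)) : f = g := by
  have e : f ∘ₗ Emk d _ = g ∘ₗ Emk d _ := LinearMap.pi_ext' fun a => Finsupp.lhom_ext fun l t =>
    LinearMap.congr_fun (fsym_Mext d (f := f ∘ₗ fsym_E d _ a l) (g := g ∘ₗ fsym_E d _ a l)
      (h a l)) t
  exact E_ext (LinearMap.congr_fun e)

theorem fsym_rel1 (d : Fam R) (a : Fin d.n1) (l i : ℕ) (a' : Fin d.n1) (r : R) :
    ∑ j ∈ Finset.range (d.r + 1), ∑ b, fsym_G k d a l b (i + j) (r * d.c j a' b) = 0 := by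
  have := congrArg (fun t => fsym_E d _ a l (r • t)) (gen_rel d (VX k) a' (X ^ i))
  simp only [smul_zero, map_zero, Finset.smul_sum, map_sum] at this
  refine Eq.trans (Finset.sum_congr rfl fun j _ => Finset.sum_congr rfl fun b _ => ?_) this
  rw [fsym_G_apply, mul_smul, fsym_xpow]

theorem fsym_rel2 (d : Fam R) (l : ℕ) (b : Fin d.n0) (i : ℕ) (b' : Fin d.n0) (r : R) :
    ∑ j ∈ Finset.range (d.r + 1), ∑ a, fsym_G k d a (l + j) b i (d.c j a b' * r) = 0 := by
  refine Eq.trans (Finset.sum_congr rfl fun j _ => Finset.sum_congr rfl fun a _ => ?_)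
    (fsym_Erel d _ b' l (r • gen d (VX k) b (X ^ i)))
  rw [fsym_G_apply, mul_smul]

theorem fsym_lift (d : Fam R) {W : Type u} [AddCommGroup W] [Module k W]
    (B : Fin d.n1 → ℕ → Fin d.n0 → ℕ → R →ₗ[k] W)
    (h1 : ∀ a l i a' r,
      ∑ j ∈ Finset.range (d.r + 1), ∑ b, B a l b (i + j) (r * d.c j a' b) = 0)
    (h2 : ∀ l b i b' r,
      ∑ j ∈ Finset.range (d.r + 1), ∑ a, B a (l + j) b i (d.c j a b' * r) = 0) :
    ∃ f : NN k d →ₗ[k] W, ∀ a l b i r, f (fsym_G k d a l b i r) = B a l b i r := by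
  choose φ hφ using fun a l => fsym_Mlift d (B a l) (h1 a l)
  obtain ⟨f, hf⟩ := fsym_Elift d (M d (VX k)) φ fun b' l t => by
    have := fsym_Mext d (f := ∑ j ∈ Finset.range (d.r + 1), ∑ a,
      φ a (l + j) ∘ₗ DistribSMul.toLinearMap k _ (d.c j a b')) (g := 0) fun b i r => by
        refine Eq.trans ?_ (h2 l b i b' r)
        simp only [LinearMap.sum_apply, LinearMap.comp_apply]
        refine Finset.sum_congr rfl fun j _ => Finset.sum_congr rfl fun a _ => ?_
        rw [← hφ, mul_smul]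
        rfl
    have e := LinearMap.congr_fun this t
    simp only [LinearMap.sum_apply, LinearMap.comp_apply] at e
    exact e
  exact ⟨f, fun a l b i r => by rw [fsym_G_apply, hf, hφ]⟩

theorem fsym_X1 (d : Fam R) (a : Fin d.n1) (l : ℕ) (b : Fin d.n0) (i : ℕ) (r : R) :
    X1 k d (fsym_G k d a l b i r) = fsym_G k d a l b (i + 1) r := by
  rw [X1, fsym_G_apply, fsym_G_apply, fsym_Emap, map_smul, map_gen, XH.pol_val, aeval_X,
    ← fsym_xpow, pow_one]

theorem fsym_X2 (d : Fam R) (a : Fin d.n1) (l : ℕ) (b : Fin d.n0) (i : ℕ) (r : R) :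
    X2 k d (fsym_G k d a l b i r) = fsym_G k d a (l + 1) b i r := fsym_EX d _ a l _

theorem fsym_eN (d : Fam R) : eN k d = ∑ i ∈ Finset.range (d.r + 1), ∑ l ∈ Finset.range i,
    ∑ a, ∑ b, fsym_G k d a l b (i - 1 - l) (d.c i a b) := by
  rw [eN, Bock_apply, fsym_mk]
  simp only [map_sum]
  rw [Finset.sum_comm]
  refine Finset.sum_congr rfl fun i _ => ?_
  rw [Finset.sum_comm]
  refine Finset.sum_congr rfl fun l _ => Finset.sum_congr rfl fun a _ =>
    Finset.sum_congr rfl fun b _ => ?_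
  have := fsym_xpow (k := k) 0 (i - 1 - l)
  rw [pow_zero, zero_add] at this
  rw [this]
  rfl

theorem fsym_th {S : Type u} [Ring S] [Algebra k S] (σ : Anti k R S) (n0 n1 r : ℕ)
    (c : ℕ → Matrix (Fin n1) (Fin n0) R) (c' : ℕ → Matrix (Fin n0) (Fin n1) S)
    (h : ∀ i a b, c' i b a = σ.e (c i a b)) :
    ∃ Θ : NN k (⟨n0, n1, r, c⟩ : Fam R) →ₗ[k] NN k (⟨n1, n0, r, c'⟩ : Fam S), ∀ a l b i s,
      Θ (fsym_G k _ a l b i s) = fsym_G k _ b i a l (σ.e s) := by
  refine fsym_lift (⟨n0, n1, r, c⟩ : Fam R)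
    (fun a l b i => fsym_G k (⟨n1, n0, r, c'⟩ : Fam S) b i a l ∘ₗ σ.e.toLinearMap)
    (fun a l i a' s => ?_) (fun l b i b' s => ?_)
  · refine Eq.trans (Finset.sum_congr rfl fun j _ => Finset.sum_congr rfl fun b _ => ?_)
      (fsym_rel2 (k := k) (⟨n1, n0, r, c'⟩ : Fam S) i a l a' (σ.e s))
    refine congrArg (fsym_G k (⟨n1, n0, r, c'⟩ : Fam S) b (i + j) a l) ?_
    change σ.e (s * c j a' b) = c' j b a' * σ.e s
    rw [σ.map_mul, h]
  · refine Eq.trans (Finset.sum_congr rfl fun j _ => Finset.sum_congr rfl fun a _ => ?_)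
      (fsym_rel1 (k := k) (⟨n1, n0, r, c'⟩ : Fam S) b i l b' (σ.e s))
    refine congrArg (fsym_G k (⟨n1, n0, r, c'⟩ : Fam S) b i a (l + j)) ?_
    change σ.e (c j a b' * s) = σ.e s * c' j b' a
    rw [σ.map_mul, h]
end

theorem t_SYM (k : Type u) [Field k] [IsAlgClosed k] (R : Type u) [Ring R] [Algebra k R]
    [FiniteDimensional k R]
    (L : Lib k) :
    S_SYM k R := by
  rintro S _ _ _ σ ⟨n0, n1, r, c⟩
  obtain ⟨Θ, h⟩ := fsym_th σ n0 n1 r c (fun i a b => σ.e (c i b a)) fun _ _ _ => rfl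
  obtain ⟨Θ', h'⟩ := fsym_th σ.symm n1 n0 r (fun i a b => σ.e (c i b a)) c
    fun _ _ _ => (σ.e.symm_apply_apply _).symm
  refine ⟨LinearEquiv.ofLinearMap Θ Θ' (fsym_ext _ fun a l b i s => ?_)
    (fsym_ext _ fun a l b i s => ?_), fun n => ?_, fun n => ?_, ?_⟩
  · exact (congrArg Θ (h' a l b i s)).trans ((h _ _ _ _ _).trans
      (congrArg _ (σ.e.apply_symm_apply s)))
  · exact (congrArg Θ' (h a l b i s)).trans ((h' _ _ _ _ _).trans
      (congrArg _ (σ.e.symm_apply_apply s)))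
  · refine LinearMap.congr_fun (fsym_ext _ (f := Θ ∘ₗ X1 k _) (g := X2 k _ ∘ₗ Θ)
      fun a l b i s => ?_) n
    rw [LinearMap.comp_apply, LinearMap.comp_apply, fsym_X1, h, h, fsym_X2]
  · refine LinearMap.congr_fun (fsym_ext _ (f := Θ ∘ₗ X2 k _) (g := X1 k _ ∘ₗ Θ)
      fun a l b i s => ?_) n
    rw [LinearMap.comp_apply, LinearMap.comp_apply, fsym_X2, h, h, fsym_X1]
  · change Θ _ = _
    rw [fsym_eN, fsym_eN, map_sum]
    refine Finset.sum_congr rfl fun i _ => ?_
    rw [map_sum, ← Finset.sum_range_reflect]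
    refine Finset.sum_congr rfl fun l hl => ?_
    rw [map_sum, Finset.sum_comm]
    refine Finset.sum_congr rfl fun a _ => ?_
    rw [map_sum]
    refine Finset.sum_congr rfl fun b _ => ?_
    have := Finset.mem_range.mp hl
    rw [h, show i - 1 - (i - 1 - l) = l by omega]

end Pool.Agent.P.MP_cf639b_al
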