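import Pool.Agent.P.MP_cf639b_al.IfG

set_option linter.dupNamespace false

namespace Pool.Agent.P.MP_cf639b_al

universe u
open TensorProduct Polynomial Function

noncomputable section

theorem gg_ev_aeval {k : Type u} [Field k] {L : Type u} [Field L] [Algebra k L] (P : UP k L)
    (c : ℕ → k) (h : k[X]) (hh : aeval (P.ev c) h ≠ 0) :
    ∀ᶠ i in (P.U : Filter ℕ), h.eval (c i) ≠ 0 := by
  rw [Polynomial.aeval_algHom_apply] at hh
  have e : aeval c h = fun i => h.eval (c i) := by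
    funext i
    rw [Polynomial.aeval_pi_apply₂, coe_aeval_eq_eval]
  rw [Ne, P.ker, e, ← Ultrafilter.eventually_not] at hh
  exact hh

theorem gg_two {k : Type u} [Field k] {L : Type u} [Field L] [Algebra k L] (P : UP k L)
    {p : ℕ → Prop} (hp : ∀ᶠ i in (P.U : Filter ℕ), p i) : ∃ i j, i < j ∧ p i ∧ p j := by
  obtain ⟨i, hi⟩ := hp.exists
  have h2 : ∀ᶠ j in (P.U : Filter ℕ), i < j := by
    refine P.cof ?_
    rw [Nat.cofinite_eq_atTop]
    exact Filter.eventually_gt_atTop i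
  obtain ⟨j, hj, hij⟩ := (hp.and h2).exists
  exact ⟨i, j, hij, hi, hj⟩

theorem t_GG (k : Type u) [Field k] [IsAlgClosed k] (R : Type u) [Ring R] [Algebra k R]
    [FiniteDimensional k R] (L : Lib k) :
    S_GUP k → S_GUM k R → S_GBAS k R → S_GCON k R → S_GJ k R → S_GRK k R → S_GBIM k R →
      S_GFAM k R → S_CL1 k R → S_SAME k R → S_G k R := by
  intro hUP hUM hBAS hCON hJ hRK hBIM hFAM hCL hSAME hND ⟨n, H, hH⟩
  classical
  refine ⟨n, fun d hd => ⟨n, le_rfl, ?_⟩⟩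
  choose rk h hh hrk using fun j : Fin n => hRK (MN (H j).d) ((L.af R).m (H j).d)
  have hB : ∀ j : Fin n, ∃ (B : Bimod k R) (g : k[X]), g ≠ 0 ∧ ∀ c : k, g.eval c ≠ 0 →
      Nonempty (M (H j).d (J k c (d / rk j)).V ≃ₗ[R] B.spec c) := by
    intro j
    obtain ⟨T, z, s, hs, hT⟩ := hFAM (H j).d (d / rk j)
    obtain ⟨B, g, hg, hB⟩ := hBIM T z s hs
    refine ⟨B, g, hg, fun c hc => ?_⟩
    obtain ⟨e1⟩ := hT c
    obtain ⟨e2⟩ := hB c hc
    exact ⟨e1.symm.trans e2⟩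
  choose B g hg hB using hB
  by_contra hno
  -- an infinite sequence of pairwise non-isomorphic exceptional modules
  have hseq := exists_seq_of_forall_finset_exists
    (fun A : Md k R => Module.finrank k A = d ∧ Indec R A ∧
      ¬ ∃ i c, Nonempty (A ≃ₗ[R] (B i).spec c))
    (fun A A' : Md k R => ¬ Nonempty (A' ≃ₗ[R] A)) (fun s _ => by
      by_contra hcon
      refine hno ⟨B, s.card, fun j => ModuleCat.of R ((s.equivFin.symm j).1 : Md k R), ?_⟩
      intro A _ _ _ _ hA hI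
      by_contra hA2
      rw [not_or] at hA2
      refine hcon ⟨⟨A⟩, ⟨hA, hI, hA2.1⟩, fun x hx hx2 => hA2.2 ⟨s.equivFin ⟨x, hx⟩, ?_⟩⟩
      beta_reduce
      rw [Equiv.symm_apply_apply]
      exact hx2)
  obtain ⟨A, hA, hAA⟩ := hseq
  have hfd : ∀ i, (A i).fd := fun i => Module.finite_of_finrank_pos (by rw [(hA i).1]; omega)
  have hdim : ∀ i, Module.finrank k (A i) = d := fun i => (hA i).1
  obtain ⟨F, _, _, _, ⟨P⟩⟩ := hUP
  obtain ⟨N, ⟨E⟩⟩ := hUM F P A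
  obtain ⟨hNfd, hNdim⟩ := hBAS.dim F P A N E d hfd hdim
  have hNloc := hBAS.loc F P A N E d hfd hdim fun i => (hA i).2.1
  rcases hCL hND F N hNfd hNloc with hC | ⟨H', y', m, hy', hiso⟩
  · obtain ⟨Q, hQ⟩ := hCON F P A N E d hfd hdim hC
    obtain ⟨i, j, hij, ⟨ei⟩, ⟨ej⟩⟩ := gg_two P hQ
    exact hAA i j hij ⟨ej.symm.trans ei⟩
  · obtain ⟨j, hj⟩ := hH H'
    obtain ⟨y, e, hy, hiso2⟩ := hSAME hND (H j) H' hj F y' m hy'
    have hiso3 := (L.id R).iso_trans F _ _ _ hiso hiso2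
    obtain ⟨c, rfl⟩ := P.surj y
    have hy1 : ∀ q : k[X], q ≠ 0 → aeval (P.ev c) q ≠ 0 := fun q hq h0 => hy ⟨q, hq, h0⟩
    have hd1 : d = rk j * (e + 1) := by
      rw [← hNdim, ((L.id R).iso_fd F _ _ hiso3).2]
      exact (hrk j F (P.ev c) (e + 1) (hy1 _ (hh j))).2
    have hrk0 : 0 < rk j := Nat.pos_of_ne_zero fun h0 => by rw [h0, zero_mul] at hd1; omega
    have he : d / rk j = e + 1 := by rw [hd1, Nat.mul_div_cancel_left _ hrk0]
    obtain ⟨i, ⟨f, hf⟩, hi1, hi2⟩ := ((hJ F P A N E d hfd hdim (H j).d c (e + 1) hiso3).and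
      ((gg_ev_aeval P c _ (hy1 _ (hh j))).and (gg_ev_aeval P c _ (hy1 _ (hg j))))).exists
    obtain ⟨h1, h2⟩ := hrk j k (c i) (e + 1) (by rwa [coe_aeval_eq_eval])
    rw [(L.fd R).ofk] at h1
    rw [(L.fd R).dimk, ← hd1, ← hdim i] at h2
    have : Module.Finite k (M (H j).d (J k (c i) (e + 1)).V) := h1
    have := hfd i
    have hinj : Injective f :=
      (LinearMap.injective_iff_surjective_of_finrank_eq_finrank (f := f.restrictScalars k) h2).2 hf
    obtain ⟨e2⟩ := hB j (c i) hi2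
    rw [he] at e2
    exact (hA i).2.2 ⟨j, c i, ⟨(LinearEquiv.ofBijective f ⟨hinj, hf⟩).symm.trans e2⟩⟩

end
end Pool.Agent.P.MP_cf639b_al
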