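import Pool.Agent.P.MP_cf639b_al.Iface

set_option linter.dupNamespace false

namespace Pool.Agent.P.MP_cf639b_al

universe u v
open TensorProduct Polynomial Function

theorem msa_sat {F : Type u} [Field F] {ι : Type} (S : Submodule F[X] (ι → F[X])) (a : ℕ)
    (ξ : ι → F[X]) (hξ : ξ ∈ S) (h : F[X]) (hh : h ≠ 0)
    (hm : h • ξ ∈ Submodule.span F[X] {v | v ∈ S ∧ ∀ i, (v i).natDegree ≤ a}) :
    ξ ∈ Submodule.span F[X] {v | v ∈ S ∧ ∀ i, (v i).natDegree ≤ a} := by
  obtain ⟨n, p, z, hz⟩ := Submodule.mem_span_set'.mp hm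
  have hq : (∑ j, (p j / h) • (z j).1) ∈
      Submodule.span F[X] {v | v ∈ S ∧ ∀ i, (v i).natDegree ≤ a} :=
    Submodule.sum_mem _ fun j _ => Submodule.smul_mem _ _ (Submodule.subset_span (z j).2)
  have hqS : (∑ j, (p j / h) • (z j).1) ∈ S :=
    Submodule.sum_mem _ fun j _ => Submodule.smul_mem _ _ (z j).2.1
  have hη : ξ - ∑ j, (p j / h) • (z j).1 ∈
      Submodule.span F[X] {v | v ∈ S ∧ ∀ i, (v i).natDegree ≤ a} := by
    refine Submodule.subset_span ⟨S.sub_mem hξ hqS, fun i => ?_⟩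
    have e : h * (ξ - ∑ j, (p j / h) • (z j).1) i = ∑ j, (p j % h) * (z j).1 i := by
      have e1 := congrFun hz i
      simp only [Finset.sum_apply, Pi.smul_apply, smul_eq_mul, Pi.sub_apply] at e1 ⊢
      rw [mul_sub, ← e1, Finset.mul_sum, ← Finset.sum_sub_distrib]
      refine Finset.sum_congr rfl fun j _ => ?_
      have e2 := EuclideanDomain.div_add_mod (p j) h
      linear_combination (-(z j).1 i) * e2
    have hb : (∑ j, (p j % h) * (z j).1 i).natDegree ≤ h.natDegree + a := by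
      refine natDegree_sum_le_of_forall_le _ _ fun j _ => natDegree_mul_le.trans ?_
      exact add_le_add (natDegree_le_natDegree (degree_mod_lt _ hh).le) ((z j).2.2 i)
    by_cases h0 : (ξ - ∑ j, (p j / h) • (z j).1) i = 0
    · rw [h0]; simp
    · rw [← e, natDegree_mul hh h0] at hb
      omega
  have := Submodule.add_mem _ hη hq
  rwa [sub_add_cancel] at this

theorem msa_fun {F : Type u} [Field F] {ι : Type} [Fintype ι] (S : Submodule F[X] (ι → F[X]))
    (a : ℕ) (ξ : ι → F[X]) (hξ : ξ ∈ S)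
    (hn : ξ ∉ Submodule.span F[X] {v | v ∈ S ∧ ∀ i, (v i).natDegree ≤ a}) :
    ∃ s : Finset F, ∀ y ∉ s, ∀ w ∈ Submodule.span F[X] {v | v ∈ S ∧ ∀ i, (v i).natDegree ≤ a},
      ¬ ∀ i, eval y (ξ i) = eval y (w i) := by
  classical
  set W := Submodule.span F[X] {v | v ∈ S ∧ ∀ i, (v i).natDegree ≤ a} with hW
  have ht : W.mkQ ξ ∉ Submodule.torsion F[X] ((ι → F[X]) ⧸ W) := by
    rintro ⟨⟨h, hh⟩, e⟩
    refine hn (msa_sat S a ξ hξ h (nonZeroDivisors.ne_zero hh) ?_)
    rw [← hW, ← Submodule.Quotient.mk_eq_zero, Submodule.Quotient.mk_smul]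
    exact e
  obtain ⟨f, hf, -⟩ := Submodule.exists_dual_map_eq_bot_of_notMem ht inferInstance
  have key : ∀ (y : F) (v : ι → F[X]), eval y (f (W.mkQ v)) =
      ∑ i, eval y (v i) * eval y (f (W.mkQ fun j => if i = j then 1 else 0)) := by
    intro y v
    have := LinearMap.pi_apply_eq_sum_univ (f ∘ₗ W.mkQ) v
    simp only [LinearMap.comp_apply, smul_eq_mul] at this
    rw [this, eval_finsetSum]
    simp only [eval_mul]
  refine ⟨(f (W.mkQ ξ)).roots.toFinset, fun y hy w hw he => hy ?_⟩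
  rw [Multiset.mem_toFinset, mem_roots hf, IsRoot.def, key]
  have h0 : W.mkQ w = 0 := (Submodule.Quotient.mk_eq_zero W).mpr hw
  have := key y w
  rw [h0, map_zero, eval_zero] at this
  rw [this]
  exact Finset.sum_congr rfl fun i _ => by rw [he i]

section
variable {k : Type u} [Field k] {R : Type u} [Ring R] [Algebra k R]
  {F : Type u} [Field F] [Algebra k F]

/-- coordinates of a polynomial vector -/
noncomputable def msa_cz (A : FO k R F) (φ : A.X →ₗ[F] F) : (ℕ →₀ A.X) →ₗ[F] F[X] :=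
  Finsupp.lsum F fun l => monomial l ∘ₗ φ

theorem msa_cz_single (A : FO k R F) (φ : A.X →ₗ[F] F) (l : ℕ) (t : A.X) :
    msa_cz A φ (Finsupp.single l t) = monomial l (φ t) := by
  simp [msa_cz]

theorem msa_cz_coeff (A : FO k R F) (φ : A.X →ₗ[F] F) (z : ℕ →₀ A.X) (l : ℕ) :
    (msa_cz A φ z).coeff l = φ (z l) := by
  induction z using Finsupp.induction_linear with
  | zero => simp
  | add x y hx hy => simp [hx, hy]
  | single j t =>
    rw [msa_cz_single, coeff_monomial, Finsupp.single_apply]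
    split_ifs <;> simp

theorem msa_cz_shift (A : FO k R F) (φ : A.X →ₗ[F] F) (z : ℕ →₀ A.X) :
    msa_cz A φ (shift R A.X z) = X * msa_cz A φ z := by
  induction z using Finsupp.induction_linear with
  | zero => simp
  | add x y hx hy => simp [hx, hy, mul_add]
  | single j t => rw [shift_single, msa_cz_single, msa_cz_single, X_mul_monomial]

/-- evaluation of a polynomial vector -/
noncomputable def msa_ev (A : FO k R F) (y : F) : (ℕ →₀ A.X) →ₗ[F] A.X :=
  Finsupp.lsum F fun l => y ^ l • LinearMap.id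

theorem msa_ev_single (A : FO k R F) (y : F) (l : ℕ) (t : A.X) :
    msa_ev A y (Finsupp.single l t) = y ^ l • t := by
  simp [msa_ev]

theorem msa_ev_apply (A : FO k R F) (y : F) (z : ℕ →₀ A.X) :
    msa_ev A y z = z.sum fun l t => y ^ l • t := rfl

theorem msa_cz_ev (A : FO k R F) (φ : A.X →ₗ[F] F) (y : F) (z : ℕ →₀ A.X) :
    eval y (msa_cz A φ z) = φ (msa_ev A y z) := by
  induction z using Finsupp.induction_linear with
  | zero => simp
  | add x y hx hy => simp [hx, hy]
  | single j t => rw [msa_cz_single, msa_ev_single, eval_monomial, map_smul, smul_eq_mul, mul_comm]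

theorem msa_ev_push (B A : FO k R F) (g : B.X →ₗ[R] A.X) (hg : g ∈ HomF B A) (y : F)
    (z : ℕ →₀ B.X) : msa_ev A y (Finsupp.mapRange.linearMap g z) = g (msa_ev B y z) := by
  induction z using Finsupp.induction_linear with
  | zero => simp
  | add x y hx hy => simp only [map_add, hx, hy]
  | single j t =>
    rw [Finsupp.mapRange.linearMap_apply, Finsupp.mapRange_single, msa_ev_single, msa_ev_single,
      hg]

/-- the span of the shifts of the short solutions -/
noncomputable def msa_W (d : Fam R) (a : ℕ) (T : Md k R) : Submodule k (Fin d.n0 → ℕ →₀ T) :=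
  Submodule.span k {w | ∃ i : ℕ, ∃ z' ∈ Zle d a T, w = fun b => (shift R T ^ i) (z' b)}

theorem msa_D_map (d : Fam R) {T T' : Md k R} (g : T →ₗ[R] T') (z : Fin d.n0 → ℕ →₀ T)
    (hz : DX d T z = 0) : DX d T' (fun b => Finsupp.mapRange.linearMap g (z b)) = 0 := by
  have := Dop_nat (k := k) d (shift R T) (shift R T') (Finsupp.mapRange.linearMap g)
    (mapRange_shift g) z
  refine this.trans ?_
  funext a
  have e : Dop k d (shift R T) z = 0 := hz
  rw [e]
  simp

theorem msa_D_shift (d : Fam R) {T : Md k R} (z : Fin d.n0 → ℕ →₀ T)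
    (hz : DX d T z = 0) : DX d T (fun b => shift R T (z b)) = 0 := by
  have := Dop_nat (k := k) d (shift R T) (shift R T) (shift R T) rfl z
  refine this.trans ?_
  funext a
  have e : Dop k d (shift R T) z = 0 := hz
  rw [e]
  simp

theorem msa_map_pow {T T' : Md k R} (g : T →ₗ[R] T') (i : ℕ) (z : ℕ →₀ T) :
    Finsupp.mapRange.linearMap g ((shift R T ^ i) z) =
      (shift R T' ^ i) (Finsupp.mapRange.linearMap g z) := by
  induction i with
  | zero => simp
  | succ n ih =>
    rw [pow_succ', pow_succ', Module.End.mul_apply, Module.End.mul_apply, ← ih]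
    exact LinearMap.congr_fun (mapRange_shift g) _

theorem msa_W_map (d : Fam R) (a : ℕ) {T T' : Md k R} (g : T →ₗ[R] T') (z : Fin d.n0 → ℕ →₀ T)
    (hz : z ∈ msa_W d a T) : (fun b => Finsupp.mapRange.linearMap g (z b)) ∈ msa_W d a T' := by
  have : msa_W d a T ≤ (msa_W d a T').comap
      (LinearMap.compLeft ((Finsupp.mapRange.linearMap g).restrictScalars k) _) := by
    refine Submodule.span_le.mpr ?_
    rintro _ ⟨i, z', hz', rfl⟩
    refine Submodule.subset_span ⟨i, fun b => Finsupp.mapRange.linearMap g (z' b),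
      ⟨msa_D_map d g z' hz'.1, fun b l hl => ?_⟩, funext fun b => msa_map_pow g i (z' b)⟩
    simp [hz'.2 b l hl]
  exact this hz

theorem msa_W_shift (d : Fam R) (a : ℕ) {T : Md k R} (z : Fin d.n0 → ℕ →₀ T)
    (hz : z ∈ msa_W d a T) : (fun b => shift R T (z b)) ∈ msa_W d a T := by
  have : msa_W d a T ≤ (msa_W d a T).comap
      (LinearMap.compLeft ((shift R T).restrictScalars k) _) := by
    refine Submodule.span_le.mpr ?_
    rintro _ ⟨i, z', hz', rfl⟩
    refine Submodule.subset_span ⟨i + 1, z', hz', funext fun b => ?_⟩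
    rw [pow_succ']
    rfl
  exact this hz

/-- all coordinates -/
noncomputable def msa_co (d : Fam R) (A : FO k R F) {J : Type} (φ : J → A.X →ₗ[F] F) :
    (Fin d.n0 → ℕ →₀ A.X) →ₗ[F] (Fin d.n0 × J → F[X]) :=
  LinearMap.pi fun p => msa_cz A (φ p.2) ∘ₗ LinearMap.proj p.1

theorem msa_co_apply (d : Fam R) (A : FO k R F) {J : Type} (φ : J → A.X →ₗ[F] F)
    (z : Fin d.n0 → ℕ →₀ A.X) (p : Fin d.n0 × J) : msa_co d A φ z p = msa_cz A (φ p.2) (z p.1) :=
  rfl

theorem msa_co_shift (d : Fam R) (A : FO k R F) {J : Type} (φ : J → A.X →ₗ[F] F)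
    (z : Fin d.n0 → ℕ →₀ A.X) :
    msa_co d A φ (fun b => shift R A.X (z b)) = (X : F[X]) • msa_co d A φ z :=
  funext fun p => msa_cz_shift A (φ p.2) (z p.1)

theorem msa_smul_eq (d : Fam R) (A : FO k R F) (c : F) (z : Fin d.n0 → ℕ →₀ A.X) :
    c • z = fun b => Finsupp.mapRange.linearMap (A.act c) (z b) := by
  ext b l
  rfl

/-- the image of a stable subspace -/
noncomputable def msa_im (d : Fam R) (A : FO k R F) {J : Type} (φ : J → A.X →ₗ[F] F)
    (U : Submodule k (Fin d.n0 → ℕ →₀ A.X)) (h1 : ∀ (c : F), ∀ z ∈ U, c • z ∈ U)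
    (h2 : ∀ z ∈ U, (fun b => shift R A.X (z b)) ∈ U) : Submodule F[X] (Fin d.n0 × J → F[X]) where
  carrier := {v | ∃ z ∈ U, msa_co d A φ z = v}
  add_mem' := by
    rintro _ _ ⟨z, hz, rfl⟩ ⟨z', hz', rfl⟩
    exact ⟨z + z', U.add_mem hz hz', map_add _ _ _⟩
  zero_mem' := ⟨0, U.zero_mem, map_zero _⟩
  smul_mem' := by
    rintro p _ ⟨z, hz, rfl⟩
    induction p using Polynomial.induction_on with
    | C c =>
      refine ⟨c • z, h1 c z hz, ?_⟩
      rw [map_smul]
      funext i
      simp [smul_eq_C_mul]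
    | add p q hp hq =>
      obtain ⟨z1, hz1, e1⟩ := hp
      obtain ⟨z2, hz2, e2⟩ := hq
      exact ⟨z1 + z2, U.add_mem hz1 hz2, by rw [map_add, e1, e2, add_smul]⟩
    | monomial n c hp =>
      obtain ⟨z1, hz1, e1⟩ := hp
      refine ⟨_, h2 z1 hz1, ?_⟩
      rw [msa_co_shift, e1, smul_smul]
      congr 1
      ring

theorem msa_main (d : Fam R) (a : ℕ) (A : FO k R F) (hA : A.fd) (ξ : Fin d.n0 → ℕ →₀ A.X)
    (hξ : DX d A.X ξ = 0) (hn : ξ ∉ msa_W d a A.X) :
    ∃ s : Finset F, ∀ y ∉ s, ∀ w ∈ msa_W d a A.X,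
      ¬ ∀ b, msa_ev A y (ξ b) = msa_ev A y (w b) := by
  let e := Module.finBasis F A.X
  let φ : Fin (Module.finrank F A.X) → A.X →ₗ[F] F := fun j => e.coord j
  have hinj : ∀ z z', msa_co d A φ z = msa_co d A φ z' → z = z' := by
    intro z z' h
    ext b l
    refine e.ext_elem fun j => ?_
    have := congrArg (fun v => (v (b, j)).coeff l) h
    simp only [msa_co_apply, msa_cz_coeff] at this
    exact this
  let S := msa_im d A φ (LinearMap.ker (DX d A.X))
    (fun c z hz => by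
      rw [LinearMap.mem_ker, msa_smul_eq]
      exact msa_D_map d _ z hz)
    (fun z hz => msa_D_shift d z hz)
  let W := msa_im d A φ (msa_W d a A.X)
    (fun c z hz => by
      rw [msa_smul_eq]
      exact msa_W_map d a _ z hz)
    (fun z hz => msa_W_shift d a z hz)
  have h1 : Submodule.span F[X] {v | v ∈ S ∧ ∀ i, (v i).natDegree ≤ a} ≤ W := by
    refine Submodule.span_le.mpr ?_
    rintro _ ⟨⟨z, hz, rfl⟩, hd⟩
    refine ⟨z, Submodule.subset_span ⟨0, z, ⟨hz, fun b l hl => ?_⟩, by simp⟩, rfl⟩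
    refine e.ext_elem fun j => ?_
    have := coeff_eq_zero_of_natDegree_lt ((hd (b, j)).trans_lt hl)
    rw [msa_co_apply, msa_cz_coeff] at this
    simpa [φ] using this
  have h2 : ∀ w ∈ msa_W d a A.X,
      msa_co d A φ w ∈ Submodule.span F[X] {v | v ∈ S ∧ ∀ i, (v i).natDegree ≤ a} := by
    intro w hw
    induction hw using Submodule.span_induction with
    | mem w hw =>
      obtain ⟨i, z, hz, rfl⟩ := hw
      induction i with
      | zero =>
        refine Submodule.subset_span ⟨⟨_, ?_, rfl⟩, fun p => ?_⟩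
        · simpa using hz.1
        · rw [natDegree_le_iff_coeff_eq_zero]
          intro l hl
          rw [msa_co_apply, msa_cz_coeff]
          simp [hz.2 p.1 l hl]
      | succ n ih =>
        have e1 : (fun b => (shift R A.X ^ (n + 1)) (z b)) =
            fun b => shift R A.X ((shift R A.X ^ n) (z b)) := by
          funext b
          rw [pow_succ']
          rfl
        rw [e1, msa_co_shift]
        exact Submodule.smul_mem _ _ ih
    | zero => rw [map_zero]; exact Submodule.zero_mem _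
    | add x y _ _ hx hy => rw [map_add]; exact Submodule.add_mem _ hx hy
    | smul c x _ hx =>
      rw [LinearMap.map_smul_of_tower, ← algebraMap_smul F[X]]
      exact Submodule.smul_mem _ _ hx
  obtain ⟨s, hs⟩ := msa_fun S a (msa_co d A φ ξ) ⟨ξ, hξ, rfl⟩ (fun h => by
    obtain ⟨z, hz, e1⟩ := h1 h
    exact hn (hinj _ _ e1 ▸ hz))
  refine ⟨s, fun y hy w hw he => hs y hy _ (h2 w hw) fun p => ?_⟩
  rw [msa_co_apply, msa_co_apply, msa_cz_ev, msa_cz_ev, he]

theorem msa_lam (y : F) (l : ℕ) :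
    lamQ (Jmonic y 1) (Qmk ((X - C y) ^ 1) (X ^ l) * (1 : QT ((X - C y) ^ 1))) = y ^ l := by
  rw [mul_one, lamQ_mk]
  simp only [pow_one, modByMonic_X_sub_C_eq_C_eval, natDegree_X_sub_C, Nat.sub_self, coeff_C_zero,
    eval_pow, eval_X]

theorem msa_res (d : Fam R) (y : F) (A : FO k R F) (f : M d (J k y 1).V →ₗ[R] A.X)
    (z : Fin d.n0 → ℕ →₀ A.X) (h : IsRes d (Jmonic y 1) A f z) (b : Fin d.n0) :
    f (gen d (J k y 1).V b (1 : JT y 1)) = msa_ev A y (z b) := by
  rw [h b, msa_ev_apply]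
  simp only [msa_lam]

end

theorem msa_step {k : Type u} [Field k] {R : Type u} [Ring R] [Algebra k R]
    [FiniteDimensional k R] (L : Lib k) (d : Fam R) (a : ℕ) (Q : Md k R) (hQ : Q.fd)
    (hs : Short d a Q) {F : Type u} [Field F] [Algebra k F] (B : FO k R F) (hB : CC Q B.X)
    (y : F) (hy : Transcendental k y) (f : M d (J k y 1).V →ₗ[R] B.X)
    (hf : f ∈ HomF (MF d (J k y 1)) B) :
    ∃ z ∈ msa_W d a B.X, ∀ b, f (gen d (J k y 1).V b (1 : JT y 1)) = msa_ev B y (z b) := by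
  obtain ⟨g, hg, hinj⟩ := L.notor R d Q hQ
  have hi := hinj F B hB y (fun h => hy ⟨g, hg, h⟩)
  have h0 : Bock d (J k y 1).V f (1 : JT y 1) = 0 := by
    apply hi
    have e1 := (L.bock R).emap_piE F d y (MF d (J k y 1)) B f hf 1 (eJ d y 1)
    rw [(L.bock R).ej_zero F d y 1, map_zero, pow_one] at e1
    rw [map_zero, (L.bock R).eq]
    exact e1.symm
  obtain ⟨z, hz, hr⟩ := (L.rep R).ker F d B _ (Jmonic y 1) f hf h0
  exact ⟨z, (L.cc R).short d a Q B.X hB hs z hz, msa_res d y B f z hr⟩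

theorem t_MSA (k : Type u) [Field k] [IsAlgClosed k] (R : Type u) [Ring R] [Algebra k R]
    [FiniteDimensional k R]
    (L : Lib k) :
    S_MSA k R := by
  intro d e a hsh F _ _ A hA hn
  obtain ⟨ξ, hξ, hn⟩ : ∃ ξ, DX d A.X ξ = 0 ∧ ξ ∉ msa_W d a A.X := by
    by_contra h
    exact hn fun z hz => by_contra fun hz' => h ⟨z, hz, hz'⟩
  obtain ⟨s, hs⟩ := msa_main d a A hA ξ hξ hn
  refine ⟨s, fun y hy hty => ?_⟩
  obtain ⟨f, hf, hr, -⟩ := (L.rep R).res F d A _ (Jmonic y 1) ξ hξ
  obtain ⟨g, g', hg, hg', -, e2, -, -⟩ := (L.id R).one_J F y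
  refine ⟨f ∘ₗ (MN d).map g', HomF.comp hf ((MN d).map_mem g' hg'), fun hq => ?_⟩
  have hq2 := (L.qq R).r F e (MF d (J k y 1)) (MF d (one k y)) A _ hq _ ((MN d).map_mem g hg)
  have e3 : (f ∘ₗ (MN d).map g') ∘ₗ (MN d).map g = f := by
    rw [LinearMap.comp_assoc, ← (MN d).map_comp, e2, (MN d).map_id, LinearMap.comp_id]
  rw [e3] at hq2
  obtain ⟨n, m, α, β, hα, hβ, e4⟩ := (L.qq R).sum F e (MF d (J k y 1)) A f hq2
  have hz := fun i => msa_step L d a ((Tn e (m i)).obj (T0 k R))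
    ((L.fd R).tnk e (m i) _ (L.fd R).t0k) (hsh (m i)) ((Tn e (m i)).onF (T0F k R F))
    ((L.cc R).tn e (m i) _ _ ((L.cc R).t0 _)) y hty (α i) (hα i)
  choose z hz hz' using hz
  refine hs y hy (∑ i, fun b => Finsupp.mapRange.linearMap (β i) (z i b))
    (Submodule.sum_mem _ fun i _ => msa_W_map d a (β i) (z i) (hz i)) fun b => ?_
  rw [← msa_res d y A f ξ hr b, Finset.sum_apply, map_sum, e4, LinearMap.sum_apply]
  refine Finset.sum_congr rfl fun i _ => ?_
  rw [msa_ev_push _ A (β i) (hβ i), ← hz' i b]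
  rfl

theorem t_MSC (k : Type u) [Field k] [IsAlgClosed k] (R : Type u) [Ring R] [Algebra k R]
    [FiniteDimensional k R]
    (L : Lib k) :
    S_MSC k R := by
  intro d p e a hex F _ _ A B f hf u hu
  obtain ⟨n, m, α, β, -, -, rfl⟩ := (L.qq R).sum F e A B f hf
  rw [map_sum, LinearMap.sum_apply, map_sum]
  refine Finset.sum_eq_zero fun i _ => ?_
  have h1 := (L.cc R).expo d p a _ _ ((L.cc R).tn e (m i) _ _ ((L.cc R).t0 (one k (0 : F)).V))
    (hex (m i))
  obtain ⟨N, hN⟩ := hu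
  have h2 := h1 (Emap d (α i) u) ⟨N, by rw [← (L.bock R).emap_piK, hN, map_zero]⟩
  rw [Emap_comp, LinearMap.comp_apply, ← (L.bock R).emap_piK, h2, map_zero]

end Pool.Agent.P.MP_cf639b_al
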