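import Pool.Agent.P.MP_cf639b_al.IfO
import Pool.Agent.P.MP_cf639b_al.IfF

set_option linter.dupNamespace false

namespace Pool.Agent.P.MP_cf639b_al

universe u v
open TensorProduct Polynomial Function

noncomputable section

section
variable {k : Type u} [Field k] {R : Type u} [Ring R] [Algebra k R] {K : Type u} [Field K]
  [Algebra k K]

theorem ocmp_gen (d : Fam R) (y c v : K) (b : Fin d.n0) :
    (MF d (one k y)).act c (gen d (one k y).V b v) = gen d (one k y).V b (c * v) :=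
  map_gen d ((one k y).sc c) b v

theorem ocmp_pol (d : Fam R) (y : K) (H : k[X]) :
    (MN d).map (XH.pol (one k y).V H) = (MF d (one k y)).act (aeval y H) :=
  congrArg (MN d).map (Subtype.ext (aeval_algHom_apply (Algebra.lmul k K) y H))

theorem ocmp_cmp [FiniteDimensional k R] (hV : S_OVAL k R) {d : Fam R} {t : K}
    (ht : Transcendental k t⁻¹) {Φ : AFun k R} (P : Tr d Φ) (P' : Tr d.rev Φ) {H H' : k[X]}
    (hH : H' ≠ 0) (ρ : M d (one k t).V →ₗ[R] M d.rev (one k t⁻¹).V)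
    (ρ' : M d.rev (one k t⁻¹).V →ₗ[R] M d (one k t).V)
    (h1 : ∀ b v, ρ (gen d (one k t).V b v) = gen d.rev (one k t⁻¹).V b v)
    (h2 : ∀ b v, ρ' (gen d.rev (one k t⁻¹).V b v) = gen d (one k t).V b v)
    (a : M d (one k t).V →ₗ[R] Φ.obj (M d (one k t).V))
    (ha : a ∈ HomF (MF d (one k t)) (Φ.onF (MF d (one k t))))
    (e1 : P.A (one k t).V = Φ.map ((MN d).map (XH.pol _ H)) ∘ₗ a)
    (e2 : P'.A (one k t⁻¹).V = Φ.map ((MN d.rev).map (XH.pol _ H')) ∘ₗ Φ.map ρ ∘ₗ a ∘ₗ ρ') :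
    Cmp t P P' H H' := by
  intro T ξ η c e
  have hne : aeval t⁻¹ H' ≠ 0 := fun e => ht ⟨H', hH, e⟩
  have key : val d (Φ.obj T) t (P.t T ξ) =
      ((aeval t⁻¹ H')⁻¹ * (aeval t H * c)) • val d.rev (Φ.obj T) t⁻¹ (P'.t T η) := by
    rw [hV.evm] at e ⊢
    intro μ b v
    rw [P.spec, P'.spec, e1, e2, ocmp_pol, ocmp_pol]
    have e3 : evm d (one k t).V μ T ξ ∘ₗ (MF d (one k t)).act (aeval t H) =
        evm d.rev (one k t⁻¹).V μ T η ∘ₗ (MF d.rev (one k t⁻¹)).act (aeval t⁻¹ H') ∘ₗ ρ ∘ₗ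
          (MF d (one k t)).act ((aeval t⁻¹ H')⁻¹ * (aeval t H * c)) := M_ext fun b v => by
      simp only [LinearMap.comp_apply]
      rw [ocmp_gen, ocmp_gen, e, h1, ocmp_gen]
      congr 2
      generalize aeval t⁻¹ H' = w at hne
      field_simp
    have e4 := LinearMap.congr_fun (mem_HomF'.mp ha ((aeval t⁻¹ H')⁻¹ * (aeval t H * c)))
      (gen d (one k t).V b v)
    simp only [LinearMap.comp_apply] at e4 ⊢
    rw [h2, ← ocmp_gen, e4]
    have e5 := LinearMap.congr_fun (congrArg Φ.map e3) (a (gen d (one k t).V b v))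
    simp only [Φ.map_comp, LinearMap.comp_apply] at e5
    exact e5
  rw [key, smul_smul, ← mul_assoc, mul_inv_cancel₀ hne, one_mul]

variable [FiniteDimensional k R]

theorem ocmp_it {d : Fam R} {t : K} {A : AK k d t} (N : NA A) (e : Bool) (P : Tr d (Te e))
    (hP : ∀ V, P.A V = (N.a e).app V) (V : XV k) (s : ℕ) :
    (⟨((Te e).it s).obj (M d V), (P.pow s).A V⟩ : Σ T : Md k R, M d V →ₗ[R] T) =
      ⟨(Tn e s).obj (M d V), N.it e V s⟩ := by
  induction s with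
  | zero => rfl
  | succ s ih =>
    refine P.pow_succ' s (fun Ψ Q => (⟨Ψ.obj (M d V), Q.A V⟩ : Σ T : Md k R, M d V →ₗ[R] T) =
      ⟨(Tn e (s + 1)).obj (M d V), N.it e V (s + 1)⟩) ?_
    refine (congrArg (fun S : Σ T : Md k R, M d V →ₗ[R] T =>
      (⟨(Te e).obj S.1, (Te e).map S.2 ∘ₗ P.A V⟩ : Σ T : Md k R, M d V →ₗ[R] T)) ih).trans ?_
    rw [hP]
    rfl

theorem ocmp_td (hTEN : S_TEN k R) (hX : S_OTREX k R) (hL : S_OLC k R) {d : Fam R} {t : K}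
    {A : AK k d t} (N : NA A)
    (hW : ∀ p : k, ∃ c : ℕ, ∀ s : ℕ, ∃ n o n' o' : ℕ, o ≤ n ∧ o' ≤ n' ∧
      (piK d p _ ^ o) (Emap d (N.it true (J k p n).V s) (eJ d p n)) = 0 ∧
      (piK d p _ ^ o') (Emap d (N.it false (J k p n').V s) (eJ d p n')) = 0 ∧
      s * rootMultiplicity p (N.hp * N.hm) + o + o' ≤ n + n' + c) :
    ∃ D : TD k d, (∀ V, D.Pp.A V = N.ap.app V) ∧ (∀ V, D.Pm.A V = N.am.app V) ∧ D.hp = N.hp ∧
      D.hm = N.hm ∧ WINc D := by
  obtain ⟨Pp, hp⟩ := hX d Tp (fun Q => (hTEN true Q k[X]).2) N.ap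
  obtain ⟨Pm, hm⟩ := hX d Tm (fun Q => (hTEN false Q k[X]).2) N.am
  refine ⟨⟨Pp, Pm, N.hp, N.hm, N.hp0, N.hm0, N.Q, N.fd, N.c, N.b, N.Q', N.fd', N.c', N.b',
    fun V => ?_, fun V => ?_⟩, hp, hm, rfl, rfl, fun p => ?_⟩
  · rw [Tr.cA, hp, hm]; exact N.ep V
  · rw [Tr.cA, hp, hm]; exact N.em V
  obtain ⟨c, hc⟩ := hW p
  refine ⟨c, fun s => ?_⟩
  obtain ⟨n, o, n', o', h1, h2, h3, h4, h5⟩ := hc s
  refine ⟨n - o, n' - o', hL.core d _ _ p n o h1 ?_, hL.core d _ _ p n' o' h2 ?_, ?_⟩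
  · exact (congrArg (fun S : Σ T : Md k R, M d (J k p n).V →ₗ[R] T =>
      (piK d p S.1 ^ o) (Emap d S.2 (eJ d p n)) = 0) (ocmp_it N true Pp hp _ s)).mpr h3
  · exact (congrArg (fun S : Σ T : Md k R, M d (J k p n').V →ₗ[R] T =>
      (piK d p S.1 ^ o') (Emap d S.2 (eJ d p n')) = 0) (ocmp_it N false Pm hm _ s)).mpr h4
  · change s * rootMultiplicity p (N.hp * N.hm) ≤ _
    omega
end

theorem t_OCMP (k : Type u) [Field k] [IsAlgClosed k] (R : Type u) [Ring R] [Algebra k R]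
    [FiniteDimensional k R] (L : Lib k) (hrev : S_CKrev k R) (hAK : S_AK k R) (hNA : S_NA k R)
    (hW : S_WINX k R) (hX : S_OTREX k R) (hV : S_OVAL k R) (hL : S_OLC k R) : S_OCMP k R := by
  intro d K _ _ t ht hC
  have ht' := L.aut.gen_inv K t ht
  have h0 : t ≠ 0 := fun e => ht.1 ⟨X, X_ne_zero, by simp [e]⟩
  obtain ⟨A⟩ := hAK d K t ht hC
  obtain ⟨ρ0, ρ0', r1, r2, r3, r4⟩ := hV.rho d (one k t).V (LinearMap.mulLeft k t⁻¹)
    (LinearMap.ext fun z => by simp [h0]) (LinearMap.ext fun z => by simp [h0])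
  let ρ : M d (one k t).V →ₗ[R] M d.rev (one k t⁻¹).V := ρ0
  let ρ' : M d.rev (one k t⁻¹).V →ₗ[R] M d (one k t).V := ρ0'
  have h1 : ∀ b v, ρ (gen d (one k t).V b v) = gen d.rev (one k t⁻¹).V b v := r1
  have h2 : ∀ b v, ρ' (gen d.rev (one k t⁻¹).V b v) = gen d (one k t).V b v := r2
  have h3 : ρ' ∘ₗ ρ = LinearMap.id := r3
  have h4 : ρ ∘ₗ ρ' = LinearMap.id := r4
  have m1 : ρ ∈ HomF (MF d (one k t)) (MF d.rev (one k t⁻¹)) := mem_HomF'.mpr fun c =>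
    M_ext fun b v => by
      simp only [LinearMap.comp_apply]
      rw [ocmp_gen, h1, h1, ocmp_gen]
  have m2 : ρ' ∈ HomF (MF d.rev (one k t⁻¹)) (MF d (one k t)) := mem_HomF'.mpr fun c =>
    M_ext fun b v => by
      simp only [LinearMap.comp_apply]
      rw [ocmp_gen, h2, h2, ocmp_gen]
  have i3 : ∀ (Φ : AFun k R) z, Φ.map ρ' (Φ.map ρ z) = z := fun Φ z => by
    rw [← LinearMap.comp_apply, ← Φ.map_comp, h3, Φ.map_id]; rfl
  have i4 : ∀ z, ρ (ρ' z) = z := LinearMap.congr_fun h4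
  let A' : AK k d.rev t⁻¹ :=
    { ap := Tp.map ρ ∘ₗ A.ap ∘ₗ ρ'
      am := Tm.map ρ ∘ₗ A.am ∘ₗ ρ'
      memp := HomF.comp (Tp.map_mem m1) (HomF.comp A.memp m2)
      memm := HomF.comp (Tm.map_mem m1) (HomF.comp A.memm m2)
      pm := by
        have := (L.cst R).l K _ _ (MF d.rev (one k t⁻¹)) _
          ((L.cst R).r K (MF d.rev (one k t⁻¹)) _ _ _ A.pm ρ' m2) ρ m1
        refine (congrArg (Cst _ _) (LinearMap.ext fun z => ?_)).mp this
        have e := fun w => LinearMap.congr_fun ((L.id R).eps_nat _ _ ρ) w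
        simp only [LinearMap.comp_apply] at e
        simp only [LinearMap.comp_apply, LinearMap.sub_apply, map_sub, LinearMap.id_apply,
          Tm.map_comp, i3, i4, e]
      mp := by
        have := (L.cst R).l K _ _ (Tp.onF (Tm.onF (MF d.rev (one k t⁻¹)))) _
          ((L.cst R).r K (MF d.rev (one k t⁻¹)) _ _ _ A.mp ρ' m2) (Tp.map (Tm.map ρ))
          (Tp.map_mem (A := Tm.onF (MF d (one k t))) (B := Tm.onF (MF d.rev (one k t⁻¹)))
            (Tm.map_mem (A := MF d (one k t)) (B := MF d.rev (one k t⁻¹)) m1))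
        refine (congrArg (Cst _ _) (LinearMap.ext fun z => ?_)).mp this
        have e := fun w => LinearMap.congr_fun ((L.id R).eta_nat _ _ ρ) w
        simp only [LinearMap.comp_apply] at e
        simp only [LinearMap.comp_apply, LinearMap.sub_apply, map_sub, Tp.map_comp, i3, ← e, i4] }
  obtain ⟨N⟩ := hNA d K t ht A
  obtain ⟨N'⟩ := hNA d.rev K t⁻¹ ht' A'
  obtain ⟨D, a1, a2, a3, a4, a5⟩ := ocmp_td (L.ten R) hX hL N (hW d K t ht hC A N)
  obtain ⟨D', b1, b2, b3, b4, b5⟩ := ocmp_td (L.ten R) hX hL N'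
    (hW d.rev K t⁻¹ ht' (hrev d K t ht hC) A' N')
  refine ⟨D, D', ?_, ?_, a5, b5⟩
  · exact ocmp_cmp hV ht'.1 _ _ D'.hp0 ρ ρ' h1 h2 A.ap A.memp (by rw [a1, a3]; exact N.genp)
      (by rw [b1, b3]; exact N'.genp)
  · exact ocmp_cmp hV ht'.1 _ _ D'.hm0 ρ ρ' h1 h2 A.am A.memm (by rw [a2, a4]; exact N.genm)
      (by rw [b2, b4]; exact N'.genm)

end
end Pool.Agent.P.MP_cf639b_al
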