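import Pool.Agent.P.MP_cf639b_al.IfO

set_option linter.dupNamespace false

namespace Pool.Agent.P.MP_cf639b_al

universe u v
open TensorProduct Polynomial Function

section aux
variable {k : Type u} [Field k] {R : Type u} [Ring R] [Algebra k R]

/-- a polynomial is its constant term plus a shifted polynomial -/
theorem otw_split {T : Type u} [AddCommGroup T] [Module R T] (z : ℕ →₀ T) :
    ∃ z' : ℕ →₀ T, (∀ l, z' l = z (l + 1)) ∧ z = Finsupp.single 0 (z 0) + shift R T z' := by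
  refine ⟨Finsupp.comapDomain Nat.succ z Nat.succ_injective.injOn, fun _ => rfl, ?_⟩
  ext l
  cases l with
  | zero => simp [shift_apply_zero]
  | succ l => simp [shift_apply_succ]

/-- division of a solution by `X` -/
theorem otw_down {d : Fam R} {T : Md k R} (η : ZZ d T) (h : ∀ b, ZZ.v η b 0 = 0) :
    ∃ η' : ZZ d T, η = (X : k[X]) • η' ∧ ∀ b l, ZZ.v η' b l = ZZ.v η b (l + 1) := by
  choose z hz hz' using fun b => otw_split (R := R) (ZZ.v η b)
  have e : ∀ b, shift R T (z b) = ZZ.v η b := fun b => by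
    rw [hz' b, h b, Finsupp.single_zero, zero_add]
  have hs : DX d T z = 0 := by
    have h1 := Dop_nat (k := k) d (shift R T) (shift R T) (shift R T) rfl z
    have h2 : (fun b => shift R T (z b)) = ZZ.v η := funext e
    rw [h2] at h1
    have h3 : (fun a => shift R T (DX d T z a)) = 0 := h1.symm.trans η.sol
    funext a
    ext l
    have h4 := congrArg (fun w => w a (l + 1)) h3
    simpa [shift_apply_succ] using h4
  exact ⟨ZZ.mk z hs, ZZ.v_inj (funext fun b => by rw [ZZ.v_X, ZZ.v_mk, e]), hz⟩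

theorem otw_ind {d : Fam R} {Q T : Md k R} {a : ℕ} {ζ : ZZ d Q} (hζ : ζ ∈ Zd d a Q) (n : ℕ) :
    ∀ (g : ℕ → Q →ₗ[R] T) (ξ : ZZ d T), ξ ∈ Zd d (a + n) T →
      (∀ b l, ZZ.v ξ b l = ∑ j ∈ Finset.range (l + 1), g j (ZZ.v ζ b (l - j))) →
      ξ ∈ Zs d a T := by
  induction n with
  | zero => exact fun _ _ h _ => Zd_le_Zs h
  | succ n ih =>
    intro g ξ hξ h
    obtain ⟨η, e, hη⟩ := otw_down (ξ - zmap d (g 0) ζ) fun b => by
      rw [map_sub, Pi.sub_apply, Finsupp.sub_apply, v_zmap, h]; simp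
    have h1 : η ∈ Zs d a T := by
      refine ih (fun j => g (j + 1)) η (fun b l hl => ?_) fun b l => ?_
      · rw [hη, map_sub, Pi.sub_apply, Finsupp.sub_apply, v_zmap, hξ b _ (by omega),
          hζ b _ (by omega), map_zero, sub_zero]
      · rw [hη, map_sub, Pi.sub_apply, Finsupp.sub_apply, v_zmap, h, Finset.sum_range_succ']
        simp
    rw [sub_eq_iff_eq_add.mp e]
    exact add_mem (Submodule.smul_mem _ _ h1) (Zd_le_Zs (Zd_zmap _ hζ))

theorem otw_conv {Q T : Type u} [AddCommGroup Q] [Module R Q] [AddCommGroup T] [Module R T]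
    (H : ℕ → (ℕ →₀ Q) →ₗ[R] T) (h0 : ∀ z, H 0 (shift R Q z) = 0)
    (h1 : ∀ l z, H (l + 1) (shift R Q z) = H l z) (l : ℕ) (z : ℕ →₀ Q) :
    H l z = ∑ j ∈ Finset.range (l + 1), H j (Finsupp.single 0 (z (l - j))) := by
  induction l generalizing z with
  | zero =>
    obtain ⟨z', -, e⟩ := otw_split (R := R) z
    conv_lhs => rw [e]
    rw [map_add, h0]; simp
  | succ l ih =>
    obtain ⟨z', hz, e⟩ := otw_split (R := R) z
    conv_lhs => rw [e]
    rw [map_add, h1, ih, Finset.sum_range_succ _ (l + 1), add_comm, Nat.sub_self]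
    congr 1
    refine Finset.sum_congr rfl fun j hj => ?_
    rw [hz, show l - j + 1 = l + 1 - j from by have := Finset.mem_range.mp hj; omega]

/-- the polynomial with given coefficients -/
noncomputable def otw_psi (Q : Md k R) : (ℕ →₀ Q) →ₗ[R] (TenN Q).obj (V0 k) :=
  Finsupp.lsum ℕ fun l => tmr Q k[X] (X ^ l)
theorem otw_psi_single (Q : Md k R) (l : ℕ) (q : Q) :
    otw_psi Q (Finsupp.single l q) = q ⊗ₜ[k] (X ^ l : k[X]) :=
  Finsupp.lsum_single ℕ _ l q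
theorem otw_psi_shift (Q : Md k R) (z : ℕ →₀ Q) :
    otw_psi Q (shift R Q z) = (TenN Q).map (XH.pol (V0 k) X) (otw_psi Q z) := by
  induction z using Finsupp.induction_linear with
  | zero => simp
  | add x y hx hy => simp only [map_add, hx, hy]
  | single l q =>
    rw [shift_single, otw_psi_single, otw_psi_single]
    change _ = q ⊗ₜ[k] (aeval (LinearMap.mulLeft k (X : k[X])) (X : k[X]) (X ^ l : k[X]))
    rw [aeval_X, pow_succ']; rfl
theorem otw_psi_surj (Q : Md k R) : Surjective (otw_psi Q) := by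
  intro (w : Q ⊗[k] k[X])
  induction w using TensorProduct.induction_on with
  | zero => exact ⟨0, map_zero _⟩
  | add x y hx hy =>
    obtain ⟨x, rfl⟩ := hx
    obtain ⟨y, rfl⟩ := hy
    exact ⟨x + y, map_add _ _ _⟩
  | tmul q p =>
    induction p using Polynomial.induction_on' with
    | add p p' hp hp' =>
      obtain ⟨x, hx⟩ := hp
      obtain ⟨y, hy⟩ := hp'
      exact ⟨x + y, by rw [map_add, hx, hy, tmul_add]; rfl⟩
    | monomial l c =>
      exact ⟨Finsupp.single l (c • q), by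
        rw [otw_psi_single, smul_tmul, smul_X_eq_monomial]⟩
theorem otw_psi_inj (Q : Md k R) (z : ℕ →₀ Q) (h : otw_psi Q z = 0) : z = 0 := by
  have key : ∀ (l : ℕ) (z : ℕ →₀ Q), TensorProduct.rid k Q
      (LinearMap.lTensor Q (lcoeff k l) (otw_psi Q z : Q ⊗[k] k[X])) = z l := by
    intro l z
    induction z using Finsupp.induction_linear with
    | zero =>
      rw [(otw_psi Q).map_zero]
      exact (congrArg _ (map_zero _)).trans (map_zero _)
    | add x y hx hy =>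
      rw [(otw_psi Q).map_add, Finsupp.add_apply, ← hx, ← hy]
      exact (congrArg _ (map_add _ _ _)).trans (map_add _ _ _)
    | single m q =>
      rw [otw_psi_single, LinearMap.lTensor_tmul, TensorProduct.rid_tmul, lcoeff_apply,
        coeff_X_pow, Finsupp.single_apply]
      split_ifs <;> first | (exfalso; omega) | simp
  ext l
  rw [← key, h]
  exact (congrArg _ (map_zero _)).trans (map_zero _)

/-- solutions which factor through a constant functor are short -/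
theorem otw_csh (d : Fam R) (Q : Md k R) (c : NT (MN (k := k) d) (TenN Q)) :
    ∃ a : ℕ, ∀ (T : Md k R) (ξ : ZZ d T) (G : ℕ → (TenN Q).obj (V0 k) →ₗ[R] T),
      G 0 ∘ₗ (TenN Q).map (XH.pol (V0 k) X) = 0 →
      (∀ l, G (l + 1) ∘ₗ (TenN Q).map (XH.pol (V0 k) X) = G l) →
      (∀ l, evm d (V0 k) (lcoeff k l) T ξ = G l ∘ₗ c.app (V0 k)) → ξ ∈ Zs d a T := by
  choose z hz using fun b => otw_psi_surj Q (c.app (V0 k) (gen d (V0 k) b (1 : k[X])))
  have hp : ∀ b i, otw_psi Q ((shift R Q ^ i) (z b)) =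
      c.app (V0 k) (gen d (V0 k) b (((V0 k).x ^ i) (1 : k[X]))) := by
    intro b i
    induction i with
    | zero => simpa using hz b
    | succ i ih =>
      rw [pow_succ', Module.End.mul_apply, otw_psi_shift, ih]
      refine (LinearMap.congr_fun (c.nat (XH.pol (V0 k) X)) _).trans ?_
      rw [LinearMap.comp_apply, map_gen, XH.pol_val, aeval_X, pow_succ', Module.End.mul_apply]
  have hs : DX d Q z = 0 := by
    funext a
    refine otw_psi_inj Q _ ?_
    have h := congrArg (c.app (V0 k)) (gen_rel d (V0 k) a (1 : k[X]))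
    simpa only [Dop_apply, map_sum, map_smul, hp, map_zero] using h
  obtain ⟨a, ha⟩ := exists_Zd (ZZ.mk z hs)
  refine ⟨a, fun T ξ G h0 h1 h => ?_⟩
  obtain ⟨n, hn⟩ := exists_Zd ξ
  refine otw_ind ha n (fun j => G j ∘ₗ otw_psi Q ∘ₗ Finsupp.lsingle 0) ξ
    (Zd_mono (by omega) hn) fun b l => ?_
  rw [← evm_V0_one, h, LinearMap.comp_apply, ← hz]
  exact otw_conv (fun l => G l ∘ₗ otw_psi Q)
    (fun w => (congrArg (G 0) (otw_psi_shift Q w)).trans (LinearMap.congr_fun h0 _))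
    (fun l w => (congrArg (G (l + 1)) (otw_psi_shift Q w)).trans (LinearMap.congr_fun (h1 l) _))
    l (z b)

theorem otw_ev0 {d : Fam R} {T : Md k R} (ξ : ZZ d T) :
    evm d (V0 k) (lcoeff k 0) T ξ ∘ₗ (MN d).map (XH.pol (V0 k) X) = 0 := by
  rw [evm_map]
  have e : lcoeff k 0 ∘ₗ (XH.pol (V0 k) X).1 = 0 := LinearMap.ext fun p => by
    rw [XH.pol_val, aeval_X]
    exact coeff_X_mul_zero p
  rw [e]
  exact M_ext fun b v => by rw [evm_gen, ctr_apply]; simp
theorem otw_ev1 {d : Fam R} {T : Md k R} (ξ : ZZ d T) (l : ℕ) :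
    evm d (V0 k) (lcoeff k (l + 1)) T ξ ∘ₗ (MN d).map (XH.pol (V0 k) X) =
      evm d (V0 k) (lcoeff k l) T ξ := by
  rw [evm_map]
  have e : lcoeff k (l + 1) ∘ₗ (XH.pol (V0 k) X).1 = lcoeff k l := LinearMap.ext fun p => by
    rw [XH.pol_val, aeval_X]
    exact coeff_X_mul p l
  rw [e]

/-- the version with a functor -/
theorem otw_csh' (d : Fam R) (Q : Md k R) (c : NT (MN (k := k) d) (TenN Q)) (Ψ : AFun k R)
    (b : NT (TenN Q) ((MN d).post Ψ)) :
    ∃ a : ℕ, ∀ (T : Md k R) (ξ : ZZ d T) (ω : ZZ d (Ψ.obj T)),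
      (∀ l, evm d (V0 k) (lcoeff k l) _ ω =
        Ψ.map (evm d (V0 k) (lcoeff k l) T ξ) ∘ₗ b.app (V0 k) ∘ₗ c.app (V0 k)) →
      ω ∈ Zs d a (Ψ.obj T) := by
  obtain ⟨a, ha⟩ := otw_csh d Q c
  refine ⟨a, fun T ξ ω h => ha _ ω
    (fun l => Ψ.map (evm d (V0 k) (lcoeff k l) T ξ) ∘ₗ b.app (V0 k)) ?_ (fun l => ?_) h⟩
  · rw [LinearMap.comp_assoc, ← b.nat, ← LinearMap.comp_assoc]
    change (Ψ.map _ ∘ₗ Ψ.map _) ∘ₗ _ = _
    rw [← Ψ.map_comp, otw_ev0, map_zero, LinearMap.zero_comp]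
  · rw [LinearMap.comp_assoc, ← b.nat, ← LinearMap.comp_assoc]
    change (Ψ.map _ ∘ₗ Ψ.map _) ∘ₗ _ = _
    rw [← Ψ.map_comp, otw_ev1]

variable [FiniteDimensional k R]

theorem otw_rp (L : Lib k) {d : Fam R} (D : TD k d) : ∃ a, RPc D a := by
  obtain ⟨a, ha⟩ := otw_csh' d D.Q D.c AFun.id ⟨D.b.app, D.b.nat⟩
  refine ⟨a, fun T ξ => ha T ξ _ fun l => ?_⟩
  change evm d (V0 k) (lcoeff k l) T _ = _
  rw [map_sub, evm_zmap, Tr.cA_spec, ← LinearMap.comp_assoc, ← (L.id R).eps_nat,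
    LinearMap.comp_assoc, D.ep, evm_smul, LinearMap.comp_add, add_sub_cancel_left]
  rfl

theorem otw_rm (L : Lib k) {d : Fam R} (D : TD k d) : ∃ a, ∀ (T : Md k R) (ξ : ZZ d T),
    D.Pp.t _ (D.Pm.t T ξ) - (D.hp * D.hm) • zmap d (eta T) ξ ∈ Zs d a (Tp.obj (Tm.obj T)) := by
  obtain ⟨a, ha⟩ := otw_csh' d D.Q' D.c' (Tp.comp Tm) ⟨D.b'.app, D.b'.nat⟩
  refine ⟨a, fun T ξ => ha T ξ _ fun l => ?_⟩
  change evm d (V0 k) (lcoeff k l) (Tp.obj (Tm.obj T)) _ = _
  rw [map_sub, Tr.cA_spec, D.em, evm_smul, evm_zmap, (L.id R).eta_nat _ T, LinearMap.comp_add,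
    LinearMap.comp_assoc, add_sub_cancel_left]
  rfl

theorem otw_pi (L : Lib k) (d : Fam R) : ∃ a, ∀ (A B : FO k R k) (f : A.X →ₗ[R] B.X),
    f ∈ P0 A B ∨ f ∈ I0 A B → ∀ ω : ZZ d A.X, zmap d f ω ∈ Zs d a B.X := by
  obtain ⟨a, ha⟩ := (L.noe R).short k d (T0F k R k) ((L.fd R).t0 k)
  refine ⟨a, ?_⟩
  rintro A B _ (⟨g, -, rfl⟩ | ⟨g, -, rfl⟩) ω
  · rw [zmap_comp]
    exact Zs_zmap _ (short_iff.mp ((L.cc R).short d a _ _ ((L.cc R).pa B.X) ha) _)
  · rw [zmap_comp]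
    exact Zs_zmap _ (short_iff.mp ((L.cc R).short d a _ _ ((L.cc R).ia A.X) ha) _)
end aux

theorem t_OTW (k : Type u) [Field k] [IsAlgClosed k] (R : Type u) [Ring R] [Algebra k R]
    [FiniteDimensional k R]
    (L : Lib k) :
    S_OTW k R := by
  intro d D
  obtain ⟨a1, h1⟩ := otw_rp L D
  obtain ⟨a2, h2⟩ := otw_rm L D
  obtain ⟨a3, h3⟩ := otw_pi L d
  refine ⟨a1 + a2 + a3, fun T ξ => Zs_mono (by omega) (h1 T ξ), fun T ω => ?_, fun T ω => ?_⟩
  · refine ⟨zmap d (eps T) (D.Pm.t _ ω), ?_⟩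
    have s1 := Zs_mono (show a2 ≤ a1 + a2 + a3 by omega) (Zs_zmap (Tp.map (eps T)) (h2 _ ω))
    have s2 : zmap d (Tp.map (eps T) ∘ₗ eta (Tp.obj T) - LinearMap.id) ω ∈
        Zs d (a1 + a2 + a3) (Tp.obj T) :=
      Zs_mono (by omega) (h3 _ _ _ (Or.inr ((L.st R).tri_p k (FO.ofMd T))) ω)
    have s := neg_mem (add_mem s1 (Submodule.smul_mem _ (D.hp * D.hm) s2))
    rw [zmap_sub, zmap_comp, zmap_id, map_sub, map_smul, ← D.Pp.nat, smul_sub] at s
    rwa [sub_add_sub_cancel, neg_sub] at s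
  · obtain ⟨g, hg, -, hg'⟩ := (L.st R).eta_inv k (FO.ofMd T)
    change Tp.obj (Tm.obj T) →ₗ[R] T at g
    refine ⟨zmap d g (D.Pp.t _ ω), ?_⟩
    have p1 := (L.id R).p0_r k (Tm.onF (Tp.onF (Tm.onF (FO.ofMd T)))) _ _ _
      ((L.st R).tri_m k (FO.ofMd T)) (Tm.map g) (mem_HomF_k _)
    have p2 := (L.id R).p0_l k _ _ (Tm.onF (FO.ofMd T)) _ ((L.st R).tm k _ _ _ hg')
      (eps (Tm.obj T)) (mem_HomF_k _)
    have e : (eps (Tm.obj T) ∘ₗ Tm.map (eta T) - LinearMap.id) ∘ₗ Tm.map g -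
        eps (Tm.obj T) ∘ₗ Tm.map (eta T ∘ₗ g - LinearMap.id) = eps (Tm.obj T) - Tm.map g := by
      rw [map_sub, Tm.map_comp, Tm.map_id, LinearMap.sub_comp, LinearMap.comp_sub,
        LinearMap.id_comp, LinearMap.comp_id, LinearMap.comp_assoc]
      abel
    have s2 : zmap d ((eps (Tm.obj T) ∘ₗ Tm.map (eta T) - LinearMap.id) ∘ₗ Tm.map g -
        eps (Tm.obj T) ∘ₗ Tm.map (eta T ∘ₗ g - LinearMap.id)) (D.Pm.t _ (D.Pp.t _ ω)) ∈
        Zs d (a1 + a2 + a3) (Tm.obj T) :=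
      Zs_mono (by omega) (h3 _ _ _ (Or.inl (sub_mem p1 p2)) _)
    have s := sub_mem s2 (Zs_mono (show a1 ≤ a1 + a2 + a3 by omega) (h1 _ ω))
    rw [e, zmap_sub, ← D.Pm.nat, sub_sub_sub_cancel_left] at s
    exact s

end Pool.Agent.P.MP_cf639b_al
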