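import Pool.Agent.P.MP_cf639b_al.Iface

set_option linter.dupNamespace false

namespace Pool.Agent.P.MP_cf639b_al

universe u v
open TensorProduct Polynomial Function

section
variable {k : Type u} [Field k] {R : Type u} [Ring R] [Algebra k R] {F : Type u} [Field F]
  [Algebra k F]

theorem swf_aeval (q : F[X]) (p : k[X]) (z : F[X]) :
    aeval (LinearMap.mulLeft k (Qmk q X)) p (Qmk q z) = Qmk q (p.map (algebraMap k F) * z) := by
  have e : LinearMap.mulLeft k (Qmk q X) =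
      ((Algebra.lmul k (QT q)).comp (Ideal.Quotient.mkₐ k (Ideal.span {q}))) X := rfl
  rw [e, aeval_algHom_apply, aeval_X_left_eq_map, map_mul]
  rfl

theorem swf_xlin (y : F) (n m : ℕ) : XLin (J k y n) (J k y m) (jm k y n m) := fun a v => by
  obtain ⟨p, rfl⟩ := Ideal.Quotient.mk_surjective v
  change jmL k y n m (Jmk y n (C a) * Jmk y n p) = Jmk y m (C a) * jmL k y n m (Jmk y n p)
  rw [← map_mul, jmL_mk, jmL_mk, ← map_mul, mul_left_comm]

theorem swf_mul (d : Fam R) (A : FO k R F) (p q : F[X]) (u : EE d A.X) :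
    polE d A (p * q) u = polE d A p (polE d A q u) := by
  rw [polE, map_mul]
  rfl

theorem swf_cop {y : F} {P : F[X]} (h : ¬ X - C y ∣ P) (n : ℕ) : IsCoprime ((X - C y) ^ n) P :=
  ((irreducible_X_sub_C y).coprime_iff_not_dvd.2 h).pow_left

theorem swf_ord {W : Type u} [AddCommGroup W] [Module k W] {π : Module.End k W} {t : W} {n : ℕ}
    (h : Trs π t) (hn : (π ^ n) t ≠ 0) : ∃ u, (π ^ (n + 1)) u = 0 ∧ (π ^ n) u ≠ 0 := by
  obtain ⟨m, hm⟩ := h
  induction m generalizing t with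
  | zero => exact absurd (by rw [show t = 0 from hm, map_zero]) hn
  | succ m ih =>
    by_cases b : (π ^ (n + 1)) t = 0
    · exact ⟨t, b, hn⟩
    · exact ih (t := π t) b hm

variable [FiniteDimensional k R] (L : Lib k) (d : Fam R)
include L

theorem swf_ann {A : FO k R F} {y : F} {u : EE d A.X} {m : ℕ} {P : F[X]}
    (hP : polE d A P u = 0) (h1 : (piE d A y ^ (m + 1)) u = 0) (h2 : (piE d A y ^ m) u ≠ 0) :
    (X - C y) ^ (m + 1) ∣ P := by
  by_contra hn
  have P0 : P ≠ 0 := fun b => hn (b ▸ dvd_zero _)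
  obtain ⟨q, e, hq⟩ := exists_eq_pow_rootMultiplicity_mul_and_not_dvd P P0 y
  generalize rootMultiplicity y P = r at e
  subst e
  obtain ⟨j, rfl⟩ : ∃ j, m = j + r := by
    refine ⟨m - r, ?_⟩
    by_contra b
    exact hn (Dvd.dvd.mul_right (pow_dvd_pow _ (by omega)) q)
  obtain ⟨a, b, hab⟩ := swf_cop hq (j + 1)
  rw [← (L.bock R).piE_pol] at h1 h2
  refine h2 ?_
  have := congrArg (fun g => polE d A (g * (X - C y) ^ (j + r)) u) hab
  rw [one_mul] at this
  have e : (a * (X - C y) ^ (j + 1) + b * q) * (X - C y) ^ (j + r) =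
      a * (X - C y) ^ j * (X - C y) ^ (j + r + 1) + b * (X - C y) ^ j * ((X - C y) ^ r * q) := by
    ring
  rw [← this, e, polE, map_add, LinearMap.add_apply, ← polE, ← polE, swf_mul d A _ (_ ^ (_ + 1)),
    swf_mul d A _ (_ * q), h1, hP, map_zero, map_zero, add_zero]

theorem swf_top {A : FO k R F} (hA : A.fd) {y : F} {n : ℕ}
    (h : ¬ ∀ t, Trs (piE d A y) t → (piE d A y ^ n) t = 0) :
    ∃ (N : ℕ) (u : EE d A.X) (β : F[X]), n < N ∧ (piE d A y ^ N) u = 0 ∧ ¬ X - C y ∣ β ∧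
      ∃ b ∈ HomF A (YF d (J k y N)), hat d (J k y N).V b u = Jmk y N β := by
  classical
  have ex := (L.noe R).expo F d A hA y
  have h1 := Nat.find_spec ex
  have h2 : n < Nat.find ex := by
    by_contra b
    obtain ⟨j, hj⟩ := Nat.exists_eq_add_of_le' (not_lt.1 b)
    exact h fun t ht => by rw [hj, pow_add, Module.End.mul_apply, h1 t ht, map_zero]
  obtain ⟨M, hM⟩ : ∃ M, Nat.find ex = M + 1 := ⟨Nat.find ex - 1, by omega⟩
  have h3 := Nat.find_min ex (m := M) (by omega)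
  rw [hM] at h1 h2
  push Not at h3
  obtain ⟨u, u1, u2⟩ := h3
  obtain ⟨b, hb, e⟩ := L.co R F d A hA y (M + 1) h1 u u1
  obtain ⟨β, hβ⟩ := Ideal.Quotient.mk_surjective (hat d (J k y (M + 1)).V b u : JT y (M + 1))
  refine ⟨M + 1, u, β, h2, h1 u u1, fun hd => u2 ((e M).1 ?_), b, hb, hβ.symm⟩
  rw [← hβ, ← map_mul, Ideal.Quotient.eq_zero_iff_mem, Ideal.mem_span_singleton, pow_succ]
  exact mul_dvd_mul_left _ hd

theorem swf_pik (p : k) (T : Md k R) (n : ℕ) :
    piK d p T ^ n = aeval (EX d T) ((X - C p : k[X]) ^ n) := by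
  rw [(L.bock R).piK_pol, map_pow]

theorem swf_hat (N : NTh k R d) {p : k} {s : ℕ} (hs : Expo d p s N.Q') (V : XV k) {T : Md k R}
    (b : T →ₗ[R] Y d V) {u : EE d T} (hu : Trs (piK d p T) u) :
    aeval V.x ((X - C p : k[X]) ^ s) (hat d V (N.th.app V) (Emap d (N.th'.app V ∘ₗ b) u)) =
      aeval V.x ((X - C p : k[X]) ^ s) (aeval V.x N.h (hat d V b u)) := by
  obtain ⟨n, hn⟩ := hu
  have e1 := (L.cc R).expo d p s _ _ ((L.cc R).ten N.Q' V) hs (Emap d (N.a'.app V ∘ₗ b) u)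
    ⟨n, by rw [← (L.bock R).emap_piK, hn, map_zero]⟩
  rw [← (L.bock R).hat_comp, ← LinearMap.comp_assoc, N.eY, LinearMap.add_comp,
    (L.bock R).hat_add, LinearMap.add_apply, (L.bock R).hat_map, LinearMap.comp_assoc,
    (L.bock R).hat_comp, map_add, ← (L.bock R).hat_pol d V _ (N.b'.app V), ← swf_pik L, e1,
    map_zero, add_zero]
  rfl

end

theorem t_SWF (k : Type u) [Field k] [IsAlgClosed k] (R : Type u) [Ring R] [Algebra k R]
    [FiniteDimensional k R]
    (L : Lib k)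
    (hNTH : S_NTH k R)
    (hL0 : S_L0 k R) :
    S_SWF k R := by
  intro d K _ _ t ht ck p
  obtain ⟨N⟩ := hNTH d K t ht ck
  obtain ⟨g, g0, hg⟩ := hL0 d K t ht ck
  obtain ⟨s, hs⟩ := (L.noe R).expok d N.Q' N.fd' p
  have hr := pow_rootMultiplicity_not_dvd (mul_ne_zero g0 N.hh) p
  generalize rootMultiplicity p (g * N.h) = r at hr
  refine ⟨s + r, fun F _ _ A A' hA n h1 h2 => ?_⟩
  generalize hy : algebraMap k F p = y
  have eA := (L.bock R).piE_k F d p A
  have eA' := (L.bock R).piE_k F d p A'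
  have ey : (X - C p : k[X]).map (algebraMap k F) = X - C y := by simp [hy]
  rw [hy] at eA eA'
  rw [Expo, ← eA] at h1
  rw [Expo, ← eA'] at h2
  obtain ⟨M, u, β, hM, u0, hβ, b, hb, eb⟩ := swf_top L d hA h1
  push Not at h2
  obtain ⟨t', t1, t2⟩ := h2
  obtain ⟨u', u1, u2⟩ := swf_ord t1 t2
  obtain ⟨a, ha, ea⟩ := (L.rep R).repJ F d A' y _ u' u1
  generalize hm : n + (s + r) + 1 = m at a ha ea
  have tu : Trs (piK d p A.X) u := ⟨M, eA ▸ u0⟩
  let b1 : A.X →ₗ[R] Y d (J k y m).V := (YN d).map (jm k y M m) ∘ₗ b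
  have e1 : hat d (J k y m).V b1 u = Jmk y m β := by
    rw [(L.bock R).hat_map, eb]
    refine (jm_mk y M m β).trans ?_
    rw [show m - M = 0 by omega, pow_zero, one_mul]
  obtain ⟨v, hv⟩ := hg (J k y m).V (Emap d (N.th'.app _ ∘ₗ b1) u) ((X - C p) ^ M)
    (pow_ne_zero _ (X_sub_C_ne_zero p)) (by
      rw [← swf_pik L, ← (L.bock R).emap_piK, ← eA, u0, map_zero])
  obtain ⟨v, rfl⟩ := Ideal.Quotient.mk_surjective v
  refine ⟨a ∘ₗ N.th'.app _ ∘ₗ b1, HomF.comp ha (HomF.comp (N.th'.mem (J k y m))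
    (HomF.comp ((YN d).map_mem _ (swf_xlin y M m)) hb)), u, tu, fun h0 => hr ?_⟩
  have e2 : polE d A' ((X - C y) ^ n * v) u' = 0 := by
    have a1 := (L.bock R).jq F d _ v A' a ha
    rw [(L.bock R).eq, (L.bock R).eq d _ _ a (1 : QT _)] at a1
    have a2 : polE d A' v u' = aeval (EX d A'.X) g (Emap d a (Emap d (N.th'.app _ ∘ₗ b1) u)) := by
      rw [← (L.bock R).emap_pol, hv, ea]
      exact a1.symm
    rw [Emap_comp, LinearMap.comp_apply, ← eA', ← (L.bock R).piE_pol] at h0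
    rw [swf_mul, a2, ← (L.bock R).polE_k, ← swf_mul, mul_comm, swf_mul, h0, map_zero]
  have e3 := swf_ann L d e2 u1 u2
  have e4 := swf_hat L d N hs (J k y m).V b1 tu
  have e5 := N.ev (J k y m).V (Qmk _ v)
  have e6 := (L.bock R).hat_pol d (J k y m).V _ (N.th.app _) g (Emap d (N.th'.app _ ∘ₗ b1) u)
  rw [hv] at e6
  have e7 : aeval (J k y m).V.x ((X - C p : k[X]) ^ s) (aeval (J k y m).V.x N.c (Qmk _ v)) =
      aeval (J k y m).V.x g (aeval (J k y m).V.x ((X - C p : k[X]) ^ s)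
        (aeval (J k y m).V.x N.h (Jmk y m β))) := by
    rw [← e1, ← e4, ← Module.End.mul_apply (aeval _ g), ← map_mul, mul_comm g, map_mul,
      Module.End.mul_apply, ← e6]
    exact congrArg _ e5.symm
  have e8 := ((congrArg _ (swf_aeval _ N.c v)).trans (swf_aeval _ _ _)).symm.trans (e7.trans
    ((congrArg _ ((congrArg _ (swf_aeval _ N.h β)).trans (swf_aeval _ _ _))).trans
      (swf_aeval _ _ _)))
  rw [Ideal.Quotient.eq, Ideal.mem_span_singleton, Polynomial.map_pow, ey, ← hm] at e8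
  have e9 : (X - C y) ^ (n + s) * (X - C y) ^ (r + 1) ∣
      (X - C y) ^ (n + s) * ((g * N.h).map (algebraMap k F) * β) := by
    have := dvd_sub (e3.mul_left ((X - C y) ^ s * N.c.map (algebraMap k F)))
      (e8.mul_left ((X - C y) ^ n))
    rw [← pow_add, show n + s + (r + 1) = n + (s + r) + 1 by ring]
    refine this.trans (dvd_of_eq ?_)
    rw [Polynomial.map_mul]
    ring
  have e10 := (swf_cop hβ (r + 1)).dvd_of_dvd_mul_right
    ((mul_dvd_mul_iff_left (pow_ne_zero _ (X_sub_C_ne_zero y))).1 e9)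
  rw [← map_dvd_map' (algebraMap k F), Polynomial.map_pow, ey]
  exact e10

end Pool.Agent.P.MP_cf639b_al
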