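import Pool.Agent.P.MP_cf639b_al.Iface

set_option linter.dupNamespace false

namespace Pool.Agent.P.MP_cf639b_al

universe u v
open TensorProduct Polynomial Function

section aux
variable {k : Type u} [Field k] {R : Type u} [Ring R] [Algebra k R]

/-- contraction of `Q ⊗ V` with a functional on `V` -/
noncomputable def ten_p (Q : Md k R) {V : Type u} [AddCommGroup V] [Module k V]
    (c : V →ₗ[k] k) : (TenA V).obj Q →ₗ[R] Q :=
  AlgebraTensorModule.lift
    { toFun := fun q => c.smulRight q
      map_add' := fun _ _ => LinearMap.ext fun _ => by simp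
      map_smul' := fun r q => LinearMap.ext fun v => by simp [smul_comm r] }

theorem ten_p_tmul (Q : Md k R) {V : Type u} [AddCommGroup V] [Module k V] (c : V →ₗ[k] k)
    (q : Q) (v : V) : ten_p Q c (q ⊗ₜ[k] v) = c v • q := rfl

theorem ten_p_tenI (Φ : AFun k R) (Q : Md k R) {V : Type u} [AddCommGroup V] [Module k V]
    (c : V →ₗ[k] k) : Φ.map (ten_p Q c) ∘ₗ tenI Φ Q V = ten_p (Φ.obj Q) c := by
  refine AlgebraTensorModule.ext fun z v => ?_
  have e : ten_p Q c ∘ₗ tmr Q V v = c v • LinearMap.id := LinearMap.ext fun _ => rfl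
  change Φ.map (ten_p Q c) (Φ.map (tmr Q V v) z) = c v • z
  rw [← LinearMap.comp_apply, ← Φ.map_comp, e, map_smul, Φ.map_id]
  rfl

/-- the projections onto finitely many coordinates -/
noncomputable def ten_E (Q : Md k R) {V : Type u} [AddCommGroup V] [Module k V] {ι : Type u}
    (b : Module.Basis ι k V) (s : Finset ι) : (TenA V).obj Q →ₗ[R] (TenA V).obj Q :=
  ∑ i ∈ s, tmr Q V (b i) ∘ₗ ten_p Q (b.coord i)

theorem ten_E_ev (Q : Md k R) {V : Type u} [AddCommGroup V] [Module k V] {ι : Type u}
    (b : Module.Basis ι k V) (x : Q ⊗[k] V) :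
    ∀ᶠ s in Filter.atTop, ten_E Q b s x = x := by
  induction x using TensorProduct.induction_on with
  | zero => exact Filter.Eventually.of_forall fun s => map_zero _
  | tmul q v =>
    filter_upwards [Filter.eventually_ge_atTop (b.repr v).support] with s hs
    have e1 : ten_E Q b s (q ⊗ₜ[k] v) = ∑ i ∈ s, (b.repr v i • q) ⊗ₜ[k] b i :=
      LinearMap.sum_apply _ _ _
    have e2 : ∑ i ∈ s, b.repr v i • b i = v := by
      conv_rhs => rw [← b.linearCombination_repr v, Finsupp.linearCombination_apply]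
      exact (Finsupp.sum_of_support_subset _ hs (fun i a => a • b i)
        fun i _ => zero_smul k (b i)).symm
    rw [e1]
    conv_rhs => rw [← e2, tmul_sum]
    exact Finset.sum_congr rfl fun i _ => smul_tmul _ _ _
  | add x y hx hy =>
    filter_upwards [hx, hy] with s h1 h2
    exact ((ten_E Q b s).map_add x y).trans (congrArg₂ _ h1 h2)

theorem ten_inj (Φ : AFun k R) (Q : Md k R) (V : Type u) [AddCommGroup V] [Module k V] :
    Injective (tenI Φ Q V) := by
  classical
  rw [injective_iff_map_eq_zero]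
  intro x hx
  let b := Module.Basis.ofVectorSpace k V
  obtain ⟨s, hs⟩ := (ten_E_ev (Φ.obj Q) b x).exists
  rw [← hs]
  refine (LinearMap.sum_apply _ _ _).trans (Finset.sum_eq_zero fun i _ => ?_)
  rw [LinearMap.comp_apply, ← ten_p_tenI, LinearMap.comp_apply, hx, map_zero, map_zero]

theorem ten_surj (Φ : AFun k R) (Q : Md k R) (V : Type u) [AddCommGroup V] [Module k V]
    {ι : Type u} (b : Module.Basis ι k V)
    (h : ∀ w, ∃ s, Φ.map (ten_E Q b s) w = w) : Surjective (tenI Φ Q V) := by
  intro w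
  obtain ⟨s, hs⟩ := h w
  refine ⟨∑ i ∈ s, Φ.map (ten_p Q (b.coord i)) w ⊗ₜ[k] b i, ?_⟩
  refine (map_sum (tenI Φ Q V) _ _).trans ?_
  conv_rhs => rw [← hs, ten_E, map_sum, LinearMap.sum_apply]
  refine Finset.sum_congr rfl fun i _ => ?_
  rw [Φ.map_comp]
  rfl

theorem ten_Pmap {ι : Type u} {l : Filter ι} {W : Type u} [AddCommGroup W] [Module k W]
    (E : ι → W →ₗ[k] W) (h : ∀ x, ∀ᶠ s in l, E s x = x) (x : R ⊗[k] W) :
    ∀ᶠ s in l, Pmap (E s) x = x := by
  induction x using TensorProduct.induction_on with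
  | zero => exact Filter.Eventually.of_forall fun s => map_zero _
  | tmul r v =>
    filter_upwards [h v] with s hs
    rw [Pmap_tmul, hs]
  | add x y hx hy =>
    filter_upwards [hx, hy] with s h1 h2
    rw [map_add, h1, h2]

theorem ten_Imap [FiniteDimensional k R] {ι : Type u} {l : Filter ι} {W : Type u}
    [AddCommGroup W] [Module k W]
    (E : ι → W →ₗ[k] W) (h : ∀ x, ∀ᶠ s in l, E s x = x) (x : CoInd k R W) :
    ∀ᶠ s in l, Imap (E s) x = x := by
  filter_upwards [Filter.eventually_all.2 fun i => h (x (bR k R i))] with s hs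
  exact (bR k R).ext (f₁ := (Imap (E s) x).lin) (f₂ := x.lin) hs

end aux

theorem t_TEN (k : Type u) [Field k] [IsAlgClosed k] (R : Type u) [Ring R] [Algebra k R]
    [FiniteDimensional k R] :
    S_TEN k R := by
  classical
  intro e Q V _ _
  let b := Module.Basis.ofVectorSpace k V
  refine ⟨ten_inj _ Q V, ten_surj _ Q V b ?_⟩
  have h0 : ∀ x, ∀ᶠ s in Filter.atTop, (ten_E Q b s).restrictScalars k x = x := ten_E_ev Q b
  cases e with
  | true =>
    intro w
    obtain ⟨s, hs⟩ := (ten_Imap (R := R)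
      (fun s => (Pmap (R := R) ((ten_E Q b s).restrictScalars k)).restrictScalars k)
      (ten_Pmap _ h0) w.1).exists
    refine ⟨s, Subtype.ext ?_⟩
    change nu (Pmap (R := R)
      ((Pmap (R := R) ((ten_E Q b s).restrictScalars k)).restrictScalars k)) w.1 = w.1
    rw [nu_Pmap]
    exact hs
  | false =>
    intro w
    obtain ⟨x, rfl⟩ := Submodule.Quotient.mk_surjective _ w
    obtain ⟨s, hs⟩ := (ten_Pmap (R := R)
      (fun s => (Imap (R := R) ((ten_E Q b s).restrictScalars k)).restrictScalars k)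
      (ten_Imap _ h0) x).exists
    exact ⟨s, congrArg Submodule.Quotient.mk hs⟩

end Pool.Agent.P.MP_cf639b_al
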